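import Pool.Agent.Lib.MP_79499b_co.Q38Small

/-!
# Lower Mertens bounds for the primes `≡ 1 (mod l)` and for the primes `≡ 3 (mod 4)`
-/

namespace Pool.Agent.Lib.MP_79499b_co.Q38

open Finset Filter Topology
open scoped NumberTheorySymbols

/-- a Dirichlet character as a function on `ℕ` -/
noncomputable def dc {l : ℕ} (hl : 2 ≤ l) (ψ : DirichletCharacter ℂ l) : ℕ →*₀ ℂ where
  toFun n := ψ n
  map_zero' := by
    have : Fact (1 < l) := ⟨by omega⟩
    rw [Nat.cast_zero]
    exact MulChar.map_nonunit ψ not_isUnit_zero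
  map_one' := by simp
  map_mul' m n := by simp

lemma dc_apply {l : ℕ} (hl : 2 ≤ l) (ψ : DirichletCharacter ℂ l) (n : ℕ) : dc hl ψ n = ψ n := rfl

lemma norm_dc_le {l : ℕ} (hl : 2 ≤ l) (ψ : DirichletCharacter ℂ l) (n : ℕ) : ‖dc hl ψ n‖ ≤ 1 :=
  ψ.norm_le_one n

lemma tsum_tw_dc {l : ℕ} (hl : 2 ≤ l) (ψ : DirichletCharacter ℂ l) {s : ℝ} (hs : 1 < s) :
    ∑' n, tw (dc hl ψ) s n =
      (haveI : NeZero l := ⟨by omega⟩; DirichletCharacter.LFunction ψ (s : ℂ)) := by
  have : NeZero l := ⟨by omega⟩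
  have hs' : 1 < (s : ℂ).re := by simpa using hs
  rw [DirichletCharacter.LFunction_eq_LSeries ψ hs', ← tsum_dirichletSummand ψ hs']
  refine tsum_congr fun n => ?_
  rw [tw_apply, dc_apply]
  simp only [dirichletSummandHom, MonoidWithZeroHom.coe_mk, ZeroHom.coe_mk]
  congr 1
  rw [Complex.ofReal_cpow (Nat.cast_nonneg n)]
  push_cast
  rfl

lemma exists_lower {l : ℕ} (hl : 2 ≤ l) (ψ : DirichletCharacter ℂ l) (hψ : ψ ≠ 1) :
    ∃ C : ℝ, ∀ s ∈ Set.Ioc (1 : ℝ) 2, -C ≤ Real.log ‖∑' n, tw (dc hl ψ) s n‖ := by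
  have : NeZero l := ⟨by omega⟩
  have hcont : ContinuousOn (fun s : ℝ => Real.log ‖DirichletCharacter.LFunction ψ (s : ℂ)‖)
      (Set.Icc 1 2) := by
    apply ContinuousOn.log
    · exact ((DirichletCharacter.differentiable_LFunction hψ).continuous.comp
        Complex.continuous_ofReal).norm.continuousOn
    · intro s hs
      rw [norm_ne_zero_iff]
      exact DirichletCharacter.LFunction_ne_zero_of_one_le_re ψ (Or.inl hψ) (by simpa using hs.1)
  obtain ⟨C, hC⟩ := bddBelow_def.mp (isCompact_Icc.bddBelow_image hcont)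
  refine ⟨-C, fun s hs => ?_⟩
  rw [tsum_tw_dc hl ψ hs.1, neg_neg]
  exact hC _ ⟨s, ⟨hs.1.le, hs.2⟩, rfl⟩

/-- the sum of the reciprocals of the primes `< x` in the class `a` mod `q` -/
noncomputable def msum (q a x : ℕ) : ℝ :=
  ∑ p ∈ (range x).filter (fun p => p.Prime ∧ p % q = a), ((p : ℝ))⁻¹

lemma msum_eq_fsum (q a x : ℕ) : msum q a x = fsum (fun n => if n % q = a then 1 else 0) x := by
  unfold msum fsum
  rw [← Finset.filter_filter, Finset.sum_filter]
  refine Finset.sum_congr rfl fun p _ => ?_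
  change (if p % q = a then ((p : ℝ))⁻¹ else 0) = (if p % q = a then (1 : ℝ) else 0) / p
  split_ifs
  · rw [one_div]
  · simp

theorem mertens_one_mod {l : ℕ} (hl : 2 ≤ l) : ∃ C : ℝ, ∀ x : ℕ, 3 ≤ x →
    ((l.totient : ℝ))⁻¹ * Real.log (Real.log x) - C ≤ msum l 1 x := by
  classical
  have : NeZero l := ⟨by omega⟩
  obtain ⟨C1, hC10, hC1⟩ := exists_transfer
  obtain ⟨C2, hC20, hC2⟩ := mertens_two
  have hφ : 0 < (l.totient : ℝ) := by
    have := Nat.totient_pos.mpr (show 0 < l by omega)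
    positivity
  have hex : ∀ ψ : DirichletCharacter ℂ l, ∃ C : ℝ, ψ ≠ 1 →
      ∀ s ∈ Set.Ioc (1 : ℝ) 2, -C ≤ Real.log ‖∑' n, tw (dc hl ψ) s n‖ := by
    intro ψ
    by_cases h : ψ = 1
    · exact ⟨0, fun h' => absurd h h'⟩
    · obtain ⟨C, hC⟩ := exists_lower hl ψ h
      exact ⟨C, fun _ => hC⟩
  choose K hK using hex
  have hc2 : 0 ≤ c2 := tsum_nonneg fun n => by positivity
  -- lower bound for each character
  have hlow : ∀ ψ : DirichletCharacter ℂ l, ψ ≠ 1 → ∀ x : ℕ, 3 ≤ x →
      -(|K ψ| + c2) ≤ psum (fun n => (dc hl ψ n).re) (sx x) := by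
    intro ψ hψ x hx
    have h1 := abs_le.mp (psum_re_sub_log (norm_dc_le hl ψ) (sx_mem hx).1)
    have h2 := hK ψ hψ (sx x) (sx_mem hx)
    have h3 := le_abs_self (K ψ)
    linarith [h1.1]
  have hone : ∀ x : ℕ, 3 ≤ x → Real.log (Real.log x) - (C1 + C2 + l) ≤
      psum (fun n => (dc hl (1 : DirichletCharacter ℂ l) n).re) (sx x) := by
    intro x hx
    have hs := (sx_mem hx).1
    have h1 := abs_le.mp (hC1 (fun _ => 1) (by simp) x hx)
    have h2 := abs_le.mp (hC2 x hx)
    -- psum 1 - psum re ≤ l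
    have h3 : psum (fun _ => 1) (sx x) - psum (fun n => (dc hl (1 : DirichletCharacter ℂ l) n).re) (sx x) ≤ l := by
      unfold psum
      rw [← (summable_psum (g := fun _ => 1) (by simp) hs).tsum_sub (summable_psum
        (fun n => (Complex.abs_re_le_norm _).trans (norm_dc_le hl _ n)) hs)]
      rw [tsum_eq_sum (s := range (l + 1))]
      · calc _ ≤ ∑ n ∈ range (l + 1), (if n = 0 then (0 : ℝ) else 1) := by
              refine Finset.sum_le_sum fun n _ => ?_
              by_cases hn : n.Prime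
              · rw [if_pos hn, if_pos hn, if_neg hn.ne_zero]
                have hre : (0 : ℝ) ≤ (dc hl (1 : DirichletCharacter ℂ l) n).re := by
                  rw [dc_apply]
                  by_cases hu : IsUnit ((n : ℕ) : ZMod l)
                  · rw [MulChar.one_apply hu]; simp
                  · rw [MulChar.map_nonunit _ hu]; simp
                have hpow : (n : ℝ) ^ (-(sx x)) ≤ 1 :=
                  Real.rpow_le_one_of_one_le_of_nonpos (by exact_mod_cast hn.one_lt.le) (by linarith)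
                have hpow0 : 0 ≤ (n : ℝ) ^ (-(sx x)) := by positivity
                nlinarith
              · rw [if_neg hn, if_neg hn, sub_zero]
                split_ifs <;> norm_num
          _ = l := by
              rw [Finset.sum_range_succ']
              simp
      · intro n hn
        by_cases hp : n.Prime
        · rw [if_pos hp, if_pos hp]
          have hnl : ¬ n ∣ l := by
            intro h
            have := Nat.le_of_dvd (by omega) h
            exact hn (Finset.mem_range.mpr (by omega))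
          have hu : IsUnit ((n : ℕ) : ZMod l) := by
            rw [ZMod.isUnit_iff_coprime]
            exact (Nat.Prime.coprime_iff_not_dvd hp).mpr hnl
          rw [dc_apply, MulChar.one_apply hu]
          simp
        · rw [if_neg hp, if_neg hp, sub_zero]
    linarith [h1.2, h2.1]
  refine ⟨C1 + ((l.totient : ℝ))⁻¹ * (C1 + C2 + l) + ((l.totient : ℝ))⁻¹ *
    ∑ ψ : DirichletCharacter ℂ l, (|K ψ| + c2), fun x hx => ?_⟩
  have hs := (sx_mem hx).1
  rw [msum_eq_fsum]
  have h1 := abs_le.mp (hC1 (fun n => if n % l = 1 then 1 else 0) (fun n => by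
    split_ifs <;> simp) x hx)
  have h2 : psum (fun n => if n % l = 1 then 1 else 0) (sx x) =
      ((l.totient : ℝ))⁻¹ * ∑ ψ : DirichletCharacter ℂ l, psum (fun n => (dc hl ψ n).re) (sx x) := by
    rw [← psum_lin Finset.univ _ (fun (ψ : DirichletCharacter ℂ l) n => (dc hl ψ n).re)
      (fun ψ _ n => (Complex.abs_re_le_norm _).trans (norm_dc_le hl ψ n)) hs]
    congr 1
    ext n
    rw [← Complex.re_sum]
    simp only [dc_apply]
    rw [DirichletCharacter.sum_characters_eq]
    have h3 : (n : ZMod l) = 1 ↔ n % l = 1 := by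
      rw [← Nat.cast_one, ZMod.natCast_eq_natCast_iff, Nat.ModEq, Nat.mod_eq_of_lt (show 1 < l by omega)]
    by_cases h4 : n % l = 1
    · rw [if_pos h4, if_pos (h3.mpr h4), Complex.natCast_re, inv_mul_cancel₀ hφ.ne']
    · rw [if_neg h4, if_neg (fun h => h4 (h3.mp h))]; simp
  have h5 : Real.log (Real.log x) - (C1 + C2 + l) - ∑ ψ : DirichletCharacter ℂ l, (|K ψ| + c2) ≤
      ∑ ψ : DirichletCharacter ℂ l, psum (fun n => (dc hl ψ n).re) (sx x) := by
    rw [← Finset.add_sum_erase Finset.univ (fun ψ : DirichletCharacter ℂ l =>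
      psum (fun n => (dc hl ψ n).re) (sx x)) (Finset.mem_univ (1 : DirichletCharacter ℂ l))]
    have h6 : -∑ ψ : DirichletCharacter ℂ l, (|K ψ| + c2) ≤
        ∑ ψ ∈ Finset.univ.erase (1 : DirichletCharacter ℂ l), psum (fun n => (dc hl ψ n).re) (sx x) := by
      calc -∑ ψ : DirichletCharacter ℂ l, (|K ψ| + c2) ≤
          -∑ ψ ∈ Finset.univ.erase (1 : DirichletCharacter ℂ l), (|K ψ| + c2) := by
            apply neg_le_neg
            apply Finset.sum_le_sum_of_subset_of_nonneg (Finset.erase_subset _ _)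
            intro ψ _ _
            positivity
        _ = ∑ ψ ∈ Finset.univ.erase (1 : DirichletCharacter ℂ l), -(|K ψ| + c2) := by
            rw [Finset.sum_neg_distrib]
        _ ≤ _ := Finset.sum_le_sum fun ψ hψ => hlow ψ (Finset.ne_of_mem_erase hψ) x hx
    have h7 := hone x hx
    linarith
  have h8 := mul_le_mul_of_nonneg_left h5 (inv_nonneg.mpr hφ.le)
  rw [← h2] at h8
  have h9 : ((l.totient : ℝ))⁻¹ * (Real.log (Real.log x) - (C1 + C2 + l) -
      ∑ ψ : DirichletCharacter ℂ l, (|K ψ| + c2)) = ((l.totient : ℝ))⁻¹ * Real.log (Real.log x) -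
      ((l.totient : ℝ))⁻¹ * (C1 + C2 + l) - ((l.totient : ℝ))⁻¹ *
      ∑ ψ : DirichletCharacter ℂ l, (|K ψ| + c2) := by ring
  rw [h9] at h8
  linarith [h1.1]

/-- the character mod 4 -/
noncomputable def x4 : ℕ →*₀ ℂ where
  toFun n := ((ZMod.χ₄ n : ℤ) : ℂ)
  map_zero' := by simp
  map_one' := by simp
  map_mul' m n := by rw [Nat.cast_mul, map_mul, Int.cast_mul]

theorem mertens_three_mod_four : ∃ C : ℝ, ∀ x : ℕ, 3 ≤ x →
    (1 / 2) * Real.log (Real.log x) - C ≤ msum 4 3 x := by
  classical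
  obtain ⟨C1, hC10, hC1⟩ := exists_transfer
  obtain ⟨C2, hC20, hC2⟩ := mertens_two
  have hx4 : ∀ n : ℕ, x4 n = ((ZMod.χ₄ n : ℤ) : ℂ) := fun n => rfl
  have hnorm : ∀ n, ‖x4 n‖ ≤ 1 := by
    intro n
    rw [hx4, ZMod.χ₄_nat_eq_if_mod_four]
    split_ifs <;> simp
  have hper : ∀ n, x4 (n % 4) = x4 n := by
    intro n
    rw [hx4, hx4, ZMod.χ₄_nat_mod_four n]
  have hpart : ∀ N, ‖∑ i ∈ range N, x4 i‖ ≤ (4 : ℕ) := by
    intro N
    refine norm_sum_range_le (by norm_num) _ hper ?_ hnorm N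
    simp only [Finset.sum_range_succ, Finset.sum_range_zero, hx4]
    have h0 : ZMod.χ₄ ((0 : ℕ) : ZMod 4) = 0 := by decide
    have h1 : ZMod.χ₄ ((1 : ℕ) : ZMod 4) = 1 := by decide
    have h2 : ZMod.χ₄ ((2 : ℕ) : ZMod 4) = 0 := by decide
    have h3 : ZMod.χ₄ ((3 : ℕ) : ZMod 4) = -1 := by decide
    rw [h0, h1, h2, h3]
    norm_num
  set B : ℝ := Real.log (Real.log (4 : ℕ) + 4) + c2 with hB
  have hub : ∀ x : ℕ, 3 ≤ x → psum (fun n => (x4 n).re) (sx x) ≤ B := by
    intro x hx
    have h1 := abs_le.mp (psum_re_sub_log hnorm (sx_mem hx).1)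
    have h2 := norm_tsum_tw_le hnorm (by norm_num) hpart (sx_mem hx).1
    have h5 : 0 ≤ Real.log (4 : ℕ) := Real.log_nonneg (by norm_num)
    have h3 : Real.log ‖∑' n, tw x4 (sx x) n‖ ≤ Real.log (Real.log (4 : ℕ) + 4) := by
      rcases (norm_nonneg (∑' n, tw x4 (sx x) n)).eq_or_lt with h | h
      · rw [← h, Real.log_zero]
        exact Real.log_nonneg (by linarith)
      · exact Real.log_le_log h h2
    linarith [h1.2]
  refine ⟨C1 + (C1 + C2) / 2 + 1 + B / 2, fun x hx => ?_⟩
  have hs := (sx_mem hx).1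
  rw [msum_eq_fsum]
  have h1 := abs_le.mp (hC1 (fun n => if n % 4 = 3 then 1 else 0) (fun n => by
    split_ifs <;> simp) x hx)
  have h1' := abs_le.mp (hC1 (fun _ => 1) (by simp) x hx)
  have h2' := abs_le.mp (hC2 x hx)
  -- g = (1 - 1_{2|n} - χ₄)/2
  have h2 : psum (fun n => if n % 4 = 3 then 1 else 0) (sx x) ≥
      (1 / 2) * psum (fun _ => 1) (sx x) - 1 - (1 / 2) * psum (fun n => (x4 n).re) (sx x) := by
    have hsa := summable_psum (g := fun _ => 1) (by simp) hs
    have hsb := summable_psum (g := fun n => (x4 n).re)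
      (fun n => (Complex.abs_re_le_norm _).trans (hnorm n)) hs
    have hsc := summable_psum (g := fun n => if n % 4 = 3 then (1 : ℝ) else 0) (fun n => by
      split_ifs <;> simp) hs
    have hsd : Summable (fun n : ℕ => if n = 2 then (1 : ℝ) else 0) :=
      summable_of_ne_finset_zero (s := {2}) (fun n hn => if_neg (by simpa using hn))
    have h3 : (1 / 2) * psum (fun _ => 1) (sx x) - (1 / 2) * psum (fun n => (x4 n).re) (sx x) ≤
        psum (fun n => if n % 4 = 3 then 1 else 0) (sx x) + 1 := by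
      have h4 : psum (fun n => if n % 4 = 3 then 1 else 0) (sx x) + 1 =
          psum (fun n => if n % 4 = 3 then 1 else 0) (sx x) +
            ∑' n : ℕ, if n = 2 then (1 : ℝ) else 0 := by
        rw [tsum_eq_single 2 (fun n hn => if_neg hn)]; simp
      rw [h4]
      unfold psum
      rw [← tsum_mul_left, ← tsum_mul_left, ← (hsa.mul_left _).tsum_sub (hsb.mul_left _),
        ← hsc.tsum_add hsd]
      refine ((hsa.mul_left _).sub (hsb.mul_left _)).tsum_le_tsum (fun n => ?_) (hsc.add hsd)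
      by_cases hp : n.Prime
      · simp only [hp, if_true]
        have hpow0 : 0 ≤ (n : ℝ) ^ (-(sx x)) := by positivity
        have hpow : (n : ℝ) ^ (-(sx x)) ≤ 1 :=
          Real.rpow_le_one_of_one_le_of_nonpos (by exact_mod_cast hp.one_lt.le) (by linarith)
        have hre : (x4 n).re = if n % 2 = 0 then 0 else if n % 4 = 1 then 1 else -1 := by
          rw [hx4, ZMod.χ₄_nat_eq_if_mod_four]
          split_ifs <;> simp
        rw [hre]
        generalize (n : ℝ) ^ (-(sx x)) = t at hpow0 hpow ⊢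
        rcases hp.eq_two_or_odd with h2 | h2
        · subst h2
          rw [if_pos (by norm_num : 2 % 2 = 0), if_neg (by norm_num : ¬ 2 % 4 = 3), if_pos rfl]
          linarith
        · have hn2 : n ≠ 2 := by rintro rfl; omega
          rw [if_neg (by omega : ¬ n % 2 = 0)]
          rcases (by omega : n % 4 = 1 ∨ n % 4 = 3) with h4 | h4
          · rw [if_pos h4, if_neg (by omega), if_neg hn2]
            linarith
          · rw [if_neg (by omega), if_pos h4, if_neg hn2]
            linarith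
      · simp only [hp, if_false]
        split_ifs <;> simp
    linarith
  have h3 := hub x hx
  linarith [h1.1, h1'.2, h2'.1]

/-- upper Mertens bound -/
theorem msum_one_le : ∃ C : ℝ, 0 ≤ C ∧ ∀ x : ℕ, 3 ≤ x → msum 1 0 x ≤ Real.log (Real.log x) + C := by
  obtain ⟨C2, hC20, hC2⟩ := mertens_two
  refine ⟨C2, hC20, fun x hx => ?_⟩
  have h := abs_le.mp (hC2 x hx)
  have h1 : msum 1 0 x = fsum (fun _ => 1) x := by
    rw [msum_eq_fsum]
    congr 1
    ext n
    rw [if_pos (Nat.mod_one n)]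
  rw [h1]
  linarith [h.2]

theorem mertens_all : ∃ C : ℝ, ∀ x : ℕ, 3 ≤ x → Real.log (Real.log x) - C ≤ msum 1 0 x := by
  obtain ⟨C2, hC20, hC2⟩ := mertens_two
  refine ⟨C2, fun x hx => ?_⟩
  have h := abs_le.mp (hC2 x hx)
  have h1 : msum 1 0 x = fsum (fun _ => 1) x := by
    rw [msum_eq_fsum]
    congr 1
    ext n
    rw [if_pos (Nat.mod_one n)]
  rw [h1]
  linarith [h.1]

end Pool.Agent.Lib.MP_79499b_co.Q38
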