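import Pool.Agent.Lib.MP_7b7e48_nt.GT.PNTAP

/-!
# Counting forms of the prime number theorem in progressions
-/

namespace Pool.Agent.Lib.MP_79499b_co.PC

open Finset Filter Topology

private lemma theta_le (q a x : ℕ) (hx : 2 ≤ x) :
    (∑ n ∈ Finset.Icc 1 (x - 1) with n % q = a % q, GT.lam n) ≤
      (((range x).filter (fun p => p.Prime ∧ p % q = a % q)).card : ℝ) * Real.log x := by
  classical
  have hlog : 0 ≤ Real.log x := Real.log_natCast_nonneg x
  rw [Finset.sum_filter]
  calc ∑ n ∈ Finset.Icc 1 (x - 1), (if n % q = a % q then GT.lam n else 0) ≤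
      ∑ n ∈ Finset.Icc 1 (x - 1), (if n.Prime ∧ n % q = a % q then Real.log x else 0) := by
        refine Finset.sum_le_sum fun n hn => ?_
        rw [Finset.mem_Icc] at hn
        unfold GT.lam
        by_cases hp : n.Prime
        · by_cases h4 : n % q = a % q
          · rw [if_pos h4, if_pos hp, if_pos ⟨hp, h4⟩]
            apply Real.log_le_log (by exact_mod_cast hn.1)
            exact_mod_cast (by omega : n ≤ x)
          · rw [if_neg h4]
            split_ifs
            · exact hlog
            · exact le_rfl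
        · have hp' : ¬ (n.Prime ∧ n % q = a % q) := fun h => hp h.1
          rw [if_neg hp, if_neg hp']
          split_ifs <;> exact le_rfl
    _ = (((Finset.Icc 1 (x - 1)).filter (fun n => n.Prime ∧ n % q = a % q)).card : ℝ) *
          Real.log x := by
          rw [← Finset.sum_filter, Finset.sum_const, nsmul_eq_mul]
    _ ≤ _ := by
          apply mul_le_mul_of_nonneg_right _ hlog
          have : (Finset.Icc 1 (x - 1)).filter (fun n => n.Prime ∧ n % q = a % q) ⊆
              (range x).filter (fun n => n.Prime ∧ n % q = a % q) := by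
            intro n hn
            rw [Finset.mem_filter, Finset.mem_Icc] at hn
            rw [Finset.mem_filter, Finset.mem_range]
            exact ⟨by omega, hn.2⟩
          exact_mod_cast Finset.card_le_card this

private lemma card_mul_le (q a x : ℕ) (y : ℝ) (hy : 1 ≤ y) :
    (((range x).filter (fun p => p.Prime ∧ p % q = a % q)).card : ℝ) * Real.log y ≤
      y * Real.log y + ∑ n ∈ Finset.Icc 1 (x - 1) with n % q = a % q, GT.lam n := by
  classical
  have hlog : 0 ≤ Real.log y := Real.log_nonneg hy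
  set A := (range x).filter (fun p => p.Prime ∧ p % q = a % q) with hA
  have h1 : (A.card : ℝ) = ((A.filter (fun p : ℕ => (p : ℝ) ≤ y)).card : ℝ) +
      ((A.filter (fun p : ℕ => ¬ (p : ℝ) ≤ y)).card : ℝ) := by
    exact_mod_cast (Finset.card_filter_add_card_filter_not (s := A) (fun p : ℕ => (p : ℝ) ≤ y)).symm
  have h2 : ((A.filter (fun p : ℕ => (p : ℝ) ≤ y)).card : ℝ) ≤ y := by
    have : A.filter (fun p : ℕ => (p : ℝ) ≤ y) ⊆ Finset.Icc 1 ⌊y⌋₊ := by
      intro p hp
      rw [Finset.mem_filter, hA, Finset.mem_filter] at hp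
      rw [Finset.mem_Icc]
      exact ⟨hp.1.2.1.pos, Nat.le_floor hp.2⟩
    have h3 := Finset.card_le_card this
    rw [Nat.card_Icc] at h3
    have h4 : ((A.filter (fun p : ℕ => (p : ℝ) ≤ y)).card : ℝ) ≤ (⌊y⌋₊ : ℝ) := by
      exact_mod_cast (by omega : (A.filter (fun p : ℕ => (p : ℝ) ≤ y)).card ≤ ⌊y⌋₊)
    exact h4.trans (Nat.floor_le (by linarith))
  have h3 : ((A.filter (fun p : ℕ => ¬ (p : ℝ) ≤ y)).card : ℝ) * Real.log y ≤
      ∑ n ∈ Finset.Icc 1 (x - 1) with n % q = a % q, GT.lam n := by
    have hsub : A.filter (fun p : ℕ => ¬ (p : ℝ) ≤ y) ⊆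
        (Finset.Icc 1 (x - 1)).filter (fun n => n % q = a % q) := by
      intro p hp
      rw [Finset.mem_filter, hA, Finset.mem_filter, Finset.mem_range] at hp
      rw [Finset.mem_filter, Finset.mem_Icc]
      have := hp.1.2.1.pos
      exact ⟨⟨this, by omega⟩, hp.1.2.2⟩
    calc ((A.filter (fun p : ℕ => ¬ (p : ℝ) ≤ y)).card : ℝ) * Real.log y =
        ∑ p ∈ A.filter (fun p : ℕ => ¬ (p : ℝ) ≤ y), Real.log y := by
          rw [Finset.sum_const, nsmul_eq_mul]
      _ ≤ ∑ p ∈ A.filter (fun p : ℕ => ¬ (p : ℝ) ≤ y), GT.lam p := by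
          refine Finset.sum_le_sum fun p hp => ?_
          rw [Finset.mem_filter, hA, Finset.mem_filter] at hp
          unfold GT.lam
          rw [if_pos hp.1.2.1]
          exact Real.log_le_log (by linarith) (not_le.mp hp.2).le
      _ ≤ _ := by
          apply Finset.sum_le_sum_of_subset_of_nonneg hsub
          intro n _ _
          unfold GT.lam
          split_ifs
          · exact Real.log_natCast_nonneg n
          · exact le_rfl
  calc (A.card : ℝ) * Real.log y = ((A.filter (fun p : ℕ => (p : ℝ) ≤ y)).card : ℝ) * Real.log y +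
      ((A.filter (fun p : ℕ => ¬ (p : ℝ) ≤ y)).card : ℝ) * Real.log y := by rw [h1]; ring
    _ ≤ _ := add_le_add (mul_le_mul_of_nonneg_right h2 hlog) h3

theorem primes_ap {q a : ℕ} (hq : 0 < q) (h : a.Coprime q) :
    Tendsto (fun x : ℕ => (((range x).filter (fun p => p.Prime ∧ p % q = a % q)).card : ℝ) *
      Real.log x / x) atTop (𝓝 (1 / (q.totient : ℝ))) := by
  classical
  have h0 := GT.pnt_ap q a hq h
  set θ : ℕ → ℝ := fun N => ∑ n ∈ Finset.Icc 1 N with n % q = a % q, GT.lam n with hθ
  have h1 : Tendsto (fun x : ℕ => θ (x - 1) / ((x - 1 : ℕ) : ℝ)) atTop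
      (𝓝 (1 / (q.totient : ℝ))) := h0.comp (tendsto_sub_atTop_nat 1)
  have hx : Tendsto (fun x : ℕ => (x : ℝ)) atTop atTop := tendsto_natCast_atTop_atTop
  have hlogx : Tendsto (fun x : ℕ => Real.log (x : ℝ)) atTop atTop :=
    Real.tendsto_log_atTop.comp hx
  have h2 : Tendsto (fun x : ℕ => ((x - 1 : ℕ) : ℝ) / x) atTop (𝓝 1) := by
    have h3 : Tendsto (fun x : ℕ => 1 - 1 / (x : ℝ)) atTop (𝓝 (1 - 0)) :=
      tendsto_const_nhds.sub (tendsto_const_nhds.div_atTop hx)
    rw [sub_zero] at h3
    refine h3.congr' ?_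
    filter_upwards [eventually_ge_atTop 1] with x hx1
    have hx0 : (x : ℝ) ≠ 0 := by positivity
    rw [Nat.cast_sub hx1]
    field_simp
    simp
  have h4 : Tendsto (fun x : ℕ => θ (x - 1) / x) atTop (𝓝 (1 / (q.totient : ℝ))) := by
    have h5 := h1.mul h2
    rw [mul_one] at h5
    refine h5.congr' ?_
    filter_upwards [eventually_ge_atTop 2] with x hx2
    have hx0 : ((x - 1 : ℕ) : ℝ) ≠ 0 := by
      have : 0 < x - 1 := by omega
      positivity
    field_simp
  -- the comparison function
  have hll : Tendsto (fun x : ℕ => Real.log (Real.log (x : ℝ)) / Real.log x) atTop (𝓝 0) := by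
    have := (Real.isLittleO_log_id_atTop.tendsto_div_nhds_zero).comp hlogx
    simpa [Function.comp_def] using this
  have h6 : Tendsto (fun x : ℕ => 1 / (1 - 2 * (Real.log (Real.log (x : ℝ)) / Real.log x)))
      atTop (𝓝 1) := by
    have : Tendsto (fun x : ℕ => 1 / (1 - 2 * (Real.log (Real.log (x : ℝ)) / Real.log x)))
      atTop (𝓝 (1 / (1 - 2 * 0))) :=
      tendsto_const_nhds.div (tendsto_const_nhds.sub (hll.const_mul 2)) (by norm_num)
    simpa using this
  have h7 : Tendsto (fun x : ℕ => 1 / Real.log (x : ℝ) +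
      (1 / (1 - 2 * (Real.log (Real.log (x : ℝ)) / Real.log x))) * (θ (x - 1) / x)) atTop
      (𝓝 (1 / (q.totient : ℝ))) := by
    have := (tendsto_const_nhds (x := (1 : ℝ))).div_atTop hlogx |>.add (h6.mul h4)
    simpa using this
  refine tendsto_of_tendsto_of_tendsto_of_le_of_le' h4 h7 ?_ ?_
  · filter_upwards [eventually_ge_atTop 2] with x hx2
    exact div_le_div_of_nonneg_right (theta_le q a x hx2) (by positivity)
  · have hs : ∀ᶠ x : ℕ in atTop, 2 * (Real.log (Real.log (x : ℝ)) / Real.log x) < 1 := by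
      have := (hll.const_mul 2).eventually (gt_mem_nhds (show 2 * (0 : ℝ) < 1 by norm_num))
      exact this
    filter_upwards [eventually_ge_atTop 2, hs, hlogx.eventually_gt_atTop 1] with x hx2 hs hl
    have hx0 : (0 : ℝ) < x := by positivity
    have hl0 : (0 : ℝ) < Real.log x := by linarith
    set y : ℝ := x / (Real.log x) ^ 2 with hy
    have hly : Real.log y = Real.log x - 2 * Real.log (Real.log x) := by
      rw [hy, Real.log_div hx0.ne' (by positivity), Real.log_pow]
      push_cast; ring
    have hly0 : 0 < Real.log y := by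
      rw [hly]
      rw [← mul_div_assoc, div_lt_one hl0] at hs
      linarith
    have hy0 : 0 < y := by positivity
    have hy1 : 1 ≤ y := by
      by_contra hc
      push Not at hc
      have := Real.log_neg hy0 hc
      linarith
    have h8 := card_mul_le q a x y hy1
    have h9 : 1 / (1 - 2 * (Real.log (Real.log (x : ℝ)) / Real.log x)) =
        Real.log x / Real.log y := by
      rw [hly]
      have : Real.log x - 2 * Real.log (Real.log x) ≠ 0 := by rw [← hly]; exact hly0.ne'
      field_simp
    rw [h9]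
    have h10 : (1 : ℝ) / Real.log x = (Real.log x / Real.log y) * (y * Real.log y / x) := by
      have hyx : y / x = 1 / (Real.log x) ^ 2 := by rw [hy]; field_simp
      calc (1 : ℝ) / Real.log x = Real.log x * (1 / (Real.log x) ^ 2) := by field_simp
        _ = Real.log x * (y / x) := by rw [hyx]
        _ = (Real.log x / Real.log y) * (y * Real.log y / x) := by
          field_simp
    rw [h10, ← mul_add, ← add_div, div_mul_div_comm, div_le_div_iff₀ hx0 (by positivity)]
    have h11 : (((range x).filter (fun p => p.Prime ∧ p % q = a % q)).card : ℝ) * Real.log y *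
        (Real.log x * x) ≤ (y * Real.log y + θ (x - 1)) * (Real.log x * x) :=
      mul_le_mul_of_nonneg_right h8 (by positivity)
    nlinarith [h11]

theorem primes_all :
    Tendsto (fun x : ℕ => (((range x).filter Nat.Prime).card : ℝ) * Real.log x / x) atTop
      (𝓝 1) := by
  have h := primes_ap (q := 1) (a := 0) one_pos (by simp)
  simp only [Nat.totient_one, Nat.cast_one, div_one] at h
  refine h.congr fun x => ?_
  congr 3
  congr 1
  ext p
  simp [Nat.mod_one]

theorem primes_upper : ∃ C : ℝ, 0 < C ∧ ∀ x : ℕ, 3 ≤ x →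
    (((range x).filter Nat.Prime).card : ℝ) ≤ C * (x / Real.log x) := by
  have h := primes_all.eventually (gt_mem_nhds (show (1 : ℝ) < 2 by norm_num))
  obtain ⟨x₀, hx₀⟩ := Filter.eventually_atTop.mp h
  refine ⟨2 + Real.log ((x₀ : ℝ) + 1), ?_, fun x hx => ?_⟩
  · have : 0 ≤ Real.log ((x₀ : ℝ) + 1) := Real.log_nonneg (by
      have : (0 : ℝ) ≤ x₀ := by positivity
      linarith)
    linarith
  have hx0 : (0 : ℝ) < x := by positivity
  have hx3 : (3 : ℝ) ≤ x := by exact_mod_cast hx
  have hl : 0 < Real.log x := Real.log_pos (by linarith)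
  have hL : 0 ≤ Real.log ((x₀ : ℝ) + 1) := Real.log_nonneg (by
      have : (0 : ℝ) ≤ x₀ := by positivity
      linarith)
  have hq : 0 ≤ (x : ℝ) / Real.log x := by positivity
  by_cases hxx : x₀ ≤ x
  · have h2 := hx₀ x hxx
    rw [div_lt_iff₀ hx0] at h2
    have h3 : (((range x).filter Nat.Prime).card : ℝ) ≤ 2 * (x / Real.log x) := by
      rw [← mul_div_assoc, le_div_iff₀ hl]
      exact h2.le
    nlinarith
  · push Not at hxx
    have h1 : (((range x).filter Nat.Prime).card : ℝ) ≤ x := by
      have := Finset.card_filter_le (range x) Nat.Prime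
      rw [Finset.card_range] at this
      exact_mod_cast this
    have h2 : Real.log x ≤ Real.log ((x₀ : ℝ) + 1) := by
      apply Real.log_le_log hx0
      have : (x : ℝ) ≤ x₀ := by exact_mod_cast hxx.le
      linarith
    have h3 : (x : ℝ) ≤ Real.log ((x₀ : ℝ) + 1) * (x / Real.log x) := by
      rw [← mul_div_assoc, le_div_iff₀ hl, mul_comm]
      exact mul_le_mul_of_nonneg_right h2 hx0.le
    nlinarith

end Pool.Agent.Lib.MP_79499b_co.PC
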