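import Mathlib

/-! If `w` is a prime, `w^a` exactly divides the order of the finite group `G` with `a = 1` or
`a = 2`, and the order of `G` is prime to `w^a - 1`, then `G` has a quotient of order `w`
(Burnside transfer). -/

namespace Pool.Agent.Lib.MP_79499b_co.Quot37

open Subgroup

/-- A group of order `w^a`, `a ≤ 2`, has no automorphism of prime order `r ≠ w` unless `r`
divides `w^a - 1`. -/
lemma no_aut {P : Type*} [Group P] [Finite P] (w a r : ℕ) (hw : w.Prime) (hr : r.Prime)
    (ha : a ≤ 2) (hP : Nat.card P = w ^ a) (hrw : r ≠ w) (hrd : ¬ r ∣ w ^ a - 1) (f : MulAut P)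
    (hf : orderOf f = r) : False := by
  have : Fact r.Prime := ⟨hr⟩
  let F : Subgroup P := f.toMonoidHom.eqLocus (MonoidHom.id P)
  have hpg : IsPGroup r (zpowers f) := by
    apply IsPGroup.of_card (n := 1)
    rw [Nat.card_zpowers, hf, pow_one]
  have hmod := hpg.card_modEq_card_fixedPoints P
  have hfix : MulAction.fixedPoints (zpowers f) P = (F : Set P) := by
    ext x
    simp only [MulAction.mem_fixedPoints, SetLike.mem_coe]
    constructor
    · intro h
      exact h ⟨f, mem_zpowers f⟩
    · intro h g
      obtain ⟨g, hg⟩ := g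
      have hx : f • x = x := h
      have : g ∈ MulAction.stabilizer (MulAut P) x := by
        have h1 : f ∈ MulAction.stabilizer (MulAut P) x := hx
        exact (zpowers_le.mpr h1) hg
      exact this
  rw [hfix] at hmod
  have hFc : Nat.card F ∣ w ^ a := by rw [← hP]; exact Subgroup.card_subgroup_dvd_card F
  obtain ⟨b, hb, hFb⟩ := (Nat.dvd_prime_pow hw).mp hFc
  have hmod' : w ^ a ≡ w ^ b [MOD r] := by
    rw [← hP, ← hFb]; exact hmod
  rcases eq_or_lt_of_le hb with hba | hba
  · have hFtop : F = ⊤ := by
      apply Subgroup.eq_top_of_card_eq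
      rw [hFb, hba, hP]
    have hf1 : f = 1 := by
      ext x
      have : x ∈ F := by rw [hFtop]; trivial
      exact this
    rw [hf1, orderOf_one] at hf
    exact hr.one_lt.ne hf
  · have hle : w ^ b ≤ w ^ a := Nat.pow_le_pow_right hw.pos hb
    have hdvd : r ∣ w ^ a - w ^ b := (Nat.modEq_iff_dvd' hle).mp hmod'.symm
    have e : w ^ a - w ^ b = w ^ b * (w ^ (a - b) - 1) := by
      rw [Nat.mul_sub, ← pow_add, mul_one]
      congr 2
      omega
    rw [e] at hdvd
    rcases (Nat.Prime.dvd_mul hr).mp hdvd with h | h
    · exact hrw ((Nat.prime_dvd_prime_iff_eq hr hw).mp (hr.dvd_of_dvd_pow h))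
    · apply hrd
      have hab : a - b = a ∨ (a - b = 1) := by omega
      rcases hab with h1 | h1
      · rw [h1] at h; exact h
      · rw [h1, pow_one] at h
        exact h.trans (Nat.sub_one_dvd_pow_sub_one w a)

theorem exists_hom {G : Type*} [Group G] [Finite G] (w a : ℕ) [hw : Fact w.Prime]
    (ha1 : 1 ≤ a) (ha2 : a ≤ 2) (hd : w ^ a ∣ Nat.card G) (hnd : ¬ w ^ (a + 1) ∣ Nat.card G)
    (hcop : (Nat.card G).Coprime (w ^ a - 1)) :
    ∃ π : G →* Multiplicative (ZMod w), Function.Surjective π := by
  obtain ⟨P⟩ : Nonempty (Sylow w G) := inferInstance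
  have ha : Nat.card P = w ^ a := by
    rw [P.card_eq_multiplicity]
    congr 1
    apply le_antisymm
    · by_contra hcon
      apply hnd
      rw [hw.out.pow_dvd_iff_le_factorization Nat.card_pos.ne']
      omega
    · rwa [← hw.out.pow_dvd_iff_le_factorization Nat.card_pos.ne']
  have hcomm : IsMulCommutative P := by
    have : a = 1 ∨ a = 2 := by omega
    rcases this with h | h
    · rw [h, pow_one] at ha
      have := isCyclic_of_prime_card ha
      exact inferInstance
    · rw [h] at ha
      exact IsPGroup.isMulCommutative_of_card_eq_prime_sq ha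
  have hPcent : (P : Subgroup G) ≤ centralizer (P : Set G) := by
    exact P.le_centralizer
  have hP : normalizer P ≤ centralizer (P : Set G) := by
    apply relIndex_eq_one.mp
    by_contra hne
    obtain ⟨r, hr, hrd⟩ := Nat.exists_prime_and_dvd hne
    have hd1 : (centralizer (P : Set G)).relIndex (normalizer P) ∣ (P : Subgroup G).index :=
      (relIndex_dvd_of_le_left _ hPcent).trans (relIndex_dvd_index_of_le P.le_normalizer)
    have hrw : r ≠ w := by
      rintro rfl
      exact P.not_dvd_index (hrd.trans hd1)
    have hrG : r ∣ Nat.card G := (hrd.trans hd1).trans (index_dvd_card _)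
    have hrnd : ¬ r ∣ w ^ a - 1 := by
      intro h
      have := Nat.eq_one_of_dvd_coprimes hcop hrG h
      exact hr.one_lt.ne' this
    have : Fact r.Prime := ⟨hr⟩
    have hcard : Nat.card ((P : Subgroup G).normalizerMonoidHom).range =
        (centralizer (P : Set G)).relIndex (normalizer P) := by
      rw [← Subgroup.index_ker, normalizerMonoidHom_ker]
      rfl
    obtain ⟨f, hf⟩ := exists_prime_orderOf_dvd_card'
      (G := ((P : Subgroup G).normalizerMonoidHom).range) r (by rw [hcard]; exact hrd)
    exact no_aut w a r hw.out hr ha2 ha hrw hrnd (f : MulAut P) (by rw [← hf]; simp)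
  have hsurj : Function.Surjective (MonoidHom.transferSylow P hP) := by
    have hf : Function.Bijective ((MonoidHom.transferSylow P hP).domRestrict (P : Subgroup G)) :=
      (MonoidHom.transferSylow_domRestrict_eq_pow P hP).symm ▸
        (P.2.powEquiv' P.not_dvd_index).bijective
    intro y
    obtain ⟨x, hx⟩ := hf.2 y
    exact ⟨x, hx⟩
  obtain ⟨M, hM⟩ := Sylow.exists_subgroup_card_pow_prime (G := P) w (n := a - 1)
    (by rw [ha]; exact pow_dvd_pow w (by omega))
  have hMn : M.Normal := inferInstance
  have hq : Nat.card (P ⧸ M) = w := by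
    have h5 := M.card_mul_index
    rw [hM, ha, Subgroup.index] at h5
    have h6 : w ^ a = w ^ (a - 1) * w := by
      rw [← pow_succ]
      congr 1
      omega
    rw [h6] at h5
    exact Nat.eq_of_mul_eq_mul_left (pow_pos hw.out.pos _) h5
  have hz : Nat.card (Multiplicative (ZMod w)) = w := by
    rw [Nat.card_eq_fintype_card, Fintype.card_multiplicative, ZMod.card]
  let e : (P ⧸ M) ≃* Multiplicative (ZMod w) := mulEquivOfPrimeCardEq hq hz
  refine ⟨e.toMonoidHom.comp ((QuotientGroup.mk' M).comp (MonoidHom.transferSylow P hP)), ?_⟩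
  exact e.surjective.comp ((QuotientGroup.mk'_surjective M).comp hsurj)

end Pool.Agent.Lib.MP_79499b_co.Quot37
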