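import Pool.Agent.Lib.MP_79499b_co.SelfConj37
import Pool.Agent.Lib.MP_79499b_co.Quot37

namespace Pool.Agent.Lib.MP_79499b_co.AllGroupsOddOrderTest

open Pool.Agent.Lib.MP_79499b_co

/-- Let `m ≥ 3` be odd, `n ≥ 2`, and let `G` be ANY finite group of order
`v = (n^m - 1)/(n - 1)` containing a difference set with the Singer parameters.
Let `r` be a prime such that `r^a` exactly divides `v` with `a = 1` or `a = 2`, and such that
`v` is prime to `r^a - 1`.  Then every prime `p` which divides `n` to an odd power has odd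
multiplicative order modulo `r`. -/
theorem result (n m : ℕ) (hn : 2 ≤ n) (hm : 3 ≤ m) (hodd : Odd m)
    (G : Type*) [Group G] [Fintype G] [DecidableEq G]
    (hG : Fintype.card G * (n - 1) = n ^ m - 1)
    (D : Finset G) (hD : D.card * (n - 1) = n ^ (m - 1) - 1)
    (hlam : ∀ g : G, g ≠ 1 →
      ((D ×ˢ D).filter (fun p : G × G => p.1 * p.2⁻¹ = g)).card * (n - 1) = n ^ (m - 2) - 1)
    (r a : ℕ) (hr : r.Prime) (ha1 : 1 ≤ a) (ha2 : a ≤ 2)
    (hra : r ^ a ∣ Fintype.card G) (hra' : ¬ r ^ (a + 1) ∣ Fintype.card G)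
    (hcop : (Fintype.card G).Coprime (r ^ a - 1))
    (p : ℕ) (hp : p.Prime) (hpn : Odd (n.factorization p)) :
    Odd (orderOf (p : ZMod r)) := by
  classical
  have hn1 : 0 < n - 1 := by omega
  have hgeom : ∀ l : ℕ, (∑ i ∈ Finset.range l, n ^ i) * (n - 1) = n ^ l - 1 := by
    intro l
    rw [Nat.geomSum_eq hn, Nat.div_mul_cancel]
    exact Nat.sub_one_dvd_pow_sub_one n l
  have hk : D.card = ∑ i ∈ Finset.range (m - 1), n ^ i := by
    apply Nat.eq_of_mul_eq_mul_right hn1
    rw [hD, hgeom]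
  set lam := ∑ i ∈ Finset.range (m - 2), n ^ i with hlamdef
  have hlam' : ∀ g : G, g ≠ 1 →
      ((D ×ˢ D).filter (fun p : G × G => p.1 * p.2⁻¹ = g)).card = lam := by
    intro g hg
    apply Nat.eq_of_mul_eq_mul_right hn1
    rw [hlam g hg, hgeom]
  have hkl : D.card = lam + n ^ (m - 2) := by
    rw [hk, hlamdef, ← Finset.sum_range_succ]
    congr 2
    omega
  have hrv : r ∣ Fintype.card G := (dvd_pow_self r (by omega)).trans hra
  have : Fact r.Prime := ⟨hr⟩
  have : Fact p.Prime := ⟨hp⟩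
  have hpn' : p ∣ n := by
    apply (hp.dvd_iff_one_le_factorization (by omega)).mpr
    obtain ⟨t, ht⟩ := hpn
    omega
  have hpr : p ≠ r := by
    intro h
    have h1 : p ∣ Fintype.card G := by rw [h]; exact hrv
    have h2 : p ∣ n ^ m - 1 := by rw [← hG]; exact h1.mul_right _
    have h3 : p ∣ n ^ m := dvd_pow hpn' (by omega)
    have h4 : 1 ≤ n ^ m := Nat.one_le_pow _ _ (by omega)
    have h5 : p ∣ n ^ m - (n ^ m - 1) := Nat.dvd_sub h3 h2
    have h6 : n ^ m - (n ^ m - 1) = 1 := by omega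
    rw [h6] at h5
    exact hp.one_lt.ne' (Nat.dvd_one.mp h5)
  have hp0 : (p : ZMod r) ≠ 0 := by
    intro h
    rw [ZMod.natCast_eq_zero_iff] at h
    exact hpr ((Nat.prime_dvd_prime_iff_eq hr hp).mp h).symm
  have hord : 0 < orderOf (p : ZMod r) := by
    rw [orderOf_pos_iff, isOfFinOrder_iff_pow_eq_one]
    exact ⟨r - 1, by have := hr.two_le; omega, ZMod.pow_card_sub_one_eq_one hp0⟩
  by_contra hcon
  rw [Nat.not_odd_iff_even] at hcon
  obtain ⟨t, ht⟩ := hcon
  have ht0 : 0 < t := by omega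
  have hpt : (p : ZMod r) ^ t = -1 := by
    have h1 : ((p : ZMod r) ^ t) * ((p : ZMod r) ^ t) = 1 := by
      rw [← pow_add, ← ht, pow_orderOf_eq_one]
    rcases mul_self_eq_one_iff.mp h1 with h | h
    · exfalso
      have := orderOf_dvd_of_pow_eq_one h
      have := Nat.le_of_dvd ht0 this
      omega
    · exact h
  have hdvd : r ∣ p ^ t + 1 := by
    rw [← ZMod.natCast_eq_zero_iff]
    push_cast
    rw [hpt]
    ring
  -- quotient of order r
  have hcardG : Nat.card G = Fintype.card G := Nat.card_eq_fintype_card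
  obtain ⟨π, hπ⟩ := Quot37.exists_hom (G := G) r a ha1 ha2 (by rw [hcardG]; exact hra)
    (by rw [hcardG]; exact hra') (by rw [hcardG]; exact hcop)
  have hc : Fintype.card (Multiplicative (ZMod r)) = r := by
    rw [Fintype.card_multiplicative, ZMod.card]
  refine SelfConj37.mann π hπ D lam hlam' p ht0 (by rw [hc]; exact hr.one_lt)
    (by rw [hc]; exact hdvd) ?_ ?_
  · rw [hkl]
    have : 0 < n ^ (m - 2) := by positivity
    omega
  · have e : ((D.card : ℤ) - lam) = ((n ^ (m - 2) : ℕ) : ℤ) := by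
      rw [hkl]; push_cast; ring
    rw [e, padicValInt.of_nat, padicValNat.pow, ← Nat.factorization_def n hp]
    exact Odd.mul (by obtain ⟨x, hx⟩ := hodd; exact ⟨x - 1, by omega⟩) hpn

end Pool.Agent.Lib.MP_79499b_co.AllGroupsOddOrderTest
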