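import Mathlib

/-!
# Upper density of sets of integers avoiding residue classes to coprime moduli
-/

namespace Pool.Agent.Lib.MP_79499b_co.Density29

open Filter Topology Finset

/-- number of elements `< x` -/
noncomputable def cnt (S : Set ℕ) (x : ℕ) : ℕ := (S ∩ Set.Iio x).ncard

lemma cnt_mono {S T : Set ℕ} (h : S ⊆ T) (x : ℕ) : cnt S x ≤ cnt T x :=
  Set.ncard_le_ncard (Set.inter_subset_inter_left _ h) ((Set.finite_Iio x).inter_of_right _)

lemma cnt_union (S T : Set ℕ) (x : ℕ) : cnt (S ∪ T) x ≤ cnt S x + cnt T x := by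
  unfold cnt
  rw [Set.union_inter_distrib_right]
  exact Set.ncard_union_le _ _

/-- the upper density of `S` is at most `δ` -/
def UD (S : Set ℕ) (δ : ℝ) : Prop :=
  ∀ ε : ℝ, 0 < ε → ∀ᶠ x : ℕ in atTop, (cnt S x : ℝ) ≤ (δ + ε) * x

lemma UD.mono {S T : Set ℕ} {δ : ℝ} (h : S ⊆ T) (hT : UD T δ) : UD S δ := by
  intro ε hε
  filter_upwards [hT ε hε] with x hx
  exact le_trans (by exact_mod_cast cnt_mono h x) hx

lemma UD.le {S : Set ℕ} {δ δ' : ℝ} (h : δ ≤ δ') (hT : UD S δ) : UD S δ' := by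
  intro ε hε
  filter_upwards [hT ε hε] with x hx
  exact hx.trans (mul_le_mul_of_nonneg_right (by linarith) (by positivity))

lemma UD.union {S T : Set ℕ} {δ δ' : ℝ} (hS : UD S δ) (hT : UD T δ') : UD (S ∪ T) (δ + δ') := by
  intro ε hε
  filter_upwards [hS (ε / 2) (by positivity), hT (ε / 2) (by positivity)] with x hx hy
  have h1 : (cnt (S ∪ T) x : ℝ) ≤ cnt S x + cnt T x := by exact_mod_cast cnt_union S T x
  linarith

lemma UD_zero_of_forall {S : Set ℕ} (h : ∀ δ : ℝ, 0 < δ → UD S δ) : UD S 0 := by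
  intro ε hε
  filter_upwards [h (ε / 2) (by positivity) (ε / 2) (by positivity)] with x hx
  linarith

lemma UD_zero_union {S T : Set ℕ} (hS : UD S 0) (hT : UD T 0) : UD (S ∪ T) 0 := by
  simpa using hS.union hT

lemma UD_empty : UD ∅ 0 := by
  intro ε hε
  filter_upwards with x
  simp [cnt]
  positivity

lemma UD_zero_biUnion {ι : Type*} (s : Finset ι) (S : ι → Set ℕ) (h : ∀ i ∈ s, UD (S i) 0) :
    UD (⋃ i ∈ s, S i) 0 := by
  classical
  induction s using Finset.induction_on with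
  | empty => simpa using UD_empty
  | insert a s ha ih =>
    rw [Finset.set_biUnion_insert]
    exact UD_zero_union (h a (Finset.mem_insert_self a s))
      (ih (fun i hi => h i (Finset.mem_insert_of_mem hi)))

lemma tendsto_of_UD_zero {S : Set ℕ} (h : UD S 0) :
    Tendsto (fun x : ℕ => (cnt S x : ℝ) / x) atTop (𝓝 0) := by
  rw [Metric.tendsto_atTop]
  intro ε hε
  obtain ⟨N, hN⟩ := eventually_atTop.mp (h (ε / 2) (by positivity))
  refine ⟨max N 1, fun n hn => ?_⟩
  have h1 := hN n ((le_max_left _ _).trans hn)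
  have h2 : (1 : ℝ) ≤ n := by exact_mod_cast (le_max_right N 1).trans hn
  rw [Real.dist_eq, sub_zero, abs_of_nonneg (by positivity), div_lt_iff₀ (by linarith)]
  rw [zero_add] at h1
  nlinarith

/-- counting integers in prescribed residue classes -/
lemma cnt_residue (Q : ℕ) [NeZero Q] (T : Finset (ZMod Q)) (x : ℕ) :
    (cnt {n : ℕ | (n : ZMod Q) ∈ T} x : ℝ) ≤ (T.card : ℝ) * (x / Q + 1) := by
  classical
  have hQ : 0 < Q := NeZero.pos Q
  have h1 : ({n : ℕ | (n : ZMod Q) ∈ T} ∩ Set.Iio x) ⊆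
      ↑(T.biUnion (fun t => (Finset.range x).filter (fun n => n ≡ t.val [MOD Q]))) := by
    rintro n ⟨hn1, hn2⟩
    rw [Finset.mem_coe, Finset.mem_biUnion]
    refine ⟨(n : ZMod Q), hn1, ?_⟩
    rw [Finset.mem_filter, Finset.mem_range]
    refine ⟨hn2, ?_⟩
    rw [ZMod.val_natCast]
    exact (Nat.mod_modEq n Q).symm
  have h2 : cnt {n : ℕ | (n : ZMod Q) ∈ T} x ≤
      (T.biUnion (fun t => (Finset.range x).filter (fun n => n ≡ t.val [MOD Q]))).card := by
    unfold cnt
    rw [← Set.ncard_coe_finset]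
    exact Set.ncard_le_ncard h1 (Finset.finite_toSet _)
  have h3 : ∀ t ∈ T, (((Finset.range x).filter (fun n => n ≡ t.val [MOD Q])).card : ℝ) ≤
      x / Q + 1 := by
    intro t _
    rw [← Nat.count_eq_card_filter_range, Nat.count_modEq_card x hQ t.val]
    have h4 : ((x / Q : ℕ) : ℝ) ≤ x / Q := Nat.cast_div_le
    push_cast
    split_ifs <;> simp <;> linarith
  calc (cnt {n : ℕ | (n : ZMod Q) ∈ T} x : ℝ) ≤
      ((T.biUnion (fun t => (Finset.range x).filter (fun n => n ≡ t.val [MOD Q]))).card : ℝ) := by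
        exact_mod_cast h2
    _ ≤ ((∑ t ∈ T, ((Finset.range x).filter (fun n => n ≡ t.val [MOD Q])).card : ℕ) : ℝ) := by
        exact_mod_cast Finset.card_biUnion_le
    _ = ∑ t ∈ T, (((Finset.range x).filter (fun n => n ≡ t.val [MOD Q])).card : ℝ) := by
        push_cast; rfl
    _ ≤ ∑ t ∈ T, ((x : ℝ) / Q + 1) := Finset.sum_le_sum h3
    _ = (T.card : ℝ) * (x / Q + 1) := by rw [Finset.sum_const, nsmul_eq_mul]

/-- Chinese remainder theorem: sets avoiding forbidden classes modulo pairwise coprime moduli. -/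
lemma exists_periodic {ι : Type*} (s : Finset ι) (q : ι → ℕ) (F : ∀ i, Finset (ZMod (q i)))
    (hq : ∀ i ∈ s, 0 < q i) (hc : ∀ i ∈ s, ∀ j ∈ s, i ≠ j → (q i).Coprime (q j)) :
    ∃ (T : Finset (ZMod (∏ i ∈ s, q i))),
      (T.card : ℝ) = (∏ i ∈ s, (q i : ℝ)) * ∏ i ∈ s, (1 - ((F i).card : ℝ) / q i) ∧
      ∀ n : ℕ, (∀ i ∈ s, (n : ZMod (q i)) ∉ F i) → (n : ZMod (∏ i ∈ s, q i)) ∈ T := by
  classical
  induction s using Finset.induction_on with
  | empty =>
    rw [Finset.prod_empty]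
    refine ⟨{0}, ?_, fun n _ => ?_⟩
    · rw [Finset.card_singleton]; simp
    · rw [Finset.mem_singleton]
      exact Subsingleton.elim _ _
  | insert a s ha ih =>
    obtain ⟨T, hT, hT'⟩ := ih (fun i hi => hq i (Finset.mem_insert_of_mem hi))
      (fun i hi j hj hij => hc i (Finset.mem_insert_of_mem hi) j (Finset.mem_insert_of_mem hj) hij)
    have hqa : 0 < q a := hq a (Finset.mem_insert_self a s)
    have : NeZero (q a) := ⟨hqa.ne'⟩
    have hcop : (q a).Coprime (∏ i ∈ s, q i) := by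
      apply Nat.Coprime.prod_right
      intro i hi
      exact hc a (Finset.mem_insert_self a s) i (Finset.mem_insert_of_mem hi)
        (fun h => ha (h ▸ hi))
    rw [Finset.prod_insert ha]
    let e := ZMod.chineseRemainder hcop
    refine ⟨((((F a)ᶜ : Finset (ZMod (q a))) ×ˢ T).map e.symm.toEquiv.toEmbedding), ?_, ?_⟩
    · rw [Finset.card_map, Finset.card_product, Finset.prod_insert ha, Finset.prod_insert ha]
      push_cast
      rw [hT, Finset.card_compl, ZMod.card, Nat.cast_sub]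
      · have : (q a : ℝ) ≠ 0 := by exact_mod_cast hqa.ne'
        field_simp
      · calc (F a).card ≤ Fintype.card (ZMod (q a)) := Finset.card_le_univ _
          _ = q a := ZMod.card _
    · intro n hn
      rw [Finset.mem_map]
      refine ⟨((n : ZMod (q a)), (n : ZMod (∏ i ∈ s, q i))), ?_, ?_⟩
      · rw [Finset.mem_product, Finset.mem_compl]
        exact ⟨hn a (Finset.mem_insert_self a s),
          hT' n (fun i hi => hn i (Finset.mem_insert_of_mem hi))⟩
      · have h1 : e (n : ZMod (q a * ∏ i ∈ s, q i)) = (n : ZMod (q a) × ZMod (∏ i ∈ s, q i)) :=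
          map_natCast e n
        have h2 : ((n : ZMod (q a)), (n : ZMod (∏ i ∈ s, q i))) =
            (n : ZMod (q a) × ZMod (∏ i ∈ s, q i)) := by
          ext <;> simp
        rw [h2, ← h1]
        simp

/-- The set avoiding forbidden classes to coprime moduli has upper density at most the product. -/
theorem UD_avoid {ι : Type*} (s : Finset ι) (q : ι → ℕ) (F : ∀ i, Finset (ZMod (q i)))
    (hq : ∀ i ∈ s, 0 < q i) (hc : ∀ i ∈ s, ∀ j ∈ s, i ≠ j → (q i).Coprime (q j)) :
    UD {n : ℕ | ∀ i ∈ s, (n : ZMod (q i)) ∉ F i} (∏ i ∈ s, (1 - ((F i).card : ℝ) / q i)) := by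
  obtain ⟨T, hT, hT'⟩ := exists_periodic s q F hq hc
  have hQ : 0 < ∏ i ∈ s, q i := Finset.prod_pos hq
  have : NeZero (∏ i ∈ s, q i) := ⟨hQ.ne'⟩
  have hQ' : (0 : ℝ) < ∏ i ∈ s, (q i : ℝ) := by exact_mod_cast hQ
  intro ε hε
  obtain ⟨N, hN⟩ := exists_nat_gt ((T.card : ℝ) / ε)
  filter_upwards [eventually_ge_atTop N] with x hx
  have h1 : (cnt {n : ℕ | ∀ i ∈ s, (n : ZMod (q i)) ∉ F i} x : ℝ) ≤
      (T.card : ℝ) * (x / (∏ i ∈ s, q i : ℕ) + 1) := by
    refine le_trans ?_ (cnt_residue (∏ i ∈ s, q i) T x)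
    exact_mod_cast cnt_mono (fun n hn => hT' n hn) x
  have h2 : (T.card : ℝ) ≤ ε * x := by
    have : (N : ℝ) ≤ x := by exact_mod_cast hx
    rw [div_lt_iff₀ hε] at hN
    nlinarith
  have h3 : (T.card : ℝ) * (x / (∏ i ∈ s, q i : ℕ)) =
      (∏ i ∈ s, (1 - ((F i).card : ℝ) / q i)) * x := by
    rw [hT]
    push_cast
    field_simp
  rw [mul_add, h3, mul_one] at h1
  linarith

/-- If the forbidden proportions have divergent sum then the avoiding set has density zero. -/
theorem UD_zero_avoid {ι : Type*} (I : Set ι) (q : ι → ℕ) (F : ∀ i, Finset (ZMod (q i)))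
    (hq : ∀ i ∈ I, 0 < q i) (hc : ∀ i ∈ I, ∀ j ∈ I, i ≠ j → (q i).Coprime (q j))
    (hdiv : ∀ K : ℝ, ∃ s : Finset ι, (↑s ⊆ I) ∧ K ≤ ∑ i ∈ s, ((F i).card : ℝ) / q i) (δ : ℝ)
    (hδ : 0 < δ) :
    ∃ s : Finset ι, ↑s ⊆ I ∧ UD {n : ℕ | ∀ i ∈ s, (n : ZMod (q i)) ∉ F i} δ := by
  obtain ⟨s, hs, hK⟩ := hdiv (-Real.log δ)
  refine ⟨s, hs, ?_⟩
  have h1 := UD_avoid s q F (fun i hi => hq i (hs hi))
    (fun i hi j hj hij => hc i (hs hi) j (hs hj) hij)
  refine h1.le ?_
  calc ∏ i ∈ s, (1 - ((F i).card : ℝ) / q i) ≤ ∏ i ∈ s, Real.exp (-(((F i).card : ℝ) / q i)) := by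
        apply Finset.prod_le_prod
        · intro i hi
          have hqi := hq i (hs hi)
          have : NeZero (q i) := ⟨hqi.ne'⟩
          have h2 : ((F i).card : ℝ) ≤ q i := by
            have : (F i).card ≤ q i := by
              calc (F i).card ≤ Fintype.card (ZMod (q i)) := Finset.card_le_univ _
                _ = q i := ZMod.card _
            exact_mod_cast this
          have h3 : ((F i).card : ℝ) / q i ≤ 1 := by
            rw [div_le_one (by exact_mod_cast hqi)]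
            exact h2
          linarith
        · intro i _
          have := Real.add_one_le_exp (-(((F i).card : ℝ) / q i))
          linarith
    _ = Real.exp (-∑ i ∈ s, ((F i).card : ℝ) / q i) := by
        rw [← Real.exp_sum, Finset.sum_neg_distrib]
    _ ≤ Real.exp (Real.log δ) := by
        apply Real.exp_le_exp.mpr
        linarith
    _ = δ := Real.exp_log hδ

end Pool.Agent.Lib.MP_79499b_co.Density29
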