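import Pool.Agent.Lib.MP_79499b_co.RecipAP29
import Pool.Agent.Lib.MP_79499b_co.Density29

/-!
# Almost all `n` have a prime `p ∥ n` and a prime `w ∣ 1 + n + ⋯ + n^(ℓ-1)` with `p ^ j ≡ -1 (mod w)`
-/

namespace Pool.Agent.Lib.MP_79499b_co.AlmostAll29

open Filter Topology Finset Density29

/-- divergence in terms of finite partial sums -/
lemma exists_finset_sum_inv {q : ℕ} [NeZero q] {a : ZMod q} (ha : IsUnit a) (K : ℝ) :
    ∃ s : Finset ℕ, (∀ w ∈ s, w.Prime ∧ (w : ZMod q) = a) ∧ K ≤ ∑ w ∈ s, ((w : ℝ))⁻¹ := by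
  have h := RecipAP29.not_summable_inv_prime ha
  have h0 : ∀ n : ℕ, 0 ≤ (if n.Prime ∧ (n : ZMod q) = a then ((n : ℝ))⁻¹ else 0) := by
    intro n; split_ifs <;> positivity
  rw [not_summable_iff_tendsto_nat_atTop_of_nonneg h0] at h
  obtain ⟨N, hN⟩ := (h.eventually_ge_atTop K).exists
  refine ⟨(Finset.range N).filter (fun n => n.Prime ∧ (n : ZMod q) = a), ?_, ?_⟩
  · intro w hw
    exact (Finset.mem_filter.mp hw).2
  · rw [Finset.sum_filter]
    exact hN

lemma exists_root {w l : ℕ} (hw : w.Prime) (hl : l.Prime) (h : l ∣ w - 1) :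
    ∃ r : ZMod w, ∑ i ∈ Finset.range l, r ^ i = 0 := by
  have : Fact w.Prime := ⟨hw⟩
  have : Fact l.Prime := ⟨hl⟩
  have hcard : Fintype.card (ZMod w)ˣ = w - 1 := ZMod.card_units w
  obtain ⟨u, hu⟩ := exists_prime_orderOf_dvd_card (G := (ZMod w)ˣ) l (by rw [hcard]; exact h)
  refine ⟨(u : ZMod w), ?_⟩
  have h1 : ((u : ZMod w)) ≠ 1 := by
    intro h1
    have : u = 1 := Units.ext h1
    rw [this, orderOf_one] at hu
    exact hl.one_lt.ne hu
  have h2 : ((u : ZMod w)) ^ l = 1 := by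
    rw [← Units.val_pow_eq_pow_val, ← hu, pow_orderOf_eq_one, Units.val_one]
  have h3 := geom_sum_mul (u : ZMod w) l
  rw [h2, sub_self] at h3
  rcases mul_eq_zero.mp h3 with h | h
  · exact h
  · exact absurd (sub_eq_zero.mp h) h1

/-- Fix primes `l` odd and `p ≡ 1 (mod 4l)`.  Almost all `n` have a prime divisor `w` of
`1 + n + ⋯ + n^(l-1)` with `w ∣ p^j + 1` for some `j > 0`. -/
theorem step1 {l p : ℕ} (hl : l.Prime) (hp : p.Prime)
    (hpl : (p : ZMod (4 * l)) = 1) :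
    UD {n : ℕ | ∀ w : ℕ, w.Prime → w ∣ ∑ i ∈ Finset.range l, n ^ i →
      ¬ ∃ j, 0 < j ∧ w ∣ p ^ j + 1} 0 := by
  classical
  have : Fact p.Prime := ⟨hp⟩
  have : NeZero (4 * l) := ⟨by have := hl.pos; omega⟩
  have : NeZero p := ⟨hp.ne_zero⟩
  have hp1 : p ≡ 1 [MOD 4 * l] := by
    rw [← ZMod.natCast_eq_natCast_iff]; simpa using hpl
  have hcop : (4 * l).Coprime p := by
    have h1 : p.gcd (4 * l) = (1 : ℕ).gcd (4 * l) := hp1.gcd_eq
    rw [Nat.gcd_one_left] at h1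
    rw [Nat.coprime_comm]
    exact h1
  have hp4 : p % 4 = 1 := by
    have h1 : p ≡ 1 [MOD 4] := hp1.of_dvd (dvd_mul_right 4 l)
    exact h1
  have hp2 : p ≠ 2 := by rintro rfl; omega
  -- a nonresidue modulo `p`
  obtain ⟨b, hb⟩ : ∃ b : ZMod p, ¬ IsSquare b := FiniteField.exists_nonsquare (by
    rw [ZMod.ringChar_zmod_n]; exact hp2)
  have hb0 : b ≠ 0 := by rintro rfl; exact hb ⟨0, by simp⟩
  let e := ZMod.chineseRemainder hcop
  let a : ZMod (4 * l * p) := e.symm (1, b)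
  have ha : IsUnit a := by
    have : IsUnit ((1, b) : ZMod (4 * l) × ZMod p) := by
      rw [Prod.isUnit_iff]
      exact ⟨isUnit_one, isUnit_iff_ne_zero.mpr hb0⟩
    exact this.map e.symm
  have : NeZero (4 * l * p) := ⟨by have := hl.pos; have := hp.pos; positivity⟩
  have hcast : ∀ w : ℕ, (w : ZMod (4 * l * p)) = a → (w : ZMod (4 * l)) = 1 ∧ (w : ZMod p) = b := by
    intro w hw
    have h1 : e (w : ZMod (4 * l * p)) = (1, b) := by rw [hw]; simp [a]
    rw [map_natCast] at h1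
    have h2 := congrArg Prod.fst h1
    have h3 := congrArg Prod.snd h1
    exact ⟨by simpa using h2, by simpa using h3⟩
  set I : Set ℕ := {w | w.Prime ∧ (w : ZMod (4 * l * p)) = a} with hI
  have hex : ∀ w : ℕ, ∃ F : Finset (ZMod w), w ∈ I → F.card = 1 ∧
      ∀ n : ℕ, (n : ZMod w) ∈ F → w ∣ ∑ i ∈ Finset.range l, n ^ i := by
    intro w
    by_cases hw : w ∈ I
    · obtain ⟨h1, h2⟩ := hw
      obtain ⟨h3, h4⟩ := hcast w h2
      have hw1 : w ≡ 1 [MOD 4 * l] := by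
        rw [← ZMod.natCast_eq_natCast_iff]; simpa using h3
      have hlw : l ∣ w - 1 := by
        have := (Nat.modEq_iff_dvd' h1.one_lt.le).mp hw1.symm
        exact (dvd_mul_left l 4).trans this
      obtain ⟨r, hr⟩ := exists_root h1 hl hlw
      refine ⟨{r}, fun _ => ⟨Finset.card_singleton r, fun n hn => ?_⟩⟩
      rw [Finset.mem_singleton] at hn
      rw [← ZMod.natCast_eq_zero_iff]
      push_cast
      rw [hn, hr]
    · exact ⟨∅, fun h => absurd h hw⟩
  choose F hF using hex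
  apply UD_zero_of_forall
  intro δ hδ
  obtain ⟨s, hs, hUD⟩ := UD_zero_avoid I (fun w => w) F (fun i hi => hi.1.pos)
    (fun i hi j hj hij => (Nat.coprime_primes hi.1 hj.1).mpr hij) (by
      intro K
      obtain ⟨s, hs, hK⟩ := exists_finset_sum_inv ha K
      refine ⟨s, fun w hw => hs w hw, hK.trans (le_of_eq ?_)⟩
      apply Finset.sum_congr rfl
      intro w hw
      rw [(hF w (hs w hw)).1]
      simp) δ hδ
  refine hUD.mono ?_
  intro n hn w hw hnw
  obtain ⟨h1, h2⟩ := hs hw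
  obtain ⟨h3, h4⟩ := hcast w h2
  have hw1 : w ≡ 1 [MOD 4 * l] := by
    rw [← ZMod.natCast_eq_natCast_iff]; simpa using h3
  have hw4 : w % 4 = 1 := hw1.of_dvd (dvd_mul_right 4 l)
  have : Fact w.Prime := ⟨h1⟩
  refine hn w h1 ((hF w (hs hw)).2 n hnw) ⟨(w - 1) / 2, ?_, ?_⟩
  · have := h1.two_le
    omega
  · -- `p` is a nonresidue modulo `w`
    have h5 : ¬ IsSquare ((p : ℕ) : ZMod w) := by
      rw [ZMod.exists_sq_eq_prime_iff_of_mod_four_eq_one hw4 hp2, h4]
      exact hb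
    have h6 : ((p : ℕ) : ZMod w) ≠ 0 := by
      intro h
      rw [h] at h5
      exact h5 ⟨0, by simp⟩
    have h7 : w / 2 = (w - 1) / 2 := by omega
    have h8 : ((p : ℕ) : ZMod w) ^ (w / 2) = -1 := by
      rcases ZMod.pow_div_two_eq_neg_one_or_one w h6 with h | h
      · exact absurd ((ZMod.euler_criterion w h6).mpr h) h5
      · exact h
    rw [← ZMod.natCast_eq_zero_iff]
    push_cast
    rw [← h7, h8]
    ring

/-- The residue classes modulo `p^2` of the integers exactly divisible by `p`. -/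
noncomputable def exactClasses (p : ℕ) : Finset (ZMod (p ^ 2)) :=
  (Finset.Ioo 0 p).image (fun u : ℕ => ((p * u : ℕ) : ZMod (p ^ 2)))

lemma card_exactClasses {p : ℕ} (hp : p.Prime) : (exactClasses p).card = p - 1 := by
  unfold exactClasses
  rw [Finset.card_image_of_injOn, Nat.card_Ioo]
  · omega
  · intro u hu v hv h
    simp only [Finset.coe_Ioo, Set.mem_Ioo] at hu hv
    simp only at h
    rw [ZMod.natCast_eq_natCast_iff] at h
    have h1 : p * u < p ^ 2 := by rw [pow_two]; exact Nat.mul_lt_mul_of_pos_left hu.2 hp.pos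
    have h2 : p * v < p ^ 2 := by rw [pow_two]; exact Nat.mul_lt_mul_of_pos_left hv.2 hp.pos
    have h3 := Nat.ModEq.eq_of_lt_of_lt h h1 h2
    exact Nat.eq_of_mul_eq_mul_left hp.pos h3

lemma mem_exactClasses {p n : ℕ} (hp : p.Prime) (h1 : p ∣ n) (h2 : ¬ p ^ 2 ∣ n) :
    (n : ZMod (p ^ 2)) ∈ exactClasses p := by
  obtain ⟨m, rfl⟩ := h1
  have h3 : ¬ p ∣ m := by
    rintro ⟨k, rfl⟩
    exact h2 ⟨k, by ring⟩
  unfold exactClasses
  rw [Finset.mem_image]
  refine ⟨m % p, ?_, ?_⟩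
  · rw [Finset.mem_Ioo]
    refine ⟨?_, Nat.mod_lt _ hp.pos⟩
    rw [Nat.pos_iff_ne_zero]
    intro h
    exact h3 (Nat.dvd_of_mod_eq_zero h)
  · rw [ZMod.natCast_eq_natCast_iff, pow_two]
    exact (Nat.mod_modEq m p).mul_left' p

/-- Almost all `n` have a prime `p ≡ 1 (mod 4l)` exactly dividing `n` and a prime divisor `w` of
`1 + n + ⋯ + n^(l-1)` with `w ∣ p^j + 1` for some `j > 0`. -/
theorem almost_all {l : ℕ} (hl : l.Prime) :
    UD {n : ℕ | ¬ ∃ p w j : ℕ, p.Prime ∧ p ∣ n ∧ ¬ p ^ 2 ∣ n ∧ w.Prime ∧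
      w ∣ ∑ i ∈ Finset.range l, n ^ i ∧ 0 < j ∧ w ∣ p ^ j + 1} 0 := by
  classical
  have : NeZero (4 * l) := ⟨by have := hl.pos; omega⟩
  apply UD_zero_of_forall
  intro δ hδ
  set I : Set ℕ := {p | p.Prime ∧ (p : ZMod (4 * l)) = 1} with hI
  obtain ⟨s, hs, hUD⟩ := UD_zero_avoid I (fun p => p ^ 2) (fun p => exactClasses p)
    (fun i hi => by have := hi.1.pos; positivity)
    (fun i hi j hj hij => Nat.Coprime.pow 2 2 ((Nat.coprime_primes hi.1 hj.1).mpr hij)) (by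
      intro K
      obtain ⟨s, hs, hK⟩ := exists_finset_sum_inv (q := 4 * l) (a := 1) isUnit_one (2 * K)
      refine ⟨s, fun w hw => hs w hw, ?_⟩
      have h1 : ∑ p ∈ s, ((p : ℝ))⁻¹ / 2 ≤ ∑ p ∈ s, ((exactClasses p).card : ℝ) / ((p ^ 2 : ℕ) : ℝ) := by
        apply Finset.sum_le_sum
        intro p hp
        have hp' := (hs p hp).1
        rw [card_exactClasses hp', Nat.cast_sub hp'.one_lt.le]
        have h2 : (2 : ℝ) ≤ p := by exact_mod_cast hp'.two_le
        push_cast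
        rw [div_le_div_iff₀ (by norm_num) (by positivity)]
        field_simp
        nlinarith
      rw [← Finset.sum_div] at h1
      linarith) δ hδ
  have h2 : UD (⋃ p ∈ s, {n : ℕ | ∀ w : ℕ, w.Prime → w ∣ ∑ i ∈ Finset.range l, n ^ i →
      ¬ ∃ j, 0 < j ∧ w ∣ p ^ j + 1}) 0 :=
    UD_zero_biUnion s _ (fun p hp => step1 hl (hs hp).1 (hs hp).2)
  have h3 := hUD.union h2
  rw [add_zero] at h3
  refine h3.mono ?_
  intro n hn
  by_cases hav : ∀ p ∈ s, (n : ZMod (p ^ 2)) ∉ exactClasses p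
  · exact Or.inl hav
  · right
    push Not at hav
    obtain ⟨p, hps, hpn⟩ := hav
    rw [Set.mem_iUnion₂]
    refine ⟨p, hps, ?_⟩
    intro w hw hwn
    rintro ⟨j, hj, hwj⟩
    apply hn
    have hp := (hs hps).1
    have h4 : p ∣ n ∧ ¬ p ^ 2 ∣ n := by
      unfold exactClasses at hpn
      rw [Finset.mem_image] at hpn
      obtain ⟨u, hu, hun⟩ := hpn
      rw [Finset.mem_Ioo] at hu
      rw [ZMod.natCast_eq_natCast_iff] at hun
      constructor
      · have h5 : p * u ≡ n [MOD p] := hun.of_dvd (dvd_pow_self p two_ne_zero)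
        exact (Nat.ModEq.dvd_iff h5 (dvd_refl p)).mp (dvd_mul_right p u)
      · intro h5
        have h6 := (Nat.ModEq.dvd_iff hun (dvd_refl (p ^ 2))).mpr h5
        rw [pow_two] at h6
        have h7 := Nat.dvd_of_mul_dvd_mul_left hp.pos h6
        have := Nat.le_of_dvd hu.1 h7
        omega
    exact ⟨p, w, j, hp, h4.1, h4.2, hw, hwn, hj, hwj⟩

end Pool.Agent.Lib.MP_79499b_co.AlmostAll29
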