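import Pool.Agent.Lib.MP_79499b_co.SelfConj37

/-!
# A determinant argument for difference sets in arbitrary groups of odd order

Let `G` be a finite group of odd order with a difference set `D`, `N = |D| - λ`, and let `w` be a
prime divisor of `|G|`.  If a prime `p` divides `N` to an odd power then `p ^ j ≢ -1 (mod w)` for
all `j > 0`.  No normal subgroup is needed: one uses the matrix of `D` on the cosets of a cyclic
subgroup of order `w`, with entries in the group ring of that subgroup.
-/

set_option linter.unusedSectionVars false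

namespace Pool.Agent.Lib.MP_79499b_co.Lander29

open MonoidAlgebra Finset SelfConj37

section matrix

variable {G : Type*} [Group G] [Fintype G] [DecidableEq G]
variable {C : Type*} [CommGroup C] [Fintype C] [DecidableEq C]

/-- The matrix of `D` on the cosets of the image of `C`, with entries in `ℤ[C]`. -/
noncomputable def cosetMatrix (φ : C →* G) (D : Finset G) :
    Matrix (G ⧸ φ.range) (G ⧸ φ.range) (MonoidAlgebra ℤ C) :=
  fun s t => ∑ c : C, single c (if s.out * φ c * t.out⁻¹ ∈ D then (1 : ℤ) else 0)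

lemma bijective_coset (φ : C →* G) (hφ : Function.Injective φ) :
    Function.Bijective (fun x : (G ⧸ φ.range) × C => φ x.2 * (x.1.out)⁻¹) := by
  constructor
  · rintro ⟨t, c⟩ ⟨t', c'⟩ h
    simp only at h
    have h1 : t.out * φ c⁻¹ = t'.out * φ c'⁻¹ := by
      have := congrArg (fun x => x⁻¹) h
      simpa [mul_inv_rev] using this
    have h2 : t = t' := by
      have h3 : ((t.out * φ c⁻¹ : G) : G ⧸ φ.range) = ((t'.out * φ c'⁻¹ : G) : G ⧸ φ.range) := by
        rw [h1]
      rw [QuotientGroup.mk_mul_of_mem _ (⟨c⁻¹, rfl⟩ : φ c⁻¹ ∈ φ.range),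
        QuotientGroup.mk_mul_of_mem _ (⟨c'⁻¹, rfl⟩ : φ c'⁻¹ ∈ φ.range)] at h3
      simpa using h3
    subst h2
    have h4 : φ c⁻¹ = φ c'⁻¹ := mul_left_cancel h1
    have h5 := inv_injective (hφ h4)
    rw [h5]
  · intro g
    let t : G ⧸ φ.range := ((g⁻¹ : G) : G ⧸ φ.range)
    have h1 : (t.out)⁻¹ * g⁻¹ ∈ φ.range := by
      rw [← QuotientGroup.eq]
      simp [t]
    obtain ⟨c, hc⟩ := h1
    refine ⟨(t, c⁻¹), ?_⟩
    simp only [map_inv, hc]
    group

/-- the number of representations of `x` as a quotient -/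
lemma card_repr (D : Finset G) (a b : G) :
    (∑ g : G, (if a * g ∈ D then (1 : ℤ) else 0) * (if b * g ∈ D then (1 : ℤ) else 0)) =
      ((D ×ˢ D).filter (fun p : G × G => p.1 * p.2⁻¹ = a * b⁻¹)).card := by
  simp only [← ite_and, mul_ite, mul_one, mul_zero]
  rw [Finset.sum_boole]
  congr 1
  apply Finset.card_bij (fun g _ => (a * g, b * g))
  · intro g hg
    simp only [Finset.mem_filter, Finset.mem_univ, true_and] at hg
    simp only [Finset.mem_filter, Finset.mem_product]
    refine ⟨⟨hg.2, hg.1⟩, by group⟩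
  · intro g _ g' _ h
    simp only [Prod.mk.injEq, mul_right_inj] at h
    exact h.1
  · rintro ⟨d, d'⟩ h
    simp only [Finset.mem_filter, Finset.mem_product] at h
    obtain ⟨⟨h1, h2⟩, h3⟩ := h
    have h4 : a * (b⁻¹ * d') = d := by
      rw [← mul_assoc, ← h3]; group
    refine ⟨b⁻¹ * d', ?_, ?_⟩
    · simp only [Finset.mem_filter, Finset.mem_univ, true_and]
      rw [h4]
      refine ⟨?_, h1⟩
      simpa using h2
    · rw [h4]; simp

lemma inv_single' (c : C) (z : ℤ) :
    inv' ℤ (MonoidAlgebra.single c z) = MonoidAlgebra.single c⁻¹ z := by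
  simp [inv']

/-- The product of the coset matrix with its conjugate transpose. -/
lemma cosetMatrix_mul (φ : C →* G) (hφ : Function.Injective φ) (D : Finset G) (lam : ℕ)
    (hD : ∀ g : G, g ≠ 1 → ((D ×ˢ D).filter (fun p : G × G => p.1 * p.2⁻¹ = g)).card = lam)
    [Fintype (G ⧸ φ.range)] [DecidableEq (G ⧸ φ.range)] (s u : G ⧸ φ.range) :
    ∑ t, cosetMatrix φ D s t * inv' ℤ (cosetMatrix φ D u t) =
      (lam : ℤ) • allSum C + (if s = u then ((D.card : ℤ) - lam) • 1 else 0) := by
  have h1 : ((D ×ˢ D).filter (fun p : G × G => p.1 * p.2⁻¹ = 1)).card = D.card := by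
    have : (D ×ˢ D).filter (fun p : G × G => p.1 * p.2⁻¹ = 1) = D.diag := by
      ext ⟨a, b⟩
      simp only [Finset.mem_filter, Finset.mem_product, Finset.mem_diag, mul_inv_eq_one]
      constructor
      · rintro ⟨⟨h1, _⟩, h3⟩; exact ⟨h1, h3⟩
      · rintro ⟨h1, h3⟩; subst h3; exact ⟨⟨h1, h1⟩, rfl⟩
    rw [this, Finset.diag_card]
  -- rewrite each product
  have h2 : ∀ t : G ⧸ φ.range, cosetMatrix φ D s t * inv' ℤ (cosetMatrix φ D u t) =
      ∑ b : C, ∑ c : C, single b
        ((if s.out * φ b * (φ c * t.out⁻¹) ∈ D then (1 : ℤ) else 0) *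
          (if u.out * (φ c * t.out⁻¹) ∈ D then (1 : ℤ) else 0)) := by
    intro t
    rw [cosetMatrix, cosetMatrix, map_sum]
    simp only [inv_single']
    rw [Finset.sum_mul_sum]
    simp only [MonoidAlgebra.single_mul_single]
    rw [Finset.sum_comm]
    conv_rhs => rw [Finset.sum_comm]
    refine Finset.sum_congr rfl (fun c _ => ?_)
    refine Fintype.sum_equiv (Equiv.mulRight c⁻¹) _ _ (fun b => ?_)
    simp only [Equiv.coe_mulRight]
    congr 2
    · congr 2
      rw [map_mul]
      simp only [map_inv]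
      group
    · congr 2
      group
  simp only [h2]
  rw [Finset.sum_comm]
  have h3 : ∀ b : C, ∑ t : G ⧸ φ.range, ∑ c : C, (single b
        ((if s.out * φ b * (φ c * t.out⁻¹) ∈ D then (1 : ℤ) else 0) *
          (if u.out * (φ c * t.out⁻¹) ∈ D then (1 : ℤ) else 0)) : MonoidAlgebra ℤ C) =
      single b ((lam : ℤ) + if s = u ∧ b = 1 then ((D.card : ℤ) - lam) else 0) := by
    intro b
    rw [← Fintype.sum_prod_type' (f := fun (t : G ⧸ φ.range) (c : C) => (single b
        ((if s.out * φ b * (φ c * t.out⁻¹) ∈ D then (1 : ℤ) else 0) *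
          (if u.out * (φ c * t.out⁻¹) ∈ D then (1 : ℤ) else 0)) : MonoidAlgebra ℤ C))]
    have hs : ∀ f : (G ⧸ φ.range) × C → ℤ, ∑ x, (single b (f x) : MonoidAlgebra ℤ C) =
        single b (∑ x, f x) := fun f =>
      (map_sum (MonoidAlgebra.singleAddHom (R := ℤ) b) f Finset.univ).symm
    rw [hs (fun x => (if s.out * φ b * (φ x.2 * x.1.out⁻¹) ∈ D then (1 : ℤ) else 0) *
          (if u.out * (φ x.2 * x.1.out⁻¹) ∈ D then (1 : ℤ) else 0))]
    congr 1
    rw [Function.Bijective.sum_comp (bijective_coset φ hφ)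
      (fun g => ((if s.out * φ b * g ∈ D then (1 : ℤ) else 0) *
          (if u.out * g ∈ D then (1 : ℤ) else 0))), card_repr]
    by_cases hb : s = u ∧ b = 1
    · obtain ⟨rfl, rfl⟩ := hb
      simp [h1]
    · rw [if_neg hb, hD]
      · simp
      · intro h
        apply hb
        have h4 : s.out * φ b = u.out := by
          rwa [mul_inv_eq_one] at h
        have h5 : s = u := by
          have h6 : ((s.out * φ b : G) : G ⧸ φ.range) = ((u.out : G) : G ⧸ φ.range) := by
            rw [h4]
          rw [QuotientGroup.mk_mul_of_mem _ (⟨b, rfl⟩ : φ b ∈ φ.range)] at h6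
          simpa using h6
        refine ⟨h5, ?_⟩
        subst h5
        have h6 : φ b = 1 := by simpa using h4
        exact hφ (by rw [h6, map_one])
  simp only [h3]
  ext g
  rw [MonoidAlgebra.coeff_sum, Finsupp.finsetSum_apply]
  simp only [MonoidAlgebra.coeff_single, Finsupp.single_apply, Finset.sum_ite_eq',
    Finset.mem_univ, if_true, MonoidAlgebra.coeff_add, Finsupp.add_apply,
    MonoidAlgebra.coeff_smul, Finsupp.smul_apply, coeff_allSum, smul_eq_mul, mul_one]
  congr 1
  by_cases hsu : s = u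
  · rw [if_pos hsu]
    rw [MonoidAlgebra.coeff_smul, Finsupp.smul_apply, MonoidAlgebra.one_def,
      MonoidAlgebra.coeff_single, Finsupp.single_apply]
    by_cases hg : g = 1
    · rw [if_pos ⟨hsu, hg⟩, if_pos hg.symm]; simp
    · rw [if_neg (fun h => hg h.2), if_neg (fun h => hg h.symm)]; simp
  · rw [if_neg hsu, if_neg (fun h => hsu h.1)]; simp

lemma allSum_mul_allSum : allSum C * allSum C = (Fintype.card C : ℤ) • allSum C := by
  have h0 : allSum C * allSum C = ∑ g : C, MonoidAlgebra.single g (1 : ℤ) * allSum C := by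
    rw [← Finset.sum_mul]; rfl
  rw [h0]
  simp only [single_mul_allSum, Finset.sum_const, Finset.card_univ]
  rw [natCast_zsmul]

/-- The key identity: an element `X` of `ℤ[C]` with `X X^(-1) = N^V (w² - w C)`. -/
theorem exists_X (φ : C →* G) (hφ : Function.Injective φ) (D : Finset G) (lam : ℕ)
    (hD : ∀ g : G, g ≠ 1 → ((D ×ˢ D).filter (fun p : G × G => p.1 * p.2⁻¹ = g)).card = lam) :
    ∃ X : MonoidAlgebra ℤ C, X * inv' ℤ X = (((D.card : ℤ) - lam) ^ (Nat.card (G ⧸ φ.range))) •
      (((Fintype.card C : ℤ) ^ 2) • (1 : MonoidAlgebra ℤ C) -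
        (Fintype.card C : ℤ) • allSum C) := by
  classical
  have : Fintype (G ⧸ φ.range) := Fintype.ofFinite _
  set N : ℤ := (D.card : ℤ) - lam with hN
  set A : Matrix (G ⧸ φ.range) (G ⧸ φ.range) (MonoidAlgebra ℤ C) :=
    cosetMatrix φ D * ((inv' ℤ : MonoidAlgebra ℤ C →+* _).mapMatrix (cosetMatrix φ D)).transpose
    with hA
  have hA' : ∀ s u, A s u = (lam : ℤ) • allSum C + (if s = u then N • 1 else 0) := by
    intro s u
    rw [hA, Matrix.mul_apply]
    exact cosetMatrix_mul φ hφ D lam hD s u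
  have hdet : A.det = (cosetMatrix φ D).det * inv' ℤ (cosetMatrix φ D).det := by
    rw [hA, Matrix.det_mul, Matrix.det_transpose, RingHom.map_det]
  -- the determinant modulo the ideal generated by `allSum`
  let I : Ideal (MonoidAlgebra ℤ C) := Ideal.span {allSum C}
  have hI : (Ideal.Quotient.mk I) A.det = (Ideal.Quotient.mk I) ((N ^ Nat.card (G ⧸ φ.range)) • 1) := by
    rw [RingHom.map_det]
    have h1 : (Ideal.Quotient.mk I).mapMatrix A =
        Matrix.diagonal (fun _ => (Ideal.Quotient.mk I) (N • 1)) := by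
      ext s u
      rw [RingHom.mapMatrix_apply, Matrix.map_apply, hA', map_add, map_zsmul]
      have h2 : (Ideal.Quotient.mk I) (allSum C) = 0 :=
        Ideal.Quotient.eq_zero_iff_mem.mpr (Ideal.subset_span rfl)
      rw [h2, smul_zero, zero_add]
      by_cases hsu : s = u
      · subst hsu; simp
      · rw [if_neg hsu, Matrix.diagonal_apply_ne _ hsu, map_zero]
    rw [h1, Matrix.det_diagonal, Finset.prod_const, Finset.card_univ, ← Nat.card_eq_fintype_card,
      ← map_pow]
    congr 1
    simp only [zsmul_eq_mul, mul_one]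
    push_cast
    ring
  rw [Ideal.Quotient.mk_eq_mk_iff_sub_mem, Ideal.mem_span_singleton'] at hI
  obtain ⟨r, hr⟩ := hI
  have hAd : A.det = (N ^ Nat.card (G ⧸ φ.range)) • 1 + r * allSum C := by
    rw [hr]; ring
  set e : MonoidAlgebra ℤ C := (Fintype.card C : ℤ) • 1 - allSum C with he
  have he0 : e * allSum C = 0 := by
    rw [he, sub_mul, allSum_mul_allSum, smul_mul_assoc, one_mul, sub_self]
  have hinv : inv' ℤ e = e := by
    rw [he, map_sub, map_zsmul, map_one, inv_allSum]
  have hee : e * e = ((Fintype.card C : ℤ) ^ 2) • (1 : MonoidAlgebra ℤ C) -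
        (Fintype.card C : ℤ) • allSum C := by
    have : e * e = e * ((Fintype.card C : ℤ) • 1) - e * allSum C := by
      rw [← mul_sub]
    rw [this, he0, sub_zero, he, mul_smul_comm, mul_one, smul_sub, smul_smul, pow_two]
  refine ⟨e * (cosetMatrix φ D).det, ?_⟩
  rw [map_mul, hinv]
  have h3 : e * (cosetMatrix φ D).det * (e * inv' ℤ (cosetMatrix φ D).det) =
      e * e * A.det := by rw [hdet]; ring
  rw [h3, hAd, mul_add]
  have h4 : e * e * (r * allSum C) = 0 := by
    have : e * e * (r * allSum C) = e * r * (e * allSum C) := by ring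
    rw [this, he0, mul_zero]
  rw [h4, add_zero, hee, mul_smul_comm, mul_one]

end matrix

section main

variable {G : Type*} [Group G] [Fintype G] [DecidableEq G]

/-- For a difference set in an arbitrary finite group of odd order, a prime `p` dividing
`|D| - λ` to an odd power is not self-conjugate modulo any prime divisor `w` of the group order. -/
theorem not_selfconj (D : Finset G) (lam : ℕ)
    (hD : ∀ g : G, g ≠ 1 → ((D ×ˢ D).filter (fun p : G × G => p.1 * p.2⁻¹ = g)).card = lam)
    (hodd : Odd (Fintype.card G)) (w : ℕ) (hw : w.Prime) (hwG : w ∣ Fintype.card G)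
    (p : ℕ) (hp : p.Prime) {j : ℕ} (hj : 0 < j) (hdvd : w ∣ p ^ j + 1)
    (c : ℕ) (s : ℤ) (hs : ¬ (p : ℤ) ∣ s) (hN : (D.card : ℤ) - lam = (p : ℤ) ^ (2 * c + 1) * s) :
    False := by
  classical
  have : Fact p.Prime := ⟨hp⟩
  have : Fact w.Prime := ⟨hw⟩
  obtain ⟨g, hg⟩ := exists_prime_orderOf_dvd_card w hwG
  have hz : Nat.card (Multiplicative (ZMod w)) = w := by
    rw [Nat.card_eq_fintype_card, Fintype.card_multiplicative, ZMod.card]
  have hq : Nat.card (Subgroup.zpowers g) = w := by
    rw [Nat.card_zpowers, hg]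
  let e : Multiplicative (ZMod w) ≃* Subgroup.zpowers g := mulEquivOfPrimeCardEq hz hq
  let φ : Multiplicative (ZMod w) →* G := (Subgroup.zpowers g).subtype.comp e.toMonoidHom
  have hφ : Function.Injective φ := (Subgroup.subtype_injective _).comp e.injective
  obtain ⟨X, hX⟩ := exists_X φ hφ D lam hD
  have hcardC : Fintype.card (Multiplicative (ZMod w)) = w := by
    rw [← Nat.card_eq_fintype_card, hz]
  have hV : Odd (Nat.card (G ⧸ φ.range)) := by
    apply Odd.of_dvd_nat hodd
    rw [← Nat.card_eq_fintype_card]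
    exact Subgroup.card_quotient_dvd_card _
  obtain ⟨d, hd⟩ := hV
  have hexp : ((D.card : ℤ) - lam) ^ (Nat.card (G ⧸ φ.range)) =
      (p : ℤ) ^ (2 * (c * (2 * d + 1) + d) + 1) * s ^ (2 * d + 1) := by
    rw [hN, hd, mul_pow, ← pow_mul]
    congr 2
    ring
  rw [hexp] at hX
  refine no_odd p hj (by rw [hcardC]; exact hw.one_lt) (by rw [hcardC]; exact hdvd) _ _ ?_ X hX
  intro h
  exact hs ((Nat.prime_iff_prime_int.mp hp).dvd_of_dvd_pow h)

end main

end Pool.Agent.Lib.MP_79499b_co.Lander29
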