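import Pool.Agent.Lib.MP_79499b_co.AlmostAll29
import Pool.Agent.Lib.MP_79499b_co.Lander29

/-!
# For odd `m` almost all `n` admit no difference set with Singer parameters, in any finite group

For every bound `L` the set of all `n` such that for some odd `m ≥ 3` having a prime factor `≤ L`
some finite group of order `(n^m - 1)/(n - 1)` contains a difference set with the Singer
parameters has natural density zero.  (For a single odd `m` take `L = m`.)
-/

set_option autoImplicit false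

open Filter Topology

namespace Pool.Agent.Lib.MP_79499b_co.AlmostAllOrdersOld

/-- Some finite group of order `v = (n^m - 1)/(n - 1)` contains a difference set with the Singer
parameters `(v, k, λ)`, `k = (n^(m-1) - 1)/(n - 1)`, `λ = (n^(m-2) - 1)/(n - 1)`. -/
def HasSingerDifferenceSet (n m : ℕ) : Prop :=
  ∃ (G : Type) (_ : Group G) (_ : Fintype G) (_ : DecidableEq G) (D : Finset G),
    Fintype.card G * (n - 1) = n ^ m - 1 ∧
    D.card * (n - 1) = n ^ (m - 1) - 1 ∧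
    ∀ g : G, g ≠ 1 →
      ((D ×ˢ D).filter (fun p : G × G => p.1 * p.2⁻¹ = g)).card * (n - 1) = n ^ (m - 2) - 1

open Pool.Agent.Lib.MP_79499b_co

lemma odd_geom {n m : ℕ} (hm : Odd m) : Odd (∑ i ∈ Finset.range m, n ^ i) := by
  rcases Nat.even_or_odd n with hn | hn
  · obtain ⟨k, rfl⟩ := hm
    rw [Finset.sum_range_succ', pow_zero]
    apply Even.add_one
    apply Finset.even_sum
    intro i _
    exact hn.pow_of_ne_zero (Nat.succ_ne_zero i)
  · rw [Finset.odd_sum_iff_odd_card_odd]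
    have : (Finset.range m).filter (fun i => Odd (n ^ i)) = Finset.range m := by
      apply Finset.filter_true_of_mem
      intro i _
      exact hn.pow
    rw [this, Finset.card_range]
    exact hm

lemma exclusion {n m l p w j : ℕ} (hn : 2 ≤ n) (hm : 3 ≤ m) (hodd : Odd m) (hlm : l ∣ m)
    (hp : p.Prime) (hpn : p ∣ n) (hpn2 : ¬ p ^ 2 ∣ n) (hw : w.Prime)
    (hwn : w ∣ ∑ i ∈ Finset.range l, n ^ i) (hj : 0 < j) (hwj : w ∣ p ^ j + 1) :
    ¬ HasSingerDifferenceSet n m := by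
  rintro ⟨G, _, _, _, D, hG, hD, hlam⟩
  have hn1 : 0 < n - 1 := by omega
  have hgeom : ∀ t : ℕ, (∑ i ∈ Finset.range t, n ^ i) * (n - 1) = n ^ t - 1 := by
    intro t
    rw [Nat.geomSum_eq hn, Nat.div_mul_cancel]
    exact Nat.sub_one_dvd_pow_sub_one n t
  have hv : Fintype.card G = ∑ i ∈ Finset.range m, n ^ i := by
    apply Nat.eq_of_mul_eq_mul_right hn1
    rw [hG, hgeom]
  have hk : D.card = ∑ i ∈ Finset.range (m - 1), n ^ i := by
    apply Nat.eq_of_mul_eq_mul_right hn1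
    rw [hD, hgeom]
  set lam := ∑ i ∈ Finset.range (m - 2), n ^ i with hlamdef
  have hlam' : ∀ g : G, g ≠ 1 →
      ((D ×ˢ D).filter (fun p : G × G => p.1 * p.2⁻¹ = g)).card = lam := by
    intro g hg
    apply Nat.eq_of_mul_eq_mul_right hn1
    rw [hlam g hg, hgeom]
  have hkl : D.card = lam + n ^ (m - 2) := by
    rw [hk, hlamdef, ← Finset.sum_range_succ]
    congr 2
    omega
  have hdvd : (∑ i ∈ Finset.range l, n ^ i) ∣ ∑ i ∈ Finset.range m, n ^ i := by
    apply Nat.dvd_of_mul_dvd_mul_right hn1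
    rw [hgeom, hgeom]
    obtain ⟨k, rfl⟩ := hlm
    rw [pow_mul]
    exact Nat.sub_one_dvd_pow_sub_one (n ^ l) k
  obtain ⟨u, rfl⟩ := hpn
  have hpu : ¬ (p : ℤ) ∣ (u : ℤ) := by
    intro h
    have h1 : p ∣ u := by exact_mod_cast h
    obtain ⟨t, rfl⟩ := h1
    exact hpn2 ⟨t, by ring⟩
  obtain ⟨c, hc⟩ := hodd
  have hc' : m - 2 = 2 * (c - 1) + 1 := by omega
  refine Lander29.not_selfconj D lam hlam' ?_ w hw ?_ p hp hj hwj (c - 1)
    ((u : ℤ) ^ (m - 2)) ?_ ?_
  · rw [hv]; exact odd_geom ⟨c, hc⟩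
  · rw [hv]; exact hwn.trans hdvd
  · intro h
    exact hpu ((Nat.prime_iff_prime_int.mp hp).dvd_of_dvd_pow h)
  · rw [hkl, ← hc']
    push_cast
    ring

/-- For every `L`, the set of all `n ≥ 2` such that for some odd `m ≥ 3` which has a prime factor
`l ≤ L` some finite group `G` of order `(n^m - 1)/(n - 1)` contains a difference set `D` with the
Singer parameters has natural density zero. -/
theorem result (L : ℕ) :
    Tendsto (fun x : ℕ => (Set.ncard {n : ℕ | 2 ≤ n ∧ n < x ∧ ∃ m l : ℕ, 3 ≤ m ∧ Odd m ∧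
      l.Prime ∧ l ≤ L ∧ l ∣ m ∧
      ∃ (G : Type) (_ : Group G) (_ : Fintype G) (_ : DecidableEq G) (D : Finset G),
        Fintype.card G * (n - 1) = n ^ m - 1 ∧
        D.card * (n - 1) = n ^ (m - 1) - 1 ∧
        ∀ g : G, g ≠ 1 →
          ((D ×ˢ D).filter (fun p : G × G => p.1 * p.2⁻¹ = g)).card * (n - 1) =
            n ^ (m - 2) - 1} : ℝ) / x) atTop (𝓝 0) := by
  classical
  set E : ℕ → Set ℕ := fun l => {n : ℕ | ¬ ∃ p w j : ℕ, p.Prime ∧ p ∣ n ∧ ¬ p ^ 2 ∣ n ∧ w.Prime ∧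
      w ∣ ∑ i ∈ Finset.range l, n ^ i ∧ 0 < j ∧ w ∣ p ^ j + 1} with hE
  set S : Set ℕ := {n : ℕ | 2 ≤ n ∧ ∃ m l : ℕ, 3 ≤ m ∧ Odd m ∧
      l.Prime ∧ l ≤ L ∧ l ∣ m ∧ HasSingerDifferenceSet n m} with hS
  have h1 : Density29.UD (⋃ l ∈ (Finset.range (L + 1)).filter Nat.Prime, E l) 0 :=
    Density29.UD_zero_biUnion _ _ (fun l hl => AlmostAll29.almost_all (Finset.mem_filter.mp hl).2)
  have h2 : Density29.UD S 0 := by
    refine h1.mono ?_
    rintro n ⟨hn, m, l, hm, hodd, hl, hlL, hlm, hds⟩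
    rw [Set.mem_iUnion₂]
    refine ⟨l, Finset.mem_filter.mpr ⟨Finset.mem_range.mpr (by omega), hl⟩, ?_⟩
    rintro ⟨p, w, j, hp, hpn, hpn2, hw, hwn, hj, hwj⟩
    exact exclusion hn hm hodd hlm hp hpn hpn2 hw hwn hj hwj hds
  have h3 := Density29.tendsto_of_UD_zero h2
  refine h3.congr (fun x => ?_)
  congr 2
  unfold Density29.cnt
  congr 1
  ext n
  constructor
  · rintro ⟨⟨h4, h5⟩, h6⟩
    exact ⟨h4, h6, h5⟩
  · rintro ⟨h4, h6, h5⟩
    exact ⟨⟨h4, h5⟩, h6⟩

end Pool.Agent.Lib.MP_79499b_co.AlmostAllOrdersOld
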