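import Pool.Agent.Lib.MP_79499b_co.Master

/-!
# Assembly: line structure and twist theorem for arbitrary groups with an abelian quotient
-/

namespace Pool.Agent.Lib.MP_79499b_co

open Finset MonoidAlgebra

lemma coprime_sq_succ (n : ℕ) : (n ^ 2 + 1).Coprime n := by
  rw [Nat.coprime_comm, sq]; simp

lemma prime_dvd_two {n r : ℕ} (h1 : r ∣ n + 1) (h2 : r ∣ n ^ 2 + 1) : r ∣ 2 := by
  have h3 : (r : ℤ) ∣ (n : ℤ) + 1 := by exact_mod_cast Int.natCast_dvd_natCast.mpr h1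
  have h4 : (r : ℤ) ∣ (n : ℤ) ^ 2 + 1 := by exact_mod_cast Int.natCast_dvd_natCast.mpr h2
  have h5 : (r : ℤ) ∣ 2 := by
    have : (2 : ℤ) = ((n : ℤ) ^ 2 + 1) - ((n : ℤ) + 1) * ((n : ℤ) - 1) := by ring
    rw [this]
    exact dvd_sub h4 (Dvd.dvd.mul_right h3 _)
  exact_mod_cast h5

/-- on a group of order `n²+1`, `y^((s+1)(n+1)) = 1` forces `y^s = y⁻¹` -/
lemma inversion_of {B : Type} [CommGroup B] [Finite B] {n s : ℕ} (hB : Nat.card B = n ^ 2 + 1)
    (hs : ∀ y : B, y ^ ((s + 1) * (n + 1)) = 1) (hsc : (Nat.card B).Coprime s) (y : B) :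
    y ^ s = y⁻¹ := by
  have hz1 : (y ^ (s + 1)) ^ (n + 1) = 1 := by rw [← pow_mul]; exact hs y
  have hz2 : (y ^ (s + 1)) ^ (n ^ 2 + 1) = 1 := by rw [← hB]; exact pow_card_eq_one'
  have hord : orderOf (y ^ (s + 1)) ∣ 2 :=
    prime_dvd_two (orderOf_dvd_of_pow_eq_one hz1) (orderOf_dvd_of_pow_eq_one hz2)
  have hz : y ^ (s + 1) = 1 := by
    rcases Nat.even_or_odd n with hn | hn
    · have h1 : orderOf (y ^ (s + 1)) ∣ n ^ 2 + 1 := orderOf_dvd_of_pow_eq_one hz2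
      have h2 : Nat.Coprime 2 (n ^ 2 + 1) := by
        rw [Nat.coprime_two_left]
        exact Even.add_one (Even.pow_of_ne_zero hn (by norm_num))
      have h3 : orderOf (y ^ (s + 1)) = 1 := Nat.eq_one_of_dvd_coprimes h2 hord h1
      exact orderOf_eq_one_iff.mp h3
    · -- n odd : n² + 1 = 2 c with c odd
      obtain ⟨m, hm⟩ := hn
      set c := 2 * m ^ 2 + 2 * m + 1 with hc
      have h2c : n ^ 2 + 1 = 2 * c := by rw [hm, hc]; ring
      have hsodd : Odd s := by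
        rw [hB, h2c] at hsc
        have h4 : Nat.Coprime 2 s := Nat.Coprime.coprime_mul_right hsc
        exact Nat.coprime_two_left.mp h4
      obtain ⟨e, he⟩ := hsodd
      have h4 : (y ^ (s + 1)) ^ c = 1 := by
        have h5 : y ^ (2 * c) = 1 := by rw [← h2c, ← hB]; exact pow_card_eq_one'
        have h6 : (s + 1) * c = (2 * c) * (e + 1) := by rw [he]; ring
        rw [← pow_mul, h6, pow_mul, h5, one_pow]
      have h5 : orderOf (y ^ (s + 1)) ∣ c := orderOf_dvd_of_pow_eq_one h4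
      have h6 : Nat.Coprime 2 c := by
        rw [Nat.coprime_two_left]
        exact ⟨m ^ 2 + m, by rw [hc]; ring⟩
      exact orderOf_eq_one_iff.mp (Nat.eq_one_of_dvd_coprimes h6 hord h5)
  rw [pow_succ] at hz
  exact eq_inv_of_mul_eq_one_left hz

/-- the image of `x ↦ x^t x⁻¹` lies in a subgroup of index `n²+1` -/
lemma exists_subgroup_twist {Q : Type} [CommGroup Q] [Finite Q] {n t r : ℕ}
    (hQ : Nat.card Q = r * (n ^ 2 + 1)) (htc : (Nat.card Q).Coprime t)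
    (ht : ∀ x : Q, x ^ (t * (n + 1)) = x ^ (n + 1)) :
    ∃ A : Subgroup Q, (∀ x : Q, x ^ t * x⁻¹ ∈ A) ∧ Nat.card A = r := by
  classical
  set θ : Q →* Q := (powMonoidHom t : Q →* Q) * (invMonoidHom : Q →* Q) with hθ
  have hθx : ∀ x, θ x = x ^ t * x⁻¹ := fun x => rfl
  have hpow : ∀ x, (θ x) ^ (n + 1) = 1 := by
    intro x
    rw [hθx, mul_pow, ← pow_mul, ht, inv_pow, mul_inv_cancel]
  have hker : Nat.card θ.ker * Nat.card θ.range = Nat.card Q := by
    rw [← Subgroup.index_ker, Subgroup.card_mul_index]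
  have hprime : ∀ l : ℕ, l.Prime → l ∣ Nat.card θ.range → l ∣ n + 1 := by
    intro l hl hdvd
    have : Fact l.Prime := ⟨hl⟩
    obtain ⟨y, hyo⟩ := exists_prime_orderOf_dvd_card' (G := θ.range) l hdvd
    obtain ⟨x, hx⟩ := MonoidHom.mem_range.mp y.2
    have h1 : orderOf (θ x) = l := by
      rw [← hyo, hx, Subgroup.orderOf_coe]
    rw [← h1]
    exact orderOf_dvd_of_pow_eq_one (hpow x)
  have hcopc : ∀ c : ℕ, c ∣ n ^ 2 + 1 → Odd c → (Nat.card θ.range).Coprime c := by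
    intro c hc hodd
    rw [Nat.coprime_iff_gcd_eq_one]
    by_contra hne
    obtain ⟨l, hl, hld⟩ := Nat.exists_prime_and_dvd hne
    have h1 := hprime l hl (hld.trans (Nat.gcd_dvd_left _ _))
    have h2 : l ∣ c := hld.trans (Nat.gcd_dvd_right _ _)
    have h3 : l ∣ 2 := prime_dvd_two h1 (h2.trans hc)
    have h4 : l = 2 := (Nat.prime_dvd_prime_iff_eq hl Nat.prime_two).mp h3
    rw [h4] at h2
    exact (Nat.not_even_iff_odd.mpr hodd) (even_iff_two_dvd.mpr h2)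
  have hRr : Nat.card θ.range ∣ r := by
    rcases Nat.even_or_odd n with hn | hn
    · have h1 : Nat.card θ.range ∣ r * (n ^ 2 + 1) := by
        rw [← hQ, ← hker]; exact dvd_mul_left _ _
      exact (hcopc _ dvd_rfl (Even.add_one (Even.pow_of_ne_zero hn (by norm_num)))).dvd_of_dvd_mul_right h1
    · obtain ⟨m, hm⟩ := hn
      set c := 2 * m ^ 2 + 2 * m + 1 with hc
      have h2c : n ^ 2 + 1 = 2 * c := by rw [hm, hc]; ring
      have h2Q : 2 ∣ Nat.card Q := by rw [hQ, h2c]; exact ⟨r * c, by ring⟩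
      have htodd : Odd t := Nat.coprime_two_left.mp (htc.coprime_dvd_left h2Q)
      have hfact : Fact (Nat.Prime 2) := ⟨Nat.prime_two⟩
      obtain ⟨w, hw⟩ := exists_prime_orderOf_dvd_card' (G := Q) 2 h2Q
      have hwker : w ∈ θ.ker := by
        rw [MonoidHom.mem_ker, hθx]
        obtain ⟨e, he⟩ := htodd
        have : w ^ 2 = 1 := by rw [← hw]; exact pow_orderOf_eq_one w
        rw [he, pow_succ, pow_mul, this, one_pow, one_mul, mul_inv_cancel]
      have h2ker : 2 ∣ Nat.card θ.ker := by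
        have h3 : orderOf (⟨w, hwker⟩ : θ.ker) ∣ Nat.card θ.ker := orderOf_dvd_natCard _
        rwa [Subgroup.orderOf_mk, hw] at h3
      obtain ⟨k, hk⟩ := h2ker
      have h3 : Nat.card θ.range ∣ r * c := by
        refine ⟨k, ?_⟩
        have h4 : 2 * (r * c) = 2 * (Nat.card θ.range * k) := by
          calc 2 * (r * c) = r * (n ^ 2 + 1) := by rw [h2c]; ring
            _ = Nat.card θ.ker * Nat.card θ.range := by rw [hker, hQ]
            _ = 2 * (Nat.card θ.range * k) := by rw [hk]; ring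
        exact Nat.eq_of_mul_eq_mul_left (by norm_num) h4
      exact (hcopc c ⟨2, by rw [h2c]; ring⟩ ⟨m ^ 2 + m, by rw [hc]; ring⟩).dvd_of_dvd_mul_right h3
  obtain ⟨A, hA1, hA2⟩ := exists_subgroup_card_eq_ge Q θ.range r hRr (by rw [hQ]; exact dvd_mul_right _ _)
  exact ⟨A, fun x => hA1 ⟨x, rfl⟩, hA2⟩

/-- `m` satisfies the hypotheses of the second multiplier theorem on `Q` -/
def QMult (n κ : ℕ) (Q : Type) [CommGroup Q] (m : ℕ) : Prop :=
  ∃ n₁ : ℕ, n₁ ∣ n ^ 2 ∧ (κ * (n + 1) < n₁ ∨ n₁ = n ^ 2) ∧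
    ∀ r : ℕ, r.Prime → r ∣ n₁ → ∃ i : ℕ, ∀ x : Q, x ^ m = x ^ r ^ i

lemma QMult.coprime {n κ : ℕ} (hn : 2 ≤ n) (hκ : 0 < κ) {Q : Type} [CommGroup Q] [Finite Q]
    (hQ : (Nat.card Q).Coprime n) {m : ℕ} (hm : QMult n κ Q m) : (Nat.card Q).Coprime m := by
  obtain ⟨n₁, h1, h2, h3⟩ := hm
  have hn₁ : n₁ ≠ 1 := by
    rintro rfl
    rcases h2 with h | h
    · nlinarith
    · nlinarith
  obtain ⟨r, hr, hrd⟩ := Nat.exists_prime_and_dvd hn₁
  obtain ⟨i, hi⟩ := h3 r hr hrd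
  have hrn : r ∣ n := hr.dvd_of_dvd_pow (hrd.trans h1)
  have hcr : (Nat.card Q).Coprime (r ^ i) := (hQ.coprime_dvd_right hrn).pow_right i
  rw [Nat.coprime_iff_gcd_eq_one]
  by_contra hne
  obtain ⟨l, hl, hld⟩ := Nat.exists_prime_and_dvd hne
  have : Fact l.Prime := ⟨hl⟩
  obtain ⟨x, hx⟩ := exists_prime_orderOf_dvd_card' (G := Q) l (hld.trans (Nat.gcd_dvd_left _ _))
  have h4 : x ^ m = 1 := by
    apply orderOf_dvd_iff_pow_eq_one.mp
    rw [hx]; exact hld.trans (Nat.gcd_dvd_right _ _)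
  rw [hi] at h4
  have h5 : l ∣ r ^ i := by rw [← hx]; exact orderOf_dvd_of_pow_eq_one h4
  have h6 : l ∣ 1 := by
    rw [← hcr]; exact Nat.dvd_gcd (hld.trans (Nat.gcd_dvd_left _ _)) h5
  exact hl.one_lt.ne' (Nat.dvd_one.mp h6)

/-- numerical data of the Singer parameters for `m = 4` -/
lemma singer_four_data {G : Type} [Group G] [Fintype G] [DecidableEq G] {n : ℕ} (hn : 2 ≤ n)
    (hG : Fintype.card G * (n - 1) = n ^ 4 - 1) (D : Finset G)
    (hk : D.card * (n - 1) = n ^ 3 - 1)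
    (hD : ∀ g : G, g ≠ 1 →
      ((D ×ˢ D).filter (fun x : G × G => x.1 * x.2⁻¹ = g)).card * (n - 1) = n ^ 2 - 1) :
    Nat.card G = (n + 1) * (n ^ 2 + 1) ∧ D.card = n ^ 2 + n + 1 ∧
    ∀ g : G, g ≠ 1 →
      (((D ×ˢ D).filter (fun x : G × G => x.1 * x.2⁻¹ = g)).card : ℤ) = (n : ℤ) + 1 := by
  obtain ⟨m, rfl⟩ : ∃ m, n = m + 2 := ⟨n - 2, by omega⟩
  have e1 : m + 2 - 1 = m + 1 := by omega
  have e4 : (m + 2) ^ 4 - 1 = ((m + 2 + 1) * ((m + 2) ^ 2 + 1)) * (m + 1) := by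
    rw [Nat.sub_eq_iff_eq_add (Nat.one_le_pow _ _ (by omega))]; ring
  have e3 : (m + 2) ^ 3 - 1 = ((m + 2) ^ 2 + (m + 2) + 1) * (m + 1) := by
    rw [Nat.sub_eq_iff_eq_add (Nat.one_le_pow _ _ (by omega))]; ring
  have e2 : (m + 2) ^ 2 - 1 = (m + 2 + 1) * (m + 1) := by
    rw [Nat.sub_eq_iff_eq_add (Nat.one_le_pow _ _ (by omega))]; ring
  rw [e1, e4] at hG
  rw [e1, e3] at hk
  have hG' := Nat.eq_of_mul_eq_mul_right (by omega) hG
  have hk' := Nat.eq_of_mul_eq_mul_right (by omega) hk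
  refine ⟨by rw [Nat.card_eq_fintype_card, hG'], hk', ?_⟩
  intro g hg
  have h2 := hD g hg
  rw [e1, e2] at h2
  have h3 := Nat.eq_of_mul_eq_mul_right (by omega) h2
  rw [h3]; push_cast; ring

section assembly

variable {G Q : Type} [Group G] [Fintype G] [DecidableEq G] [CommGroup Q] [Fintype Q]

/-- all data of the image of a Singer-parameter difference set (`m = 4`) -/
structure ImageData (n κ : ℕ) (X : MonoidAlgebra ℤ Q) : Prop where
  two_le : 2 ≤ n
  kpos : 0 < κ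
  card_mul : κ * Nat.card Q = (n + 1) * (n ^ 2 + 1)
  nonneg : ∀ x, 0 ≤ X.coeff x
  le : ∀ x, X.coeff x ≤ κ
  aug_eq : aug X = (n : ℤ) ^ 2 + n + 1
  mul_iv : X * iv X = (((n : ℤ) ^ 2 : ℤ) : MonoidAlgebra ℤ Q)
      + (((κ : ℤ) * ((n : ℤ) + 1) : ℤ) : MonoidAlgebra ℤ Q) * el univ

lemma imageData {n : ℕ} (hn : 2 ≤ n)
    (hG : Fintype.card G * (n - 1) = n ^ 4 - 1) (D : Finset G)
    (hk : D.card * (n - 1) = n ^ 3 - 1)
    (hD : ∀ g : G, g ≠ 1 →
      ((D ×ˢ D).filter (fun x : G × G => x.1 * x.2⁻¹ = g)).card * (n - 1) = n ^ 2 - 1)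
    (φ : G →* Q) (hφ : Function.Surjective φ) :
    ImageData n (Nat.card φ.ker) (im φ D) := by
  classical
  obtain ⟨h1, h2, h3⟩ := singer_four_data hn hG D hk hD
  refine ⟨hn, Nat.card_pos, ?_, im_nonneg φ D, im_le φ hφ D, ?_, ?_⟩
  · rw [← h1, ← Subgroup.card_mul_index φ.ker, Subgroup.index_ker]
    congr 1
    rw [MonoidHom.range_eq_top.mpr hφ]
    exact (Nat.card_congr (Subgroup.topEquiv).toEquiv).symm
  · rw [aug_im, h2]; push_cast; ring
  · rw [im_mul_iv φ hφ D h3, h2]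
    push_cast; ring

omit [Fintype G] [DecidableEq G] in
lemma ImageData.coprime {n κ : ℕ} {X : MonoidAlgebra ℤ Q} (h : ImageData n κ X) :
    (Nat.card Q).Coprime n := by
  have h1 : ((n + 1) * (n ^ 2 + 1)).Coprime n :=
    Nat.Coprime.mul_left (by simp) (coprime_sq_succ n)
  exact h1.coprime_dvd_left ⟨κ, by rw [← h.card_mul]; ring⟩

lemma ImageData.multiplier {n κ : ℕ} {X : MonoidAlgebra ℤ Q} (h : ImageData n κ X) {m : ℕ}
    (hm : QMult n κ Q m) : ∃ g : Q, pw m X = single g 1 * X := by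
  have hc := hm.coprime h.two_le h.kpos h.coprime
  have hn := h.two_le
  obtain ⟨n₁, h1, h2, h3⟩ := hm
  have h1' : (n₁ : ℤ) ∣ (n : ℤ) ^ 2 := by exact_mod_cast Int.natCast_dvd_natCast.mpr h1
  refine multiplier_gen X h.nonneg h.mul_iv (by positivity) h1' ?_ hc
    (dvd_twist_comp X h.mul_iv h1' ((h.coprime.pow_right 2).coprime_dvd_right h1) h3)
  rcases h2 with h2 | h2
  · left; exact_mod_cast h2
  · right; rw [h2]; push_cast; ring

/-- Triviality of the image in a quotient of order `n²+1`. -/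
lemma ImageData.trivial {n κ : ℕ} {X : MonoidAlgebra ℤ Q} (h : ImageData n κ X)
    (A : Subgroup Q) (hA : κ * Nat.card A = n + 1)
    {m₀ l₀ j₀ : ℕ} (hm₀ : QMult n κ Q m₀) (hl₀ : l₀.Prime) (hln : l₀ ∣ n)
    (hinv : ∀ x : Q, x ^ ((m₀ * l₀ ^ j₀ + 1) * (n + 1)) = 1) :
    ∃ c : Q ⧸ A, (pr (QuotientGroup.mk' A) X).coeff c = 1 + (n : ℤ) ∧
      ∀ y, y ≠ c → (pr (QuotientGroup.mk' A) X).coeff y = 1 := by
  classical
  have : Fintype (Q ⧸ A) := Fintype.ofFinite _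
  have hn := h.two_le
  have hB : Nat.card (Q ⧸ A) = n ^ 2 + 1 := by
    have h1 := Subgroup.card_eq_card_quotient_mul_card_subgroup A
    have h2 := h.card_mul
    rw [h1, mul_left_comm, hA, mul_comm] at h2
    exact Nat.eq_of_mul_eq_mul_left (by omega) h2
  set φ := QuotientGroup.mk' A with hφ
  have hφs : Function.Surjective φ := QuotientGroup.mk'_surjective A
  have hcard : ((Nat.card φ.ker : ℕ) : ℤ) = Nat.card A := by rw [hφ, QuotientGroup.ker_mk']
  have hκA : (κ : ℤ) * (Nat.card A : ℤ) = (n : ℤ) + 1 := by exact_mod_cast hA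
  have hXX : pr φ X * iv (pr φ X) = (((n : ℤ) ^ 2 : ℤ) : MonoidAlgebra ℤ (Q ⧸ A))
      + ((((n : ℤ) + 1) ^ 2 : ℤ) : MonoidAlgebra ℤ (Q ⧸ A)) * el univ := by
    rw [← pr_iv, ← map_mul, h.mul_iv, map_add, map_mul, map_intCast, map_intCast,
      pr_el_univ φ hφs, hcard, ← mul_assoc, ← Int.cast_mul]
    congr 3
    linear_combination ((n : ℤ) + 1) * hκA
  have hcopl : (Nat.card (Q ⧸ A)).Coprime l₀ := by
    rw [hB]; exact (coprime_sq_succ n).coprime_dvd_right hln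
  have hcopm : (Nat.card (Q ⧸ A)).Coprime m₀ :=
    (hm₀.coprime hn h.kpos h.coprime).coprime_dvd_left (Subgroup.card_quotient_dvd_card A)
  refine trivial_quotient hn hB (pr φ X) (pr_nonneg φ X h.nonneg) (by rw [aug_pr, h.aug_eq]) hXX
    hl₀ hln j₀ ?_
  obtain ⟨g, hg⟩ := h.multiplier hm₀
  refine ⟨φ g ^ l₀ ^ j₀, ?_⟩
  have h1 : pw (m₀ * l₀ ^ j₀) (pr φ X) = iv (pr φ X) := by
    apply pw_eq_iv
    refine inversion_of hB ?_ (Nat.Coprime.mul_right hcopm (hcopl.pow_right _))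
    intro y
    obtain ⟨x, rfl⟩ := hφs y
    rw [← map_pow, hinv, map_one]
  rw [← h1, mul_comm m₀, ← pw_pw, ← pr_pw, hg, map_mul, pr_single, map_mul, pw_single]

/-- Twist theorem on the abelian quotient. -/
theorem ImageData.twist {n κ : ℕ} {X : MonoidAlgebra ℤ Q} (h : ImageData n κ X)
    (hdvd : n ^ 2 + 1 ∣ Nat.card Q)
    {m₀ l₀ j₀ : ℕ} (hm₀ : QMult n κ Q m₀) (hl₀ : l₀.Prime) (hln₀ : l₀ ∣ n)
    (hinv : ∀ x : Q, x ^ ((m₀ * l₀ ^ j₀ + 1) * (n + 1)) = 1)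
    {m l j : ℕ} (hm : QMult n κ Q m) (hl : l.Prime) (hln : l ∣ n)
    (ht : ∀ x : Q, x ^ (m * l ^ j * (n + 1)) = x ^ (n + 1)) :
    ∀ x : Q, x ^ (m * l ^ j) = x := by
  classical
  have hn := h.two_le
  obtain ⟨r, hr⟩ := hdvd
  have hQ : Nat.card Q = r * (n ^ 2 + 1) := by rw [hr]; ring
  have hκr : κ * r = n + 1 := by
    have h1 := h.card_mul
    rw [hQ, ← mul_assoc] at h1
    exact Nat.eq_of_mul_eq_mul_right (by positivity) h1
  have hcopl : (Nat.card Q).Coprime l := h.coprime.coprime_dvd_right hln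
  have hcopm : (Nat.card Q).Coprime m := hm.coprime hn h.kpos h.coprime
  obtain ⟨A, hA1, hA2⟩ := exists_subgroup_twist hQ
    (Nat.Coprime.mul_right hcopm (hcopl.pow_right j)) ht
  have hA : κ * Nat.card A = n + 1 := by rw [hA2, hκr]
  obtain ⟨g, S, hX', hSA, hS, -⟩ := normal_form A hA X h.nonneg h.le
    (h.trivial A hA hm₀ hl₀ hln₀ hinv)
  obtain ⟨b, d, hd, hnb⟩ := Nat.exists_eq_pow_mul_and_not_dvd (n := n) (by omega) l hl.ne_one
  have hb : 0 < b := by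
    rcases Nat.eq_zero_or_pos b with h0 | h0
    · exfalso
      apply hd
      rw [h0, pow_zero, one_mul] at hnb
      rw [← hnb]; exact hln
    · exact h0
  obtain ⟨h', hh'⟩ := h.multiplier hm
  refine twist_gen A hA (single g 1 * X) S hX' hSA hS ?_ hl hb ⟨d, hnb⟩ ?_ _ hA1 ?_
  · rw [← h.mul_iv, map_mul, iv_single]
    have : (single g 1 * single g⁻¹ 1 : MonoidAlgebra ℤ Q) = 1 := by
      rw [MonoidAlgebra.single_mul_single, MonoidAlgebra.one_def]; simp
    linear_combination (X * iv X) * this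
  · rintro ⟨e, he⟩
    apply hd
    rw [hnb, pow_succ, mul_assoc] at he
    exact ⟨e, Nat.eq_of_mul_eq_mul_left (pow_pos hl.pos b) he⟩
  · have hlN : (l : ℤ) ^ (2 * b) ∣ (n : ℤ) ^ 2 := by
      refine ⟨(d : ℤ) ^ 2, ?_⟩
      rw [hnb]; push_cast; ring
    have h1 := dvd_twist_gen X h.mul_iv hl hcopl (e := 2 * b) hlN j
    have hu : ∀ x : Q, single x 1 * el (univ : Finset Q) = el univ := by
      intro x; rw [mul_el_univ]; simp
    have h2 : pw (m * l ^ j) (single g 1 * X) * iv (single g 1 * X)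
        - (((κ : ℤ) * ((n : ℤ) + 1) : ℤ) : MonoidAlgebra ℤ Q) * el univ
        = (single (g ^ (m * l ^ j)) 1 * single g⁻¹ 1 * single (h' ^ l ^ j) 1) *
          (pw (l ^ j) X * iv X
        - (((κ : ℤ) * ((n : ℤ) + 1) : ℤ) : MonoidAlgebra ℤ Q) * el univ) := by
      have h3 : pw (m * l ^ j) (single g 1 * X)
          = single (g ^ (m * l ^ j)) 1 * (single (h' ^ l ^ j) 1 * pw (l ^ j) X) := by
        rw [map_mul, pw_single]
        congr 1
        rw [mul_comm m, ← pw_pw, hh', map_mul, pw_single]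
      rw [h3, map_mul, iv_single]
      have h4 : single (g ^ (m * l ^ j)) 1 * single g⁻¹ 1 * single (h' ^ l ^ j) 1
          * el (univ : Finset Q) = el univ := by
        rw [mul_assoc, hu, mul_assoc, hu, hu]
      linear_combination (((κ : ℤ) * ((n : ℤ) + 1) : ℤ) : MonoidAlgebra ℤ Q) * h4
    rw [h2]
    exact Dvd.dvd.mul_left h1 _

omit [Fintype G] [DecidableEq G] [Fintype Q] in
lemma pr_im {H : Type} [CommGroup H] (φ : G →* Q) (ψ : Q →* H) (D : Finset G) :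
    pr ψ (im φ D) = im (ψ.comp φ) D := by
  rw [im, im, map_sum]
  refine Finset.sum_congr rfl fun d _ => ?_
  rw [pr_single]; rfl

/-- Line structure. -/
theorem line_structure {n : ℕ} (D : Finset G) (φ : G →* Q) (hφ : Function.Surjective φ)
    (h : ImageData n (Nat.card φ.ker) (im φ D))
    (A : Subgroup Q) (hA : Nat.card φ.ker * Nat.card A = n + 1)
    {m₀ l₀ j₀ : ℕ} (hm₀ : QMult n (Nat.card φ.ker) Q m₀) (hl₀ : l₀.Prime) (hln : l₀ ∣ n)
    (hinv : ∀ x : Q, x ^ ((m₀ * l₀ ^ j₀ + 1) * (n + 1)) = 1) :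
    ∃ c : G, (∀ g : G, φ (g * c⁻¹) ∈ A → g ∈ D) ∧
      ∀ g : G, φ (g * c⁻¹) ∉ A → ∃! d : G, d ∈ D ∧ φ (d * g⁻¹) ∈ A := by
  classical
  have : Fintype (Q ⧸ A) := Fintype.ofFinite _
  obtain ⟨c, hc1, hc2⟩ := h.trivial A hA hm₀ hl₀ hln hinv
  set ψ : G →* Q ⧸ A := (QuotientGroup.mk' A).comp φ with hψ
  have hψs : Function.Surjective ψ := (QuotientGroup.mk'_surjective A).comp hφ
  rw [pr_im, ← hψ] at hc1
  simp_rw [pr_im, ← hψ] at hc2
  obtain ⟨c₀, rfl⟩ := hψs c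
  have hmk : ∀ x y : G, ψ x = ψ y ↔ φ (x * y⁻¹) ∈ A := by
    intro x y
    have h1 : ψ (x * y⁻¹) = 1 ↔ φ (x * y⁻¹) ∈ A := QuotientGroup.eq_one_iff _
    rw [← h1, map_mul, map_inv, mul_inv_eq_one]
  have hn := h.two_le
  have hker : Nat.card ψ.ker = n + 1 := by
    have h1 := Subgroup.card_mul_index ψ.ker
    have h2 := Subgroup.card_mul_index φ.ker
    have h3 : ψ.ker.index = Nat.card (Q ⧸ A) := by
      rw [Subgroup.index_ker, MonoidHom.range_eq_top.mpr hψs]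
      exact Nat.card_congr (Subgroup.topEquiv).toEquiv
    have h4 : φ.ker.index = Nat.card Q := by
      rw [Subgroup.index_ker, MonoidHom.range_eq_top.mpr hφ]
      exact Nat.card_congr (Subgroup.topEquiv).toEquiv
    have h5 := Subgroup.card_eq_card_quotient_mul_card_subgroup A
    rw [h3] at h1
    rw [h4, h5, mul_left_comm, hA, mul_comm, ← h1] at h2
    exact (Nat.eq_of_mul_eq_mul_right Nat.card_pos h2).symm
  rw [coeff_im] at hc1
  have hsub : D.filter (fun d => ψ d = ψ c₀) = univ.filter (fun d : G => ψ d = ψ c₀) := by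
    apply Finset.eq_of_subset_of_card_le
    · exact Finset.filter_subset_filter _ (subset_univ _)
    · rw [card_fiber ψ hψs, hker]
      have : ((D.filter (fun d => ψ d = ψ c₀)).card : ℤ) = ((n + 1 : ℕ) : ℤ) := by
        rw [hc1]; push_cast; ring
      exact (Nat.cast_injective this).ge
  refine ⟨c₀, ?_, ?_⟩
  · intro g hg
    rw [← hmk] at hg
    have h1 : g ∈ univ.filter (fun d : G => ψ d = ψ c₀) := mem_filter.mpr ⟨mem_univ g, hg⟩
    rw [← hsub] at h1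
    exact (mem_filter.mp h1).1
  · intro g hg
    rw [← hmk] at hg
    have h1 := hc2 (ψ g) hg
    rw [coeff_im] at h1
    have h2 : (D.filter (fun x => ψ x = ψ g)).card = 1 := by exact_mod_cast h1
    rw [Finset.card_eq_one] at h2
    obtain ⟨z, hz⟩ := h2
    have h3 : z ∈ D.filter (fun x => ψ x = ψ g) := by rw [hz]; exact mem_singleton_self z
    rw [mem_filter, hmk] at h3
    refine ⟨z, h3, ?_⟩
    rintro y ⟨hyD, hy⟩
    rw [← hmk] at hy
    have h4 : y ∈ D.filter (fun x => ψ x = ψ g) := mem_filter.mpr ⟨hyD, hy⟩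
    rw [hz, mem_singleton] at h4
    exact h4

end assembly

end Pool.Agent.Lib.MP_79499b_co
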