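import Mathlib

/-!
# Upper Mertens bound for primes in a residue class
-/

namespace Pool.Agent.Lib.MP_79499b_co.MertensUpper29

open ArithmeticFunction vonMangoldt Filter Topology Set Complex

variable {q : ℕ} [NeZero q] {a : ZMod q}

lemma LSeries_upper_bound (ha : IsUnit a) :
    ∃ C : ℝ, ∀ {x : ℝ} (_ : x ∈ Set.Ioc 1 2),
      ∑' n, residueClass a n / (n : ℝ) ^ x ≤ (q.totient : ℝ)⁻¹ / (x - 1) + C := by
  have H {x : ℝ} (hx : 1 < x) :
      ∑' n, residueClass a n / (n : ℝ) ^ x =
        (LFunctionResidueClassAux a x).re + (q.totient : ℝ)⁻¹ / (x - 1) := by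
    refine ofReal_injective ?_
    simp only [ofReal_tsum, ofReal_div, ofReal_cpow (Nat.cast_nonneg _), ofReal_natCast,
      ofReal_add, ofReal_inv, ofReal_sub, ofReal_one]
    simp_rw [← LFunctionResidueClassAux_real ha hx,
      eqOn_LFunctionResidueClassAux ha <| Set.mem_ofPred.mpr (ofReal_re x ▸ hx), sub_add_cancel,
      LSeries, LSeries.term]
    refine tsum_congr fun n ↦ ?_
    split_ifs with hn
    · simp only [hn, residueClass_apply_zero, ofReal_zero, zero_div]
    · rfl
  have : ContinuousOn (fun x : ℝ ↦ (LFunctionResidueClassAux a x).re) (Set.Icc 1 2) :=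
    continuous_re.continuousOn.comp (t := Set.univ) (continuousOn_LFunctionResidueClassAux a)
      (fun ⦃x⦄ a ↦ trivial) |>.comp continuous_ofReal.continuousOn fun x hx ↦ by
        simpa only [Set.mem_ofPred_eq, ofReal_re] using hx.1
  obtain ⟨C, hC⟩ := bddAbove_def.mp <| IsCompact.bddAbove_image isCompact_Icc this
  replace hC {x : ℝ} (hx : x ∈ Set.Icc 1 2) : (LFunctionResidueClassAux a x).re ≤ C :=
    hC (LFunctionResidueClassAux a x).re <|
      Set.mem_image_of_mem (fun x : ℝ ↦ (LFunctionResidueClassAux a x).re) hx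
  refine ⟨C, fun {x} hx ↦ ?_⟩
  rw [H hx.1, add_comm]
  have := hC (Set.mem_Icc_of_Ioc hx)
  linarith

/-- `∑_{p ≤ x, p ≡ a} log p / p ≤ 3 log x / φ(q) + C`. -/
theorem sum_log_div (ha : IsUnit a) : ∃ C : ℝ, ∀ x : ℕ, 3 ≤ x →
    ∑ p ∈ (Finset.range x).filter (fun p : ℕ => p.Prime ∧ (p : ZMod q) = a), Real.log p / p ≤
      3 * (Real.log x / q.totient) + C := by
  obtain ⟨C, hC⟩ := LSeries_upper_bound ha
  refine ⟨3 * |C|, fun x hx => ?_⟩
  have hx1 : (1 : ℝ) < Real.log x := by
    rw [← Real.log_exp 1]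
    apply Real.log_lt_log (Real.exp_pos 1)
    have h1 : Real.exp 1 < 3 := Real.exp_one_lt_three
    have h2 : (3 : ℝ) ≤ x := by exact_mod_cast hx
    linarith
  have hlogpos : 0 < Real.log x := by linarith
  set s : ℝ := 1 + 1 / Real.log x with hs
  have hs1 : s ∈ Set.Ioc (1 : ℝ) 2 := by
    constructor
    · rw [hs]
      have : 0 < 1 / Real.log x := by positivity
      linarith
    · rw [hs]
      have : 1 / Real.log x ≤ 1 := by
        rw [div_le_one hlogpos]; exact hx1.le
      linarith
  have hub := hC hs1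
  have hsm : Summable (fun n => residueClass a n / (n : ℝ) ^ s) :=
    LSeries.summable_real_of_abscissaOfAbsConv_lt <|
      (abscissaOfAbsConv_residueClass_le_one a).trans_lt <| mod_cast hs1.1
  have h1 : ∑ p ∈ (Finset.range x).filter (fun p : ℕ => p.Prime ∧ (p : ZMod q) = a),
      residueClass a p / (p : ℝ) ^ s ≤ ∑' n, residueClass a n / (n : ℝ) ^ s := by
    apply hsm.sum_le_tsum
    intro n _
    exact div_nonneg (residueClass_nonneg a n) (by positivity)
  have h2 : ∀ p ∈ (Finset.range x).filter (fun p : ℕ => p.Prime ∧ (p : ZMod q) = a),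
      Real.log p / p ≤ 3 * (residueClass a p / (p : ℝ) ^ s) := by
    intro p hp
    rw [Finset.mem_filter, Finset.mem_range] at hp
    obtain ⟨hpx, hpp, hpa⟩ := hp
    have hres : residueClass a p = Real.log p := by
      rw [residueClass, Set.indicator_of_mem (by exact hpa), vonMangoldt_apply_prime hpp]
    rw [hres]
    have hp1 : (1 : ℝ) ≤ p := by exact_mod_cast hpp.one_lt.le
    have hp0 : (0 : ℝ) < p := by linarith
    have hlogp : 0 ≤ Real.log p := Real.log_nonneg hp1
    have h3 : (p : ℝ) ^ s = p * (p : ℝ) ^ (1 / Real.log x) := by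
      rw [hs, Real.rpow_one_add' hp0.le (by positivity)]
    have h4 : (p : ℝ) ^ (1 / Real.log x) ≤ 3 := by
      calc (p : ℝ) ^ (1 / Real.log x) ≤ (x : ℝ) ^ (1 / Real.log x) := by
            apply Real.rpow_le_rpow hp0.le (by exact_mod_cast hpx.le) (by positivity)
        _ = Real.exp 1 := by
            rw [Real.rpow_def_of_pos (by positivity)]
            congr 1
            field_simp
        _ ≤ 3 := Real.exp_one_lt_three.le
    rw [h3]
    have h5 : 0 < (p : ℝ) ^ (1 / Real.log x) := by positivity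
    rw [← mul_div_assoc, div_le_div_iff₀ hp0 (by positivity)]
    have h6 : 0 ≤ Real.log p * p := by positivity
    nlinarith
  calc ∑ p ∈ (Finset.range x).filter (fun p : ℕ => p.Prime ∧ (p : ZMod q) = a), Real.log p / p
      ≤ ∑ p ∈ (Finset.range x).filter (fun p : ℕ => p.Prime ∧ (p : ZMod q) = a),
          3 * (residueClass a p / (p : ℝ) ^ s) := Finset.sum_le_sum h2
    _ = 3 * ∑ p ∈ (Finset.range x).filter (fun p : ℕ => p.Prime ∧ (p : ZMod q) = a),
          (residueClass a p / (p : ℝ) ^ s) := by rw [Finset.mul_sum]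
    _ ≤ 3 * ((q.totient : ℝ)⁻¹ / (s - 1) + C) := by
        apply mul_le_mul_of_nonneg_left (h1.trans hub) (by norm_num)
    _ ≤ 3 * (Real.log x / q.totient) + 3 * |C| := by
        have h7 : (q.totient : ℝ)⁻¹ / (s - 1) = Real.log x / q.totient := by
          rw [hs]
          field_simp
          ring
        rw [h7]
        have := le_abs_self C
        linarith

/-- For `0 < η < 1` and every residue class, `∑ 1/p` over the primes `p` of the class with
`p < x` and `η x ≤ p²` is at most `9/φ(q) + ε` for large `x`. -/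
theorem sum_inv (ha : IsUnit a) {η ε : ℝ} (hη : 0 < η) (hε : 0 < ε) :
    ∀ᶠ x : ℕ in atTop, ∑ p ∈ (Finset.range x).filter
      (fun p : ℕ => p.Prime ∧ (p : ZMod q) = a ∧ η * x ≤ (p : ℝ) ^ 2), ((p : ℝ))⁻¹ ≤
      9 / q.totient + ε := by
  obtain ⟨C, hC⟩ := sum_log_div ha
  have hφ : (0 : ℝ) < q.totient := by exact_mod_cast q.totient.pos_of_neZero
  -- for large `x`, `log x ≤ 3 log p`
  have hlim : Tendsto (fun x : ℕ => Real.log x) atTop atTop :=
    Real.tendsto_log_atTop.comp tendsto_natCast_atTop_atTop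
  filter_upwards [eventually_ge_atTop 3, hlim.eventually_ge_atTop (-3 * Real.log η),
    hlim.eventually_ge_atTop (3 * |C| / ε), hlim.eventually_gt_atTop 0] with x hx hx1 hx2 hx3
  have hx0 : (0 : ℝ) < x := by positivity
  have hsub : (Finset.range x).filter
      (fun p : ℕ => p.Prime ∧ (p : ZMod q) = a ∧ η * x ≤ (p : ℝ) ^ 2) ⊆
      (Finset.range x).filter (fun p : ℕ => p.Prime ∧ (p : ZMod q) = a) := by
    intro p hp
    rw [Finset.mem_filter] at hp ⊢
    exact ⟨hp.1, hp.2.1, hp.2.2.1⟩
  have hterm : ∀ p ∈ (Finset.range x).filter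
      (fun p : ℕ => p.Prime ∧ (p : ZMod q) = a ∧ η * x ≤ (p : ℝ) ^ 2),
      ((p : ℝ))⁻¹ ≤ (3 / Real.log x) * (Real.log p / p) := by
    intro p hp
    rw [Finset.mem_filter, Finset.mem_range] at hp
    obtain ⟨hpx, hpp, hpa, hpη⟩ := hp
    have hp0 : (0 : ℝ) < p := by exact_mod_cast hpp.pos
    have h1 : Real.log (η * x) ≤ 2 * Real.log p := by
      have := Real.log_le_log (by positivity) hpη
      rwa [Real.log_pow, Nat.cast_ofNat] at this
    rw [Real.log_mul hη.ne' hx0.ne'] at h1
    have h2 : Real.log x ≤ 3 * Real.log p := by linarith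
    rw [div_mul_div_comm, inv_eq_one_div, div_le_div_iff₀ hp0 (by positivity)]
    nlinarith
  calc ∑ p ∈ (Finset.range x).filter
            (fun p : ℕ => p.Prime ∧ (p : ZMod q) = a ∧ η * x ≤ (p : ℝ) ^ 2), ((p : ℝ))⁻¹
      ≤ ∑ p ∈ (Finset.range x).filter
            (fun p : ℕ => p.Prime ∧ (p : ZMod q) = a ∧ η * x ≤ (p : ℝ) ^ 2),
        (3 / Real.log x) * (Real.log p / p) := Finset.sum_le_sum hterm
    _ ≤ ∑ p ∈ (Finset.range x).filter (fun p : ℕ => p.Prime ∧ (p : ZMod q) = a),
        (3 / Real.log x) * (Real.log p / p) := by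
        apply Finset.sum_le_sum_of_subset_of_nonneg hsub
        intro p hp _
        rw [Finset.mem_filter] at hp
        have : (1 : ℝ) ≤ p := by exact_mod_cast hp.2.1.one_lt.le
        have := Real.log_nonneg this
        positivity
    _ = (3 / Real.log x) * ∑ p ∈ (Finset.range x).filter (fun p : ℕ => p.Prime ∧ (p : ZMod q) = a),
        (Real.log p / p) := by rw [Finset.mul_sum]
    _ ≤ (3 / Real.log x) * (3 * (Real.log x / q.totient) + C) :=
        mul_le_mul_of_nonneg_left (hC x hx) (by positivity)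
    _ ≤ 9 / q.totient + ε := by
        have h1 : (3 / Real.log x) * (3 * (Real.log x / q.totient)) = 9 / q.totient := by
          field_simp
          norm_num
        have h2 : (3 / Real.log x) * C ≤ ε := by
          have h3 : (3 / Real.log x) * C ≤ (3 / Real.log x) * |C| :=
            mul_le_mul_of_nonneg_left (le_abs_self C) (by positivity)
          refine h3.trans ?_
          rw [div_mul_eq_mul_div, div_le_iff₀ hx3]
          rw [div_le_iff₀ hε] at hx2
          linarith
        rw [mul_add, h1]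
        linarith

end Pool.Agent.Lib.MP_79499b_co.MertensUpper29
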