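import Pool.Agent.Lib.MP_79499b_co.Density29
import Pool.Agent.Lib.MP_79499b_co.MertensUpper29

/-!
# A bilinear sieve: integers `n = p r` with a large prime factor `p`
-/

namespace Pool.Agent.Lib.MP_79499b_co.Bilinear29

open Filter Topology Finset Density29

/-- Chinese remainder theorem for pairs. -/
lemma exists_periodic₂ {ι : Type*} (s : Finset ι) (q : ι → ℕ)
    (C : ∀ i, Finset (ZMod (q i) × ZMod (q i)))
    (hq : ∀ i ∈ s, 0 < q i) (hc : ∀ i ∈ s, ∀ j ∈ s, i ≠ j → (q i).Coprime (q j)) :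
    ∃ (T : Finset (ZMod (∏ i ∈ s, q i) × ZMod (∏ i ∈ s, q i))),
      T.card = ∏ i ∈ s, (C i).card ∧
      ∀ x y : ℕ, (∀ i ∈ s, ((x : ZMod (q i)), (y : ZMod (q i))) ∈ C i) →
        ((x : ZMod (∏ i ∈ s, q i)), (y : ZMod (∏ i ∈ s, q i))) ∈ T := by
  classical
  induction s using Finset.induction_on with
  | empty =>
    rw [Finset.prod_empty]
    refine ⟨{(0, 0)}, ?_, fun x y _ => ?_⟩
    · rw [Finset.card_singleton]; simp
    · rw [Finset.mem_singleton]
      exact Subsingleton.elim _ _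
  | insert a s ha ih =>
    obtain ⟨T, hT, hT'⟩ := ih (fun i hi => hq i (Finset.mem_insert_of_mem hi))
      (fun i hi j hj hij => hc i (Finset.mem_insert_of_mem hi) j (Finset.mem_insert_of_mem hj) hij)
    have hqa : 0 < q a := hq a (Finset.mem_insert_self a s)
    have : NeZero (q a) := ⟨hqa.ne'⟩
    have hcop : (q a).Coprime (∏ i ∈ s, q i) := by
      apply Nat.Coprime.prod_right
      intro i hi
      exact hc a (Finset.mem_insert_self a s) i (Finset.mem_insert_of_mem hi)
        (fun h => ha (h ▸ hi))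
    rw [Finset.prod_insert ha]
    let e := ZMod.chineseRemainder hcop
    let f : (ZMod (q a) × ZMod (q a)) × (ZMod (∏ i ∈ s, q i) × ZMod (∏ i ∈ s, q i)) →
        ZMod (q a * ∏ i ∈ s, q i) × ZMod (q a * ∏ i ∈ s, q i) :=
      fun z => (e.symm (z.1.1, z.2.1), e.symm (z.1.2, z.2.2))
    have hf : Function.Injective f := by
      rintro ⟨⟨a1, a2⟩, ⟨b1, b2⟩⟩ ⟨⟨a1', a2'⟩, ⟨b1', b2'⟩⟩ h
      simp only [f, Prod.mk.injEq, EmbeddingLike.apply_eq_iff_eq] at h
      obtain ⟨⟨h1, h2⟩, h3, h4⟩ := h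
      subst h1; subst h2; subst h3; subst h4
      rfl
    refine ⟨(C a ×ˢ T).image f, ?_, ?_⟩
    · rw [Finset.card_image_of_injective _ hf, Finset.card_product, Finset.prod_insert ha, hT]
    · intro x y hxy
      rw [Finset.mem_image]
      refine ⟨(((x : ZMod (q a)), (y : ZMod (q a))),
        ((x : ZMod (∏ i ∈ s, q i)), (y : ZMod (∏ i ∈ s, q i)))), ?_, ?_⟩
      · rw [Finset.mem_product]
        exact ⟨hxy a (Finset.mem_insert_self a s),
          hT' x y (fun i hi => hxy i (Finset.mem_insert_of_mem hi))⟩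
      · have key : ∀ n : ℕ, e.symm ((n : ZMod (q a)), (n : ZMod (∏ i ∈ s, q i))) =
            (n : ZMod (q a * ∏ i ∈ s, q i)) := by
          intro n
          rw [RingEquiv.symm_apply_eq, map_natCast]
          ext <;> simp
        simp only [f, key]

/-- the primes have density zero -/
lemma UD_primes : UD {n : ℕ | n.Prime} 0 := by
  apply UD_zero_of_forall
  intro δ hδ
  obtain ⟨s, hs, hUD⟩ := UD_zero_avoid {p : ℕ | p.Prime} (fun p => p) (fun p => {0})
    (fun i hi => Nat.Prime.pos hi)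
    (fun i hi j hj hij => (Nat.coprime_primes hi hj).mpr hij) (by
      intro K
      have h := not_summable_one_div_on_primes
      have h0 : ∀ n : ℕ, 0 ≤ Set.indicator {p : ℕ | p.Prime} (fun n : ℕ => (1 : ℝ) / n) n := by
        intro n
        apply Set.indicator_nonneg
        intro _ _
        positivity
      rw [not_summable_iff_tendsto_nat_atTop_of_nonneg h0] at h
      obtain ⟨N, hN⟩ := (h.eventually_ge_atTop K).exists
      refine ⟨(Finset.range N).filter Nat.Prime, ?_, ?_⟩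
      · intro p hp
        exact (Finset.mem_filter.mp (Finset.mem_coe.mp hp)).2
      · rw [Finset.sum_filter]
        refine hN.trans (le_of_eq ?_)
        apply Finset.sum_congr rfl
        intro p _
        by_cases hp : p.Prime
        · rw [Set.indicator_of_mem (by exact hp), if_pos hp]; simp
        · rw [Set.indicator_of_notMem (by exact hp), if_neg hp]) δ hδ
  -- primes are in the avoiding set or in the finite set `s`
  have h1 : UD (↑s : Set ℕ) 0 := by
    intro ε hε
    obtain ⟨N, hN⟩ := exists_nat_gt ((s.card : ℝ) / ε)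
    filter_upwards [eventually_ge_atTop N] with x hx
    have h2 : (cnt (↑s : Set ℕ) x : ℝ) ≤ s.card := by
      have : cnt (↑s : Set ℕ) x ≤ s.card := by
        unfold cnt
        rw [← Set.ncard_coe_finset]
        exact Set.ncard_le_ncard Set.inter_subset_left (Finset.finite_toSet _)
      exact_mod_cast this
    have : (N : ℝ) ≤ x := by exact_mod_cast hx
    rw [div_lt_iff₀ hε] at hN
    nlinarith
  have h2 := hUD.union h1
  rw [add_zero] at h2
  refine h2.mono ?_
  intro p hp
  by_cases hps : p ∈ s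
  · exact Or.inr hps
  · left
    intro w hw
    rw [Finset.mem_singleton, ZMod.natCast_eq_zero_iff]
    intro hdvd
    have := (Nat.prime_dvd_prime_iff_eq (hs hw) hp).mp hdvd
    exact hps (this ▸ hw)

lemma totient_prod_primes (s : Finset ℕ) (hs : ∀ w ∈ s, w.Prime) :
    (∏ w ∈ s, w).totient = ∏ w ∈ s, (w - 1) := by
  classical
  induction s using Finset.induction_on with
  | empty => simp
  | insert a s ha ih =>
    rw [Finset.prod_insert ha, Finset.prod_insert ha, Nat.totient_mul,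
      Nat.totient_prime (hs a (Finset.mem_insert_self a s)),
      ih (fun w hw => hs w (Finset.mem_insert_of_mem hw))]
    apply Nat.Coprime.prod_right
    intro i hi
    exact (Nat.coprime_primes (hs a (Finset.mem_insert_self a s))
      (hs i (Finset.mem_insert_of_mem hi))).mpr (fun h => ha (h ▸ hi))

/-- The number of `r ≤ X` in a residue class. -/
lemma card_class (Q : ℕ) [NeZero Q] (v X : ℕ) :
    (((Finset.range (X + 1)).filter (fun r => r ≡ v [MOD Q])).card : ℝ) ≤ X / Q + 2 := by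
  have hQ : 0 < Q := NeZero.pos Q
  have hQ1 : (1 : ℝ) ≤ Q := by exact_mod_cast hQ
  rw [← Nat.count_eq_card_filter_range, Nat.count_modEq_card (X + 1) hQ v]
  have h4 : (((X + 1) / Q : ℕ) : ℝ) ≤ ((X + 1 : ℕ) : ℝ) / Q := Nat.cast_div_le
  have h5 : (((X + 1 : ℕ) : ℝ)) / Q ≤ X / Q + 1 := by
    push_cast
    rw [add_div]
    have : (1 : ℝ) / Q ≤ 1 := by rw [div_le_one (by linarith)]; exact hQ1
    linarith
  push_cast at h4 h5 ⊢
  split_ifs
  · linarith
  · linarith

/-- **Bilinear sieve.** The set of all `n` having a prime divisor `p > √n` such that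
`(p, n/p)` lies in prescribed classes modulo all the primes `w ∈ s` has upper density at most
`9 ∏ |C_w| / (w (w-1))`. -/
theorem UD_pairs (s : Finset ℕ) (hs : ∀ w ∈ s, w.Prime) (C : ∀ w : ℕ, Finset (ZMod w × ZMod w)) :
    UD {n : ℕ | ∃ p, p.Prime ∧ p ∣ n ∧ n < p ^ 2 ∧
      ∀ w ∈ s, ((p : ZMod w), ((n / p : ℕ) : ZMod w)) ∈ C w}
      (9 * ∏ w ∈ s, ((C w).card : ℝ) / ((w : ℝ) * (w - 1))) := by
  classical
  obtain ⟨T, hT, hT'⟩ := exists_periodic₂ s (fun w => w) C (fun w hw => (hs w hw).pos)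
    (fun i hi j hj hij => (Nat.coprime_primes (hs i hi) (hs j hj)).mpr hij)
  have hφ : (((∏ w ∈ s, w).totient : ℕ) : ℝ) = ∏ w ∈ s, ((w : ℝ) - 1) := by
    rw [totient_prod_primes s hs]
    push_cast
    apply Finset.prod_congr rfl
    intro w hw
    rw [Nat.cast_sub (hs w hw).one_lt.le, Nat.cast_one]
  have hQprod : (((∏ w ∈ s, w) : ℕ) : ℝ) = ∏ w ∈ s, (w : ℝ) := by push_cast; rfl
  have hQ : 0 < ∏ w ∈ s, w := Finset.prod_pos (fun w hw => (hs w hw).pos)
  generalize hQdef : (∏ w ∈ s, w) = Q at *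
  have : NeZero Q := ⟨hQ.ne'⟩
  have hQr : (0 : ℝ) < Q := by exact_mod_cast hQ
  have hφpos : (0 : ℝ) < Q.totient := by exact_mod_cast Q.totient.pos_of_neZero
  have hPi : 9 * ∏ w ∈ s, ((C w).card : ℝ) / ((w : ℝ) * (w - 1)) =
      (T.card : ℝ) / Q * (9 / Q.totient) := by
    rw [Finset.prod_div_distrib, Finset.prod_mul_distrib, ← hQprod, ← hφ, hT]
    push_cast
    field_simp
  rw [hPi]
  intro ε hε
  set η : ℝ := ε / 4 with hη
  have hηpos : 0 < η := by positivity
  set K : ℝ := (T.card : ℝ) with hK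
  have hK0 : 0 ≤ K := by positivity
  set ε' : ℝ := ε / 4 / (K / Q + 1) with hε'
  have hε'pos : 0 < ε' := by positivity
  -- the eventual bounds
  have hM : ∀ᶠ x : ℕ in atTop, ∀ b : ZMod Q, IsUnit b →
      ∑ p ∈ (Finset.range x).filter
      (fun p : ℕ => p.Prime ∧ (p : ZMod Q) = b ∧ η * x ≤ (p : ℝ) ^ 2), ((p : ℝ))⁻¹ ≤
      9 / Q.totient + ε' := by
    rw [eventually_all]
    intro b
    by_cases hb : IsUnit b
    · filter_upwards [MertensUpper29.sum_inv hb hηpos hε'pos] with x hx _ using hx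
    · exact Eventually.of_forall (fun x h => absurd h hb)
  have hpr := UD_primes (ε / (8 * (K + 1))) (by positivity)
  obtain ⟨N₁, hN₁⟩ := exists_nat_gt (((Q : ℝ) ^ 2 + 1) / η)
  obtain ⟨N₂, hN₂⟩ := exists_nat_gt (4 / ε)
  filter_upwards [hM, hpr, eventually_ge_atTop N₁, eventually_ge_atTop N₂] with x hMx hprx hx1 hx2
  have hx1' : ((Q : ℝ) ^ 2 + 1) ≤ η * x := by
    have : (N₁ : ℝ) ≤ x := by exact_mod_cast hx1
    rw [div_lt_iff₀ hηpos] at hN₁
    nlinarith
  have hx2' : 1 ≤ ε / 4 * x := by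
    have : (N₂ : ℝ) ≤ x := by exact_mod_cast hx2
    rw [div_lt_iff₀ hε] at hN₂
    nlinarith
  have hx0 : (0 : ℝ) < x := by
    by_contra h
    push Not at h
    nlinarith [sq_nonneg (Q : ℝ)]
  -- the covering
  let Pset : ZMod Q → Finset ℕ := fun b => (Finset.range x).filter
      (fun p : ℕ => p.Prime ∧ (p : ZMod Q) = b ∧ η * x ≤ (p : ℝ) ^ 2)
  let cls : ℕ → ℕ → Finset ℕ := fun p v =>
    ((Finset.range (x / p + 1)).filter (fun r => r ≡ v [MOD Q])).image (fun r => p * r)
  let T' := T.filter (fun t => IsUnit t.1)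
  let U : Finset ℕ := (Finset.range (⌊η * x⌋₊ + 1)) ∪
    T'.biUnion (fun t => (Pset t.1).biUnion (fun p => cls p t.2.val))
  have hcov : ({n : ℕ | ∃ p, p.Prime ∧ p ∣ n ∧ n < p ^ 2 ∧
      ∀ w ∈ s, ((p : ZMod w), ((n / p : ℕ) : ZMod w)) ∈ C w} ∩ Set.Iio x) ⊆ ↑U := by
    rintro n ⟨⟨p, hp, hpn, hnp, hC⟩, hnx⟩
    rw [Set.mem_Iio] at hnx
    rw [Finset.mem_coe, Finset.mem_union]
    by_cases hn : (n : ℝ) < η * x
    · left
      rw [Finset.mem_range, Nat.lt_succ_iff]
      exact Nat.le_floor hn.le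
    · right
      push Not at hn
      have hn0 : 0 < n := by
        rw [Nat.pos_iff_ne_zero]
        rintro rfl
        rw [Nat.cast_zero] at hn
        nlinarith
      have hpx : p < x := lt_of_le_of_lt (Nat.le_of_dvd hn0 hpn) hnx
      have hp2 : η * x ≤ (p : ℝ) ^ 2 := by
        have : (n : ℝ) ≤ (p : ℝ) ^ 2 := by exact_mod_cast hnp.le
        linarith
      have hQp : Q < p := by
        have h1 : (Q : ℝ) ^ 2 < (p : ℝ) ^ 2 := by linarith
        have h2 : (Q : ℝ) < p := lt_of_pow_lt_pow_left₀ 2 (by positivity) h1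
        exact_mod_cast h2
      have hunit : IsUnit (p : ZMod Q) := by
        rw [ZMod.isUnit_iff_coprime]
        rw [Nat.Prime.coprime_iff_not_dvd hp]
        intro h
        exact absurd (Nat.le_of_dvd hQ h) (by omega)
      have hmemT := hT' p (n / p) hC
      rw [Finset.mem_biUnion]
      refine ⟨((p : ZMod Q), ((n / p : ℕ) : ZMod Q)),
        Finset.mem_filter.mpr ⟨hmemT, hunit⟩, ?_⟩
      rw [Finset.mem_biUnion]
      refine ⟨p, ?_, ?_⟩
      · simp only [Pset, Finset.mem_filter, Finset.mem_range]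
        exact ⟨hpx, hp, trivial, hp2⟩
      · simp only [cls, Finset.mem_image, Finset.mem_filter, Finset.mem_range]
        refine ⟨n / p, ⟨?_, ?_⟩, Nat.mul_div_cancel' hpn⟩
        · rw [Nat.lt_succ_iff]
          exact Nat.div_le_div_right hnx.le
        · rw [ZMod.val_natCast]
          exact (Nat.mod_modEq _ Q).symm
  have hcnt : cnt {n : ℕ | ∃ p, p.Prime ∧ p ∣ n ∧ n < p ^ 2 ∧
      ∀ w ∈ s, ((p : ZMod w), ((n / p : ℕ) : ZMod w)) ∈ C w} x ≤ U.card := by
    unfold cnt
    rw [← Set.ncard_coe_finset]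
    exact Set.ncard_le_ncard hcov (Finset.finite_toSet _)
  have hprim : ∀ b, ((Pset b).card : ℝ) ≤ ε / (8 * (K + 1)) * x := by
    intro b
    have h1 : (Pset b).card ≤ cnt {n : ℕ | n.Prime} x := by
      unfold cnt
      rw [← Set.ncard_coe_finset]
      apply Set.ncard_le_ncard _ ((Set.finite_Iio x).inter_of_right _)
      intro p hp
      simp only [Pset, Finset.coe_filter, Finset.mem_range] at hp
      exact ⟨hp.2.1, hp.1⟩
    have h2 : ((Pset b).card : ℝ) ≤ (cnt {n : ℕ | n.Prime} x : ℝ) := by exact_mod_cast h1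
    rw [zero_add] at hprx
    linarith
  have hcls : ∀ p v : ℕ, p.Prime → ((cls p v).card : ℝ) ≤ (x : ℝ) / Q * ((p : ℝ))⁻¹ + 2 := by
    intro p v hp
    have hp0 : (0 : ℝ) < p := by exact_mod_cast hp.pos
    calc ((cls p v).card : ℝ) ≤
        (((Finset.range (x / p + 1)).filter (fun r => r ≡ v [MOD Q])).card : ℝ) := by
          exact_mod_cast Finset.card_image_le
      _ ≤ ((x / p : ℕ) : ℝ) / Q + 2 := card_class Q v (x / p)
      _ ≤ ((x : ℝ) / p) / Q + 2 := by
          gcongr
          exact Nat.cast_div_le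
      _ = (x : ℝ) / Q * ((p : ℝ))⁻¹ + 2 := by
          congr 1
          field_simp
  have hU : (U.card : ℝ) ≤ (η * x + 1) + K * ((x : ℝ) / Q * (9 / Q.totient + ε') +
      2 * (ε / (8 * (K + 1)) * x)) := by
    have h1 : (U.card : ℝ) ≤ ((⌊η * x⌋₊ + 1 : ℕ) : ℝ) +
        ∑ t ∈ T', ∑ p ∈ Pset t.1, ((cls p t.2.val).card : ℝ) := by
      have h2 : U.card ≤ (⌊η * x⌋₊ + 1) + ∑ t ∈ T', ∑ p ∈ Pset t.1, (cls p t.2.val).card := by
        calc U.card ≤ (Finset.range (⌊η * x⌋₊ + 1)).card +
            (T'.biUnion (fun t => (Pset t.1).biUnion (fun p => cls p t.2.val))).card :=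
              Finset.card_union_le _ _
          _ ≤ (⌊η * x⌋₊ + 1) + ∑ t ∈ T', ∑ p ∈ Pset t.1, (cls p t.2.val).card := by
              rw [Finset.card_range]
              apply Nat.add_le_add_left
              refine Finset.card_biUnion_le.trans ?_
              exact Finset.sum_le_sum (fun t _ => Finset.card_biUnion_le)
      exact_mod_cast h2
    refine h1.trans ?_
    apply add_le_add
    · push_cast
      have := Nat.floor_le (show 0 ≤ η * x by positivity)
      linarith
    · have h3 : ∀ t ∈ T', ∑ p ∈ Pset t.1, ((cls p t.2.val).card : ℝ) ≤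
          (x : ℝ) / Q * (9 / Q.totient + ε') + 2 * (ε / (8 * (K + 1)) * x) := by
        intro t ht
        have htu : IsUnit t.1 := (Finset.mem_filter.mp ht).2
        calc ∑ p ∈ Pset t.1, ((cls p t.2.val).card : ℝ)
            ≤ ∑ p ∈ Pset t.1, ((x : ℝ) / Q * ((p : ℝ))⁻¹ + 2) := by
              apply Finset.sum_le_sum
              intro p hp
              exact hcls p _ (Finset.mem_filter.mp hp).2.1
          _ = (x : ℝ) / Q * ∑ p ∈ Pset t.1, ((p : ℝ))⁻¹ + 2 * (Pset t.1).card := by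
              rw [Finset.sum_add_distrib, ← Finset.mul_sum, Finset.sum_const, nsmul_eq_mul]
              ring
          _ ≤ (x : ℝ) / Q * (9 / Q.totient + ε') + 2 * (ε / (8 * (K + 1)) * x) := by
              apply add_le_add
              · exact mul_le_mul_of_nonneg_left (hMx t.1 htu) (by positivity)
              · exact mul_le_mul_of_nonneg_left (hprim t.1) (by norm_num)
      calc ∑ t ∈ T', ∑ p ∈ Pset t.1, ((cls p t.2.val).card : ℝ)
          ≤ ∑ t ∈ T', ((x : ℝ) / Q * (9 / Q.totient + ε') + 2 * (ε / (8 * (K + 1)) * x)) :=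
            Finset.sum_le_sum h3
        _ = (T'.card : ℝ) * ((x : ℝ) / Q * (9 / Q.totient + ε') +
              2 * (ε / (8 * (K + 1)) * x)) := by
            rw [Finset.sum_const, nsmul_eq_mul]
        _ ≤ K * ((x : ℝ) / Q * (9 / Q.totient + ε') + 2 * (ε / (8 * (K + 1)) * x)) := by
            apply mul_le_mul_of_nonneg_right _ (by positivity)
            have h5 : T'.card ≤ T.card := Finset.card_filter_le _ _
            rw [hK]
            exact_mod_cast h5
  have hcnt' : (cnt {n : ℕ | ∃ p, p.Prime ∧ p ∣ n ∧ n < p ^ 2 ∧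
      ∀ w ∈ s, ((p : ZMod w), ((n / p : ℕ) : ZMod w)) ∈ C w} x : ℝ) ≤ U.card := by
    exact_mod_cast hcnt
  refine hcnt'.trans (hU.trans ?_)
  have e1 : K * (2 * (ε / (8 * (K + 1)) * x)) ≤ ε / 4 * x := by
    have : K / (K + 1) ≤ 1 := by rw [div_le_one (by positivity)]; linarith
    calc K * (2 * (ε / (8 * (K + 1)) * x)) = (K / (K + 1)) * (ε / 4 * x) := by
          field_simp
          ring
      _ ≤ 1 * (ε / 4 * x) := mul_le_mul_of_nonneg_right this (by positivity)
      _ = ε / 4 * x := one_mul _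
  have e2 : K * ((x : ℝ) / Q * ε') ≤ ε / 4 * x := by
    have : (K / Q) / (K / Q + 1) ≤ 1 := by
      rw [div_le_one (by positivity)]; linarith
    calc K * ((x : ℝ) / Q * ε') = ((K / Q) / (K / Q + 1)) * (ε / 4 * x) := by
          rw [hε']
          field_simp
      _ ≤ 1 * (ε / 4 * x) := mul_le_mul_of_nonneg_right this (by positivity)
      _ = ε / 4 * x := one_mul _
  have e3 : K * ((x : ℝ) / Q * (9 / Q.totient)) = K / Q * (9 / Q.totient) * x := by
    field_simp
  have e4 : K * ((x : ℝ) / Q * (9 / Q.totient + ε') + 2 * (ε / (8 * (K + 1)) * x)) =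
      K * ((x : ℝ) / Q * (9 / Q.totient)) + K * ((x : ℝ) / Q * ε') +
        K * (2 * (ε / (8 * (K + 1)) * x)) := by ring
  rw [e4, e3]
  have e5 : η * x = ε / 4 * x := by rw [hη]
  rw [e5, add_mul]
  linarith

end Pool.Agent.Lib.MP_79499b_co.Bilinear29
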