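import Pool.Agent.Lib.MP_79499b_co.GroupRing
import Mathlib.FieldTheory.Finite.Basic

/-!
# The multiplier theorem for abelian difference sets (elementary proof)
-/

namespace Pool.Agent.Lib.MP_79499b_co

open Finset MonoidAlgebra

variable {G : Type*} [CommGroup G] [Fintype G]

/-- the difference set equation in the group ring -/
lemma el_mul_iv [DecidableEq G] (D : Finset G) {lam : ℤ}
    (hD : ∀ g : G, g ≠ 1 →
      (((D ×ˢ D).filter (fun x : G × G => x.1 * x.2⁻¹ = g)).card : ℤ) = lam) :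
    el D * iv (el D)
      = (((D.card : ℤ) - lam : ℤ) : MonoidAlgebra ℤ G) + (lam : MonoidAlgebra ℤ G) * el univ := by
  have hcoef : ∀ g, (el D * iv (el D)).coeff g
      = (((D ×ˢ D).filter (fun x : G × G => x.1 * x.2⁻¹ = g)).card : ℤ) := by
    intro g
    rw [coeff_mul_iv]
    simp_rw [coeff_el]
    rw [Finset.card_filter, Nat.cast_sum, Finset.sum_product_right]
    rw [← Finset.sum_filter_add_sum_filter_not univ (fun x => x ∈ D)]
    rw [Finset.sum_eq_zero (s := univ.filter (fun x => x ∉ D)), add_zero]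
    · rw [Finset.filter_mem_eq_inter, Finset.univ_inter]
      refine Finset.sum_congr rfl fun x hx => ?_
      simp only [hx, if_true, mul_one, Nat.cast_ite, Nat.cast_one, Nat.cast_zero]
      by_cases hgx : g * x ∈ D
      · rw [if_pos hgx, Finset.sum_eq_single (g * x)]
        · simp
        · intro b _ hb
          rw [if_neg]
          intro h
          exact hb (by rw [← h]; simp)
        · exact fun h => absurd hgx h
      · rw [if_neg hgx, Finset.sum_eq_zero]
        intro b hb
        rw [if_neg]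
        intro h
        apply hgx
        rw [← h]; simpa using hb
    · intro x hx
      simp only [mem_filter, mem_univ, true_and] at hx
      simp [hx]
  ext g
  rw [hcoef, coeff_add, Finsupp.add_apply, ← zsmul_eq_mul, coeff_smul_apply, coeff_el]
  have h1 : ((((D.card : ℤ) - lam : ℤ) : MonoidAlgebra ℤ G)).coeff g
      = if g = 1 then (D.card : ℤ) - lam else 0 := by
    rw [MonoidAlgebra.intCast_def]
    simp only [coeff_single, Finsupp.single_apply, eq_comm (a := (1 : G))]
    simp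
  rw [h1]
  by_cases hg : g = 1
  · subst hg
    simp only [if_true, mem_univ, smul_eq_mul, mul_one, sub_add_cancel]
    norm_cast
    rw [show ((D ×ˢ D).filter (fun x : G × G => x.1 * x.2⁻¹ = 1)) = D.diag from ?_]
    · exact Finset.diag_card D
    · ext ⟨a, b⟩
      simp only [mem_filter, mem_product, mem_diag]
      constructor
      · rintro ⟨⟨ha, hb⟩, h⟩
        exact ⟨ha, mul_inv_eq_one.mp h⟩
      · rintro ⟨ha, h⟩
        subst h
        exact ⟨⟨ha, ha⟩, by simp⟩
  · simp [hg, hD g hg]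

lemma exists_pow_eq_self {t : ℕ} (ht : (Nat.card G).Coprime t) :
    ∃ f : ℕ, 0 < f ∧ ∀ g : G, g ^ t ^ f = g := by
  refine ⟨Nat.totient (Nat.card G), Nat.totient_pos.mpr Nat.card_pos, fun g => ?_⟩
  have h1 : t ^ Nat.totient (Nat.card G) ≡ 1 [MOD Nat.card G] := Nat.ModEq.pow_totient ht.symm
  have h2 : t ^ Nat.totient (Nat.card G) ≡ 1 [MOD orderOf g] := h1.of_dvd (orderOf_dvd_natCard g)
  calc g ^ t ^ Nat.totient (Nat.card G) = g ^ 1 := (pow_eq_pow_iff_modEq.mpr h2)
    _ = g := pow_one g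

omit [Fintype G] in
/-- telescoping product of Frobenius conjugates of `X^{(t)} X^{(-1)}` -/
lemma prod_twist {t f : ℕ} (hf : 0 < f) (htf : ∀ g : G, g ^ t ^ f = g) (X : MonoidAlgebra ℤ G) :
    ∏ i ∈ range f, pw (t ^ i) (pw t X * iv X) = ∏ i ∈ range f, pw (t ^ i) (X * iv X) := by
  simp_rw [map_mul, Finset.prod_mul_distrib]
  congr 1
  simp_rw [pw_pw, ← pow_succ]
  obtain ⟨f', rfl⟩ : ∃ f', f = f' + 1 := ⟨f - 1, by omega⟩
  rw [Finset.prod_range_succ, Finset.prod_range_succ' (fun i => pw (t ^ i) X)]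
  congr 1
  rw [pw_eq_self htf, pow_zero, pw_eq_self (by simp)]

section diffset

variable (D : Finset G) {N lam : ℤ}

/-- If `D` satisfies `D D^{(-1)} = N + λ G` and `p^e ∣ N`, then
`D^{(p^j)} D^{(-1)} ≡ λ G (mod p^e)`. -/
lemma dvd_twist (hD : el D * iv (el D) = (N : MonoidAlgebra ℤ G) + (lam : MonoidAlgebra ℤ G) * el univ)
    {p : ℕ} (hp : p.Prime) (hG : (Nat.card G).Coprime p) {e : ℕ} (he : (p : ℤ) ^ e ∣ N) (j : ℕ) :
    (((p : ℤ) ^ e : ℤ) : MonoidAlgebra ℤ G) ∣
      pw (p ^ j) (el D) * iv (el D) - (lam : MonoidAlgebra ℤ G) * el univ := by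
  set u : MonoidAlgebra ℤ G := el univ with hu
  set v : ℤ := (Fintype.card G : ℤ) with hv
  set k : ℤ := (D.card : ℤ) with hk
  have huu : u * u = (v : MonoidAlgebra ℤ G) * u := by
    rw [hu, mul_el_univ, aug_el]; simp [hv]
  have hDu : el D * u = (k : MonoidAlgebra ℤ G) * u := by rw [hu, mul_el_univ, aug_el]
  have hiDu : iv (el D) * u = (k : MonoidAlgebra ℤ G) * u := by
    rw [hu, mul_el_univ, aug_iv, aug_el]
  have hkk : k ^ 2 = N + lam * v := by
    have := congrArg aug hD
    rw [map_mul, aug_iv, aug_el, map_add, map_mul, map_intCast, map_intCast, aug_el] at this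
    simp only [hk, hv, card_univ] at this ⊢
    simpa [sq] using this
  have hcopt : (Nat.card G).Coprime (p ^ j) := hG.pow_right j
  obtain ⟨f, hf, htf⟩ := exists_pow_eq_self (G := G) hcopt
  -- the modified element X = v D - k u
  set X : MonoidAlgebra ℤ G := (v : MonoidAlgebra ℤ G) * el D - (k : MonoidAlgebra ℤ G) * u with hX
  have hivX : iv X = (v : MonoidAlgebra ℤ G) * iv (el D) - (k : MonoidAlgebra ℤ G) * u := by
    rw [hX, map_sub, map_mul, map_mul, map_intCast, map_intCast, hu, iv_el_univ]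
  have hpwX : pw (p ^ j) X
      = (v : MonoidAlgebra ℤ G) * pw (p ^ j) (el D) - (k : MonoidAlgebra ℤ G) * u := by
    rw [hX, map_sub, map_mul, map_mul, map_intCast, map_intCast, hu, pw_el_univ hcopt]
  have hpDu : pw (p ^ j) (el D) * u = (k : MonoidAlgebra ℤ G) * u := by
    rw [hu, mul_el_univ, aug_pw, aug_el]
  have hXX : X * iv X = (N : MonoidAlgebra ℤ G) *
      ((v : MonoidAlgebra ℤ G) * ((v : MonoidAlgebra ℤ G) - u)) := by
    have hkk' : (k : MonoidAlgebra ℤ G) ^ 2 = N + lam * v := by exact_mod_cast congrArg _ hkk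
    rw [hivX, hX]
    linear_combination (v : MonoidAlgebra ℤ G) ^ 2 * hD
      - (v : MonoidAlgebra ℤ G) * k * hDu - (v : MonoidAlgebra ℤ G) * k * hiDu
      + (k : MonoidAlgebra ℤ G) ^ 2 * huu - (v : MonoidAlgebra ℤ G) * u * hkk'
  have h1 : (((p : ℤ) ^ (e * f) : ℤ) : MonoidAlgebra ℤ G) ∣
      ∏ i ∈ range f, pw (p ^ (j * i)) (pw (p ^ j) X * iv X) := by
    have h2 := prod_twist hf htf X
    simp_rw [← pow_mul] at h2
    rw [h2, pow_mul, Int.cast_pow, ← Finset.card_range f, ← Finset.prod_const, Finset.card_range]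
    apply Finset.prod_dvd_prod_of_dvd
    intro i _
    rw [hXX, map_mul, map_intCast]
    exact Dvd.dvd.mul_right (map_dvd (Int.castRingHom (MonoidAlgebra ℤ G)) he) _
  have h3 := dvd_of_dvd_prod hp hG hf (fun i => j * i) e _ h1
  -- p^e divides v^2 S
  have h4 : (((p : ℤ) ^ e : ℤ) : MonoidAlgebra ℤ G) ∣ ((v ^ 2 : ℤ) : MonoidAlgebra ℤ G) *
      (pw (p ^ j) (el D) * iv (el D) - (lam : MonoidAlgebra ℤ G) * u) := by
    have hkk' : (k : MonoidAlgebra ℤ G) ^ 2 = N + lam * v := by exact_mod_cast congrArg _ hkk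
    have h5 : ((v ^ 2 : ℤ) : MonoidAlgebra ℤ G) *
      (pw (p ^ j) (el D) * iv (el D) - (lam : MonoidAlgebra ℤ G) * u)
        = pw (p ^ j) X * iv X + (N : MonoidAlgebra ℤ G) * ((v : MonoidAlgebra ℤ G) * u) := by
      rw [hivX, hpwX]
      push_cast
      linear_combination (v : MonoidAlgebra ℤ G) * k * hpDu + (v : MonoidAlgebra ℤ G) * k * hiDu
        - (k : MonoidAlgebra ℤ G) ^ 2 * huu + (v : MonoidAlgebra ℤ G) * u * hkk'
    rw [h5]
    exact dvd_add h3 (Dvd.dvd.mul_right (map_dvd (Int.castRingHom (MonoidAlgebra ℤ G)) he) _)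
  rw [intCast_dvd_iff] at h4 ⊢
  intro g
  have h6 := h4 g
  rw [← zsmul_eq_mul, coeff_smul_apply, smul_eq_mul] at h6
  refine IsCoprime.dvd_of_dvd_mul_left ?_ h6
  apply IsCoprime.pow
  rw [hv, ← Nat.card_eq_fintype_card]
  exact Nat.isCoprime_iff_coprime.mpr hG.symm

/-- The (first) multiplier theorem: if `p` is a prime not dividing `|G|`, `p^e ∣ N` and
`λ < p^e`, then every power of `p` is a multiplier of `D`. -/
theorem multiplier
    (hD : el D * iv (el D) = (N : MonoidAlgebra ℤ G) + (lam : MonoidAlgebra ℤ G) * el univ)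
    (hN : 0 < N) {p : ℕ} (hp : p.Prime) (hG : (Nat.card G).Coprime p) {e : ℕ}
    (he : (p : ℤ) ^ e ∣ N) (hlt : lam < (p : ℤ) ^ e) (j : ℕ) :
    ∃ h : G, pw (p ^ j) (el D) = single h 1 * el D := by
  classical
  obtain ⟨T, hT⟩ := dvd_twist D hD hp hG he j
  obtain ⟨M, hM⟩ := he
  set u : MonoidAlgebra ℤ G := el univ with hu
  set v : ℤ := (Fintype.card G : ℤ) with hv
  set k : ℤ := (D.card : ℤ) with hk
  set P : ℤ := (p : ℤ) ^ e with hP
  have hPpos : 0 < P := pow_pos (by exact_mod_cast hp.pos) e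
  have hMpos : 0 < M := by
    rw [hM] at hN
    exact (mul_pos_iff_of_pos_left hPpos).mp hN
  have hcopt : (Nat.card G).Coprime (p ^ j) := hG.pow_right j
  have huu : u * u = (v : MonoidAlgebra ℤ G) * u := by
    rw [hu, mul_el_univ, aug_el]; simp [hv]
  have hDu : el D * u = (k : MonoidAlgebra ℤ G) * u := by rw [hu, mul_el_univ, aug_el]
  have hiDu : iv (el D) * u = (k : MonoidAlgebra ℤ G) * u := by
    rw [hu, mul_el_univ, aug_iv, aug_el]
  have hpDu : pw (p ^ j) (el D) * u = (k : MonoidAlgebra ℤ G) * u := by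
    rw [hu, mul_el_univ, aug_pw, aug_el]
  have hipDu : iv (pw (p ^ j) (el D)) * u = (k : MonoidAlgebra ℤ G) * u := by
    rw [hu, mul_el_univ, aug_iv, aug_pw, aug_el]
  have hkk : k ^ 2 = N + lam * v := by
    have := congrArg aug hD
    rw [map_mul, aug_iv, aug_el, map_add, map_mul, map_intCast, map_intCast, aug_el] at this
    simp only [hk, hv, card_univ] at this ⊢
    simpa [sq] using this
  have hkk' : (k : MonoidAlgebra ℤ G) ^ 2 = N + lam * v := by exact_mod_cast congrArg _ hkk
  have hDt : pw (p ^ j) (el D) * iv (pw (p ^ j) (el D))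
      = (N : MonoidAlgebra ℤ G) + (lam : MonoidAlgebra ℤ G) * u := by
    rw [← pw_iv, ← map_mul, hD, map_add, map_mul, map_intCast, map_intCast, hu, pw_el_univ hcopt]
  -- S S^{(-1)} = N^2
  set S := pw (p ^ j) (el D) * iv (el D) - (lam : MonoidAlgebra ℤ G) * u with hS
  have hivS : iv S = iv (pw (p ^ j) (el D)) * el D - (lam : MonoidAlgebra ℤ G) * u := by
    rw [hS, map_sub, map_mul, map_mul, iv_iv, map_intCast, hu, iv_el_univ]
  have hSS : S * iv S = (N : MonoidAlgebra ℤ G) ^ 2 := by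
    rw [hivS, hS]
    linear_combination (el D * iv (el D)) * hDt
      + ((N : MonoidAlgebra ℤ G) + (lam : MonoidAlgebra ℤ G) * u) * hD
      - (lam : MonoidAlgebra ℤ G) * iv (el D) * hpDu
      - (lam : MonoidAlgebra ℤ G) * (k : MonoidAlgebra ℤ G) * hiDu
      - (lam : MonoidAlgebra ℤ G) * el D * hipDu
      - (lam : MonoidAlgebra ℤ G) * (k : MonoidAlgebra ℤ G) * hDu
      + 2 * (lam : MonoidAlgebra ℤ G) ^ 2 * huu
      - 2 * (lam : MonoidAlgebra ℤ G) * u * hkk'
  have hSP : S = (P : MonoidAlgebra ℤ G) * T := hT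
  have hTT : T * iv T = ((M ^ 2 : ℤ) : MonoidAlgebra ℤ G) := by
    have h1 : ((P ^ 2 : ℤ) : MonoidAlgebra ℤ G) * (T * iv T)
        = ((P ^ 2 : ℤ) : MonoidAlgebra ℤ G) * ((M ^ 2 : ℤ) : MonoidAlgebra ℤ G) := by
      have h2 : S * iv S = ((P ^ 2 : ℤ) : MonoidAlgebra ℤ G) * (T * iv T) := by
        rw [hSP, map_mul, map_intCast]; push_cast; ring
      rw [← h2, hSS, hM]; push_cast; ring
    exact intCast_mul_cancel (pow_ne_zero 2 hPpos.ne') h1
  have haugT : aug T = M := by
    have h1 : aug S = P * aug T := by rw [hSP, map_mul, map_intCast]; simp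
    have h2 : aug S = N := by
      rw [hS, map_sub, map_mul, map_mul, aug_pw, aug_iv, aug_el, map_intCast, hu, aug_el]
      have : ((univ : Finset G).card : ℤ) = v := by simp [hv]
      rw [this]
      simp only [Int.cast_id]
      linear_combination hkk
    have h3 : P * aug T = P * M := by rw [← h1, h2, hM]
    exact mul_left_cancel₀ hPpos.ne' h3
  have hTnonneg : ∀ g, 0 ≤ T.coeff g := by
    intro g
    have h1 : S.coeff g = P * T.coeff g := by
      rw [hSP, ← zsmul_eq_mul, coeff_smul_apply, smul_eq_mul]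
    have h2 : -lam ≤ S.coeff g := by
      rw [hS, coeff_sub, Finsupp.sub_apply, ← zsmul_eq_mul, coeff_smul_apply, hu, coeff_el]
      have h3 : 0 ≤ (pw (p ^ j) (el D) * iv (el D)).coeff g := by
        rw [coeff_mul_iv]
        apply Finset.sum_nonneg
        intro x _
        apply mul_nonneg
        · have : pw (p ^ j) (el D) = ∑ d ∈ D, single (d ^ p ^ j) 1 := by
            rw [el, map_sum]; simp
          rw [this, coeff_sum, Finsupp.finsetSum_apply]
          apply Finset.sum_nonneg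
          intro d _
          rw [coeff_single, Finsupp.single_apply]
          split_ifs <;> norm_num
        · rw [coeff_el]; split_ifs <;> norm_num
      simp only [mem_univ, if_true, smul_eq_mul, mul_one]
      omega
    by_contra hneg
    push Not at hneg
    have h4 : T.coeff g ≤ -1 := by omega
    have h5 : P * T.coeff g ≤ -P := by nlinarith
    omega
  obtain ⟨h, hh⟩ := trivial_of_nonneg hMpos hTnonneg haugT (by
    rw [hTT, MonoidAlgebra.intCast_def]; simp)
  refine ⟨h, ?_⟩
  have h7 : S = (N : MonoidAlgebra ℤ G) * single h 1 := by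
    rw [hSP, hh, hM]
    have : (single h M : MonoidAlgebra ℤ G) = (M : MonoidAlgebra ℤ G) * single h 1 := by
      rw [← zsmul_eq_mul]; simp
    rw [this]; push_cast; ring
  have h8 : (N : MonoidAlgebra ℤ G) * pw (p ^ j) (el D)
      = (N : MonoidAlgebra ℤ G) * (single h 1 * el D) := by
    have h9 : pw (p ^ j) (el D) * iv (el D)
        = (N : MonoidAlgebra ℤ G) * single h 1 + (lam : MonoidAlgebra ℤ G) * u := by
      rw [← h7, hS]; ring
    linear_combination (el D) * h9 - pw (p ^ j) (el D) * hD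
      - (lam : MonoidAlgebra ℤ G) * hpDu + (lam : MonoidAlgebra ℤ G) * hDu
  exact intCast_mul_cancel hN.ne' h8

end diffset

end Pool.Agent.Lib.MP_79499b_co
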