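import Mathlib
import Pool.Agent.Lib.MP_79499b_co.Multiplier

/-!
# A sign contradiction for abelian difference sets with `|D| - λ` a square
-/

namespace Pool.Agent.Lib.MP_79499b_co.EvenExcl29

open Finset MonoidAlgebra

variable {G : Type*} [CommGroup G] [Fintype G]

/-- a complex character with values in the ring of algebraic integers -/
noncomputable def chr (χ : G →* ℂˣ) : G →* (integralClosure ℤ ℂ) where
  toFun g := ⟨(χ g : ℂ), by
    refine ⟨Polynomial.X ^ (Fintype.card G) - 1, ?_, ?_⟩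
    · exact Polynomial.monic_X_pow_sub_C (1 : ℤ) Fintype.card_ne_zero
    · have h : (χ g : ℂ) ^ (Fintype.card G) = 1 := by
        rw [← Units.val_pow_eq_pow_val, ← map_pow, pow_card_eq_one, map_one, Units.val_one]
      simp [h]⟩
  map_one' := by
    apply Subtype.ext
    simp
  map_mul' x y := by
    apply Subtype.ext
    simp

lemma coe_chr (χ : G →* ℂˣ) (g : G) : ((chr χ g : integralClosure ℤ ℂ) : ℂ) = (χ g : ℂ) := rfl

lemma chr_eq_one {χ : G →* ℂˣ} {g : G} (h : χ g = 1) : chr χ g = 1 := by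
  apply Subtype.ext
  rw [coe_chr, h]
  simp

/-- evaluation of the group ring at a character -/
noncomputable def ev (χ : G →* ℂˣ) : MonoidAlgebra ℤ G →+* (integralClosure ℤ ℂ) :=
  (MonoidAlgebra.lift ℤ (integralClosure ℤ ℂ) G (chr χ)).toRingHom

lemma ev_single (χ : G →* ℂˣ) (g : G) : ev χ (single g (1 : ℤ)) = chr χ g := by
  simp [ev]

lemma ev_pw {χ : G →* ℂˣ} {t : ℕ} (h : ∀ g, χ g ^ (t + 1) = 1) (X : MonoidAlgebra ℤ G) :
    ev χ (pw t X) = ev χ (iv X) := by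
  have : (ev χ).comp (pw t) = (ev χ).comp iv := by
    apply ringHom_ext'
    intro g
    rw [RingHom.comp_apply, RingHom.comp_apply, pw_single, iv_single, ev_single, ev_single]
    have h1 := h g
    rw [pow_succ] at h1
    have h2 : χ (g ^ t) = χ g⁻¹ := by
      rw [map_pow, map_inv]
      exact eq_inv_of_mul_eq_one_left h1
    apply Subtype.ext
    rw [coe_chr, coe_chr, h2]
  exact congrArg (fun f => f X) this

lemma ev_univ {χ : G →* ℂˣ} (hχ : ∃ a, χ a ≠ 1) : ev χ (el univ) = 0 := by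
  classical
  obtain ⟨a, ha⟩ := hχ
  have h1 : ev χ (el univ) = ∑ g : G, chr χ g := by
    rw [el, map_sum]
    exact Finset.sum_congr rfl fun g _ => ev_single χ g
  have h2 : chr χ a * ∑ g : G, chr χ g = ∑ g : G, chr χ g := by
    rw [Finset.mul_sum]
    simp_rw [← map_mul]
    exact Equiv.sum_comp (Equiv.mulLeft a) (fun g => chr χ g)
  have h3 : (chr χ a - 1) * ∑ g : G, chr χ g = 0 := by
    rw [sub_mul, h2, one_mul, sub_self]
  rcases mul_eq_zero.mp h3 with h | h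
  · exfalso
    apply ha
    have h4 : chr χ a = 1 := sub_eq_zero.mp h
    apply Units.ext
    rw [← coe_chr, h4]
    simp
  · rw [h1, h]

section prime

variable {w : ℕ} (hw : w.Prime) (P : Ideal (integralClosure ℤ ℂ)) [hP : P.IsMaximal]
  (hwP : (w : integralClosure ℤ ℂ) ∈ P)

include hw hwP

lemma intCast_mem_iff (c : ℤ) : ((c : ℤ) : integralClosure ℤ ℂ) ∈ P ↔ (w : ℤ) ∣ c := by
  constructor
  · intro h
    by_contra hcon
    have hcop : IsCoprime (w : ℤ) c := by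
      rw [Int.isCoprime_iff_gcd_eq_one]
      have := (Nat.Prime.coprime_iff_not_dvd hw).mpr (fun h' => hcon (Int.natCast_dvd.mpr h'))
      simpa [Int.gcd] using this
    obtain ⟨a, b, hab⟩ := hcop
    apply hP.ne_top
    rw [Ideal.eq_top_iff_one]
    have h1 : (1 : integralClosure ℤ ℂ) = (a : integralClosure ℤ ℂ) * (w : integralClosure ℤ ℂ) +
        (b : integralClosure ℤ ℂ) * (c : integralClosure ℤ ℂ) := by
      have := congrArg (fun z : ℤ => (z : integralClosure ℤ ℂ)) hab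
      simp only [Int.cast_add, Int.cast_mul, Int.cast_one, Int.cast_natCast] at this
      exact this.symm
    rw [h1]
    exact P.add_mem (P.mul_mem_left _ hwP) (P.mul_mem_left _ h)
  · rintro ⟨d, rfl⟩
    push_cast
    exact P.mul_mem_right _ hwP

lemma chr_sub_one_mem {χ : G →* ℂˣ} {g : G} (hχ : χ g ^ w = 1) : chr χ g - 1 ∈ P := by
  have : Fact w.Prime := ⟨hw⟩
  have hpow : (chr χ g) ^ w = 1 := by
    apply Subtype.ext
    have h2 : ((χ g : ℂ)) ^ w = 1 := by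
      rw [← Units.val_pow_eq_pow_val, hχ, Units.val_one]
    simpa [coe_chr] using h2
  have hw0 : (w : (integralClosure ℤ ℂ) ⧸ P) = 0 := by
    have := Ideal.Quotient.eq_zero_iff_mem.mpr hwP
    simpa using this
  have hch : CharP ((integralClosure ℤ ℂ) ⧸ P) w := (CharP.charP_iff_prime_eq_zero hw).mpr hw0
  have h3 : (Ideal.Quotient.mk P (chr χ g - 1)) ^ w = 0 := by
    rw [map_sub, map_one, sub_pow_char, ← map_pow, hpow, map_one, one_pow, sub_self]
  rw [← Ideal.Quotient.eq_zero_iff_mem]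
  exact eq_zero_of_pow_eq_zero h3

/-- a factor of order dividing `w` of the character is invisible modulo `P` -/
lemma ev_sub_mem {χ ψ φ : G →* ℂˣ} (hχ : ∀ g, χ g ^ w = 1) (h : ∀ g, φ g = χ g * ψ g)
    (X : MonoidAlgebra ℤ G) : ev φ X - ev ψ X ∈ P := by
  have : (Ideal.Quotient.mk P).comp (ev φ) = (Ideal.Quotient.mk P).comp (ev ψ) := by
    apply ringHom_ext'
    intro g
    rw [RingHom.comp_apply, RingHom.comp_apply, ev_single, ev_single]
    have h1 : chr φ g = chr χ g * chr ψ g := by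
      apply Subtype.ext
      have := h g
      simp [coe_chr, this]
    have h2 : (Ideal.Quotient.mk P) (chr χ g) = 1 := by
      have := Ideal.Quotient.eq_zero_iff_mem.mpr (chr_sub_one_mem hw P hwP (hχ g))
      rw [map_sub, map_one, sub_eq_zero] at this
      exact this
    rw [h1, map_mul, h2, one_mul]
  rw [← Ideal.Quotient.eq_zero_iff_mem, map_sub, sub_eq_zero]
  exact congrArg (fun f => f X) this

lemma ev_sub_aug_mem {χ : G →* ℂˣ} (hχ : ∀ g, χ g ^ w = 1)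
    (X : MonoidAlgebra ℤ G) : ev χ X - ((aug X : ℤ) : integralClosure ℤ ℂ) ∈ P := by
  have : (Ideal.Quotient.mk P).comp (ev χ) =
      (Ideal.Quotient.mk P).comp ((Int.castRingHom (integralClosure ℤ ℂ)).comp aug) := by
    apply ringHom_ext'
    intro g
    rw [RingHom.comp_apply, RingHom.comp_apply, ev_single, RingHom.comp_apply, aug_single]
    have := Ideal.Quotient.eq_zero_iff_mem.mpr (chr_sub_one_mem hw P hwP (hχ g))
    rw [map_sub, map_one, sub_eq_zero] at this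
    rw [this]
    simp
  rw [← Ideal.Quotient.eq_zero_iff_mem, map_sub, sub_eq_zero]
  exact congrArg (fun f => f X) this

end prime

lemma exists_ideal {w : ℕ} (hw : w.Prime) : ∃ P : Ideal (integralClosure ℤ ℂ), P.IsMaximal ∧
    (w : integralClosure ℤ ℂ) ∈ P := by
  have hne : Ideal.span {(w : integralClosure ℤ ℂ)} ≠ ⊤ := by
    intro h
    rw [Ideal.span_singleton_eq_top] at h
    obtain ⟨u, hu⟩ := h
    -- the inverse of `w` would be an algebraic integer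
    have h1 : IsIntegral ℤ (((u⁻¹ : (integralClosure ℤ ℂ)ˣ) : integralClosure ℤ ℂ) : ℂ) :=
      (((u⁻¹ : (integralClosure ℤ ℂ)ˣ) : integralClosure ℤ ℂ)).2
    have h2 : (((u⁻¹ : (integralClosure ℤ ℂ)ˣ) : integralClosure ℤ ℂ) : ℂ) * (w : ℂ) = 1 := by
      have := u.inv_mul
      rw [hu] at this
      have h3 := congrArg (fun z : integralClosure ℤ ℂ => (z : ℂ)) this
      simpa using h3
    have hw0 : (w : ℂ) ≠ 0 := by exact_mod_cast hw.ne_zero
    have h4 : (((u⁻¹ : (integralClosure ℤ ℂ)ˣ) : integralClosure ℤ ℂ) : ℂ) =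
        algebraMap ℚ ℂ ((w : ℚ)⁻¹) := by
      rw [eq_inv_of_mul_eq_one_left h2]
      simp
    rw [h4] at h1
    have h5 : IsIntegral ℤ ((w : ℚ)⁻¹) :=
      (isIntegral_algebraMap_iff (algebraMap ℚ ℂ).injective).mp h1
    rw [IsIntegrallyClosed.isIntegral_iff] at h5
    obtain ⟨z, hz⟩ := h5
    have hwq : (w : ℚ) ≠ 0 := by exact_mod_cast hw.ne_zero
    have h6 : (z : ℚ) * (w : ℚ) = 1 := by
      have : (z : ℚ) = (w : ℚ)⁻¹ := hz
      rw [this, inv_mul_cancel₀ hwq]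
    have h7 : z * (w : ℤ) = 1 := by exact_mod_cast h6
    have h8 : (w : ℤ) ∣ 1 := ⟨z, by rw [mul_comm]; exact h7.symm⟩
    have h9 : w ∣ 1 := by exact_mod_cast h8
    exact hw.one_lt.ne' (Nat.dvd_one.mp h9)
  obtain ⟨P, hP, hle⟩ := Ideal.exists_le_maximal _ hne
  exact ⟨P, hP, hle (Ideal.mem_span_singleton_self _)⟩

/-- a character of prime order of a finite abelian group -/
lemma exists_chr {w : ℕ} (hw : w.Prime) (hwG : w ∣ Nat.card G) :
    ∃ χ : G →* ℂˣ, (∃ a, χ a ≠ 1) ∧ ∀ g, χ g ^ w = 1 := by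
  have : Fact w.Prime := ⟨hw⟩
  obtain ⟨e⟩ := CommGroup.monoidHom_mulEquiv_of_hasEnoughRootsOfUnity G ℂ
  obtain ⟨g, hg⟩ := exists_prime_orderOf_dvd_card' (G := G) w hwG
  refine ⟨e.symm g, ?_, ?_⟩
  · by_contra hcon
    push Not at hcon
    have h1 : e.symm g = 1 := MonoidHom.ext hcon
    have h2 : g = 1 := by
      have := congrArg e h1
      rwa [MulEquiv.apply_symm_apply, map_one] at this
    rw [h2, orderOf_one] at hg
    exact hw.one_lt.ne hg
  · intro a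
    have h1 : e.symm g ^ w = 1 := by
      rw [← map_pow, ← hg, pow_orderOf_eq_one, map_one]
    exact DFunLike.congr_fun h1 a

/-- The sign contradiction. -/
theorem even_excl [DecidableEq G] (D : Finset G) {N0 lam : ℤ}
    (hD : el D * iv (el D) = ((N0 ^ 2 : ℤ) : MonoidAlgebra ℤ G) +
      (lam : MonoidAlgebra ℤ G) * el univ)
    {t : ℕ} (hmult : ∃ h : G, pw t (el D) = single h 1 * el D)
    {w₁ w₂ : ℕ} (hw₁ : w₁.Prime) (hw₂ : w₂.Prime) (h2₁ : w₁ ≠ 2) (h2₂ : w₂ ≠ 2)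
    (hG₁ : w₁ ∣ Nat.card G) (hG₂ : w₂ ∣ Nat.card G)
    (ht₁ : w₁ ∣ t + 1) (ht₂ : w₂ ∣ t + 1)
    (hk₁ : (w₁ : ℤ) ∣ D.card - N0) (hk₂ : (w₂ : ℤ) ∣ D.card + N0)
    (hN₁ : ¬ (w₁ : ℤ) ∣ N0) (hN₂ : ¬ (w₂ : ℤ) ∣ N0) : False := by
  classical
  have hn₁ : ¬ (w₁ : ℤ) ∣ 2 * N0 := by
    intro h
    rcases (Nat.prime_iff_prime_int.mp hw₁).dvd_or_dvd h with h | h
    · have : w₁ ∣ 2 := by exact_mod_cast h
      exact h2₁ ((Nat.prime_dvd_prime_iff_eq hw₁ Nat.prime_two).mp this)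
    · exact hN₁ h
  have hn₂ : ¬ (w₂ : ℤ) ∣ 2 * N0 := by
    intro h
    rcases (Nat.prime_iff_prime_int.mp hw₂).dvd_or_dvd h with h | h
    · have : w₂ ∣ 2 := by exact_mod_cast h
      exact h2₂ ((Nat.prime_dvd_prime_iff_eq hw₂ Nat.prime_two).mp this)
    · exact hN₂ h
  have hne : w₁ ≠ w₂ := by
    rintro rfl
    apply hn₁
    have := dvd_sub hk₂ hk₁
    have e : (D.card : ℤ) + N0 - (D.card - N0) = 2 * N0 := by ring
    rwa [e] at this
  have hcop : Nat.Coprime w₁ w₂ := (Nat.coprime_primes hw₁ hw₂).mpr hne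
  obtain ⟨χ₁, hχ₁1, hp₁⟩ := exists_chr (G := G) hw₁ hG₁
  obtain ⟨χ₂, hχ₂1, hp₂⟩ := exists_chr (G := G) hw₂ hG₂
  let χ₃ : G →* ℂˣ := χ₁ * χ₂
  have hχ₃ : ∀ g, χ₃ g = χ₁ g * χ₂ g := fun g => rfl
  have hχ₃1 : ∃ a, χ₃ a ≠ 1 := by
    by_contra hcon
    push Not at hcon
    obtain ⟨a, ha⟩ := hχ₁1
    apply ha
    have h1 : χ₁ a * χ₂ a = 1 := by rw [← hχ₃]; exact hcon a
    have h2 : χ₁ a ^ w₂ = 1 := by
      have h3 : (χ₁ a * χ₂ a) ^ w₂ = 1 := by rw [h1, one_pow]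
      rwa [mul_pow, hp₂, mul_one] at h3
    have h3 : orderOf (χ₁ a) ∣ Nat.gcd w₁ w₂ :=
      Nat.dvd_gcd (orderOf_dvd_of_pow_eq_one (hp₁ a)) (orderOf_dvd_of_pow_eq_one h2)
    rw [hcop] at h3
    exact orderOf_eq_one_iff.mp (Nat.dvd_one.mp h3)
  -- the translate
  obtain ⟨h, hh⟩ := hmult
  obtain ⟨r, hr⟩ : ∃ r : ℕ, 2 * r = w₁ * w₂ + 1 := by
    have h1 : Odd (w₁ * w₂) := (hw₁.odd_of_ne_two h2₁).mul (hw₂.odd_of_ne_two h2₂)
    obtain ⟨c, hc⟩ := h1
    exact ⟨c + 1, by omega⟩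
  have hT : w₁ * w₂ ∣ t + 1 := hcop.mul_dvd_of_dvd_of_dvd ht₁ ht₂
  set E : MonoidAlgebra ℤ G := single (h ^ r) 1 * el D with hE
  have haug : aug E = D.card := by
    rw [hE, map_mul, aug_single, aug_el, one_mul]
  have key : ∀ ψ : G →* ℂˣ, (∃ a, ψ a ≠ 1) → (∀ g, ψ g ^ (w₁ * w₂) = 1) →
      ev ψ E = ((N0 : ℤ) : integralClosure ℤ ℂ) ∨ ev ψ E = -((N0 : ℤ) : integralClosure ℤ ℂ) := by
    intro ψ hψ hψT
    have h1 : ∀ g, ψ g ^ (t + 1) = 1 := by
      intro g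
      obtain ⟨c, hc⟩ := hT
      rw [hc, pow_mul, hψT, one_pow]
    have h2 : chr ψ h * ev ψ (el D) = ev ψ (iv (el D)) := by
      have := congrArg (ev ψ) hh
      rw [ev_pw h1, map_mul, ev_single] at this
      exact this.symm
    have h3 : ev ψ (el D) * ev ψ (iv (el D)) = ((N0 : ℤ) : integralClosure ℤ ℂ) ^ 2 := by
      rw [← map_mul, hD, map_add, map_mul, ev_univ hψ, mul_zero, add_zero, map_intCast]
      push_cast
      rfl
    have h4 : (ev ψ E) ^ 2 = ((N0 : ℤ) : integralClosure ℤ ℂ) ^ 2 := by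
      have h5 : chr ψ (h ^ r) ^ 2 = chr ψ h := by
        rw [← map_pow, ← pow_mul, mul_comm r 2, hr, pow_succ, map_mul]
        have h6 : chr ψ (h ^ (w₁ * w₂)) = 1 := by
          apply chr_eq_one
          rw [map_pow, hψT]
        rw [h6, one_mul]
      rw [hE, map_mul, ev_single, mul_pow, h5, pow_two, ← mul_assoc, h2, ← h3]
      ring
    exact sq_eq_sq_iff_eq_or_eq_neg.mp h4
  have hp₁' : ∀ g, χ₁ g ^ (w₁ * w₂) = 1 := fun g => by rw [pow_mul, hp₁, one_pow]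
  have hp₂' : ∀ g, χ₂ g ^ (w₁ * w₂) = 1 := fun g => by rw [pow_mul', hp₂, one_pow]
  have hp₃' : ∀ g, χ₃ g ^ (w₁ * w₂) = 1 := fun g => by rw [hχ₃, mul_pow, hp₁', hp₂', one_mul]
  obtain ⟨P₁, hP₁, hwP₁⟩ := exists_ideal hw₁
  obtain ⟨P₂, hP₂, hwP₂⟩ := exists_ideal hw₂
  have e₁ := ev_sub_aug_mem hw₁ P₁ hwP₁ hp₁ E
  have e₂ := ev_sub_aug_mem hw₂ P₂ hwP₂ hp₂ E
  have e₃ := ev_sub_mem hw₁ P₁ hwP₁ hp₁ hχ₃ E
  have e₄ := ev_sub_mem hw₂ P₂ hwP₂ hp₂ (fun g => (hχ₃ g).trans (mul_comm _ _)) E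
  rw [haug] at e₁ e₂
  have f₁ := intCast_mem_iff hw₁ P₁ hwP₁
  have f₂ := intCast_mem_iff hw₂ P₂ hwP₂
  have g₁ : ev χ₁ E = ((N0 : ℤ) : integralClosure ℤ ℂ) := by
    rcases key χ₁ hχ₁1 hp₁' with h' | h'
    · exact h'
    · exfalso
      rw [h'] at e₁
      have : ((-(N0 : ℤ) - D.card : ℤ) : integralClosure ℤ ℂ) ∈ P₁ := by push_cast; exact e₁
      rw [f₁] at this
      apply hn₁
      have h3 := dvd_add this hk₁
      have e : -N0 - (D.card : ℤ) + (D.card - N0) = -(2 * N0) := by ring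
      rw [e] at h3
      exact (dvd_neg).mp h3
  have g₂ : ev χ₂ E = -((N0 : ℤ) : integralClosure ℤ ℂ) := by
    rcases key χ₂ hχ₂1 hp₂' with h' | h'
    · exfalso
      rw [h'] at e₂
      have : (((N0 : ℤ) - D.card : ℤ) : integralClosure ℤ ℂ) ∈ P₂ := by push_cast; exact e₂
      rw [f₂] at this
      apply hn₂
      have h3 := dvd_add this hk₂
      have e : N0 - (D.card : ℤ) + (D.card + N0) = 2 * N0 := by ring
      rwa [e] at h3
    · exact h'
  rw [g₂] at e₃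
  rw [g₁] at e₄
  rcases key χ₃ hχ₃1 hp₃' with h' | h'
  · rw [h'] at e₃
    have : ((2 * N0 : ℤ) : integralClosure ℤ ℂ) ∈ P₁ := by
      have e : ((2 * N0 : ℤ) : integralClosure ℤ ℂ) =
        ((N0 : ℤ) : integralClosure ℤ ℂ) - -((N0 : ℤ) : integralClosure ℤ ℂ) := by
        push_cast; ring
      rw [e]; exact e₃
    rw [f₁] at this
    exact hn₁ this
  · rw [h'] at e₄
    have : ((-(2 * N0) : ℤ) : integralClosure ℤ ℂ) ∈ P₂ := by
      have e : ((-(2 * N0) : ℤ) : integralClosure ℤ ℂ) =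
        -((N0 : ℤ) : integralClosure ℤ ℂ) - ((N0 : ℤ) : integralClosure ℤ ℂ) := by
        push_cast; ring
      rw [e]; exact e₄
    rw [f₂] at this
    exact hn₂ ((dvd_neg).mp this)

end Pool.Agent.Lib.MP_79499b_co.EvenExcl29
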