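import Pool.Agent.Lib.MP_79499b_co.Q38LSer

/-!
# Transfer between `∑_{p < x} g p / p` and `∑_p g p p^(-1-1/log x)`; Mertens type bounds
-/

namespace Pool.Agent.Lib.MP_79499b_co.Q38

open Finset Filter Topology ArithmeticFunction vonMangoldt

/-- the finite sum -/
noncomputable def fsum (g : ℕ → ℝ) (x : ℕ) : ℝ := ∑ p ∈ (range x).filter Nat.Prime, g p / p

lemma one_lt_log {x : ℕ} (hx : 3 ≤ x) : 1 < Real.log x := by
  rw [← Real.log_exp 1]
  apply Real.log_lt_log (Real.exp_pos 1)
  have h1 : Real.exp 1 < 3 := Real.exp_one_lt_three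
  have h2 : (3 : ℝ) ≤ x := by exact_mod_cast hx
  linarith

/-- `s = 1 + 1 / log x` -/
noncomputable def sx (x : ℕ) : ℝ := 1 + 1 / Real.log x

lemma sx_mem {x : ℕ} (hx : 3 ≤ x) : sx x ∈ Set.Ioc (1 : ℝ) 2 := by
  have h := one_lt_log hx
  constructor
  · rw [sx]
    have : 0 < 1 / Real.log x := by positivity
    linarith
  · rw [sx]
    have : 1 / Real.log x ≤ 1 := by
      rw [div_le_one (by linarith)]; exact h.le
    linarith

/-- the Λ-series near 1 -/
lemma exists_tail : ∃ C : ℝ, 0 ≤ C ∧ ∀ x : ℕ, 3 ≤ x →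
    ∑' n : ℕ, (if n.Prime ∧ x ≤ n then (n : ℝ) ^ (-(sx x)) else 0) ≤ C := by
  obtain ⟨C, hC⟩ := MertensUpper29.LSeries_upper_bound (q := 1) (a := 0) (isUnit_of_subsingleton _)
  refine ⟨1 + |C|, by positivity, fun x hx => ?_⟩
  have hlog := one_lt_log hx
  have hlog0 : 0 < Real.log x := by linarith
  have hs := sx_mem hx
  have h1 := hC hs
  have hsm : Summable (fun n => residueClass (0 : ZMod 1) n / (n : ℝ) ^ (sx x)) :=
    LSeries.summable_real_of_abscissaOfAbsConv_lt <|
      (abscissaOfAbsConv_residueClass_le_one _).trans_lt <| mod_cast hs.1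
  have hres : ∀ n : ℕ, residueClass (0 : ZMod 1) n = vonMangoldt n := by
    intro n
    rw [residueClass, Set.indicator_of_mem]
    exact Subsingleton.elim _ _
  have hterm : ∀ n : ℕ, (if n.Prime ∧ x ≤ n then (n : ℝ) ^ (-(sx x)) else 0) ≤
      (Real.log x)⁻¹ * (residueClass (0 : ZMod 1) n / (n : ℝ) ^ (sx x)) := by
    intro n
    rw [hres]
    split_ifs with h
    · obtain ⟨hp, hxn⟩ := h
      rw [vonMangoldt_apply_prime hp, Real.rpow_neg (Nat.cast_nonneg _), div_eq_mul_inv, ← mul_assoc]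
      have h2 : Real.log x ≤ Real.log n :=
        Real.log_le_log (by positivity) (by exact_mod_cast hxn)
      have h3 : 1 ≤ (Real.log x)⁻¹ * Real.log n := by
        rw [inv_mul_eq_div, le_div_iff₀ hlog0, one_mul]
        exact h2
      exact le_mul_of_one_le_left (by positivity) h3
    · have h4 : 0 ≤ vonMangoldt n := vonMangoldt_nonneg
      positivity
  have hsum0 : Summable fun n : ℕ => (if n.Prime ∧ x ≤ n then (n : ℝ) ^ (-(sx x)) else 0) := by
    refine Summable.of_nonneg_of_le (fun n => ?_) hterm (hsm.mul_left _)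
    split_ifs <;> positivity
  refine (hsum0.tsum_le_tsum hterm (hsm.mul_left _)).trans ?_
  rw [tsum_mul_left]
  have h5 : (((1 : ℕ).totient : ℝ))⁻¹ / (sx x - 1) = Real.log x := by
    rw [sx]
    simp
  rw [h5] at h1
  calc (Real.log x)⁻¹ * ∑' n, residueClass (0 : ZMod 1) n / (n : ℝ) ^ (sx x)
      ≤ (Real.log x)⁻¹ * (Real.log x + C) := mul_le_mul_of_nonneg_left h1 (by positivity)
    _ ≤ (Real.log x)⁻¹ * (Real.log x + |C|) := by
        apply mul_le_mul_of_nonneg_left _ (by positivity)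
        have := le_abs_self C
        linarith
    _ = 1 + (Real.log x)⁻¹ * |C| := by field_simp
    _ ≤ 1 + |C| := by
        have h6 : (Real.log x)⁻¹ ≤ 1 := inv_le_one_of_one_le₀ hlog.le
        have h7 := abs_nonneg C
        nlinarith

/-- comparison of the finite and the infinite sum -/
lemma exists_transfer : ∃ C : ℝ, 0 ≤ C ∧ ∀ g : ℕ → ℝ, (∀ n, |g n| ≤ 1) → ∀ x : ℕ, 3 ≤ x →
    |fsum g x - psum g (sx x)| ≤ C := by
  classical
  obtain ⟨C, hC0, hC⟩ := exists_tail
  refine ⟨C + 3, by positivity, fun g hg x hx => ?_⟩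
  have hlog := one_lt_log hx
  have hlog0 : 0 < Real.log x := by linarith
  have hs := sx_mem hx
  have hsum := summable_psum hg hs.1
  have h1 : psum g (sx x) = (∑ n ∈ range x, if n.Prime then g n * (n : ℝ) ^ (-(sx x)) else 0) +
      ∑' n : ℕ, (if n.Prime ∧ x ≤ n then g n * (n : ℝ) ^ (-(sx x)) else 0) := by
    have h2 : ∀ n : ℕ, (if n.Prime then g n * (n : ℝ) ^ (-(sx x)) else 0) =
        (if n ∈ range x then (if n.Prime then g n * (n : ℝ) ^ (-(sx x)) else 0) else 0) +
        (if n.Prime ∧ x ≤ n then g n * (n : ℝ) ^ (-(sx x)) else 0) := by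
      intro n
      by_cases hn : x ≤ n
      · have h3 : n ∉ range x := by simpa using hn
        by_cases hp : n.Prime <;> simp [h3, hp, hn]
      · have h3 : n ∈ range x := by simpa using hn
        by_cases hp : n.Prime <;> simp [h3, hp, hn]
    have hA : Summable fun n : ℕ =>
        (if n ∈ range x then (if n.Prime then g n * (n : ℝ) ^ (-(sx x)) else 0) else 0) :=
      summable_of_ne_finset_zero (s := range x) (fun n hn => if_neg hn)
    have hB : Summable fun n : ℕ =>
        (if n.Prime ∧ x ≤ n then g n * (n : ℝ) ^ (-(sx x)) else 0) := by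
      have := hsum.sub hA
      refine this.congr (fun n => ?_)
      rw [sub_eq_iff_eq_add, add_comm]
      exact h2 n
    rw [psum, tsum_congr h2, hA.tsum_add hB]
    congr 1
    rw [tsum_eq_sum (s := range x) (fun n hn => if_neg hn)]
    exact Finset.sum_congr rfl fun n hn => if_pos hn
  have h3 : |∑' n : ℕ, (if n.Prime ∧ x ≤ n then g n * (n : ℝ) ^ (-(sx x)) else 0)| ≤ C := by
    refine le_trans ?_ (hC x hx)
    have hsT : Summable fun n : ℕ => (if n.Prime ∧ x ≤ n then (n : ℝ) ^ (-(sx x)) else 0) := by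
      refine Summable.of_nonneg_of_le (fun n => ?_) (fun n => ?_) (summable_rpow_neg hs.1)
      · split_ifs <;> positivity
      · split_ifs
        · exact le_rfl
        · positivity
    rw [← Real.norm_eq_abs]
    refine tsum_of_norm_bounded hsT.hasSum (fun n => ?_)
    split_ifs
    · rw [norm_mul, Real.norm_eq_abs, Real.norm_of_nonneg (by positivity)]
      exact mul_le_of_le_one_left (by positivity) (hg n)
    · simp
  have h4 : |fsum g x - ∑ n ∈ range x, (if n.Prime then g n * (n : ℝ) ^ (-(sx x)) else 0)| ≤ 3 := by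
    rw [fsum, ← Finset.sum_filter, ← Finset.sum_sub_distrib]
    refine (Finset.abs_sum_le_sum_abs _ _).trans ?_
    have h5 : ∀ p ∈ (range x).filter Nat.Prime,
        |g p / p - g p * (p : ℝ) ^ (-(sx x))| ≤ (Real.log x)⁻¹ * (Real.log p / p) := by
      intro p hp
      rw [Finset.mem_filter, Finset.mem_range] at hp
      have hp1 : (1 : ℝ) ≤ p := by exact_mod_cast hp.2.one_lt.le
      have hp0 : (0 : ℝ) < p := by linarith
      have h6 : (p : ℝ) ^ (-(sx x)) = (p : ℝ)⁻¹ * (p : ℝ) ^ (-(Real.log x)⁻¹) := by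
        rw [sx, ← Real.rpow_neg_one, ← Real.rpow_add hp0]
        congr 1
        rw [one_div]; ring
      rw [h6, div_eq_mul_inv, ← mul_sub, abs_mul]
      have h7 : 1 - (Real.log x)⁻¹ * Real.log p ≤ (p : ℝ) ^ (-(Real.log x)⁻¹) := by
        rw [Real.rpow_def_of_pos hp0]
        have := Real.add_one_le_exp (Real.log p * -(Real.log x)⁻¹)
        linarith
      have h8 : (p : ℝ) ^ (-(Real.log x)⁻¹) ≤ 1 :=
        Real.rpow_le_one_of_one_le_of_nonpos hp1 (by
          rw [neg_nonpos]; positivity)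
      have h9 : |(p : ℝ)⁻¹ - (p : ℝ)⁻¹ * (p : ℝ) ^ (-(Real.log x)⁻¹)| ≤
          (Real.log x)⁻¹ * (Real.log p / p) := by
        have h10 : (p : ℝ)⁻¹ - (p : ℝ)⁻¹ * (p : ℝ) ^ (-(Real.log x)⁻¹) =
            (p : ℝ)⁻¹ * (1 - (p : ℝ) ^ (-(Real.log x)⁻¹)) := by ring
        rw [h10, abs_of_nonneg (mul_nonneg (by positivity) (by linarith))]
        calc (p : ℝ)⁻¹ * (1 - (p : ℝ) ^ (-(Real.log x)⁻¹)) ≤
            (p : ℝ)⁻¹ * ((Real.log x)⁻¹ * Real.log p) :=
              mul_le_mul_of_nonneg_left (by linarith) (by positivity)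
          _ = (Real.log x)⁻¹ * (Real.log p / p) := by ring
      calc |g p| * |(p : ℝ)⁻¹ - (p : ℝ)⁻¹ * (p : ℝ) ^ (-(Real.log x)⁻¹)| ≤
          1 * ((Real.log x)⁻¹ * (Real.log p / p)) :=
            mul_le_mul (hg p) h9 (abs_nonneg _) zero_le_one
        _ = _ := one_mul _
    refine (Finset.sum_le_sum h5).trans ?_
    rw [← Finset.mul_sum]
    have h11 : ∑ p ∈ (range x).filter Nat.Prime, Real.log p / p ≤ Real.log x + Real.log 4 := by
      refine le_trans ?_ (Sieve.sum_log_div_le x (by omega))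
      apply Finset.sum_le_sum_of_subset_of_nonneg
      · intro p hp
        rw [Finset.mem_filter, Finset.mem_range] at hp
        rw [Finset.mem_filter, Finset.mem_Icc]
        exact ⟨⟨hp.2.one_lt.le, hp.1.le⟩, hp.2⟩
      · intro p hp _
        rw [Finset.mem_filter, Finset.mem_Icc] at hp
        have : 0 ≤ Real.log p := Real.log_nonneg (by exact_mod_cast hp.1.1)
        positivity
    calc (Real.log x)⁻¹ * ∑ p ∈ (range x).filter Nat.Prime, Real.log p / p ≤
        (Real.log x)⁻¹ * (Real.log x + Real.log 4) :=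
          mul_le_mul_of_nonneg_left h11 (by positivity)
      _ = 1 + (Real.log x)⁻¹ * Real.log 4 := by field_simp
      _ ≤ 3 := by
          have h12 : (Real.log x)⁻¹ ≤ 1 := inv_le_one_of_one_le₀ hlog.le
          have h13 : Real.log 4 ≤ 2 := by
            have : Real.log 4 = 2 * Real.log 2 := by
              rw [show (4 : ℝ) = 2 ^ 2 by norm_num, Real.log_pow]; norm_num
            have := Real.log_two_lt_d9
            linarith
          have h14 : 0 ≤ Real.log 4 := Real.log_nonneg (by norm_num)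
          nlinarith
  rw [h1]
  have h15 : fsum g x - ((∑ n ∈ range x, if n.Prime then g n * (n : ℝ) ^ (-(sx x)) else 0) +
      ∑' n : ℕ, (if n.Prime ∧ x ≤ n then g n * (n : ℝ) ^ (-(sx x)) else 0)) =
      (fsum g x - ∑ n ∈ range x, (if n.Prime then g n * (n : ℝ) ^ (-(sx x)) else 0)) -
      ∑' n : ℕ, (if n.Prime ∧ x ≤ n then g n * (n : ℝ) ^ (-(sx x)) else 0) := by ring
  rw [h15]
  calc _ ≤ |fsum g x - ∑ n ∈ range x, (if n.Prime then g n * (n : ℝ) ^ (-(sx x)) else 0)| +
      |∑' n : ℕ, (if n.Prime ∧ x ≤ n then g n * (n : ℝ) ^ (-(sx x)) else 0)| := abs_sub _ _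
    _ ≤ 3 + C := add_le_add h4 h3
    _ = C + 3 := by ring

/-- `psum 1 (sx x) = log log x + O(1)` -/
lemma exists_psum_one : ∃ C : ℝ, 0 ≤ C ∧ ∃ x₀ : ℕ, ∀ x : ℕ, x₀ ≤ x →
    |psum (fun _ => 1) (sx x) - Real.log (Real.log x)| ≤ C := by
  -- the trivial homomorphism
  let f : ℕ →*₀ ℂ :=
    { toFun := fun n => if n = 0 then 0 else 1
      map_zero' := by simp
      map_one' := by simp
      map_mul' := by
        intro m n
        by_cases hm : m = 0 <;> by_cases hn : n = 0 <;> simp [hm, hn] }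
  have hf : ∀ n, ‖f n‖ ≤ 1 := by
    intro n
    change ‖(if n = 0 then (0 : ℂ) else 1)‖ ≤ 1
    split_ifs <;> simp
  have hlim := tendsto_sub_mul_tsum_nat_rpow
  have hev : ∀ᶠ s : ℝ in 𝓝[>] 1, (s - 1) * ∑' (n : ℕ), 1 / (n : ℝ) ^ s ≤ 2 ∧
      1 / 2 ≤ (s - 1) * ∑' (n : ℕ), 1 / (n : ℝ) ^ s :=
    (hlim.eventually (Iic_mem_nhds (by norm_num))).and
      (hlim.eventually (Ici_mem_nhds (by norm_num)))
  have hsx : Tendsto (fun x : ℕ => sx x) atTop (𝓝[>] 1) := by
    rw [tendsto_nhdsWithin_iff]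
    constructor
    · have h1 : Tendsto (fun x : ℕ => 1 / Real.log x) atTop (𝓝 0) := by
        have := (Real.tendsto_log_atTop.comp (tendsto_natCast_atTop_atTop (R := ℝ))).inv_tendsto_atTop
        refine this.congr (fun x => ?_)
        simp
      have h2 := h1.const_add 1
      rw [add_zero] at h2
      exact h2
    · filter_upwards [eventually_ge_atTop 3] with x hx using (sx_mem hx).1
  have hev2 := hsx.eventually hev
  obtain ⟨x₀, hx₀⟩ := eventually_atTop.mp hev2
  refine ⟨c2 + Real.log 2, ?_, max x₀ 3, fun x hx => ?_⟩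
  · have : 0 ≤ c2 := tsum_nonneg fun n => by positivity
    have := Real.log_nonneg (show (1 : ℝ) ≤ 2 by norm_num)
    linarith
  have hx3 : 3 ≤ x := le_trans (le_max_right _ _) hx
  obtain ⟨hu, hl⟩ := hx₀ x (le_trans (le_max_left _ _) hx)
  have hlog := one_lt_log hx3
  have hlog0 : 0 < Real.log x := by linarith
  have hs := sx_mem hx3
  have h1 := psum_re_sub_log hf hs.1
  have h2 : ∑' n, tw f (sx x) n = ((∑' (n : ℕ), 1 / (n : ℝ) ^ (sx x) : ℝ) : ℂ) := by
    rw [Complex.ofReal_tsum]
    refine tsum_congr fun n => ?_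
    rw [tw_apply]
    change (if n = 0 then (0 : ℂ) else 1) * _ = _
    split_ifs with h
    · subst h
      simp [Real.zero_rpow (by linarith [hs.1] : sx x ≠ 0)]
    · rw [one_mul, Real.rpow_neg (Nat.cast_nonneg _), one_div]
  set Z : ℝ := ∑' (n : ℕ), 1 / (n : ℝ) ^ (sx x) with hZ
  have hs1 : sx x - 1 = 1 / Real.log x := by rw [sx]; ring
  rw [hs1] at hu hl
  have hZl : Real.log x / 2 ≤ Z := by
    have : 1 / 2 * Real.log x ≤ (1 / Real.log x * Z) * Real.log x :=
      mul_le_mul_of_nonneg_right hl hlog0.le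
    have h3 : (1 / Real.log x * Z) * Real.log x = Z := by field_simp
    linarith
  have hZu : Z ≤ 2 * Real.log x := by
    have : (1 / Real.log x * Z) * Real.log x ≤ 2 * Real.log x :=
      mul_le_mul_of_nonneg_right hu hlog0.le
    have h3 : (1 / Real.log x * Z) * Real.log x = Z := by field_simp
    linarith
  have hZ0 : 0 < Z := by linarith
  rw [h2, Complex.norm_real, Real.norm_of_nonneg hZ0.le] at h1
  have h4 : psum (fun n => (f n).re) (sx x) = psum (fun _ => 1) (sx x) := by
    unfold psum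
    refine tsum_congr fun n => ?_
    split_ifs with hp
    · congr 1
      change (if n = 0 then (0 : ℂ) else 1).re = 1
      rw [if_neg hp.ne_zero]; simp
    · rfl
  rw [h4] at h1
  have h5 : |Real.log Z - Real.log (Real.log x)| ≤ Real.log 2 := by
    have h6 : Real.log Z ≤ Real.log 2 + Real.log (Real.log x) := by
      rw [← Real.log_mul (by norm_num) hlog0.ne']
      exact Real.log_le_log hZ0 hZu
    have h7 : Real.log (Real.log x) - Real.log 2 ≤ Real.log Z := by
      rw [← Real.log_div hlog0.ne' (by norm_num)]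
      exact Real.log_le_log (by positivity) hZl
    rw [abs_le]
    constructor <;> linarith
  have h8 : psum (fun _ => 1) (sx x) - Real.log (Real.log x) =
      (psum (fun _ => 1) (sx x) - Real.log Z) + (Real.log Z - Real.log (Real.log x)) := by ring
  rw [h8]
  exact (abs_add_le _ _).trans (add_le_add h1 h5)

/-- Mertens' second theorem with an unspecified constant -/
theorem mertens_two : ∃ C : ℝ, 0 ≤ C ∧ ∀ x : ℕ, 3 ≤ x →
    |fsum (fun _ => 1) x - Real.log (Real.log x)| ≤ C := by
  obtain ⟨C1, hC10, hC1⟩ := exists_transfer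
  obtain ⟨C2, hC20, x₀, hC2⟩ := exists_psum_one
  -- finitely many small `x`
  set B : ℝ := ∑ x ∈ range x₀, |fsum (fun _ => 1) x - Real.log (Real.log x)| with hB
  have hB0 : 0 ≤ B := Finset.sum_nonneg fun _ _ => abs_nonneg _
  refine ⟨C1 + C2 + B, by positivity, fun x hx => ?_⟩
  by_cases h : x < x₀
  · have h1 : |fsum (fun _ => 1) x - Real.log (Real.log x)| ≤ B :=
      Finset.single_le_sum (f := fun x : ℕ => |fsum (fun _ => 1) x - Real.log (Real.log x)|)
        (fun _ _ => abs_nonneg _) (Finset.mem_range.mpr h)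
    linarith
  · push Not at h
    have h1 := hC1 (fun _ => 1) (by simp) x hx
    have h2 := hC2 x h
    have h3 : fsum (fun _ => 1) x - Real.log (Real.log x) =
      (fsum (fun _ => 1) x - psum (fun _ => 1) (sx x)) +
        (psum (fun _ => 1) (sx x) - Real.log (Real.log x)) := by ring
    rw [h3]
    refine (abs_add_le _ _).trans ?_
    linarith

end Pool.Agent.Lib.MP_79499b_co.Q38
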