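import Pool.Agent.Lib.MP_79499b_co.Q38Char

/-!
# Brun's pure sieve with general moduli
-/

namespace Pool.Agent.Lib.MP_79499b_co.Q38

open Finset
open scoped Classical

/-- the truncated inclusion–exclusion inequality -/
lemma bonferroni {r : ℕ} (hr : Even r) (s : Finset ℕ) (Q : ℕ → Prop) :
    (if ∀ u ∈ s, ¬ Q u then (1 : ℝ) else 0) ≤
      ∑ S ∈ s.powerset.filter (fun S => S.card ≤ r), (-1 : ℝ) ^ S.card *
        (if ∀ u ∈ S, Q u then 1 else 0) := by
  set t := s.filter Q with ht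
  have h1 : ∑ S ∈ s.powerset.filter (fun S => S.card ≤ r), (-1 : ℝ) ^ S.card *
        (if ∀ u ∈ S, Q u then 1 else 0) =
      ∑ S ∈ t.powerset.filter (fun S => S.card ≤ r), (-1 : ℝ) ^ S.card := by
    simp only [mul_ite, mul_one, mul_zero]
    rw [← Finset.sum_filter, Finset.filter_filter]
    apply Finset.sum_congr _ fun _ _ => rfl
    ext S
    simp only [Finset.mem_filter, Finset.mem_powerset]
    constructor
    · rintro ⟨h2, h3, h4⟩
      refine ⟨fun u hu => ?_, h3⟩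
      rw [ht, Finset.mem_filter]
      exact ⟨h2 hu, h4 u hu⟩
    · rintro ⟨h2, h3⟩
      refine ⟨fun u hu => (Finset.mem_filter.mp (h2 hu)).1, h3, fun u hu =>
        (Finset.mem_filter.mp (h2 hu)).2⟩
  have h2 : ∑ S ∈ t.powerset.filter (fun S => S.card ≤ r), (-1 : ℝ) ^ S.card =
      ∑ i ∈ range (r + 1), (-1 : ℝ) ^ i * (t.card.choose i : ℝ) := by
    rw [← Finset.sum_fiberwise_of_maps_to (s := t.powerset.filter (fun S => S.card ≤ r))
      (t := range (r + 1)) (g := fun S => S.card) (fun S hS => by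
        rw [Finset.mem_filter] at hS
        exact Finset.mem_range.mpr (Nat.lt_succ_of_le hS.2))]
    refine Finset.sum_congr rfl fun i hi => ?_
    have hi' : i ≤ r := Nat.lt_succ_iff.mp (Finset.mem_range.mp hi)
    have h3 : (t.powerset.filter (fun S => S.card ≤ r)).filter (fun S => S.card = i) =
        Finset.powersetCard i t := by
      ext S
      simp only [Finset.mem_filter, Finset.mem_powerset, Finset.mem_powersetCard]
      constructor
      · rintro ⟨⟨a, b⟩, c⟩; exact ⟨a, c⟩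
      · rintro ⟨a, c⟩; exact ⟨⟨a, by omega⟩, c⟩
    rw [h3, Finset.sum_congr rfl (fun S hS => by rw [(Finset.mem_powersetCard.mp hS).2]),
      Finset.sum_const, Finset.card_powersetCard, nsmul_eq_mul]
    ring
  rw [h1, h2]
  rcases Nat.eq_zero_or_pos t.card with h | h
  · rw [h]
    have h3 : ∑ i ∈ range (r + 1), (-1 : ℝ) ^ i * ((0 : ℕ).choose i : ℝ) = 1 := by
      rw [Finset.sum_eq_single 0]
      · simp
      · intro i _ hi
        rw [Nat.choose_eq_zero_of_lt (Nat.pos_of_ne_zero hi)]; simp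
      · intro h; simp at h
    rw [h3]
    split_ifs <;> norm_num
  · have hne : ¬ ∀ u ∈ s, ¬ Q u := by
      intro h3
      obtain ⟨u, hu⟩ := Finset.card_pos.mp h
      rw [ht, Finset.mem_filter] at hu
      exact h3 u hu.1 hu.2
    rw [if_neg hne]
    obtain ⟨n, hn⟩ : ∃ n, t.card = n + 1 := ⟨t.card - 1, by omega⟩
    have h4 := Int.alternating_sum_range_choose_eq_choose (n := n) (m := r)
    rw [hn]
    have h5 : ∑ i ∈ range (r + 1), (-1 : ℝ) ^ i * ((n + 1).choose i : ℝ) =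
        (((∑ i ∈ range (r + 1), ((-1) ^ i * ((n + 1).choose i : ℤ) : ℤ) : ℤ)) : ℝ) := by
      push_cast; rfl
    rw [h5, h4, hr.neg_one_pow]
    push_cast
    positivity

/-- sum of a product of periodic functions with coprime periods -/
lemma sum_mul_coprime {Q q : ℕ} (hQ : 0 < Q) (hq : 0 < q) (h : Q.Coprime q) (a b : ℕ → ℝ)
    (ha : ∀ n, a (n % Q) = a n) (hb : ∀ n, b (n % q) = b n) :
    ∑ n ∈ range (Q * q), a n * b n = (∑ n ∈ range Q, a n) * ∑ n ∈ range q, b n := by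
  rw [Finset.sum_mul_sum, ← Finset.sum_product']
  symm
  refine Finset.sum_nbij' (fun p => (Nat.chineseRemainder h p.1 p.2 : ℕ))
    (fun n => (n % Q, n % q)) ?_ ?_ ?_ ?_ ?_
  · rintro ⟨i, j⟩ _
    exact Finset.mem_range.mpr (Nat.chineseRemainder_lt_mul h i j hQ.ne' hq.ne')
  · intro n _
    rw [Finset.mem_product]
    exact ⟨Finset.mem_range.mpr (Nat.mod_lt _ hQ), Finset.mem_range.mpr (Nat.mod_lt _ hq)⟩
  · rintro ⟨i, j⟩ hij
    rw [Finset.mem_product, Finset.mem_range, Finset.mem_range] at hij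
    obtain ⟨h1, h2⟩ := (Nat.chineseRemainder h i j).2
    ext
    · change ((Nat.chineseRemainder h i j : ℕ)) % Q = i
      rw [show ((Nat.chineseRemainder h i j : ℕ)) % Q = i % Q from h1, Nat.mod_eq_of_lt hij.1]
    · change ((Nat.chineseRemainder h i j : ℕ)) % q = j
      rw [show ((Nat.chineseRemainder h i j : ℕ)) % q = j % q from h2, Nat.mod_eq_of_lt hij.2]
  · intro n hn
    rw [Finset.mem_range] at hn
    obtain ⟨h1, h2⟩ := (Nat.chineseRemainder h (n % Q) (n % q)).2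
    have h3 : ((Nat.chineseRemainder h (n % Q) (n % q) : ℕ)) ≡ n [MOD Q * q] := by
      rw [← Nat.modEq_and_modEq_iff_modEq_mul h]
      exact ⟨h1.trans (Nat.mod_modEq n Q), h2.trans (Nat.mod_modEq n q)⟩
    exact Nat.ModEq.eq_of_lt_of_lt h3 (Nat.chineseRemainder_lt_mul h _ _ hQ.ne' hq.ne') hn
  · rintro ⟨i, j⟩ _
    obtain ⟨h1, h2⟩ := (Nat.chineseRemainder h i j).2
    change a i * b j = a (Nat.chineseRemainder h i j : ℕ) * b (Nat.chineseRemainder h i j : ℕ)
    have h3 : ((Nat.chineseRemainder h i j : ℕ)) % Q = i % Q := h1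
    have h4 : ((Nat.chineseRemainder h i j : ℕ)) % q = j % q := h2
    rw [← ha (Nat.chineseRemainder h i j : ℕ), ← hb (Nat.chineseRemainder h i j : ℕ), h3, h4, ha, hb]

/-- counting with a periodic nonnegative weight -/
lemma abs_sum_range_sub_le {Q : ℕ} (hQ : 0 < Q) (f : ℕ → ℝ) (hf : ∀ n, f (n % Q) = f n)
    (hf0 : ∀ n, 0 ≤ f n) (x : ℕ) :
    |∑ n ∈ range x, f n - x * ((∑ n ∈ range Q, f n) / Q)| ≤ ∑ n ∈ range Q, f n := by
  set R := ∑ n ∈ range Q, f n with hR
  have hR0 : 0 ≤ R := Finset.sum_nonneg fun n _ => hf0 n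
  have hk : ∀ k : ℕ, ∑ n ∈ range (Q * k), f n = k * R := by
    intro k
    induction k with
    | zero => simp
    | succ k ih =>
      have h1 : Q * (k + 1) = Q * k + Q := by ring
      rw [← Finset.sum_range_add_sum_Ico f (show Q * k ≤ Q * (k + 1) by rw [h1]; omega), ih, h1,
        sum_Ico_period f hf]
      push_cast; ring
  have hQ' : (0 : ℝ) < Q := by exact_mod_cast hQ
  set k := x / Q with hkdef
  have h1 : Q * k ≤ x := Nat.mul_div_le x Q
  have h2 : x ≤ Q * (k + 1) := by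
    have := Nat.lt_mul_div_succ x hQ
    exact this.le
  have hlow : (k : ℝ) * R ≤ ∑ n ∈ range x, f n := by
    rw [← hk k]
    exact Finset.sum_le_sum_of_subset_of_nonneg (Finset.range_mono h1) fun n _ _ => hf0 n
  have hup : ∑ n ∈ range x, f n ≤ ((k : ℝ) + 1) * R := by
    have := hk (k + 1)
    push_cast at this
    rw [← this]
    exact Finset.sum_le_sum_of_subset_of_nonneg (Finset.range_mono h2) fun n _ _ => hf0 n
  have h3 : (k : ℝ) ≤ x / Q := by
    rw [le_div_iff₀ hQ']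
    have : ((Q * k : ℕ) : ℝ) ≤ x := by exact_mod_cast h1
    push_cast at this; linarith
  have h4 : (x : ℝ) / Q ≤ k + 1 := by
    rw [div_le_iff₀ hQ']
    have : (x : ℝ) ≤ ((Q * (k + 1) : ℕ) : ℝ) := by exact_mod_cast h2
    push_cast at this; linarith
  have h5 : (x : ℝ) * (R / Q) = (x / Q) * R := by ring
  rw [h5, abs_le]
  have h6 : (k : ℝ) * R ≤ (x / Q) * R := mul_le_mul_of_nonneg_right h3 hR0
  have h7 : ((x : ℝ) / Q) * R ≤ (k + 1) * R := mul_le_mul_of_nonneg_right h4 hR0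
  constructor <;> nlinarith

/-- the indicator of `M ∣ n` and `P u n` for all `u ∈ S` -/
noncomputable def ind (M : ℕ) (P : ℕ → ℕ → Prop) (S : Finset ℕ) (n : ℕ) : ℝ :=
  if M ∣ n ∧ ∀ u ∈ S, P u n then 1 else 0

lemma ind_periodic {M : ℕ} {P : ℕ → ℕ → Prop} {q : ℕ → ℕ} {S : Finset ℕ}
    (hP : ∀ u ∈ S, ∀ n, P u (n % q u) ↔ P u n) (n : ℕ) :
    ind M P S (n % (M * ∏ u ∈ S, q u)) = ind M P S n := by
  unfold ind
  congr 1
  apply propext
  have h1 : M ∣ n % (M * ∏ u ∈ S, q u) ↔ M ∣ n :=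
    Nat.dvd_mod_iff (Dvd.intro _ rfl)
  have h2 : ∀ u ∈ S, (P u (n % (M * ∏ u ∈ S, q u)) ↔ P u n) := by
    intro u hu
    rw [← hP u hu, ← hP u hu n, Nat.mod_mod_of_dvd]
    exact (Finset.dvd_prod_of_mem q hu).mul_left M
  rw [h1]
  constructor
  · rintro ⟨a, b⟩; exact ⟨a, fun u hu => (h2 u hu).mp (b u hu)⟩
  · rintro ⟨a, b⟩; exact ⟨a, fun u hu => (h2 u hu).mpr (b u hu)⟩

lemma sum_ind {M : ℕ} (hM : 0 < M) {P : ℕ → ℕ → Prop} {q : ℕ → ℕ} (S : Finset ℕ)
    (hq : ∀ u ∈ S, 0 < q u) (hMq : ∀ u ∈ S, M.Coprime (q u))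
    (hc : ∀ u ∈ S, ∀ v ∈ S, u ≠ v → (q u).Coprime (q v))
    (hP : ∀ u ∈ S, ∀ n, P u (n % q u) ↔ P u n) :
    ∑ n ∈ range (M * ∏ u ∈ S, q u), ind M P S n =
      ∏ u ∈ S, (((range (q u)).filter (P u)).card : ℝ) := by
  induction S using Finset.induction_on with
  | empty =>
    simp only [Finset.prod_empty, mul_one]
    unfold ind
    rw [Finset.sum_eq_single 0]
    · simp
    · intro b hb hb0
      rw [Finset.mem_range] at hb
      rw [if_neg]
      rintro ⟨h1, _⟩
      exact absurd (Nat.le_of_dvd (Nat.pos_of_ne_zero hb0) h1) (by omega)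
    · intro h
      exact absurd (Finset.mem_range.mpr hM) h
  | insert a S ha ih =>
    have ih' := ih (fun u hu => hq u (Finset.mem_insert_of_mem hu))
      (fun u hu => hMq u (Finset.mem_insert_of_mem hu))
      (fun u hu v hv => hc u (Finset.mem_insert_of_mem hu) v (Finset.mem_insert_of_mem hv))
      (fun u hu => hP u (Finset.mem_insert_of_mem hu))
    have hqa := hq a (Finset.mem_insert_self a S)
    have hcop : (M * ∏ u ∈ S, q u).Coprime (q a) := by
      apply Nat.Coprime.mul_left (hMq a (Finset.mem_insert_self a S))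
      apply Nat.Coprime.prod_left
      intro u hu
      exact hc u (Finset.mem_insert_of_mem hu) a (Finset.mem_insert_self a S) (fun h => ha (h ▸ hu))
    have h1 : ∀ n, ind M P (insert a S) n = ind M P S n * (if P a n then 1 else 0) := by
      intro n
      unfold ind
      by_cases hpa : P a n
      · rw [if_pos hpa, mul_one]
        congr 1
        apply propext
        constructor
        · rintro ⟨b, c⟩; exact ⟨b, fun u hu => c u (Finset.mem_insert_of_mem hu)⟩
        · rintro ⟨b, c⟩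
          refine ⟨b, fun u hu => ?_⟩
          rcases Finset.mem_insert.mp hu with rfl | hu
          · exact hpa
          · exact c u hu
      · rw [if_neg hpa, mul_zero, if_neg]
        rintro ⟨_, c⟩
        exact hpa (c a (Finset.mem_insert_self a S))
    rw [Finset.prod_insert ha, Finset.prod_insert ha]
    have h2 : M * (q a * ∏ u ∈ S, q u) = (M * ∏ u ∈ S, q u) * q a := by ring
    have hpos : 0 < M * ∏ u ∈ S, q u :=
      Nat.mul_pos hM (Finset.prod_pos fun u hu => hq u (Finset.mem_insert_of_mem hu))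
    rw [h2]
    simp only [h1]
    rw [sum_mul_coprime hpos hqa hcop (ind M P S) (fun n => if P a n then 1 else 0)
      (ind_periodic fun u hu => hP u (Finset.mem_insert_of_mem hu)) (fun n => by
        simp only [hP a (Finset.mem_insert_self a S) n]), ih']
    rw [Finset.sum_boole]
    ring

/-- Rankin bound for the tail -/
lemma tail_le (U : Finset ℕ) (g : ℕ → ℝ) (hg0 : ∀ u, 0 ≤ g u) (r : ℕ) :
    ∑ S ∈ U.powerset.filter (fun S => r < S.card), ∏ u ∈ S, g u ≤
      Real.exp (8 * ∑ u ∈ U, g u) / 8 ^ (r + 1) := by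
  have h1 : ∀ S ∈ U.powerset.filter (fun S => r < S.card),
      ∏ u ∈ S, g u ≤ (∏ u ∈ S, (8 * g u)) / 8 ^ (r + 1) := by
    intro S hS
    rw [Finset.mem_filter] at hS
    have h7 : 0 ≤ ∏ u ∈ S, g u := Finset.prod_nonneg fun u _ => hg0 u
    rw [Finset.prod_mul_distrib, Finset.prod_const, le_div_iff₀ (by positivity)]
    have h8 : (8 : ℝ) ^ (r + 1) ≤ 8 ^ S.card := pow_le_pow_right₀ (by norm_num) hS.2
    calc (∏ u ∈ S, g u) * 8 ^ (r + 1) ≤ (∏ u ∈ S, g u) * 8 ^ S.card :=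
          mul_le_mul_of_nonneg_left h8 h7
      _ = _ := mul_comm _ _
  have h2 : ∑ S ∈ U.powerset.filter (fun S => r < S.card), (∏ u ∈ S, (8 * g u)) / 8 ^ (r + 1) ≤
      ∑ S ∈ U.powerset, (∏ u ∈ S, (8 * g u)) / (8 : ℝ) ^ (r + 1) := by
    apply Finset.sum_le_sum_of_subset_of_nonneg (Finset.filter_subset _ _)
    intro S _ _
    have h3 : 0 ≤ ∏ u ∈ S, (8 * g u) := Finset.prod_nonneg fun u _ =>
      mul_nonneg (by norm_num) (hg0 u)
    exact div_nonneg h3 (by positivity)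
  have h3 : ∑ S ∈ U.powerset, (∏ u ∈ S, (8 * g u)) / (8 : ℝ) ^ (r + 1) =
      (∏ u ∈ U, (1 + 8 * g u)) / 8 ^ (r + 1) := by
    rw [← Finset.sum_div, Finset.prod_one_add]
  have h4 : ∏ u ∈ U, (1 + 8 * g u) ≤ Real.exp (8 * ∑ u ∈ U, g u) := by
    rw [Finset.mul_sum, Real.exp_sum]
    apply Finset.prod_le_prod
    · intro u _
      have := hg0 u
      linarith
    · intro u _
      have := Real.add_one_le_exp (8 * (g u))
      linarith
  calc _ ≤ _ := Finset.sum_le_sum h1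
    _ ≤ _ := h2
    _ = _ := h3
    _ ≤ _ := div_le_div_of_nonneg_right h4 (by positivity)

lemma main_le (U : Finset ℕ) (g : ℕ → ℝ) (hg0 : ∀ u, 0 ≤ g u) (hg1 : ∀ u ∈ U, g u ≤ 1) (r : ℕ) :
    ∑ S ∈ U.powerset.filter (fun S => S.card ≤ r), (-1 : ℝ) ^ S.card * ∏ u ∈ S, g u ≤
      Real.exp (-∑ u ∈ U, g u) + Real.exp (8 * ∑ u ∈ U, g u) / 8 ^ (r + 1) := by
  have h4 : ∑ S ∈ U.powerset, (-1 : ℝ) ^ S.card * ∏ u ∈ S, g u = ∏ u ∈ U, (1 - g u) := by
    have : ∀ u, 1 - g u = 1 + (-1) * g u := fun u => by ring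
    simp only [this]
    rw [Finset.prod_one_add]
    refine Finset.sum_congr rfl fun S _ => ?_
    rw [Finset.prod_mul_distrib, Finset.prod_const]
  have h5 : ∏ u ∈ U, (1 - g u) ≤ Real.exp (-∑ u ∈ U, g u) := by
    rw [← Finset.sum_neg_distrib, Real.exp_sum]
    apply Finset.prod_le_prod
    · intro u hu; linarith [hg1 u hu]
    · intro u _
      have := Real.add_one_le_exp (-(g u))
      linarith
  have h6 := tail_le U g hg0 r
  have h7 := Finset.sum_filter_add_sum_filter_not U.powerset (fun S => S.card ≤ r)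
    (fun S => (-1 : ℝ) ^ S.card * ∏ u ∈ S, g u)
  have h8 : -∑ S ∈ U.powerset.filter (fun S => ¬ S.card ≤ r), (-1 : ℝ) ^ S.card * ∏ u ∈ S, g u ≤
      ∑ S ∈ U.powerset.filter (fun S => r < S.card), ∏ u ∈ S, g u := by
    have h9 : U.powerset.filter (fun S => ¬ S.card ≤ r) = U.powerset.filter (fun S => r < S.card) := by
      apply Finset.filter_congr
      intro S _
      exact not_le
    rw [h9, ← Finset.sum_neg_distrib]
    refine Finset.sum_le_sum fun S _ => ?_
    have h10 : 0 ≤ ∏ u ∈ S, g u := Finset.prod_nonneg fun u _ => hg0 u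
    rcases neg_one_pow_eq_or ℝ S.card with h6 | h6 <;> rw [h6] <;> linarith
  rw [h4] at h7
  linarith

lemma err_le (U : Finset ℕ) (c : ℕ → ℝ) (hc0 : ∀ u, 0 ≤ c u) (r : ℕ) {D : ℝ} (hD1 : 1 ≤ D)
    (hD : ∑ u ∈ U, c u ≤ D) :
    ∑ S ∈ U.powerset.filter (fun S => S.card ≤ r), ∏ u ∈ S, c u ≤ 3 * D ^ r := by
  have hD0 : 0 < D := by linarith
  have h1 : ∀ S ∈ U.powerset.filter (fun S => S.card ≤ r), ∏ u ∈ S, c u ≤
      D ^ r * ∏ u ∈ S, (c u / D) := by
    intro S hS
    rw [Finset.mem_filter] at hS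
    rw [Finset.prod_div_distrib, Finset.prod_const]
    have h5 : 0 ≤ ∏ u ∈ S, c u := Finset.prod_nonneg fun u _ => hc0 u
    have h6 : D ^ S.card ≤ D ^ r := pow_le_pow_right₀ hD1 hS.2
    have h7 : 0 < D ^ S.card := by positivity
    rw [mul_div_assoc', le_div_iff₀ h7, mul_comm (D ^ r)]
    exact mul_le_mul_of_nonneg_left h6 h5
  have h2 : ∑ S ∈ U.powerset.filter (fun S => S.card ≤ r), D ^ r * ∏ u ∈ S, (c u / D) ≤
      ∑ S ∈ U.powerset, D ^ r * ∏ u ∈ S, (c u / D) := by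
    apply Finset.sum_le_sum_of_subset_of_nonneg (Finset.filter_subset _ _)
    intro S _ _
    have h3 : 0 ≤ ∏ u ∈ S, (c u / D) := Finset.prod_nonneg fun u _ => div_nonneg (hc0 u) hD0.le
    exact mul_nonneg (by positivity) h3
  have h3 : ∑ S ∈ U.powerset, D ^ r * ∏ u ∈ S, (c u / D) = D ^ r * ∏ u ∈ U, (1 + c u / D) := by
    rw [← Finset.mul_sum, Finset.prod_one_add]
  have h4 : ∏ u ∈ U, (1 + c u / D) ≤ Real.exp (∑ u ∈ U, c u / D) := by
    rw [Real.exp_sum]
    apply Finset.prod_le_prod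
    · intro u _
      have := div_nonneg (hc0 u) hD0.le
      linarith
    · intro u _
      have := Real.add_one_le_exp (c u / D)
      linarith
  have h5 : Real.exp (∑ u ∈ U, c u / D) ≤ 3 := by
    rw [← Finset.sum_div]
    have h5 : (∑ u ∈ U, c u) / D ≤ 1 := by rw [div_le_one hD0]; exact hD
    calc Real.exp ((∑ u ∈ U, c u) / D) ≤ Real.exp 1 := Real.exp_le_exp.mpr h5
      _ ≤ 3 := Real.exp_one_lt_three.le
  calc _ ≤ _ := Finset.sum_le_sum h1
    _ ≤ _ := h2
    _ = _ := h3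
    _ ≤ D ^ r * 3 := mul_le_mul_of_nonneg_left (h4.trans h5) (by positivity)
    _ = _ := mul_comm _ _

/-- **Brun's pure sieve.** -/
theorem brun {M : ℕ} (hM : 0 < M) {P : ℕ → ℕ → Prop} {q : ℕ → ℕ} (U : Finset ℕ)
    (hq : ∀ u ∈ U, 0 < q u) (hMq : ∀ u ∈ U, M.Coprime (q u))
    (hc : ∀ u ∈ U, ∀ v ∈ U, u ≠ v → (q u).Coprime (q v))
    (hP : ∀ u ∈ U, ∀ n, P u (n % q u) ↔ P u n) {r : ℕ} (hr : Even r) (x : ℕ) {G D : ℝ}
    (hG : ∑ u ∈ U, (((range (q u)).filter (P u)).card : ℝ) / q u = G)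
    (hD1 : 1 ≤ D) (hD : ∑ u ∈ U, (((range (q u)).filter (P u)).card : ℝ) ≤ D) :
    (((range x).filter (fun n => M ∣ n ∧ ∀ u ∈ U, ¬ P u n)).card : ℝ) ≤
      (x / M) * (Real.exp (-G) + Real.exp (8 * G) / 8 ^ (r + 1)) + 3 * D ^ r := by
  obtain ⟨c, hcdef⟩ : ∃ c : ℕ → ℝ, ∀ u, c u = (((range (q u)).filter (P u)).card : ℝ) :=
    ⟨_, fun _ => rfl⟩
  obtain ⟨g, hg⟩ : ∃ g : ℕ → ℝ, ∀ u, g u = c u / q u := ⟨_, fun _ => rfl⟩
  have hM' : (0 : ℝ) < M := by exact_mod_cast hM
  have hc0 : ∀ u, 0 ≤ c u := fun u => by rw [hcdef]; exact Nat.cast_nonneg _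
  have hg0 : ∀ u, 0 ≤ g u := fun u => by rw [hg]; exact div_nonneg (hc0 u) (Nat.cast_nonneg _)
  have hg1 : ∀ u ∈ U, g u ≤ 1 := by
    intro u hu
    have h1 : (0 : ℝ) < q u := by exact_mod_cast hq u hu
    rw [hg, div_le_one h1, hcdef]
    have : ((range (q u)).filter (P u)).card ≤ q u := by
      refine (Finset.card_filter_le _ _).trans ?_
      rw [Finset.card_range]
    exact_mod_cast this
  have hGg : ∑ u ∈ U, g u = G := by
    rw [← hG]
    exact Finset.sum_congr rfl fun u _ => by rw [hg, hcdef]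
  have hDc : ∑ u ∈ U, c u ≤ D := by
    refine le_trans (le_of_eq ?_) hD
    exact Finset.sum_congr rfl fun u _ => hcdef u
  have hFsub : ∀ S ∈ U.powerset.filter (fun S => S.card ≤ r), S ⊆ U ∧ S.card ≤ r := by
    intro S hS
    rw [Finset.mem_filter, Finset.mem_powerset] at hS
    exact hS
  -- step 1: Bonferroni
  have h1 : (((range x).filter (fun n => M ∣ n ∧ ∀ u ∈ U, ¬ P u n)).card : ℝ) ≤
      ∑ S ∈ U.powerset.filter (fun S => S.card ≤ r), (-1 : ℝ) ^ S.card *
        ∑ n ∈ range x, ind M P S n := by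
    rw [Finset.card_filter]
    push_cast
    have h2 : ∀ n ∈ range x, (if M ∣ n ∧ ∀ u ∈ U, ¬ P u n then (1 : ℝ) else 0) ≤
        ∑ S ∈ U.powerset.filter (fun S => S.card ≤ r), (-1 : ℝ) ^ S.card * ind M P S n := by
      intro n _
      by_cases hMn : M ∣ n
      · have h2 := bonferroni hr U (fun u => P u n)
        simp only [hMn, true_and, ind]
        exact h2
      · have : ∀ S, ind M P S n = 0 := fun S => by
          unfold ind
          rw [if_neg (fun h => hMn h.1)]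
        simp [hMn, this]
    refine (Finset.sum_le_sum h2).trans (le_of_eq ?_)
    rw [Finset.sum_comm]
    refine Finset.sum_congr rfl fun S _ => ?_
    rw [Finset.mul_sum]
  -- step 2: counting
  have h2 : ∀ S ∈ U.powerset.filter (fun S => S.card ≤ r),
      (-1 : ℝ) ^ S.card * ∑ n ∈ range x, ind M P S n ≤
      (x / M) * ((-1 : ℝ) ^ S.card * ∏ u ∈ S, g u) + ∏ u ∈ S, c u := by
    intro S hS
    have hSU := (hFsub S hS).1
    have hQ : 0 < M * ∏ u ∈ S, q u := Nat.mul_pos hM (Finset.prod_pos fun u hu => hq u (hSU hu))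
    have h3 := abs_sum_range_sub_le hQ (ind M P S) (ind_periodic fun u hu => hP u (hSU hu))
      (fun n => by unfold ind; split_ifs <;> norm_num) x
    rw [sum_ind hM S (fun u hu => hq u (hSU hu)) (fun u hu => hMq u (hSU hu))
      (fun u hu v hv => hc u (hSU hu) v (hSU hv)) (fun u hu => hP u (hSU hu))] at h3
    have h3' : ∏ u ∈ S, (((range (q u)).filter (P u)).card : ℝ) = ∏ u ∈ S, c u :=
      Finset.prod_congr rfl fun u _ => (hcdef u).symm
    rw [h3'] at h3
    have h4 : (x : ℝ) * ((∏ u ∈ S, c u) / ((M * ∏ u ∈ S, q u : ℕ) : ℝ)) =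
        (x / M) * ∏ u ∈ S, g u := by
      simp only [hg, Finset.prod_div_distrib]
      push_cast
      ring
    rw [h4] at h3
    have h5 := abs_le.mp h3
    rcases neg_one_pow_eq_or ℝ S.card with h6 | h6
    · rw [h6]; linarith [h5.2]
    · rw [h6]; linarith [h5.1]
  -- step 3: main term
  have h3 := main_le U g hg0 hg1 r
  rw [hGg] at h3
  -- step 4: error term
  have h4 := err_le U c hc0 r hD1 hDc
  refine h1.trans ((Finset.sum_le_sum h2).trans ?_)
  rw [Finset.sum_add_distrib, ← Finset.mul_sum]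
  apply add_le_add _ h4
  exact mul_le_mul_of_nonneg_left h3 (by positivity)

end Pool.Agent.Lib.MP_79499b_co.Q38
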