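import Pool.Agent.Lib.MP_79499b_co.TwoPrime

/-!
# General group ring elements: twists, multipliers, images of difference sets
-/

namespace Pool.Agent.Lib.MP_79499b_co

open Finset MonoidAlgebra

section gen

variable {G : Type} [CommGroup G] [Fintype G]

/-- If `X X^{(-1)} = N + λ G` and `p^e ∣ N`, then `X^{(p^j)} X^{(-1)} ≡ λ G (mod p^e)`. -/
lemma dvd_twist_gen (X : MonoidAlgebra ℤ G) {N lam : ℤ}
    (hD : X * iv X = (N : MonoidAlgebra ℤ G) + (lam : MonoidAlgebra ℤ G) * el univ)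
    {p : ℕ} (hp : p.Prime) (hG : (Nat.card G).Coprime p) {e : ℕ} (he : (p : ℤ) ^ e ∣ N) (j : ℕ) :
    (((p : ℤ) ^ e : ℤ) : MonoidAlgebra ℤ G) ∣
      pw (p ^ j) X * iv X - (lam : MonoidAlgebra ℤ G) * el univ := by
  set u : MonoidAlgebra ℤ G := el univ with hu
  set v : ℤ := (Fintype.card G : ℤ) with hv
  set k : ℤ := aug X with hk
  have huu : u * u = (v : MonoidAlgebra ℤ G) * u := by
    rw [hu, mul_el_univ, aug_el]; simp [hv]
  have hDu : X * u = (k : MonoidAlgebra ℤ G) * u := by rw [hu, mul_el_univ]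
  have hiDu : iv X * u = (k : MonoidAlgebra ℤ G) * u := by
    rw [hu, mul_el_univ, aug_iv]
  have hkk : k ^ 2 = N + lam * v := by
    have := congrArg aug hD
    rw [map_mul, aug_iv, map_add, map_mul, map_intCast, map_intCast, aug_el] at this
    simp only [← hk, hv, card_univ] at this ⊢
    simpa [sq] using this
  have hcopt : (Nat.card G).Coprime (p ^ j) := hG.pow_right j
  obtain ⟨f, hf, htf⟩ := exists_pow_eq_self (G := G) hcopt
  set Y : MonoidAlgebra ℤ G := (v : MonoidAlgebra ℤ G) * X - (k : MonoidAlgebra ℤ G) * u with hY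
  have hivY : iv Y = (v : MonoidAlgebra ℤ G) * iv X - (k : MonoidAlgebra ℤ G) * u := by
    rw [hY, map_sub, map_mul, map_mul, map_intCast, map_intCast, hu, iv_el_univ]
  have hpwY : pw (p ^ j) Y
      = (v : MonoidAlgebra ℤ G) * pw (p ^ j) X - (k : MonoidAlgebra ℤ G) * u := by
    rw [hY, map_sub, map_mul, map_mul, map_intCast, map_intCast, hu, pw_el_univ hcopt]
  have hpDu : pw (p ^ j) X * u = (k : MonoidAlgebra ℤ G) * u := by
    rw [hu, mul_el_univ, aug_pw]
  have hYY : Y * iv Y = (N : MonoidAlgebra ℤ G) *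
      ((v : MonoidAlgebra ℤ G) * ((v : MonoidAlgebra ℤ G) - u)) := by
    have hkk' : (k : MonoidAlgebra ℤ G) ^ 2 = N + lam * v := by exact_mod_cast congrArg _ hkk
    rw [hivY, hY]
    linear_combination (v : MonoidAlgebra ℤ G) ^ 2 * hD
      - (v : MonoidAlgebra ℤ G) * k * hDu - (v : MonoidAlgebra ℤ G) * k * hiDu
      + (k : MonoidAlgebra ℤ G) ^ 2 * huu - (v : MonoidAlgebra ℤ G) * u * hkk'
  have h1 : (((p : ℤ) ^ (e * f) : ℤ) : MonoidAlgebra ℤ G) ∣
      ∏ i ∈ range f, pw (p ^ (j * i)) (pw (p ^ j) Y * iv Y) := by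
    have h2 := prod_twist hf htf Y
    simp_rw [← pow_mul] at h2
    rw [h2, pow_mul, Int.cast_pow, ← Finset.card_range f, ← Finset.prod_const, Finset.card_range]
    apply Finset.prod_dvd_prod_of_dvd
    intro i _
    rw [hYY, map_mul, map_intCast]
    exact Dvd.dvd.mul_right (map_dvd (Int.castRingHom (MonoidAlgebra ℤ G)) he) _
  have h3 := dvd_of_dvd_prod hp hG hf (fun i => j * i) e _ h1
  have h4 : (((p : ℤ) ^ e : ℤ) : MonoidAlgebra ℤ G) ∣ ((v ^ 2 : ℤ) : MonoidAlgebra ℤ G) *
      (pw (p ^ j) X * iv X - (lam : MonoidAlgebra ℤ G) * u) := by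
    have hkk' : (k : MonoidAlgebra ℤ G) ^ 2 = N + lam * v := by exact_mod_cast congrArg _ hkk
    have h5 : ((v ^ 2 : ℤ) : MonoidAlgebra ℤ G) *
      (pw (p ^ j) X * iv X - (lam : MonoidAlgebra ℤ G) * u)
        = pw (p ^ j) Y * iv Y + (N : MonoidAlgebra ℤ G) * ((v : MonoidAlgebra ℤ G) * u) := by
      rw [hivY, hpwY]
      push_cast
      linear_combination (v : MonoidAlgebra ℤ G) * k * hpDu + (v : MonoidAlgebra ℤ G) * k * hiDu
        - (k : MonoidAlgebra ℤ G) ^ 2 * huu + (v : MonoidAlgebra ℤ G) * u * hkk'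
    rw [h5]
    exact dvd_add h3 (Dvd.dvd.mul_right (map_dvd (Int.castRingHom (MonoidAlgebra ℤ G)) he) _)
  rw [intCast_dvd_iff] at h4 ⊢
  intro g
  have h6 := h4 g
  rw [← zsmul_eq_mul, coeff_smul_apply, smul_eq_mul] at h6
  refine IsCoprime.dvd_of_dvd_mul_left ?_ h6
  apply IsCoprime.pow
  rw [hv, ← Nat.card_eq_fintype_card]
  exact Nat.isCoprime_iff_coprime.mpr hG.symm

omit [Fintype G] in
lemma pw_congr {s t : ℕ} (h : ∀ g : G, g ^ s = g ^ t) (X : MonoidAlgebra ℤ G) :
    pw s X = pw t X := by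
  have : pw s = (pw t : MonoidAlgebra ℤ G →+* _) :=
    ringHom_ext' fun g => by simp [h]
  exact congrArg (fun f => f X) this

/-- composite version of `dvd_twist_gen`: if for every prime `r ∣ n₁` the power map `x ↦ x^m` is
`x ↦ x^(r^i)` for some `i`, and `n₁ ∣ N`, then `X^{(m)} X^{(-1)} ≡ λ G (mod n₁)`. -/
lemma dvd_twist_comp (X : MonoidAlgebra ℤ G) {N lam : ℤ}
    (hD : X * iv X = (N : MonoidAlgebra ℤ G) + (lam : MonoidAlgebra ℤ G) * el univ)
    {n₁ : ℕ} (hn₁ : (n₁ : ℤ) ∣ N) (hG : (Nat.card G).Coprime n₁) {m : ℕ}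
    (hm : ∀ r : ℕ, r.Prime → r ∣ n₁ → ∃ i : ℕ, ∀ x : G, x ^ m = x ^ r ^ i) :
    ((n₁ : ℤ) : MonoidAlgebra ℤ G) ∣
      pw m X * iv X - (lam : MonoidAlgebra ℤ G) * el univ := by
  rw [intCast_dvd_iff]
  intro g
  rw [Int.natCast_dvd, Nat.dvd_iff_prime_pow_dvd_dvd]
  intro r k hr hrk
  rcases Nat.eq_zero_or_pos k with hk | hk
  · subst hk; simp
  · have hrn : r ∣ n₁ := (dvd_pow_self r hk.ne').trans hrk
    obtain ⟨i, hi⟩ := hm r hr hrn
    have h1 := dvd_twist_gen X hD hr (hG.coprime_dvd_right hrn) (e := k)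
      (by
        have : ((r ^ k : ℕ) : ℤ) ∣ N := (Int.natCast_dvd_natCast.mpr hrk).trans hn₁
        simpa using this) i
    rw [← pw_congr hi, intCast_dvd_iff] at h1
    have h2 := h1 g
    rw [← Int.natCast_dvd]
    simpa using h2

omit [CommGroup G] in
lemma eq_sum_single (X : MonoidAlgebra ℤ G) : X = ∑ x, single x (X.coeff x) := by
  classical
  ext g
  rw [coeff_sum, Finsupp.finsetSum_apply]
  simp [Finsupp.single_apply]

lemma coeff_mapDomain {H : Type} [CommGroup H] [DecidableEq H] (φ : G →* H)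
    (X : MonoidAlgebra ℤ G) (y : H) :
    (pr φ X).coeff y = ∑ x, if φ x = y then X.coeff x else 0 := by
  conv_lhs => rw [eq_sum_single X, map_sum, coeff_sum, Finsupp.finsetSum_apply]
  refine Finset.sum_congr rfl fun x _ => ?_
  rw [pr_single, coeff_single, Finsupp.single_apply]

omit [Fintype G] in
lemma pw_eq_pr (t : ℕ) (X : MonoidAlgebra ℤ G) : pw t X = pr (powMonoidHom t) X := rfl

lemma pr_nonneg {H : Type} [CommGroup H] (φ : G →* H)
    (X : MonoidAlgebra ℤ G) (hX : ∀ g, 0 ≤ X.coeff g) (y : H) : 0 ≤ (pr φ X).coeff y := by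
  classical
  rw [coeff_mapDomain]
  exact Finset.sum_nonneg fun x _ => by split_ifs <;> simp [hX x]

/-- Second multiplier theorem, for nonnegative group ring elements. -/
theorem multiplier_gen (X : MonoidAlgebra ℤ G) {N lam : ℤ} (hnn : ∀ g, 0 ≤ X.coeff g)
    (hD : X * iv X = (N : MonoidAlgebra ℤ G) + (lam : MonoidAlgebra ℤ G) * el univ)
    (hN : 0 < N) {n₁ : ℕ} (hn₁ : (n₁ : ℤ) ∣ N) (hlt : lam < n₁ ∨ (n₁ : ℤ) = N) {m : ℕ}
    (hcop : (Nat.card G).Coprime m)
    (hdvd : ((n₁ : ℤ) : MonoidAlgebra ℤ G) ∣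
      pw m X * iv X - (lam : MonoidAlgebra ℤ G) * el univ) :
    ∃ h : G, pw m X = single h 1 * X := by
  classical
  obtain ⟨T, hT⟩ := hdvd
  obtain ⟨M, hM⟩ := hn₁
  set u : MonoidAlgebra ℤ G := el univ with hu
  set v : ℤ := (Fintype.card G : ℤ) with hv
  set k : ℤ := aug X with hk
  set P : ℤ := (n₁ : ℤ) with hP
  have hPpos : 0 < P := by
    rcases Nat.eq_zero_or_pos n₁ with h | h
    · rw [hM, hP, h] at hN; simp at hN
    · rw [hP]; exact_mod_cast h
  have hMpos : 0 < M := by
    rw [hM] at hN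
    exact (mul_pos_iff_of_pos_left hPpos).mp hN
  have huu : u * u = (v : MonoidAlgebra ℤ G) * u := by
    rw [hu, mul_el_univ, aug_el]; simp [hv]
  have hDu : X * u = (k : MonoidAlgebra ℤ G) * u := by rw [hu, mul_el_univ]
  have hiDu : iv X * u = (k : MonoidAlgebra ℤ G) * u := by
    rw [hu, mul_el_univ, aug_iv]
  have hpDu : pw m X * u = (k : MonoidAlgebra ℤ G) * u := by
    rw [hu, mul_el_univ, aug_pw]
  have hipDu : iv (pw m X) * u = (k : MonoidAlgebra ℤ G) * u := by
    rw [hu, mul_el_univ, aug_iv, aug_pw]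
  have hkk : k ^ 2 = N + lam * v := by
    have := congrArg aug hD
    rw [map_mul, aug_iv, map_add, map_mul, map_intCast, map_intCast, aug_el] at this
    simp only [← hk, hv, card_univ] at this ⊢
    simpa [sq] using this
  have hkk' : (k : MonoidAlgebra ℤ G) ^ 2 = N + lam * v := by exact_mod_cast congrArg _ hkk
  have hDt : pw m X * iv (pw m X)
      = (N : MonoidAlgebra ℤ G) + (lam : MonoidAlgebra ℤ G) * u := by
    rw [← pw_iv, ← map_mul, hD, map_add, map_mul, map_intCast, map_intCast, hu, pw_el_univ hcop]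
  set S := pw m X * iv X - (lam : MonoidAlgebra ℤ G) * u with hS
  have hivS : iv S = iv (pw m X) * X - (lam : MonoidAlgebra ℤ G) * u := by
    rw [hS, map_sub, map_mul, map_mul, iv_iv, map_intCast, hu, iv_el_univ]
  have hSS : S * iv S = (N : MonoidAlgebra ℤ G) ^ 2 := by
    rw [hivS, hS]
    linear_combination (X * iv X) * hDt
      + ((N : MonoidAlgebra ℤ G) + (lam : MonoidAlgebra ℤ G) * u) * hD
      - (lam : MonoidAlgebra ℤ G) * iv X * hpDu
      - (lam : MonoidAlgebra ℤ G) * (k : MonoidAlgebra ℤ G) * hiDu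
      - (lam : MonoidAlgebra ℤ G) * X * hipDu
      - (lam : MonoidAlgebra ℤ G) * (k : MonoidAlgebra ℤ G) * hDu
      + 2 * (lam : MonoidAlgebra ℤ G) ^ 2 * huu
      - 2 * (lam : MonoidAlgebra ℤ G) * u * hkk'
  have hSP : S = (P : MonoidAlgebra ℤ G) * T := hT
  have hTT : T * iv T = ((M ^ 2 : ℤ) : MonoidAlgebra ℤ G) := by
    have h1 : ((P ^ 2 : ℤ) : MonoidAlgebra ℤ G) * (T * iv T)
        = ((P ^ 2 : ℤ) : MonoidAlgebra ℤ G) * ((M ^ 2 : ℤ) : MonoidAlgebra ℤ G) := by
      have h2 : S * iv S = ((P ^ 2 : ℤ) : MonoidAlgebra ℤ G) * (T * iv T) := by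
        rw [hSP, map_mul, map_intCast]; push_cast; ring
      rw [← h2, hSS, hM]; push_cast; ring
    exact intCast_mul_cancel (pow_ne_zero 2 hPpos.ne') h1
  have haugT : aug T = M := by
    have h1 : aug S = P * aug T := by rw [hSP, map_mul, map_intCast]; simp
    have h2 : aug S = N := by
      rw [hS, map_sub, map_mul, map_mul, aug_pw, aug_iv, map_intCast, hu, aug_el, ← hk]
      have : ((univ : Finset G).card : ℤ) = v := by simp [hv]
      rw [this]
      simp only [Int.cast_id]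
      linear_combination hkk
    have h3 : P * aug T = P * M := by rw [← h1, h2, hM]
    exact mul_left_cancel₀ hPpos.ne' h3
  have hTT1 : (T * iv T).coeff 1 = M ^ 2 := by
    rw [hTT, MonoidAlgebra.intCast_def]; simp
  have hTnonneg : ∀ g, 0 ≤ T.coeff g := by
    rcases hlt with hlt | hPN
    · intro g
      have h1 : S.coeff g = P * T.coeff g := by
        rw [hSP, ← zsmul_eq_mul, coeff_smul_apply, smul_eq_mul]
      have h2 : -lam ≤ S.coeff g := by
        rw [hS, coeff_sub, Finsupp.sub_apply, ← zsmul_eq_mul, coeff_smul_apply, hu, coeff_el]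
        have h3 : 0 ≤ (pw m X * iv X).coeff g := by
          rw [coeff_mul_iv]
          apply Finset.sum_nonneg
          intro x _
          apply mul_nonneg _ (hnn x)
          rw [pw_eq_pr]
          exact pr_nonneg _ X hnn _
        simp only [mem_univ, if_true, smul_eq_mul, mul_one]
        omega
      by_contra hneg
      push Not at hneg
      have h4 : T.coeff g ≤ -1 := by omega
      have h5 : P * T.coeff g ≤ -P := by nlinarith
      omega
    · have hM1 : M = 1 := by
        have h1 : P * M = P * 1 := by rw [← hM, ← hPN, hP, mul_one]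
        exact mul_left_cancel₀ hPpos.ne' h1
      have h2 : ∑ x, T.coeff x * (T.coeff x - 1) = 0 := by
        simp_rw [mul_sub, mul_one]
        rw [Finset.sum_sub_distrib, ← aug_eq_sum, haugT, hM1]
        have h3 := hTT1
        rw [coeff_mul_iv, hM1] at h3
        simp only [one_mul] at h3
        rw [h3]; norm_num
      have h4 : ∀ x : ℤ, 0 ≤ x * (x - 1) := by
        intro x
        rcases le_or_gt x 0 with h | h
        · nlinarith
        · have : 1 ≤ x := h
          nlinarith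
      intro g
      have h5 := (Finset.sum_eq_zero_iff_of_nonneg (fun i _ => h4 (T.coeff i))).mp h2 g (mem_univ g)
      rcases mul_eq_zero.mp h5 with h | h <;> omega
  obtain ⟨h, hh⟩ := trivial_of_nonneg hMpos hTnonneg haugT hTT1
  refine ⟨h, ?_⟩
  have h7 : S = (N : MonoidAlgebra ℤ G) * single h 1 := by
    rw [hSP, hh, hM]
    have : (single h M : MonoidAlgebra ℤ G) = (M : MonoidAlgebra ℤ G) * single h 1 := by
      rw [← zsmul_eq_mul]; simp
    rw [this]; push_cast; ring
  have h8 : (N : MonoidAlgebra ℤ G) * pw m X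
      = (N : MonoidAlgebra ℤ G) * (single h 1 * X) := by
    have h9 : pw m X * iv X
        = (N : MonoidAlgebra ℤ G) * single h 1 + (lam : MonoidAlgebra ℤ G) * u := by
      rw [← h7, hS]; ring
    linear_combination X * h9 - pw m X * hD
      - (lam : MonoidAlgebra ℤ G) * hpDu + (lam : MonoidAlgebra ℤ G) * hDu
  exact intCast_mul_cancel hN.ne' h8

end gen

section image

variable {G Q : Type} [Group G] [CommGroup Q]

/-- the image of a subset of `G` in the group ring of `Q` -/
noncomputable def im (φ : G →* Q) (D : Finset G) : MonoidAlgebra ℤ Q := ∑ d ∈ D, single (φ d) 1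

lemma coeff_im [DecidableEq Q] (φ : G →* Q) (D : Finset G) (y : Q) :
    (im φ D).coeff y = ((D.filter (fun d => φ d = y)).card : ℤ) := by
  rw [im, coeff_sum, Finsupp.finsetSum_apply, Finset.card_filter]
  simp [Finsupp.single_apply]

lemma aug_im (φ : G →* Q) (D : Finset G) : aug (im φ D) = D.card := by
  simp [im]

lemma im_nonneg (φ : G →* Q) (D : Finset G) (y : Q) : 0 ≤ (im φ D).coeff y := by
  classical
  rw [coeff_im]; positivity

lemma card_fiber [Fintype G] [DecidableEq Q] (φ : G →* Q) (hφ : Function.Surjective φ) (y : Q) :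
    (univ.filter (fun d : G => φ d = y)).card = Nat.card φ.ker := by
  have h1 : (univ.filter (fun d : G => φ d = y)).card = (univ.filter (fun d : G => φ d = 1)).card :=
    MonoidHom.card_fiber_eq_of_mem_range φ (hφ y) (hφ 1)
  rw [h1, Nat.card_eq_fintype_card, Fintype.card_subtype]
  congr 1
  ext x
  simp [MonoidHom.mem_ker]

lemma im_univ [Fintype G] [Fintype Q] (φ : G →* Q) (hφ : Function.Surjective φ) :
    im φ (univ : Finset G) = ((Nat.card φ.ker : ℤ) : MonoidAlgebra ℤ Q) * el univ := by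
  classical
  ext y
  rw [coeff_im, ← zsmul_eq_mul, coeff_smul_apply, coeff_el, card_fiber φ hφ]
  simp

lemma im_le [Fintype G] (φ : G →* Q) (hφ : Function.Surjective φ) (D : Finset G) (y : Q) :
    (im φ D).coeff y ≤ Nat.card φ.ker := by
  classical
  rw [coeff_im, ← card_fiber φ hφ y]
  exact_mod_cast Finset.card_le_card (Finset.filter_subset_filter _ (subset_univ D))

/-- the equation satisfied by the image of a difference set -/
lemma im_mul_iv [Fintype G] [DecidableEq G] [Fintype Q] (φ : G →* Q)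
    (hφ : Function.Surjective φ) (D : Finset G) {lam : ℤ}
    (hD : ∀ g : G, g ≠ 1 →
      (((D ×ˢ D).filter (fun x : G × G => x.1 * x.2⁻¹ = g)).card : ℤ) = lam) :
    im φ D * iv (im φ D)
      = (((D.card : ℤ) - lam : ℤ) : MonoidAlgebra ℤ Q)
        + ((lam * (Nat.card φ.ker : ℤ) : ℤ) : MonoidAlgebra ℤ Q) * el univ := by
  have h1 : im φ D * iv (im φ D) = ∑ x ∈ D ×ˢ D, single (φ (x.1 * x.2⁻¹)) (1 : ℤ) := by
    rw [im, map_sum, Finset.sum_mul_sum, Finset.sum_product]
    refine Finset.sum_congr rfl fun d _ => Finset.sum_congr rfl fun e _ => ?_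
    rw [iv_single, MonoidAlgebra.single_mul_single, mul_one, map_mul, map_inv]
  have h2 : ∑ x ∈ D ×ˢ D, single (φ (x.1 * x.2⁻¹)) (1 : ℤ)
      = ∑ g : G, single (φ g)
        (((D ×ˢ D).filter (fun x : G × G => x.1 * x.2⁻¹ = g)).card : ℤ) := by
    rw [← Finset.sum_fiberwise (D ×ˢ D) (fun x : G × G => x.1 * x.2⁻¹)]
    refine Finset.sum_congr rfl fun g _ => ?_
    have : ∀ x ∈ (D ×ˢ D).filter (fun x : G × G => x.1 * x.2⁻¹ = g),
        (single (φ (x.1 * x.2⁻¹)) (1 : ℤ) : MonoidAlgebra ℤ Q) = single (φ g) 1 := by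
      intro x hx
      rw [(mem_filter.mp hx).2]
    rw [Finset.sum_congr rfl this, Finset.sum_const, MonoidAlgebra.smul_single]
    simp
  have h3 : ∀ g : G, (single (φ g)
        (((D ×ˢ D).filter (fun x : G × G => x.1 * x.2⁻¹ = g)).card : ℤ) : MonoidAlgebra ℤ Q)
      = single (φ g) lam + (if g = 1 then single 1 ((D.card : ℤ) - lam) else 0) := by
    intro g
    by_cases hg : g = 1
    · subst hg
      rw [if_pos rfl, map_one, ← MonoidAlgebra.single_add]
      congr 1
      have : (D ×ˢ D).filter (fun x : G × G => x.1 * x.2⁻¹ = 1) = D.diag := by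
        ext ⟨a, b⟩
        simp only [mem_filter, mem_product, mem_diag]
        constructor
        · rintro ⟨⟨ha, hb⟩, h⟩
          exact ⟨ha, mul_inv_eq_one.mp h⟩
        · rintro ⟨ha, h⟩
          subst h
          exact ⟨⟨ha, ha⟩, by simp⟩
      rw [this, Finset.diag_card]; ring
    · rw [if_neg hg, add_zero, hD g hg]
  have h4 : ∑ g : G, (single (φ g) lam : MonoidAlgebra ℤ Q)
      = ((lam * (Nat.card φ.ker : ℤ) : ℤ) : MonoidAlgebra ℤ Q) * el univ := by
    have h5 : ∀ g : G, (single (φ g) lam : MonoidAlgebra ℤ Q)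
        = (lam : MonoidAlgebra ℤ Q) * single (φ g) 1 := by
      intro g; rw [← zsmul_eq_mul]; simp
    simp_rw [h5]
    rw [← Finset.mul_sum]
    have h6 := im_univ φ hφ
    rw [im] at h6
    rw [h6]; push_cast; ring
  rw [h1, h2, Finset.sum_congr rfl (fun g _ => h3 g), Finset.sum_add_distrib, h4, add_comm]
  congr 1
  rw [Finset.sum_ite_eq' univ (1 : G), if_pos (mem_univ _), MonoidAlgebra.intCast_def]
  simp

end image

end Pool.Agent.Lib.MP_79499b_co
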