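import Pool.Agent.Lib.MP_79499b_co.Bilinear29
import Pool.Agent.Lib.MP_79499b_co.AlmostAll29

/-!
# Integers with a large prime factor `p`: almost all of them hit a nonresidue class
-/

namespace Pool.Agent.Lib.MP_79499b_co.EvenDensity29

open Filter Topology Finset Density29

lemma two_mul_card_nonsquare {w : ℕ} (hw : w.Prime) (hw2 : w ≠ 2) [NeZero w] :
    w - 1 ≤ 2 * ((Finset.univ : Finset (ZMod w)).filter (fun b => ¬ IsSquare b)).card := by
  classical
  have : Fact w.Prime := ⟨hw⟩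
  obtain ⟨z, hz⟩ : ∃ z : ZMod w, ¬ IsSquare z := FiniteField.exists_nonsquare (by
    rw [ZMod.ringChar_zmod_n]; exact hw2)
  have hz0 : z ≠ 0 := by rintro rfl; exact hz ⟨0, by simp⟩
  set N := (Finset.univ : Finset (ZMod w)).filter (fun b => ¬ IsSquare b) with hN
  set S := (Finset.univ : Finset (ZMod w)).filter (fun b => b ≠ 0 ∧ IsSquare b) with hS
  have h1 : S.card ≤ N.card := by
    apply Finset.card_le_card_of_injOn (fun a => z * a)
    · intro a ha
      simp only [hS, hN, Finset.coe_filter, Finset.mem_univ, true_and, Set.mem_ofPred_eq] at ha ⊢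
      intro h
      apply hz
      have h2 : z = (z * a) * a⁻¹ := by field_simp [ha.1]
      rw [h2]
      obtain ⟨u, hu⟩ := h
      obtain ⟨v, hv⟩ := ha.2
      refine ⟨u * v⁻¹, ?_⟩
      rw [hu, hv, mul_inv]
      ring
    · intro a _ b _ h
      exact mul_left_cancel₀ hz0 h
  have h2 : w - 1 = S.card + N.card := by
    have h3 : ((Finset.univ : Finset (ZMod w)).erase 0).card = w - 1 := by
      rw [Finset.card_erase_of_mem (Finset.mem_univ _), Finset.card_univ, ZMod.card]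
    rw [← h3, ← Finset.card_union_of_disjoint]
    · congr 1
      ext b
      simp only [hS, hN, Finset.mem_erase, Finset.mem_univ, and_true, Finset.mem_union,
        Finset.mem_filter, true_and]
      constructor
      · intro hb
        by_cases h : IsSquare b
        · exact Or.inl ⟨hb, h⟩
        · exact Or.inr h
      · rintro (h | h)
        · exact h.1
        · rintro rfl; exact h ⟨0, by simp⟩
    · rw [Finset.disjoint_left]
      intro b hb hb'
      exact (Finset.mem_filter.mp hb').2 (Finset.mem_filter.mp hb).2.2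
  omega

lemma UD_finset (s : Finset ℕ) : UD (↑s : Set ℕ) 0 := by
  intro ε hε
  obtain ⟨N, hN⟩ := exists_nat_gt ((s.card : ℝ) / ε)
  filter_upwards [eventually_ge_atTop N] with x hx
  have h2 : (cnt (↑s : Set ℕ) x : ℝ) ≤ s.card := by
    have : cnt (↑s : Set ℕ) x ≤ s.card := by
      unfold cnt
      rw [← Set.ncard_coe_finset]
      exact Set.ncard_le_ncard Set.inter_subset_left (Finset.finite_toSet _)
    exact_mod_cast this
  have : (N : ℝ) ≤ x := by exact_mod_cast hx
  rw [div_lt_iff₀ hε] at hN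
  nlinarith

/-- the allowed pairs modulo one prime -/
lemma exists_pairs {w : ℕ} (hw : w.Prime) (hw2 : w ≠ 2) (ρ : ZMod w) :
    ∃ C : Finset (ZMod w × ZMod w), (C.card : ℝ) / ((w : ℝ) * (w - 1)) ≤ 1 - 1 / (2 * w) ∧
      ∀ b r : ZMod w, b ≠ 0 → ¬ (b * r = ρ ∧ ¬ IsSquare b) → (b, r) ∈ C := by
  classical
  have : Fact w.Prime := ⟨hw⟩
  have : NeZero w := ⟨hw.ne_zero⟩
  set N := (Finset.univ : Finset (ZMod w)).filter (fun b => ¬ IsSquare b) with hN
  set X := N.image (fun b => ((b, b⁻¹ * ρ) : ZMod w × ZMod w)) with hX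
  have hXc : X.card = N.card := by
    rw [hX, Finset.card_image_of_injective]
    intro a b h
    simp only [Prod.mk.injEq] at h
    exact h.1
  have hsub : X ⊆ ((Finset.univ : Finset (ZMod w)).erase 0) ×ˢ (Finset.univ : Finset (ZMod w)) := by
    intro z hz
    rw [hX, Finset.mem_image] at hz
    obtain ⟨b, hb, rfl⟩ := hz
    rw [Finset.mem_product]
    refine ⟨Finset.mem_erase.mpr ⟨?_, Finset.mem_univ _⟩, Finset.mem_univ _⟩
    rintro rfl
    exact (Finset.mem_filter.mp hb).2 ⟨0, by simp⟩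
  refine ⟨(((Finset.univ : Finset (ZMod w)).erase 0) ×ˢ (Finset.univ : Finset (ZMod w))) \ X,
    ?_, ?_⟩
  · rw [Finset.card_sdiff_of_subset hsub, hXc, Finset.card_product,
      Finset.card_erase_of_mem (Finset.mem_univ _), Finset.card_univ, ZMod.card]
    have h1 := two_mul_card_nonsquare hw hw2
    rw [← hN] at h1
    have hw1 : (2 : ℝ) ≤ w := by exact_mod_cast hw.two_le
    have h2 : N.card ≤ (w - 1) * w := by
      rw [← hXc]
      calc X.card ≤ _ := Finset.card_le_card hsub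
        _ = (w - 1) * w := by
          rw [Finset.card_product, Finset.card_erase_of_mem (Finset.mem_univ _),
            Finset.card_univ, ZMod.card]
    rw [Nat.cast_sub h2]
    have h3 : ((w - 1 : ℕ) : ℝ) = (w : ℝ) - 1 := by
      rw [Nat.cast_sub hw.one_lt.le, Nat.cast_one]
    have h4 : (w : ℝ) - 1 ≤ 2 * (N.card : ℝ) := by
      rw [← h3]; exact_mod_cast h1
    push_cast
    rw [h3]
    have h5 : (0 : ℝ) < (w : ℝ) * (w - 1) := by nlinarith
    rw [div_le_iff₀ h5]
    have h6 : (1 - 1 / (2 * (w : ℝ))) * ((w : ℝ) * (w - 1)) = ((w : ℝ) - 1) * w - (w - 1) / 2 := by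
      field_simp
    rw [h6]
    linarith
  · intro b r hb h
    rw [Finset.mem_sdiff, Finset.mem_product]
    refine ⟨⟨Finset.mem_erase.mpr ⟨hb, Finset.mem_univ _⟩, Finset.mem_univ _⟩, ?_⟩
    intro hmem
    rw [hX, Finset.mem_image] at hmem
    obtain ⟨b', hb', he⟩ := hmem
    simp only [Prod.mk.injEq] at he
    obtain ⟨rfl, rfl⟩ := he
    apply h
    refine ⟨?_, (Finset.mem_filter.mp hb').2⟩
    rw [← mul_assoc, mul_inv_cancel₀ hb, one_mul]

/-- Let `R w` be a nonempty set of residues modulo each prime `w` of an invertible residue class.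
The set of `n` with a prime factor `p > √n` such that for no `w ∈ s` both `n ∈ R w` and `p` is a
nonresidue modulo `w` has arbitrarily small upper density, for suitable finite `s`. -/
theorem UD_no_hit {K : ℕ} [NeZero K] {a : ZMod K} (ha : IsUnit a) (R : ∀ w : ℕ, ZMod w → Prop)
    (hR : ∀ w : ℕ, w.Prime → (w : ZMod K) = a → w ≠ 2 → ∃ ρ, R w ρ) {δ : ℝ} (hδ : 0 < δ) :
    ∃ s : Finset ℕ, (∀ w ∈ s, w.Prime ∧ (w : ZMod K) = a ∧ w ≠ 2) ∧
      UD {n : ℕ | ∃ p, p.Prime ∧ p ∣ n ∧ n < p ^ 2 ∧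
        ∀ w ∈ s, ¬ (R w (n : ZMod w) ∧ ¬ IsSquare (p : ZMod w))} δ := by
  classical
  -- the family of allowed pairs
  have hex : ∀ w : ℕ, ∃ C : Finset (ZMod w × ZMod w), w.Prime → (w : ZMod K) = a → w ≠ 2 →
      (C.card : ℝ) / ((w : ℝ) * (w - 1)) ≤ 1 - 1 / (2 * w) ∧
      ∀ b r : ZMod w, b ≠ 0 → ¬ (R w (b * r) ∧ ¬ IsSquare b) → (b, r) ∈ C := by
    intro w
    by_cases h : w.Prime ∧ (w : ZMod K) = a ∧ w ≠ 2
    · obtain ⟨ρ, hρ⟩ := hR w h.1 h.2.1 h.2.2
      obtain ⟨C, hC, hC'⟩ := exists_pairs h.1 h.2.2 ρ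
      refine ⟨C, fun _ _ _ => ⟨hC, fun b r hb hbr => hC' b r hb ?_⟩⟩
      rintro ⟨h1, h2⟩
      exact hbr ⟨by rw [h1]; exact hρ, h2⟩
    · exact ⟨∅, fun h1 h2 h3 => absurd ⟨h1, h2, h3⟩ h⟩
  choose C hC using hex
  -- choose `s`
  obtain ⟨s₀, hs₀, hK⟩ := AlmostAll29.exists_finset_sum_inv ha (-2 * Real.log (δ / 9) + 1 / 2)
  set s := s₀.erase 2 with hs
  have hsP : ∀ w ∈ s, w.Prime ∧ (w : ZMod K) = a ∧ w ≠ 2 := by
    intro w hw
    rw [hs, Finset.mem_erase] at hw
    exact ⟨(hs₀ w hw.2).1, (hs₀ w hw.2).2, hw.1⟩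
  have hK' : -2 * Real.log (δ / 9) ≤ ∑ w ∈ s, ((w : ℝ))⁻¹ := by
    have h1 : ∑ w ∈ s₀, ((w : ℝ))⁻¹ ≤ ∑ w ∈ s, ((w : ℝ))⁻¹ + 1 / 2 := by
      by_cases h2 : 2 ∈ s₀
      · rw [← Finset.sum_erase_add s₀ _ h2]
        norm_num [hs]
      · rw [hs, Finset.erase_eq_of_notMem h2]
        linarith
    linarith
  refine ⟨s, hsP, ?_⟩
  have h1 := Bilinear29.UD_pairs s (fun w hw => (hsP w hw).1) C
  have h2 : 9 * ∏ w ∈ s, ((C w).card : ℝ) / ((w : ℝ) * (w - 1)) ≤ δ := by
    have h3 : ∏ w ∈ s, ((C w).card : ℝ) / ((w : ℝ) * (w - 1)) ≤ δ / 9 := by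
      calc ∏ w ∈ s, ((C w).card : ℝ) / ((w : ℝ) * (w - 1))
          ≤ ∏ w ∈ s, Real.exp (-(1 / (2 * (w : ℝ)))) := by
            apply Finset.prod_le_prod
            · intro w hw
              have : (1 : ℝ) ≤ w := by exact_mod_cast (hsP w hw).1.one_lt.le
              have : (0 : ℝ) ≤ (w : ℝ) * (w - 1) := by nlinarith
              positivity
            · intro w hw
              have h4 := (hC w (hsP w hw).1 (hsP w hw).2.1 (hsP w hw).2.2).1
              have h5 := Real.add_one_le_exp (-(1 / (2 * (w : ℝ))))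
              linarith
        _ = Real.exp (-(1 / 2 * ∑ w ∈ s, ((w : ℝ))⁻¹)) := by
            rw [← Real.exp_sum, Finset.sum_neg_distrib, Finset.mul_sum]
            congr 2
            apply Finset.sum_congr rfl
            intro w _
            rw [one_div, mul_inv, one_div]
        _ ≤ Real.exp (Real.log (δ / 9)) := by
            apply Real.exp_le_exp.mpr
            linarith
        _ = δ / 9 := Real.exp_log (by positivity)
    linarith
  have h3 := (h1.le h2).union (UD_finset (Finset.range ((∏ w ∈ s, w) ^ 2)))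
  rw [add_zero] at h3
  refine h3.mono ?_
  rintro n ⟨p, hp, hpn, hnp, hno⟩
  by_cases hps : p ∈ s
  · right
    rw [Finset.coe_range, Set.mem_Iio]
    have h4 : p ≤ ∏ w ∈ s, w :=
      Nat.le_of_dvd (Finset.prod_pos (fun w hw => (hsP w hw).1.pos)) (Finset.dvd_prod_of_mem _ hps)
    calc n < p ^ 2 := hnp
      _ ≤ (∏ w ∈ s, w) ^ 2 := Nat.pow_le_pow_left h4 2
  · left
    refine ⟨p, hp, hpn, hnp, fun w hw => ?_⟩
    apply (hC w (hsP w hw).1 (hsP w hw).2.1 (hsP w hw).2.2).2
    · rw [ne_eq, ZMod.natCast_eq_zero_iff]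
      intro h
      exact hps (((Nat.prime_dvd_prime_iff_eq (hsP w hw).1 hp).mp h) ▸ hw)
    · have h4 : ((p : ZMod w)) * ((n / p : ℕ) : ZMod w) = (n : ZMod w) := by
        rw [← Nat.cast_mul, Nat.mul_div_cancel' hpn]
      rw [h4]
      exact hno w hw

end Pool.Agent.Lib.MP_79499b_co.EvenDensity29
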