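import Pool.Agent.Lib.MP_79499b_co.EvenDensity29
import Pool.Agent.Lib.MP_79499b_co.EvenExcl29

/-!
# Even `m`: integers with a large prime factor
-/

namespace Pool.Agent.Lib.MP_79499b_co.EvenFinal29

open Filter Topology Finset Density29 MonoidAlgebra

lemma class_facts {s w : ℕ} (hs : 0 < s)
    (h : (w : ZMod (4 * s)) = ((1 + 2 * s : ℕ) : ZMod (4 * s))) :
    ∃ k, w - 1 = 2 * s * (2 * k + 1) := by
  rw [ZMod.natCast_eq_natCast_iff] at h
  have h1 : w % (4 * s) = (1 + 2 * s) % (4 * s) := h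
  have h2 : (1 + 2 * s) % (4 * s) = 1 + 2 * s := Nat.mod_eq_of_lt (by omega)
  rw [h2] at h1
  refine ⟨w / (4 * s), ?_⟩
  have h3 := Nat.div_add_mod w (4 * s)
  rw [h1] at h3
  have : w = 4 * s * (w / (4 * s)) + (1 + 2 * s) := h3.symm
  calc w - 1 = 4 * s * (w / (4 * s)) + (1 + 2 * s) - 1 := by rw [← this]
    _ = 4 * s * (w / (4 * s)) + 2 * s := by omega
    _ = 2 * s * (2 * (w / (4 * s)) + 1) := by ring

lemma isUnit_class {s : ℕ} :
    IsUnit ((1 + 2 * s : ℕ) : ZMod (4 * s)) := by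
  rw [ZMod.isUnit_iff_coprime]
  have h1 : Nat.Coprime (1 + 2 * s) s := by
    rw [Nat.coprime_add_mul_right_left]
    exact Nat.coprime_one_left s
  have h2 : Nat.Coprime (1 + 2 * s) 4 := by
    have : Nat.Coprime (1 + 2 * s) 2 := by
      rw [Nat.coprime_two_right]
      exact ⟨s, by ring⟩
    exact Nat.Coprime.pow_right 2 this
  exact Nat.Coprime.mul_right h2 h1

lemma pow_half {w : ℕ} (hw : w.Prime) (hw2 : w ≠ 2) {z : ZMod w} (hz : ¬ IsSquare z) :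
    z ^ ((w - 1) / 2) = -1 := by
  have : Fact w.Prime := ⟨hw⟩
  have hz0 : z ≠ 0 := by rintro rfl; exact hz ⟨0, by simp⟩
  have h7 : w / 2 = (w - 1) / 2 := by
    have := hw.eq_two_or_odd
    omega
  rw [← h7]
  rcases ZMod.pow_div_two_eq_neg_one_or_one w hz0 with h | h
  · exact absurd ((ZMod.euler_criterion w hz0).mpr h) hz
  · exact h

lemma root_one {s w : ℕ} (hs : 0 < s) (hw : w.Prime) (hw2 : w ≠ 2)
    (h : (w : ZMod (4 * s)) = ((1 + 2 * s : ℕ) : ZMod (4 * s))) :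
    ∃ ρ : ZMod w, ρ ^ s = -1 := by
  have : Fact w.Prime := ⟨hw⟩
  obtain ⟨k, hk⟩ := class_facts hs h
  obtain ⟨z, hz⟩ : ∃ z : ZMod w, ¬ IsSquare z := FiniteField.exists_nonsquare (by
    rw [ZMod.ringChar_zmod_n]; exact hw2)
  refine ⟨z ^ (2 * k + 1), ?_⟩
  rw [← pow_mul, ← pow_half hw hw2 hz]
  congr 1
  rw [hk, mul_assoc, Nat.mul_div_cancel_left _ (by norm_num : 0 < 2)]
  ring

lemma root_two {s w : ℕ} (hs : 2 ≤ s) (hw : w.Prime)
    (h : (w : ZMod (4 * s)) = ((1 + 2 * s : ℕ) : ZMod (4 * s))) :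
    ∃ ρ : ZMod w, ∑ i ∈ range s, ρ ^ i = 0 := by
  have : Fact w.Prime := ⟨hw⟩
  obtain ⟨k, hk⟩ := class_facts (by omega) h
  have hr := Nat.minFac_prime (show s ≠ 1 by omega)
  have hrs := Nat.minFac_dvd s
  have hrw : s.minFac ∣ w - 1 := by
    rw [hk]
    exact (hrs.mul_left 2).mul_right _
  obtain ⟨ρ, hρ⟩ := AlmostAll29.exists_root hw hr hrw
  refine ⟨ρ, ?_⟩
  have h1 : ρ ^ s.minFac = 1 := by
    have := geom_sum_mul ρ s.minFac
    rw [hρ, zero_mul] at this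
    exact (sub_eq_zero.mp this.symm)
  have h2 : ρ ≠ 1 := by
    rintro rfl
    simp only [one_pow, Finset.sum_const, Finset.card_range, nsmul_eq_mul, mul_one] at hρ
    rw [ZMod.natCast_eq_zero_iff] at hρ
    have h3 := Nat.le_of_dvd hr.pos hρ
    have h4 := Nat.le_of_dvd (by have := hw.two_le; omega) hrw
    have := hw.two_le
    omega
  have h3 : ρ ^ s = 1 := by
    obtain ⟨c, hc⟩ := hrs
    rw [hc, pow_mul, h1, one_pow]
  have h4 := geom_sum_mul ρ s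
  rw [h3, sub_self] at h4
  rcases mul_eq_zero.mp h4 with h5 | h5
  · exact h5
  · exact absurd (sub_eq_zero.mp h5) h2

/-- The exclusion: an abelian difference set with Singer parameters `(n, 2s)`, a prime `p ∣ n` with
`λ < p^(2s-2)`, and primes `w₁, w₂` of the class `1 + 2s` modulo `4s`. -/
theorem exclusion {n s p w₁ w₂ : ℕ} (hn : 2 ≤ n) (hs : 2 ≤ s) (hp : p.Prime) (hpn : p ∣ n)
    (hlarge : n ^ (2 * s - 2) - 1 < p ^ (2 * s - 2) * (n - 1))
    (hw₁ : w₁.Prime) (hw₂ : w₂.Prime) (h2₁ : w₁ ≠ 2) (h2₂ : w₂ ≠ 2)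
    (hc₁ : (w₁ : ZMod (4 * s)) = ((1 + 2 * s : ℕ) : ZMod (4 * s)))
    (hc₂ : (w₂ : ZMod (4 * s)) = ((1 + 2 * s : ℕ) : ZMod (4 * s)))
    (hr₁ : (n : ZMod w₁) ^ s = -1) (hr₂ : ∑ i ∈ range s, (n : ZMod w₂) ^ i = 0)
    (hq₁ : ¬ IsSquare (p : ZMod w₁)) (hq₂ : ¬ IsSquare (p : ZMod w₂))
    (G : Type) [CommGroup G] [Fintype G] [DecidableEq G]
    (hG : Fintype.card G * (n - 1) = n ^ (2 * s) - 1) (D : Finset G)
    (hD : D.card * (n - 1) = n ^ (2 * s - 1) - 1)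
    (hlam : ∀ g : G, g ≠ 1 →
      ((D ×ˢ D).filter (fun p : G × G => p.1 * p.2⁻¹ = g)).card * (n - 1) = n ^ (2 * s - 2) - 1) :
    False := by
  have : Fact w₁.Prime := ⟨hw₁⟩
  have : Fact w₂.Prime := ⟨hw₂⟩
  have hn1 : 0 < n - 1 := by omega
  have hgeom : ∀ t : ℕ, (∑ i ∈ Finset.range t, n ^ i) * (n - 1) = n ^ t - 1 := by
    intro t
    rw [Nat.geomSum_eq hn, Nat.div_mul_cancel]
    exact Nat.sub_one_dvd_pow_sub_one n t
  have hv : Fintype.card G = ∑ i ∈ Finset.range (2 * s), n ^ i := by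
    apply Nat.eq_of_mul_eq_mul_right hn1
    rw [hG, hgeom]
  have hk : D.card = ∑ i ∈ Finset.range (2 * s - 1), n ^ i := by
    apply Nat.eq_of_mul_eq_mul_right hn1
    rw [hD, hgeom]
  set lam := ∑ i ∈ Finset.range (2 * s - 2), n ^ i with hlamdef
  have hlam' : ∀ g : G, g ≠ 1 →
      ((D ×ˢ D).filter (fun p : G × G => p.1 * p.2⁻¹ = g)).card = lam := by
    intro g hg
    apply Nat.eq_of_mul_eq_mul_right hn1
    rw [hlam g hg, hgeom]
  have hkl : D.card = lam + n ^ (2 * s - 2) := by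
    rw [hk, hlamdef, ← Finset.sum_range_succ]
    congr 2
    omega
  have hlt : lam < p ^ (2 * s - 2) := by
    have h1 : lam * (n - 1) < p ^ (2 * s - 2) * (n - 1) := by rw [hgeom]; exact hlarge
    exact Nat.lt_of_mul_lt_mul_right h1
  -- the group ring equation
  have hD1 := el_mul_iv D (lam := (lam : ℤ)) (fun g hg => by exact_mod_cast hlam' g hg)
  have hN : ((D.card : ℤ) - lam) = (((n : ℤ) ^ (s - 1)) ^ 2) := by
    rw [hkl, ← pow_mul]
    push_cast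
    have : (s - 1) * 2 = 2 * s - 2 := by omega
    rw [this]
    ring
  rw [hN] at hD1
  -- the powers of `n` modulo the two primes
  have hsum1 : ∀ {R : Type} [CommRing R] (x : R), ∑ i ∈ range (2 * s - 1), x ^ i =
      ∑ i ∈ range s, x ^ i + x ^ s * ∑ i ∈ range (s - 1), x ^ i := by
    intro R _ x
    have : 2 * s - 1 = s + (s - 1) := by omega
    rw [this, Finset.sum_range_add, Finset.mul_sum]
    congr 1
    exact Finset.sum_congr rfl (fun i _ => by rw [pow_add])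
  have hsum2 : ∀ {R : Type} [CommRing R] (x : R), ∑ i ∈ range (2 * s), x ^ i =
      ∑ i ∈ range s, x ^ i * (1 + x ^ s) := by
    intro R _ x
    have : 2 * s = s + s := by omega
    rw [this, Finset.sum_range_add, ← Finset.sum_mul, mul_add, mul_one, Finset.sum_mul]
    congr 1
    exact Finset.sum_congr rfl (fun i _ => by rw [pow_add]; ring)
  have hsum3 : ∀ {R : Type} [CommRing R] (x : R), ∑ i ∈ range s, x ^ i =
      ∑ i ∈ range (s - 1), x ^ i + x ^ (s - 1) := by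
    intro R _ x
    rw [← Finset.sum_range_succ]
    congr 2
    omega
  have hG₁ : w₁ ∣ Nat.card G := by
    rw [Nat.card_eq_fintype_card, hv, ← ZMod.natCast_eq_zero_iff]
    push_cast
    rw [hsum2, hr₁]
    simp
  have hG₂ : w₂ ∣ Nat.card G := by
    rw [Nat.card_eq_fintype_card, hv, ← ZMod.natCast_eq_zero_iff]
    push_cast
    rw [hsum2, ← Finset.sum_mul, hr₂, zero_mul]
  have hns₂ : (n : ZMod w₂) ^ s = 1 := by
    have := geom_sum_mul (n : ZMod w₂) s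
    rw [hr₂, zero_mul] at this
    exact (sub_eq_zero.mp this.symm)
  have hN₁ : ¬ (w₁ : ℤ) ∣ (n : ℤ) ^ (s - 1) := by
    intro h
    rw [← ZMod.intCast_zmod_eq_zero_iff_dvd] at h
    push_cast at h
    have h1 : (n : ZMod w₁) = 0 := eq_zero_of_pow_eq_zero h
    rw [h1, zero_pow (by omega)] at hr₁
    exact one_ne_zero (neg_eq_zero.mp hr₁.symm)
  have hN₂ : ¬ (w₂ : ℤ) ∣ (n : ℤ) ^ (s - 1) := by
    intro h
    rw [← ZMod.intCast_zmod_eq_zero_iff_dvd] at h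
    push_cast at h
    have h1 : (n : ZMod w₂) = 0 := eq_zero_of_pow_eq_zero h
    rw [h1, zero_pow (by omega)] at hns₂
    exact zero_ne_one hns₂
  have hk₁ : (w₁ : ℤ) ∣ D.card - (n : ℤ) ^ (s - 1) := by
    rw [← ZMod.intCast_zmod_eq_zero_iff_dvd, hk]
    push_cast
    rw [hsum1, hr₁, hsum3]
    ring
  have hk₂ : (w₂ : ℤ) ∣ D.card + (n : ℤ) ^ (s - 1) := by
    rw [← ZMod.intCast_zmod_eq_zero_iff_dvd, hk]
    push_cast
    rw [hsum1, hr₂, hns₂]
    have := hsum3 (n : ZMod w₂)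
    rw [hr₂] at this
    rw [zero_add, one_mul, ← this]
  -- the exponent
  obtain ⟨k₁, hk1⟩ := class_facts (by omega) hc₁
  obtain ⟨k₂, hk2⟩ := class_facts (by omega) hc₂
  have hh₁ : (w₁ - 1) / 2 = s * (2 * k₁ + 1) := by
    rw [hk1, mul_assoc, Nat.mul_div_cancel_left _ (by norm_num : 0 < 2)]
  have hh₂ : (w₂ - 1) / 2 = s * (2 * k₂ + 1) := by
    rw [hk2, mul_assoc, Nat.mul_div_cancel_left _ (by norm_num : 0 < 2)]
  have hp₁ := pow_half hw₁ h2₁ hq₁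
  have hp₂ := pow_half hw₂ h2₂ hq₂
  rw [hh₁] at hp₁
  rw [hh₂] at hp₂
  set j := s * (2 * k₁ + 1) * (2 * k₂ + 1) with hj
  have ht₁ : w₁ ∣ p ^ j + 1 := by
    rw [← ZMod.natCast_eq_zero_iff]
    push_cast
    rw [hj, pow_mul, hp₁, Odd.neg_one_pow ⟨k₂, rfl⟩]
    ring
  have ht₂ : w₂ ∣ p ^ j + 1 := by
    rw [← ZMod.natCast_eq_zero_iff]
    push_cast
    have : j = s * (2 * k₂ + 1) * (2 * k₁ + 1) := by rw [hj]; ring
    rw [this, pow_mul, hp₂, Odd.neg_one_pow ⟨k₁, rfl⟩]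
    ring
  -- the multiplier theorem
  have hcop : (Nat.card G).Coprime p := by
    rw [Nat.coprime_comm, Nat.Prime.coprime_iff_not_dvd hp, Nat.card_eq_fintype_card]
    intro h
    have h2 : p ∣ n ^ (2 * s) - 1 := by rw [← hG]; exact h.mul_right _
    have h3 : p ∣ n ^ (2 * s) := dvd_pow hpn (by omega)
    have h4 : 1 ≤ n ^ (2 * s) := Nat.one_le_pow _ _ (by omega)
    have h5 : p ∣ n ^ (2 * s) - (n ^ (2 * s) - 1) := Nat.dvd_sub h3 h2
    have h6 : n ^ (2 * s) - (n ^ (2 * s) - 1) = 1 := by omega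
    rw [h6] at h5
    exact hp.one_lt.ne' (Nat.dvd_one.mp h5)
  have hmult := multiplier D hD1 (by positivity) hp hcop (e := 2 * s - 2) (by
      rw [← pow_mul]
      have : (s - 1) * 2 = 2 * s - 2 := by omega
      rw [this]
      exact pow_dvd_pow_of_dvd (by exact_mod_cast hpn) _) (by exact_mod_cast hlt) j
  exact EvenExcl29.even_excl D hD1 hmult hw₁ hw₂ h2₁ h2₂ hG₁ hG₂ ht₁ ht₂ hk₁ hk₂ hN₁ hN₂

/-- Almost all `n` with a prime factor `p` such that `λ < p^(m-2)` have no abelian difference set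
with the Singer parameters `(n, m)`, `m = 2s ≥ 4`. -/
theorem UD_even {s : ℕ} (hs : 2 ≤ s) :
    UD {n : ℕ | 2 ≤ n ∧ ∃ p : ℕ, p.Prime ∧ p ∣ n ∧
      n ^ (2 * s - 2) - 1 < p ^ (2 * s - 2) * (n - 1) ∧
      ∃ (G : Type) (_ : CommGroup G) (_ : Fintype G) (_ : DecidableEq G) (D : Finset G),
        Fintype.card G * (n - 1) = n ^ (2 * s) - 1 ∧
        D.card * (n - 1) = n ^ (2 * s - 1) - 1 ∧
        ∀ g : G, g ≠ 1 →
          ((D ×ˢ D).filter (fun p : G × G => p.1 * p.2⁻¹ = g)).card * (n - 1) =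
            n ^ (2 * s - 2) - 1} 0 := by
  classical
  have : NeZero (4 * s) := ⟨by omega⟩
  apply UD_zero_of_forall
  intro δ hδ
  obtain ⟨s₁, hs₁, h₁⟩ := EvenDensity29.UD_no_hit (K := 4 * s)
    (a := ((1 + 2 * s : ℕ) : ZMod (4 * s))) isUnit_class
    (fun w ρ => ρ ^ s = -1) (fun w hw hc hw2 => root_one (by omega) hw hw2 hc)
    (half_pos hδ)
  obtain ⟨s₂, hs₂, h₂⟩ := EvenDensity29.UD_no_hit (K := 4 * s)
    (a := ((1 + 2 * s : ℕ) : ZMod (4 * s))) isUnit_class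
    (fun w ρ => ∑ i ∈ range s, ρ ^ i = 0) (fun w hw hc _ => root_two hs hw hc)
    (half_pos hδ)
  have h₃ := h₁.union h₂
  rw [add_halves] at h₃
  refine h₃.mono ?_
  rintro n ⟨hn, p, hp, hpn, hlarge, G, _, _, _, D, hG, hD, hlam⟩
  -- `p > √n`
  have hnp : n < p ^ 2 := by
    by_contra hcon
    push Not at hcon
    have h1 : n ^ (2 * s - 3) * (n - 1) ≤ n ^ (2 * s - 2) - 1 := by
      have h2 : n ^ (2 * s - 2) = n ^ (2 * s - 3) * n := by
        rw [← pow_succ]; congr 1; omega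
      rw [h2, Nat.mul_sub, mul_one]
      have : 1 ≤ n ^ (2 * s - 3) := Nat.one_le_pow _ _ (by omega)
      omega
    have h3 : n ^ (2 * s - 3) * (n - 1) < p ^ (2 * s - 2) * (n - 1) := by omega
    have h4 : n ^ (2 * s - 3) < p ^ (2 * s - 2) := Nat.lt_of_mul_lt_mul_right h3
    have h5 : p ^ (2 * s - 2) = (p ^ 2) ^ (s - 1) := by
      rw [← pow_mul]; congr 1; omega
    have h6 : (p ^ 2) ^ (s - 1) ≤ n ^ (s - 1) := Nat.pow_le_pow_left hcon _
    have h7 : n ^ (s - 1) ≤ n ^ (2 * s - 3) := Nat.pow_le_pow_right (by omega) (by omega)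
    omega
  by_contra hcon
  rw [Set.mem_union, not_or] at hcon
  obtain ⟨hc₁, hc₂⟩ := hcon
  have hc₁' : ∃ w ∈ s₁, (n : ZMod w) ^ s = -1 ∧ ¬ IsSquare (p : ZMod w) := by
    by_contra h
    apply hc₁
    refine ⟨p, hp, hpn, hnp, fun w hw h' => h ⟨w, hw, h'⟩⟩
  have hc₂' : ∃ w ∈ s₂, ∑ i ∈ range s, (n : ZMod w) ^ i = 0 ∧ ¬ IsSquare (p : ZMod w) := by
    by_contra h
    apply hc₂
    refine ⟨p, hp, hpn, hnp, fun w hw h' => h ⟨w, hw, h'⟩⟩
  obtain ⟨w₁, hw₁, hr₁, hq₁⟩ := hc₁'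
  obtain ⟨w₂, hw₂, hr₂, hq₂⟩ := hc₂'
  exact exclusion hn hs hp hpn hlarge (hs₁ w₁ hw₁).1 (hs₂ w₂ hw₂).1 (hs₁ w₁ hw₁).2.2
    (hs₂ w₂ hw₂).2.2 (hs₁ w₁ hw₁).2.1 (hs₂ w₂ hw₂).2.1 hr₁ hr₂ hq₁ hq₂ G hG D hD hlam

end Pool.Agent.Lib.MP_79499b_co.EvenFinal29
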