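import Pool.Agent.Lib.MP_79499b_co.EvenFinal29

/-!
# Even `m`, abelian groups: almost all `n` with a large prime factor are excluded

Let `m ≥ 4` be even.  The set of all `n` which have a prime factor `p` with `p^(m-2) > λ` and for
which some abelian group of order `(n^m - 1)/(n - 1)` contains a difference set with the Singer
parameters has natural density zero.
-/

set_option autoImplicit false

open Filter Topology

namespace Pool.Agent.Lib.MP_79499b_co.EvenLargePrimeFactorOld

open Pool.Agent.Lib.MP_79499b_co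

/-- For every even `m ≥ 4`, the set of all `n ≥ 2` such that `n` has a prime factor `p` with
`p^(m-2) (n-1) > n^(m-2) - 1` (that is, `p^(m-2) > λ`) and some finite abelian group `G` of order
`(n^m - 1)/(n - 1)` contains a difference set `D` with the Singer parameters, has natural density
zero. -/
theorem result (m : ℕ) (hm : 4 ≤ m) (heven : Even m) :
    Tendsto (fun x : ℕ => (Set.ncard {n : ℕ | 2 ≤ n ∧ n < x ∧
      (∃ p : ℕ, p.Prime ∧ p ∣ n ∧ n ^ (m - 2) - 1 < p ^ (m - 2) * (n - 1)) ∧
      ∃ (G : Type) (_ : CommGroup G) (_ : Fintype G) (_ : DecidableEq G) (D : Finset G),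
        Fintype.card G * (n - 1) = n ^ m - 1 ∧
        D.card * (n - 1) = n ^ (m - 1) - 1 ∧
        ∀ g : G, g ≠ 1 →
          ((D ×ˢ D).filter (fun p : G × G => p.1 * p.2⁻¹ = g)).card * (n - 1) =
            n ^ (m - 2) - 1} : ℝ) / x) atTop (𝓝 0) := by
  obtain ⟨s, hs⟩ := heven
  have hs' : m = 2 * s := by omega
  subst hs'
  have h3 := Density29.tendsto_of_UD_zero (EvenFinal29.UD_even (s := s) (by omega))
  refine h3.congr (fun x => ?_)
  congr 2
  unfold Density29.cnt
  congr 1
  ext n
  constructor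
  · rintro ⟨⟨h4, p, hp, hpn, hl, h5⟩, h6⟩
    exact ⟨h4, h6, ⟨p, hp, hpn, hl⟩, h5⟩
  · rintro ⟨h4, h6, ⟨p, hp, hpn, hl⟩, h5⟩
    exact ⟨⟨h4, p, hp, hpn, hl, h5⟩, h6⟩

end Pool.Agent.Lib.MP_79499b_co.EvenLargePrimeFactorOld
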