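import Pool.Agent.Lib.MP_79499b_co.Semimultiplier

/-!
# Singer parameters with `m = 4`: the difference set consists of a line and a transversal
-/

namespace Pool.Agent.Lib.MP_79499b_co.FourLineStructureOld

open Finset
open Pool.Agent.Lib.MP_79499b_co (Semimultiplier)

/-- Let `G` be a finite group with a difference set `D` with the Singer parameters for `m = 4` and
let `φ : G → Q` be a surjection onto an abelian group whose order is divisible by `n²+1`.  Assume
that some semimultiplier `s` on `Q` satisfies `x^((s+1)(n+1)) = 1` for all `x ∈ Q`.  Then `Q` has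
exactly one subgroup `A` of index `n²+1`, one coset of `K = φ⁻¹(A)` (a normal subgroup of order
`n+1`) is contained in `D`, and every other coset of `K` contains exactly one element of `D`. -/
theorem result (n : ℕ) (hn : 2 ≤ n) (G : Type) [Group G] [Fintype G] [DecidableEq G]
    (hG : Fintype.card G * (n - 1) = n ^ 4 - 1)
    (D : Finset G) (hk : D.card * (n - 1) = n ^ 3 - 1)
    (hD : ∀ g : G, g ≠ 1 →
      ((D ×ˢ D).filter (fun x : G × G => x.1 * x.2⁻¹ = g)).card * (n - 1) = n ^ 2 - 1)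
    (Q : Type) [CommGroup Q] (φ : G →* Q) (hφ : Function.Surjective φ)
    (hQ : n ^ 2 + 1 ∣ Nat.card Q)
    (s : ℕ) (hs : Semimultiplier n (Nat.card φ.ker) Q s)
    (hinv : ∀ x : Q, x ^ ((s + 1) * (n + 1)) = 1) :
    ∃ A : Subgroup Q, A.index = n ^ 2 + 1 ∧ (∀ B : Subgroup Q, B.index = n ^ 2 + 1 → B = A) ∧
      ∃ c : G, (∀ g : G, φ (g * c⁻¹) ∈ A → g ∈ D) ∧
        ∀ g : G, φ (g * c⁻¹) ∉ A → ∃! d : G, d ∈ D ∧ φ (d * g⁻¹) ∈ A :=
  Pool.Agent.Lib.MP_79499b_co.line_final n hn G hG D hk hD Q φ hφ hQ s hs hinv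

end Pool.Agent.Lib.MP_79499b_co.FourLineStructureOld
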