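import Pool.Agent.Lib.MP_79499b_co.Semimultiplier

/-!
# Singer parameters with `m = 4`: semimultipliers trivial modulo a subgroup of order `n+1`
-/

namespace Pool.Agent.Lib.MP_79499b_co.FourSemimultipliersOld

open Finset
open Pool.Agent.Lib.MP_79499b_co (Semimultiplier)

/-- Let `G` be a finite group with a difference set `D` with the Singer parameters for `m = 4` and
let `φ : G → Q` be a surjection onto an abelian group whose order is divisible by `n²+1`.  Let `s`
be a semimultiplier on `Q` with `x^((s+1)(n+1)) = 1` for all `x ∈ Q`.  Then each semimultiplier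
`t` on `Q` with `x^(t(n+1)) = x^(n+1)` for all `x ∈ Q` satisfies `x^t = x` for all `x ∈ Q`. -/
theorem result (n : ℕ) (hn : 2 ≤ n) (G : Type) [Group G] [Fintype G] [DecidableEq G]
    (hG : Fintype.card G * (n - 1) = n ^ 4 - 1)
    (D : Finset G) (hk : D.card * (n - 1) = n ^ 3 - 1)
    (hD : ∀ g : G, g ≠ 1 →
      ((D ×ˢ D).filter (fun x : G × G => x.1 * x.2⁻¹ = g)).card * (n - 1) = n ^ 2 - 1)
    (Q : Type) [CommGroup Q] (φ : G →* Q) (hφ : Function.Surjective φ)
    (hQ : n ^ 2 + 1 ∣ Nat.card Q)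
    (s : ℕ) (hs : Semimultiplier n (Nat.card φ.ker) Q s)
    (hinv : ∀ x : Q, x ^ ((s + 1) * (n + 1)) = 1)
    (t : ℕ) (ht : Semimultiplier n (Nat.card φ.ker) Q t)
    (hfix : ∀ x : Q, x ^ (t * (n + 1)) = x ^ (n + 1)) :
    ∀ x : Q, x ^ t = x :=
  Pool.Agent.Lib.MP_79499b_co.twist_final n hn G hG D hk hD Q φ hφ hQ s hs hinv t ht hfix

end Pool.Agent.Lib.MP_79499b_co.FourSemimultipliersOld
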