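import Mathlib.Algebra.MonoidAlgebra.Basic
import Mathlib.Algebra.CharP.Lemmas
import Mathlib.Algebra.CharP.Algebra
import Mathlib.FieldTheory.Finite.Basic
import Mathlib.GroupTheory.OrderOfElement
import Mathlib.Algebra.Order.BigOperators.Ring.Finset
import Mathlib.Tactic

/-!
# Elementary group ring tools for abelian difference sets

Everything here is for a finite abelian group `G`, written multiplicatively, and its integral
group ring `ℤ[G] = MonoidAlgebra ℤ G`.
-/

namespace Pool.Agent.Lib.MP_79499b_co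

open Finset MonoidAlgebra

section basic

variable {G : Type*} [CommGroup G]

/-- The ring endomorphism `X ↦ X^{(t)}` of `ℤ[G]` induced by the power map `x ↦ x ^ t`. -/
noncomputable def pw (t : ℕ) : MonoidAlgebra ℤ G →+* MonoidAlgebra ℤ G :=
  mapDomainRingHom ℤ (powMonoidHom t)

/-- The ring endomorphism `X ↦ X^{(-1)}` of `ℤ[G]` induced by inversion. -/
noncomputable def iv : MonoidAlgebra ℤ G →+* MonoidAlgebra ℤ G :=
  mapDomainRingHom ℤ invMonoidHom

@[simp] lemma pw_single (t : ℕ) (g : G) (c : ℤ) : pw t (single g c) = single (g ^ t) c := by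
  simp [pw]

@[simp] lemma iv_single (g : G) (c : ℤ) : iv (single g c) = single g⁻¹ c := by
  simp [iv]

lemma ringHom_ext' {R : Type*} [CommRing R] {f h : MonoidAlgebra ℤ G →+* R}
    (H : ∀ g : G, f (single g 1) = h (single g 1)) : f = h := by
  apply MonoidAlgebra.ringHom_ext
  · intro r
    have h1 : (single (1 : G) r : MonoidAlgebra ℤ G) = (r : MonoidAlgebra ℤ G) := by
      rw [MonoidAlgebra.intCast_def]
      simp
    rw [h1, map_intCast, map_intCast]
  · exact H

lemma pw_pw (s t : ℕ) (X : MonoidAlgebra ℤ G) : pw s (pw t X) = pw (s * t) X := by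
  have : (pw s).comp (pw t) = (pw (s * t) : MonoidAlgebra ℤ G →+* _) :=
    ringHom_ext' fun g => by simp [← pow_mul, mul_comm]
  exact congrArg (fun f => f X) this

lemma pw_iv (t : ℕ) (X : MonoidAlgebra ℤ G) : pw t (iv X) = iv (pw t X) := by
  have : (pw t).comp iv = iv.comp (pw t : MonoidAlgebra ℤ G →+* _) :=
    ringHom_ext' fun g => by simp
  exact congrArg (fun f => f X) this

lemma iv_iv (X : MonoidAlgebra ℤ G) : iv (iv X) = X := by
  have : (iv).comp iv = RingHom.id (MonoidAlgebra ℤ G) :=
    ringHom_ext' fun g => by simp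
  exact congrArg (fun f => f X) this

lemma pw_eq_self {t : ℕ} (ht : ∀ g : G, g ^ t = g) (X : MonoidAlgebra ℤ G) : pw t X = X := by
  have : pw t = RingHom.id (MonoidAlgebra ℤ G) :=
    ringHom_ext' fun g => by simp [ht]
  exact congrArg (fun f => f X) this

lemma pw_eq_iv {t : ℕ} (ht : ∀ g : G, g ^ t = g⁻¹) (X : MonoidAlgebra ℤ G) :
    pw t X = iv X := by
  have : pw t = (iv : MonoidAlgebra ℤ G →+* _) :=
    ringHom_ext' fun g => by simp [ht]
  exact congrArg (fun f => f X) this

/-- divisibility by an integer is coefficientwise -/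
lemma intCast_dvd_iff (c : ℤ) (X : MonoidAlgebra ℤ G) :
    ((c : ℤ) : MonoidAlgebra ℤ G) ∣ X ↔ ∀ g, c ∣ X.coeff g := by
  have hc : ∀ Y : MonoidAlgebra ℤ G, ((c : ℤ) : MonoidAlgebra ℤ G) * Y = c • Y := by
    intro Y; rw [zsmul_eq_mul]
  constructor
  · rintro ⟨Y, rfl⟩ g
    rw [hc, coeff_smul_apply]
    exact dvd_mul_right _ _
  · intro h
    classical
    choose f hf using h
    refine ⟨ofCoeff (Finsupp.onFinset (X.coeff.support) (fun g => if X.coeff g = 0 then 0 else f g)
      ?_), ?_⟩
    · intro g hg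
      rw [Finsupp.mem_support_iff]
      intro h0
      simp [h0] at hg
    · rw [hc]
      ext g
      rw [coeff_smul_apply]
      simp only [Finsupp.onFinset_apply, smul_eq_mul]
      by_cases h0 : X.coeff g = 0
      · simp [h0]
      · simp [h0, ← hf]

end basic

section modp

variable {G : Type*} [CommGroup G] (p : ℕ) [hp : Fact p.Prime]

/-- reduction modulo `p` -/
noncomputable def rd : MonoidAlgebra ℤ G →+* MonoidAlgebra (ZMod p) G :=
  mapRingHom G (Int.castRingHom (ZMod p))

lemma rd_eq_zero_iff (X : MonoidAlgebra ℤ G) :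
    rd p X = 0 ↔ ((p : ℤ) : MonoidAlgebra ℤ G) ∣ X := by
  rw [intCast_dvd_iff]
  constructor
  · intro h g
    have := congrArg (fun Y => Y.coeff g) h
    simp only [rd, coeff_zero, Finsupp.coe_zero, Pi.zero_apply] at this
    rw [← ZMod.intCast_zmod_eq_zero_iff_dvd]
    simpa [mapRingHom] using this
  · intro h
    ext g
    have := h g
    rw [← ZMod.intCast_zmod_eq_zero_iff_dvd] at this
    simpa [rd, mapRingHom] using this

instance : CharP (MonoidAlgebra (ZMod p) G) p :=
  charP_of_injective_algebraMap' (ZMod p) p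

lemma pow_prime_pow (Y : MonoidAlgebra (ZMod p) G) (s : ℕ) :
    Y ^ p ^ s = mapDomain (fun g => g ^ p ^ s) Y := by
  induction Y using MonoidAlgebra.induction_linear with
  | zero => simp [hp.out.ne_zero]
  | add X Y hX hY =>
    rw [add_pow_char_pow, hX, hY, mapDomain_add]
  | single g c =>
    rw [MonoidAlgebra.single_pow, mapDomain_single, ZMod.pow_card_pow]

lemma rd_pw (X : MonoidAlgebra ℤ G) (s : ℕ) : rd p (pw (p ^ s) X) = (rd p X) ^ p ^ s := by
  rw [pow_prime_pow]
  induction X using MonoidAlgebra.induction_linear with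
  | zero => simp
  | add X Y hX hY => rw [map_add, map_add, hX, hY, map_add, mapDomain_add]
  | single g c =>
    rw [pw_single]
    simp [rd, mapRingHom]

lemma reduced [Finite G] (hG : (Nat.card G).Coprime p) (Y : MonoidAlgebra (ZMod p) G) {m : ℕ}
    (hY : Y ^ m = 0) : Y = 0 := by
  have h1 : Y ^ p ^ m = 0 := by
    have : m ≤ p ^ m := (Nat.lt_pow_self hp.out.one_lt).le
    rw [← Nat.sub_add_cancel this, pow_add, hY, mul_zero]
  rw [pow_prime_pow] at h1
  have hinj : Function.Injective (fun g : G => g ^ p ^ m) := by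
    have hc : (Nat.card G).Coprime (p ^ m) := hG.pow_right m
    exact (powCoprime hc).injective
  have := mapDomain_injective (R := ZMod p) hinj
  apply this
  rw [h1, mapDomain_zero]

end modp

section key

variable {G : Type*} [CommGroup G] [Finite G]

/-- Key divisibility lemma: if `p ∤ |G|` and `p^(e f)` divides the product of the `f ≥ 1`
Frobenius conjugates `E^{(p^{s_i})}`, then `p^e` divides `E`. -/
lemma dvd_of_dvd_prod {p : ℕ} (hp : p.Prime) (hG : (Nat.card G).Coprime p) {f : ℕ} (hf : 0 < f)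
    (s : ℕ → ℕ) : ∀ (e : ℕ) (E : MonoidAlgebra ℤ G),
    (((p : ℤ) ^ (e * f) : ℤ) : MonoidAlgebra ℤ G) ∣ ∏ i ∈ range f, pw (p ^ s i) E →
    (((p : ℤ) ^ e : ℤ) : MonoidAlgebra ℤ G) ∣ E := by
  have : Fact p.Prime := ⟨hp⟩
  intro e
  induction e with
  | zero => intro E _; simp
  | succ e ih =>
    intro E hE
    have h1 : ((p : ℤ) : MonoidAlgebra ℤ G) ∣ ∏ i ∈ range f, pw (p ^ s i) E := by
      refine dvd_trans ?_ hE
      have : (p : ℤ) ∣ (p : ℤ) ^ ((e + 1) * f) := dvd_pow_self _ (by positivity)
      exact map_dvd (Int.castRingHom (MonoidAlgebra ℤ G)) this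
    have h2 : (rd p E) ^ (∑ i ∈ range f, p ^ s i) = 0 := by
      rw [← rd_eq_zero_iff, map_prod] at h1
      rw [← Finset.prod_pow_eq_pow_sum, ← h1]
      exact Finset.prod_congr rfl fun i _ => (rd_pw p E (s i)).symm
    have h3 := reduced p hG _ h2
    rw [rd_eq_zero_iff] at h3
    obtain ⟨E', rfl⟩ := h3
    have h4 : ∏ i ∈ range f, pw (p ^ s i) (((p : ℤ) : MonoidAlgebra ℤ G) * E')
        = (((p : ℤ) ^ f : ℤ) : MonoidAlgebra ℤ G) * ∏ i ∈ range f, pw (p ^ s i) E' := by
      simp_rw [map_mul, map_intCast]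
      rw [Finset.prod_mul_distrib, Finset.prod_const, card_range, Int.cast_pow]
    rw [h4] at hE
    have h5 : (((p : ℤ) ^ (e * f) : ℤ) : MonoidAlgebra ℤ G) ∣ ∏ i ∈ range f, pw (p ^ s i) E' := by
      rw [intCast_dvd_iff] at hE ⊢
      intro g
      have := hE g
      rw [← zsmul_eq_mul, coeff_smul_apply, smul_eq_mul, add_mul, one_mul, pow_add, mul_comm] at this
      exact Int.dvd_of_mul_dvd_mul_left (pow_ne_zero _ (by exact_mod_cast hp.ne_zero)) this
    have h6 := ih E' h5
    rw [pow_succ, Int.cast_mul, mul_comm (((p : ℤ) ^ e : ℤ) : MonoidAlgebra ℤ G)]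
    exact mul_dvd_mul_left _ h6

end key

section fin

variable {G : Type*} [CommGroup G] [Fintype G]

/-- augmentation: sum of the coefficients, as a ring homomorphism -/
noncomputable def aug : MonoidAlgebra ℤ G →+* ℤ :=
  (MonoidAlgebra.lift ℤ ℤ G (1 : G →* ℤ)).toRingHom

omit [Fintype G] in
@[simp] lemma aug_single (g : G) (c : ℤ) : aug (single g c) = c := by
  simp [aug]

lemma aug_eq_sum (X : MonoidAlgebra ℤ G) : aug X = ∑ g, X.coeff g := by
  induction X using MonoidAlgebra.induction_linear with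
  | zero => simp
  | add X Y hX hY => rw [map_add, hX, hY, ← Finset.sum_add_distrib]; rfl
  | single g c =>
    classical
    rw [aug_single]
    simp [Finsupp.single_apply]

omit [Fintype G] in
lemma aug_pw (t : ℕ) (X : MonoidAlgebra ℤ G) : aug (pw t X) = aug X := by
  have : aug.comp (pw t) = (aug : MonoidAlgebra ℤ G →+* ℤ) :=
    ringHom_ext' fun g => by simp
  exact congrArg (fun f => f X) this

omit [Fintype G] in
lemma aug_iv (X : MonoidAlgebra ℤ G) : aug (iv X) = aug X := by
  have : aug.comp iv = (aug : MonoidAlgebra ℤ G →+* ℤ) :=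
    ringHom_ext' fun g => by simp
  exact congrArg (fun f => f X) this

/-- convolution formula -/
lemma coeff_mul_eq_sum (X Y : MonoidAlgebra ℤ G) (g : G) :
    (X * Y).coeff g = ∑ x, X.coeff x * Y.coeff (x⁻¹ * g) := by
  classical
  induction X using MonoidAlgebra.induction_linear with
  | zero => simp
  | add X Z hX hZ =>
    rw [add_mul, coeff_add, Finsupp.add_apply, hX, hZ, ← Finset.sum_add_distrib]
    exact Finset.sum_congr rfl fun x _ => by rw [coeff_add, Finsupp.add_apply]; ring
  | single a c =>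
    rw [coeff_single_mul_apply]
    rw [Finset.sum_eq_single a]
    · simp
    · intro b _ hb
      rw [coeff_single, Finsupp.single_eq_of_ne hb, zero_mul]
    · simp

omit [Fintype G] in
lemma coeff_iv (X : MonoidAlgebra ℤ G) (g : G) : (iv X).coeff g = X.coeff g⁻¹ := by
  classical
  induction X using MonoidAlgebra.induction_linear with
  | zero => simp
  | add X Z hX hZ => rw [map_add, coeff_add, Finsupp.add_apply, hX, hZ]; rfl
  | single a c => simp [Finsupp.single_apply, inv_eq_iff_eq_inv]

/-- coefficient of `X · Y^{(-1)}` -/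
lemma coeff_mul_iv (X Y : MonoidAlgebra ℤ G) (g : G) :
    (X * iv Y).coeff g = ∑ x, X.coeff (g * x) * Y.coeff x := by
  rw [coeff_mul_eq_sum]
  rw [← Equiv.sum_comp (Equiv.mulLeft g)]
  refine Finset.sum_congr rfl fun x _ => ?_
  rw [coeff_iv]
  simp

/-- group ring element of a finite set -/
noncomputable def el (D : Finset G) : MonoidAlgebra ℤ G := ∑ d ∈ D, single d 1

omit [Fintype G] in
lemma coeff_el [DecidableEq G] (D : Finset G) (g : G) :
    (el D).coeff g = if g ∈ D then 1 else 0 := by
  rw [el, coeff_sum, Finsupp.finsetSum_apply]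
  simp [Finsupp.single_apply]

omit [Fintype G] in
lemma aug_el (D : Finset G) : aug (el D) = D.card := by
  simp [el]

/-- `X · G = aug X · G` -/
lemma mul_el_univ (X : MonoidAlgebra ℤ G) : X * el univ = (aug X : MonoidAlgebra ℤ G) * el univ := by
  classical
  ext g
  rw [coeff_mul_eq_sum, ← zsmul_eq_mul, coeff_smul_apply, aug_eq_sum]
  simp [coeff_el]

lemma pw_el_univ {t : ℕ} (ht : (Nat.card G).Coprime t) : pw t (el (univ : Finset G)) = el univ := by
  have hinj : Function.Bijective (fun g : G => g ^ t) := (powCoprime ht).bijective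
  rw [el, map_sum]
  simp_rw [pw_single]
  exact Equiv.sum_comp (Equiv.ofBijective _ hinj) (fun g => single g (1 : ℤ))

lemma iv_el_univ : iv (el (univ : Finset G)) = el univ := by
  rw [el, map_sum]
  simp_rw [iv_single]
  exact Equiv.sum_comp (Equiv.inv G) (fun g => single g (1 : ℤ))

omit [Fintype G] in
lemma intCast_mul_cancel {c : ℤ} (hc : c ≠ 0) {X Y : MonoidAlgebra ℤ G}
    (h : (c : MonoidAlgebra ℤ G) * X = (c : MonoidAlgebra ℤ G) * Y) : X = Y := by
  rw [← zsmul_eq_mul, ← zsmul_eq_mul] at h
  ext g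
  have := congrArg (fun Z => Z.coeff g) h
  simp only [coeff_smul_apply, smul_eq_mul] at this
  exact mul_left_cancel₀ hc this

/-- A nonnegative element `F` with `F F^{(-1)} = M²` and augmentation `M > 0` is trivial. -/
lemma trivial_of_nonneg {F : MonoidAlgebra ℤ G} {M : ℤ} (hM : 0 < M) (h0 : ∀ g, 0 ≤ F.coeff g)
    (haug : aug F = M) (h1 : (F * iv F).coeff 1 = M ^ 2) : ∃ h : G, F = single h M := by
  classical
  rw [coeff_mul_iv] at h1
  simp only [one_mul] at h1
  rw [aug_eq_sum] at haug
  have hex : ∃ h, F.coeff h ≠ 0 := by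
    by_contra hc
    push Not at hc
    simp [hc] at haug
    omega
  obtain ⟨h, hh⟩ := hex
  have hpos : 0 < F.coeff h := lt_of_le_of_ne (h0 h) (Ne.symm hh)
  have hle : ∀ g, F.coeff g ≤ M := fun g => by
    rw [← haug]; exact Finset.single_le_sum (fun i _ => h0 i) (mem_univ g)
  -- M * sum F = sum F^2
  have h2 : ∑ g, F.coeff g * (M - F.coeff g) = 0 := by
    simp_rw [mul_sub]
    rw [Finset.sum_sub_distrib, ← Finset.sum_mul, haug, h1]; ring
  have h3 : ∀ g, F.coeff g * (M - F.coeff g) = 0 := by
    intro g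
    have := (Finset.sum_eq_zero_iff_of_nonneg
      (fun i _ => mul_nonneg (h0 i) (by have := hle i; omega))).mp h2 g (mem_univ g)
    exact this
  have hFh : F.coeff h = M := by
    rcases mul_eq_zero.mp (h3 h) with h | h
    · exact absurd h hh
    · omega
  refine ⟨h, ?_⟩
  ext g
  rw [coeff_single]
  by_cases hg : g = h
  · subst hg; simp [hFh]
  · rw [Finsupp.single_eq_of_ne hg]
    by_contra hne
    have hFg : F.coeff g = M := by
      rcases mul_eq_zero.mp (h3 g) with h | h
      · exact absurd h hne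
      · omega
    have : F.coeff g + F.coeff h ≤ ∑ x, F.coeff x := by
      rw [← Finset.sum_pair hg]
      exact Finset.sum_le_sum_of_subset_of_nonneg (subset_univ _) (fun i _ _ => h0 i)
    rw [haug] at this
    omega

end fin

end Pool.Agent.Lib.MP_79499b_co
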