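import Pool.Agent.Lib.MP_79499b_co.General

/-!
# Images of Singer-parameter difference sets (`m = 4`) in abelian groups
-/

namespace Pool.Agent.Lib.MP_79499b_co

open Finset MonoidAlgebra

/-- A nonnegative element of `ℤ[B]`, `|B| = n²+1`, with the equation of the image of the
difference set, on which some `x ↦ x^(l^j)` acts like inversion up to a translation. -/
lemma trivial_quotient {B : Type} [CommGroup B] [Fintype B] {n : ℕ} (hn : 2 ≤ n)
    (hB : Nat.card B = n ^ 2 + 1) (X : MonoidAlgebra ℤ B) (hnn : ∀ y, 0 ≤ X.coeff y)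
    (haug : aug X = (n : ℤ) ^ 2 + n + 1)
    (hX : X * iv X = (((n : ℤ) ^ 2 : ℤ) : MonoidAlgebra ℤ B)
      + ((((n : ℤ) + 1) ^ 2 : ℤ) : MonoidAlgebra ℤ B) * el univ)
    {l : ℕ} (hl : l.Prime) (hln : l ∣ n) (j : ℕ)
    (hs : ∃ g : B, iv X = single g 1 * pw (l ^ j) X) :
    ∃ c : B, X.coeff c = 1 + (n : ℤ) ∧ ∀ y, y ≠ c → X.coeff y = 1 := by
  classical
  have hcop : (n ^ 2 + 1).Coprime n := by
    rw [Nat.coprime_comm, sq]; simp
  have hcopl : (Nat.card B).Coprime l := by rw [hB]; exact hcop.coprime_dvd_right hln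
  have hcoplj : (Nat.card B).Coprime (l ^ j) := hcopl.pow_right j
  set u : MonoidAlgebra ℤ B := el univ with hu
  have hcardB : ((univ : Finset B).card : ℤ) = (n : ℤ) ^ 2 + 1 := by
    rw [Finset.card_univ, ← Nat.card_eq_fintype_card, hB]; push_cast; ring
  have huu : u * u = (((n : ℤ) ^ 2 + 1 : ℤ) : MonoidAlgebra ℤ B) * u := by
    rw [hu, mul_el_univ, aug_el, hcardB]
  have hXu : X * u = (((n : ℤ) ^ 2 + n + 1 : ℤ) : MonoidAlgebra ℤ B) * u := by
    rw [hu, mul_el_univ, haug]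
  have hiXu : iv X * u = (((n : ℤ) ^ 2 + n + 1 : ℤ) : MonoidAlgebra ℤ B) * u := by
    rw [hu, mul_el_univ, aug_iv, haug]
  set E := X - u with hE
  have hivE : iv E = iv X - u := by rw [hE, map_sub, hu, iv_el_univ]
  have hEE : E * iv E = (((n : ℤ) ^ 2 : ℤ) : MonoidAlgebra ℤ B) := by
    rw [hivE, hE]
    push_cast at hX huu hXu hiXu ⊢
    linear_combination hX - hXu - hiXu + huu
  have haugE : aug E = n := by
    rw [hE, map_sub, haug, hu, aug_el, hcardB]; ring
  obtain ⟨g, hg⟩ := hs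
  have hEinv : iv E = single g 1 * pw (l ^ j) E := by
    have h1 : single g (1 : ℤ) * u = u := by rw [hu, mul_el_univ]; simp
    rw [hivE, hg, hE, map_sub, hu, pw_el_univ hcoplj, mul_sub, ← hu, h1]
  have hdvd : (((l : ℤ) ^ 1 : ℤ) : MonoidAlgebra ℤ B) ∣ E := by
    refine dvd_of_dvd_prod hl hcopl (f := 2) (by norm_num) (fun i => if i = 0 then 0 else j)
      1 E ?_
    rw [Finset.prod_range_succ, Finset.prod_range_one]
    simp only [if_true, pow_zero, one_ne_zero, if_false]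
    rw [pw_eq_self (by simp)]
    have h3 : single g 1 * (E * pw (l ^ j) E) = (((n : ℤ) ^ 2 : ℤ) : MonoidAlgebra ℤ B) := by
      rw [← hEE, hEinv]; ring
    have h4 : E * pw (l ^ j) E = single g⁻¹ 1 * (((n : ℤ) ^ 2 : ℤ) : MonoidAlgebra ℤ B) := by
      rw [← h3, ← mul_assoc, MonoidAlgebra.single_mul_single]
      simp [← MonoidAlgebra.one_def]
    rw [h4]
    refine Dvd.dvd.mul_left ?_ _
    refine map_dvd (Int.castRingHom (MonoidAlgebra ℤ B)) ?_
    have : (l : ℤ) ∣ n := Int.natCast_dvd_natCast.mpr hln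
    rw [one_mul]
    exact pow_dvd_pow_of_dvd this 2
  obtain ⟨F, hF⟩ := hdvd
  rw [pow_one] at hF
  obtain ⟨d, hd⟩ := hln
  have hl2 : (2 : ℤ) ≤ (l : ℤ) := by exact_mod_cast hl.two_le
  have hlpos : (0 : ℤ) < (l : ℤ) := by omega
  have hdpos : 0 < d := by
    rcases Nat.eq_zero_or_pos d with h | h
    · subst h; omega
    · exact h
  have hnld : (n : ℤ) = l * d := by rw [hd]; push_cast; ring
  have haugF : aug F = d := by
    have h1 : aug E = (l : ℤ) * aug F := by rw [hF, map_mul, map_intCast]; simp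
    rw [haugE, hnld] at h1
    exact (mul_left_cancel₀ hlpos.ne' h1).symm
  have hFF : F * iv F = (((d : ℤ) ^ 2 : ℤ) : MonoidAlgebra ℤ B) := by
    have h1 : (((l : ℤ) ^ 2 : ℤ) : MonoidAlgebra ℤ B) * (F * iv F)
        = (((l : ℤ) ^ 2 : ℤ) : MonoidAlgebra ℤ B) * (((d : ℤ) ^ 2 : ℤ) : MonoidAlgebra ℤ B) := by
      have h2 : E * iv E = (((l : ℤ) ^ 2 : ℤ) : MonoidAlgebra ℤ B) * (F * iv F) := by
        rw [hF, map_mul, map_intCast]; push_cast; ring
      rw [← h2, hEE, hnld]; push_cast; ring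
    exact intCast_mul_cancel (pow_ne_zero 2 hlpos.ne') h1
  have hFnonneg : ∀ y, 0 ≤ F.coeff y := by
    intro y
    have h1 : E.coeff y = (l : ℤ) * F.coeff y := by
      rw [hF, ← zsmul_eq_mul, coeff_smul_apply, smul_eq_mul]
    have h2 : -1 ≤ E.coeff y := by
      rw [hE, coeff_sub, Finsupp.sub_apply, hu, coeff_el]
      have := hnn y
      simp only [mem_univ, if_true]
      omega
    by_contra hneg
    push Not at hneg
    nlinarith
  obtain ⟨c, hc⟩ := trivial_of_nonneg (M := (d : ℤ)) (by exact_mod_cast hdpos)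
    hFnonneg haugF (by rw [hFF, MonoidAlgebra.intCast_def]; simp)
  have h0 : X = u + E := by rw [hE]; ring
  have h1 : ∀ y, X.coeff y = 1 + (if c = y then (n : ℤ) else 0) := by
    intro y
    rw [h0, hF, hc, coeff_add, Finsupp.add_apply, hu, coeff_el, ← zsmul_eq_mul, coeff_smul_apply,
      coeff_single, Finsupp.single_apply, hnld]
    simp
  refine ⟨c, ?_, fun y hy => ?_⟩
  · rw [h1, if_pos rfl]
  · rw [h1, if_neg (Ne.symm hy), add_zero]

/-- Normal form of the image of the difference set. -/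
lemma normal_form {Q : Type} [CommGroup Q] [Fintype Q] [DecidableEq Q] {n κ : ℕ}
    (A : Subgroup Q) [DecidablePred (· ∈ A)] (hA : κ * Nat.card A = n + 1) (X : MonoidAlgebra ℤ Q)
    (hnn : ∀ x, 0 ≤ X.coeff x) (hle : ∀ x, X.coeff x ≤ κ)
    (hc : ∃ c : Q ⧸ A, (pr (QuotientGroup.mk' A) X).coeff c = 1 + (n : ℤ) ∧
      ∀ y, y ≠ c → (pr (QuotientGroup.mk' A) X).coeff y = 1) :
    ∃ (g : Q) (S : Finset Q), single g 1 * X
        = ((κ : ℤ) : MonoidAlgebra ℤ Q) * el (univ.filter (· ∈ A)) + el S ∧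
      (∀ y ∈ S, y ∉ A) ∧ (∀ y ∈ S, ∀ z ∈ S, z * y⁻¹ ∈ A → z = y) ∧
      (∀ x : Q, x ∉ A → ∃ y ∈ S, x * y⁻¹ ∈ A) := by
  classical
  obtain ⟨c, hc1, hc2⟩ := hc
  obtain ⟨g₀, rfl⟩ := QuotientGroup.mk'_surjective A c
  have hc : ∀ y, (pr (QuotientGroup.mk' A) X).coeff y
      = 1 + (if y = QuotientGroup.mk' A g₀ then (n : ℤ) else 0) := by
    intro y
    by_cases hy : y = QuotientGroup.mk' A g₀
    · rw [if_pos hy, hy, hc1]
    · rw [if_neg hy, hc2 y hy, add_zero]
  set Y := single g₀⁻¹ 1 * X with hY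
  have hYc : ∀ x, Y.coeff x = X.coeff (g₀ * x) := by
    intro x
    rw [hY, coeff_single_mul_apply]; simp
  have hmk : ∀ x y : Q, QuotientGroup.mk' A x = QuotientGroup.mk' A y ↔ x * y⁻¹ ∈ A := by
    intro x y
    have h1 : QuotientGroup.mk' A (x * y⁻¹) = 1 ↔ x * y⁻¹ ∈ A := QuotientGroup.eq_one_iff _
    rw [← h1, map_mul, map_inv, mul_inv_eq_one]
  -- coset sums
  have hsum : ∀ x : Q, ∑ z, (if z * x⁻¹ ∈ A then Y.coeff z else 0)
      = 1 + (if x ∈ A then (n : ℤ) else 0) := by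
    intro x
    have h1 := hc (QuotientGroup.mk' A (g₀ * x))
    rw [coeff_mapDomain] at h1
    have h2 : (QuotientGroup.mk' A (g₀ * x) = QuotientGroup.mk' A g₀) ↔ x ∈ A := by
      rw [hmk]; simp
    simp only [h2] at h1
    rw [← h1, ← Equiv.sum_comp (Equiv.mulLeft g₀) (fun z => if QuotientGroup.mk' A z
      = QuotientGroup.mk' A (g₀ * x) then X.coeff z else 0)]
    refine Finset.sum_congr rfl fun z _ => ?_
    rw [Equiv.coe_mulLeft, hYc]
    have h3 : QuotientGroup.mk' A (g₀ * z) = QuotientGroup.mk' A (g₀ * x) ↔ z * x⁻¹ ∈ A := by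
      rw [hmk]
      have : g₀ * z * (g₀ * x)⁻¹ = z * x⁻¹ := by
        rw [mul_inv_rev, mul_comm g₀ z, mul_assoc, mul_comm x⁻¹, ← mul_assoc g₀, mul_inv_cancel,
          one_mul]
      rw [this]
    simp only [h3]
  have hYnn : ∀ x, 0 ≤ Y.coeff x := fun x => by rw [hYc]; exact hnn _
  have hYle : ∀ x, Y.coeff x ≤ κ := fun x => by rw [hYc]; exact hle _
  -- on `A` the coefficient is `κ`
  have hcardA : ((univ.filter (· ∈ A)).card : ℤ) = Nat.card A := by
    rw [Nat.card_eq_fintype_card, Fintype.card_subtype]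
  have hYA : ∀ x, x ∈ A → Y.coeff x = κ := by
    have h1 := hsum 1
    rw [if_pos A.one_mem] at h1
    simp only [inv_one, mul_one] at h1
    have h2 : ∑ z, (if z ∈ A then ((κ : ℤ) - Y.coeff z) else 0) = 0 := by
      have h3 : ∑ z, (if z ∈ A then ((κ : ℤ) - Y.coeff z) else 0)
          = ∑ z, (if z ∈ A then (κ : ℤ) else 0) - ∑ z, (if z ∈ A then Y.coeff z else 0) := by
        rw [← Finset.sum_sub_distrib]
        refine Finset.sum_congr rfl fun z _ => ?_
        split_ifs <;> simp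
      rw [h3, h1, ← Finset.sum_filter, Finset.sum_const, nsmul_eq_mul, hcardA]
      have : ((κ * Nat.card A : ℕ) : ℤ) = (n : ℤ) + 1 := by rw [hA]; push_cast; ring
      push_cast at this
      linarith
    intro x hx
    have h4 := (Finset.sum_eq_zero_iff_of_nonneg (fun i _ => by
      split_ifs
      · have := hYle i; omega
      · exact le_rfl)).mp h2 x (mem_univ x)
    rw [if_pos hx] at h4
    omega
  have hY1 : ∀ x, x ∉ A → Y.coeff x ≤ 1 := by
    intro x hx
    have h1 := hsum x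
    rw [if_neg hx, add_zero] at h1
    rw [← h1]
    have h2 := Finset.single_le_sum (f := fun z => if z * x⁻¹ ∈ A then Y.coeff z else 0)
      (fun i _ => by
        show 0 ≤ (if i * x⁻¹ ∈ A then Y.coeff i else 0)
        split_ifs
        exacts [hYnn i, le_rfl]) (mem_univ x)
    simpa [A.one_mem] using h2
  refine ⟨g₀⁻¹, univ.filter (fun x => x ∉ A ∧ Y.coeff x = 1), ?_, ?_, ?_, ?_⟩
  · rw [← hY]
    ext x
    rw [coeff_add, Finsupp.add_apply, ← zsmul_eq_mul, coeff_smul_apply, coeff_el, coeff_el]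
    by_cases hx : x ∈ A
    · simp [hx, hYA x hx]
    · have h0 := hYnn x
      have h1 := hY1 x hx
      have h2 : Y.coeff x = 0 ∨ Y.coeff x = 1 := by omega
      rcases h2 with h2 | h2 <;> simp [hx, h2]
  · intro y hy
    exact (mem_filter.mp hy).2.1
  · intro y hy z hz hzy
    by_contra hne
    obtain ⟨-, hyA, hy1⟩ := mem_filter.mp hy
    obtain ⟨-, hzA, hz1⟩ := mem_filter.mp hz
    have h1 := hsum y
    rw [if_neg hyA, add_zero] at h1
    have h2 : ∑ w ∈ ({y, z} : Finset Q), (if w * y⁻¹ ∈ A then Y.coeff w else 0) ≤ 1 := by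
      rw [← h1]
      exact Finset.sum_le_sum_of_subset_of_nonneg (subset_univ _)
        (fun i _ _ => by split_ifs; exacts [hYnn i, le_rfl])
    rw [Finset.sum_pair (Ne.symm hne)] at h2
    simp only [mul_inv_cancel, A.one_mem, if_true, hzy, hy1, hz1] at h2
    omega
  · intro x hx
    have h1 := hsum x
    rw [if_neg hx, add_zero] at h1
    have h2 : ∃ z, (if z * x⁻¹ ∈ A then Y.coeff z else 0) ≠ 0 := by
      by_contra hcon
      push Not at hcon
      rw [Finset.sum_eq_zero (fun z _ => hcon z)] at h1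
      omega
    obtain ⟨z, hz⟩ := h2
    have hzx : z * x⁻¹ ∈ A := by
      by_contra h
      rw [if_neg h] at hz
      exact hz rfl
    rw [if_pos hzx] at hz
    have hzA : z ∉ A := by
      intro h
      apply hx
      have h3 : (z * x⁻¹)⁻¹ * z ∈ A := A.mul_mem (A.inv_mem hzx) h
      simpa using h3
    refine ⟨z, mem_filter.mpr ⟨mem_univ z, hzA, ?_⟩, ?_⟩
    · have h0 := hYnn z
      have h1 := hY1 z hzA
      omega
    · have := A.inv_mem hzx
      simpa using this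

/-- coefficient of `D^{(t)} E^{(-1)}` -/
lemma coeff_pw_mul_iv_two {G : Type} [CommGroup G] [DecidableEq G] (D E : Finset G) (t : ℕ)
    (x : G) :
    (pw t (el D) * iv (el E)).coeff x = ((D.filter (fun d => d ^ t * x⁻¹ ∈ E)).card : ℤ) := by
  have h1 : pw t (el D) * iv (el E) = ∑ d ∈ D, ∑ e ∈ E, single (d ^ t * e⁻¹) (1 : ℤ) := by
    rw [el, el, map_sum, map_sum, Finset.sum_mul_sum]
    refine Finset.sum_congr rfl fun d _ => Finset.sum_congr rfl fun e _ => ?_
    rw [pw_single, iv_single, MonoidAlgebra.single_mul_single, mul_one]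
  rw [h1, coeff_sum, Finsupp.finsetSum_apply, Finset.card_filter, Nat.cast_sum]
  refine Finset.sum_congr rfl fun d _ => ?_
  rw [coeff_sum, Finsupp.finsetSum_apply]
  simp_rw [coeff_single, Finsupp.single_apply]
  by_cases hd : d ^ t * x⁻¹ ∈ E
  · rw [if_pos hd, Finset.sum_eq_single (d ^ t * x⁻¹)]
    · simp
    · intro e _ he
      rw [if_neg]
      intro h
      apply he
      rw [← h]; simp
    · exact fun h => absurd hd h
  · rw [if_neg hd, Finset.sum_eq_zero]
    · simp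
    · intro e he
      rw [if_neg]
      intro h
      apply hd
      rw [← h]; simpa using he

/-- The key twist lemma. -/
lemma twist_gen {Q : Type} [CommGroup Q] [Fintype Q] [DecidableEq Q] {n κ : ℕ}
    (A : Subgroup Q) [DecidablePred (· ∈ A)] (hA : κ * Nat.card A = n + 1)
    (X : MonoidAlgebra ℤ Q) (S : Finset Q)
    (hX : X = ((κ : ℤ) : MonoidAlgebra ℤ Q) * el (univ.filter (· ∈ A)) + el S)
    (hSA : ∀ y ∈ S, y ∉ A) (hS : ∀ y ∈ S, ∀ z ∈ S, z * y⁻¹ ∈ A → z = y)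
    (hXX : X * iv X = (((n : ℤ) ^ 2 : ℤ) : MonoidAlgebra ℤ Q)
      + (((κ : ℤ) * ((n : ℤ) + 1) : ℤ) : MonoidAlgebra ℤ Q) * el univ)
    {l b : ℕ} (hl : l.Prime) (hb : 0 < b) (hlb : l ^ b ∣ n) (hlb' : ¬ l ^ (b + 1) ∣ n)
    (t : ℕ) (ht : ∀ x : Q, x ^ t * x⁻¹ ∈ A)
    (hdvd : (((l : ℤ) ^ (2 * b) : ℤ) : MonoidAlgebra ℤ Q) ∣
      pw t X * iv X - (((κ : ℤ) * ((n : ℤ) + 1) : ℤ) : MonoidAlgebra ℤ Q) * el univ) :
    ∀ x : Q, x ^ t = x := by
  classical
  set θ : Q →* Q := (powMonoidHom t : Q →* Q) * (invMonoidHom : Q →* Q) with hθ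
  have hθx : ∀ x, θ x = x ^ t * x⁻¹ := fun x => rfl
  set Af : Finset Q := univ.filter (· ∈ A) with hAf
  have hmemAf : ∀ x, x ∈ Af ↔ x ∈ A := fun x => by simp [hAf]
  have hcardA : (Af.card : ℤ) = Nat.card A := by
    rw [hAf, Nat.card_eq_fintype_card, Fintype.card_subtype]
  have hκA : (κ : ℤ) * (Nat.card A : ℤ) = (n : ℤ) + 1 := by exact_mod_cast hA
  -- arithmetic
  obtain ⟨d, hd⟩ := hlb
  have hld : ¬ l ∣ d := by
    intro h
    apply hlb'
    rw [hd, pow_succ]
    exact mul_dvd_mul_left _ h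
  have hcopd : (l ^ (2 * b)).Coprime (d ^ 2) :=
    Nat.Coprime.pow _ _ ((Nat.Prime.coprime_iff_not_dvd hl).mpr hld)
  have hcopn : (l ^ (2 * b)).Coprime ((n + 1) ^ 2) := by
    apply Nat.Coprime.pow
    have h1 : (n + 1).Coprime n := by simp
    have h2 : l ∣ n := (dvd_pow_self l hb.ne').trans ⟨d, hd⟩
    exact (h1.coprime_dvd_right h2).symm
  have hbig : 2 < l ^ (2 * b) := by
    have h1 : 2 ^ 2 ≤ l ^ 2 := Nat.pow_le_pow_left hl.two_le 2
    have h2 : l ^ 2 ≤ l ^ (2 * b) := Nat.pow_le_pow_right hl.pos (by omega)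
    omega
  have hno2 : ¬ l ^ (2 * b) ∣ 2 := fun h => by
    have := Nat.le_of_dvd (by norm_num) h
    omega
  -- step 1 : fibres of θ on S
  have hfib : ∀ α ∈ A, (pw t X * iv X).coeff α
      = (κ : ℤ) * ((n : ℤ) + 1) + ((S.filter (fun y => θ y = α)).card : ℤ) := by
    intro α hα
    have h1 : pw t X * iv X = ((κ : ℤ) ^ 2 : ℤ) • (pw t (el Af) * iv (el Af))
        + (κ : ℤ) • (pw t (el Af) * iv (el S)) + (κ : ℤ) • (pw t (el S) * iv (el Af))
        + pw t (el S) * iv (el S) := by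
      rw [hX]
      simp only [map_add, map_mul, map_intCast, zsmul_eq_mul]
      push_cast
      ring
    rw [h1]
    simp only [coeff_add, Finsupp.add_apply, coeff_smul_apply, coeff_pw_mul_iv_two, smul_eq_mul]
    have e1 : Af.filter (fun d => d ^ t * α⁻¹ ∈ Af) = Af := by
      apply Finset.filter_true_of_mem
      intro x hx
      rw [hmemAf] at hx ⊢
      exact A.mul_mem (A.pow_mem hx t) (A.inv_mem hα)
    have e2 : Af.filter (fun d => d ^ t * α⁻¹ ∈ S) = ∅ := by
      apply Finset.filter_false_of_mem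
      intro x hx hxS
      rw [hmemAf] at hx
      exact hSA _ hxS (A.mul_mem (A.pow_mem hx t) (A.inv_mem hα))
    have e3 : S.filter (fun d => d ^ t * α⁻¹ ∈ Af) = ∅ := by
      apply Finset.filter_false_of_mem
      intro x hx hxA
      rw [hmemAf] at hxA
      apply hSA x hx
      have h2 : (x ^ t * x⁻¹)⁻¹ * ((x ^ t * α⁻¹) * α) ∈ A :=
        A.mul_mem (A.inv_mem (ht x)) (A.mul_mem hxA hα)
      have h3 : (x ^ t * x⁻¹)⁻¹ * ((x ^ t * α⁻¹) * α) = x := by
        rw [inv_mul_cancel_right, mul_inv_rev, inv_inv, mul_assoc, inv_mul_cancel, mul_one]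
      rwa [h3] at h2
    have e4 : S.filter (fun d => d ^ t * α⁻¹ ∈ S) = S.filter (fun y => θ y = α) := by
      apply Finset.filter_congr
      intro x hx
      constructor
      · intro h
        have h2 : x ^ t * α⁻¹ = x := by
          apply hS x hx _ h
          have h3 : x ^ t * α⁻¹ * x⁻¹ = (x ^ t * x⁻¹) * α⁻¹ := by
            rw [mul_assoc, mul_comm α⁻¹, ← mul_assoc]
          rw [h3]
          exact A.mul_mem (ht x) (A.inv_mem hα)
        rw [hθx]
        have h4 : x ^ t = x * α := by rw [← mul_inv_eq_iff_eq_mul]; exact h2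
        rw [h4, mul_comm x α, mul_inv_cancel_right]
      · intro h
        have h2 : x ^ t * α⁻¹ = x := by
          rw [← h, hθx, mul_inv_rev, inv_inv, mul_comm x, ← mul_assoc, mul_inv_cancel, one_mul]
        rw [h2]; exact hx
    rw [e1, e2, e3, e4, hcardA]
    simp only [card_empty, Nat.cast_zero, mul_zero, add_zero]
    linear_combination (κ : ℤ) * hκA
  have hV : (((l : ℤ) ^ (2 * b) : ℤ) : MonoidAlgebra ℤ Q) ∣ pr θ (el S) := by
    rw [intCast_dvd_iff] at hdvd ⊢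
    intro α
    rw [coeff_pr_el]
    by_cases hα : α ∈ A
    · have h1 := hdvd α
      rw [coeff_sub, Finsupp.sub_apply, hfib α hα, ← zsmul_eq_mul, coeff_smul_apply, coeff_el] at h1
      simpa using h1
    · rw [Finset.filter_false_of_mem]
      · simp
      · intro x _ h
        apply hα
        rw [← h]
        exact ht x
  obtain ⟨V, hV⟩ := hV
  -- the image of X under θ
  set Z := pr θ X with hZ
  have hZZ : Z * iv Z = (((n : ℤ) ^ 2 : ℤ) : MonoidAlgebra ℤ Q)
      + (((κ : ℤ) * ((n : ℤ) + 1) : ℤ) : MonoidAlgebra ℤ Q) * pr θ (el univ) := by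
    rw [hZ, ← pr_iv, ← map_mul, hXX, map_add, map_mul, map_intCast, map_intCast]
  have hZX : Z = ((κ : ℤ) : MonoidAlgebra ℤ Q) * pr θ (el Af)
      + (((l : ℤ) ^ (2 * b) : ℤ) : MonoidAlgebra ℤ Q) * V := by
    rw [hZ, hX, map_add, map_mul, map_intCast, hV]
  have hinv : ∀ g : Q, single (θ g) 1 * pr θ (el univ) = pr θ (el univ) := by
    intro g
    rw [← pr_single, ← map_mul, mul_el_univ]; simp
  have hσ : ∀ s : Q, s ≠ 1 → ((1 - single s 1) * iv (1 - single s 1) : MonoidAlgebra ℤ Q).coeff 1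
      = 2 := by
    intro s hs
    have h1 : ((1 - single s 1) * iv (1 - single s 1) : MonoidAlgebra ℤ Q)
        = single 1 2 - single s 1 - single s⁻¹ 1 := by
      have h2 : (single s 1 * single s⁻¹ 1 : MonoidAlgebra ℤ Q) = 1 := by
        rw [MonoidAlgebra.single_mul_single, MonoidAlgebra.one_def]; simp
      have h3 : (single 1 2 : MonoidAlgebra ℤ Q) = 2 := by
        rw [MonoidAlgebra.ofNat_def]
      rw [map_sub, map_one, iv_single, h3]
      linear_combination h2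
    rw [h1]
    simp [hs]
  have hmain : ∀ g : Q, (1 - single (θ g) 1) * iv (1 - single (θ g) 1) * (Z * iv Z)
      = (((n : ℤ) ^ 2 : ℤ) : MonoidAlgebra ℤ Q)
        * ((1 - single (θ g) 1) * iv (1 - single (θ g) 1)) := by
    intro g
    rw [hZZ]
    linear_combination (-iv (1 - single (θ g) 1) *
      (((κ : ℤ) * ((n : ℤ) + 1) : ℤ) : MonoidAlgebra ℤ Q)) * hinv g
  by_contra hcon
  push Not at hcon
  obtain ⟨x₀, hx₀⟩ := hcon
  have hx₀' : θ x₀ ≠ 1 := by
    rw [hθx]; intro h; exact hx₀ (mul_inv_eq_one.mp h)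
  by_cases hcase : ∃ a ∈ A, θ a ≠ 1
  · obtain ⟨a, ha, hane⟩ := hcase
    have h1 : single (θ a) 1 * pr θ (el Af) = pr θ (el Af) := by
      rw [← pr_single, ← map_mul]
      congr 1
      rw [el, Finset.mul_sum]
      simp_rw [MonoidAlgebra.single_mul_single, mul_one]
      refine Finset.sum_bij (fun x _ => a * x) ?_ ?_ ?_ ?_
      · intro x hx
        rw [hmemAf] at hx ⊢
        exact A.mul_mem ha hx
      · intro x _ y _ h
        exact mul_left_cancel h
      · intro y hy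
        rw [hmemAf] at hy
        exact ⟨a⁻¹ * y, by rw [hmemAf]; exact A.mul_mem (A.inv_mem ha) hy, by simp⟩
      · intro x _; rfl
    have h2 : (1 - single (θ a) 1) * Z
        = (((l : ℤ) ^ (2 * b) : ℤ) : MonoidAlgebra ℤ Q) * ((1 - single (θ a) 1) * V) := by
      rw [hZX]
      linear_combination (-((κ : ℤ) : MonoidAlgebra ℤ Q)) * h1
    have h3 : (((l : ℤ) ^ (2 * b)) ^ 2 : ℤ) • (((1 - single (θ a) 1) * V)
          * iv ((1 - single (θ a) 1) * V))
        = ((n : ℤ) ^ 2 : ℤ) • ((1 - single (θ a) 1) * iv (1 - single (θ a) 1)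
          : MonoidAlgebra ℤ Q) := by
      rw [zsmul_eq_mul, zsmul_eq_mul, ← hmain a]
      have h4 : iv ((1 - single (θ a) 1) * Z)
        = (((l : ℤ) ^ (2 * b) : ℤ) : MonoidAlgebra ℤ Q) * iv ((1 - single (θ a) 1) * V) := by
        rw [h2, map_mul, map_intCast]
      have h5 : (1 - single (θ a) 1) * iv (1 - single (θ a) 1) * (Z * iv Z)
          = ((1 - single (θ a) 1) * Z) * iv ((1 - single (θ a) 1) * Z) := by
        rw [map_mul]; ring
      rw [h5, h4, h2]; push_cast; ring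
    have h6 := congrArg (fun Y => Y.coeff (1 : Q)) h3
    simp only [coeff_smul_apply, smul_eq_mul] at h6
    rw [hσ _ hane] at h6
    have h7 : ((l : ℤ) ^ (2 * b)) ^ 2 ∣ (n : ℤ) ^ 2 * 2 := ⟨_, h6.symm⟩
    have h8 : (l ^ (2 * b)) ^ 2 ∣ n ^ 2 * 2 := by exact_mod_cast h7
    have h9 : (l ^ (2 * b)) ^ 2 = l ^ (2 * b) * l ^ (2 * b) := sq _
    have h10 : n ^ 2 * 2 = l ^ (2 * b) * (d ^ 2 * 2) := by rw [hd]; ring
    rw [h9, h10] at h8
    have h11 : l ^ (2 * b) ∣ d ^ 2 * 2 := Nat.dvd_of_mul_dvd_mul_left (by positivity) h8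
    exact hno2 (hcopd.dvd_of_dvd_mul_left h11)
  · push Not at hcase
    have h1 : pr θ (el Af) = ((Nat.card A : ℤ) : MonoidAlgebra ℤ Q) := by
      rw [el, map_sum]
      have : ∀ x ∈ Af, pr θ (single x 1) = (1 : MonoidAlgebra ℤ Q) := by
        intro x hx
        rw [hmemAf] at hx
        rw [pr_single, hcase x hx, MonoidAlgebra.one_def]
      rw [Finset.sum_congr rfl this, Finset.sum_const, nsmul_eq_mul, mul_one, ← hcardA]
      push_cast; rfl
    have h2 : Z = (((n : ℤ) + 1 : ℤ) : MonoidAlgebra ℤ Q)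
        + (((l : ℤ) ^ (2 * b) : ℤ) : MonoidAlgebra ℤ Q) * V := by
      rw [hZX, h1, ← hκA]; push_cast; ring
    have h3 : (((l : ℤ) ^ (2 * b) : ℤ) : MonoidAlgebra ℤ Q) ∣
        ((((n : ℤ) ^ 2 - ((n : ℤ) + 1) ^ 2) : ℤ) : MonoidAlgebra ℤ Q)
          * ((1 - single (θ x₀) 1) * iv (1 - single (θ x₀) 1)) := by
      have h4 : iv Z = (((n : ℤ) + 1 : ℤ) : MonoidAlgebra ℤ Q)
        + (((l : ℤ) ^ (2 * b) : ℤ) : MonoidAlgebra ℤ Q) * iv V := by
        rw [h2, map_add, map_mul, map_intCast, map_intCast]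
      have h5 := hmain x₀
      rw [h4, h2] at h5
      refine ⟨(1 - single (θ x₀) 1) * iv (1 - single (θ x₀) 1) *
        ((((n : ℤ) + 1 : ℤ) : MonoidAlgebra ℤ Q) * (V + iv V)
          + (((l : ℤ) ^ (2 * b) : ℤ) : MonoidAlgebra ℤ Q) * (V * iv V)), ?_⟩
      push_cast at h5 ⊢
      linear_combination -h5
    rw [intCast_dvd_iff] at h3
    have h4 := h3 1
    rw [← zsmul_eq_mul, coeff_smul_apply, hσ _ hx₀', smul_eq_mul] at h4
    have h5 : (l : ℤ) ^ (2 * b) ∣ (n : ℤ) ^ 2 := by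
      refine ⟨(d : ℤ) ^ 2, ?_⟩
      rw [hd]; push_cast; ring
    have h6 : (l : ℤ) ^ (2 * b) ∣ ((n : ℤ) + 1) ^ 2 * 2 := by
      have h7 : ((n : ℤ) + 1) ^ 2 * 2 = (n : ℤ) ^ 2 * 2
          - ((n : ℤ) ^ 2 - ((n : ℤ) + 1) ^ 2) * 2 := by ring
      rw [h7]
      exact dvd_sub (Dvd.dvd.mul_right h5 2) h4
    have h8 : l ^ (2 * b) ∣ (n + 1) ^ 2 * 2 := by exact_mod_cast h6
    exact hno2 (hcopn.dvd_of_dvd_mul_left h8)

end Pool.Agent.Lib.MP_79499b_co
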