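import Pool.Agent.Lib.MP_79499b_co.Q38Singer

/-!
# Singer difference sets in every dimension
-/

namespace Pool.Agent.Lib.MP_79499b_co.PC.Singer

open Q38.Singer

variable {K F : Type} [Field K] [Field F] [Finite K] [Algebra K F] [Finite F]

omit [Finite K] in
lemma range_TT {a : F} (ha : a ∉ Set.range (algebraMap K F)) :
    LinearMap.range (TT (K := K) a) = ⊤ := by
  have : FiniteDimensional K F := inferInstance
  by_contra hne
  obtain ⟨f, hf, hle⟩ := Submodule.exists_le_ker_of_lt_top _ (lt_top_iff_ne_top.mpr hne)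
  have hfxy : ∀ x y : K, f (x, y) = f (1, 0) * x + f (0, 1) * y := by
    intro x y
    have : ((x, y) : K × K) = x • (1, 0) + y • (0, 1) := by simp
    rw [this, map_add, map_smul, map_smul]
    simp [mul_comm]
  have h1 : ∀ v : F, Algebra.trace K F ((f (1, 0) • (1 : F) + f (0, 1) • a) * v) = 0 := by
    intro v
    have h2 : f (TT a v) = 0 := hle ⟨v, rfl⟩
    have h2' : TT (K := K) a v = (Algebra.trace K F v, Algebra.trace K F (a * v)) := rfl
    rw [h2', hfxy] at h2
    rw [add_mul, smul_mul_assoc, smul_mul_assoc, one_mul, map_add, map_smul, map_smul]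
    exact h2
  have h2 : f (1, 0) • (1 : F) + f (0, 1) • a = 0 := by
    have hnd := traceForm_nondegenerate K F
    apply hnd.1
    intro v
    exact h1 v
  by_cases hb : f (0, 1) = 0
  · rw [hb, zero_smul, add_zero, smul_eq_zero] at h2
    apply hf
    ext
    · simpa using h2
    · simpa using hb
  · apply ha
    refine ⟨-(f (1, 0) / f (0, 1)), ?_⟩
    rw [Algebra.algebraMap_eq_smul_one]
    have h4 : f (0, 1) • a = -(f (1, 0) • (1 : F)) := by
      rw [eq_neg_iff_add_eq_zero, add_comm]; exact h2
    calc -(f (1, 0) / f (0, 1)) • (1 : F) = (f (0, 1))⁻¹ • -(f (1, 0) • (1 : F)) := by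
          rw [smul_neg, smul_smul, neg_smul, div_eq_inv_mul]
      _ = (f (0, 1))⁻¹ • f (0, 1) • a := by rw [h4]
      _ = a := by rw [smul_smul, inv_mul_cancel₀ hb, one_smul]

variable {m : ℕ} (hm : Module.finrank K F = m)

include hm

omit [Finite K] in
lemma finrank_ker_of_notMem {a : F} (ha : a ∉ Set.range (algebraMap K F)) :
    Module.finrank K (LinearMap.ker (TT (K := K) a)) = m - 2 := by
  have : FiniteDimensional K F := inferInstance
  have h := LinearMap.finrank_range_add_finrank_ker (TT (K := K) a)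
  rw [range_TT ha, finrank_top, hm, Module.finrank_prod, Module.finrank_self] at h
  omega

omit [Finite K] in
lemma finrank_ker_one : Module.finrank K (LinearMap.ker (TT (K := K) (1 : F))) = m - 1 := by
  have : FiniteDimensional K F := inferInstance
  have h1 : LinearMap.ker (TT (K := K) (1 : F)) = LinearMap.ker (Algebra.trace K F) := by
    ext v
    rw [mem_ker_TT, one_mul, LinearMap.mem_ker]
    tauto
  have h2 : LinearMap.range (Algebra.trace K F) = ⊤ :=
    LinearMap.range_eq_top.mpr (Algebra.trace_surjective K F)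
  have h := LinearMap.finrank_range_add_finrank_ker (Algebra.trace K F)
  rw [h2, finrank_top, hm, Module.finrank_self] at h
  rw [h1]
  omega

omit [Finite K] in
lemma ncard_one : Set.ncard {e : Fˣ ⧸ sub K F | e ∈ SS K F} * (Nat.card K - 1) =
    Nat.card K ^ (m - 1) - 1 := by
  have : FiniteDimensional K F := inferInstance
  have h1 := card_ker (K := K) (1 : Fˣ)
  rw [Units.val_one, Module.natCard_eq_pow_finrank (K := K), finrank_ker_one hm] at h1
  simp only [QuotientGroup.mk_one, one_mul, and_self] at h1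
  rw [h1, Nat.add_sub_cancel_left, mul_comm]

omit [Finite K] in
lemma ncard_ne {g : Fˣ ⧸ sub K F} (hg : g ≠ 1) :
    Set.ncard {e : Fˣ ⧸ sub K F | e ∈ SS K F ∧ g * e ∈ SS K F} * (Nat.card K - 1) =
      Nat.card K ^ (m - 2) - 1 := by
  have : FiniteDimensional K F := inferInstance
  obtain ⟨a, rfl⟩ := QuotientGroup.mk_surjective g
  have ha : (a : F) ∉ Set.range (algebraMap K F) := by
    rintro ⟨c, hc⟩
    apply hg
    rw [QuotientGroup.eq_one_iff, mem_sub]
    have hc0 : c ≠ 0 := by
      rintro rfl
      rw [map_zero] at hc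
      exact a.ne_zero hc.symm
    exact ⟨Units.mk0 c hc0, hc⟩
  have h1 := card_ker (K := K) a
  rw [Module.natCard_eq_pow_finrank (K := K), finrank_ker_of_notMem hm ha] at h1
  rw [h1, Nat.add_sub_cancel_left, mul_comm]

omit [Finite K] in
lemma card_quotient : Nat.card (Fˣ ⧸ sub K F) * (Nat.card K - 1) = Nat.card K ^ m - 1 := by
  have : FiniteDimensional K F := inferInstance
  have h1 := Subgroup.card_eq_card_quotient_mul_card_subgroup (sub K F)
  rw [card_sub, Nat.card_units, Nat.card_units, Module.natCard_eq_pow_finrank (K := K) (V := F),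
    hm] at h1
  exact h1.symm

end Pool.Agent.Lib.MP_79499b_co.PC.Singer

namespace Pool.Agent.Lib.MP_79499b_co.PC

open Q38

/-- Singer's theorem over a prime field, in every dimension `m - 1 ≥ 2`. -/
theorem singer_prime' {p m : ℕ} (hp : p.Prime) (hm : 3 ≤ m) :
    ∃ (G : Type) (_ : CommGroup G) (_ : Fintype G) (_ : DecidableEq G) (D : Finset G),
      Fintype.card G * (p - 1) = p ^ m - 1 ∧ D.card * (p - 1) = p ^ (m - 1) - 1 ∧
      ∀ g : G, g ≠ 1 →
        ((D ×ˢ D).filter (fun x : G × G => x.1 * x.2⁻¹ = g)).card * (p - 1) =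
          p ^ (m - 2) - 1 := by
  classical
  have : Fact p.Prime := ⟨hp⟩
  have h3 : Module.finrank (ZMod p) (GaloisField p m) = m := GaloisField.finrank p (by omega)
  have hfin : Finite (GaloisField p m) := Module.finite_of_finite (ZMod p)
  have hK : Nat.card (ZMod p) = p := Nat.card_zmod p
  let G := (GaloisField p m)ˣ ⧸ Q38.Singer.sub (ZMod p) (GaloisField p m)
  have : Fintype G := Fintype.ofFinite G
  let D : Finset G := (Q38.Singer.SS (ZMod p) (GaloisField p m)).toFinset
  refine ⟨G, inferInstance, inferInstance, inferInstance, D, ?_, ?_, ?_⟩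
  · have h := Singer.card_quotient (K := ZMod p) (F := GaloisField p m) h3
    rw [hK] at h
    rw [← Nat.card_eq_fintype_card]
    exact h
  · have h := Singer.ncard_one (K := ZMod p) (F := GaloisField p m) h3
    rw [hK] at h
    rw [← h, ← Set.ncard_coe_finset]
    congr 2
    ext x
    simp [D]
  · intro g hg
    have h := Singer.ncard_ne (K := ZMod p) (F := GaloisField p m) h3 hg
    rw [hK] at h
    rw [← h, ← Set.ncard_coe_finset]
    congr 1
    refine Set.ncard_congr (fun x _ => x.2) ?_ ?_ ?_
    · rintro ⟨a, b⟩ hab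
      simp only [Finset.coe_filter, Finset.mem_product, Set.mem_ofPred_eq, D, Set.mem_toFinset] at hab ⊢
      obtain ⟨⟨h1, h2⟩, h3⟩ := hab
      refine ⟨h2, ?_⟩
      rw [← h3, inv_mul_cancel_right]
      exact h1
    · rintro ⟨a, b⟩ ⟨a', b'⟩ hab hab' hb
      simp only [Finset.coe_filter, Set.mem_ofPred_eq] at hab hab' hb
      have h1 := hab.2
      have h2 := hab'.2
      subst hb
      rw [Prod.mk.injEq]
      refine ⟨?_, rfl⟩
      rw [mul_inv_eq_iff_eq_mul] at h1 h2
      rw [h1, h2]
    · intro b hb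
      refine ⟨(g * b, b), ?_, rfl⟩
      simp only [Finset.coe_filter, Finset.mem_product, Set.mem_ofPred_eq, D, Set.mem_toFinset]
      exact ⟨⟨hb.2, hb.1⟩, by simp⟩

end Pool.Agent.Lib.MP_79499b_co.PC
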