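import Pool.Agent.Lib.MP_79499b_co.PCMain
import Pool.Agent.Lib.MP_79499b_co.PCSinger
import Pool.Agent.Lib.MP_79499b_co.PCPrimes

/-!
# Orders `n ≡ 1, 2 (mod 4)` for odd `m` with a prime factor `≡ 3 (mod 4)`, all finite groups

Let `M` be a set of odd integers `m` each of which has a prime factor `l ≡ 3 (mod 4)`, `l ≤ L` (for
instance `M = {m}` with `m = 3, 7, 9, 11, 15, ...`).  Among the numbers `n ≡ 1, 2 (mod 4)` for which
some finite group (not assumed abelian) has a difference set with the Singer parameters for some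
`m ∈ M` the primes have relative density one, and all but `O(x / (log x)^(3/2 - ε))` of those below
`x` have the form `s²` or `s² q` with `q` prime.
-/

set_option autoImplicit false

namespace Pool.Agent.Lib.MP_79499b_co.OrdersOneTwoModFourOld

open Pool.Agent.Lib.MP_79499b_co Filter Topology

/-- Some finite group of order `v = (n^m - 1)/(n - 1)` contains a difference set with the Singer
parameters `(v, k, λ)`, `k = (n^(m-1) - 1)/(n - 1)`, `λ = (n^(m-2) - 1)/(n - 1)`. -/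
def HasSingerDifferenceSet (n m : ℕ) : Prop :=
  ∃ (G : Type) (_ : Group G) (_ : Fintype G) (_ : DecidableEq G) (D : Finset G),
    Fintype.card G * (n - 1) = n ^ m - 1 ∧
    D.card * (n - 1) = n ^ (m - 1) - 1 ∧
    ∀ g : G, g ≠ 1 →
      ((D ×ˢ D).filter (fun p : G × G => p.1 * p.2⁻¹ = g)).card * (n - 1) = n ^ (m - 2) - 1

/-- The number of all `n ≡ 1, 2 (mod 4)` with `2 ≤ n < x` such that for some `m ∈ M` some finite
group contains a difference set with the Singer parameters for `(n, m)`. -/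
noncomputable def orderCount (M : Set ℕ) (x : ℕ) : ℕ :=
  Set.ncard {n : ℕ | 2 ≤ n ∧ n < x ∧ (n % 4 = 1 ∨ n % 4 = 2) ∧ ∃ m ∈ M, HasSingerDifferenceSet n m}

/-- The number of the `n` of `orderCount M x` that are not primes. -/
noncomputable def nonprimeCount (M : Set ℕ) (x : ℕ) : ℕ :=
  Set.ncard {n : ℕ | 2 ≤ n ∧ n < x ∧ ¬ n.Prime ∧ (n % 4 = 1 ∨ n % 4 = 2) ∧
    ∃ m ∈ M, HasSingerDifferenceSet n m}

/-- The number of the `n` of `orderCount M x` that are neither `s ^ 2` nor `s ^ 2 q` with `q`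
prime. -/
noncomputable def exceptionalCount (M : Set ℕ) (x : ℕ) : ℕ :=
  Set.ncard {n : ℕ | 2 ≤ n ∧ n < x ∧ (¬ ∃ s q : ℕ, (q = 1 ∨ q.Prime) ∧ n = s ^ 2 * q) ∧
    (n % 4 = 1 ∨ n % 4 = 2) ∧ ∃ m ∈ M, HasSingerDifferenceSet n m}

lemma of_prime {p m : ℕ} (hp : p.Prime) (hm : 3 ≤ m) : HasSingerDifferenceSet p m := by
  obtain ⟨G, h1, h2, h3, D, hG, hD, hlam⟩ := PC.singer_prime' hp hm
  exact ⟨G, inferInstance, h2, h3, D, hG, hD, hlam⟩

lemma exc2_of {n m l : ℕ} (hn : 2 ≤ n) (hm : 3 ≤ m) (hodd : Odd m) (hlm : l ∣ m)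
    (h : HasSingerDifferenceSet n m) : PC.Exc2 l n := by
  obtain ⟨G, h1, h2, h3, D, hG, hD, hlam⟩ := h
  exact PC.exc2_of_singer hn hm hodd hlm D hG hD hlam

lemma ncard_eq (P : ℕ → Prop) (x : ℕ) :
    ((Set.ncard {n : ℕ | 2 ≤ n ∧ n < x ∧ P n} : ℕ) : ℝ) = Q38.cnt (fun n => 2 ≤ n ∧ P n) x := by
  unfold Q38.cnt
  congr 2
  ext n
  constructor
  · rintro ⟨h4, h5, h6⟩; exact ⟨h5, h4, h6⟩
  · rintro ⟨h5, h4, h6⟩; exact ⟨h4, h5, h6⟩

lemma primeCounting'_eq (x : ℕ) :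
    (Nat.primeCounting' x : ℝ) = (((Finset.range x).filter Nat.Prime).card : ℝ) := by
  rw [Nat.primeCounting', Nat.count_eq_card_filter_range]

/-- a small set is negligible with respect to the primes -/
lemma tendsto_of_small {P : ℕ → Prop} (h : PC.Small P) :
    Tendsto (fun x : ℕ => Q38.cnt P x / (Nat.primeCounting' x : ℝ)) atTop (𝓝 0) := by
  have h1 : ∀ᶠ x : ℕ in atTop, (1 / 2 : ℝ) <
      (((Finset.range x).filter Nat.Prime).card : ℝ) * Real.log x / x :=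
    PC.primes_all.eventually (lt_mem_nhds (by norm_num))
  rw [Metric.tendsto_atTop]
  intro ε hε
  obtain ⟨x₀, hx₀⟩ := h (ε / 4) (by positivity)
  obtain ⟨x₁, hx₁⟩ := Filter.eventually_atTop.mp h1
  refine ⟨max x₀ (max x₁ 3), fun x hx => ?_⟩
  have h2 := hx₀ x (le_trans (le_max_left _ _) hx)
  have h3 := hx₁ x (le_trans (le_trans (le_max_left _ _) (le_max_right _ _)) hx)
  have h4 : 3 ≤ x := le_trans (le_trans (le_max_right _ _) (le_max_right _ _)) hx
  have hx3 : (3 : ℝ) ≤ x := by exact_mod_cast h4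
  have hlog : (1 : ℝ) < Real.log x := by
    rw [Real.lt_log_iff_exp_lt (by positivity)]
    have := Real.exp_one_lt_d9
    linarith
  have hx0 : (0 : ℝ) < x := by linarith
  rw [← primeCounting'_eq, lt_div_iff₀ hx0] at h3
  set p : ℝ := (Nat.primeCounting' x : ℝ) with hp
  have hc0 : 0 ≤ Q38.cnt P x := by unfold Q38.cnt; positivity
  have h5 : (x : ℝ) / Real.log x < 2 * p := by
    rw [div_lt_iff₀ (by linarith)]
    linarith
  have hp0 : 0 < p := by
    have : (0 : ℝ) < x / Real.log x := by positivity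
    linarith
  rw [dist_zero_right, Real.norm_of_nonneg (by positivity), div_lt_iff₀ hp0]
  calc Q38.cnt P x ≤ ε / 4 * (x / Real.log x) := h2
    _ ≤ ε / 4 * (2 * p) := mul_le_mul_of_nonneg_left h5.le (by positivity)
    _ < ε * p := by nlinarith

/-- primes `≡ 1, 2 (mod 4)` are half of all primes -/
lemma half_primes : Tendsto (fun x : ℕ =>
    ((((Finset.range x).filter (fun p => p.Prime ∧ (p % 4 = 1 ∨ p % 4 = 2))).card : ℕ) : ℝ) /
      (Nat.primeCounting' x : ℝ)) atTop (𝓝 (1 / 2)) := by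
  have h1 := PC.primes_ap (q := 4) (a := 1) (by norm_num) (by norm_num)
  have h2 := PC.primes_all
  have hφ : (Nat.totient 4 : ℝ) = 2 := by
    rw [show Nat.totient 4 = 2 by decide]; norm_num
  rw [hφ] at h1
  have hl : Tendsto (fun x : ℕ => Real.log x / x) atTop (𝓝 0) := by
    have h := Real.isLittleO_log_id_atTop.tendsto_div_nhds_zero
    exact h.comp tendsto_natCast_atTop_atTop
  have h3 := (h1.add hl).div h2 one_ne_zero
  rw [add_zero, div_one] at h3
  refine h3.congr' ?_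
  filter_upwards [eventually_ge_atTop 3] with x hx
  have hx3 : (3 : ℝ) ≤ x := by exact_mod_cast hx
  have hlog : 0 < Real.log x := Real.log_pos (by linarith)
  have hx0 : (0 : ℝ) < x := by linarith
  have hc : ((Finset.range x).filter (fun p => p.Prime ∧ (p % 4 = 1 ∨ p % 4 = 2))).card =
      ((Finset.range x).filter (fun q => q.Prime ∧ q % 4 = 1 % 4)).card + 1 := by
    have hset : (Finset.range x).filter (fun p => p.Prime ∧ (p % 4 = 1 ∨ p % 4 = 2)) =
        insert 2 ((Finset.range x).filter (fun q => q.Prime ∧ q % 4 = 1 % 4)) := by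
      ext p
      rw [Finset.mem_insert, Finset.mem_filter, Finset.mem_filter, Finset.mem_range]
      constructor
      · rintro ⟨h4, h5, h6 | h6⟩
        · exact Or.inr ⟨h4, h5, h6⟩
        · left
          exact ((Nat.prime_dvd_prime_iff_eq Nat.prime_two h5).mp (by omega)).symm
      · rintro (rfl | ⟨h4, h5, h6⟩)
        · exact ⟨by omega, Nat.prime_two, Or.inr rfl⟩
        · exact ⟨h4, h5, Or.inl h6⟩
    rw [hset, Finset.card_insert_of_notMem]
    rw [Finset.mem_filter]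
    rintro ⟨-, -, h⟩
    norm_num at h
  rw [hc, primeCounting'_eq]
  push_cast
  simp only [Pi.div_apply]
  field_simp

theorem result (L : ℕ) (M : Set ℕ)
    (hM : ∀ m ∈ M, Odd m ∧ ∃ l : ℕ, l.Prime ∧ l ∣ m ∧ l % 4 = 3 ∧ l ≤ L) :
    Tendsto (fun x : ℕ => (nonprimeCount M x : ℝ) / (Nat.primeCounting' x : ℝ)) atTop (𝓝 0) ∧
    (M.Nonempty →
      Tendsto (fun x : ℕ => (orderCount M x : ℝ) / (Nat.primeCounting' x : ℝ)) atTop
        (𝓝 (1 / 2))) ∧
    ∀ ε : ℝ, 0 < ε → ∃ C : ℝ, ∀ x : ℕ, 3 ≤ x →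
      (exceptionalCount M x : ℝ) ≤ C * (x / (Real.log x) ^ (3 / 2 - ε)) := by
  classical
  have hge : ∀ m ∈ M, ∃ l : ℕ, l.Prime ∧ l ∣ m ∧ l % 4 = 3 ∧ l ≤ L ∧ 3 ≤ m ∧ Odd m := by
    intro m hm
    obtain ⟨hodd, l, hl, hlm, hl4, hlL⟩ := hM m hm
    have h2 : l ≤ m := Nat.le_of_dvd hodd.pos hlm
    exact ⟨l, hl, hlm, hl4, hlL, by omega, hodd⟩
  have hsmall : PC.Small (fun n => 2 ≤ n ∧ ¬ n.Prime ∧ (n % 4 = 1 ∨ n % 4 = 2) ∧
      ∃ m ∈ M, HasSingerDifferenceSet n m) := by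
    have h1 : PC.Small (fun n => ∃ l ∈ (Finset.range (L + 1)).filter
        (fun l => l.Prime ∧ l % 4 = 3), 2 ≤ n ∧ (n % 4 = 1 ∨ n % 4 = 2) ∧ ¬ n.Prime ∧
          PC.Exc2 l n) := by
      apply PC.small_exists
      intro l hl
      rw [Finset.mem_filter] at hl
      exact PC.main_prime hl.2.1 hl.2.2
    refine h1.mono ?_
    rintro n ⟨hn, hnp, hn4, m, hm, hS⟩
    obtain ⟨l, hl, hlm, hl4, hlL, hm3, hodd⟩ := hge m hm
    refine ⟨l, ?_, hn, hn4, hnp, exc2_of hn hm3 hodd hlm hS⟩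
    rw [Finset.mem_filter, Finset.mem_range]
    exact ⟨by omega, hl, hl4⟩
  have h0 : Tendsto (fun x : ℕ => (nonprimeCount M x : ℝ) / (Nat.primeCounting' x : ℝ)) atTop
      (𝓝 0) := by
    refine (tendsto_of_small hsmall).congr fun x => ?_
    rw [nonprimeCount, ncard_eq]
  refine ⟨h0, fun hne => ?_, fun ε hε => ?_⟩
  swap
  · have hE : Q38.Few (fun n => 2 ≤ n ∧ (¬ ∃ s q : ℕ, (q = 1 ∨ q.Prime) ∧ n = s ^ 2 * q) ∧
        (n % 4 = 1 ∨ n % 4 = 2) ∧ ∃ m ∈ M, HasSingerDifferenceSet n m) (3 / 2 - ε) := by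
      have h1 : Q38.Few (fun n => ∃ l ∈ (Finset.range (L + 1)).filter
          (fun l => l.Prime ∧ l % 4 = 3), 1 ≤ n ∧ (n % 4 = 1 ∨ n % 4 = 2) ∧ Q38.Exc l n ∧
            Q38.HH l n) (3 / 2 - ε) := by
        apply Q38.Few.exists
        intro l hl
        rw [Finset.mem_filter] at hl
        exact Q38.nt2' hl.2.1 (by omega) hl.2.2 hε
      refine h1.mono ?_
      rintro n ⟨hn, hshape, hn4, m, hm, hS⟩
      obtain ⟨l, hl, hlm, hl4, hlL, hm3, hodd⟩ := hge m hm
      have hexc : Q38.Exc l n :=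
        PC.exc_of_exc2 (Nat.odd_iff.mpr (by omega)) (exc2_of hn hm3 hodd hlm hS)
      refine ⟨l, ?_, by omega, hn4, hexc, ?_⟩
      · rw [Finset.mem_filter, Finset.mem_range]
        exact ⟨by omega, hl, hl4⟩
      · refine Q38.HH_of_exc hn hexc ?_ ?_
        · rintro ⟨b, hb⟩
          exact hshape ⟨b, 1, Or.inl rfl, by rw [mul_one, hb]⟩
        · intro s q hq hnq
          exact hshape ⟨s, q, Or.inr hq, hnq⟩
    obtain ⟨C₁, -, hC₁⟩ := hE
    refine ⟨C₁, fun x hx => ?_⟩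
    rw [exceptionalCount, ncard_eq]
    exact hC₁ x hx
  obtain ⟨m₀, hm₀⟩ := hne
  obtain ⟨l₀, -, -, -, -, hm3, -⟩ := hge m₀ hm₀
  have h1 : ∀ x : ℕ, (orderCount M x : ℝ) = nonprimeCount M x +
      ((((Finset.range x).filter (fun p => p.Prime ∧ (p % 4 = 1 ∨ p % 4 = 2))).card : ℕ) : ℝ) := by
    intro x
    have hset : {n : ℕ | 2 ≤ n ∧ n < x ∧ (n % 4 = 1 ∨ n % 4 = 2) ∧
          ∃ m ∈ M, HasSingerDifferenceSet n m} =
        {n : ℕ | 2 ≤ n ∧ n < x ∧ ¬ n.Prime ∧ (n % 4 = 1 ∨ n % 4 = 2) ∧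
          ∃ m ∈ M, HasSingerDifferenceSet n m} ∪
        ((Finset.range x).filter (fun p => p.Prime ∧ (p % 4 = 1 ∨ p % 4 = 2)) : Finset ℕ) := by
      ext n
      simp only [Set.mem_ofPred_eq, Set.mem_union, Finset.coe_filter, Finset.mem_range]
      constructor
      · rintro ⟨h2, h3, h4, h5⟩
        by_cases hp : n.Prime
        · exact Or.inr ⟨h3, hp, h4⟩
        · exact Or.inl ⟨h2, h3, hp, h4, h5⟩
      · rintro (⟨h2, h3, _, h4, h5⟩ | ⟨h3, hp, h4⟩)
        · exact ⟨h2, h3, h4, h5⟩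
        · exact ⟨hp.two_le, h3, h4, m₀, hm₀, of_prime hp hm3⟩
    have hdisj : Disjoint
        {n : ℕ | 2 ≤ n ∧ n < x ∧ ¬ n.Prime ∧ (n % 4 = 1 ∨ n % 4 = 2) ∧
          ∃ m ∈ M, HasSingerDifferenceSet n m}
        (((Finset.range x).filter (fun p => p.Prime ∧ (p % 4 = 1 ∨ p % 4 = 2)) : Finset ℕ) :
          Set ℕ) := by
      rw [Set.disjoint_left]
      rintro n ⟨_, _, hnp, _⟩ hn
      rw [Finset.mem_coe, Finset.mem_filter] at hn
      exact hnp hn.2.1
    rw [orderCount, nonprimeCount, hset,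
      Set.ncard_union_eq hdisj ((Set.finite_lt_nat x).subset fun n hn => hn.2.1)
        (Finset.finite_toSet _), Set.ncard_coe_finset]
    push_cast
    ring
  have h2 := h0.add half_primes
  rw [zero_add] at h2
  refine h2.congr fun x => ?_
  rw [h1 x, add_div]

end Pool.Agent.Lib.MP_79499b_co.OrdersOneTwoModFourOld
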