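import Pool.Agent.Lib.MP_79499b_co.PCDefs
import Pool.Agent.Lib.MP_79499b_co.PCPrimes

/-!
# Primes avoiding a residue class modulo each prime of a finite set
-/

namespace Pool.Agent.Lib.MP_79499b_co.PC

open Finset Filter Topology
open Q38

lemma exists_root_mul {l t w : ℕ} (hl : 2 ≤ l) (hw : w.Prime) (h : w % l = 1) (ht : ¬ w ∣ t) :
    ∃ b, b < w ∧ b ≠ 0 ∧ w ∣ Phi l (t * b) := by
  have : Fact w.Prime := ⟨hw⟩
  have hdvd : l ∣ w - 1 := (Nat.modEq_iff_dvd' hw.one_lt.le).mp (by
    rw [Nat.ModEq, h, Nat.mod_eq_of_lt (by omega)])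
  obtain ⟨k, hk⟩ := hdvd
  have hw1 : 0 < w - 1 := by have := hw.one_lt; omega
  have hk0 : 0 < k := by
    rcases Nat.eq_zero_or_pos k with h0 | h0
    · rw [h0, mul_zero] at hk; omega
    · exact h0
  obtain ⟨g, hg⟩ := IsCyclic.exists_generator (α := (ZMod w)ˣ)
  have hog : orderOf g = w - 1 := by
    rw [orderOf_eq_card_of_forall_mem_zpowers hg, Nat.card_eq_fintype_card, ZMod.card_units]
  set u : ZMod w := ((g ^ k : (ZMod w)ˣ) : ZMod w) with hu
  have hul : u ^ l = 1 := by
    rw [hu, ← Units.val_pow_eq_pow_val, ← pow_mul, mul_comm k l, ← hk, ← hog, pow_orderOf_eq_one,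
      Units.val_one]
  have hu1 : u ≠ 1 := by
    intro h3
    have h4 : g ^ k = 1 := Units.ext h3
    have h5 := orderOf_dvd_of_pow_eq_one h4
    rw [hog] at h5
    have h6 := Nat.le_of_dvd hk0 h5
    nlinarith
  have hu0 : u ≠ 0 := Units.ne_zero _
  have ht0 : (t : ZMod w) ≠ 0 := by
    rw [Ne, ZMod.natCast_eq_zero_iff]; exact ht
  refine ⟨(u * (t : ZMod w)⁻¹).val, ZMod.val_lt _, ?_, ?_⟩
  · intro h0
    rw [ZMod.val_eq_zero] at h0
    rcases mul_eq_zero.mp h0 with h1 | h1
    · exact hu0 h1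
    · exact ht0 (inv_eq_zero.mp h1)
  · rw [← ZMod.natCast_eq_zero_iff]
    unfold Phi
    push_cast
    rw [ZMod.natCast_zmod_val]
    have h1 : (t : ZMod w) * (u * (t : ZMod w)⁻¹) = u := by
      field_simp
    rw [h1]
    have h4 := geom_sum_mul u l
    rw [hul, sub_self] at h4
    rcases mul_eq_zero.mp h4 with h | h
    · exact h
    · exact absurd (sub_eq_zero.mp h) hu1

private lemma count_step {l t : ℕ} (hl : 2 ≤ l) (W : Finset ℕ) :
    (∀ w ∈ W, w.Prime ∧ w % l = 1 ∧ ¬ w ∣ t) → ∀ M a : ℕ, 0 < M → a.Coprime M →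
      (∀ w ∈ W, w.Coprime M) → ∀ η : ℝ, 0 < η → ∀ᶠ x : ℕ in atTop,
        (((range x).filter (fun q => q.Prime ∧ q % M = a % M ∧
          ∀ w ∈ W, ¬ w ∣ Phi l (t * q))).card : ℝ) ≤
          (1 / (M.totient : ℝ) * (∏ w ∈ W, (((w : ℝ) - 2) / ((w : ℝ) - 1))) + η) *
            (x / Real.log x) := by
  classical
  induction W using Finset.induction_on with
  | empty =>
    intro _ M a hM ha _ η hη
    have h := (primes_ap hM ha).eventually (gt_mem_nhds
      (show 1 / (M.totient : ℝ) < 1 / (M.totient : ℝ) + η by linarith))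
    filter_upwards [h, eventually_ge_atTop 3] with x hx hx3
    have hx0 : (0 : ℝ) < x := by positivity
    have hx3' : (3 : ℝ) ≤ x := by exact_mod_cast hx3
    have hlog : 0 < Real.log x := Real.log_pos (by linarith)
    rw [div_lt_iff₀ hx0] at hx
    rw [Finset.prod_empty, mul_one, ← mul_div_assoc, le_div_iff₀ hlog]
    refine le_trans (le_of_eq ?_) hx.le
    congr 3
    ext q
    simp
  | insert w W hwW ih =>
    intro hW M a hM ha hcop η hη
    have hw : w.Prime := (hW w (Finset.mem_insert_self _ _)).1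
    have hwl : w % l = 1 := (hW w (Finset.mem_insert_self _ _)).2.1
    have hwt : ¬ w ∣ t := (hW w (Finset.mem_insert_self _ _)).2.2
    have hwM : w.Coprime M := hcop w (Finset.mem_insert_self _ _)
    have hw2 : 2 < w := by
      have := hw.two_le
      rcases Nat.lt_or_ge 2 w with h | h
      · exact h
      · exfalso
        have hw2 : w = 2 := by omega
        rw [hw2] at hwl
        rcases Nat.lt_or_ge 2 l with h3 | h3
        · rw [Nat.mod_eq_of_lt h3] at hwl; omega
        · have : l = 2 := by omega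
          rw [this] at hwl; omega
    obtain ⟨b₀, hb₀, hb₀0, hb₀d⟩ := exists_root_mul hl hw hwl hwt
    set B : Finset ℕ := ((range w).filter (fun b => b ≠ 0 ∧ ¬ w ∣ Phi l (t * b))) with hB
    have hBcard : B.card ≤ w - 2 := by
      have h1 : B ⊆ ((range w).erase 0).erase b₀ := by
        intro b hb
        rw [hB, Finset.mem_filter] at hb
        rw [Finset.mem_erase, Finset.mem_erase]
        refine ⟨?_, hb.2.1, hb.1⟩
        rintro rfl
        exact hb.2.2 hb₀d
      have h2 := Finset.card_le_card h1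
      rw [Finset.card_erase_of_mem, Finset.card_erase_of_mem, Finset.card_range] at h2
      · omega
      · exact Finset.mem_range.mpr (by omega)
      · exact Finset.mem_erase.mpr ⟨hb₀0, Finset.mem_range.mpr hb₀⟩
    have hMw : 0 < M * w := Nat.mul_pos hM hw.pos
    have hc : ∀ b : ℕ, ∃ c : ℕ, c ≡ a [MOD M] ∧ c ≡ b [MOD w] := fun b => by
      obtain ⟨c, hc⟩ := Nat.chineseRemainder hwM.symm a b
      exact ⟨c, hc.1, hc.2⟩
    choose c hc1 hc2 using hc
    have hccop : ∀ b ∈ B, (c b).Coprime (M * w) := by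
      intro b hb
      rw [hB, Finset.mem_filter, Finset.mem_range] at hb
      refine Nat.Coprime.mul_right ?_ ?_
      · have := (hc1 b).gcd_eq
        rw [Nat.Coprime, this]
        exact ha
      · have := (hc2 b).gcd_eq
        rw [Nat.Coprime, this]
        rw [Nat.gcd_comm]
        exact (Nat.Prime.coprime_iff_not_dvd hw).mpr (fun h =>
          absurd (Nat.le_of_dvd (Nat.pos_of_ne_zero hb.2.1) h) (by omega))
    have hev : ∀ b ∈ B, ∀ᶠ x : ℕ in atTop,
        (((range x).filter (fun q => q.Prime ∧ q % (M * w) = c b % (M * w) ∧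
          ∀ w ∈ W, ¬ w ∣ Phi l (t * q))).card : ℝ) ≤
          (1 / ((M * w).totient : ℝ) * (∏ w ∈ W, (((w : ℝ) - 2) / ((w : ℝ) - 1))) + η / (2 * w)) *
            (x / Real.log x) := by
      intro b hb
      refine ih (fun w' hw' => hW w' (Finset.mem_insert_of_mem hw')) (M * w) (c b) hMw
        (hccop b hb) ?_ (η / (2 * w)) (by have := hw.pos; positivity)
      intro w' hw'
      refine Nat.Coprime.mul_right (hcop w' (Finset.mem_insert_of_mem hw')) ?_
      rw [Nat.coprime_primes (hW w' (Finset.mem_insert_of_mem hw')).1 hw]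
      rintro rfl
      exact hwW hw'
    have hall := (Filter.eventually_all_finset B).mpr hev
    have hlogx : Tendsto (fun x : ℕ => Real.log (x : ℝ) / x) atTop (𝓝 0) := by
      have := (Real.isLittleO_log_id_atTop.tendsto_div_nhds_zero).comp
        (tendsto_natCast_atTop_atTop (R := ℝ))
      simpa [Function.comp_def] using this
    have hsmall := hlogx.eventually (gt_mem_nhds (show (0 : ℝ) < η / 2 by linarith))
    filter_upwards [hall, hsmall, eventually_ge_atTop 3] with x hx hxs hx3
    have hx0 : (0 : ℝ) < x := by positivity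
    have hx3' : (3 : ℝ) ≤ x := by exact_mod_cast hx3
    have hlog : 0 < Real.log x := Real.log_pos (by linarith)
    have hone : (1 : ℝ) ≤ η / 2 * (x / Real.log x) := by
      rw [div_lt_iff₀ hx0] at hxs
      rw [← mul_div_assoc, le_div_iff₀ hlog]
      linarith
    have hsub : (range x).filter (fun q => q.Prime ∧ q % M = a % M ∧
          ∀ w' ∈ insert w W, ¬ w' ∣ Phi l (t * q)) ⊆
        {w} ∪ B.biUnion (fun b => (range x).filter (fun q => q.Prime ∧
          q % (M * w) = c b % (M * w) ∧ ∀ w ∈ W, ¬ w ∣ Phi l (t * q))) := by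
      intro q hq
      rw [Finset.mem_filter] at hq
      obtain ⟨hqx, hqp, hqM, hqW⟩ := hq
      rw [Finset.mem_union, Finset.mem_singleton, Finset.mem_biUnion]
      by_cases hqw : q = w
      · exact Or.inl hqw
      · right
        refine ⟨q % w, ?_, ?_⟩
        · rw [hB, Finset.mem_filter, Finset.mem_range]
          refine ⟨Nat.mod_lt _ hw.pos, ?_, ?_⟩
          · intro h0
            have := Nat.dvd_of_mod_eq_zero h0
            exact hqw ((Nat.prime_dvd_prime_iff_eq hw hqp).mp this).symm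
          · intro hd
            apply hqW w (Finset.mem_insert_self _ _)
            have : t * (q % w) ≡ t * q [MOD w] := Nat.ModEq.mul_left t (Nat.mod_modEq q w)
            exact ((Phi_modEq (l := l) this).dvd_iff dvd_rfl).mp hd
        · rw [Finset.mem_filter]
          refine ⟨hqx, hqp, ?_, fun w' hw' => hqW w' (Finset.mem_insert_of_mem hw')⟩
          refine (Nat.modEq_and_modEq_iff_modEq_mul hwM.symm).mp ⟨?_, ?_⟩
          · exact Nat.ModEq.trans hqM (hc1 (q % w)).symm
          · exact (Nat.mod_modEq q w).symm.trans (hc2 (q % w)).symm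
    have hcard : (((range x).filter (fun q => q.Prime ∧ q % M = a % M ∧
          ∀ w' ∈ insert w W, ¬ w' ∣ Phi l (t * q))).card : ℝ) ≤ 1 + ∑ b ∈ B,
          (((range x).filter (fun q => q.Prime ∧
          q % (M * w) = c b % (M * w) ∧ ∀ w ∈ W, ¬ w ∣ Phi l (t * q))).card : ℝ) := by
      have h1 := (Finset.card_le_card hsub).trans (Finset.card_union_le _ _)
      rw [Finset.card_singleton] at h1
      have h2 := h1.trans (Nat.add_le_add_left Finset.card_biUnion_le 1)
      exact_mod_cast h2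
    set P : ℝ := ∏ w ∈ W, (((w : ℝ) - 2) / ((w : ℝ) - 1)) with hP
    have hP0 : 0 ≤ P := by
      refine Finset.prod_nonneg fun w' hw' => ?_
      have : (2 : ℝ) ≤ w' := by
        exact_mod_cast (hW w' (Finset.mem_insert_of_mem hw')).1.two_le
      apply div_nonneg <;> linarith
    have hwr : (2 : ℝ) < w := by exact_mod_cast hw2
    have hw20 : ((w - 2 : ℕ) : ℝ) = (w : ℝ) - 2 := by
      rw [Nat.cast_sub hw2.le]; norm_num
    have hw10 : ((w - 1 : ℕ) : ℝ) = (w : ℝ) - 1 := by
      rw [Nat.cast_sub (by omega)]; norm_num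
    have hq0 : 0 ≤ (x : ℝ) / Real.log x := by positivity
    have htot : ((M * w).totient : ℝ) = (M.totient : ℝ) * ((w : ℝ) - 1) := by
      rw [Nat.totient_mul hwM.symm, Nat.totient_prime hw]
      push_cast
      rw [hw10]
    have hMt : (0 : ℝ) < M.totient := by exact_mod_cast Nat.totient_pos.mpr hM
    calc _ ≤ 1 + ∑ b ∈ B, (((range x).filter (fun q => q.Prime ∧
          q % (M * w) = c b % (M * w) ∧ ∀ w ∈ W, ¬ w ∣ Phi l (t * q))).card : ℝ) := hcard
      _ ≤ 1 + ∑ b ∈ B, (1 / ((M * w).totient : ℝ) * P + η / (2 * w)) * (x / Real.log x) := by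
          gcongr with b hb
          exact hx b hb
      _ = 1 + B.card * ((1 / ((M * w).totient : ℝ) * P + η / (2 * w)) * (x / Real.log x)) := by
          rw [Finset.sum_const, nsmul_eq_mul]
      _ ≤ 1 + ((w : ℝ) - 2) * ((1 / ((M * w).totient : ℝ) * P + η / (2 * w)) *
            (x / Real.log x)) := by
          have h1 : (B.card : ℝ) ≤ (w : ℝ) - 2 := by
            rw [← hw20]; exact_mod_cast hBcard
          have h2 : 0 ≤ (1 / ((M * w).totient : ℝ) * P + η / (2 * w)) * (x / Real.log x) := by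
            positivity
          gcongr
      _ ≤ η / 2 * (x / Real.log x) + ((w : ℝ) - 2) * ((1 / ((M * w).totient : ℝ) * P +
            η / (2 * w)) * (x / Real.log x)) := by gcongr
      _ = (1 / (M.totient : ℝ) * ((((w : ℝ) - 2) / ((w : ℝ) - 1)) * P) +
            (η / 2 + ((w : ℝ) - 2) * (η / (2 * w)))) * (x / Real.log x) := by
          rw [htot]
          have : (w : ℝ) - 1 ≠ 0 := by linarith
          field_simp
          ring
      _ ≤ (1 / (M.totient : ℝ) * (∏ w ∈ insert w W, (((w : ℝ) - 2) / ((w : ℝ) - 1))) + η) *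
            (x / Real.log x) := by
          rw [Finset.prod_insert hwW]
          apply mul_le_mul_of_nonneg_right _ hq0
          have h1 : ((w : ℝ) - 2) * (η / (2 * w)) ≤ η / 2 := by
            rw [← mul_div_assoc, div_le_iff₀ (by linarith)]
            nlinarith
          linarith

theorem prime_count {l t : ℕ} (hl : 2 ≤ l) (W : Finset ℕ)
    (hW : ∀ w ∈ W, w.Prime ∧ w % l = 1 ∧ ¬ w ∣ t) {η : ℝ} (hη : 0 < η) :
    ∃ x₀ : ℕ, ∀ x : ℕ, x₀ ≤ x →
      (((range x).filter (fun q => q.Prime ∧ ∀ w ∈ W, ¬ w ∣ Phi l (t * q))).card : ℝ) ≤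
        (Real.exp (-∑ w ∈ W, ((w : ℝ))⁻¹) + η) * (x / Real.log x) := by
  classical
  have h := count_step hl W hW 1 0 one_pos (by simp) (fun w _ => Nat.coprime_one_right w) η hη
  rw [Filter.eventually_atTop] at h
  obtain ⟨x₀, hx₀⟩ := h
  refine ⟨x₀, fun x hx => ?_⟩
  have h1 := hx₀ x hx
  have hset : (range x).filter (fun q => q.Prime ∧ ∀ w ∈ W, ¬ w ∣ Phi l (t * q)) =
      (range x).filter (fun q => q.Prime ∧ q % 1 = 0 % 1 ∧ ∀ w ∈ W, ¬ w ∣ Phi l (t * q)) := by
    ext q
    simp [Nat.mod_one]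
  have hle : ∏ w ∈ W, (((w : ℝ) - 2) / ((w : ℝ) - 1)) ≤ Real.exp (-∑ w ∈ W, ((w : ℝ))⁻¹) := by
    rw [← Finset.sum_neg_distrib, Real.exp_sum]
    refine Finset.prod_le_prod (fun w hw => ?_) (fun w hw => ?_)
    · have : (2 : ℝ) ≤ w := by exact_mod_cast (hW w hw).1.two_le
      apply div_nonneg <;> linarith
    · have h2 : (2 : ℝ) ≤ w := by exact_mod_cast (hW w hw).1.two_le
      have h3 := Real.add_one_le_exp (-((w : ℝ))⁻¹)
      refine le_trans ?_ h3
      rw [div_le_iff₀ (by linarith)]
      have h4 : ((w : ℝ))⁻¹ * ((w : ℝ) - 1) ≤ 1 := by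
        rw [inv_mul_le_iff₀ (by linarith)]
        linarith
      nlinarith
  have hq0 : 0 ≤ (x : ℝ) / Real.log x := div_nonneg (by positivity) (Real.log_natCast_nonneg x)
  rw [hset]
  refine h1.trans (mul_le_mul_of_nonneg_right ?_ hq0)
  rw [Nat.totient_one, Nat.cast_one, div_one, one_mul]
  linarith

end Pool.Agent.Lib.MP_79499b_co.PC
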