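import Mathlib

/-!
# MP_79499b_co, module F2 (PCCyclo): `t` is not a `2 ^ r`-th power in a cyclotomic field
-/

namespace Pool.Agent.Lib.MP_79499b_co.PC

open Polynomial

theorem rat_pow_den {b : ℚ} {R t : ℕ} (hR : R ≠ 0) (h : b ^ R = (t : ℚ) ^ 2) : b.den = 1 := by
  have h1 : (b ^ R).den = b.den ^ R := Rat.den_pow b R
  have h2 : ((t : ℚ) ^ 2).den = 1 := by
    have : ((t : ℚ) ^ 2) = ((t ^ 2 : ℕ) : ℚ) := by push_cast; rfl
    rw [this, Rat.den_natCast]
  rw [h, h2] at h1
  exact (Nat.pow_eq_one.mp h1.symm).resolve_right hR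

theorem not_pow_cyclo {t : ℕ} (ht : 2 ≤ t) {N r : ℕ} (hN : 0 < N) (hr : 2 ^ r ∣ N)
    (htr : t < 2 ^ (r - 1)) (F : Type) [Field F] [CharZero F] [IsCyclotomicExtension {N} ℚ F]
    (y : F) : y ^ (2 ^ r) ≠ (t : F) := by
  intro hy
  have : NeZero N := ⟨hN.ne'⟩
  have hr1 : 1 ≤ r := by
    rcases Nat.eq_zero_or_pos r with h | h
    · subst h; simp at htr; omega
    · exact h
  have hgal : IsGalois ℚ F := IsCyclotomicExtension.isGalois {N} ℚ F
  have hfin : FiniteDimensional ℚ F := IsCyclotomicExtension.finiteDimensional {N} ℚ F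
  have hirr : Irreducible (cyclotomic N ℚ) := cyclotomic.irreducible_rat hN
  have hζ := IsCyclotomicExtension.zeta_spec N ℚ F
  have hinv := hζ.inv
  set c := IsCyclotomicExtension.fromZetaAut hinv hirr with hc
  have hcζ : c (IsCyclotomicExtension.zeta N ℚ F) = (IsCyclotomicExtension.zeta N ℚ F)⁻¹ :=
    IsCyclotomicExtension.fromZetaAut_spec hinv hirr
  -- `c` inverts the roots of unity
  have hcξ : ∀ ξ : F, ξ ^ (2 ^ r) = 1 → c ξ = ξ⁻¹ := by
    intro ξ hξ
    have hξN : ξ ^ N = 1 := by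
      obtain ⟨k, hk⟩ := hr
      rw [hk, pow_mul, hξ, one_pow]
    obtain ⟨i, -, hi⟩ := hζ.eq_pow_of_pow_eq_one hξN
    rw [← hi, map_pow, hcζ, inv_pow]
  -- commutation
  have hcomm : ∀ σ : Gal(F/ℚ), ∀ z : F, σ (c z) = c (σ z) := by
    intro σ z
    have h1 : σ * c = c * σ := by
      apply (IsCyclotomicExtension.autEquivPow F hirr).injective
      rw [map_mul, map_mul, mul_comm]
    have := congrArg (fun f : Gal(F/ℚ) => f z) h1
    simpa using this
  have ht0 : (t : F) ≠ 0 := by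
    have : t ≠ 0 := by omega
    exact_mod_cast this
  have hy0 : y ≠ 0 := by
    intro h
    rw [h, zero_pow (by positivity)] at hy
    exact ht0 hy.symm
  -- the cocycle
  have hcoc : ∀ σ : Gal(F/ℚ), (σ y / y) ^ (2 ^ r) = 1 := by
    intro σ
    rw [div_pow, ← map_pow, hy, map_natCast, div_self ht0]
  have hfix : ∀ σ : Gal(F/ℚ), σ (c y * y) = c y * y := by
    intro σ
    have h1 : c (σ y / y) = (σ y / y)⁻¹ := hcξ _ (hcoc σ)
    have hcy : c y ≠ 0 := by
      intro h
      exact hy0 (c.injective (by rw [h, map_zero]))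
    have hσy : σ y ≠ 0 := by
      intro h
      exact hy0 (σ.injective (by rw [h, map_zero]))
    rw [map_div₀, inv_div, div_eq_div_iff hcy hσy] at h1
    rw [map_mul, hcomm, h1, mul_comm]
  obtain ⟨b, hb⟩ := (IsGalois.mem_range_algebraMap_iff_fixed (F := ℚ) (E := F) (c y * y)).mpr hfix
  have hbR : b ^ (2 ^ r) = (t : ℚ) ^ 2 := by
    have h1 : algebraMap ℚ F (b ^ (2 ^ r)) = algebraMap ℚ F ((t : ℚ) ^ 2) := by
      rw [map_pow, hb, mul_pow, ← map_pow, hy, map_natCast, map_pow, map_natCast]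
      ring
    exact (algebraMap ℚ F).injective h1
  have hden := rat_pow_den (by positivity) hbR
  have hbn : b = (b.num : ℚ) := by
    rw [Rat.coe_int_num_of_den_eq_one hden]
  -- pass to natural numbers
  have hnat : b.num.natAbs ^ (2 ^ r) = t ^ 2 := by
    have h1 : b.num ^ (2 ^ r) = (t : ℤ) ^ 2 := by
      rw [hbn] at hbR
      exact_mod_cast hbR
    have h2 := congrArg Int.natAbs h1
    rw [Int.natAbs_pow, Int.natAbs_pow, Int.natAbs_natCast] at h2
    exact h2
  set m := b.num.natAbs with hm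
  have hr2 : 2 ^ r = 2 ^ (r - 1) * 2 := by
    rw [← pow_succ]
    congr 1
    omega
  rw [hr2, pow_mul] at hnat
  have hmt : m ^ (2 ^ (r - 1)) = t := Nat.pow_left_injective (n := 2) (by norm_num) hnat
  have hm2 : 2 ≤ m := by
    by_contra hlt
    have hcases : m = 0 ∨ m = 1 := by omega
    rcases hcases with h | h
    · rw [h, zero_pow (by positivity)] at hmt; omega
    · rw [h, one_pow] at hmt; omega
  have h3 : 2 ^ (2 ^ (r - 1)) ≤ t := by
    rw [← hmt]
    exact Nat.pow_le_pow_left hm2 _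
  have h4 : 2 ^ (r - 1) < 2 ^ (2 ^ (r - 1)) := Nat.lt_two_pow_self
  omega

end Pool.Agent.Lib.MP_79499b_co.PC
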