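import Pool.Agent.Lib.MP_79499b_co.Q38Deduce

/-!
# Definitions for the asymptotic prime power conjecture for odd composite `m`
-/

namespace Pool.Agent.Lib.MP_79499b_co.PC

open Q38

/-- no prime dividing `n` to an odd power has `-1` among its powers modulo a prime divisor of
`Phi l n` -/
def Exc2 (l n : ℕ) : Prop :=
  ∀ p : ℕ, p.Prime → Odd (n.factorization p) → ∀ w : ℕ, w.Prime → w ∣ Phi l n →
    ∀ j : ℕ, ¬ w ∣ p ^ j + 1

/-- `n` is `e s ^ 2` or `e s ^ 2 q` with `e ∣ l` and `q` prime -/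
def Shape (l n : ℕ) : Prop := ∃ e s q : ℕ, e ∣ l ∧ (q = 1 ∨ q.Prime) ∧ n = e * s ^ 2 * q

end Pool.Agent.Lib.MP_79499b_co.PC
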