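import Pool.Agent.Lib.MP_79499b_co.PCDefs
import Pool.Agent.Lib.MP_79499b_co.PC.L1

/-!
# The order test of Lander for arbitrary finite groups, in the form `Exc2`
-/

set_option autoImplicit false

namespace Pool.Agent.Lib.MP_79499b_co.PC

open Finset Filter Topology
open scoped Classical NumberTheorySymbols
open Q38

/-- `n ^ l = 1` modulo the prime divisors of `Phi l n` -/
theorem pow_eq_one_of_dvd_Phi {l n w : ℕ} (hw : w.Prime) (hdvd : w ∣ Phi l n) :
    (n : ZMod w) ^ l = 1 := by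
  have : Fact w.Prime := ⟨hw⟩
  have h1 : ((Phi l n : ℕ) : ZMod w) = 0 := (ZMod.natCast_eq_zero_iff _ _).mpr hdvd
  unfold Phi at h1
  push_cast at h1
  have h2 := geom_sum_mul (n : ZMod w) l
  rw [h1, zero_mul] at h2
  exact (sub_eq_zero.mp h2.symm)

theorem exc2_of_singer {n m l : ℕ} (hn : 2 ≤ n) (hm : 3 ≤ m) (hodd : Odd m) (hlm : l ∣ m)
    {G : Type} [Group G] [Fintype G] [DecidableEq G] (D : Finset G)
    (hG : Fintype.card G * (n - 1) = n ^ m - 1)
    (hD : D.card * (n - 1) = n ^ (m - 1) - 1)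
    (hlam : ∀ g : G, g ≠ 1 →
      ((D ×ˢ D).filter (fun p : G × G => p.1 * p.2⁻¹ = g)).card * (n - 1) = n ^ (m - 2) - 1) :
    Exc2 l n := by
  intro p hp hpodd w hw hwn j hwj
  have hn1 : 0 < n - 1 := by omega
  have hgeom : ∀ t : ℕ, (∑ i ∈ Finset.range t, n ^ i) * (n - 1) = n ^ t - 1 := by
    intro t
    rw [Nat.geomSum_eq hn, Nat.div_mul_cancel]
    exact Nat.sub_one_dvd_pow_sub_one n t
  have hdvd : Phi l n ∣ Phi m n := by
    apply Nat.dvd_of_mul_dvd_mul_right hn1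
    unfold Phi
    rw [hgeom, hgeom]
    obtain ⟨k, rfl⟩ := hlm
    rw [pow_mul]
    exact Nat.sub_one_dvd_pow_sub_one (n ^ l) k
  have : Fact w.Prime := ⟨hw⟩
  have h1 := orderOf_odd hn hm hodd D hG hD hlam hp hpodd hw (hwn.trans hdvd)
  have hlodd : Odd l := Odd.of_dvd_nat hodd hlm
  have hw2 : w ≠ 2 := by
    rintro rfl
    have := Phi_odd (n := n) hlodd
    rw [← Nat.not_even_iff_odd] at this
    exact this (even_iff_two_dvd.mpr hwn)
  have h2 : (p : ZMod w) ^ j = -1 := by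
    have : ((p ^ j + 1 : ℕ) : ZMod w) = 0 := (ZMod.natCast_eq_zero_iff _ _).mpr hwj
    push_cast at this
    exact eq_neg_of_add_eq_zero_left this
  have h3 : ((-1 : ZMod w)) ^ orderOf (p : ZMod w) = 1 := by
    rw [← h2, ← pow_mul, mul_comm, pow_mul, pow_orderOf_eq_one, one_pow]
  rw [h1.neg_one_pow] at h3
  have : Fact (2 < w) := ⟨lt_of_le_of_ne hw.two_le (Ne.symm hw2)⟩
  exact ZMod.neg_one_ne_one h3

theorem exc_of_exc2 {l n : ℕ} (hlo : Odd l) (h : Exc2 l n) : Exc l n := by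
  intro p hp hpodd w hw hwn hJ
  have hw2 : w ≠ 2 := by
    rintro rfl
    have := Phi_odd (n := n) hlo
    rw [← Nat.not_even_iff_odd] at this
    exact this (even_iff_two_dvd.mpr hwn)
  exact h p hp hpodd w hw hwn _ (dvd_pow_of_jacobi hw hw2 hJ).2

theorem exists_pow_add_one {l t q w : ℕ} (hlo : Odd l) (hw : w.Prime) (hdvd : w ∣ Phi l (t * q))
    (hev : Even (orderOf (t : ZMod w))) : ∃ j, w ∣ q ^ j + 1 := by
  have : Fact w.Prime := ⟨hw⟩
  have hl0 : l ≠ 0 := by
    rintro rfl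
    exact absurd hlo (by decide)
  have h1 := pow_eq_one_of_dvd_Phi hw hdvd
  push_cast at h1
  have hq0 : (q : ZMod w) ≠ 0 := by
    intro h
    rw [h, mul_zero, zero_pow hl0] at h1
    exact zero_ne_one h1
  have h2 : Even (orderOf (q : ZMod w)) := by
    by_contra hodd
    rw [Nat.not_even_iff_odd] at hodd
    have h3 : (t : ZMod w) ^ (l * orderOf (q : ZMod w)) = 1 := by
      have h4 : ((t : ZMod w) * q) ^ (l * orderOf (q : ZMod w)) = 1 := by
        rw [pow_mul, h1, one_pow]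
      have h5 : (q : ZMod w) ^ (l * orderOf (q : ZMod w)) = 1 := by
        rw [mul_comm, pow_mul, pow_orderOf_eq_one, one_pow]
      rw [mul_pow, h5, mul_one] at h4
      exact h4
    have h6 := Odd.of_dvd_nat (hlo.mul hodd) (orderOf_dvd_of_pow_eq_one h3)
    exact (Nat.not_even_iff_odd.mpr h6) hev
  obtain ⟨j, _, hj⟩ := exists_pow_eq_neg_one hq0 h2
  refine ⟨j, ?_⟩
  rw [← ZMod.natCast_eq_zero_iff]
  push_cast
  rw [hj]
  ring

end Pool.Agent.Lib.MP_79499b_co.PC
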