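import Pool.Agent.Lib.MP_2f3286_ag.Zeta

/-!
# Primes of a number field over a rational prime
-/

namespace Pool.Agent.Lib.MP_79499b_co.PC

open Finset Filter Topology
open scoped Classical

open NumberField IsDedekindDomain Ideal Pool.Agent.Lib.MP_2f3286_ag

section

variable (F : Type) [Field F] [NumberField F]

theorem absNorm_ne_one' (w : HeightOneSpectrum (𝓞 F)) : absNorm w.asIdeal ≠ 1 := by
  intro h
  exact w.isPrime.ne_top (absNorm_eq_one_iff.mp h)

theorem absNorm_dvd_pow {w : HeightOneSpectrum (𝓞 F)} {p : ℕ} (hp : (p : 𝓞 F) ∈ w.asIdeal) :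
    absNorm w.asIdeal ∣ p ^ Module.finrank ℚ F := by
  have h1 : span {(p : 𝓞 F)} ≤ w.asIdeal := (span_singleton_le_iff_mem _).2 hp
  have h2 := absNorm_dvd_absNorm_of_le h1
  rwa [absNorm_span_natCast, RingOfIntegers.rank] at h2

theorem le_absNorm {w : HeightOneSpectrum (𝓞 F)} {p : ℕ} (hpp : p.Prime)
    (hp : (p : 𝓞 F) ∈ w.asIdeal) : p ≤ absNorm w.asIdeal := by
  obtain ⟨k, hk, h⟩ := (Nat.dvd_prime_pow hpp).1 (absNorm_dvd_pow F hp)
  have hk0 : k ≠ 0 := by
    rintro rfl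
    exact absNorm_ne_one' F w (by rw [h, pow_zero])
  rw [h]
  exact Nat.le_self_pow hk0 p

theorem sq_le_absNorm {w : HeightOneSpectrum (𝓞 F)} {p : ℕ} (hpp : p.Prime)
    (hp : (p : 𝓞 F) ∈ w.asIdeal) (hn : ¬ (absNorm w.asIdeal).Prime) :
    p ^ 2 ≤ absNorm w.asIdeal := by
  obtain ⟨k, hk, h⟩ := (Nat.dvd_prime_pow hpp).1 (absNorm_dvd_pow F hp)
  have hk0 : k ≠ 0 := by
    rintro rfl
    exact absNorm_ne_one' F w (by rw [h, pow_zero])
  have hk1 : k ≠ 1 := by
    rintro rfl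
    rw [pow_one] at h
    exact hn (h ▸ hpp)
  rw [h]
  exact Nat.pow_le_pow_right hpp.pos (by omega)

theorem exists_prime_mem (w : HeightOneSpectrum (𝓞 F)) :
    ∃ p : ℕ, p.Prime ∧ (p : 𝓞 F) ∈ w.asIdeal := by
  have key : ∀ n : ℕ, n ≠ 0 → (n : 𝓞 F) ∈ w.asIdeal → ∃ p : ℕ, p.Prime ∧ (p : 𝓞 F) ∈ w.asIdeal := by
    intro n
    induction n using Nat.strong_induction_on with
    | _ n ih =>
      intro hn hm
      have h1 : n ≠ 1 := by
        rintro rfl
        rw [Nat.cast_one] at hm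
        exact w.isPrime.ne_top ((eq_top_iff_one _).2 hm)
      obtain ⟨p, hp, m, rfl⟩ := Nat.exists_prime_and_dvd h1
      rw [Nat.cast_mul] at hm
      rcases w.isPrime.mem_or_mem hm with h | h
      · exact ⟨p, hp, h⟩
      · have hm0 : m ≠ 0 := by rintro rfl; exact hn (by simp)
        refine ih m ?_ hm0 h
        have : 0 < m := Nat.pos_of_ne_zero hm0
        nlinarith [hp.two_le]
  exact key _ (absNorm_pos F w).ne' (absNorm_mem _)

/-- At most `[F : ℚ]` primes lie over a rational prime. -/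
theorem card_over_le {p : ℕ} (hpp : p.Prime) (A : Finset (HeightOneSpectrum (𝓞 F)))
    (hA : ∀ w ∈ A, (p : 𝓞 F) ∈ w.asIdeal) : A.card ≤ Module.finrank ℚ F := by
  have hinj : Function.Injective fun w : HeightOneSpectrum (𝓞 F) => w.asIdeal :=
    fun w w' h => HeightOneSpectrum.ext h
  have h1 : ∏ I ∈ A.image (fun w => w.asIdeal), I ∣ span {(p : 𝓞 F)} := by
    refine Finset.prod_primes_dvd _ ?_ ?_
    · intro I hI
      obtain ⟨w, _, rfl⟩ := Finset.mem_image.1 hI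
      exact w.prime
    · intro I hI
      obtain ⟨w, hw, rfl⟩ := Finset.mem_image.1 hI
      exact dvd_iff_le.2 ((span_singleton_le_iff_mem _).2 (hA w hw))
  have h2 : absNorm (∏ I ∈ A.image (fun w => w.asIdeal), I) ∣ p ^ Module.finrank ℚ F := by
    have := absNorm_dvd_absNorm_of_le (le_of_dvd h1)
    rwa [absNorm_span_natCast, RingOfIntegers.rank] at this
  rw [map_prod, Finset.prod_image fun _ _ _ _ h => hinj h] at h2
  have h3 : p ^ A.card ≤ ∏ w ∈ A, absNorm w.asIdeal := by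
    rw [← Finset.prod_const]
    exact Finset.prod_le_prod' fun w hw => le_absNorm F hpp (hA w hw)
  have h4 := h3.trans (Nat.le_of_dvd (pow_pos hpp.pos _) h2)
  exact (Nat.pow_le_pow_iff_right hpp.one_lt).1 h4

end

theorem fibre_sum_le (F : Type) [Field F] [NumberField F] (A : Finset (HeightOneSpectrum (𝓞 F)))
    (hA : ∀ w ∈ A, (absNorm w.asIdeal).Prime) {s : ℝ} (hs : 1 < s) (K : ℝ)
    (hK : ∀ P : Finset ℕ, (∀ p ∈ P, ∃ w ∈ A, absNorm w.asIdeal = p) →
      ∑ p ∈ P, ((p : ℝ))⁻¹ ≤ K) :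
    ∑ w ∈ A, xw F s w ≤ Module.finrank ℚ F * K := by
  set P : Finset ℕ := A.image fun w => absNorm w.asIdeal with hP
  have h1 : ∀ w ∈ A, absNorm w.asIdeal ∈ P := fun w hw => Finset.mem_image_of_mem _ hw
  rw [← Finset.sum_fiberwise_of_maps_to h1]
  have h2 : ∀ p ∈ P, ∑ w ∈ A with absNorm w.asIdeal = p, xw F s w ≤
      Module.finrank ℚ F * ((p : ℝ))⁻¹ := by
    intro p hp
    obtain ⟨w0, hw0, hw0p⟩ := Finset.mem_image.1 hp
    have hpp : p.Prime := hw0p ▸ hA w0 hw0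
    have hp1 : (1 : ℝ) ≤ p := by exact_mod_cast hpp.one_lt.le
    have h3 : ∀ w ∈ A.filter (fun w => absNorm w.asIdeal = p), xw F s w ≤ ((p : ℝ))⁻¹ := by
      intro w hw
      rw [xw, (Finset.mem_filter.1 hw).2, ← Real.rpow_neg_one]
      exact Real.rpow_le_rpow_of_exponent_le hp1 (by linarith)
    refine (Finset.sum_le_card_nsmul _ _ _ h3).trans ?_
    rw [nsmul_eq_mul]
    refine mul_le_mul_of_nonneg_right ?_ (by positivity)
    have := card_over_le F hpp (A.filter fun w => absNorm w.asIdeal = p) (by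
      intro w hw
      have h := absNorm_mem w.asIdeal
      rwa [(Finset.mem_filter.1 hw).2] at h)
    exact_mod_cast this
  refine (Finset.sum_le_sum h2).trans ?_
  rw [← Finset.mul_sum]
  refine mul_le_mul_of_nonneg_left (hK P ?_) (Nat.cast_nonneg _)
  intro p hp
  obtain ⟨w, hw, h⟩ := Finset.mem_image.1 hp
  exact ⟨w, hw, h⟩

theorem nonprime_norm_sum_le (F : Type) [Field F] [NumberField F] :
    ∃ C : ℝ, ∀ s : ℝ, 1 < s → ∀ A : Finset (HeightOneSpectrum (𝓞 F)),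
      (∀ w ∈ A, ¬ (absNorm w.asIdeal).Prime) → ∑ w ∈ A, xw F s w ≤ C := by
  refine ⟨Module.finrank ℚ F * ∑' k : ℕ, ((k : ℝ) ^ 2)⁻¹, ?_⟩
  intro s hs A hA
  choose pr hpr1 hpr2 using exists_prime_mem F
  set P : Finset ℕ := A.image pr with hP
  have h1 : ∀ w ∈ A, pr w ∈ P := fun w hw => Finset.mem_image_of_mem _ hw
  rw [← Finset.sum_fiberwise_of_maps_to h1]
  have h2 : ∀ p ∈ P, ∑ w ∈ A with pr w = p, xw F s w ≤
      Module.finrank ℚ F * ((p : ℝ) ^ 2)⁻¹ := by
    intro p hp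
    obtain ⟨w0, hw0, hw0p⟩ := Finset.mem_image.1 hp
    have hpp : p.Prime := hw0p ▸ hpr1 w0
    have hp0 : (0 : ℝ) < p := by exact_mod_cast hpp.pos
    have h3 : ∀ w ∈ A.filter (fun w => pr w = p), xw F s w ≤ ((p : ℝ) ^ 2)⁻¹ := by
      intro w hw
      have hw' := Finset.mem_filter.1 hw
      have h4 : p ^ 2 ≤ absNorm w.asIdeal :=
        sq_le_absNorm F hpp (hw'.2 ▸ hpr2 w) (hA w hw'.1)
      have h5 : (p : ℝ) ^ 2 ≤ absNorm w.asIdeal := by exact_mod_cast h4
      have h6 : (1 : ℝ) ≤ absNorm w.asIdeal := by exact_mod_cast absNorm_pos F w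
      calc xw F s w ≤ (absNorm w.asIdeal : ℝ) ^ (-1 : ℝ) :=
            Real.rpow_le_rpow_of_exponent_le h6 (by linarith)
        _ = ((absNorm w.asIdeal : ℝ))⁻¹ := Real.rpow_neg_one _
        _ ≤ ((p : ℝ) ^ 2)⁻¹ := inv_anti₀ (by positivity) h5
    refine (Finset.sum_le_card_nsmul _ _ _ h3).trans ?_
    rw [nsmul_eq_mul]
    refine mul_le_mul_of_nonneg_right ?_ (by positivity)
    have := card_over_le F hpp (A.filter fun w => pr w = p) (by
      intro w hw
      exact (Finset.mem_filter.1 hw).2 ▸ hpr2 w)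
    exact_mod_cast this
  refine (Finset.sum_le_sum h2).trans ?_
  rw [← Finset.mul_sum]
  refine mul_le_mul_of_nonneg_left ?_ (Nat.cast_nonneg _)
  exact (Real.summable_nat_pow_inv.2 one_lt_two).sum_le_tsum _ fun k _ => by positivity

end Pool.Agent.Lib.MP_79499b_co.PC
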