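import Mathlib

set_option autoImplicit false

namespace Pool.Agent.Lib.MP_79499b_co.PC

open Polynomial

/-- residue fields: a prime ideal of prime norm `p`, `p ∤ N`, in a field containing the `N`-th
roots of unity has `p ≡ 1 (mod N)`; and if `t` is not a `2 ^ r`-th power modulo the ideal then
`orderOf (t : ZMod p)` is even. -/
theorem residue_facts {F : Type} [Field F] [NumberField F] {N r t p : ℕ} (hN : 2 ≤ N)
    {ζ : F} (hζ : IsPrimitiveRoot ζ N)
    (w : IsDedekindDomain.HeightOneSpectrum (NumberField.RingOfIntegers F))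
    (hp : p.Prime) (hw : Ideal.absNorm w.asIdeal = p) (hpN : ¬ p ∣ N)
    (ht : (t : NumberField.RingOfIntegers F) ∉ w.asIdeal)
    (hnr : ¬ ∃ a : NumberField.RingOfIntegers F, a ^ (2 ^ r) - t ∈ w.asIdeal) :
    p % N = 1 ∧ ¬ p ∣ t ∧ Even (orderOf (t : ZMod p)) := by
  have hp1 : Fact p.Prime := ⟨hp⟩
  have hN0 : NeZero N := ⟨by omega⟩
  have hmax : w.asIdeal.IsMaximal := w.isMaximal
  let _ : Field (NumberField.RingOfIntegers F ⧸ w.asIdeal) := Ideal.Quotient.field w.asIdeal
  have hcard : Nat.card (NumberField.RingOfIntegers F ⧸ w.asIdeal) = p := by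
    rw [← hw]
    rfl
  have _ : Finite (NumberField.RingOfIntegers F ⧸ w.asIdeal) := by
    apply Nat.finite_of_card_ne_zero
    rw [hcard]
    exact hp.ne_zero
  let _ : Fintype (NumberField.RingOfIntegers F ⧸ w.asIdeal) := Fintype.ofFinite _
  let e : ZMod p ≃+* (NumberField.RingOfIntegers F ⧸ w.asIdeal) := ZMod.ringEquivOfPrime _ hp
      (by rw [← Nat.card_eq_fintype_card, hcard])
  have hcast : ∀ k : ℕ, ((k : NumberField.RingOfIntegers F ⧸ w.asIdeal)) = 0 ↔ p ∣ k := by
    intro k
    rw [← map_natCast e, map_eq_zero_iff e e.injective, ZMod.natCast_eq_zero_iff]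
  have hmem : ∀ k : ℕ, ((k : NumberField.RingOfIntegers F) ∈ w.asIdeal) ↔ p ∣ k := by
    intro k
    rw [← hcast, ← Ideal.Quotient.eq_zero_iff_mem, map_natCast]
  refine ⟨?_, ?_, ?_⟩
  · have h1 : IsPrimitiveRoot hζ.toInteger N := hζ.toInteger_isPrimitiveRoot
    have _ : NeZero (N : NumberField.RingOfIntegers F) := ⟨by
      rw [Ne, Nat.cast_eq_zero]
      omega⟩
    have _ : NeZero (N : NumberField.RingOfIntegers F ⧸ w.asIdeal) := ⟨by
      rw [Ne, hcast]
      exact hpN⟩
    have h2 : (cyclotomic N (NumberField.RingOfIntegers F)).IsRoot hζ.toInteger := by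
      rw [isRoot_cyclotomic_iff]
      exact h1
    have h3 : (cyclotomic N (NumberField.RingOfIntegers F ⧸ w.asIdeal)).IsRoot
        (Ideal.Quotient.mk w.asIdeal hζ.toInteger) := by
      rw [← map_cyclotomic N (Ideal.Quotient.mk w.asIdeal)]
      exact h2.map
    rw [isRoot_cyclotomic_iff] at h3
    have h4 : (Ideal.Quotient.mk w.asIdeal hζ.toInteger) ^ (p - 1) = 1 := by
      have h5 : (Ideal.Quotient.mk w.asIdeal hζ.toInteger) ≠ 0 := h3.ne_zero (by omega)
      have h6 : e.symm (Ideal.Quotient.mk w.asIdeal hζ.toInteger) ≠ 0 := by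
        rwa [Ne, map_eq_zero_iff e.symm e.symm.injective]
      have h7 := ZMod.pow_card_sub_one_eq_one h6
      rw [← map_pow, map_eq_one_iff e.symm e.symm.injective] at h7
      exact h7
    have h5 := h3.dvd_of_pow_eq_one _ h4
    obtain ⟨k, hk⟩ := h5
    have h6 : p = 1 + N * k := by
      have := hp.one_lt
      omega
    rw [h6, Nat.add_mul_mod_self_left]
    exact Nat.mod_eq_of_lt (by omega)
  · rwa [← hmem]
  · by_contra hodd
    rw [Nat.not_even_iff_odd] at hodd
    apply hnr
    have hco : Nat.Coprime (2 ^ r) (orderOf (t : ZMod p)) :=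
      Nat.Coprime.pow_left r (Nat.coprime_two_left.mpr hodd)
    obtain ⟨u, hu⟩ := exists_pow_eq_self_of_coprime hco
    refine ⟨(t : NumberField.RingOfIntegers F) ^ u, ?_⟩
    rw [← Ideal.Quotient.eq_zero_iff_mem, map_sub, map_pow, map_pow, map_natCast, sub_eq_zero,
      ← map_natCast e t, ← map_pow, ← map_pow, ← pow_mul, mul_comm u, pow_mul, hu]

end Pool.Agent.Lib.MP_79499b_co.PC
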