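import Pool.Agent.Lib.MP_2f3286_ag.KSplit
import Pool.Agent.Lib.MP_79499b_co.PCNorm
import Pool.Agent.Lib.MP_79499b_co.PCCyclo
import Pool.Agent.Lib.MP_79499b_co.PCResidue

/-!
# Module F4: primes `w = 1 mod l` with `orderOf t` even modulo `w` have divergent sum of reciprocals
-/

namespace Pool.Agent.Lib.MP_79499b_co.PC

open Finset Filter Topology
open scoped Classical NumberTheorySymbols

open NumberField IsDedekindDomain Ideal Pool.Agent.Lib.MP_2f3286_ag in
/-- finitely many primes contain a given nonzero element -/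
theorem finite_mem (F : Type) [Field F] [NumberField F] (a : 𝓞 F) (ha : a ≠ 0) :
    {w : HeightOneSpectrum (𝓞 F) | a ∈ w.asIdeal}.Finite := by
  have ha0 : (a : F) ≠ 0 := by
    intro h; exact ha (RingOfIntegers.ext h)
  refine (finite_val_ne_one (k := F) (a := (a : F)) ha0).subset ?_
  intro w hw
  simp only [Set.mem_ofPred_eq] at hw ⊢
  intro h1
  exact (HeightOneSpectrum.valuation_eq_one_iff_notMem (K := F) w).mp h1 hw

open NumberField IsDedekindDomain Ideal Pool.Agent.Lib.MP_2f3286_ag in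
/-- a family of primes with bounded partial sums has Kummer bound with any factor -/
theorem bounded_omega (F : Type) [Field F] [NumberField F] (Ω : Set (HeightOneSpectrum (𝓞 F)))
    (B : ℝ) (hB : ∀ s : ℝ, 1 < s → ∀ A : Finset (HeightOneSpectrum (𝓞 F)), (∀ w ∈ A, w ∈ Ω) →
      ∑ w ∈ A, xw F s w ≤ B) (d : ℕ) :
    ∃ C : ℝ, ∀ᶠ s : ℝ in 𝓝[>] 1,
      (d : ℝ) * ∑' w : Ω, xw F s w ≤ Real.log (1 / (s - 1)) + C := by
  refine ⟨d * B, ?_⟩
  filter_upwards [tendsto_log.eventually_ge_atTop 0, self_mem_nhdsWithin] with s hs0 hs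
  have hs' : (1 : ℝ) < s := hs
  have h1 : ∑' w : Ω, xw F s w ≤ B := by
    refine Real.tsum_le_of_sum_le (fun w => xw_nonneg F s _) fun Q => ?_
    have h2 := hB s hs' (Q.map ⟨Subtype.val, Subtype.val_injective⟩) (by
      intro w hw
      rw [Finset.mem_map] at hw
      obtain ⟨a, -, rfl⟩ := hw
      exact a.2)
    rw [Finset.sum_map] at h2
    exact h2
  have h3 : (0 : ℝ) ≤ d := Nat.cast_nonneg _
  have := mul_le_mul_of_nonneg_left h1 h3
  linarith

open NumberField IsDedekindDomain Ideal Pool.Agent.Lib.MP_2f3286_ag in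
theorem exists_even_order {l t : ℕ} (hl : 2 ≤ l) (ht : 2 ≤ t) (K : ℝ) :
    ∃ W : Finset ℕ, (∀ w ∈ W, w.Prime ∧ w % l = 1 ∧ ¬ w ∣ t ∧ Even (orderOf (t : ZMod w))) ∧
      K ≤ ∑ w ∈ W, ((w : ℝ))⁻¹ := by
  by_contra hcon
  push Not at hcon
  -- the field
  obtain ⟨r, hr⟩ : ∃ r : ℕ, t < 2 ^ (r - 1) := ⟨t + 1, by simpa using Nat.lt_two_pow_self⟩
  set R : ℕ := 2 ^ r with hR
  have hRpos : 0 < R := by positivity
  set N : ℕ := l * R with hNdef
  have hNpos : 0 < N := by positivity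
  have hN2 : 2 ≤ N := by
    calc 2 ≤ l * 1 := by omega
      _ ≤ l * R := Nat.mul_le_mul_left _ hRpos
  have hne : NeZero N := ⟨hNpos.ne'⟩
  let F : Type := CyclotomicField N ℚ
  have hcyc : IsCyclotomicExtension {N} ℚ F := CyclotomicField.isCyclotomicExtension N ℚ
  have hchar : CharZero F := inferInstance
  have hnf : NumberField F := IsCyclotomicExtension.numberField {N} ℚ F
  obtain ⟨ζ, hζ⟩ := IsCyclotomicExtension.exists_isPrimitiveRoot (S := {N}) ℚ F
    (Set.mem_singleton N) hNpos.ne'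
  have hζR : IsPrimitiveRoot (ζ ^ l) R := hζ.pow hNpos rfl
  have ht0 : ((t : ℕ) : 𝓞 F) ≠ 0 := by
    have : t ≠ 0 := by omega
    exact_mod_cast this
  have hN0 : ((N : ℕ) : 𝓞 F) ≠ 0 := by exact_mod_cast hNpos.ne'
  obtain ⟨d, hd0, ⟨y, hy⟩, hkum⟩ := kummer_split hRpos hζR (t : 𝓞 F) ht0
  have hd2 : 2 ≤ d := by
    rcases Nat.lt_or_ge d 2 with h | h
    · exfalso
      have hd1 : d = 1 := by omega
      rw [hd1, pow_one] at hy
      refine not_pow_cyclo ht hNpos (Dvd.intro_left l rfl) hr F y ?_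
      rw [hy]
      simp
    · exact h
  -- the three families
  let Ω : Fin 3 → Set (HeightOneSpectrum (𝓞 F)) := ![
    {w : HeightOneSpectrum (𝓞 F) | (t : 𝓞 F) ∉ w.asIdeal ∧ (R : 𝓞 F) ∉ w.asIdeal ∧
        ∃ a : 𝓞 F, a ^ R - (t : 𝓞 F) ∈ w.asIdeal},
    {w : HeightOneSpectrum (𝓞 F) | ¬ (absNorm w.asIdeal).Prime},
    {w : HeightOneSpectrum (𝓞 F) | (absNorm w.asIdeal).Prime ∧ (t : 𝓞 F) ∉ w.asIdeal ∧
      (N : 𝓞 F) ∉ w.asIdeal ∧ ¬ ∃ a : 𝓞 F, a ^ R - (t : 𝓞 F) ∈ w.asIdeal}]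
  let dd : Fin 3 → ℕ := ![d, 4, 8]
  have hmain := density_main F dd (by
      intro j
      fin_cases j
      · exact hd0
      · norm_num [dd]
      · norm_num [dd]) Ω (by
      intro j
      fin_cases j
      · exact hkum
      · obtain ⟨C, hC⟩ := nonprime_norm_sum_le F
        exact bounded_omega F _ C (fun s hs A hA => hC s hs A hA) 4
      · refine bounded_omega F _ (Module.finrank ℚ F * K) (fun s hs A hA => ?_) 8
        refine fibre_sum_le F A (fun w hw => (hA w hw).1) hs K fun P hP => ?_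
        refine (hcon P fun p hp => ?_).le
        obtain ⟨w, hwA, hwp⟩ := hP p hp
        obtain ⟨h1, h2, h3, h4⟩ := hA w hwA
        have hpp : p.Prime := hwp ▸ h1
        have hpN : ¬ p ∣ N := by
          rintro ⟨c, hc⟩
          apply h3
          have h5 : ((absNorm w.asIdeal : ℕ) : 𝓞 F) ∈ w.asIdeal := Ideal.absNorm_mem _
          rw [hwp] at h5
          have h6 : ((N : ℕ) : 𝓞 F) = ((p : ℕ) : 𝓞 F) * ((c : ℕ) : 𝓞 F) := by
            rw [← Nat.cast_mul]; exact congrArg _ hc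
          rw [h6]
          exact Ideal.mul_mem_right _ _ h5
        obtain ⟨h5, h6, h7⟩ := residue_facts hN2 hζ w hpp hwp hpN h2 h4
        refine ⟨hpp, ?_, h6, h7⟩
        have h8 := Nat.mod_mod_of_dvd p (Dvd.intro R rfl : l ∣ N)
        rw [h5] at h8
        rw [← h8]
        exact Nat.mod_eq_of_lt (by omega)) 
      ((finite_mem F _ ht0).toFinset ∪ (finite_mem F _ hN0).toFinset) (by
      intro w hw
      simp only [Finset.mem_union, Set.Finite.mem_toFinset, Set.mem_ofPred_eq, not_or] at hw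
      obtain ⟨h1, h2⟩ := hw
      by_cases h3 : (absNorm w.asIdeal).Prime
      · by_cases h4 : ∃ a : 𝓞 F, a ^ R - (t : 𝓞 F) ∈ w.asIdeal
        · refine ⟨0, h1, ?_, h4⟩
          intro h5
          apply h2
          have h6 : ((N : ℕ) : 𝓞 F) = ((l : ℕ) : 𝓞 F) * ((R : ℕ) : 𝓞 F) := by
            rw [← Nat.cast_mul]
          rw [h6]
          exact Ideal.mul_mem_left _ _ h5
        · exact ⟨2, h3, h1, h2, h4⟩
      · exact ⟨1, h3⟩)
  have h9 : ∑ j, (1 / (dd j : ℝ)) = 1 / (d : ℝ) + 1 / 4 + 1 / 8 := by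
    rw [Fin.sum_univ_three]
    simp [dd]
  rw [h9] at hmain
  have h10 : (1 : ℝ) / d ≤ 1 / 2 := by
    apply one_div_le_one_div_of_le (by norm_num)
    exact_mod_cast hd2
  linarith

end Pool.Agent.Lib.MP_79499b_co.PC
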