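import Pool.Agent.Lib.MP_79499b_co.PCExc
import Pool.Agent.Lib.MP_79499b_co.PCOrder
import Pool.Agent.Lib.MP_79499b_co.PCCount

/-!
# `n = t q` with `t` fixed: almost no `n` of this form passes the order test
-/

namespace Pool.Agent.Lib.MP_79499b_co.PC

open Finset Filter Topology
open scoped Classical NumberTheorySymbols
open Q38

/-- members `t q` of `Exc2` with `q` not dividing `t` avoid the classes of `W` -/
theorem ndvd_of_exc2 {l t q : ℕ} (hlo : Odd l) (ht : t ≠ 0) (hq : q.Prime) (hqt : ¬ q ∣ t)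
    (hE : Exc2 l (t * q)) {w : ℕ} (hw : w.Prime) (hev : Even (orderOf (t : ZMod w))) :
    ¬ w ∣ Phi l (t * q) := by
  intro hdvd
  obtain ⟨j, hj⟩ := exists_pow_add_one hlo hw hdvd hev
  refine hE q hq ?_ w hw hdvd j hj
  have h1 : (t * q).factorization q = 1 := by
    rw [Nat.factorization_mul ht hq.ne_zero, Finsupp.add_apply,
      Nat.factorization_eq_zero_of_not_dvd hqt, hq.factorization_self]
  rw [h1]
  exact odd_one

/-- a constant is small against `x / log x` -/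
theorem const_small (t : ℝ) {η : ℝ} (hη : 0 < η) :
    ∃ x₀ : ℕ, 3 ≤ x₀ ∧ ∀ x : ℕ, x₀ ≤ x → t ≤ η * (x / Real.log x) := by
  have h1 : Tendsto (fun x : ℝ => Real.log x / x) atTop (𝓝 0) := by
    simpa using Real.isLittleO_log_id_atTop.tendsto_div_nhds_zero
  have h2 : Tendsto (fun x : ℕ => Real.log (x : ℝ) / (x : ℝ)) atTop (𝓝 0) :=
    h1.comp tendsto_natCast_atTop_atTop
  have h3 : ∀ᶠ x : ℕ in atTop, Real.log (x : ℝ) / (x : ℝ) < η / (|t| + 1) :=
    h2.eventually_lt_const (by positivity)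
  obtain ⟨x₁, hx₁⟩ := eventually_atTop.mp h3
  refine ⟨max x₁ 3, le_max_right _ _, fun x hx => ?_⟩
  have hx3 : 3 ≤ x := (le_max_right _ _).trans hx
  have hxp : (0 : ℝ) < x := by positivity
  have hlp : 0 < Real.log (x : ℝ) := Real.log_pos (by exact_mod_cast (by omega : 1 < x))
  have h4 := hx₁ x ((le_max_left _ _).trans hx)
  rw [div_lt_div_iff₀ hxp (by positivity)] at h4
  have h5 : t ≤ |t| := le_abs_self t
  rw [mul_div_assoc', le_div_iff₀ hlp]
  nlinarith [mul_le_mul_of_nonneg_right h5 hlp.le]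

theorem fixed_t {l t : ℕ} (hl3 : 3 ≤ l) (hlo : Odd l) (ht : 2 ≤ t) {η : ℝ} (hη : 0 < η) :
    ∃ x₀ : ℕ, ∀ x : ℕ, x₀ ≤ x →
      cnt (fun n => Exc2 l n ∧ ∃ q, q.Prime ∧ n = t * q) x ≤ η * (x / Real.log x) := by
  obtain ⟨W, hW, hK⟩ := exists_even_order (l := l) (t := t) (by omega) ht (-Real.log (η / 3))
  obtain ⟨x₁, hx₁⟩ := prime_count (l := l) (t := t) (by omega) W
    (fun w hw => ⟨(hW w hw).1, (hW w hw).2.1, (hW w hw).2.2.1⟩) (η := η / 3) (by positivity)
  obtain ⟨x₂, h3, hx₂⟩ := const_small (t + 1 : ℝ) (η := η / 3) (by positivity)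
  refine ⟨max x₁ x₂, fun x hx => ?_⟩
  have hx1 : x₁ ≤ x := (le_max_left _ _).trans hx
  have hx2 : x₂ ≤ x := (le_max_right _ _).trans hx
  have hexp : Real.exp (-∑ w ∈ W, ((w : ℝ))⁻¹) ≤ η / 3 := by
    calc Real.exp (-∑ w ∈ W, ((w : ℝ))⁻¹) ≤ Real.exp (Real.log (η / 3)) :=
          Real.exp_le_exp.mpr (by linarith)
      _ = η / 3 := Real.exp_log (by positivity)
  have hsub : (range x).filter (fun n => Exc2 l n ∧ ∃ q, q.Prime ∧ n = t * q) ⊆
      (((range x).filter (fun q => q.Prime ∧ ∀ w ∈ W, ¬ w ∣ Phi l (t * q))) ∪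
        range (t + 1)).image (fun q => t * q) := by
    intro n hn
    rw [mem_filter, mem_range] at hn
    obtain ⟨hnx, hE, q, hq, rfl⟩ := hn
    rw [mem_image]
    refine ⟨q, ?_, rfl⟩
    rw [mem_union, mem_filter, mem_range, mem_range]
    by_cases hqt : q ∣ t
    · exact Or.inr (Nat.lt_succ_of_le (Nat.le_of_dvd (by omega) hqt))
    · refine Or.inl ⟨lt_of_le_of_lt (Nat.le_mul_of_pos_left q (by omega)) hnx, hq, fun w hw => ?_⟩
      exact ndvd_of_exc2 hlo (by omega) hq hqt hE (hW w hw).1 (hW w hw).2.2.2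
  have hcard := (card_le_card hsub).trans (card_image_le.trans (card_union_le _ _))
  rw [card_range] at hcard
  rw [cnt_eq]
  have h4 : (((range x).filter (fun n => Exc2 l n ∧ ∃ q, q.Prime ∧ n = t * q)).card : ℝ) ≤
      (((range x).filter (fun q => q.Prime ∧ ∀ w ∈ W, ¬ w ∣ Phi l (t * q))).card : ℝ) +
        (t + 1) := by exact_mod_cast hcard
  have h5 := hx₁ x hx1
  have h6 := hx₂ x hx2
  have hxl : 0 ≤ (x : ℝ) / Real.log x :=
    div_nonneg (Nat.cast_nonneg _) (Real.log_natCast_nonneg _)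
  have h7 := mul_le_mul_of_nonneg_right hexp hxl
  calc _ ≤ _ := h4
    _ ≤ η * (x / Real.log x) := by nlinarith

end Pool.Agent.Lib.MP_79499b_co.PC
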