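import Pool.Agent.Lib.MP_79499b_co.PC.Good

/-!
# Module C: goodness (forms of the skeleton)
-/

namespace Pool.Agent.Lib.MP_79499b_co.PC

open Finset Filter Topology
open scoped Classical NumberTheorySymbols
open Q38

theorem good_coprime {l a : ℕ} (hl3 : 3 ≤ l) (hlo : Odd l) (ha : Squarefree a) (ha1 : a ≠ 1)
    (hal : a.Coprime l) : Good l a := good_of_coprime hlo hl3 ha ha1 hal

theorem good_T' {l : ℕ} (hl3 : 3 ≤ l) (hlo : Odd l) {δ : ℝ} (hδ : 0 < δ) :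
    ∃ x₀ : ℕ, ∀ x : ℕ, x₀ ≤ x → ∀ Y : ℕ, 3 ≤ Y → Y ≤ x →
      ∃ B : Finset ℕ, (∀ b ∈ B, 0 < b) ∧ ∑ b ∈ B, 1 / (b : ℝ) ≤ 1 / (Real.log x) ^ 2 ∧
        ∀ b : ℕ, Odd b → Squarefree b → b ≤ x → b ∉ B → ∀ a : ℕ, (a = b ∨ a = 2 * b) →
          a ≠ 1 → a.Coprime l → T l Y a ≤ δ * Real.log (Real.log x) := good_T hlo hl3 hδ

/-- goodness of products of primes dividing a non-discarded `n` -/
theorem T_of_dvd' {l Y x n : ℕ} {B : Finset ℕ} {c : ℝ} (hn : 1 ≤ n) (hnx : n < x)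
    (hgood : ∀ b : ℕ, Odd b → Squarefree b → b ≤ x → b ∉ B → ∀ a : ℕ, (a = b ∨ a = 2 * b) →
          a ≠ 1 → a.Coprime l → T l Y a ≤ c)
    (hB : ¬ ∃ b ∈ B, b ∣ n) {V : Finset ℕ} (hne : V.Nonempty)
    (hV : ∀ p ∈ V, p.Prime ∧ p ∣ n ∧ ¬ p ∣ l) : T l Y (∏ p ∈ V, p) ≤ c := by
  have hsqV : ∀ V' : Finset ℕ, (∀ p ∈ V', p.Prime) → Squarefree (∏ p ∈ V', p) := by
    intro V' hV'
    apply Finset.squarefree_prod_of_pairwise_isCoprime
    · intro p hp q hq hpq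
      exact (Nat.coprime_iff_isRelPrime).mp ((Nat.coprime_primes (hV' p hp) (hV' q hq)).mpr hpq)
    · intro p hp
      exact (hV' p hp).prime.squarefree
  set b := ∏ p ∈ V.erase 2, p with hb
  have hbodd : Odd b := by
    rw [hb, ← Nat.coprime_two_left]
    apply Nat.Coprime.prod_right
    intro p hp
    rw [Finset.mem_erase] at hp
    exact (Nat.coprime_primes Nat.prime_two (hV p hp.2).1).mpr (fun h => hp.1 h.symm)
  have hbsq : Squarefree b := hsqV _ (fun p hp => (hV p (Finset.mem_of_mem_erase hp)).1)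
  have hbn : b ∣ n := by
    rw [hb]
    apply Finset.prod_primes_dvd
    · intro p hp; exact (hV p (Finset.mem_of_mem_erase hp)).1.prime
    · intro p hp; exact (hV p (Finset.mem_of_mem_erase hp)).2.1
  have hbx : b ≤ x := (Nat.le_of_dvd (by omega) hbn).trans hnx.le
  have hbB : b ∉ B := fun h => hB ⟨b, h, hbn⟩
  refine hgood b hbodd hbsq hbx hbB _ ?_ ?_ ?_
  · by_cases h2 : 2 ∈ V
    · right
      rw [hb, Finset.mul_prod_erase V (fun p => p) h2]
    · left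
      rw [hb, Finset.erase_eq_of_notMem h2]
  · obtain ⟨p, hp⟩ := hne
    intro h
    have h1 : p ∣ ∏ p ∈ V, p := Finset.dvd_prod_of_mem (fun p => p) hp
    rw [h] at h1
    exact (hV p hp).1.one_lt.ne' (Nat.dvd_one.mp h1)
  · apply Nat.Coprime.prod_left
    intro p hp
    exact (Nat.Prime.coprime_iff_not_dvd (hV p hp).1).mpr (hV p hp).2.2

end Pool.Agent.Lib.MP_79499b_co.PC
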