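import Pool.Agent.Lib.MP_79499b_co.PC.Dens

/-!
# Module B: roots and the lower bound for the removed density (forms of the skeleton)
-/

namespace Pool.Agent.Lib.MP_79499b_co.PC

open Finset Filter Topology
open scoped Classical NumberTheorySymbols
open Q38

theorem le_nroots' {l u : ℕ} (hl : 2 ≤ l) (hu : u.Prime) (h : u % l = 1) :
    l - 1 ≤ nroots l u := le_nroots hl hu h

theorem GG_lower' {l Y : ℕ} (hl3 : 3 ≤ l) (E : ℕ → Prop) {S R : Finset ℕ}
    (hR : R ⊆ S) (hS : ∀ p ∈ S, p.Prime) {η : ℝ} (hη : 0 ≤ η)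
    (hT : ∀ V ⊆ R, V.Nonempty → T l Y (∏ p ∈ V, p) ≤ η) :
    esum E Y + (l - 1) * (1 - 1 / 2 ^ R.card) * msum l 1 Y - (l * η + 3 * l * S.card + 1) ≤
      GG l E (NR l R) Y S := by
  have h1 := GG_lowerF (Y := Y) (show 1 ≤ l by omega) E (NR l R) hS
  have h2 := rsum_NR_lower (Y := Y) hl3 hR hS hη hT
  have hl1 : (1 : ℝ) ≤ l := by exact_mod_cast (show 1 ≤ l by omega)
  have hS0 : (0 : ℝ) ≤ S.card := Nat.cast_nonneg _
  have h3 : (S.card : ℝ) ≤ l * S.card := by nlinarith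
  linarith

end Pool.Agent.Lib.MP_79499b_co.PC
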