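import Pool.Agent.Lib.MP_79499b_co.Q38Master

/-!
# Counting the exceptional integers
-/

namespace Pool.Agent.Lib.MP_79499b_co.Q38

open Finset Filter Topology
open scoped Classical NumberTheorySymbols

/-- no prime dividing `n` to an odd power is a nonresidue modulo a prime divisor of `Phi l n` -/
def Exc (l n : ℕ) : Prop :=
  ∀ p : ℕ, p.Prime → Odd (n.factorization p) → ∀ w : ℕ, w.Prime → w ∣ Phi l n →
    J((p : ℤ) | w) ≠ -1

lemma exact_factorization {p n : ℕ} (hp : p.Prime) (hn : n ≠ 0) (h : Exact p n) :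
    n.factorization p = 1 := by
  have h1 : 1 ≤ n.factorization p := by
    rw [← Nat.Prime.pow_dvd_iff_le_factorization hp hn, pow_one]; exact h.1
  have h2 : ¬ 2 ≤ n.factorization p := by
    rw [← Nat.Prime.pow_dvd_iff_le_factorization hp hn]; exact h.2
  omega

/-- the integers `< x` divisible by an element of `B` -/
lemma card_disc_le (B : Finset ℕ) (x : ℕ) :
    (((range x).filter (fun n => 1 ≤ n ∧ ∃ b ∈ B, b ∣ n)).card : ℝ) ≤
      x * ∑ b ∈ B, 1 / (b : ℝ) := by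
  have h1 : (range x).filter (fun n => 1 ≤ n ∧ ∃ b ∈ B, b ∣ n) ⊆
      B.biUnion (fun b => (Ioc 0 x).filter (fun n => b ∣ n)) := by
    intro n hn
    rw [Finset.mem_filter, Finset.mem_range] at hn
    obtain ⟨h1, h2, b, hb, hbn⟩ := hn
    rw [Finset.mem_biUnion]
    refine ⟨b, hb, ?_⟩
    rw [Finset.mem_filter, Finset.mem_Ioc]
    exact ⟨⟨by omega, h1.le⟩, hbn⟩
  calc (((range x).filter (fun n => 1 ≤ n ∧ ∃ b ∈ B, b ∣ n)).card : ℝ) ≤
      ((B.biUnion (fun b => (Ioc 0 x).filter (fun n => b ∣ n))).card : ℝ) := by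
        exact_mod_cast Finset.card_le_card h1
    _ ≤ ∑ b ∈ B, (((Ioc 0 x).filter (fun n => b ∣ n)).card : ℝ) := by
        exact_mod_cast Finset.card_biUnion_le
    _ ≤ ∑ b ∈ B, (x : ℝ) * (1 / b) := by
        refine Finset.sum_le_sum fun b _ => ?_
        rw [Nat.Ioc_filter_dvd_card_eq_div]
        calc ((x / b : ℕ) : ℝ) ≤ (x : ℝ) / b := Nat.cast_div_le
          _ = x * (1 / b) := by ring
    _ = _ := by rw [Finset.mul_sum]

/-- the goodness of products of primes dividing a non-discarded `n` -/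
lemma T_of_dvd {l Y x n : ℕ} {B : Finset ℕ} {c : ℝ} (hn : 1 ≤ n) (hnx : n < x)
    (hgood : ∀ b : ℕ, Odd b → Squarefree b → b ≤ x → b ∉ B → ∀ a : ℕ, (a = b ∨ a = 2 * b) →
          a ≠ 1 → (a ≠ l ∨ l % 4 = 3) → T l Y a ≤ c)
    (hB : ¬ ∃ b ∈ B, b ∣ n) (hlp : l.Prime) {V : Finset ℕ} (hne : V.Nonempty)
    (hV : ∀ p ∈ V, p.Prime ∧ p ∣ n) (hl : l ∉ V ∨ l % 4 = 3) : T l Y (∏ p ∈ V, p) ≤ c := by
  have hsqV : ∀ V' : Finset ℕ, (∀ p ∈ V', p.Prime) → Squarefree (∏ p ∈ V', p) := by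
    intro V' hV'
    apply Finset.squarefree_prod_of_pairwise_isCoprime
    · intro p hp q hq hpq
      exact (Nat.coprime_iff_isRelPrime).mp ((Nat.coprime_primes (hV' p hp) (hV' q hq)).mpr hpq)
    · intro p hp
      exact (hV' p hp).prime.squarefree
  set b := ∏ p ∈ V.erase 2, p with hb
  have hbodd : Odd b := by
    rw [hb, ← Nat.coprime_two_left]
    apply Nat.Coprime.prod_right
    intro p hp
    rw [Finset.mem_erase] at hp
    exact (Nat.coprime_primes Nat.prime_two (hV p hp.2).1).mpr (fun h => hp.1 h.symm)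
  have hbsq : Squarefree b := hsqV _ (fun p hp => (hV p (Finset.mem_of_mem_erase hp)).1)
  have hbn : b ∣ n := by
    rw [hb]
    apply Finset.prod_primes_dvd
    · intro p hp; exact (hV p (Finset.mem_of_mem_erase hp)).1.prime
    · intro p hp; exact (hV p (Finset.mem_of_mem_erase hp)).2
  have hbx : b ≤ x := (Nat.le_of_dvd (by omega) hbn).trans hnx.le
  have hbB : b ∉ B := fun h => hB ⟨b, h, hbn⟩
  refine hgood b hbodd hbsq hbx hbB _ ?_ ?_ ?_
  · by_cases h2 : 2 ∈ V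
    · right
      rw [hb, Finset.mul_prod_erase V (fun p => p) h2]
    · left
      rw [hb, Finset.erase_eq_of_notMem h2]
  · obtain ⟨p, hp⟩ := hne
    intro h
    have h1 : p ∣ ∏ p ∈ V, p := Finset.dvd_prod_of_mem (fun p => p) hp
    rw [h] at h1
    exact (hV p hp).1.one_lt.ne' (Nat.dvd_one.mp h1)
  · rcases hl with hl | hl
    · left
      intro h
      have h1 : l ∣ ∏ p ∈ V, p := by rw [h]
      obtain ⟨p, hp, hlp'⟩ := (Prime.dvd_finsetProd_iff hlp.prime (fun p => p)).mp h1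
      have : l = p := (Nat.prime_dvd_prime_iff_eq hlp (hV p hp).1).mp hlp'
      exact hl (this ▸ hp)
    · right; exact hl

/-- sums over sets of at most `k` primes -/
lemma sum_prod_inv_le {Y k : ℕ} {D : ℝ} (hD1 : 1 ≤ D) (hD : msum 1 0 Y ≤ D)
    (𝒮 : Finset (Finset ℕ)) (h𝒮 : ∀ S ∈ 𝒮, (∀ p ∈ S, p.Prime ∧ p < Y) ∧ S.card ≤ k) :
    ∑ S ∈ 𝒮, 1 / ((∏ p ∈ S, p : ℕ) : ℝ) ≤ 3 * D ^ k := by
  have h1 := err_le ((range Y).filter (fun p => p.Prime ∧ p % 1 = 0)) (fun p => ((p : ℝ))⁻¹)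
    (fun p => by positivity) k hD1 hD
  refine le_trans ?_ h1
  have h2 : ∀ S ∈ 𝒮, 1 / ((∏ p ∈ S, p : ℕ) : ℝ) = ∏ p ∈ S, ((p : ℝ))⁻¹ := by
    intro S _
    rw [Finset.prod_inv_distrib]
    push_cast
    rw [one_div]
  rw [Finset.sum_congr rfl h2]
  apply Finset.sum_le_sum_of_subset_of_nonneg
  · intro S hS
    obtain ⟨h3, h4⟩ := h𝒮 S hS
    rw [Finset.mem_filter, Finset.mem_powerset]
    refine ⟨fun p hp => ?_, h4⟩
    rw [Finset.mem_filter, Finset.mem_range]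
    exact ⟨(h3 p hp).2, (h3 p hp).1, Nat.mod_one p⟩
  · intro S _ _
    exact Finset.prod_nonneg fun p _ => by positivity

lemma prod_le_exp {Y k : ℕ} {S : Finset ℕ} (hS : ∀ p ∈ S, p < Y) (hk : S.card ≤ k)
    (hY : 1 ≤ Y) {t : ℝ} (h : ((Y : ℝ)) ^ k ≤ Real.exp t) :
    ((∏ p ∈ S, p : ℕ) : ℝ) ≤ Real.exp t := by
  refine le_trans ?_ h
  have h1 : ∏ p ∈ S, p ≤ Y ^ k := by
    calc ∏ p ∈ S, p ≤ ∏ p ∈ S, Y := Finset.prod_le_prod' fun p hp => (hS p hp).le
      _ = Y ^ S.card := by rw [Finset.prod_const]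
      _ ≤ Y ^ k := Nat.pow_le_pow_right hY hk
  exact_mod_cast h1

lemma not_dvd_prod_of_notMem {S : Finset ℕ} (hS : ∀ p ∈ S, p.Prime) :
    ∀ u : ℕ, u.Prime → u ∉ S → ¬ u ∣ ∏ p ∈ S, p := by
  intro u hu huS h
  obtain ⟨p, hp, hup⟩ := (Prime.dvd_finsetProd_iff hu.prime (fun p => p)).mp h
  have : u = p := (Nat.prime_dvd_prime_iff_eq hu (hS p hp)).mp hup
  exact huS (this ▸ hp)

lemma card_biUnion_real {ι : Type*} (𝒮 : Finset ι) (A : ι → Finset ℕ) (f : ι → ℝ)
    (h : ∀ S ∈ 𝒮, ((A S).card : ℝ) ≤ f S) : (((𝒮.biUnion A).card : ℕ) : ℝ) ≤ ∑ S ∈ 𝒮, f S := by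
  calc (((𝒮.biUnion A).card : ℕ) : ℝ) ≤ ((∑ S ∈ 𝒮, (A S).card : ℕ) : ℝ) := by
        exact_mod_cast Finset.card_biUnion_le
    _ = ∑ S ∈ 𝒮, ((A S).card : ℝ) := by push_cast; rfl
    _ ≤ _ := Finset.sum_le_sum h

/-- the sifted set -/
noncomputable def AA (l : ℕ) (E : ℕ → Prop) (x M : ℕ) (S R : Finset ℕ) : Finset ℕ :=
  (range x).filter (fun n => M ∣ n ∧ ∀ u ∈ UU (YY l x) S, ¬ Rem l E (NR l R) u n)

/-- Mertens bounds in terms of `esum` -/
lemma esum_false : ∃ C : ℝ, ∀ Y : ℕ, 3 ≤ Y → (0 : ℝ) * Real.log (Real.log Y) - C ≤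
    esum (fun _ => False) Y := by
  refine ⟨0, fun Y _ => ?_⟩
  unfold esum
  simp

lemma esum_ne (l : ℕ) : ∃ C : ℝ, ∀ Y : ℕ, 3 ≤ Y → (1 : ℝ) * Real.log (Real.log Y) - C ≤
    esum (fun u => u ≠ l) Y := by
  obtain ⟨C, hC⟩ := mertens_all
  refine ⟨C + 1, fun Y hY => ?_⟩
  have h1 := hC Y hY
  have e0 : ∑ u ∈ (range Y).filter (fun u => u.Prime ∧ u ≠ l), ((u : ℝ))⁻¹ =
      esum (fun u => u ≠ l) Y := by
    unfold esum
    apply Finset.sum_congr _ fun _ _ => rfl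
    ext p
    simp only [Finset.mem_filter]
  have h2 : msum 1 0 Y ≤ esum (fun u => u ≠ l) Y + 1 := by
    rw [← e0]
    unfold msum
    have h3 : (range Y).filter (fun p => p.Prime ∧ p % 1 = 0) ⊆
        (range Y).filter (fun u => u.Prime ∧ u ≠ l) ∪ ({l} : Finset ℕ).filter Nat.Prime := by
      intro p hp
      rw [Finset.mem_filter] at hp
      rw [Finset.mem_union, Finset.mem_filter, Finset.mem_filter, Finset.mem_singleton]
      by_cases h : p = l
      · right; exact ⟨h, hp.2.1⟩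
      · left; exact ⟨hp.1, hp.2.1, h⟩
    refine (Finset.sum_le_sum_of_subset_of_nonneg h3 fun _ _ _ => by positivity).trans ?_
    refine (sum_union_le' _ _ _ fun _ => by positivity).trans ?_
    have h4 := sum_inv_primes_le (S := ({l} : Finset ℕ).filter Nat.Prime)
      (fun p hp => (Finset.mem_filter.mp hp).2)
    have h5 : ((({l} : Finset ℕ).filter Nat.Prime).card : ℝ) ≤ 1 := by
      have : (({l} : Finset ℕ).filter Nat.Prime).card ≤ ({l} : Finset ℕ).card :=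
        Finset.card_filter_le _ _
      rw [Finset.card_singleton] at this
      exact_mod_cast this
    linarith
  linarith

lemma esum_true : ∃ C : ℝ, ∀ Y : ℕ, 3 ≤ Y → (1 : ℝ) * Real.log (Real.log Y) - C ≤
    esum (fun _ => True) Y := by
  obtain ⟨C, hC⟩ := mertens_all
  refine ⟨C, fun Y hY => ?_⟩
  have h1 := hC Y hY
  have h2 : msum 1 0 Y = esum (fun _ => True) Y := by
    unfold msum esum
    apply Finset.sum_congr _ fun _ _ => rfl
    ext p
    simp only [Finset.mem_filter, Nat.mod_one, and_true]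
  linarith

lemma esum_three : ∃ C : ℝ, ∀ Y : ℕ, 3 ≤ Y → (1 / 2 : ℝ) * Real.log (Real.log Y) - C ≤
    esum (fun u => u % 4 = 3) Y := by
  obtain ⟨C, hC⟩ := mertens_three_mod_four
  refine ⟨C, fun Y hY => ?_⟩
  have h1 := hC Y hY
  have h2 : msum 4 3 Y = esum (fun u => u % 4 = 3) Y := by
    unfold msum esum
    apply Finset.sum_congr _ fun _ _ => rfl
    ext p
    simp only [Finset.mem_filter]
  linarith

/-- `A (2L)^k ≤ exp (ε L)` eventually -/
lemma eventually_pow_le (A : ℝ) (k : ℕ) {ε : ℝ} (hε : 0 < ε) :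
    ∀ᶠ x : ℕ in atTop, A * (2 * LL x) ^ k ≤ Real.exp (ε * LL x) := by
  have h1 : ∀ᶠ x : ℕ in atTop, Real.log (2 * LL x + 0) + (|A| + 1) ≤ (ε / (k + 1)) * LL x :=
    tendsto_LL.eventually (eventually_log_le 2 0 (|A| + 1) (ε / (k + 1)) two_pos (by positivity))
  filter_upwards [h1, tendsto_LL.eventually_ge_atTop 1] with x h1 h2
  rw [add_zero] at h1
  have h3 : 0 < 2 * LL x := by linarith
  have h4 : Real.log (2 * LL x) ≥ 0 := Real.log_nonneg (by linarith)
  have hA : A ≤ Real.exp |A| := by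
    have := Real.add_one_le_exp |A|
    have := le_abs_self A
    linarith
  calc A * (2 * LL x) ^ k ≤ Real.exp |A| * (2 * LL x) ^ k :=
        mul_le_mul_of_nonneg_right hA (by positivity)
    _ = Real.exp |A| * Real.exp (k * Real.log (2 * LL x)) := by
        rw [← Real.log_pow, Real.exp_log (by positivity)]
    _ = Real.exp (|A| + k * Real.log (2 * LL x)) := by rw [Real.exp_add]
    _ ≤ Real.exp (ε * LL x) := by
        apply Real.exp_le_exp.mpr
        have h5 : (k + 1 : ℝ) * (Real.log (2 * LL x) + (|A| + 1)) ≤ (k + 1) * ((ε / (k + 1)) * LL x) :=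
          mul_le_mul_of_nonneg_left h1 (by positivity)
        have h6 : (k + 1 : ℝ) * ((ε / (k + 1)) * LL x) = ε * LL x := by field_simp
        rw [h6] at h5
        have h7 := abs_nonneg A
        have h8 : (0 : ℝ) ≤ k := Nat.cast_nonneg k
        nlinarith

end Pool.Agent.Lib.MP_79499b_co.Q38
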