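import Pool.Agent.Lib.MP_79499b_co.PC.Dens
import Pool.Agent.Lib.MP_79499b_co.Q38NT

/-!
# Module D: the master sieve bound (forms of the skeleton)
-/

namespace Pool.Agent.Lib.MP_79499b_co.PC

open Finset Filter Topology
open scoped Classical NumberTheorySymbols
open Q38

theorem master' {l : ℕ} (hl3 : 3 ≤ l) (k : ℕ) (E : ℕ → Prop) {κ : ℝ}
    (hκ0 : 0 ≤ κ) (hκ1 : κ ≤ 1)
    (hE : ∃ C : ℝ, ∀ Y : ℕ, 3 ≤ Y → κ * Real.log (Real.log Y) - C ≤ esum E Y)
    {δ : ℝ} (hδ : 0 < δ) :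
    ∃ x₀ : ℕ, ∀ x : ℕ, x₀ ≤ x → ∀ S R : Finset ℕ, R ⊆ S → S.card ≤ k → (∀ p ∈ S, p.Prime) →
      (∀ V ⊆ R, V.Nonempty → T l (YY l x) (∏ p ∈ V, p) ≤ (δ / (8 * l)) * LL x) →
      ∀ M : ℕ, 0 < M → (∀ u, u.Prime → u ∉ S → ¬ u ∣ M) → (M : ℝ) ≤ Real.exp (3 / 4 * Real.log x) →
      (((range x).filter (fun n => M ∣ n ∧ ∀ u ∈ UU (YY l x) S, ¬ Rem l E (NR l R) u n)).card : ℝ) ≤
        (x / M) * Real.exp
          (-((κ + ((l : ℝ) - 1) / l.totient * (1 - 1 / 2 ^ R.card) - δ) * LL x)) :=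
  master hl3 k E hκ0 hκ1 hE hδ

/-- Mertens for the primes not dividing `l` -/
theorem esum_ndvd {l : ℕ} (hl : l ≠ 0) : ∃ C : ℝ, ∀ Y : ℕ, 3 ≤ Y →
    (1 : ℝ) * Real.log (Real.log Y) - C ≤ esum (fun u => ¬ u ∣ l) Y := by
  obtain ⟨C, hC⟩ := mertens_all
  refine ⟨C + l.primeFactors.card, fun Y hY => ?_⟩
  have h1 := hC Y hY
  have e0 : ∑ u ∈ (range Y).filter (fun u => u.Prime ∧ ¬ u ∣ l), ((u : ℝ))⁻¹ =
      esum (fun u => ¬ u ∣ l) Y := by
    unfold esum
    apply Finset.sum_congr _ fun _ _ => rfl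
    ext p
    simp only [Finset.mem_filter]
  have h2 : msum 1 0 Y ≤ esum (fun u => ¬ u ∣ l) Y + l.primeFactors.card := by
    rw [← e0]
    unfold msum
    have h3 : (range Y).filter (fun p => p.Prime ∧ p % 1 = 0) ⊆
        (range Y).filter (fun u => u.Prime ∧ ¬ u ∣ l) ∪ l.primeFactors := by
      intro p hp
      rw [Finset.mem_filter] at hp
      rw [Finset.mem_union, Finset.mem_filter, Nat.mem_primeFactors]
      by_cases h : p ∣ l
      · right; exact ⟨hp.2.1, h, hl⟩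
      · left; exact ⟨hp.1, hp.2.1, h⟩
    refine (Finset.sum_le_sum_of_subset_of_nonneg h3 fun _ _ _ => by positivity).trans ?_
    refine (sum_union_le' _ _ _ fun _ => by positivity).trans ?_
    have h4 := sum_inv_primes_le (S := l.primeFactors) (fun p hp => Nat.prime_of_mem_primeFactors hp)
    linarith
  linarith

theorem totient_lt {l : ℕ} (hl3 : 3 ≤ l) (hlc : ¬ l.Prime) : 1 < ((l : ℝ) - 1) / l.totient := by
  have h0 : 0 < l.totient := Nat.totient_pos.mpr (by omega)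
  have h1 : l.totient < l - 1 := by
    have h2 : l.totient ≤ l - 1 := by
      have := Nat.totient_lt l (by omega)
      omega
    rcases h2.lt_or_eq with h | h
    · exact h
    · exact absurd ((Nat.totient_eq_iff_prime (by omega)).mp h) hlc
  have h0' : (0 : ℝ) < l.totient := by exact_mod_cast h0
  rw [one_lt_div h0']
  have h3 : (l.totient : ℝ) + 1 < l := by exact_mod_cast (by omega : l.totient + 1 < l)
  linarith

end Pool.Agent.Lib.MP_79499b_co.PC
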