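import Pool.Agent.Lib.MP_79499b_co.PCDefs

/-!
# The case analysis for the integers which are not of the form `e s ^ 2 q`
-/

set_option autoImplicit false

namespace Pool.Agent.Lib.MP_79499b_co.PC

open Finset Filter Topology
open scoped Classical NumberTheorySymbols
open Q38

/-- the case analysis for `nt3` -/
theorem exists_prime_of_not_shape {l n : ℕ} (_hl : l ≠ 0) (hn : 1 ≤ n) (h : ¬ Shape l n) :
    (∃ p : ℕ, p.Prime ∧ ¬ p ∣ l ∧ Odd (n.factorization p) ∧ p ^ 2 ∣ n) ∨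
    (∃ p q : ℕ, p.Prime ∧ q.Prime ∧ p ≠ q ∧ ¬ p ∣ l ∧ ¬ q ∣ l ∧ Exact p n ∧ Exact q n) := by
  obtain ⟨a, b, hab, ha⟩ := Nat.sq_mul_squarefree n
  have hn0 : n ≠ 0 := by omega
  have ha0 : a ≠ 0 := by
    rintro rfl
    rw [mul_zero] at hab
    omega
  have hb0 : b ≠ 0 := by
    rintro rfl
    rw [zero_pow two_ne_zero, zero_mul] at hab
    omega
  -- primes dividing `a` have odd exponent in `n`
  have hodd : ∀ p : ℕ, p.Prime → p ∣ a → Odd (n.factorization p) := by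
    intro p hp hpa
    have h1 : a.factorization p = 1 := by
      have h2 := ha.natFactorization_le_one p
      have h3 : 0 < a.factorization p := hp.factorization_pos_of_dvd ha0 hpa
      omega
    rw [← hab, Nat.factorization_mul (pow_ne_zero 2 hb0) ha0, Nat.factorization_pow,
      Finsupp.add_apply, Finsupp.smul_apply, smul_eq_mul, h1]
    exact ⟨b.factorization p, by ring⟩
  have hpn : ∀ p : ℕ, p ∣ a → p ∣ n := fun p hp => by
    rw [← hab]; exact hp.mul_left _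
  -- squarefree numbers with all primes dividing `l`
  have hdvd : ∀ c : ℕ, Squarefree c → (∀ p : ℕ, p.Prime → p ∣ c → p ∣ l) → c ∣ l := by
    intro c hc hcl
    rw [← Nat.prod_primeFactors_of_squarefree hc]
    apply Finset.prod_primes_dvd
    · intro p hp
      exact (Nat.prime_of_mem_primeFactors hp).prime
    · intro p hp
      exact hcl p (Nat.prime_of_mem_primeFactors hp) (Nat.dvd_of_mem_primeFactors hp)
  by_cases h1 : ∃ p : ℕ, p.Prime ∧ ¬ p ∣ l ∧ p ∣ a ∧ p ^ 2 ∣ n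
  · obtain ⟨p, hp, hpl, hpa, hp2⟩ := h1
    exact Or.inl ⟨p, hp, hpl, hodd p hp hpa, hp2⟩
  push Not at h1
  have hex : ∀ p : ℕ, p.Prime → ¬ p ∣ l → p ∣ a → Exact p n :=
    fun p hp hpl hpa => ⟨hpn p hpa, h1 p hp hpl hpa⟩
  by_cases h2 : ∃ p q : ℕ, p.Prime ∧ q.Prime ∧ p ≠ q ∧ ¬ p ∣ l ∧ ¬ q ∣ l ∧ p ∣ a ∧ q ∣ a
  · obtain ⟨p, q, hp, hq, hpq, hpl, hql, hpa, hqa⟩ := h2
    exact Or.inr ⟨p, q, hp, hq, hpq, hpl, hql, hex p hp hpl hpa, hex q hq hql hqa⟩
  push Not at h2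
  exfalso
  apply h
  by_cases h3 : ∃ p : ℕ, p.Prime ∧ ¬ p ∣ l ∧ p ∣ a
  · obtain ⟨p, hp, hpl, hpa⟩ := h3
    obtain ⟨e, he⟩ := hpa
    refine ⟨e, b, p, ?_, Or.inr hp, ?_⟩
    · have hsq : Squarefree e := ha.squarefree_of_dvd ⟨p, by rw [he]; ring⟩
      apply hdvd e hsq
      intro q hq hqe
      by_contra hql
      have hqa : q ∣ a := by rw [he]; exact hqe.mul_left p
      have hpq : p ≠ q := by
        rintro rfl
        obtain ⟨f, hf⟩ := hqe
        have h4 : p * p ∣ a := ⟨f, by rw [he, hf]; ring⟩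
        exact hp.one_lt.ne' (Nat.isUnit_iff.mp (ha p h4))
      exact h2 p q hp hq hpq hpl hql (by rw [he]; exact dvd_mul_right p e) hqa
    · rw [← hab, he]; ring
  · push Not at h3
    refine ⟨a, b, 1, ?_, Or.inl rfl, ?_⟩
    · apply hdvd a ha
      intro p hp hpa
      by_contra hpl
      exact h3 p hp hpl hpa
    · rw [← hab]; ring

end Pool.Agent.Lib.MP_79499b_co.PC
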