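import Pool.Agent.Lib.MP_79499b_co.Multiplier
import Mathlib.GroupTheory.QuotientGroup.Basic
import Mathlib.GroupTheory.Index
import Mathlib.GroupTheory.SpecificGroups.Cyclic

/-!
# Abelian difference sets with the parameters of `PG(3,n)`, `n` with two prime divisors
-/

namespace Pool.Agent.Lib.MP_79499b_co

open Finset MonoidAlgebra

/-- A finite abelian group has a subgroup of every order dividing its order. -/
lemma exists_subgroup_card_eq : ∀ (d : ℕ) (G : Type) [CommGroup G] [Finite G],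
    d ∣ Nat.card G → ∃ A : Subgroup G, Nat.card A = d := by
  intro d
  induction d using Nat.strong_induction_on with
  | _ d ih =>
    intro G _ _ hd
    have hGpos : 0 < Nat.card G := Nat.card_pos
    have hdpos : 0 < d := Nat.pos_of_dvd_of_pos hd hGpos
    by_cases h1 : d = 1
    · exact ⟨⊥, by simp [h1]⟩
    · obtain ⟨l, hl, hld⟩ := Nat.exists_prime_and_dvd h1
      have : Fact l.Prime := ⟨hl⟩
      obtain ⟨x, hx⟩ := exists_prime_orderOf_dvd_card' (G := G) l (hld.trans hd)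
      obtain ⟨e, he⟩ := hld
      have hlpos := hl.pos
      have hepos : 0 < e := by
        rcases Nat.eq_zero_or_pos e with h | h
        · subst h; omega
        · exact h
      have hZ : Nat.card (Subgroup.zpowers x) = l := by rw [Nat.card_zpowers, hx]
      have hQ : Nat.card (G ⧸ Subgroup.zpowers x) * l = Nat.card G := by
        rw [← hZ, mul_comm]
        exact (Subgroup.card_eq_card_quotient_mul_card_subgroup (Subgroup.zpowers x)).symm ▸
          (mul_comm _ _)
      have hedvd : e ∣ Nat.card (G ⧸ Subgroup.zpowers x) := by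
        rw [he, mul_comm, ← hQ] at hd
        exact Nat.dvd_of_mul_dvd_mul_right hlpos hd
      have helt : e < d := by
        rw [he]
        have := hl.two_le
        nlinarith
      obtain ⟨B, hB⟩ := ih e helt (G ⧸ Subgroup.zpowers x) hedvd
      refine ⟨B.comap (QuotientGroup.mk' (Subgroup.zpowers x)), ?_⟩
      have h2 := Subgroup.index_comap_of_surjective B
        (QuotientGroup.mk'_surjective (Subgroup.zpowers x))
      have h3 := Subgroup.card_mul_index (B.comap (QuotientGroup.mk' (Subgroup.zpowers x)))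
      have h4 := Subgroup.card_mul_index B
      rw [h2] at h3
      rw [hB] at h4
      have hipos : 0 < B.index := Nat.pos_of_ne_zero (Subgroup.index_ne_zero_of_finite)
      have h5 : Nat.card (B.comap (QuotientGroup.mk' (Subgroup.zpowers x))) * B.index
          = d * B.index := by
        rw [h3, he, ← hQ, ← h4]; ring
      exact Nat.eq_of_mul_eq_mul_right hipos h5

/-- In a finite abelian group every subgroup `H` with `|H| ∣ d ∣ |G|` lies in a subgroup of
order `d`. -/
lemma exists_subgroup_card_eq_ge (G : Type) [CommGroup G] [Finite G] (H : Subgroup G) (d : ℕ)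
    (hHd : Nat.card H ∣ d) (hd : d ∣ Nat.card G) : ∃ A : Subgroup G, H ≤ A ∧ Nat.card A = d := by
  have hHpos : 0 < Nat.card H := Nat.card_pos
  have hQ : Nat.card (G ⧸ H) * Nat.card H = Nat.card G :=
    (Subgroup.card_eq_card_quotient_mul_card_subgroup H).symm
  obtain ⟨e, rfl⟩ := hHd
  have he : e ∣ Nat.card (G ⧸ H) := by
    rw [mul_comm, ← hQ] at hd
    exact Nat.dvd_of_mul_dvd_mul_right hHpos hd
  obtain ⟨B, hB⟩ := exists_subgroup_card_eq e (G ⧸ H) he
  refine ⟨B.comap (QuotientGroup.mk' H), ?_, ?_⟩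
  · intro x hx
    rw [Subgroup.mem_comap]
    have : QuotientGroup.mk' H x = 1 := (QuotientGroup.eq_one_iff x).mpr hx
    rw [this]; exact B.one_mem
  · have h2 := Subgroup.index_comap_of_surjective B (QuotientGroup.mk'_surjective H)
    have h3 := Subgroup.card_mul_index (B.comap (QuotientGroup.mk' H))
    have h4 := Subgroup.card_mul_index B
    rw [h2] at h3
    rw [hB] at h4
    have hipos : 0 < B.index := Nat.pos_of_ne_zero (Subgroup.index_ne_zero_of_finite)
    have h5 : Nat.card (B.comap (QuotientGroup.mk' H)) * B.index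
        = (Nat.card H * e) * B.index := by
      rw [h3, ← hQ, ← h4]; ring
    exact Nat.eq_of_mul_eq_mul_right hipos h5

section quotient

variable {G : Type} [CommGroup G] [Fintype G]

/-- the projection of group rings induced by a group homomorphism -/
noncomputable def pr {H : Type} [CommGroup H] (φ : G →* H) :
    MonoidAlgebra ℤ G →+* MonoidAlgebra ℤ H := mapDomainRingHom ℤ φ

omit [Fintype G] in
@[simp] lemma pr_single {H : Type} [CommGroup H] (φ : G →* H) (g : G) (c : ℤ) :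
    pr φ (single g c) = single (φ g) c := by simp [pr]

omit [Fintype G] in
lemma pr_pw {H : Type} [CommGroup H] (φ : G →* H) (t : ℕ) (X : MonoidAlgebra ℤ G) :
    pr φ (pw t X) = pw t (pr φ X) := by
  have : (pr φ).comp (pw t) = (pw t).comp (pr φ) :=
    ringHom_ext' fun g => by simp
  exact congrArg (fun f => f X) this

omit [Fintype G] in
lemma pr_iv {H : Type} [CommGroup H] (φ : G →* H) (X : MonoidAlgebra ℤ G) :
    pr φ (iv X) = iv (pr φ X) := by
  have : (pr φ).comp iv = iv.comp (pr φ) :=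
    ringHom_ext' fun g => by simp
  exact congrArg (fun f => f X) this

omit [Fintype G] in
lemma aug_pr {H : Type} [CommGroup H] (φ : G →* H) (X : MonoidAlgebra ℤ G) :
    aug (pr φ X) = aug X := by
  have : aug.comp (pr φ) = aug :=
    ringHom_ext' fun g => by simp
  exact congrArg (fun f => f X) this

omit [Fintype G] in
lemma coeff_pr_el {H : Type} [CommGroup H] [DecidableEq H] (φ : G →* H) (D : Finset G) (y : H) :
    (pr φ (el D)).coeff y = ((D.filter (fun d => φ d = y)).card : ℤ) := by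
  rw [el, map_sum, coeff_sum, Finsupp.finsetSum_apply, Finset.card_filter]
  simp [Finsupp.single_apply]

lemma pr_el_univ {H : Type} [CommGroup H] [Fintype H] (φ : G →* H)
    (hφ : Function.Surjective φ) :
    pr φ (el (univ : Finset G)) = ((Nat.card φ.ker : ℤ) : MonoidAlgebra ℤ H) * el univ := by
  classical
  ext y
  rw [coeff_pr_el, ← zsmul_eq_mul, coeff_smul_apply, coeff_el]
  simp only [mem_univ, if_true, smul_eq_mul, mul_one]
  norm_cast
  have h1 : (univ.filter (fun d : G => φ d = y)).card = (univ.filter (fun d : G => φ d = 1)).card :=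
    MonoidHom.card_fiber_eq_of_mem_range φ (hφ y) (hφ 1)
  rw [h1, Nat.card_eq_fintype_card, Fintype.card_subtype]
  congr 1
  ext x
  simp [MonoidHom.mem_ker]

end quotient

section structureThm

variable {G : Type} [CommGroup G] [Fintype G]

/-- Projection of the difference set onto a quotient of order `n²+1`: every coset of the
subgroup `A` of order `n+1` contains exactly one element of `D`, except one which is contained
in `D`. -/
lemma quotient_structure (D : Finset G) {p q a b : ℕ} (hp : p.Prime) (hq : q.Prime)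
    (hb : 0 < b) (hlt : q ^ b < p ^ a)
    (hG : Nat.card G = (p ^ a * q ^ b + 1) * ((p ^ a * q ^ b) ^ 2 + 1))
    (hk : D.card = (p ^ a * q ^ b) ^ 2 + p ^ a * q ^ b + 1)
    (hD : el D * iv (el D) = ((((p ^ a * q ^ b : ℕ) : ℤ) ^ 2 : ℤ) : MonoidAlgebra ℤ G)
      + ((((p ^ a * q ^ b : ℕ) : ℤ) + 1 : ℤ) : MonoidAlgebra ℤ G) * el univ)
    (A : Subgroup G) (hA : Nat.card A = p ^ a * q ^ b + 1) :
    ∃ c : G ⧸ A, (pr (QuotientGroup.mk' A) (el D)).coeff c = 1 + ((p ^ a * q ^ b : ℕ) : ℤ) ∧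
      ∀ y : G ⧸ A, y ≠ c → (pr (QuotientGroup.mk' A) (el D)).coeff y = 1 := by
  classical
  have : Fintype (G ⧸ A) := Fintype.ofFinite _
  set n : ℕ := p ^ a * q ^ b with hn
  have hnpos : 0 < n := Nat.mul_pos (pow_pos hp.pos a) (pow_pos hq.pos b)
  have ha : 0 < a := by
    rcases Nat.eq_zero_or_pos a with h | h
    · subst h
      have : 0 < q ^ b := pow_pos hq.pos b
      rw [pow_zero] at hlt
      omega
    · exact h
  have hpn : p ∣ n := Dvd.dvd.mul_right (dvd_pow_self p ha.ne') _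
  have hqn : q ∣ n := Dvd.dvd.mul_left (dvd_pow_self q hb.ne') _
  -- coprimality
  have hcop1 : (n + 1).Coprime n := by simp
  have hcop2 : (n ^ 2 + 1).Coprime n := by
    rw [Nat.coprime_comm, sq]; simp
  have hcopG : (Nat.card G).Coprime n := by rw [hG]; exact Nat.Coprime.mul_left hcop1 hcop2
  have hcopGp : (Nat.card G).Coprime p := hcopG.coprime_dvd_right hpn
  have hcopGq : (Nat.card G).Coprime q := hcopG.coprime_dvd_right hqn
  -- the quotient
  have hB : Nat.card (G ⧸ A) = n ^ 2 + 1 := by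
    have h1 := Subgroup.card_eq_card_quotient_mul_card_subgroup A
    rw [hG, hA, mul_comm] at h1
    exact (Nat.eq_of_mul_eq_mul_right (by omega) h1).symm
  have hcopBq : (Nat.card (G ⧸ A)).Coprime q := by rw [hB]; exact hcop2.coprime_dvd_right hqn
  have hcopB : ∀ t, t ∣ n ^ 2 → (Nat.card (G ⧸ A)).Coprime t := by
    intro t ht; rw [hB]; exact (hcop2.pow_right 2).coprime_dvd_right ht
  -- p is a multiplier
  have hmult : ∀ s, ∃ h : G, pw (p ^ s) (el D) = single h 1 * el D := by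
    intro s
    refine multiplier D hD (by positivity) hp hcopGp (e := 2 * a) ?_ ?_ s
    · rw [hn]; push_cast; rw [mul_pow, ← pow_mul, mul_comm a 2]; exact dvd_mul_right _ _
    · rw [hn]
      have h1 : q ^ b + 1 ≤ p ^ a := hlt
      have h2 : (q : ℤ) ^ b + 1 ≤ (p : ℤ) ^ a := by exact_mod_cast h1
      have h3 : 0 < (q : ℤ) ^ b := by have := hq.pos; positivity
      rw [mul_comm 2 a, pow_mul]
      push_cast
      nlinarith
  set φ := QuotientGroup.mk' A with hφ
  have hφs : Function.Surjective φ := QuotientGroup.mk'_surjective A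
  set u : MonoidAlgebra ℤ (G ⧸ A) := el univ with hu
  have hpu : pr φ (el (univ : Finset G)) = (((n : ℤ) + 1 : ℤ) : MonoidAlgebra ℤ (G ⧸ A)) * u := by
    rw [pr_el_univ φ hφs, hφ, QuotientGroup.ker_mk', hA]
    push_cast; rfl
  set DB := pr φ (el D) with hDB
  have hDBD : DB * iv DB = ((n ^ 2 : ℤ) : MonoidAlgebra ℤ (G ⧸ A))
      + ((((n : ℤ) + 1) ^ 2 : ℤ) : MonoidAlgebra ℤ (G ⧸ A)) * u := by
    rw [hDB, ← pr_iv, ← map_mul, hD, map_add, map_mul, map_intCast, map_intCast, hpu]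
    push_cast; ring
  have haugDB : aug DB = (n : ℤ) ^ 2 + n + 1 := by
    rw [hDB, aug_pr, aug_el, hk]; push_cast; ring
  have hcardB : ((univ : Finset (G ⧸ A)).card : ℤ) = (n : ℤ) ^ 2 + 1 := by
    rw [Finset.card_univ, ← Nat.card_eq_fintype_card, hB]; push_cast; ring
  have huu : u * u = (((n : ℤ) ^ 2 + 1 : ℤ) : MonoidAlgebra ℤ (G ⧸ A)) * u := by
    rw [hu, mul_el_univ, aug_el, hcardB]
  have hDBu : DB * u = (((n : ℤ) ^ 2 + n + 1 : ℤ) : MonoidAlgebra ℤ (G ⧸ A)) * u := by
    rw [hu, mul_el_univ, haugDB]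
  have hiDBu : iv DB * u = (((n : ℤ) ^ 2 + n + 1 : ℤ) : MonoidAlgebra ℤ (G ⧸ A)) * u := by
    rw [hu, mul_el_univ, aug_iv, haugDB]
  -- E = DB - u
  set E := DB - u with hE
  have hivE : iv E = iv DB - u := by rw [hE, map_sub, hu, iv_el_univ]
  have hEE : E * iv E = ((n ^ 2 : ℤ) : MonoidAlgebra ℤ (G ⧸ A)) := by
    rw [hivE, hE]
    push_cast at hDBD huu hDBu hiDBu ⊢
    linear_combination hDBD - hDBu - hiDBu + huu
  have haugE : aug E = n := by
    rw [hE, map_sub, haugDB, hu, aug_el, hcardB]; ring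
  -- the Frobenius twist of E
  obtain ⟨h0, hh0⟩ := hmult (2 * a)
  have hEp : pw (p ^ (2 * a)) E = single (φ h0) 1 * E := by
    rw [hE, map_sub, hDB, ← pr_pw, hh0, map_mul, pr_single, mul_sub, hu,
      pw_el_univ (hcopB _ (by rw [hn, mul_pow, ← pow_mul, mul_comm a 2]; exact dvd_mul_right _ _)),
      mul_comm (single (φ h0) 1) (el univ)]
    have : el univ * single (φ h0) (1 : ℤ) = el (univ : Finset (G ⧸ A)) := by
      rw [mul_comm, mul_el_univ]; simp
    rw [this]
  have hEinv : iv E = single ((φ h0) ^ q ^ (2 * b)) 1 * pw (q ^ (2 * b)) E := by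
    have h1 : pw (n ^ 2) E = iv E := by
      apply pw_eq_iv
      intro g
      have : g ^ (n ^ 2 + 1) = 1 := by rw [← hB]; exact pow_card_eq_one'
      rw [pow_succ] at this
      exact eq_inv_of_mul_eq_one_left this
    rw [← h1]
    have h2 : n ^ 2 = q ^ (2 * b) * p ^ (2 * a) := by rw [hn]; ring
    rw [h2, ← pw_pw, hEp, map_mul, pw_single]
  have hdvd : (((q : ℤ) ^ b : ℤ) : MonoidAlgebra ℤ (G ⧸ A)) ∣ E := by
    refine dvd_of_dvd_prod hq hcopBq (f := 2) (by norm_num) (fun i => if i = 0 then 0 else 2 * b)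
      b E ?_
    rw [Finset.prod_range_succ, Finset.prod_range_one]
    simp only [if_true, pow_zero, one_ne_zero, if_false]
    rw [pw_eq_self (by simp)]
    have h3 : single ((φ h0) ^ q ^ (2 * b)) 1 * (E * pw (q ^ (2 * b)) E)
        = ((n ^ 2 : ℤ) : MonoidAlgebra ℤ (G ⧸ A)) := by
      rw [← hEE, hEinv]; ring
    have h4 : E * pw (q ^ (2 * b)) E
        = single (((φ h0) ^ q ^ (2 * b))⁻¹) 1 * ((n ^ 2 : ℤ) : MonoidAlgebra ℤ (G ⧸ A)) := by
      rw [← h3, ← mul_assoc, MonoidAlgebra.single_mul_single]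
      simp [← MonoidAlgebra.one_def]
    rw [h4]
    refine Dvd.dvd.mul_left ?_ _
    refine map_dvd (Int.castRingHom (MonoidAlgebra ℤ (G ⧸ A))) ?_
    rw [hn]; push_cast; rw [mul_pow, ← pow_mul (q : ℤ)]; exact dvd_mul_left _ _
  obtain ⟨F, hF⟩ := hdvd
  have hqb : (2 : ℤ) ≤ (q : ℤ) ^ b := by
    have : 2 ≤ q ^ b := le_trans hq.two_le (Nat.le_self_pow hb.ne' q)
    exact_mod_cast this
  have hqbpos : (0 : ℤ) < (q : ℤ) ^ b := by omega
  have haugF : aug F = (p : ℤ) ^ a := by
    have h1 : aug E = (q : ℤ) ^ b * aug F := by rw [hF, map_mul, map_intCast]; simp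
    rw [haugE] at h1
    have h2 : (q : ℤ) ^ b * aug F = (q : ℤ) ^ b * (p : ℤ) ^ a := by
      rw [← h1, hn]; push_cast; ring
    exact mul_left_cancel₀ hqbpos.ne' h2
  have hFF : F * iv F = ((((p : ℤ) ^ a) ^ 2 : ℤ) : MonoidAlgebra ℤ (G ⧸ A)) := by
    have h1 : ((((q : ℤ) ^ b) ^ 2 : ℤ) : MonoidAlgebra ℤ (G ⧸ A)) * (F * iv F)
        = ((((q : ℤ) ^ b) ^ 2 : ℤ) : MonoidAlgebra ℤ (G ⧸ A)) *
          ((((p : ℤ) ^ a) ^ 2 : ℤ) : MonoidAlgebra ℤ (G ⧸ A)) := by
      have h2 : E * iv E = ((((q : ℤ) ^ b) ^ 2 : ℤ) : MonoidAlgebra ℤ (G ⧸ A)) * (F * iv F) := by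
        rw [hF, map_mul, map_intCast]; push_cast; ring
      rw [← h2, hEE, hn]; push_cast; ring
    exact intCast_mul_cancel (pow_ne_zero 2 hqbpos.ne') h1
  have hFnonneg : ∀ y, 0 ≤ F.coeff y := by
    intro y
    have h1 : E.coeff y = (q : ℤ) ^ b * F.coeff y := by
      rw [hF, ← zsmul_eq_mul, coeff_smul_apply, smul_eq_mul]
    have h2 : -1 ≤ E.coeff y := by
      rw [hE, coeff_sub, Finsupp.sub_apply, hu, coeff_el, hDB, coeff_pr_el]
      simp only [mem_univ, if_true]
      omega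
    by_contra hneg
    push Not at hneg
    nlinarith
  obtain ⟨c, hc⟩ := trivial_of_nonneg (M := (p : ℤ) ^ a) (by have := hp.pos; positivity)
    hFnonneg haugF (by rw [hFF, MonoidAlgebra.intCast_def]; simp)
  have h1 : ∀ y, DB.coeff y = 1 + (q : ℤ) ^ b * (if c = y then (p : ℤ) ^ a else 0) := by
    intro y
    have h1 : DB = u + E := by rw [hE]; ring
    rw [h1, hF, hc, coeff_add, Finsupp.add_apply, hu, coeff_el, ← zsmul_eq_mul, coeff_smul_apply,
      coeff_single, Finsupp.single_apply]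
    simp
  refine ⟨c, ?_, fun y hy => ?_⟩
  · rw [h1, if_pos rfl, hn]; push_cast; ring
  · rw [h1, if_neg (Ne.symm hy)]; ring

end structureThm

section twist

variable {G : Type} [CommGroup G] [Fintype G]

omit [Fintype G] in
/-- coefficient of `D^{(t)} D^{(-1)}` -/
lemma coeff_pw_mul_iv [DecidableEq G] (D : Finset G) (t : ℕ) (x : G) :
    (pw t (el D) * iv (el D)).coeff x = ((D.filter (fun d => d ^ t * x⁻¹ ∈ D)).card : ℤ) := by
  have h1 : pw t (el D) * iv (el D) = ∑ d ∈ D, ∑ e ∈ D, single (d ^ t * e⁻¹) (1 : ℤ) := by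
    rw [el, map_sum, map_sum, Finset.sum_mul_sum]
    refine Finset.sum_congr rfl fun d _ => Finset.sum_congr rfl fun e _ => ?_
    rw [pw_single, iv_single, MonoidAlgebra.single_mul_single, mul_one]
  rw [h1, coeff_sum, Finsupp.finsetSum_apply, Finset.card_filter, Nat.cast_sum]
  refine Finset.sum_congr rfl fun d _ => ?_
  rw [coeff_sum, Finsupp.finsetSum_apply]
  simp_rw [coeff_single, Finsupp.single_apply]
  by_cases hd : d ^ t * x⁻¹ ∈ D
  · rw [if_pos hd, Finset.sum_eq_single (d ^ t * x⁻¹)]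
    · simp
    · intro e _ he
      rw [if_neg]
      intro h
      apply he
      rw [← h]; simp
    · exact fun h => absurd hd h
  · rw [if_neg hd, Finset.sum_eq_zero]
    · simp
    · intro e he
      rw [if_neg]
      intro h
      apply hd
      rw [← h]; simpa using he

/-- the normalised case: `D` contains the subgroup `A` and meets every other coset once -/
lemma twist_normalised (D : Finset G) {p q a b n : ℕ} (hp : p.Prime) (hq : q.Prime) (hpq : p ≠ q)
    (hb : 0 < b) (hn : n = p ^ a * q ^ b)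
    (hD : el D * iv (el D) = (((n : ℤ) ^ 2 : ℤ) : MonoidAlgebra ℤ G)
      + (((n : ℤ) + 1 : ℤ) : MonoidAlgebra ℤ G) * el univ)
    (A : Subgroup G) (hA : Nat.card A = n + 1) (hAD : ∀ x ∈ A, x ∈ D)
    (huniq : ∀ d ∈ D, ∀ e ∈ D, d ∉ A → e * d⁻¹ ∈ A → e = d)
    (t : ℕ) (htA : ∀ x : G, x ^ t * x⁻¹ ∈ A)
    (hdvd : (((q : ℤ) ^ (2 * b) : ℤ) : MonoidAlgebra ℤ G) ∣
      pw t (el D) * iv (el D) - (((n : ℤ) + 1 : ℤ) : MonoidAlgebra ℤ G) * el univ) :
    ∀ x : G, x ^ t = x := by
  classical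
  -- the homomorphism x ↦ x^t x⁻¹
  set θ : G →* G := (powMonoidHom t : G →* G) * (invMonoidHom : G →* G) with hθ
  have hθx : ∀ x, θ x = x ^ t * x⁻¹ := fun x => rfl
  set AF : Finset G := univ.filter (fun x => x ∈ A) with hAF
  have hAFcard : AF.card = n + 1 := by
    rw [← hA, Nat.card_eq_fintype_card, Fintype.card_subtype]
  have hAFD : AF ⊆ D := fun x hx => hAD x (by simpa [hAF] using hx)
  set R := D \ AF with hR
  have hDsplit : el D = el AF + el R := by
    rw [el, el, el, ← Finset.sum_union disjoint_sdiff, Finset.union_sdiff_of_subset hAFD]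
  -- divisibility of the coefficients of θ(R)
  have hRdvd : ∀ x, (q : ℤ) ^ (2 * b) ∣ (pr θ (el R)).coeff x := by
    intro x
    rw [coeff_pr_el]
    by_cases hx : x ∈ A
    · have h1 := (intCast_dvd_iff _ _).mp hdvd x
      rw [coeff_sub, Finsupp.sub_apply, coeff_pw_mul_iv, ← zsmul_eq_mul, coeff_smul_apply,
        coeff_el] at h1
      simp only [mem_univ, if_true, smul_eq_mul, mul_one] at h1
      have h2 : D.filter (fun d => d ^ t * x⁻¹ ∈ D) = AF ∪ R.filter (fun d => θ d = x) := by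
        ext d
        simp only [mem_filter, mem_union, hR, mem_sdiff, hAF, mem_univ, true_and]
        constructor
        · rintro ⟨hdD, hdt⟩
          by_cases hdA : d ∈ A
          · exact Or.inl hdA
          · right
            refine ⟨⟨hdD, hdA⟩, ?_⟩
            have h3 : (d ^ t * x⁻¹) * d⁻¹ ∈ A := by
              have : (d ^ t * x⁻¹) * d⁻¹ = (d ^ t * d⁻¹) * x⁻¹ := by
                rw [mul_assoc, mul_comm x⁻¹ d⁻¹, ← mul_assoc]
              rw [this]
              exact A.mul_mem (htA d) (A.inv_mem hx)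
            have h4 := huniq d hdD _ hdt hdA h3
            rw [hθx, mul_inv_eq_iff_eq_mul, mul_comm x d]
            exact mul_inv_eq_iff_eq_mul.mp h4
        · rintro (hdA | ⟨⟨hdD, hdA⟩, hd⟩)
          · refine ⟨hAD d hdA, hAD _ ?_⟩
            exact A.mul_mem (A.pow_mem hdA t) (A.inv_mem hx)
          · refine ⟨hdD, ?_⟩
            have : d ^ t * x⁻¹ = d := by
              rw [hθx] at hd
              rw [← hd]; simp
            rwa [this]
      have h3 : Disjoint AF (R.filter (fun d => θ d = x)) :=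
        Disjoint.mono_right (filter_subset _ _) disjoint_sdiff
      rw [h2, card_union_of_disjoint h3, hAFcard] at h1
      push_cast at h1
      have h4 : ((n : ℤ) + 1 + ((R.filter (fun d => θ d = x)).card : ℤ) - ((n : ℤ) + 1))
        = ((R.filter (fun d => θ d = x)).card : ℤ) := by ring
      rwa [h4] at h1
    · have : R.filter (fun d => θ d = x) = ∅ := by
        rw [Finset.filter_eq_empty_iff]
        intro d _ hd
        exact hx (by rw [← hd]; exact htA d)
      rw [this]; simp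
  obtain ⟨Z, hZ⟩ : (((q : ℤ) ^ (2 * b) : ℤ) : MonoidAlgebra ℤ G) ∣ pr θ (el R) :=
    (intCast_dvd_iff _ _).mpr hRdvd
  have hΘ : pr θ (el D) * iv (pr θ (el D)) = (((n : ℤ) ^ 2 : ℤ) : MonoidAlgebra ℤ G)
      + (((n : ℤ) + 1 : ℤ) : MonoidAlgebra ℤ G) * pr θ (el univ) := by
    rw [← pr_iv, ← map_mul, hD, map_add, map_mul, map_intCast, map_intCast]
  -- translation invariance
  have hinv : ∀ x : G, single (θ x) 1 * pr θ (el (univ : Finset G)) = pr θ (el univ) := by
    intro x
    have h1 : single x 1 * el (univ : Finset G) = el univ := by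
      rw [mul_el_univ]; simp
    calc single (θ x) 1 * pr θ (el (univ : Finset G))
        = pr θ (single x 1 * el univ) := by rw [map_mul, pr_single]
      _ = _ := by rw [h1]
  have hq2 : ∀ c : ℤ, IsCoprime (q : ℤ) c → ¬ ((q : ℤ) ^ (2 * b) ∣ 2 * c) := by
    intro c hc h
    have h1 : (q : ℤ) ^ (2 * b) ∣ 2 := by
      refine IsCoprime.dvd_of_dvd_mul_right (hc.pow_left) h
    have h2 : (q : ℤ) ^ 2 ∣ 2 := dvd_trans (pow_dvd_pow _ (by omega)) h1
    have h3 := Int.le_of_dvd (by norm_num) h2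
    have h4 : (2 : ℤ) ≤ q := by exact_mod_cast hq.two_le
    nlinarith
  have hcop_qp : IsCoprime (q : ℤ) ((p : ℤ) ^ (2 * a)) := by
    apply IsCoprime.pow_right
    exact Nat.isCoprime_iff_coprime.mpr ((Nat.coprime_primes hq hp).mpr (Ne.symm hpq))
  have hcop_qn : IsCoprime (q : ℤ) (2 * n + 1) := by
    have : (q : ℤ) ∣ 2 * n := by
      rw [hn]; push_cast
      exact Dvd.dvd.mul_left (Dvd.dvd.mul_left (dvd_pow_self _ hb.ne') _) _
    obtain ⟨w, hw⟩ := this
    exact ⟨-w, 1, by rw [hw]; ring⟩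
  -- coefficient at 1 of 2 - s - s⁻¹
  have hcoef2 : ∀ s : G, s ≠ 1 → ((1 - single s 1) * (1 - single s⁻¹ 1) : MonoidAlgebra ℤ G).coeff 1
      = 2 := by
    intro s hs
    have h1 : ((1 - single s 1) * (1 - single s⁻¹ 1) : MonoidAlgebra ℤ G)
        = 1 + 1 - single s 1 - single s⁻¹ 1 := by
      have : (single s 1 * single s⁻¹ 1 : MonoidAlgebra ℤ G) = 1 := by
        rw [MonoidAlgebra.single_mul_single, MonoidAlgebra.one_def]; simp
      linear_combination this
    rw [h1]
    have h2 : s⁻¹ ≠ 1 := by simpa using hs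
    simp [MonoidAlgebra.one_def, hs]
  -- main identity: for s in the image of θ
  have hmain : ∀ x : G, ((1 - single (θ x) 1) * pr θ (el D)) * iv ((1 - single (θ x) 1) * pr θ (el D))
      = (((n : ℤ) ^ 2 : ℤ) : MonoidAlgebra ℤ G) *
        ((1 - single (θ x) 1) * (1 - single (θ x)⁻¹ 1)) := by
    intro x
    have h1 : iv ((1 - single (θ x) 1) * pr θ (el D))
        = (1 - single (θ x)⁻¹ 1) * iv (pr θ (el D)) := by
      rw [map_mul, map_sub, map_one, iv_single]
    rw [h1]
    linear_combination ((1 - single (θ x) 1) * (1 - single (θ x)⁻¹ 1)) * hΘ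
      - (((n : ℤ) + 1 : ℤ) : MonoidAlgebra ℤ G) * (1 - single (θ x)⁻¹ 1) * hinv x
  -- step 1 : θ is trivial on A
  have step1 : ∀ x ∈ A, θ x = 1 := by
    intro x hx
    by_contra hs
    have hAinv : (1 - single (θ x) 1) * pr θ (el AF) = 0 := by
      have h1 : single x 1 * el AF = el AF := by
        rw [el, Finset.mul_sum]
        simp_rw [MonoidAlgebra.single_mul_single, mul_one]
        refine Finset.sum_bij' (fun y _ => x * y) (fun y _ => x⁻¹ * y) ?_ ?_ ?_ ?_ ?_
        · intro y hy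
          simp only [hAF, mem_filter, mem_univ, true_and] at hy ⊢
          exact A.mul_mem hx hy
        · intro y hy
          simp only [hAF, mem_filter, mem_univ, true_and] at hy ⊢
          exact A.mul_mem (A.inv_mem hx) hy
        · intro y _; simp
        · intro y _; simp
        · intro y _; rfl
      have h2 : single (θ x) 1 * pr θ (el AF) = pr θ (el AF) := by
        rw [← pr_single, ← map_mul, h1]
      rw [sub_mul, one_mul, h2, sub_self]
    have h3 : (1 - single (θ x) 1) * pr θ (el D)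
        = (((q : ℤ) ^ (2 * b) : ℤ) : MonoidAlgebra ℤ G) * ((1 - single (θ x) 1) * Z) := by
      rw [hDsplit, map_add, mul_add, hAinv, hZ]; ring
    have h4 := hmain x
    rw [h3, map_mul, map_intCast] at h4
    have h5 := congrArg (fun Y => Y.coeff 1) h4
    have h6 : (((n : ℤ) ^ 2 : ℤ) : MonoidAlgebra ℤ G) *
        ((1 - single (θ x) 1) * (1 - single (θ x)⁻¹ 1))
        = (n : ℤ) ^ 2 • ((1 - single (θ x) 1) * (1 - single (θ x)⁻¹ 1)) := by
      rw [zsmul_eq_mul]
    have h7 : (((q : ℤ) ^ (2 * b) : ℤ) : MonoidAlgebra ℤ G) * ((1 - single (θ x) 1) * Z) *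
        ((((q : ℤ) ^ (2 * b) : ℤ) : MonoidAlgebra ℤ G) * iv ((1 - single (θ x) 1) * Z))
        = ((q : ℤ) ^ (2 * b) * (q : ℤ) ^ (2 * b)) • (((1 - single (θ x) 1) * Z) *
          iv ((1 - single (θ x) 1) * Z)) := by
      rw [zsmul_eq_mul]; push_cast; ring
    simp only [h6, h7, coeff_smul_apply, hcoef2 _ hs, smul_eq_mul] at h5
    have h8 : (n : ℤ) ^ 2 = (q : ℤ) ^ (2 * b) * (p : ℤ) ^ (2 * a) := by
      rw [hn]; push_cast; ring
    rw [h8] at h5
    have hq0 : (q : ℤ) ^ (2 * b) ≠ 0 := pow_ne_zero _ (by exact_mod_cast hq.ne_zero)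
    apply hq2 _ hcop_qp
    refine ⟨(((1 - single (θ x) 1) * Z) * iv ((1 - single (θ x) 1) * Z)).coeff 1, ?_⟩
    apply mul_left_cancel₀ hq0
    linear_combination -h5
  -- step 2 : θ is trivial on G
  intro x
  have key : θ x = 1 := by
    by_contra hs
    have hA1 : pr θ (el AF) = (((n : ℤ) + 1 : ℤ) : MonoidAlgebra ℤ G) := by
      rw [el, map_sum]
      rw [Finset.sum_congr rfl (g := fun _ => (1 : MonoidAlgebra ℤ G)) (fun y hy => by
        rw [pr_single, step1 y (by simpa [hAF] using hy), MonoidAlgebra.one_def])]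
      rw [Finset.sum_const, hAFcard]
      simp
    have h3 : (1 - single (θ x) 1) * pr θ (el D)
        = (((n : ℤ) + 1 : ℤ) : MonoidAlgebra ℤ G) * (1 - single (θ x) 1)
          + (((q : ℤ) ^ (2 * b) : ℤ) : MonoidAlgebra ℤ G) * ((1 - single (θ x) 1) * Z) := by
      rw [hDsplit, map_add, mul_add, hA1, hZ]; ring
    have h4 := hmain x
    rw [h3, map_add, map_mul, map_mul, map_intCast, map_intCast, map_sub, map_one, iv_single] at h4
    -- rearrange to  (2n+1) (1-s)(1-s⁻¹) = q^{2b} * W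
    have h5 : ((2 * (n : ℤ) + 1 : ℤ) : MonoidAlgebra ℤ G) *
        ((1 - single (θ x) 1) * (1 - single (θ x)⁻¹ 1))
        = (((q : ℤ) ^ (2 * b) : ℤ) : MonoidAlgebra ℤ G) *
          (-((((n : ℤ) + 1 : ℤ) : MonoidAlgebra ℤ G) * (1 - single (θ x) 1) *
              iv ((1 - single (θ x) 1) * Z)
            + ((1 - single (θ x) 1) * Z) * ((((n : ℤ) + 1 : ℤ) : MonoidAlgebra ℤ G) *
              (1 - single (θ x)⁻¹ 1))
            + ((1 - single (θ x) 1) * Z) * ((((q : ℤ) ^ (2 * b) : ℤ) : MonoidAlgebra ℤ G) *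
              iv ((1 - single (θ x) 1) * Z)))) := by
      push_cast at h4 ⊢
      linear_combination h4
    have h6 : (((q : ℤ) ^ (2 * b) : ℤ) : MonoidAlgebra ℤ G) ∣ ((2 * (n : ℤ) + 1 : ℤ) : MonoidAlgebra ℤ G) *
        ((1 - single (θ x) 1) * (1 - single (θ x)⁻¹ 1)) := ⟨_, h5⟩
    have h7 := (intCast_dvd_iff _ _).mp h6 1
    rw [← zsmul_eq_mul, coeff_smul_apply, hcoef2 _ hs, smul_eq_mul, mul_comm _ (2 : ℤ)] at h7
    exact hq2 _ hcop_qn h7
  rw [hθx] at key
  exact mul_inv_eq_one.mp key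

end twist

section main

variable {G : Type} [CommGroup G] [Fintype G]

/-- Under the structure theorem, the subgroup of order `n+1` consists of all elements `y` with
`y^(n+1) = 1`. -/
lemma mem_of_pow_eq_one (D : Finset G) {p q a b : ℕ} (hp : p.Prime) (hq : q.Prime)
    (hb : 0 < b) (hlt : q ^ b < p ^ a)
    (hG : Nat.card G = (p ^ a * q ^ b + 1) * ((p ^ a * q ^ b) ^ 2 + 1))
    (hk : D.card = (p ^ a * q ^ b) ^ 2 + p ^ a * q ^ b + 1)
    (hD : el D * iv (el D) = ((((p ^ a * q ^ b : ℕ) : ℤ) ^ 2 : ℤ) : MonoidAlgebra ℤ G)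
      + ((((p ^ a * q ^ b : ℕ) : ℤ) + 1 : ℤ) : MonoidAlgebra ℤ G) * el univ)
    (A : Subgroup G) (hA : Nat.card A = p ^ a * q ^ b + 1) (y : G)
    (hy : y ^ (p ^ a * q ^ b + 1) = 1) : y ∈ A := by
  classical
  by_contra hyA
  have hzp : Nat.card (Subgroup.zpowers y) ∣ p ^ a * q ^ b + 1 := by
    rw [Nat.card_zpowers]; exact orderOf_dvd_of_pow_eq_one hy
  obtain ⟨A2, hle, hA2⟩ := exists_subgroup_card_eq_ge G (Subgroup.zpowers y) (p ^ a * q ^ b + 1)
    hzp (by rw [hG]; exact dvd_mul_right _ _)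
  have hyA2 : y ∈ A2 := hle (Subgroup.mem_zpowers y)
  obtain ⟨c, -, hc⟩ := quotient_structure D hp hq hb hlt hG hk hD A hA
  obtain ⟨c2, hc2, -⟩ := quotient_structure D hp hq hb hlt hG hk hD A2 hA2
  set n : ℕ := p ^ a * q ^ b with hn
  have hn2 : 2 ≤ n := by
    have h1 : 1 ≤ q ^ b := Nat.one_le_pow _ _ hq.pos
    have h2 : 2 ≤ p ^ a := by omega
    calc 2 ≤ p ^ a * 1 := by omega
      _ ≤ n := Nat.mul_le_mul_left _ h1
  have hB : Nat.card (G ⧸ A) = n ^ 2 + 1 := by
    have h1 := Subgroup.card_eq_card_quotient_mul_card_subgroup A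
    rw [hG, hA, mul_comm] at h1
    exact (Nat.eq_of_mul_eq_mul_right (by omega) h1).symm
  -- a nontrivial element of A ∩ A2
  have hs : ∃ s : G, s ∈ A ∧ s ∈ A2 ∧ s ≠ 1 := by
    by_contra hno
    push Not at hno
    have hinj : Function.Injective ((QuotientGroup.mk' A).comp A2.subtype) := by
      rw [injective_iff_map_eq_one]
      intro x hx
      have h1 : (x : G) ∈ A := (QuotientGroup.eq_one_iff (x : G)).mp hx
      exact Subtype.ext (hno x h1 x.2)
    have h1 : Nat.card A2 ∣ Nat.card (G ⧸ A) := Subgroup.card_dvd_of_injective _ hinj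
    rw [hA2, hB] at h1
    have h2 : n + 1 ∣ 2 := by
      have h4 : (n ^ 2 + 1) + 2 * n = (n + 1) * (n + 1) := by ring
      have h5 : n + 1 ∣ 2 * n := by
        rw [← Nat.dvd_add_right h1, h4]; exact dvd_mul_right _ _
      have h6 : 2 * n + 2 = 2 * (n + 1) := by ring
      rw [← Nat.dvd_add_right h5, h6]
      exact dvd_mul_left _ _
    have := Nat.le_of_dvd (by norm_num) h2
    omega
  obtain ⟨s, hsA, hsA2, hs1⟩ := hs
  obtain ⟨g2, rfl⟩ := QuotientGroup.mk'_surjective A2 c2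
  rw [coeff_pr_el] at hc2
  have hfib : (univ.filter (fun d : G => QuotientGroup.mk' A2 d = QuotientGroup.mk' A2 g2)).card
      = n + 1 := by
    have h1 := MonoidHom.card_fiber_eq_of_mem_range (QuotientGroup.mk' A2)
      (⟨g2, rfl⟩ : QuotientGroup.mk' A2 g2 ∈ Set.range (QuotientGroup.mk' A2))
      (⟨1, rfl⟩ : QuotientGroup.mk' A2 1 ∈ Set.range (QuotientGroup.mk' A2))
    rw [h1, ← hA2, Nat.card_eq_fintype_card, Fintype.card_subtype]
    congr 1
    ext x
    simp
  have hsub : D.filter (fun d => QuotientGroup.mk' A2 d = QuotientGroup.mk' A2 g2)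
      = univ.filter (fun d : G => QuotientGroup.mk' A2 d = QuotientGroup.mk' A2 g2) := by
    apply Finset.eq_of_subset_of_card_le
    · exact Finset.filter_subset_filter _ (subset_univ _)
    · rw [hfib]
      have : ((D.filter (fun d => QuotientGroup.mk' A2 d = QuotientGroup.mk' A2 g2)).card : ℤ)
          = ((n + 1 : ℕ) : ℤ) := by rw [hc2]; push_cast; ring
      exact (Nat.cast_injective this).ge
  have hin : ∀ x ∈ A2, g2 * x ∈ D := by
    intro x hx
    have h1 : g2 * x ∈
        univ.filter (fun d : G => QuotientGroup.mk' A2 d = QuotientGroup.mk' A2 g2) := by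
      simp only [mem_filter, mem_univ, true_and]
      have : QuotientGroup.mk' A2 x = 1 := (QuotientGroup.eq_one_iff x).mpr hx
      rw [map_mul, this, mul_one]
    rw [← hsub] at h1
    exact (mem_filter.mp h1).1
  -- every element of g2 A2 lies in the coset c
  have hall : ∀ x ∈ A2, QuotientGroup.mk' A (g2 * x) = c := by
    intro x hx
    by_contra hne
    have h1 := hc _ hne
    rw [coeff_pr_el] at h1
    have h2 : (D.filter (fun z => QuotientGroup.mk' A z = QuotientGroup.mk' A (g2 * x))).card = 1 := by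
      exact_mod_cast h1
    rw [Finset.card_eq_one] at h2
    obtain ⟨z, hz⟩ := h2
    have h3 : g2 * x ∈ ({z} : Finset G) := by
      rw [← hz, mem_filter]; exact ⟨hin x hx, rfl⟩
    have h4 : g2 * (x * s) ∈ ({z} : Finset G) := by
      rw [← hz, mem_filter]
      refine ⟨hin _ (A2.mul_mem hx hsA2), ?_⟩
      have : QuotientGroup.mk' A s = 1 := (QuotientGroup.eq_one_iff s).mpr hsA
      rw [← mul_assoc, map_mul _ (g2 * x) s, this, mul_one]
    rw [mem_singleton] at h3 h4
    have h5 := mul_left_cancel (h4.trans h3.symm)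
    exact hs1 (mul_eq_left.mp h5)
  apply hyA
  have h1 := hall y hyA2
  have h2 := hall 1 A2.one_mem
  rw [mul_one] at h2
  rw [map_mul, h2, mul_eq_left] at h1
  exact (QuotientGroup.eq_one_iff y).mp h1

/-- Main theorem with the normalisation `q^b < p^a`. -/
theorem two_prime_aux (D : Finset G) {p q a b : ℕ} (hp : p.Prime) (hq : q.Prime) (hpq : p ≠ q)
    (hb : 0 < b) (hlt : q ^ b < p ^ a)
    (hG : Nat.card G = (p ^ a * q ^ b + 1) * ((p ^ a * q ^ b) ^ 2 + 1))
    (hk : D.card = (p ^ a * q ^ b) ^ 2 + p ^ a * q ^ b + 1)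
    (hD : el D * iv (el D) = ((((p ^ a * q ^ b : ℕ) : ℤ) ^ 2 : ℤ) : MonoidAlgebra ℤ G)
      + ((((p ^ a * q ^ b : ℕ) : ℤ) + 1 : ℤ) : MonoidAlgebra ℤ G) * el univ)
    (i j : ℕ) (hij : ∀ x : G, x ^ ((p ^ i * q ^ j - 1) * (p ^ a * q ^ b + 1)) = 1) :
    ∀ x : G, x ^ (p ^ i * q ^ j) = x := by
  classical
  obtain ⟨A, hA⟩ := exists_subgroup_card_eq (p ^ a * q ^ b + 1) G (by rw [hG]; exact dvd_mul_right _ _)
  obtain ⟨c, hc1, hc2⟩ := quotient_structure D hp hq hb hlt hG hk hD A hA
  have hmemA := mem_of_pow_eq_one D hp hq hb hlt hG hk hD A hA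
  set n : ℕ := p ^ a * q ^ b with hn
  have hnpos : 0 < n := Nat.mul_pos (pow_pos hp.pos a) (pow_pos hq.pos b)
  have ha : 0 < a := by
    rcases Nat.eq_zero_or_pos a with h | h
    · subst h
      have : 0 < q ^ b := pow_pos hq.pos b
      rw [pow_zero] at hlt
      omega
    · exact h
  have hpn : p ∣ n := Dvd.dvd.mul_right (dvd_pow_self p ha.ne') _
  have hqn : q ∣ n := Dvd.dvd.mul_left (dvd_pow_self q hb.ne') _
  have hcop1 : (n + 1).Coprime n := by simp
  have hcop2 : (n ^ 2 + 1).Coprime n := by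
    rw [Nat.coprime_comm, sq]; simp
  have hcopG : (Nat.card G).Coprime n := by rw [hG]; exact Nat.Coprime.mul_left hcop1 hcop2
  have hcopGp : (Nat.card G).Coprime p := hcopG.coprime_dvd_right hpn
  have hcopGq : (Nat.card G).Coprime q := hcopG.coprime_dvd_right hqn
  obtain ⟨g0, rfl⟩ := QuotientGroup.mk'_surjective A c
  -- translate
  set D' : Finset G := D.image (fun x => g0⁻¹ * x) with hD'
  have hmem : ∀ x, x ∈ D' ↔ g0 * x ∈ D := by
    intro x
    rw [hD', mem_image]
    constructor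
    · rintro ⟨y, hy, rfl⟩; simpa using hy
    · intro h; exact ⟨g0 * x, h, by simp⟩
  have helD' : el D' = single g0⁻¹ 1 * el D := by
    rw [hD', el, Finset.sum_image (fun x _ y _ h => mul_left_cancel h), el, Finset.mul_sum]
    simp_rw [MonoidAlgebra.single_mul_single, mul_one]
  have hDD' : el D' * iv (el D') = (((n : ℤ) ^ 2 : ℤ) : MonoidAlgebra ℤ G)
      + (((n : ℤ) + 1 : ℤ) : MonoidAlgebra ℤ G) * el univ := by
    rw [← hD, helD', map_mul, iv_single]
    have : (single g0⁻¹ 1 * single (g0⁻¹)⁻¹ 1 : MonoidAlgebra ℤ G) = 1 := by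
      rw [MonoidAlgebra.single_mul_single, MonoidAlgebra.one_def]; simp
    linear_combination (el D * iv (el D)) * this
  -- A ⊆ D'
  rw [coeff_pr_el] at hc1
  have hfib : (univ.filter (fun d : G => QuotientGroup.mk' A d = QuotientGroup.mk' A g0)).card
      = n + 1 := by
    have h1 := MonoidHom.card_fiber_eq_of_mem_range (QuotientGroup.mk' A)
      (⟨g0, rfl⟩ : QuotientGroup.mk' A g0 ∈ Set.range (QuotientGroup.mk' A))
      (⟨1, rfl⟩ : QuotientGroup.mk' A 1 ∈ Set.range (QuotientGroup.mk' A))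
    rw [h1, ← hA, Nat.card_eq_fintype_card, Fintype.card_subtype]
    congr 1
    ext x
    simp
  have hsub : D.filter (fun d => QuotientGroup.mk' A d = QuotientGroup.mk' A g0)
      = univ.filter (fun d : G => QuotientGroup.mk' A d = QuotientGroup.mk' A g0) := by
    apply Finset.eq_of_subset_of_card_le
    · exact Finset.filter_subset_filter _ (subset_univ _)
    · rw [hfib]
      have : ((D.filter (fun d => QuotientGroup.mk' A d = QuotientGroup.mk' A g0)).card : ℤ)
          = ((n + 1 : ℕ) : ℤ) := by rw [hc1]; push_cast; ring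
      exact (Nat.cast_injective this).ge
  have hAD' : ∀ x ∈ A, x ∈ D' := by
    intro x hx
    rw [hmem]
    have h1 : g0 * x ∈ univ.filter (fun d : G => QuotientGroup.mk' A d = QuotientGroup.mk' A g0) := by
      simp only [mem_filter, mem_univ, true_and]
      rw [map_mul, (QuotientGroup.eq_one_iff x).mpr hx |> (fun h => (h : QuotientGroup.mk' A x = 1)),
        mul_one]
    rw [← hsub] at h1
    exact (mem_filter.mp h1).1
  have huniq : ∀ d ∈ D', ∀ e ∈ D', d ∉ A → e * d⁻¹ ∈ A → e = d := by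
    intro d hd e he hdA hed
    rw [hmem] at hd he
    have hne : QuotientGroup.mk' A (g0 * d) ≠ QuotientGroup.mk' A g0 := by
      intro h
      apply hdA
      rw [map_mul, mul_eq_left] at h
      exact (QuotientGroup.eq_one_iff d).mp h
    have h1 := hc2 _ hne
    rw [coeff_pr_el] at h1
    have h2 : (D.filter (fun x => QuotientGroup.mk' A x = QuotientGroup.mk' A (g0 * d))).card = 1 := by
      exact_mod_cast h1
    rw [Finset.card_eq_one] at h2
    obtain ⟨z, hz⟩ := h2
    have h3 : g0 * d ∈ ({z} : Finset G) := by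
      rw [← hz, mem_filter]; exact ⟨hd, rfl⟩
    have h4 : g0 * e ∈ ({z} : Finset G) := by
      rw [← hz, mem_filter]
      refine ⟨he, ?_⟩
      have h5 : g0 * e = g0 * ((e * d⁻¹) * d) := by simp
      have h6 : QuotientGroup.mk' A (e * d⁻¹) = 1 := (QuotientGroup.eq_one_iff _).mpr hed
      rw [h5, map_mul, map_mul _ (e * d⁻¹) d, h6, one_mul, ← map_mul]
    rw [mem_singleton] at h3 h4
    exact mul_left_cancel (h4.trans h3.symm)
  -- p is a multiplier
  obtain ⟨h, hh⟩ : ∃ h : G, pw (p ^ i) (el D') = single h 1 * el D' := by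
    refine multiplier D' hDD' (by positivity) hp hcopGp (e := 2 * a) ?_ ?_ i
    · rw [hn]; push_cast; rw [mul_pow, ← pow_mul, mul_comm a 2]; exact dvd_mul_right _ _
    · rw [hn]
      have h1 : q ^ b + 1 ≤ p ^ a := hlt
      have h2 : (q : ℤ) ^ b + 1 ≤ (p : ℤ) ^ a := by exact_mod_cast h1
      have h3 : 0 < (q : ℤ) ^ b := by have := hq.pos; positivity
      rw [mul_comm 2 a, pow_mul]
      push_cast
      nlinarith
  have hdvd : (((q : ℤ) ^ (2 * b) : ℤ) : MonoidAlgebra ℤ G) ∣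
      pw (p ^ i * q ^ j) (el D') * iv (el D')
        - (((n : ℤ) + 1 : ℤ) : MonoidAlgebra ℤ G) * el univ := by
    have h1 := dvd_twist D' hDD' hq hcopGq (e := 2 * b) (by
      rw [hn]; push_cast; rw [mul_pow, ← pow_mul (q : ℤ), mul_comm b 2]; exact dvd_mul_left _ _) j
    have h2 : pw (p ^ i * q ^ j) (el D') = single (h ^ q ^ j) 1 * pw (q ^ j) (el D') := by
      rw [mul_comm, ← pw_pw, hh, map_mul, pw_single]
    have h3 : single (h ^ q ^ j) 1 * el (univ : Finset G) = el univ := by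
      rw [mul_el_univ]; simp
    have h4 : pw (p ^ i * q ^ j) (el D') * iv (el D')
        - (((n : ℤ) + 1 : ℤ) : MonoidAlgebra ℤ G) * el univ
        = single (h ^ q ^ j) 1 * (pw (q ^ j) (el D') * iv (el D')
        - (((n : ℤ) + 1 : ℤ) : MonoidAlgebra ℤ G) * el univ) := by
      rw [h2]
      linear_combination (((n : ℤ) + 1 : ℤ) : MonoidAlgebra ℤ G) * h3
    rw [h4]
    exact Dvd.dvd.mul_left h1 _
  -- the twist acts trivially on G/A
  have htA : ∀ x : G, x ^ (p ^ i * q ^ j) * x⁻¹ ∈ A := by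
    intro x
    have hpos : 1 ≤ p ^ i * q ^ j := Nat.mul_pos (pow_pos hp.pos i) (pow_pos hq.pos j)
    have h1 : p ^ i * q ^ j = (p ^ i * q ^ j - 1) + 1 := by omega
    rw [h1, pow_succ, mul_inv_cancel_right]
    apply hmemA
    rw [← pow_mul]
    exact hij x
  exact twist_normalised D' hp hq hpq hb hn hDD' A hA hAD' huniq _ htA hdvd

/-- Main theorem: `n = p^a q^b` with `p ≠ q` primes. -/
theorem two_prime (D : Finset G) {p q a b : ℕ} (hp : p.Prime) (hq : q.Prime) (hpq : p ≠ q)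
    (ha : 0 < a) (hb : 0 < b)
    (hG : Nat.card G = (p ^ a * q ^ b + 1) * ((p ^ a * q ^ b) ^ 2 + 1))
    (hk : D.card = (p ^ a * q ^ b) ^ 2 + p ^ a * q ^ b + 1)
    (hD : el D * iv (el D) = ((((p ^ a * q ^ b : ℕ) : ℤ) ^ 2 : ℤ) : MonoidAlgebra ℤ G)
      + ((((p ^ a * q ^ b : ℕ) : ℤ) + 1 : ℤ) : MonoidAlgebra ℤ G) * el univ)
    (i j : ℕ) (hij : ∀ x : G, x ^ ((p ^ i * q ^ j - 1) * (p ^ a * q ^ b + 1)) = 1) :
    ∀ x : G, x ^ (p ^ i * q ^ j) = x := by
  rcases lt_trichotomy (q ^ b) (p ^ a) with h | h | h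
  · exact two_prime_aux D hp hq hpq hb h hG hk hD i j hij
  · exfalso
    have h1 : p ∣ q ^ b := by rw [h]; exact dvd_pow_self p ha.ne'
    exact hpq ((Nat.prime_dvd_prime_iff_eq hp hq).mp (hp.dvd_of_dvd_pow h1))
  · rw [mul_comm (p ^ a)] at hG hk hD hij
    rw [mul_comm (p ^ i)] at hij ⊢
    exact two_prime_aux D hq hp (Ne.symm hpq) ha h hG hk hD j i hij

/-- Structure theorem, normalisation `q^b < p^a`. -/
theorem structure_aux (D : Finset G) {p q a b : ℕ} (hp : p.Prime) (hq : q.Prime)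
    (hb : 0 < b) (hlt : q ^ b < p ^ a)
    (hG : Nat.card G = (p ^ a * q ^ b + 1) * ((p ^ a * q ^ b) ^ 2 + 1))
    (hk : D.card = (p ^ a * q ^ b) ^ 2 + p ^ a * q ^ b + 1)
    (hD : el D * iv (el D) = ((((p ^ a * q ^ b : ℕ) : ℤ) ^ 2 : ℤ) : MonoidAlgebra ℤ G)
      + ((((p ^ a * q ^ b : ℕ) : ℤ) + 1 : ℤ) : MonoidAlgebra ℤ G) * el univ) :
    Nat.card {x : G // x ^ (p ^ a * q ^ b + 1) = 1} = p ^ a * q ^ b + 1 ∧
    ∃ c : G, (∀ g : G, (g * c⁻¹) ^ (p ^ a * q ^ b + 1) = 1 → g ∈ D) ∧
      ∀ g : G, (g * c⁻¹) ^ (p ^ a * q ^ b + 1) ≠ 1 →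
        ∃! d : G, d ∈ D ∧ (d * g⁻¹) ^ (p ^ a * q ^ b + 1) = 1 := by
  classical
  obtain ⟨A, hA⟩ := exists_subgroup_card_eq (p ^ a * q ^ b + 1) G (by rw [hG]; exact dvd_mul_right _ _)
  obtain ⟨c, hc1, hc2⟩ := quotient_structure D hp hq hb hlt hG hk hD A hA
  have hmemA := mem_of_pow_eq_one D hp hq hb hlt hG hk hD A hA
  set n : ℕ := p ^ a * q ^ b with hn
  have hiff : ∀ x : G, x ^ (n + 1) = 1 ↔ x ∈ A := by
    intro x
    refine ⟨hmemA x, fun hx => ?_⟩
    have h1 : (⟨x, hx⟩ : A) ^ Nat.card A = 1 := pow_card_eq_one'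
    rw [hA] at h1
    exact congrArg Subtype.val h1
  refine ⟨?_, ?_⟩
  · exact (Nat.card_congr (Equiv.subtypeEquivRight hiff)).trans hA
  obtain ⟨g0, rfl⟩ := QuotientGroup.mk'_surjective A c
  rw [coeff_pr_el] at hc1
  have hfib : (univ.filter (fun d : G => QuotientGroup.mk' A d = QuotientGroup.mk' A g0)).card
      = n + 1 := by
    have h1 := MonoidHom.card_fiber_eq_of_mem_range (QuotientGroup.mk' A)
      (⟨g0, rfl⟩ : QuotientGroup.mk' A g0 ∈ Set.range (QuotientGroup.mk' A))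
      (⟨1, rfl⟩ : QuotientGroup.mk' A 1 ∈ Set.range (QuotientGroup.mk' A))
    rw [h1, ← hA, Nat.card_eq_fintype_card, Fintype.card_subtype]
    congr 1
    ext x
    simp
  have hsub : D.filter (fun d => QuotientGroup.mk' A d = QuotientGroup.mk' A g0)
      = univ.filter (fun d : G => QuotientGroup.mk' A d = QuotientGroup.mk' A g0) := by
    apply Finset.eq_of_subset_of_card_le
    · exact Finset.filter_subset_filter _ (subset_univ _)
    · rw [hfib]
      have : ((D.filter (fun d => QuotientGroup.mk' A d = QuotientGroup.mk' A g0)).card : ℤ)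
          = ((n + 1 : ℕ) : ℤ) := by rw [hc1]; push_cast; ring
      exact (Nat.cast_injective this).ge
  have hmk : ∀ x y : G, QuotientGroup.mk' A x = QuotientGroup.mk' A y ↔ x * y⁻¹ ∈ A := by
    intro x y
    have h1 : QuotientGroup.mk' A (x * y⁻¹) = 1 ↔ x * y⁻¹ ∈ A := QuotientGroup.eq_one_iff _
    rw [← h1, map_mul, map_inv, mul_inv_eq_one]
  refine ⟨g0, ?_, ?_⟩
  · intro g hg
    rw [hiff, ← hmk] at hg
    have h1 : g ∈ univ.filter (fun d : G => QuotientGroup.mk' A d = QuotientGroup.mk' A g0) := by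
      exact mem_filter.mpr ⟨mem_univ g, hg⟩
    rw [← hsub] at h1
    exact (mem_filter.mp h1).1
  · intro g hg
    rw [Ne, hiff, ← hmk] at hg
    have h1 := hc2 _ hg
    rw [coeff_pr_el] at h1
    have h2 : (D.filter (fun x => QuotientGroup.mk' A x = QuotientGroup.mk' A g)).card = 1 := by
      exact_mod_cast h1
    rw [Finset.card_eq_one] at h2
    obtain ⟨z, hz⟩ := h2
    have h3 : z ∈ D.filter (fun x => QuotientGroup.mk' A x = QuotientGroup.mk' A g) := by
      rw [hz]; exact mem_singleton_self z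
    rw [mem_filter, hmk, ← hiff] at h3
    refine ⟨z, h3, ?_⟩
    rintro y ⟨hyD, hy⟩
    rw [hiff, ← hmk] at hy
    have h4 : y ∈ D.filter (fun x => QuotientGroup.mk' A x = QuotientGroup.mk' A g) :=
      mem_filter.mpr ⟨hyD, hy⟩
    rw [hz, mem_singleton] at h4
    exact h4

/-- Structure theorem: `n = p^a q^b` with `p ≠ q` primes. -/
theorem two_prime_structure (D : Finset G) {p q a b : ℕ} (hp : p.Prime) (hq : q.Prime)
    (hpq : p ≠ q) (ha : 0 < a) (hb : 0 < b)
    (hG : Nat.card G = (p ^ a * q ^ b + 1) * ((p ^ a * q ^ b) ^ 2 + 1))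
    (hk : D.card = (p ^ a * q ^ b) ^ 2 + p ^ a * q ^ b + 1)
    (hD : el D * iv (el D) = ((((p ^ a * q ^ b : ℕ) : ℤ) ^ 2 : ℤ) : MonoidAlgebra ℤ G)
      + ((((p ^ a * q ^ b : ℕ) : ℤ) + 1 : ℤ) : MonoidAlgebra ℤ G) * el univ) :
    Nat.card {x : G // x ^ (p ^ a * q ^ b + 1) = 1} = p ^ a * q ^ b + 1 ∧
    ∃ c : G, (∀ g : G, (g * c⁻¹) ^ (p ^ a * q ^ b + 1) = 1 → g ∈ D) ∧
      ∀ g : G, (g * c⁻¹) ^ (p ^ a * q ^ b + 1) ≠ 1 →
        ∃! d : G, d ∈ D ∧ (d * g⁻¹) ^ (p ^ a * q ^ b + 1) = 1 := by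
  rcases lt_trichotomy (q ^ b) (p ^ a) with h | h | h
  · exact structure_aux D hp hq hb h hG hk hD
  · exfalso
    have h1 : p ∣ q ^ b := by rw [h]; exact dvd_pow_self p ha.ne'
    exact hpq ((Nat.prime_dvd_prime_iff_eq hp hq).mp (hp.dvd_of_dvd_pow h1))
  · rw [mul_comm (p ^ a)] at hG hk hD ⊢
    exact structure_aux D hq hp ha h hG hk hD

/-- Translation of the Singer parameters (`m = 4`) into group ring data. -/
lemma singer_four [DecidableEq G] {n : ℕ} (hn : 2 ≤ n)
    (hG : Fintype.card G * (n - 1) = n ^ 4 - 1) (D : Finset G)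
    (hk : D.card * (n - 1) = n ^ 3 - 1)
    (hD : ∀ g : G, g ≠ 1 →
      ((D ×ˢ D).filter (fun x : G × G => x.1 * x.2⁻¹ = g)).card * (n - 1) = n ^ 2 - 1) :
    Nat.card G = (n + 1) * (n ^ 2 + 1) ∧ D.card = n ^ 2 + n + 1 ∧
    el D * iv (el D) = (((n : ℤ) ^ 2 : ℤ) : MonoidAlgebra ℤ G)
      + (((n : ℤ) + 1 : ℤ) : MonoidAlgebra ℤ G) * el univ := by
  obtain ⟨m, rfl⟩ : ∃ m, n = m + 2 := ⟨n - 2, by omega⟩
  have e1 : m + 2 - 1 = m + 1 := by omega
  have e4 : (m + 2) ^ 4 - 1 = ((m + 2 + 1) * ((m + 2) ^ 2 + 1)) * (m + 1) := by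
    rw [Nat.sub_eq_iff_eq_add (Nat.one_le_pow _ _ (by omega))]; ring
  have e3 : (m + 2) ^ 3 - 1 = ((m + 2) ^ 2 + (m + 2) + 1) * (m + 1) := by
    rw [Nat.sub_eq_iff_eq_add (Nat.one_le_pow _ _ (by omega))]; ring
  have e2 : (m + 2) ^ 2 - 1 = (m + 2 + 1) * (m + 1) := by
    rw [Nat.sub_eq_iff_eq_add (Nat.one_le_pow _ _ (by omega))]; ring
  rw [e1, e4] at hG
  rw [e1, e3] at hk
  have hG' := Nat.eq_of_mul_eq_mul_right (by omega) hG
  have hk' := Nat.eq_of_mul_eq_mul_right (by omega) hk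
  refine ⟨by rw [Nat.card_eq_fintype_card, hG'], hk', ?_⟩
  have h1 := el_mul_iv D (lam := ((m + 2 : ℕ) : ℤ) + 1) (by
    intro g hg
    have h2 := hD g hg
    rw [e1, e2] at h2
    have h3 := Nat.eq_of_mul_eq_mul_right (by omega) h2
    rw [h3]; push_cast; ring)
  rw [h1, hk']
  push_cast
  ring

end main

end Pool.Agent.Lib.MP_79499b_co
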