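import Pool.Agent.Lib.MP_79499b_co.Q38NT
import Pool.Agent.Lib.MP_79499b_co.Lander29
import Pool.Agent.Lib.MP_79499b_co.Multiplier
import Pool.Agent.Lib.MP_79499b_co.TwoPrime

/-!
# Difference sets and the exceptional integers
-/

namespace Pool.Agent.Lib.MP_79499b_co.Q38

open Finset MonoidAlgebra
open scoped NumberTheorySymbols

lemma Phi_odd {l n : ℕ} (hl : Odd l) : Odd (Phi l n) := by
  unfold Phi
  rcases Nat.even_or_odd n with hn | hn
  · obtain ⟨k, rfl⟩ := hl
    rw [Finset.sum_range_succ', pow_zero]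
    apply Even.add_one
    apply Finset.even_sum
    intro i _
    exact hn.pow_of_ne_zero (Nat.succ_ne_zero i)
  · rw [Finset.odd_sum_iff_odd_card_odd]
    have : (Finset.range l).filter (fun i => Odd (n ^ i)) = Finset.range l := by
      apply Finset.filter_true_of_mem
      intro i _
      exact hn.pow
    rw [this, Finset.card_range]
    exact hl

/-- a nonresidue `p` modulo `w` satisfies `w ∣ p ^ ((w - 1) / 2) + 1` -/
lemma dvd_pow_of_jacobi {p w : ℕ} (hw : w.Prime) (hw2 : w ≠ 2) (h : J((p : ℤ) | w) = -1) :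
    0 < w / 2 ∧ w ∣ p ^ (w / 2) + 1 := by
  have hw3 : 3 ≤ w := by
    have := hw.two_le
    omega
  refine ⟨by omega, ?_⟩
  have : Fact w.Prime := ⟨hw⟩
  rw [← jacobiSym.legendreSym.to_jacobiSym] at h
  have h1 := legendreSym.eq_pow w (p : ℤ)
  rw [h] at h1
  rw [← ZMod.natCast_eq_zero_iff]
  push_cast
  push_cast at h1
  rw [← h1]
  ring

/-- Exclusion for arbitrary finite groups. -/
theorem exc_of_singer {n m l : ℕ} (hn : 2 ≤ n) (hm : 3 ≤ m) (hodd : Odd m) (hlm : l ∣ m)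
    {G : Type} [Group G] [Fintype G] [DecidableEq G] (D : Finset G)
    (hG : Fintype.card G * (n - 1) = n ^ m - 1)
    (hD : D.card * (n - 1) = n ^ (m - 1) - 1)
    (hlam : ∀ g : G, g ≠ 1 →
      ((D ×ˢ D).filter (fun p : G × G => p.1 * p.2⁻¹ = g)).card * (n - 1) = n ^ (m - 2) - 1) :
    Exc l n := by
  intro p hp hpodd w hw hwn hJ
  have hn1 : 0 < n - 1 := by omega
  have hgeom : ∀ t : ℕ, (∑ i ∈ Finset.range t, n ^ i) * (n - 1) = n ^ t - 1 := by
    intro t
    rw [Nat.geomSum_eq hn, Nat.div_mul_cancel]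
    exact Nat.sub_one_dvd_pow_sub_one n t
  have hv : Fintype.card G = Phi m n := by
    apply Nat.eq_of_mul_eq_mul_right hn1
    rw [hG]
    exact (hgeom m).symm
  have hk : D.card = ∑ i ∈ Finset.range (m - 1), n ^ i := by
    apply Nat.eq_of_mul_eq_mul_right hn1
    rw [hD, hgeom]
  set lam := ∑ i ∈ Finset.range (m - 2), n ^ i with hlamdef
  have hlam' : ∀ g : G, g ≠ 1 →
      ((D ×ˢ D).filter (fun p : G × G => p.1 * p.2⁻¹ = g)).card = lam := by
    intro g hg
    apply Nat.eq_of_mul_eq_mul_right hn1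
    rw [hlam g hg, hgeom]
  have hkl : D.card = lam + n ^ (m - 2) := by
    rw [hk, hlamdef, ← Finset.sum_range_succ]
    congr 2
    omega
  have hdvd : Phi l n ∣ Phi m n := by
    apply Nat.dvd_of_mul_dvd_mul_right hn1
    unfold Phi
    rw [hgeom, hgeom]
    obtain ⟨k, rfl⟩ := hlm
    rw [pow_mul]
    exact Nat.sub_one_dvd_pow_sub_one (n ^ l) k
  have hlodd : Odd l := Odd.of_dvd_nat hodd hlm
  have hw2 : w ≠ 2 := by
    rintro rfl
    have := Phi_odd (n := n) hlodd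
    rw [← Nat.not_even_iff_odd] at this
    exact this (even_iff_two_dvd.mpr hwn)
  obtain ⟨hj, hwj⟩ := dvd_pow_of_jacobi hw hw2 hJ
  -- the exponent of `p` in `n ^ (m - 2)`
  have hodd2 : Odd (m - 2) := by
    obtain ⟨c, hc⟩ := hodd
    exact ⟨c - 1, by omega⟩
  have hoddE : Odd ((n ^ (m - 2)).factorization p) := by
    rw [Nat.factorization_pow, Finsupp.smul_apply, smul_eq_mul]
    exact hodd2.mul hpodd
  obtain ⟨c, hc⟩ := hoddE
  have hN0 : n ^ (m - 2) ≠ 0 := by positivity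
  refine Lander29.not_selfconj D lam hlam' ?_ w hw ?_ p hp hj hwj c
    (((n ^ (m - 2)) / p ^ (2 * c + 1) : ℕ) : ℤ) ?_ ?_
  · rw [hv]; exact Phi_odd hodd
  · rw [hv]; exact hwn.trans hdvd
  · intro h
    have h1 : p ∣ (n ^ (m - 2)) / p ^ (2 * c + 1) := by exact_mod_cast h
    rw [← hc] at h1
    exact (Nat.not_dvd_ordCompl hp hN0) h1
  · have h2 : p ^ (2 * c + 1) * ((n ^ (m - 2)) / p ^ (2 * c + 1)) = n ^ (m - 2) := by
      apply Nat.mul_div_cancel'
      rw [← hc]
      exact Nat.ordProj_dvd _ _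
    have h3 : ((p : ℤ) ^ (2 * c + 1)) * (((n ^ (m - 2)) / p ^ (2 * c + 1) : ℕ) : ℤ) =
        ((n ^ (m - 2) : ℕ) : ℤ) := by
      exact_mod_cast congrArg (fun z : ℕ => (z : ℤ)) h2
    rw [h3, hkl]
    push_cast
    ring

section planar

variable {Q : Type*} [CommGroup Q] [Fintype Q]

/-- `X ^ 2 = q ^ (2 c + 1) s (w² - w Q)` is impossible for a prime `q` not dividing `w s`. -/
lemma no_odd_sq {q : ℕ} (hq : q.Prime) (hcop : (Nat.card Q).Coprime q)
    (hcard : 1 < Fintype.card Q) (c : ℕ) (s : ℤ) (hs : ¬ (q : ℤ) ∣ s) (X : MonoidAlgebra ℤ Q)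
    (hX : X * X = (((q : ℤ) ^ (2 * c + 1) * s : ℤ) : MonoidAlgebra ℤ Q) *
      ((((Fintype.card Q : ℤ) ^ 2 : ℤ) : MonoidAlgebra ℤ Q) -
        (((Fintype.card Q : ℤ) : ℤ) : MonoidAlgebra ℤ Q) * el univ)) : False := by
  classical
  have : Fact q.Prime := ⟨hq⟩
  have hqw : ¬ (q : ℤ) ∣ (Fintype.card Q : ℤ) := by
    intro h
    have h1 : q ∣ Nat.card Q := by
      rw [Nat.card_eq_fintype_card]; exact_mod_cast h
    have h2 := Nat.Coprime.eq_one_of_dvd hcop.symm h1
    exact hq.one_lt.ne' h2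
  have hq0 : (q : ℤ) ≠ 0 := by exact_mod_cast hq.ne_zero
  set Z : MonoidAlgebra ℤ Q := (((Fintype.card Q : ℤ) ^ 2 : ℤ) : MonoidAlgebra ℤ Q) -
        (((Fintype.card Q : ℤ) : ℤ) : MonoidAlgebra ℤ Q) * el univ with hZ
  have key : ∀ (t : ℤ) (X : MonoidAlgebra ℤ Q),
      X * X = (((q : ℤ) * t : ℤ) : MonoidAlgebra ℤ Q) * Z →
      ∃ Y : MonoidAlgebra ℤ Q, X = ((q : ℤ) : MonoidAlgebra ℤ Q) * Y ∧
        ((q : ℤ) : MonoidAlgebra ℤ Q) * (Y * Y) = ((t : ℤ) : MonoidAlgebra ℤ Q) * Z := by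
    intro t X hX
    have h1 : rd q X = 0 := by
      apply reduced q hcop (m := 2)
      rw [pow_two, ← map_mul, hX, rd_eq_zero_iff]
      push_cast
      exact ⟨(t : MonoidAlgebra ℤ Q) * Z, by ring⟩
    rw [rd_eq_zero_iff] at h1
    obtain ⟨Y, rfl⟩ := h1
    refine ⟨Y, rfl, ?_⟩
    apply intCast_mul_cancel hq0
    have h2 := hX
    push_cast at h2 ⊢
    linear_combination h2
  induction c generalizing X with
  | zero =>
    obtain ⟨Y, -, hY⟩ := key s X (by rw [hX]; norm_num)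
    obtain ⟨g, hg⟩ := Fintype.exists_ne_of_one_lt_card hcard (1 : Q)
    have h2 := congrArg (fun z => z.coeff g) hY
    rw [← zsmul_eq_mul, ← zsmul_eq_mul, coeff_smul_apply, coeff_smul_apply, hZ, coeff_sub,
      Finsupp.sub_apply, ← zsmul_eq_mul, coeff_smul_apply, coeff_el, MonoidAlgebra.intCast_def,
      coeff_single, Finsupp.single_apply, if_neg hg.symm, if_pos (mem_univ g)] at h2
    simp only [smul_eq_mul] at h2
    have h4 : (q : ℤ) ∣ s * (Fintype.card Q : ℤ) := by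
      refine ⟨-(Y * Y).coeff g, ?_⟩
      linarith
    rcases (Nat.prime_iff_prime_int.mp hq).dvd_or_dvd h4 with h | h
    · exact hs h
    · exact hqw h
  | succ c ih =>
    obtain ⟨Y, -, hY⟩ := key ((q : ℤ) ^ (2 * c + 2) * s) X (by
      rw [hX]; push_cast; ring)
    apply ih Y
    apply intCast_mul_cancel hq0
    rw [hY]
    push_cast
    ring

end planar

/-- Exclusion for planar difference sets in abelian groups of non-square order `n`: no prime
divisor `p` of `n` whatsoever (to an even or odd power) is a nonresidue modulo a prime divisor `w`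
of `n² + n + 1`. -/
theorem planar_excl {n : ℕ} (hn : 2 ≤ n) {G : Type} [CommGroup G] [Fintype G] [DecidableEq G]
    (D : Finset G) (hG : Fintype.card G = n ^ 2 + n + 1) (hDc : D.card = n + 1)
    (hlam : ∀ g : G, g ≠ 1 →
      ((D ×ˢ D).filter (fun p : G × G => p.1 * p.2⁻¹ = g)).card = 1)
    {q : ℕ} (hq : q.Prime) (hqodd : Odd (n.factorization q))
    {p : ℕ} (hp : p.Prime) (hpn : p ∣ n) {w : ℕ} (hw : w.Prime) (hwn : w ∣ n ^ 2 + n + 1)
    {j : ℕ} (hj : w ∣ p ^ j + 1) : False := by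
  classical
  have hcopn : ∀ r : ℕ, r.Prime → r ∣ n → (n ^ 2 + n + 1).Coprime r := by
    intro r hr hrn
    rw [Nat.coprime_comm, hr.coprime_iff_not_dvd]
    intro h
    have h1 : r ∣ n ^ 2 + n := by
      have : n ^ 2 + n = n * (n + 1) := by ring
      rw [this]; exact hrn.mul_right _
    have h2 : r ∣ 1 := (Nat.dvd_add_right h1).mp h
    exact hr.one_lt.ne' (Nat.dvd_one.mp h2)
  have hqn : q ∣ n := by
    apply (hq.dvd_iff_one_le_factorization (by omega)).mpr
    obtain ⟨t, ht⟩ := hqodd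
    omega
  have hcardG : Nat.card G = n ^ 2 + n + 1 := by rw [Nat.card_eq_fintype_card, hG]
  -- the difference set equation
  have hDeq : el D * iv (el D) = ((n : ℤ) : MonoidAlgebra ℤ G) +
      ((1 : ℤ) : MonoidAlgebra ℤ G) * el univ := by
    have h := el_mul_iv D (lam := 1) (by
      intro g hg
      exact_mod_cast hlam g hg)
    rw [h, hDc]
    push_cast
    ring
  obtain ⟨h, hh⟩ := multiplier D (N := (n : ℤ)) (lam := 1) hDeq (by exact_mod_cast (by omega : 0 < n))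
    hp (by rw [hcardG]; exact hcopn p hp hpn) (e := 1)
    (by rw [pow_one]; exact_mod_cast hpn) (by rw [pow_one]; exact_mod_cast hp.one_lt) j
  -- the quotient of order `w`
  obtain ⟨r, hr⟩ := hwn
  obtain ⟨A, hA⟩ := exists_subgroup_card_eq r G (by rw [hcardG, hr]; exact dvd_mul_left _ _)
  have hAi : Nat.card (G ⧸ A) = w := by
    have h4 := Subgroup.card_mul_index A
    rw [hA, hcardG, hr, mul_comm w] at h4
    have hrpos : 0 < r := by rw [← hA]; exact Nat.card_pos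
    exact Nat.eq_of_mul_eq_mul_left hrpos h4
  have : Fintype (G ⧸ A) := Fintype.ofFinite _
  have hAi' : Fintype.card (G ⧸ A) = w := by rw [← Nat.card_eq_fintype_card, hAi]
  set π : G →* G ⧸ A := QuotientGroup.mk' A with hπ
  have hπs : Function.Surjective π := QuotientGroup.mk'_surjective A
  set Φ : MonoidAlgebra ℤ G →+* MonoidAlgebra ℤ (G ⧸ A) := mapDomainRingHom ℤ π with hΦ
  have hΦs : ∀ (g : G) (c : ℤ), Φ (single g c) = single (π g) c := by
    intro g c
    rw [hΦ]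
    simp
  have hΦpw : ∀ t : ℕ, ∀ X, Φ (pw t X) = pw t (Φ X) := by
    intro t X
    have : Φ.comp (pw t) = (pw t).comp Φ := ringHom_ext' fun g => by
      rw [RingHom.comp_apply, RingHom.comp_apply, pw_single, hΦs, hΦs, pw_single, map_pow]
    exact congrArg (fun f => f X) this
  have hΦiv : ∀ X, Φ (iv X) = iv (Φ X) := by
    intro X
    have : Φ.comp iv = iv.comp Φ := ringHom_ext' fun g => by
      rw [RingHom.comp_apply, RingHom.comp_apply, iv_single, hΦs, hΦs, iv_single, map_inv]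
    exact congrArg (fun f => f X) this
  -- the image of the sum of all elements
  obtain ⟨K, hK, hsum⟩ := SelfConj37.sum_single_hom π hπs
  have hΦu : Φ (el univ) = ((K : ℤ) : MonoidAlgebra ℤ (G ⧸ A)) * el univ := by
    rw [el, map_sum]
    simp_rw [hΦs]
    rw [hsum, zsmul_eq_mul]
    rfl
  have haug : ∀ X, aug (Φ X) = aug X := by
    intro X
    have : aug.comp Φ = (aug : MonoidAlgebra ℤ G →+* ℤ) := ringHom_ext' fun g => by
      rw [RingHom.comp_apply, hΦs, aug_single, aug_single]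
    exact congrArg (fun f => f X) this
  have hpow : ∀ g : G ⧸ A, g ^ w = 1 := fun g => by rw [← hAi]; exact pow_card_eq_one'
  have hpwiv : ∀ X : MonoidAlgebra ℤ (G ⧸ A), pw (p ^ j) X = iv X := by
    apply pw_eq_iv
    intro g
    obtain ⟨c, hc⟩ := hj
    apply eq_inv_of_mul_eq_one_left
    rw [← pow_succ, hc, pow_mul, hpow, one_pow]
  set D' : MonoidAlgebra ℤ (G ⧸ A) := Φ (el D) with hD'
  have hh' : iv D' = single (π h) 1 * D' := by
    rw [← hpwiv, hD', ← hΦpw, hh, map_mul, hΦs]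
  -- the real translate
  have hwodd : Odd w := by
    have h1 : Odd (n ^ 2 + n + 1) := by
      have : n ^ 2 + n + 1 = n * (n + 1) + 1 := by ring
      rw [this]
      exact (Nat.even_mul_succ_self n).add_one
    exact Odd.of_dvd_nat h1 ⟨r, hr⟩
  obtain ⟨a, ha⟩ := hwodd
  set z : G ⧸ A := π h with hz
  set E : MonoidAlgebra ℤ (G ⧸ A) := single (z ^ (a + 1)) 1 * D' with hE
  have hzz : (z ^ (a + 1))⁻¹ * z = z ^ (a + 1) := by
    rw [inv_mul_eq_iff_eq_mul, ← pow_add]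
    have : a + 1 + (a + 1) = w + 1 := by omega
    rw [this, pow_succ, hpow, one_mul]
  have hivE : iv E = E := by
    rw [hE, map_mul, iv_single, hh', ← mul_assoc, single_mul_single, mul_one, hzz]
  have hEE : E * E = ((n : ℤ) : MonoidAlgebra ℤ (G ⧸ A)) +
      ((K : ℤ) : MonoidAlgebra ℤ (G ⧸ A)) * el univ := by
    have h1 : E * iv E = D' * iv D' := by
      rw [hE, map_mul, iv_single]
      have h2 : (single (z ^ (a + 1)) 1 : MonoidAlgebra ℤ (G ⧸ A)) * D' *
          (single (z ^ (a + 1))⁻¹ 1 * iv D') =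
          (single (z ^ (a + 1)) 1 * single (z ^ (a + 1))⁻¹ 1) * (D' * iv D') := by ring
      rw [h2, single_mul_single, mul_inv_cancel, mul_one, ← MonoidAlgebra.one_def, one_mul]
    rw [hivE] at h1
    rw [h1, hD', ← hΦiv, ← map_mul, hDeq, map_add, map_mul, hΦu, map_intCast, map_intCast]
    push_cast
    ring
  have haugE : aug E = (n : ℤ) + 1 := by
    rw [hE, map_mul, aug_single, one_mul, hD', haug, aug_el, hDc]
    push_cast
    ring
  have hEu : E * el univ = (((n : ℤ) + 1 : ℤ) : MonoidAlgebra ℤ (G ⧸ A)) * el univ := by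
    rw [mul_el_univ, haugE]
  have huu : (el univ : MonoidAlgebra ℤ (G ⧸ A)) * el univ =
      ((w : ℤ) : MonoidAlgebra ℤ (G ⧸ A)) * el univ := by
    rw [mul_el_univ, aug_el, card_univ, hAi']
  -- the element `X = w E - (n + 1) u`
  set X : MonoidAlgebra ℤ (G ⧸ A) := ((w : ℤ) : MonoidAlgebra ℤ (G ⧸ A)) * E -
    (((n : ℤ) + 1 : ℤ) : MonoidAlgebra ℤ (G ⧸ A)) * el univ with hX
  have hKw : (K : ℤ) * w = (n : ℤ) ^ 2 + n + 1 := by
    have h1 : K * w = n ^ 2 + n + 1 := by rw [← hG, ← hK, hAi']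
    exact_mod_cast h1
  have hKw' : ((K : ℤ) : MonoidAlgebra ℤ (G ⧸ A)) * ((w : ℤ) : MonoidAlgebra ℤ (G ⧸ A)) =
      ((n : ℤ) : MonoidAlgebra ℤ (G ⧸ A)) ^ 2 + ((n : ℤ) : MonoidAlgebra ℤ (G ⧸ A)) + 1 := by
    have := congrArg (fun t : ℤ => (t : MonoidAlgebra ℤ (G ⧸ A))) hKw
    push_cast at this ⊢
    exact this
  have hXX : X * X = ((n : ℤ) : MonoidAlgebra ℤ (G ⧸ A)) *
      ((((w : ℤ) ^ 2 : ℤ) : MonoidAlgebra ℤ (G ⧸ A)) -
        ((w : ℤ) : MonoidAlgebra ℤ (G ⧸ A)) * el univ) := by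
    rw [hX]
    push_cast at hEE hEu huu hKw' ⊢
    linear_combination (w : MonoidAlgebra ℤ (G ⧸ A)) ^ 2 * hEE
      - 2 * (w : MonoidAlgebra ℤ (G ⧸ A)) * ((n : MonoidAlgebra ℤ (G ⧸ A)) + 1) * hEu
      + ((n : MonoidAlgebra ℤ (G ⧸ A)) + 1) ^ 2 * huu
      + (w : MonoidAlgebra ℤ (G ⧸ A)) * el univ * hKw'
  -- conclude
  obtain ⟨c, hc⟩ := hqodd
  have hn0 : n ≠ 0 := by omega
  have hsplit : q ^ (2 * c + 1) * (n / q ^ (2 * c + 1)) = n := by
    apply Nat.mul_div_cancel'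
    rw [← hc]
    exact Nat.ordProj_dvd _ _
  refine no_odd_sq hq (by rw [hAi]; exact (hcopn q hq hqn).coprime_dvd_left ⟨r, hr⟩)
    (by rw [hAi']; exact hw.one_lt) c ((n / q ^ (2 * c + 1) : ℕ) : ℤ) ?_ X ?_
  · intro h
    have h1 : q ∣ n / q ^ (2 * c + 1) := by exact_mod_cast h
    rw [← hc] at h1
    exact (Nat.not_dvd_ordCompl hq hn0) h1
  · have h3 : ((q : ℤ) ^ (2 * c + 1)) * ((n / q ^ (2 * c + 1) : ℕ) : ℤ) = (n : ℤ) := by
      exact_mod_cast congrArg (fun z : ℕ => (z : ℤ)) hsplit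
    rw [h3, hAi']
    exact hXX

end Pool.Agent.Lib.MP_79499b_co.Q38
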