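import Pool.Agent.Lib.MP_79499b_co.Q38Final

/-!
# The second counting theorem: `n ≡ 1, 2 (mod 4)`
-/

namespace Pool.Agent.Lib.MP_79499b_co.Q38

open Finset Filter Topology
open scoped Classical NumberTheorySymbols

lemma exists_prime_neg (a : ℤ) : ∀ b : ℕ, J(a | b) = -1 → ∃ w, w.Prime ∧ w ∣ b ∧ J(a | w) = -1 := by
  intro b
  induction b using induction_on_primes with
  | zero => intro h; rw [jacobiSym.zero_right] at h; norm_num at h
  | one => intro h; rw [jacobiSym.one_right] at h; norm_num at h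
  | prime_mul p c hp ih =>
    intro h
    rcases Nat.eq_zero_or_pos c with rfl | hc
    · rw [mul_zero, jacobiSym.zero_right] at h; norm_num at h
    rw [jacobiSym.mul_right' a hp.ne_zero hc.ne'] at h
    rcases jacobiSym.trichotomy a p with h1 | h1 | h1
    · rw [h1, zero_mul] at h; norm_num at h
    · rw [h1, one_mul] at h
      obtain ⟨w, hw, hwc, hJ⟩ := ih h
      exact ⟨w, hw, hwc.mul_left p, hJ⟩
    · exact ⟨p, hp, dvd_mul_right p c, h1⟩

lemma Phi_mod_four {l n : ℕ} (hl3 : 3 ≤ l) (hl4 : l % 4 = 3) (hn : n % 4 = 1 ∨ n % 4 = 2) :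
    Phi l n % 4 = 3 := by
  have h1 : Phi l n % 4 = Phi l (n % 4) % 4 := Phi_modEq (Nat.mod_modEq n 4).symm
  rw [h1]
  rcases hn with h | h
  · rw [h]
    unfold Phi
    simp [hl4]
  · rw [h]
    obtain ⟨m, rfl⟩ : ∃ m, l = m + 2 := ⟨l - 2, by omega⟩
    unfold Phi
    rw [Finset.sum_range_succ', Finset.sum_range_succ']
    have h2 : 4 ∣ ∑ i ∈ range m, 2 ^ (i + 1 + 1) :=
      Finset.dvd_sum fun i _ => ⟨2 ^ i, by ring⟩
    obtain ⟨q, hq⟩ := h2
    rw [hq]
    norm_num
    omega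

/-- a Bruck–Ryser–Chowla type consequence -/
lemma brc {l n p : ℕ} (hl3 : 3 ≤ l) (hl4 : l % 4 = 3) (hn0 : n ≠ 0) (hn : n % 4 = 1 ∨ n % 4 = 2)
    (hexc : Exc l n) (hp : p.Prime) (hodd : Odd (n.factorization p)) : p % 4 ≠ 3 := by
  intro hp4
  have h1 := Phi_mod_four hl3 hl4 hn
  have hpn : p ∣ n := by
    by_contra h
    rw [Nat.factorization_eq_zero_of_not_dvd h] at hodd
    exact absurd hodd (by decide)
  have h2 : J((Phi l n : ℤ) | p) = 1 := by
    have h3 : Phi l n ≡ 1 [MOD p] := by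
      have h4 : Phi l n ≡ Phi l 0 [MOD p] := Phi_modEq ((Nat.modEq_zero_iff_dvd).mpr hpn)
      have h5 : Phi l 0 = 1 := by
        obtain ⟨m, rfl⟩ : ∃ m, l = m + 1 := ⟨l - 1, by omega⟩
        unfold Phi
        rw [Finset.sum_range_succ']
        simp
      rwa [h5] at h4
    have h4 : J((Phi l n : ℤ) | p) = J((1 : ℤ) | p) := by
      apply jacobiSym.mod_left'
      exact_mod_cast h3
    rw [h4, jacobiSym.one_left]
  have h3 := jacobiSym.quadratic_reciprocity_three_mod_four hp4 h1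
  rw [h2] at h3
  obtain ⟨w, hw, hwn, hJ⟩ := exists_prime_neg _ _ h3
  exact hexc p hp hodd w hw hwn hJ

/-- the extra condition -/
def HH (l n : ℕ) : Prop :=
  (∃ p : ℕ, p.Prime ∧ p ^ 2 ∣ n ∧ ∀ w : ℕ, w.Prime → w ∣ Phi l n → J((p : ℤ) | w) ≠ -1) ∨
  (∃ p q : ℕ, p.Prime ∧ q.Prime ∧ p ≠ q ∧ Exact p n ∧ Exact q n)

lemma card_mult_le (a x : ℕ) :
    (((range x).filter (fun n => 1 ≤ n ∧ a ∣ n)).card : ℝ) ≤ x / a := by
  have h1 : (range x).filter (fun n => 1 ≤ n ∧ a ∣ n) ⊆ (Ioc 0 x).filter (fun n => a ∣ n) := by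
    intro n hn
    rw [Finset.mem_filter, Finset.mem_range] at hn
    rw [Finset.mem_filter, Finset.mem_Ioc]
    exact ⟨⟨by omega, hn.1.le⟩, hn.2.2⟩
  calc (((range x).filter (fun n => 1 ≤ n ∧ a ∣ n)).card : ℝ) ≤
      (((Ioc 0 x).filter (fun n => a ∣ n)).card : ℝ) := by exact_mod_cast Finset.card_le_card h1
    _ ≤ x / a := by
        rw [Nat.Ioc_filter_dvd_card_eq_div]
        exact Nat.cast_div_le

/-- Counting theorem 2 -/
theorem nt2 {l : ℕ} (hl : l.Prime) (hl3 : 3 ≤ l) (hl4 : l % 4 = 3) {ε : ℝ} (hε : 0 < ε) :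
    ∃ x₀ : ℕ, ∀ x : ℕ, x₀ ≤ x →
      (((range x).filter (fun n => 1 ≤ n ∧ (n % 4 = 1 ∨ n % 4 = 2) ∧ Exc l n ∧ HH l n)).card : ℝ) ≤
        x * Real.exp (-((3 / 2 - ε) * LL x)) := by
  obtain ⟨k0, hk0⟩ : ∃ k : ℕ, (1 / 2 : ℝ) ^ k < ε / 8 := exists_pow_lt_of_lt_one (by positivity) (by norm_num)
  set k := k0 + 1 with hkdef
  have hk1 : 1 ≤ k := by omega
  have hk' : (1 : ℝ) / 2 ^ k < ε / 8 := by
    rw [one_div_pow] at hk0
    have h1 : (1 : ℝ) / 2 ^ k ≤ 1 / 2 ^ k0 :=
      one_div_le_one_div_of_le (by positivity) (pow_le_pow_right₀ (by norm_num) (by omega))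
    linarith
  set δ : ℝ := ε / 8 with hδ
  have hδ0 : 0 < δ := by positivity
  have hl0 : (0 : ℝ) < l := by exact_mod_cast hl.pos
  obtain ⟨x1, hx1⟩ := good_T hl hl3 (show 0 < δ / (8 * l) by positivity)
  obtain ⟨x2, hx2⟩ := master hl hl3 k (fun u => u % 4 = 3) (by norm_num) (by norm_num) esum_three hδ0
  obtain ⟨x3, hx3⟩ := master hl hl3 k (fun _ => True) zero_le_one le_rfl esum_true hδ0
  obtain ⟨C, hC0, hC⟩ := msum_one_le
  have ev2 : ∀ᶠ x : ℕ in atTop, Real.log (1 * Real.log x + 0) + Real.log 2 ≤ (1 / 8) * Real.log x :=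
    tendsto_log_nat.eventually (eventually_log_le 1 0 _ (1 / 8) one_pos (by norm_num))
  obtain ⟨x4, hx4⟩ := eventually_atTop.mp ((YY_facts l k one_pos).and
    ((eventually_pow_le 11 k (show 0 < ε / 2 by positivity)).and
      ((tendsto_LL.eventually_ge_atTop (C + 1)).and (ev2.and (eventually_ge_atTop 3)))))
  refine ⟨max (max x1 x2) (max x3 x4), fun x hx => ?_⟩
  have hxx1 : x1 ≤ x := le_trans (le_trans (le_max_left _ _) (le_max_left _ _)) hx
  have hxx2 : x2 ≤ x := le_trans (le_trans (le_max_right _ _) (le_max_left _ _)) hx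
  have hxx3 : x3 ≤ x := le_trans (le_trans (le_max_left _ _) (le_max_right _ _)) hx
  have hxx4 : x4 ≤ x := le_trans (le_trans (le_max_right _ _) (le_max_right _ _)) hx
  obtain ⟨⟨hY3, _, hYup, hYx, hYk, _⟩, hpow, hLC, hlog8, hx3'⟩ := hx4 x hxx4
  set Y := YY l x with hY
  set L := LL x with hL
  have hYx' : Y ≤ x := by exact_mod_cast hYx
  obtain ⟨B, hB0, hBsum, hBgood⟩ := hx1 x hxx1 Y hY3 hYx'
  have ht1 : 1 < Real.log x := one_lt_log hx3'
  have hL1 : 1 ≤ L := by linarith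
  have hxN : 0 < x := by omega
  have hx0 : (0 : ℝ) < x := by exact_mod_cast hxN
  have hxexp : (x : ℝ) = Real.exp (Real.log x) := (Real.exp_log hx0).symm
  set c : ℝ := (δ / (8 * l)) * L with hc
  set P := (range Y).filter Nat.Prime with hP
  set S1 := (P.powersetCard k).filter (fun S => ∀ V ⊆ S, V.Nonempty → T l Y (∏ p ∈ V, p) ≤ c) with hS1
  set S2 := P.powerset.filter (fun S => (1 ≤ S.card ∧ S.card ≤ k) ∧
    ∀ V ⊆ S, V.Nonempty → T l Y (∏ p ∈ V, p) ≤ c) with hS2
  -- primes for case III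
  set Q3 := (range x).filter (fun p => p.Prime ∧ ((p ^ 2 : ℕ) : ℝ) ≤ Real.exp (3 / 4 * Real.log x) ∧
    T l Y p ≤ c) with hQ3
  set Q4 := (range x).filter (fun p => p.Prime ∧ ¬ ((p ^ 2 : ℕ) : ℝ) ≤ Real.exp (3 / 4 * Real.log x))
    with hQ4
  set Q5 := (range x).filter (fun p => p.Prime ∧ p ^ 2 < x ∧ T l Y p ≤ c) with hQ5
  have hS1mem : ∀ S ∈ S1, (∀ p ∈ S, p.Prime ∧ p < Y) ∧ S.card = k ∧
      ∀ V ⊆ S, V.Nonempty → T l Y (∏ p ∈ V, p) ≤ c := by
    intro S hS
    rw [hS1, Finset.mem_filter, Finset.mem_powersetCard] at hS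
    refine ⟨fun p hp => ?_, hS.1.2, hS.2⟩
    have := hS.1.1 hp
    rw [hP, Finset.mem_filter, Finset.mem_range] at this
    exact ⟨this.2, this.1⟩
  have hS2mem : ∀ S ∈ S2, (∀ p ∈ S, p.Prime ∧ p < Y) ∧ (1 ≤ S.card ∧ S.card ≤ k) ∧
      ∀ V ⊆ S, V.Nonempty → T l Y (∏ p ∈ V, p) ≤ c := by
    intro S hS
    rw [hS2, Finset.mem_filter, Finset.mem_powerset] at hS
    refine ⟨fun p hp => ?_, hS.2.1, hS.2.2⟩
    have := hS.1 hp
    rw [hP, Finset.mem_filter, Finset.mem_range] at this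
    exact ⟨this.2, this.1⟩
  set A0 := (range x).filter (fun n => 1 ≤ n ∧ ∃ b ∈ B, b ∣ n) with hA0
  set A1 := S1.biUnion (fun S => AA l (fun u => u % 4 = 3) x (∏ p ∈ S, p) S S) with hA1
  set A2 := S2.biUnion (fun S => AA l (fun _ => True) x (∏ p ∈ S, p) S S) with hA2
  set A3 := Q3.biUnion (fun p => AA l (fun _ => True) x (p ^ 2) {p} {p}) with hA3
  set A4 := Q4.biUnion (fun p => (range x).filter (fun n => 1 ≤ n ∧ p ^ 2 ∣ n)) with hA4
  set A5 := Q5.biUnion (fun p => AA l (fun _ => True) x p {p} {p}) with hA5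
  -- the cover
  have hcover : (range x).filter (fun n => 1 ≤ n ∧ (n % 4 = 1 ∨ n % 4 = 2) ∧ Exc l n ∧ HH l n) ⊆
      A0 ∪ (A1 ∪ (A2 ∪ (A3 ∪ (A4 ∪ A5)))) := by
    intro n hn
    rw [Finset.mem_filter, Finset.mem_range] at hn
    obtain ⟨hnx, hn1, hn4, hexc, hH⟩ := hn
    have hn0 : n ≠ 0 := by omega
    rw [Finset.mem_union]
    by_cases hdisc : ∃ b ∈ B, b ∣ n
    · left
      rw [hA0, Finset.mem_filter, Finset.mem_range]
      exact ⟨hnx, hn1, hdisc⟩
    right
    set D := (range Y).filter (fun p => p.Prime ∧ Exact p n) with hD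
    have hDmem : ∀ p ∈ D, p < Y ∧ p.Prime ∧ Exact p n := by
      intro p hp
      rw [hD, Finset.mem_filter, Finset.mem_range] at hp
      exact hp
    have hTV : ∀ V : Finset ℕ, V.Nonempty → (∀ p ∈ V, p.Prime ∧ p ∣ n) → T l Y (∏ p ∈ V, p) ≤ c :=
      fun V hne hV => T_of_dvd hn1 hnx hBgood hdisc hl hne hV (Or.inr hl4)
    have hTp : ∀ p : ℕ, p.Prime → p ∣ n → T l Y p ≤ c := by
      intro p hp hpn
      have := hTV {p} (Finset.singleton_nonempty p) (fun q hq => by
        rw [Finset.mem_singleton] at hq; subst hq; exact ⟨hp, hpn⟩)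
      simpa using this
    have hexc' : ∀ p : ℕ, p.Prime → Exact p n → ∀ w, w.Prime → w ∣ Phi l n → J((p : ℤ) | w) ≠ -1 := by
      intro p hp hex w hw hwn
      exact hexc p hp (by rw [exact_factorization hp hn0 hex]; exact odd_one) w hw hwn
    rw [Finset.mem_union, Finset.mem_union, Finset.mem_union, Finset.mem_union]
    by_cases hcard : k ≤ D.card
    · left
      obtain ⟨S, hSD, hSk⟩ := Finset.exists_subset_card_eq hcard
      rw [hA1, Finset.mem_biUnion]
      refine ⟨S, ?_, ?_⟩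
      · rw [hS1, Finset.mem_filter, Finset.mem_powersetCard]
        refine ⟨⟨fun p hp => ?_, hSk⟩, fun V hV hne => hTV V hne (fun p hp => ?_)⟩
        · have := hDmem p (hSD hp)
          rw [hP, Finset.mem_filter, Finset.mem_range]
          exact ⟨this.1, this.2.1⟩
        · have := hDmem p (hSD (hV hp))
          exact ⟨this.2.1, this.2.2.1⟩
      · apply mem_AA_of hnx
        · apply Finset.prod_primes_dvd
          · intro p hp; exact (hDmem p (hSD hp)).2.1.prime
          · intro p hp; exact (hDmem p (hSD hp)).2.2.1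
        · intro u hu _ _ hu4 hex
          exact brc hl3 hl4 hn0 hn4 hexc hu (by rw [exact_factorization hu hn0 hex]; exact odd_one) hu4
        · intro p hp w hw hwn
          have := hDmem p (hSD hp)
          exact hexc' p this.2.1 this.2.2 w hw hwn
    right
    push Not at hcard
    by_cases hD1 : 1 ≤ D.card
    · left
      rw [hA2, Finset.mem_biUnion]
      refine ⟨D, ?_, ?_⟩
      · rw [hS2, Finset.mem_filter, Finset.mem_powerset]
        refine ⟨fun p hp => ?_, ⟨hD1, hcard.le⟩, fun V hV hne => hTV V hne (fun p hp => ?_)⟩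
        · have := hDmem p hp
          rw [hP, Finset.mem_filter, Finset.mem_range]
          exact ⟨this.1, this.2.1⟩
        · have := hDmem p (hV hp)
          exact ⟨this.2.1, this.2.2.1⟩
      · apply mem_AA_of hnx
        · apply Finset.prod_primes_dvd
          · intro p hp; exact (hDmem p hp).2.1.prime
          · intro p hp; exact (hDmem p hp).2.2.1
        · intro u hu huY huD _ hex
          apply huD
          rw [hD, Finset.mem_filter, Finset.mem_range]
          exact ⟨huY, hu, hex⟩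
        · intro p hp w hw hwn
          have := hDmem p hp
          exact hexc' p this.2.1 this.2.2 w hw hwn
    right
    have hDempty : D = ∅ := Finset.card_eq_zero.mp (by omega)
    have hnoexact : ∀ u, u.Prime → u < Y → ¬ Exact u n := by
      intro u hu huY hex
      have : u ∈ D := by
        rw [hD, Finset.mem_filter, Finset.mem_range]
        exact ⟨huY, hu, hex⟩
      rw [hDempty] at this
      exact Finset.notMem_empty u this
    rcases hH with ⟨p, hp, hp2, hpw⟩ | ⟨p, q, hp, hq, hpq, hpe, hqe⟩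
    · have hpn : p ∣ n := (dvd_pow_self p two_ne_zero).trans hp2
      have hpx : p < x := lt_of_le_of_lt (Nat.le_of_dvd (by omega) hpn) hnx
      by_cases hsize : ((p ^ 2 : ℕ) : ℝ) ≤ Real.exp (3 / 4 * Real.log x)
      · left
        rw [hA3, Finset.mem_biUnion]
        refine ⟨p, ?_, ?_⟩
        · rw [hQ3, Finset.mem_filter, Finset.mem_range]
          exact ⟨hpx, hp, hsize, hTp p hp hpn⟩
        · apply mem_AA_of hnx hp2
          · intro u hu huY _ _ hex
            exact hnoexact u hu huY hex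
          · intro r hr w hw hwn
            rw [Finset.mem_singleton] at hr
            subst hr
            exact hpw w hw hwn
      · right
        left
        rw [hA4, Finset.mem_biUnion]
        refine ⟨p, ?_, ?_⟩
        · rw [hQ4, Finset.mem_filter, Finset.mem_range]
          exact ⟨hpx, hp, hsize⟩
        · rw [Finset.mem_filter, Finset.mem_range]
          exact ⟨hnx, hn1, hp2⟩
    · right
      right
      -- the smaller one
      have key : ∀ p q : ℕ, p.Prime → q.Prime → p < q → Exact p n → Exact q n → n ∈ A5 := by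
        intro p q hp hq hpq hpe hqe
        have hdvd : p * q ∣ n := Nat.Coprime.mul_dvd_of_dvd_of_dvd
          ((Nat.coprime_primes hp hq).mpr hpq.ne) hpe.1 hqe.1
        have h1 : p * q ≤ n := Nat.le_of_dvd (by omega) hdvd
        have h2 : p ^ 2 < x := by
          rw [pow_two]
          calc p * p ≤ p * q := Nat.mul_le_mul_left p hpq.le
            _ ≤ n := h1
            _ < x := hnx
        have hpx : p < x := lt_of_le_of_lt (Nat.le_of_dvd (by omega) hpe.1) hnx
        rw [hA5, Finset.mem_biUnion]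
        refine ⟨p, ?_, ?_⟩
        · rw [hQ5, Finset.mem_filter, Finset.mem_range]
          exact ⟨hpx, hp, h2, hTp p hp hpe.1⟩
        · apply mem_AA_of hnx hpe.1
          · intro u hu huY _ _ hex
            exact hnoexact u hu huY hex
          · intro r hr w hw hwn
            rw [Finset.mem_singleton] at hr
            subst hr
            exact hexc' r hp hpe w hw hwn
      rcases lt_or_gt_of_ne hpq with h | h
      · exact key p q hp hq h hpe hqe
      · exact key q p hq hp h hqe hpe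
  -- bounds
  have b0 := card_disc_le B x
  have hlt : (1 : ℝ) / (Real.log x) ^ 2 = Real.exp (-(2 * L)) := one_div_log_sq hx3'
  have hD1 : (1 : ℝ) ≤ 2 * L := by linarith
  have hD2 : msum 1 0 Y ≤ 2 * L := by
    have := hC Y hY3
    linarith
  have hD3 : msum 1 0 x ≤ 2 * L := by
    have := hC x hx3'
    have h5 : Real.log (Real.log x) = L := rfl
    linarith
  have hprodle : ∀ S : Finset ℕ, (∀ p ∈ S, p.Prime ∧ p < Y) → S.card ≤ k →
      ((∏ p ∈ S, p : ℕ) : ℝ) ≤ Real.exp (3 / 4 * Real.log x) := by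
    intro S hS hSk
    refine (prod_le_exp (fun p hp => (hS p hp).2) hSk (by omega) hYk).trans ?_
    apply Real.exp_le_exp.mpr
    linarith
  have hprodpos : ∀ S : Finset ℕ, (∀ p ∈ S, p.Prime ∧ p < Y) → 0 < ∏ p ∈ S, p :=
    fun S hS => Finset.prod_pos fun p hp => (hS p hp).1.pos
  set W0 : ℝ := Real.exp (-((3 / 2 - ε / 2) * L)) with hW0
  have hW0pos : 0 < W0 := Real.exp_pos _
  have hA : (1 : ℝ) ≤ (2 * L) ^ k := one_le_pow₀ hD1
  have hA' : 2 * L ≤ (2 * L) ^ k := le_self_pow₀ hD1 (by omega)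
  have hpk : (0 : ℝ) ≤ 1 / 2 ^ k := by positivity
  have hexple : ∀ e : ℝ, 3 / 2 - ε / 2 ≤ e → Real.exp (-(e * L)) ≤ W0 := by
    intro e he
    apply Real.exp_le_exp.mpr
    apply neg_le_neg
    exact mul_le_mul_of_nonneg_right he (by linarith)
  have b1 : ((A1.card : ℕ) : ℝ) ≤ ∑ S ∈ S1, (x / ((∏ p ∈ S, p : ℕ) : ℝ)) * W0 := by
    apply card_biUnion_real
    intro S hS
    obtain ⟨h1, h2, h3⟩ := hS1mem S hS
    have := hx2 x hxx2 S S (Finset.Subset.refl _) h2.le (fun p hp => (h1 p hp).1) h3 _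
      (hprodpos S h1) (not_dvd_prod_of_notMem fun p hp => (h1 p hp).1) (hprodle S h1 h2.le)
    rw [h2] at this
    refine this.trans (mul_le_mul_of_nonneg_left (hexple _ ?_) (by positivity))
    linarith
  have hhalf : ∀ m : ℕ, 1 ≤ m → (1 : ℝ) / 2 ^ m ≤ 1 / 2 := by
    intro m hm
    apply one_div_le_one_div_of_le (by norm_num)
    calc (2 : ℝ) = 2 ^ 1 := by norm_num
      _ ≤ 2 ^ m := pow_le_pow_right₀ (by norm_num) hm
  have b2 : ((A2.card : ℕ) : ℝ) ≤ ∑ S ∈ S2, (x / ((∏ p ∈ S, p : ℕ) : ℝ)) * W0 := by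
    apply card_biUnion_real
    intro S hS
    obtain ⟨h1, h2, h3⟩ := hS2mem S hS
    have := hx3 x hxx3 S S (Finset.Subset.refl _) h2.2 (fun p hp => (h1 p hp).1) h3 _
      (hprodpos S h1) (not_dvd_prod_of_notMem fun p hp => (h1 p hp).1) (hprodle S h1 h2.2)
    refine this.trans (mul_le_mul_of_nonneg_left (hexple _ ?_) (by positivity))
    have := hhalf S.card h2.1
    linarith
  have hsing : ∀ p : ℕ, p.Prime → ∀ u : ℕ, u.Prime → u ∉ ({p} : Finset ℕ) → ¬ u ∣ p := by
    intro p hp u hu hup h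
    rw [Finset.mem_singleton] at hup
    exact hup ((Nat.prime_dvd_prime_iff_eq hu hp).mp h)
  have hTsing : ∀ p : ℕ, T l Y p ≤ c → ∀ V ⊆ ({p} : Finset ℕ), V.Nonempty → T l Y (∏ q ∈ V, q) ≤ c := by
    intro p hp V hV hne
    rcases Finset.subset_singleton_iff.mp hV with h | h
    · exact absurd h hne.ne_empty
    · rw [h, Finset.prod_singleton]; exact hp
  have b3 : ((A3.card : ℕ) : ℝ) ≤ ∑ p ∈ Q3, (x / ((p ^ 2 : ℕ) : ℝ)) * W0 := by
    apply card_biUnion_real
    intro p hp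
    rw [hQ3, Finset.mem_filter, Finset.mem_range] at hp
    obtain ⟨_, hpp, hps, hpT⟩ := hp
    have := hx3 x hxx3 {p} {p} (Finset.Subset.refl _) (by rw [Finset.card_singleton]; exact hk1)
      (fun q hq => by rw [Finset.mem_singleton] at hq; subst hq; exact hpp) (hTsing p hpT) (p ^ 2)
      (by have := hpp.pos; positivity)
      (fun u hu hup h => hsing p hpp u hu hup (hu.dvd_of_dvd_pow h)) hps
    refine this.trans (mul_le_mul_of_nonneg_left (hexple _ ?_) (by positivity))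
    rw [Finset.card_singleton]
    linarith
  have b5 : ((A5.card : ℕ) : ℝ) ≤ ∑ p ∈ Q5, (x / (p : ℝ)) * W0 := by
    apply card_biUnion_real
    intro p hp
    rw [hQ5, Finset.mem_filter, Finset.mem_range] at hp
    obtain ⟨_, hpp, hps, hpT⟩ := hp
    have hpexp : (p : ℝ) ≤ Real.exp (3 / 4 * Real.log x) := by
      have hp0 : (0 : ℝ) < p := by exact_mod_cast hpp.pos
      rw [← Real.log_le_log_iff hp0 (Real.exp_pos _), Real.log_exp]
      have h1 : Real.log ((p : ℝ) ^ 2) ≤ Real.log x := by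
        apply Real.log_le_log (by positivity)
        exact_mod_cast hps.le
      rw [Real.log_pow] at h1
      push_cast at h1
      linarith
    have := hx3 x hxx3 {p} {p} (Finset.Subset.refl _) (by rw [Finset.card_singleton]; exact hk1)
      (fun q hq => by rw [Finset.mem_singleton] at hq; subst hq; exact hpp) (hTsing p hpT) p
      hpp.pos (hsing p hpp) hpexp
    refine this.trans (mul_le_mul_of_nonneg_left (hexple _ ?_) (by positivity))
    rw [Finset.card_singleton]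
    linarith
  have b4 : ((A4.card : ℕ) : ℝ) ≤ ∑ p ∈ Q4, (x / ((p ^ 2 : ℕ) : ℝ)) :=
    card_biUnion_real _ _ _ fun p _ => card_mult_le (p ^ 2) x
  -- sums
  have c1 : ∀ (𝒮 : Finset (Finset ℕ)), (∀ S ∈ 𝒮, (∀ p ∈ S, p.Prime ∧ p < Y) ∧ S.card ≤ k) →
      ∑ S ∈ 𝒮, (x / ((∏ p ∈ S, p : ℕ) : ℝ)) * W0 ≤ x * (3 * (2 * L) ^ k) * W0 := by
    intro 𝒮 h𝒮
    have := sum_prod_inv_le hD1 hD2 𝒮 h𝒮
    calc ∑ S ∈ 𝒮, (x / ((∏ p ∈ S, p : ℕ) : ℝ)) * W0 =
        x * (∑ S ∈ 𝒮, 1 / ((∏ p ∈ S, p : ℕ) : ℝ)) * W0 := by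
          rw [Finset.mul_sum, Finset.sum_mul]
          refine Finset.sum_congr rfl fun S _ => ?_
          ring
      _ ≤ _ := by gcongr
  have d1 := c1 S1 (fun S hS => ⟨(hS1mem S hS).1, (hS1mem S hS).2.1.le⟩)
  have d2 := c1 S2 (fun S hS => ⟨(hS2mem S hS).1, (hS2mem S hS).2.1.2⟩)
  have d3 : ∑ p ∈ Q3, (x / ((p ^ 2 : ℕ) : ℝ)) * W0 ≤ x * (2 * (2 * L) ^ k) * W0 := by
    have h1 := sum_inv_sq_le Q3 (Z := 1) le_rfl (fun a ha => by
      rw [hQ3, Finset.mem_filter] at ha
      exact ha.2.1.one_lt.le)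
    calc ∑ p ∈ Q3, (x / ((p ^ 2 : ℕ) : ℝ)) * W0 = x * (∑ p ∈ Q3, 1 / (p : ℝ) ^ 2) * W0 := by
          rw [Finset.mul_sum, Finset.sum_mul]
          refine Finset.sum_congr rfl fun p _ => ?_
          push_cast
          ring
      _ ≤ x * (2 * (2 * L) ^ k) * W0 := by
          apply mul_le_mul_of_nonneg_right _ hW0pos.le
          apply mul_le_mul_of_nonneg_left _ hx0.le
          have h2 : (2 : ℝ) / ((1 : ℕ) : ℝ) = 2 := by norm_num
          rw [h2] at h1
          linarith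
  have d5 : ∑ p ∈ Q5, (x / (p : ℝ)) * W0 ≤ x * ((2 * L) ^ k) * W0 := by
    have h1 : ∑ p ∈ Q5, ((p : ℝ))⁻¹ ≤ 2 * L := by
      refine le_trans ?_ hD3
      unfold msum
      apply Finset.sum_le_sum_of_subset_of_nonneg
      · intro p hp
        rw [hQ5, Finset.mem_filter] at hp
        rw [Finset.mem_filter]
        exact ⟨hp.1, hp.2.1, Nat.mod_one p⟩
      · intro p _ _; positivity
    calc ∑ p ∈ Q5, (x / (p : ℝ)) * W0 = x * (∑ p ∈ Q5, ((p : ℝ))⁻¹) * W0 := by
          rw [Finset.mul_sum, Finset.sum_mul]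
          refine Finset.sum_congr rfl fun p _ => ?_
          ring
      _ ≤ x * ((2 * L) ^ k) * W0 := by
          apply mul_le_mul_of_nonneg_right _ hW0pos.le
          exact mul_le_mul_of_nonneg_left (h1.trans hA') hx0.le
  have d4 : ∑ p ∈ Q4, (x / ((p ^ 2 : ℕ) : ℝ)) ≤ x * ((2 * L) ^ k) * W0 := by
    -- all p in Q4 are at least Z := ⌈exp (3/8 log x)⌉
    set Z : ℕ := ⌊Real.exp (3 / 8 * Real.log x)⌋₊ + 1 with hZ
    have hZr : Real.exp (3 / 8 * Real.log x) ≤ (Z : ℝ) := by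
      rw [hZ]; push_cast; exact (Nat.lt_floor_add_one _).le
    have h1 := sum_inv_sq_le Q4 (Z := Z) (by omega) (fun a ha => by
      rw [hQ4, Finset.mem_filter] at ha
      obtain ⟨_, _, h2⟩ := ha
      push Not at h2
      push_cast at h2
      have h3 : Real.exp (3 / 8 * Real.log x) < a := by
        by_contra hcon
        push Not at hcon
        have h4 : ((a : ℝ)) ^ 2 ≤ (Real.exp (3 / 8 * Real.log x)) ^ 2 :=
          pow_le_pow_left₀ (Nat.cast_nonneg a) hcon 2
        rw [← Real.exp_nat_mul] at h4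
        have h5 : ((2 : ℕ) : ℝ) * (3 / 8 * Real.log x) = 3 / 4 * Real.log x := by
          push_cast; ring
        rw [h5] at h4
        linarith
      rw [hZ]
      have h4 : ⌊Real.exp (3 / 8 * Real.log x)⌋₊ < a :=
        (Nat.floor_lt (Real.exp_pos _).le).mpr h3
      omega)
    have h2 : (2 : ℝ) / Z ≤ W0 := by
      have hZ0 : (0 : ℝ) < Z := lt_of_lt_of_le (Real.exp_pos _) hZr
      rw [div_le_iff₀ hZ0]
      have h3 : (2 : ℝ) ≤ W0 * Real.exp (3 / 8 * Real.log x) := by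
        rw [hW0, ← Real.exp_add]
        have h4 : (2 : ℝ) = Real.exp (Real.log 2) := (Real.exp_log (by norm_num)).symm
        refine h4.le.trans ?_
        apply Real.exp_le_exp.mpr
        rw [add_zero, one_mul] at hlog8
        have h5 : Real.log (Real.log x) = L := rfl
        rw [h5] at hlog8
        have h6 : (0 : ℝ) ≤ Real.log 2 := Real.log_nonneg (by norm_num)
        have h7 : 0 ≤ ε / 2 * L := by positivity
        linarith
      calc (2 : ℝ) ≤ W0 * Real.exp (3 / 8 * Real.log x) := h3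
        _ ≤ W0 * Z := mul_le_mul_of_nonneg_left hZr hW0pos.le
    calc ∑ p ∈ Q4, (x / ((p ^ 2 : ℕ) : ℝ)) = x * (∑ p ∈ Q4, 1 / (p : ℝ) ^ 2) := by
          rw [Finset.mul_sum]
          refine Finset.sum_congr rfl fun p _ => ?_
          push_cast
          ring
      _ ≤ x * W0 := mul_le_mul_of_nonneg_left (h1.trans h2) hx0.le
      _ ≤ x * ((2 * L) ^ k) * W0 := by
          apply mul_le_mul_of_nonneg_right _ hW0pos.le
          exact le_mul_of_one_le_right hx0.le hA
  have f0 : ((A0.card : ℕ) : ℝ) ≤ x * (2 * L) ^ k * W0 := by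
    calc _ ≤ x * ∑ b ∈ B, 1 / (b : ℝ) := b0
      _ ≤ x * Real.exp (-(2 * L)) := by
          rw [← hlt]; exact mul_le_mul_of_nonneg_left hBsum hx0.le
      _ ≤ x * W0 := mul_le_mul_of_nonneg_left (hexple 2 (by linarith)) hx0.le
      _ ≤ x * (2 * L) ^ k * W0 := by
          apply mul_le_mul_of_nonneg_right _ hW0pos.le
          exact le_mul_of_one_le_right hx0.le hA
  have hcardle : (((range x).filter (fun n => 1 ≤ n ∧ (n % 4 = 1 ∨ n % 4 = 2) ∧ Exc l n ∧ HH l n)).card : ℝ) ≤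
      (A0.card : ℝ) + ((A1.card : ℝ) + ((A2.card : ℝ) + ((A3.card : ℝ) + ((A4.card : ℝ) + (A5.card : ℝ))))) := by
    have h1 := Finset.card_le_card hcover
    have h2 := h1.trans (Finset.card_union_le _ _)
    have h3 := Finset.card_union_le A1 (A2 ∪ (A3 ∪ (A4 ∪ A5)))
    have h4 := Finset.card_union_le A2 (A3 ∪ (A4 ∪ A5))
    have h5 := Finset.card_union_le A3 (A4 ∪ A5)
    have h6 := Finset.card_union_le A4 A5
    have h7 : ((range x).filter (fun n => 1 ≤ n ∧ (n % 4 = 1 ∨ n % 4 = 2) ∧ Exc l n ∧ HH l n)).card ≤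
        A0.card + (A1.card + (A2.card + (A3.card + (A4.card + A5.card)))) := by omega
    exact_mod_cast h7
  calc _ ≤ _ := hcardle
    _ ≤ x * (2 * L) ^ k * W0 + (x * (3 * (2 * L) ^ k) * W0 + (x * (3 * (2 * L) ^ k) * W0 +
        (x * (2 * (2 * L) ^ k) * W0 + (x * ((2 * L) ^ k) * W0 + x * ((2 * L) ^ k) * W0)))) :=
        add_le_add f0 (add_le_add (b1.trans d1) (add_le_add (b2.trans d2) (add_le_add (b3.trans d3)
          (add_le_add (b4.trans d4) (b5.trans d5)))))
    _ = x * (11 * (2 * L) ^ k) * W0 := by ring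
    _ ≤ x * Real.exp (ε / 2 * L) * W0 := by
        apply mul_le_mul_of_nonneg_right _ hW0pos.le
        exact mul_le_mul_of_nonneg_left hpow hx0.le
    _ = x * Real.exp (-((3 / 2 - ε) * L)) := by
        rw [hW0, mul_assoc, ← Real.exp_add]
        congr 2
        ring

end Pool.Agent.Lib.MP_79499b_co.Q38
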