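import Pool.Agent.Lib.MP_79499b_co.Q38Final
import Pool.Agent.Lib.MP_79499b_co.Q38Final2
import Pool.Agent.Lib.MP_79499b_co.Q38Excl

/-!
# Deductions
-/

namespace Pool.Agent.Lib.MP_79499b_co.Q38

open Finset Filter Topology
open scoped Classical NumberTheorySymbols

lemma exp_neg_LL {x : ℕ} (hx : 3 ≤ x) (c : ℝ) :
    Real.exp (-(c * LL x)) = 1 / (Real.log x) ^ c := by
  have h1 : (1 : ℝ) < Real.log x := by
    rw [Real.lt_log_iff_exp_lt (by positivity)]
    have := Real.exp_one_lt_d9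
    have h3 : (3 : ℝ) ≤ x := by exact_mod_cast hx
    linarith
  have h0 : (0 : ℝ) < Real.log x := by linarith
  rw [Real.rpow_def_of_pos h0, one_div, ← Real.exp_neg]
  congr 1
  unfold LL
  ring

/-- from eventual bounds to bounds for all `x ≥ 3` -/
lemma conv (f : ℕ → ℝ) (hf : ∀ x, f x ≤ x) (c : ℝ)
    (h : ∃ x₀ : ℕ, ∀ x : ℕ, x₀ ≤ x → f x ≤ x * Real.exp (-(c * LL x))) :
    ∃ C : ℝ, 0 ≤ C ∧ ∀ x : ℕ, 3 ≤ x → f x ≤ C * (x / (Real.log x) ^ c) := by
  obtain ⟨x₀, hx₀⟩ := h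
  refine ⟨max 1 ((Real.log ((x₀ + 3 : ℕ) : ℝ)) ^ c), le_max_of_le_left zero_le_one, ?_⟩
  intro x hx
  have h3 : (3 : ℝ) ≤ x := by exact_mod_cast hx
  have h1 : (1 : ℝ) < Real.log x := by
    rw [Real.lt_log_iff_exp_lt (by positivity)]
    have := Real.exp_one_lt_d9
    linarith
  have h0 : (0 : ℝ) < Real.log x := by linarith
  have hpos : (0 : ℝ) < (Real.log x) ^ c := Real.rpow_pos_of_pos h0 c
  have hx0 : (0 : ℝ) < x := by linarith
  have hq : (0 : ℝ) ≤ x / (Real.log x) ^ c := by positivity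
  by_cases hxx : x₀ ≤ x
  · calc f x ≤ x * Real.exp (-(c * LL x)) := hx₀ x hxx
      _ = 1 * (x / (Real.log x) ^ c) := by rw [exp_neg_LL hx]; ring
      _ ≤ _ := mul_le_mul_of_nonneg_right (le_max_left _ _) hq
  · push Not at hxx
    refine (hf x).trans ?_
    rcases le_total 0 c with hc | hc
    · have h5 : (Real.log x) ^ c ≤ (Real.log ((x₀ + 3 : ℕ) : ℝ)) ^ c := by
        apply Real.rpow_le_rpow h0.le _ hc
        apply Real.log_le_log hx0
        exact_mod_cast (by omega : x ≤ x₀ + 3)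
      calc (x : ℝ) = (Real.log x) ^ c * (x / (Real.log x) ^ c) := by
            field_simp
        _ ≤ _ := mul_le_mul_of_nonneg_right (h5.trans (le_max_right _ _)) hq
    · have h5 : (Real.log x) ^ c ≤ 1 := Real.rpow_le_one_of_one_le_of_nonpos h1.le hc
      calc (x : ℝ) = (Real.log x) ^ c * (x / (Real.log x) ^ c) := by
            field_simp
        _ ≤ _ := mul_le_mul_of_nonneg_right (h5.trans (le_max_left _ _)) hq

/-- the number of integers `n < x` with the property `P` -/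
noncomputable def cnt (P : ℕ → Prop) (x : ℕ) : ℝ := ((Set.ncard {n : ℕ | n < x ∧ P n} : ℕ) : ℝ)

lemma finite_set (P : ℕ → Prop) (x : ℕ) : {n : ℕ | n < x ∧ P n}.Finite :=
  (Set.finite_lt_nat x).subset fun _ h => h.1

lemma cnt_eq (P : ℕ → Prop) [DecidablePred P] (x : ℕ) :
    cnt P x = (((range x).filter P).card : ℝ) := by
  unfold cnt
  congr 1
  rw [← Set.ncard_coe_finset]
  congr 1
  ext n
  simp

lemma cnt_mono {P P' : ℕ → Prop} (h : ∀ n, P n → P' n) (x : ℕ) : cnt P x ≤ cnt P' x := by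
  unfold cnt
  have h1 : {n : ℕ | n < x ∧ P n} ⊆ {n : ℕ | n < x ∧ P' n} := fun n hn => ⟨hn.1, h n hn.2⟩
  exact_mod_cast Set.ncard_le_ncard h1 (finite_set P' x)

lemma cnt_or (P P' : ℕ → Prop) (x : ℕ) : cnt (fun n => P n ∨ P' n) x ≤ cnt P x + cnt P' x := by
  unfold cnt
  have h : {n : ℕ | n < x ∧ (P n ∨ P' n)} = {n : ℕ | n < x ∧ P n} ∪ {n : ℕ | n < x ∧ P' n} := by
    ext n
    simp only [Set.mem_ofPred_eq, Set.mem_union]
    tauto
  rw [h]
  exact_mod_cast Set.ncard_union_le _ _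

lemma cnt_exists (S : Finset ℕ) (P : ℕ → ℕ → Prop) (x : ℕ) :
    cnt (fun n => ∃ l ∈ S, P l n) x ≤ ∑ l ∈ S, cnt (P l) x := by
  classical
  induction S using Finset.induction_on with
  | empty =>
    rw [Finset.sum_empty]
    unfold cnt
    simp
  | insert a S ha ih =>
    rw [Finset.sum_insert ha]
    calc cnt (fun n => ∃ l ∈ insert a S, P l n) x ≤
        cnt (fun n => P a n ∨ ∃ l ∈ S, P l n) x := by
          apply cnt_mono
          rintro n ⟨l, hl, hP⟩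
          rw [Finset.mem_insert] at hl
          rcases hl with rfl | hl
          · exact Or.inl hP
          · exact Or.inr ⟨l, hl, hP⟩
      _ ≤ _ := (cnt_or _ _ x).trans (add_le_add_right ih _)

lemma cnt_le (P : ℕ → Prop) (x : ℕ) : cnt P x ≤ x := by
  rw [cnt_eq]
  have := Finset.card_filter_le (range x) P
  rw [Finset.card_range] at this
  exact_mod_cast this

/-- `P` has at most `C x / (log x) ^ c` members below `x` -/
def Few (P : ℕ → Prop) (c : ℝ) : Prop :=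
  ∃ C : ℝ, 0 ≤ C ∧ ∀ x : ℕ, 3 ≤ x → cnt P x ≤ C * (x / (Real.log x) ^ c)

lemma Few.mono {P P' : ℕ → Prop} {c : ℝ} (h : Few P' c) (hP : ∀ n, P n → P' n) : Few P c := by
  obtain ⟨C, hC, h⟩ := h
  exact ⟨C, hC, fun x hx => (cnt_mono hP x).trans (h x hx)⟩

lemma Few.or {P P' : ℕ → Prop} {c : ℝ} (h : Few P c) (h' : Few P' c) :
    Few (fun n => P n ∨ P' n) c := by
  obtain ⟨C, hC, h⟩ := h
  obtain ⟨C', hC', h'⟩ := h'
  refine ⟨C + C', by positivity, fun x hx => ?_⟩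
  calc cnt (fun n => P n ∨ P' n) x ≤ cnt P x + cnt P' x := cnt_or _ _ x
    _ ≤ C * (x / (Real.log x) ^ c) + C' * (x / (Real.log x) ^ c) :=
        add_le_add (h x hx) (h' x hx)
    _ = _ := by ring

lemma Few.exists {S : Finset ℕ} {P : ℕ → ℕ → Prop} {c : ℝ} (h : ∀ l ∈ S, Few (P l) c) :
    Few (fun n => ∃ l ∈ S, P l n) c := by
  classical
  choose! C hC h using h
  refine ⟨∑ l ∈ S, C l, Finset.sum_nonneg hC, fun x hx => ?_⟩
  calc cnt (fun n => ∃ l ∈ S, P l n) x ≤ ∑ l ∈ S, cnt (P l) x := cnt_exists S P x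
    _ ≤ ∑ l ∈ S, C l * (x / (Real.log x) ^ c) :=
        Finset.sum_le_sum fun l hl => h l hl x hx
    _ = _ := by rw [Finset.sum_mul]

theorem nt1' {l : ℕ} (hl : l.Prime) (hl3 : 3 ≤ l) {ε : ℝ} (hε : 0 < ε) :
    Few (fun n => 1 ≤ n ∧ Exc l n) (1 - ε) := by
  refine conv _ (fun x => cnt_le _ x) _ ?_
  simp_rw [cnt_eq]
  exact nt1 hl hl3 hε

theorem nt2' {l : ℕ} (hl : l.Prime) (hl3 : 3 ≤ l) (hl4 : l % 4 = 3) {ε : ℝ} (hε : 0 < ε) :
    Few (fun n => 1 ≤ n ∧ (n % 4 = 1 ∨ n % 4 = 2) ∧ Exc l n ∧ HH l n) (3 / 2 - ε) := by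
  refine conv _ (fun x => cnt_le _ x) _ ?_
  simp_rw [cnt_eq]
  exact nt2 hl hl3 hl4 hε

/-- `n` is a square -/
def IsSq (n : ℕ) : Prop := ∃ b : ℕ, b ^ 2 = n

/-- squares are negligible -/
theorem squares (c : ℝ) : Few IsSq c := by
  refine conv _ (fun x => cnt_le _ x) c ?_
  simp_rw [cnt_eq]
  have h1 : ∀ᶠ x : ℝ in atTop, (Real.log x) ^ c ≤ (1 / 2) * x ^ (1 / 2 : ℝ) := by
    have h := (isLittleO_log_rpow_rpow_atTop c (by norm_num : (0 : ℝ) < 1 / 2)).def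
      (by norm_num : (0 : ℝ) < 1 / 2)
    filter_upwards [h, eventually_ge_atTop 3] with x hx hx3
    have h0 : (0 : ℝ) ≤ Real.log x := Real.log_nonneg (by linarith)
    rw [Real.norm_of_nonneg (Real.rpow_nonneg h0 c),
      Real.norm_of_nonneg (Real.rpow_nonneg (by linarith) _)] at hx
    exact hx
  have h2 := tendsto_natCast_atTop_atTop.eventually h1
  rw [Filter.eventually_atTop] at h2
  obtain ⟨x₀, hx₀⟩ := h2
  refine ⟨max x₀ 3, fun x hx => ?_⟩
  have hx3 : 3 ≤ x := (le_max_right _ _).trans hx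
  have h3 : (3 : ℝ) ≤ x := by exact_mod_cast hx3
  have hx0 : (0 : ℝ) < x := by linarith
  have h4 := hx₀ x ((le_max_left _ _).trans hx)
  have hlog : (1 : ℝ) < Real.log x := by
    rw [Real.lt_log_iff_exp_lt (by positivity)]
    have := Real.exp_one_lt_d9
    linarith
  have hpos : (0 : ℝ) < (Real.log x) ^ c := Real.rpow_pos_of_pos (by linarith) c
  have h5 : (range x).filter (fun n => IsSq n) ⊆
      (range (Nat.sqrt x + 1)).image (fun b => b ^ 2) := by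
    intro n hn
    rw [Finset.mem_filter, Finset.mem_range] at hn
    obtain ⟨hnx, b, hb⟩ := hn
    rw [Finset.mem_image]
    refine ⟨b, ?_, hb⟩
    rw [Finset.mem_range, Nat.lt_succ_iff, Nat.le_sqrt']
    omega
  have h6 : ((range x).filter (fun n => IsSq n)).card ≤ Nat.sqrt x + 1 := by
    refine (Finset.card_le_card h5).trans ?_
    refine Finset.card_image_le.trans ?_
    rw [Finset.card_range]
  have h7 : ((Nat.sqrt x : ℕ) : ℝ) ≤ x ^ (1 / 2 : ℝ) := by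
    rw [← Real.sqrt_eq_rpow]
    exact Real.nat_sqrt_le_real_sqrt
  have h8 : (1 : ℝ) ≤ x ^ (1 / 2 : ℝ) := Real.one_le_rpow (by linarith) (by norm_num)
  have h9 : (((range x).filter (fun n => IsSq n)).card : ℝ) ≤
      2 * (x : ℝ) ^ (1 / 2 : ℝ) := by
    have : (((range x).filter (fun n => IsSq n)).card : ℝ) ≤
        (Nat.sqrt x : ℝ) + 1 := by exact_mod_cast h6
    linarith
  refine h9.trans ?_
  rw [exp_neg_LL hx3, mul_one_div, le_div_iff₀ hpos]
  have h10 : (x : ℝ) ^ (1 / 2 : ℝ) * (x : ℝ) ^ (1 / 2 : ℝ) = x := by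
    rw [← Real.rpow_add hx0]
    norm_num
  calc 2 * (x : ℝ) ^ (1 / 2 : ℝ) * (Real.log x) ^ c ≤
      2 * (x : ℝ) ^ (1 / 2 : ℝ) * ((1 / 2) * (x : ℝ) ^ (1 / 2 : ℝ)) :=
        mul_le_mul_of_nonneg_left h4 (by positivity)
    _ = (x : ℝ) ^ (1 / 2 : ℝ) * (x : ℝ) ^ (1 / 2 : ℝ) := by ring
    _ = x := h10

/-- the structure of a non-square: a prime divisor to an odd power -/
lemma odd_factorization {a b n p : ℕ} (hn : n ≠ 0) (hab : b ^ 2 * a = n) (ha : Squarefree a)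
    (hp : p.Prime) (hpa : p ∣ a) : Odd (n.factorization p) := by
  have hb0 : b ≠ 0 := by
    rintro rfl
    apply hn
    rw [← hab]; simp
  have ha0 : a ≠ 0 := ha.ne_zero
  have h1 : a.factorization p = 1 := by
    have h2 := (Nat.squarefree_iff_factorization_le_one ha0).mp ha p
    have h3 := (hp.dvd_iff_one_le_factorization ha0).mp hpa
    omega
  rw [← hab, Nat.factorization_mul (pow_ne_zero 2 hb0) ha0, Nat.factorization_pow,
    Finsupp.add_apply, Finsupp.smul_apply, h1, smul_eq_mul]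
  exact ⟨_, rfl⟩

lemma two_primes {a : ℕ} (ha : Squarefree a) (ha1 : a ≠ 1) (hap : ¬ a.Prime) :
    ∃ p q : ℕ, p.Prime ∧ q.Prime ∧ p ≠ q ∧ p ∣ a ∧ q ∣ a := by
  obtain ⟨p, hp, c, rfl⟩ := Nat.exists_prime_and_dvd ha1
  have hc1 : c ≠ 1 := by
    rintro rfl
    apply hap
    rwa [mul_one]
  obtain ⟨q, hq, hqc⟩ := Nat.exists_prime_and_dvd hc1
  refine ⟨p, q, hp, hq, ?_, dvd_mul_right _ _, hqc.mul_left _⟩
  rintro rfl
  have h1 : p * p ∣ p * c := mul_dvd_mul_left p hqc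
  exact hp.one_lt.ne' (Nat.isUnit_iff.mp (ha p h1))

/-- the hypothesis `HH` from the shape of `n` -/
lemma HH_of_exc {l n : ℕ} (hn : 2 ≤ n) (hexc : Exc l n) (hsq : ¬ IsSq n)
    (hshape : ∀ s q : ℕ, q.Prime → n ≠ s ^ 2 * q) : HH l n := by
  obtain ⟨a, b, hab, ha⟩ := Nat.sq_mul_squarefree n
  have ha1 : a ≠ 1 := by
    rintro rfl
    exact hsq ⟨b, by rw [← hab, mul_one]⟩
  have hap : ¬ a.Prime := fun h => hshape b a h hab.symm
  obtain ⟨p, q, hp, hq, hpq, hpa, hqa⟩ := two_primes ha ha1 hap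
  have hpo := odd_factorization (by omega) hab ha hp hpa
  have hqo := odd_factorization (by omega) hab ha hq hqa
  by_cases h1 : p ^ 2 ∣ n
  · exact Or.inl ⟨p, hp, h1, hexc p hp hpo⟩
  by_cases h2 : q ^ 2 ∣ n
  · exact Or.inl ⟨q, hq, h2, hexc q hq hqo⟩
  have hdiv : ∀ r, r ∣ a → r ∣ n := fun r hr => by rw [← hab]; exact hr.mul_left _
  exact Or.inr ⟨p, q, hp, hq, hpq, ⟨hdiv p hpa, h1⟩, ⟨hdiv q hqa, h2⟩⟩

lemma Phi_three (n : ℕ) : Phi 3 n = n ^ 2 + n + 1 := by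
  unfold Phi
  rw [Finset.sum_range_succ, Finset.sum_range_succ, Finset.sum_range_one]
  ring

/-- the hypotheses of `nt2` for planar difference sets in abelian groups -/
lemma planar_facts {n : ℕ} (hn : 2 ≤ n) {G : Type} [CommGroup G] [Fintype G] [DecidableEq G]
    (D : Finset G) (hG : Fintype.card G = n ^ 2 + n + 1) (hDc : D.card = n + 1)
    (hlam : ∀ g : G, g ≠ 1 →
      ((D ×ˢ D).filter (fun p : G × G => p.1 * p.2⁻¹ = g)).card = 1)
    (hsq : ¬ IsSq n) (hnp : ¬ n.Prime) : Exc 3 n ∧ HH 3 n := by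
  obtain ⟨a, b, hab, ha⟩ := Nat.sq_mul_squarefree n
  have hn0 : n ≠ 0 := by omega
  have ha1 : a ≠ 1 := by
    rintro rfl
    exact hsq ⟨b, by rw [← hab, mul_one]⟩
  obtain ⟨q, hq, hqa⟩ := Nat.exists_prime_and_dvd ha1
  have hqo := odd_factorization hn0 hab ha hq hqa
  have key : ∀ p : ℕ, p.Prime → p ∣ n → ∀ w : ℕ, w.Prime → w ∣ Phi 3 n → J((p : ℤ) | w) ≠ -1 := by
    intro p hp hpn w hw hwn hJ
    have hw2 : w ≠ 2 := by
      rintro rfl
      have := Phi_odd (n := n) (l := 3) (by decide)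
      rw [← Nat.not_even_iff_odd] at this
      exact this (even_iff_two_dvd.mpr hwn)
    obtain ⟨-, hwj⟩ := dvd_pow_of_jacobi hw hw2 hJ
    rw [Phi_three] at hwn
    exact planar_excl hn D hG hDc hlam hq hqo hp hpn hw hwn hwj
  have hpn : ∀ p : ℕ, p.Prime → Odd (n.factorization p) → p ∣ n := by
    intro p hp ho
    apply (hp.dvd_iff_one_le_factorization hn0).mpr
    obtain ⟨t, ht⟩ := ho
    omega
  refine ⟨fun p hp ho => key p hp (hpn p hp ho), ?_⟩
  by_cases hb : b = 1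
  · subst hb
    rw [one_pow, one_mul] at hab
    subst hab
    obtain ⟨p, q, hp, hq, hpq, hpa, hqa⟩ := two_primes ha ha1 hnp
    have hex : ∀ r : ℕ, r.Prime → r ∣ a → Exact r a := by
      intro r hr hra
      refine ⟨hra, fun h => ?_⟩
      rw [pow_two] at h
      exact hr.one_lt.ne' (Nat.isUnit_iff.mp (ha r h))
    exact Or.inr ⟨p, q, hp, hq, hpq, hex p hp hpa, hex q hq hqa⟩
  · obtain ⟨p, hp, hpb⟩ := Nat.exists_prime_and_dvd hb
    have h1 : p ^ 2 ∣ n := by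
      rw [← hab]
      exact (pow_dvd_pow_of_dvd hpb 2).mul_right _
    exact Or.inl ⟨p, hp, h1, key p hp ((dvd_pow_self p two_ne_zero).trans h1)⟩

end Pool.Agent.Lib.MP_79499b_co.Q38
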