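import Pool.Agent.Lib.MP_79499b_co.PCDefs
import Pool.Agent.Lib.MP_79499b_co.PCPrimes

/-!
# The tail of the integers `e s ^ 2 q`
-/

set_option autoImplicit false

namespace Pool.Agent.Lib.MP_79499b_co.PC

open Finset Filter Topology
open scoped Classical NumberTheorySymbols
open Q38

lemma cnt_mul_prime_le {e s x : ℕ} (he : 1 ≤ e) (hs : 1 ≤ s) :
    cnt (fun n => ∃ q : ℕ, q.Prime ∧ n = e * s ^ 2 * q) x ≤
      (((range (x / s ^ 2 + 1)).filter Nat.Prime).card : ℝ) := by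
  rw [cnt_eq]
  have h1 : (range x).filter (fun n => ∃ q : ℕ, q.Prime ∧ n = e * s ^ 2 * q) ⊆
      ((range (x / s ^ 2 + 1)).filter Nat.Prime).image (fun q => e * s ^ 2 * q) := by
    intro n hn
    rw [mem_filter, mem_range] at hn
    obtain ⟨hnx, q, hq, rfl⟩ := hn
    rw [mem_image]
    refine ⟨q, ?_, rfl⟩
    rw [mem_filter, mem_range]
    refine ⟨?_, hq⟩
    rw [Nat.lt_succ_iff, Nat.le_div_iff_mul_le (by positivity)]
    calc q * s ^ 2 = 1 * (s ^ 2 * q) := by ring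
      _ ≤ e * (s ^ 2 * q) := Nat.mul_le_mul_right _ he
      _ = e * s ^ 2 * q := by ring
      _ ≤ x := hnx.le
  exact_mod_cast (card_le_card h1).trans card_image_le

lemma card_primes_le (N : ℕ) : ((range (N + 1)).filter Nat.Prime).card ≤ N := by
  have h1 : (range (N + 1)).filter Nat.Prime ⊆ Ioc 0 N := by
    intro q hq
    rw [mem_filter, mem_range] at hq
    rw [mem_Ioc]
    exact ⟨hq.2.pos, by omega⟩
  calc _ ≤ (Ioc 0 N).card := card_le_card h1
    _ = N := by simp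

lemma tail_small {C : ℝ} (hC : 0 < C) (hup : ∀ x : ℕ, 3 ≤ x →
    (((range x).filter Nat.Prime).card : ℝ) ≤ C * (x / Real.log x)) {x s : ℕ} (hx : 9 ≤ x)
    (hs : 1 ≤ s) (hsx : s ^ 4 ≤ x) :
    (((range (x / s ^ 2 + 1)).filter Nat.Prime).card : ℝ) ≤
      4 * C * (x / Real.log x) * ((s : ℝ) ^ 2)⁻¹ := by
  have hs0 : (0 : ℝ) < (s : ℝ) ^ 2 := by positivity
  have hx0 : (0 : ℝ) < x := by
    have : 0 < x := by omega
    exact_mod_cast this
  have hx9 : (9 : ℝ) ≤ x := by exact_mod_cast hx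
  set N := x / s ^ 2 + 1 with hN
  have h1 : (x : ℝ) / (s : ℝ) ^ 2 ≤ N := by
    rw [hN]
    push_cast
    have := (Nat.lt_floor_add_one ((x : ℝ) / ((s ^ 2 : ℕ) : ℝ))).le
    rw [Nat.floor_div_eq_div] at this
    push_cast at this
    exact this
  have h2 : (N : ℝ) ≤ x / (s : ℝ) ^ 2 + 1 := by
    rw [hN]
    push_cast
    have : ((x / s ^ 2 : ℕ) : ℝ) ≤ (x : ℝ) / ((s ^ 2 : ℕ) : ℝ) := Nat.cast_div_le
    push_cast at this
    linarith
  have h3 : Real.sqrt x ≤ x / (s : ℝ) ^ 2 := by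
    rw [le_div_iff₀ hs0]
    have h4 : (s : ℝ) ^ 2 ≤ Real.sqrt x := by
      apply Real.le_sqrt_of_sq_le
      have : ((s : ℝ) ^ 2) ^ 2 = ((s ^ 4 : ℕ) : ℝ) := by push_cast; ring
      rw [this]
      exact_mod_cast hsx
    calc Real.sqrt x * (s : ℝ) ^ 2 ≤ Real.sqrt x * Real.sqrt x :=
          mul_le_mul_of_nonneg_left h4 (Real.sqrt_nonneg _)
      _ = x := Real.mul_self_sqrt hx0.le
  have h5 : (3 : ℝ) ≤ Real.sqrt x := by
    apply Real.le_sqrt_of_sq_le
    norm_num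
    linarith
  have hN3 : 3 ≤ N := by
    have : (3 : ℝ) ≤ N := h5.trans (h3.trans h1)
    exact_mod_cast this
  have hlog : Real.log x / 2 ≤ Real.log N := by
    rw [← Real.log_sqrt hx0.le]
    exact Real.log_le_log (by positivity) (h3.trans h1)
  have hlx : 0 < Real.log x := Real.log_pos (by linarith)
  have hlN : 0 < Real.log N := by linarith
  have h6 : (N : ℝ) ≤ 2 * (x / (s : ℝ) ^ 2) := by
    have : 1 ≤ x / (s : ℝ) ^ 2 := by linarith
    linarith
  calc (((range N).filter Nat.Prime).card : ℝ) ≤ C * (N / Real.log N) := hup N hN3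
    _ ≤ C * ((2 * (x / (s : ℝ) ^ 2)) / (Real.log x / 2)) := by
        apply mul_le_mul_of_nonneg_left _ hC.le
        apply div_le_div₀ (by positivity) h6 (by positivity) hlog
    _ = 4 * C * (x / Real.log x) * ((s : ℝ) ^ 2)⁻¹ := by
        field_simp
        ring

lemma eventually_log_sqrt (K : ℝ) {η : ℝ} (hη : 0 < η) :
    ∀ᶠ x : ℕ in atTop, K * Real.log x ≤ η * (Nat.sqrt (Nat.sqrt x) : ℝ) := by
  have h1 : Tendsto (fun x : ℕ => Real.log x / (x : ℝ) ^ ((1 : ℝ) / 4)) atTop (𝓝 0) := by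
    have h2 : Tendsto (fun x : ℝ => Real.log x / x ^ ((1 : ℝ) / 4)) atTop (𝓝 0) :=
      (isLittleO_log_rpow_atTop (by norm_num)).tendsto_div_nhds_zero
    exact h2.comp tendsto_natCast_atTop_atTop
  have h3 : 0 < η / (2 * (|K| + 1)) := by positivity
  filter_upwards [h1.eventually (gt_mem_nhds h3), eventually_ge_atTop 16] with x hx hx16
  have hx0 : (0 : ℝ) < x := by
    have : 0 < x := by omega
    exact_mod_cast this
  have hp : 0 < (x : ℝ) ^ ((1 : ℝ) / 4) := Real.rpow_pos_of_pos hx0 _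
  rw [div_lt_iff₀ hp] at hx
  have hlog : 0 ≤ Real.log x := Real.log_nonneg (by
    have : 1 ≤ x := by omega
    exact_mod_cast this)
  set T := Nat.sqrt (Nat.sqrt x) with hT
  have hT1 : x < (T + 1) ^ 4 := by
    have a1 : Nat.sqrt x < (T + 1) * (T + 1) := Nat.lt_succ_sqrt _
    have a2 : x < (Nat.sqrt x + 1) * (Nat.sqrt x + 1) := Nat.lt_succ_sqrt _
    calc x < (Nat.sqrt x + 1) * (Nat.sqrt x + 1) := a2
      _ ≤ ((T + 1) * (T + 1)) * ((T + 1) * (T + 1)) := Nat.mul_le_mul a1 a1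
      _ = (T + 1) ^ 4 := by ring
  have hT2 : (x : ℝ) ^ ((1 : ℝ) / 4) ≤ T + 1 := by
    have a1 : (x : ℝ) ≤ ((T : ℝ) + 1) ^ 4 := by exact_mod_cast hT1.le
    calc (x : ℝ) ^ ((1 : ℝ) / 4) ≤ (((T : ℝ) + 1) ^ 4) ^ ((1 : ℝ) / 4) :=
          Real.rpow_le_rpow hx0.le a1 (by norm_num)
      _ = T + 1 := by
          rw [← Real.rpow_natCast, ← Real.rpow_mul (by positivity)]
          norm_num
  have hT3 : (1 : ℝ) ≤ T := by
    have a1 : 4 ≤ Nat.sqrt x := by
      rw [Nat.le_sqrt]; omega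
    have a2 : 1 ≤ T := by
      rw [hT, Nat.le_sqrt]; omega
    exact_mod_cast a2
  calc K * Real.log x ≤ (|K| + 1) * Real.log x := by
        apply mul_le_mul_of_nonneg_right _ hlog
        linarith [le_abs_self K]
    _ ≤ (|K| + 1) * (η / (2 * (|K| + 1)) * (x : ℝ) ^ ((1 : ℝ) / 4)) :=
        mul_le_mul_of_nonneg_left hx.le (by positivity)
    _ = η / 2 * (x : ℝ) ^ ((1 : ℝ) / 4) := by
        field_simp
    _ ≤ η / 2 * (T + 1) := mul_le_mul_of_nonneg_left hT2 (by positivity)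
    _ ≤ η * T := by nlinarith

theorem tail {l : ℕ} (hl : l ≠ 0) {η : ℝ} (hη : 0 < η) :
    ∃ S₀ x₀ : ℕ, ∀ x : ℕ, x₀ ≤ x →
      cnt (fun n => ∃ e s q : ℕ, e ∣ l ∧ S₀ ≤ s ∧ q.Prime ∧ n = e * s ^ 2 * q) x ≤
        η * (x / Real.log x) := by
  obtain ⟨C, hC, hup⟩ := primes_upper
  set d : ℝ := (l.divisors.card : ℝ) with hd
  have hd0 : 0 < d := by
    rw [hd]
    have : 0 < l.divisors.card := card_pos.mpr ⟨1, Nat.one_mem_divisors.mpr hl⟩
    exact_mod_cast this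
  obtain ⟨A, hA⟩ := exists_nat_ge (8 * C * d / η)
  obtain ⟨x₁, hx₁⟩ := eventually_atTop.mp (eventually_log_sqrt (2 * d) hη)
  refine ⟨A + 2, max x₁ 16, fun x hx => ?_⟩
  have hxx₁ : x₁ ≤ x := (le_max_left _ _).trans hx
  have hx16 : 16 ≤ x := (le_max_right _ _).trans hx
  have hx0 : (0 : ℝ) < x := by
    have : 0 < x := by omega
    exact_mod_cast this
  have hlx : 0 < Real.log x := Real.log_pos (by
    have : 1 < x := by omega
    exact_mod_cast this)
  have hT := hx₁ x hxx₁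
  set T := Nat.sqrt (Nat.sqrt x) with hTdef
  have hT1 : 1 ≤ T := by
    have a1 : 4 ≤ Nat.sqrt x := by
      rw [Nat.le_sqrt]; omega
    rw [hTdef, Nat.le_sqrt]; omega
  have hT0 : (0 : ℝ) < T := by exact_mod_cast hT1
  have hTx : T ≤ x := (Nat.sqrt_le_self _).trans (Nat.sqrt_le_self _)
  -- the bound for a single `s`
  set a : ℕ → ℝ := fun s => (((range (x / s ^ 2 + 1)).filter Nat.Prime).card : ℝ) with ha
  have h1 : cnt (fun n => ∃ e s q : ℕ, e ∣ l ∧ A + 2 ≤ s ∧ q.Prime ∧ n = e * s ^ 2 * q) x ≤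
      ∑ e ∈ l.divisors, ∑ s ∈ Ioc (A + 1) x, a s := by
    have b1 : cnt (fun n => ∃ e s q : ℕ, e ∣ l ∧ A + 2 ≤ s ∧ q.Prime ∧ n = e * s ^ 2 * q) x =
        cnt (fun n => n < x ∧ ∃ e s q : ℕ, e ∣ l ∧ A + 2 ≤ s ∧ q.Prime ∧ n = e * s ^ 2 * q) x := by
      unfold cnt
      congr 2
      ext n
      constructor
      · rintro ⟨c1, c2⟩
        exact ⟨c1, c1, c2⟩
      · rintro ⟨c1, _, c2⟩
        exact ⟨c1, c2⟩
    rw [b1]
    calc _ ≤ cnt (fun n => ∃ e ∈ l.divisors, ∃ s ∈ Ioc (A + 1) x, ∃ q : ℕ,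
          q.Prime ∧ n = e * s ^ 2 * q) x := by
          apply cnt_mono
          rintro n ⟨hnx, e, s, q, he, hs, hq, hn⟩
          refine ⟨e, Nat.mem_divisors.mpr ⟨he, hl⟩, s, ?_, q, hq, hn⟩
          rw [mem_Ioc]
          refine ⟨by omega, ?_⟩
          have he1 : 1 ≤ e := Nat.pos_of_dvd_of_pos he (Nat.pos_of_ne_zero hl)
          have hq1 : 1 ≤ q := hq.pos
          calc s ≤ s ^ 2 := Nat.le_self_pow two_ne_zero s
            _ = 1 * s ^ 2 * 1 := by ring
            _ ≤ e * s ^ 2 * q := Nat.mul_le_mul (Nat.mul_le_mul_right _ he1) hq1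
            _ ≤ x := by rw [← hn]; exact hnx.le
      _ ≤ ∑ e ∈ l.divisors, cnt (fun n => ∃ s ∈ Ioc (A + 1) x, ∃ q : ℕ,
          q.Prime ∧ n = e * s ^ 2 * q) x := cnt_exists _ _ x
      _ ≤ ∑ e ∈ l.divisors, ∑ s ∈ Ioc (A + 1) x, a s := by
          apply Finset.sum_le_sum
          intro e he
          refine (cnt_exists _ _ x).trans (Finset.sum_le_sum fun s hs => ?_)
          rw [mem_Ioc] at hs
          exact cnt_mul_prime_le (Nat.pos_of_mem_divisors he) (by omega)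
  have h2 : ∑ s ∈ Ioc (A + 1) x, a s ≤
      4 * C * (x / Real.log x) * ((A : ℝ) + 1)⁻¹ + x * (T : ℝ)⁻¹ := by
    have b1 : ∀ s ∈ Ioc (A + 1) x, a s ≤
        (if s ≤ T then 4 * C * (x / Real.log x) * ((s : ℝ) ^ 2)⁻¹ else 0) +
          (if s ≤ T then 0 else x * ((s : ℝ) ^ 2)⁻¹) := by
      intro s hs
      rw [mem_Ioc] at hs
      by_cases hsT : s ≤ T
      · rw [if_pos hsT, if_pos hsT, add_zero]
        apply tail_small hC hup (by omega) (by omega)
        calc s ^ 4 ≤ T ^ 4 := Nat.pow_le_pow_left hsT 4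
          _ = (T * T) * (T * T) := by ring
          _ ≤ Nat.sqrt x * Nat.sqrt x := Nat.mul_le_mul (Nat.sqrt_le _) (Nat.sqrt_le _)
          _ ≤ x := Nat.sqrt_le _
      · rw [if_neg hsT, if_neg hsT, zero_add]
        calc a s ≤ ((x / s ^ 2 : ℕ) : ℝ) := by
              have := card_primes_le (x / s ^ 2)
              show (((range (x / s ^ 2 + 1)).filter Nat.Prime).card : ℝ) ≤ ((x / s ^ 2 : ℕ) : ℝ)
              exact_mod_cast this
          _ ≤ (x : ℝ) / ((s ^ 2 : ℕ) : ℝ) := Nat.cast_div_le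
          _ = x * ((s : ℝ) ^ 2)⁻¹ := by push_cast; ring
    refine (Finset.sum_le_sum b1).trans ?_
    rw [Finset.sum_add_distrib]
    apply add_le_add
    · rw [← Finset.sum_filter, ← Finset.mul_sum]
      apply mul_le_mul_of_nonneg_left _ (by positivity)
      calc ∑ s ∈ (Ioc (A + 1) x).filter (fun s => s ≤ T), ((s : ℝ) ^ 2)⁻¹
          ≤ ∑ s ∈ Ioc (A + 1) (max (A + 1) x), ((s : ℝ) ^ 2)⁻¹ := by
            apply Finset.sum_le_sum_of_subset_of_nonneg
            · intro s hs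
              rw [mem_filter, mem_Ioc] at hs
              rw [mem_Ioc]
              exact ⟨hs.1.1, hs.1.2.trans (le_max_right _ _)⟩
            · intro _ _ _
              positivity
        _ ≤ ((A + 1 : ℕ) : ℝ)⁻¹ - ((max (A + 1) x : ℕ) : ℝ)⁻¹ :=
            sum_Ioc_inv_sq_le_sub (Nat.succ_ne_zero A) (le_max_left _ _)
        _ ≤ ((A : ℝ) + 1)⁻¹ := by
            push_cast
            have : 0 ≤ (max ((A : ℝ) + 1) (x : ℝ))⁻¹ := by positivity
            linarith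
    · have b2 : ∀ s : ℕ, (if s ≤ T then (0 : ℝ) else x * ((s : ℝ) ^ 2)⁻¹) =
          if ¬ s ≤ T then x * ((s : ℝ) ^ 2)⁻¹ else 0 := by
        intro s
        by_cases h : s ≤ T <;> simp [h]
      simp_rw [b2]
      rw [← Finset.sum_filter, ← Finset.mul_sum]
      apply mul_le_mul_of_nonneg_left _ hx0.le
      calc ∑ s ∈ (Ioc (A + 1) x).filter (fun s => ¬ s ≤ T), ((s : ℝ) ^ 2)⁻¹
          ≤ ∑ s ∈ Ioc T x, ((s : ℝ) ^ 2)⁻¹ := by
            apply Finset.sum_le_sum_of_subset_of_nonneg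
            · intro s hs
              rw [mem_filter, mem_Ioc] at hs
              rw [mem_Ioc]
              exact ⟨by omega, hs.1.2⟩
            · intro _ _ _
              positivity
        _ ≤ ((T : ℕ) : ℝ)⁻¹ - ((x : ℕ) : ℝ)⁻¹ :=
            sum_Ioc_inv_sq_le_sub (by omega) hTx
        _ ≤ (T : ℝ)⁻¹ := by
            have : 0 ≤ ((x : ℕ) : ℝ)⁻¹ := by positivity
            linarith
  rw [Finset.sum_const, nsmul_eq_mul] at h1
  refine h1.trans ?_
  have hA1 : 4 * C * (x / Real.log x) * ((A : ℝ) + 1)⁻¹ * d ≤ η / 2 * (x / Real.log x) := by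
    have b1 : 0 < x / Real.log x := by positivity
    have b2 : 4 * C * ((A : ℝ) + 1)⁻¹ * d ≤ η / 2 := by
      rw [div_le_iff₀ hη] at hA
      rw [mul_assoc, ← div_eq_inv_mul, ← mul_div_assoc, div_le_iff₀ (by positivity)]
      nlinarith
    calc 4 * C * (x / Real.log x) * ((A : ℝ) + 1)⁻¹ * d
        = (4 * C * ((A : ℝ) + 1)⁻¹ * d) * (x / Real.log x) := by ring
      _ ≤ _ := mul_le_mul_of_nonneg_right b2 b1.le
  have hA2 : x * (T : ℝ)⁻¹ * d ≤ η / 2 * (x / Real.log x) := by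
    rw [← div_eq_mul_inv, div_mul_eq_mul_div, div_le_iff₀ hT0]
    have b1 : 2 * d * Real.log x * (x / Real.log x) ≤ η * T * (x / Real.log x) :=
      mul_le_mul_of_nonneg_right hT (by positivity)
    have b2 : 2 * d * Real.log x * (x / Real.log x) = 2 * (x * d) := by
      field_simp
    rw [b2] at b1
    linarith
  calc (l.divisors.card : ℝ) * ∑ s ∈ Ioc (A + 1) x, a s
      ≤ d * (4 * C * (x / Real.log x) * ((A : ℝ) + 1)⁻¹ + x * (T : ℝ)⁻¹) :=
        mul_le_mul_of_nonneg_left h2 hd0.le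
    _ = 4 * C * (x / Real.log x) * ((A : ℝ) + 1)⁻¹ * d + x * (T : ℝ)⁻¹ * d := by ring
    _ ≤ η / 2 * (x / Real.log x) + η / 2 * (x / Real.log x) := add_le_add hA1 hA2
    _ = η * (x / Real.log x) := by ring

theorem square_shape {l : ℕ} (hl : l ≠ 0) {η : ℝ} (hη : 0 < η) :
    ∃ x₀ : ℕ, ∀ x : ℕ, x₀ ≤ x →
      cnt (fun n => ∃ e s : ℕ, e ∣ l ∧ n = e * s ^ 2) x ≤ η * (x / Real.log x) := by
  set d : ℝ := (l.divisors.card : ℝ) with hd
  have hd0 : 0 ≤ d := Nat.cast_nonneg _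
  have h1 : Tendsto (fun x : ℕ => Real.log x / (x : ℝ) ^ ((1 : ℝ) / 2)) atTop (𝓝 0) := by
    have h2 : Tendsto (fun x : ℝ => Real.log x / x ^ ((1 : ℝ) / 2)) atTop (𝓝 0) :=
      (isLittleO_log_rpow_atTop (by norm_num)).tendsto_div_nhds_zero
    exact h2.comp tendsto_natCast_atTop_atTop
  have h3 : 0 < η / (2 * (d + 1)) := by positivity
  obtain ⟨x₁, hx₁⟩ := eventually_atTop.mp (h1.eventually (gt_mem_nhds h3))
  refine ⟨max x₁ 2, fun x hx => ?_⟩
  have hx2 : 2 ≤ x := (le_max_right _ _).trans hx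
  have h4 := hx₁ x ((le_max_left _ _).trans hx)
  have hx0 : (0 : ℝ) < x := by
    have : 0 < x := by omega
    exact_mod_cast this
  have hx1 : (1 : ℝ) ≤ x := by
    have : 1 ≤ x := by omega
    exact_mod_cast this
  have hlx : 0 < Real.log x := Real.log_pos (by
    have : 1 < x := by omega
    exact_mod_cast this)
  rw [← Real.sqrt_eq_rpow] at h4
  have hs0 : 0 < Real.sqrt x := Real.sqrt_pos.mpr hx0
  rw [div_lt_iff₀ hs0] at h4
  have h5 : cnt (fun n => ∃ e s : ℕ, e ∣ l ∧ n = e * s ^ 2) x ≤ d * (Real.sqrt x + 1) := by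
    have b1 : cnt (fun n => ∃ e s : ℕ, e ∣ l ∧ n = e * s ^ 2) x ≤
        ∑ e ∈ l.divisors, cnt (fun n => ∃ s : ℕ, n = e * s ^ 2) x := by
      refine (cnt_mono ?_ x).trans (cnt_exists l.divisors (fun e n => ∃ s : ℕ, n = e * s ^ 2) x)
      rintro n ⟨e, s, he, hn⟩
      exact ⟨e, Nat.mem_divisors.mpr ⟨he, hl⟩, s, hn⟩
    have b2 : ∀ e ∈ l.divisors, cnt (fun n => ∃ s : ℕ, n = e * s ^ 2) x ≤ Real.sqrt x + 1 := by
      intro e he
      have he1 : 1 ≤ e := Nat.pos_of_mem_divisors he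
      rw [cnt_eq]
      have c1 : (range x).filter (fun n => ∃ s : ℕ, n = e * s ^ 2) ⊆
          (range (Nat.sqrt x + 1)).image (fun s => e * s ^ 2) := by
        intro n hn
        rw [mem_filter, mem_range] at hn
        obtain ⟨hnx, s, rfl⟩ := hn
        rw [mem_image]
        refine ⟨s, ?_, rfl⟩
        rw [mem_range, Nat.lt_succ_iff, Nat.le_sqrt]
        calc s * s = 1 * s ^ 2 := by ring
          _ ≤ e * s ^ 2 := Nat.mul_le_mul_right _ he1
          _ ≤ x := hnx.le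
      have c2 : (((range x).filter (fun n => ∃ s : ℕ, n = e * s ^ 2)).card : ℝ) ≤
          ((Nat.sqrt x + 1 : ℕ) : ℝ) := by
        have := (card_le_card c1).trans card_image_le
        rw [card_range] at this
        exact_mod_cast this
      refine c2.trans ?_
      push_cast
      have c3 : (Nat.sqrt x : ℝ) ≤ Real.sqrt x := Real.nat_sqrt_le_real_sqrt
      linarith
    calc _ ≤ ∑ e ∈ l.divisors, cnt (fun n => ∃ s : ℕ, n = e * s ^ 2) x := b1
      _ ≤ ∑ _e ∈ l.divisors, (Real.sqrt x + 1) := Finset.sum_le_sum b2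
      _ = d * (Real.sqrt x + 1) := by rw [Finset.sum_const, nsmul_eq_mul]
  have h6 : (1 : ℝ) ≤ Real.sqrt x := by
    rw [Real.one_le_sqrt]; exact hx1
  refine h5.trans ?_
  have h7 : d * (Real.sqrt x + 1) ≤ 2 * (d + 1) * Real.sqrt x := by nlinarith
  refine h7.trans ?_
  rw [← mul_div_assoc, le_div_iff₀ hlx]
  have h8 : 2 * (d + 1) * Real.sqrt x * Real.log x ≤
      2 * (d + 1) * Real.sqrt x * (η / (2 * (d + 1)) * Real.sqrt x) :=
    mul_le_mul_of_nonneg_left h4.le (by positivity)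
  refine h8.trans (le_of_eq ?_)
  have h9 : Real.sqrt x * Real.sqrt x = x := Real.mul_self_sqrt hx0.le
  field_simp
  rw [sq, h9]

theorem few_small {P : ℕ → Prop} {c : ℝ} (hc : 1 < c) (h : Few P c) {η : ℝ} (hη : 0 < η) :
    ∃ x₀ : ℕ, ∀ x : ℕ, x₀ ≤ x → cnt P x ≤ η * (x / Real.log x) := by
  obtain ⟨C, hC, h⟩ := h
  have h1 : Tendsto (fun x : ℕ => (Real.log x) ^ (c - 1)) atTop atTop :=
    (tendsto_rpow_atTop (by linarith)).comp
      (Real.tendsto_log_atTop.comp tendsto_natCast_atTop_atTop)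
  obtain ⟨x₁, hx₁⟩ := eventually_atTop.mp (h1.eventually_ge_atTop (C / η))
  refine ⟨max x₁ 3, fun x hx => ?_⟩
  have hx3 : 3 ≤ x := (le_max_right _ _).trans hx
  have h2 := hx₁ x ((le_max_left _ _).trans hx)
  refine (h x hx3).trans ?_
  have hx0 : (0 : ℝ) < x := by
    have : 0 < x := by omega
    exact_mod_cast this
  have hlx : 0 < Real.log x := Real.log_pos (by
    have : 1 < x := by omega
    exact_mod_cast this)
  have h3 : (Real.log x) ^ c = (Real.log x) ^ (c - 1) * Real.log x := by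
    rw [← Real.rpow_add_one hlx.ne']
    congr 1
    ring
  have h4 : 0 < (Real.log x) ^ (c - 1) := Real.rpow_pos_of_pos hlx _
  rw [h3, ← div_div, ← mul_div_assoc, ← mul_div_assoc, ← mul_div_assoc]
  apply div_le_div_of_nonneg_right _ hlx.le
  rw [div_le_iff₀ h4]
  rw [div_le_iff₀ hη] at h2
  calc C * x ≤ ((Real.log x) ^ (c - 1) * η) * x := mul_le_mul_of_nonneg_right h2 hx0.le
    _ = η * x * (Real.log x) ^ (c - 1) := by ring

end Pool.Agent.Lib.MP_79499b_co.PC
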