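import Pool.Agent.Lib.MP_79499b_co.PCExc
import Pool.Agent.Lib.MP_79499b_co.PCSieve
import Pool.Agent.Lib.MP_79499b_co.PCFixed
import Pool.Agent.Lib.MP_79499b_co.PCTail

/-!
# The asymptotic prime power conjecture: assembly
-/

namespace Pool.Agent.Lib.MP_79499b_co.PC

open Finset Filter Topology
open scoped Classical NumberTheorySymbols
open Q38

/-- `P` has `o(x / log x)` members below `x` -/
def Small (P : ℕ → Prop) : Prop :=
  ∀ η : ℝ, 0 < η → ∃ x₀ : ℕ, ∀ x : ℕ, x₀ ≤ x → cnt P x ≤ η * (x / Real.log x)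

lemma Small.mono {P P' : ℕ → Prop} (h : Small P') (hP : ∀ n, P n → P' n) : Small P := by
  intro η hη
  obtain ⟨x₀, h⟩ := h η hη
  exact ⟨x₀, fun x hx => (cnt_mono hP x).trans (h x hx)⟩

lemma Small.or {P P' : ℕ → Prop} (h : Small P) (h' : Small P') :
    Small (fun n => P n ∨ P' n) := by
  intro η hη
  obtain ⟨x₀, h⟩ := h (η / 2) (by positivity)
  obtain ⟨x₁, h'⟩ := h' (η / 2) (by positivity)
  refine ⟨max x₀ x₁, fun x hx => ?_⟩
  have h1 := h x (le_trans (le_max_left _ _) hx)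
  have h2 := h' x (le_trans (le_max_right _ _) hx)
  refine (cnt_or _ _ x).trans ?_
  linarith

lemma small_false : Small (fun _ => False) := by
  intro η hη
  refine ⟨3, fun x hx => ?_⟩
  have h1 : cnt (fun _ => False) x = 0 := by
    unfold cnt
    simp
  rw [h1]
  have h2 : (3 : ℝ) ≤ x := by exact_mod_cast hx
  have h3 : 0 ≤ Real.log x := Real.log_nonneg (by linarith)
  positivity

lemma small_exists {ι : Type*} (I : Finset ι) (P : ι → ℕ → Prop) (h : ∀ i ∈ I, Small (P i)) :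
    Small (fun n => ∃ i ∈ I, P i n) := by
  induction I using Finset.induction_on with
  | empty =>
    refine small_false.mono ?_
    rintro n ⟨i, hi, -⟩
    exact absurd hi (Finset.notMem_empty i)
  | insert a S ha ih =>
    refine ((h a (Finset.mem_insert_self a S)).or
      (ih fun i hi => h i (Finset.mem_insert_of_mem hi))).mono ?_
    rintro n ⟨i, hi, hP⟩
    rw [Finset.mem_insert] at hi
    rcases hi with rfl | hi
    · exact Or.inl hP
    · exact Or.inr ⟨i, hi, hP⟩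

/-- the integers of the special shape are negligible, the primes excepted -/
theorem small_shape {l : ℕ} (hl3 : 3 ≤ l) (hlo : Odd l) :
    Small (fun n => 2 ≤ n ∧ ¬ n.Prime ∧ Exc2 l n ∧ Shape l n) := by
  intro η hη
  have hl0 : l ≠ 0 := by omega
  obtain ⟨S₀, x₁, h1⟩ := tail hl0 (show 0 < η / 2 by positivity)
  have h2 : Small (fun n => ∃ p ∈ ((range (l + 1)) ×ˢ (range S₀)).filter
      (fun p : ℕ × ℕ => 2 ≤ p.1 * p.2 ^ 2), Exc2 l n ∧ ∃ q, q.Prime ∧ n = (p.1 * p.2 ^ 2) * q) := by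
    apply small_exists
    intro p hp η hη
    rw [Finset.mem_filter] at hp
    exact fixed_t hl3 hlo hp.2 hη
  have h3 : Small (fun n => ∃ e s : ℕ, e ∣ l ∧ n = e * s ^ 2) := fun η hη => square_shape hl0 hη
  obtain ⟨x₂, h4⟩ := (h2.or h3) (η / 2) (by positivity)
  refine ⟨max x₁ x₂, fun x hx => ?_⟩
  have h5 := h1 x (le_trans (le_max_left _ _) hx)
  have h6 := h4 x (le_trans (le_max_right _ _) hx)
  have h7 : cnt (fun n => 2 ≤ n ∧ ¬ n.Prime ∧ Exc2 l n ∧ Shape l n) x ≤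
      cnt (fun n => (∃ e s q : ℕ, e ∣ l ∧ S₀ ≤ s ∧ q.Prime ∧ n = e * s ^ 2 * q) ∨
        ((∃ p ∈ ((range (l + 1)) ×ˢ (range S₀)).filter
          (fun p : ℕ × ℕ => 2 ≤ p.1 * p.2 ^ 2), Exc2 l n ∧ ∃ q, q.Prime ∧ n = (p.1 * p.2 ^ 2) * q) ∨
        (∃ e s : ℕ, e ∣ l ∧ n = e * s ^ 2))) x := by
    apply cnt_mono
    rintro n ⟨hn2, hnp, hexc, e, s, q, hel, hq, hn⟩
    rcases hq with rfl | hq
    · right; right
      exact ⟨e, s, hel, by rw [hn, mul_one]⟩
    · by_cases hs : S₀ ≤ s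
      · left
        exact ⟨e, s, q, hel, hs, hq, hn⟩
      · right; left
        push Not at hs
        refine ⟨(e, s), ?_, hexc, q, hq, hn⟩
        rw [Finset.mem_filter, Finset.mem_product, Finset.mem_range, Finset.mem_range]
        refine ⟨⟨Nat.lt_succ_of_le (Nat.le_of_dvd (by omega) hel), hs⟩, ?_⟩
        by_contra hlt
        push Not at hlt
        have h8 : e * s ^ 2 = 0 ∨ e * s ^ 2 = 1 := by
          have : e * s ^ 2 < 2 := hlt
          omega
        rcases h8 with h8 | h8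
        · rw [h8, zero_mul] at hn; omega
        · rw [h8, one_mul] at hn; exact hnp (hn ▸ hq)
  refine h7.trans ((cnt_or _ _ x).trans ?_)
  linarith

theorem main_composite {l : ℕ} (hl3 : 3 ≤ l) (hlo : Odd l) (hlc : ¬ l.Prime) :
    Small (fun n => 2 ≤ n ∧ ¬ n.Prime ∧ Exc2 l n) := by
  obtain ⟨c, hc, hfew⟩ := nt3 hl3 hlo hlc
  have h1 : Small (fun n => 1 ≤ n ∧ Exc l n ∧ ¬ Shape l n) := fun η hη =>
    few_small (by linarith) hfew hη
  refine (h1.or (small_shape hl3 hlo)).mono ?_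
  rintro n ⟨hn, hnp, hexc⟩
  by_cases hs : Shape l n
  · exact Or.inr ⟨hn, hnp, hexc, hs⟩
  · exact Or.inl ⟨by omega, exc_of_exc2 hlo hexc, hs⟩

theorem main_prime {l : ℕ} (hl : l.Prime) (hl4 : l % 4 = 3) :
    Small (fun n => 2 ≤ n ∧ (n % 4 = 1 ∨ n % 4 = 2) ∧ ¬ n.Prime ∧ Exc2 l n) := by
  have hl3 : 3 ≤ l := by omega
  have hlo : Odd l := Nat.odd_iff.mpr (by omega)
  have h1 : Small (fun n => 1 ≤ n ∧ (n % 4 = 1 ∨ n % 4 = 2) ∧ Exc l n ∧ HH l n) := fun η hη =>
    few_small (c := 3 / 2 - 1 / 4) (by norm_num) (nt2' hl hl3 hl4 (by norm_num)) hη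
  refine (h1.or (small_shape hl3 hlo)).mono ?_
  rintro n ⟨hn, hn4, hnp, hexc2⟩
  have hexc := exc_of_exc2 hlo hexc2
  by_cases hH : HH l n
  · exact Or.inl ⟨by omega, hn4, hexc, hH⟩
  · right
    refine ⟨hn, hnp, hexc2, ?_⟩
    by_cases hsq : IsSq n
    · obtain ⟨b, hb⟩ := hsq
      exact ⟨1, b, 1, one_dvd l, Or.inl rfl, by rw [one_mul, mul_one, hb]⟩
    · by_contra hshape
      apply hH
      refine HH_of_exc hn hexc hsq ?_
      intro s q hq hnq
      exact hshape ⟨1, s, q, one_dvd l, Or.inr hq, by rw [one_mul, hnq]⟩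

end Pool.Agent.Lib.MP_79499b_co.PC
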