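import Pool.Agent.Lib.MP_79499b_co.Q38Primes

/-!
# Almost all orders `n ≡ 1, 2 (mod 4)` of planar difference sets in abelian groups are primes

Let `P(x)` and `N(x)` be the numbers of primes and of non-primes `n < x`, `n ≡ 1, 2 (mod 4)`, such
that some abelian group contains a planar difference set of order `n`.  Then
`N(x) ≤ C x / (log x)^(3/2 - ε)` and `N(x) ≤ C P(x) / (log x)^(1/2 - ε)`.
-/

set_option autoImplicit false

namespace Pool.Agent.Lib.MP_79499b_co.PlanarOrdersPrimeOld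

open Pool.Agent.Lib.MP_79499b_co

/-- Some finite abelian group of order `n² + n + 1` contains a planar difference set of order `n`,
that is, a set of `n + 1` elements such that every non-identity element has exactly one
representation as a quotient of two of them. -/
def HasAbelianPlanarDifferenceSet (n : ℕ) : Prop :=
  ∃ (G : Type) (_ : CommGroup G) (_ : Fintype G) (_ : DecidableEq G) (D : Finset G),
    Fintype.card G = n ^ 2 + n + 1 ∧ D.card = n + 1 ∧
    ∀ g : G, g ≠ 1 → ((D ×ˢ D).filter (fun p : G × G => p.1 * p.2⁻¹ = g)).card = 1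

/-- The number of primes `n < x`, `n ≡ 1, 2 (mod 4)`, that are orders of planar difference sets in
abelian groups. -/
noncomputable def primeOrders (x : ℕ) : ℕ :=
  Set.ncard {n : ℕ | 2 ≤ n ∧ n < x ∧ (n % 4 = 1 ∨ n % 4 = 2) ∧ n.Prime ∧
    HasAbelianPlanarDifferenceSet n}

/-- The number of non-primes `n` with `2 ≤ n < x`, `n ≡ 1, 2 (mod 4)`, that are orders of planar
difference sets in abelian groups. -/
noncomputable def nonprimeOrders (x : ℕ) : ℕ :=
  Set.ncard {n : ℕ | 2 ≤ n ∧ n < x ∧ (n % 4 = 1 ∨ n % 4 = 2) ∧ ¬ n.Prime ∧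
    HasAbelianPlanarDifferenceSet n}

theorem result (ε : ℝ) (hε : 0 < ε) :
    ∃ C : ℝ, ∀ x : ℕ, 3 ≤ x →
      (nonprimeOrders x : ℝ) ≤ C * (x / (Real.log x) ^ (3 / 2 - ε)) ∧
      (nonprimeOrders x : ℝ) ≤ C * (primeOrders x / (Real.log x) ^ (1 / 2 - ε)) := by
  have h1 : Q38.Few (fun n => 2 ≤ n ∧ (n % 4 = 1 ∨ n % 4 = 2) ∧ ¬ n.Prime ∧
      HasAbelianPlanarDifferenceSet n) (3 / 2 - ε) := by
    refine ((Q38.squares (3 / 2 - ε)).or (Q38.nt2' Nat.prime_three le_rfl rfl hε)).mono ?_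
    rintro n ⟨hn, h4, hnp, G, _, _, _, D, hG, hD, hlam⟩
    by_cases hsq : Q38.IsSq n
    · exact Or.inl hsq
    · exact Or.inr ⟨by omega, h4, Q38.planar_facts hn D hG hD hlam hsq hnp⟩
  obtain ⟨C, hC0, hC⟩ := h1
  obtain ⟨c, hc, hlow⟩ := Q38.primes_lower
  have hN : ∀ x : ℕ, (nonprimeOrders x : ℝ) = Q38.cnt (fun n => 2 ≤ n ∧
      (n % 4 = 1 ∨ n % 4 = 2) ∧ ¬ n.Prime ∧ HasAbelianPlanarDifferenceSet n) x := by
    intro x
    unfold Q38.cnt nonprimeOrders
    congr 2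
    ext n
    constructor
    · rintro ⟨h4, h5, h6⟩; exact ⟨h5, h4, h6⟩
    · rintro ⟨h5, h4, h6⟩; exact ⟨h4, h5, h6⟩
  have hP : ∀ x : ℕ, Q38.cnt (fun n => n.Prime ∧ (n % 4 = 1 ∨ n % 4 = 2)) x ≤
      (primeOrders x : ℝ) := by
    intro x
    unfold Q38.cnt primeOrders
    have hsub : {n : ℕ | n < x ∧ n.Prime ∧ (n % 4 = 1 ∨ n % 4 = 2)} ⊆
        {n : ℕ | 2 ≤ n ∧ n < x ∧ (n % 4 = 1 ∨ n % 4 = 2) ∧ n.Prime ∧
          HasAbelianPlanarDifferenceSet n} := by
      rintro n ⟨h3, h4, h5⟩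
      exact ⟨h4.two_le, h3, h5, h4, Q38.singer_prime h4⟩
    exact_mod_cast Set.ncard_le_ncard hsub ((Set.finite_lt_nat x).subset fun n hn => hn.2.1)
  refine ⟨max C (C / c), fun x hx => ?_⟩
  have hx3 : (3 : ℝ) ≤ x := by exact_mod_cast hx
  have hlog : (1 : ℝ) < Real.log x := by
    rw [Real.lt_log_iff_exp_lt (by positivity)]
    have := Real.exp_one_lt_d9
    linarith
  have hlog0 : (0 : ℝ) < Real.log x := by linarith
  have hx0 : (0 : ℝ) < x := by linarith
  have h3 := hC x hx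
  rw [← hN] at h3
  have hpos : (0 : ℝ) < (Real.log x) ^ (3 / 2 - ε) := Real.rpow_pos_of_pos hlog0 _
  have hpos' : (0 : ℝ) < (Real.log x) ^ (1 / 2 - ε) := Real.rpow_pos_of_pos hlog0 _
  refine ⟨h3.trans (mul_le_mul_of_nonneg_right (le_max_left _ _) (by positivity)), ?_⟩
  have h4 := (hlow x hx).trans (hP x)
  have h5 : (Real.log x) ^ (3 / 2 - ε) = Real.log x * (Real.log x) ^ (1 / 2 - ε) := by
    rw [show (3 / 2 - ε : ℝ) = 1 + (1 / 2 - ε) by ring, Real.rpow_add hlog0, Real.rpow_one]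
  calc (nonprimeOrders x : ℝ) ≤ C * (x / (Real.log x) ^ (3 / 2 - ε)) := h3
    _ = (C / c) * ((c * (x / Real.log x)) / (Real.log x) ^ (1 / 2 - ε)) := by
        rw [h5]
        field_simp
    _ ≤ (C / c) * (primeOrders x / (Real.log x) ^ (1 / 2 - ε)) := by
        apply mul_le_mul_of_nonneg_left _ (by positivity)
        exact div_le_div_of_nonneg_right h4 hpos'.le
    _ ≤ _ := mul_le_mul_of_nonneg_right (le_max_right _ _) (by positivity)

end Pool.Agent.Lib.MP_79499b_co.PlanarOrdersPrimeOld
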