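import Pool.Agent.Lib.MP_79499b_co.Q38Char

/-!
# Second moments of Jacobi symbols
-/

namespace Pool.Agent.Lib.MP_79499b_co.Q38

open Finset
open scoped NumberTheorySymbols

lemma exists_neg {p c : ℕ} (hp : p.Prime) (hp2 : p ≠ 2) (hc : 0 < c) (hpc : ¬ p ∣ c) :
    ∃ n₀ : ℕ, n₀.Coprime (p * c) ∧ J(n₀ | p * c) = -1 := by
  have : Fact p.Prime := ⟨hp⟩
  obtain ⟨b, hb⟩ : ∃ b : ZMod p, ¬ IsSquare b := FiniteField.exists_nonsquare (by
    rw [ZMod.ringChar_zmod_n]; exact hp2)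
  have hcop : p.Coprime c := (Nat.Prime.coprime_iff_not_dvd hp).mpr hpc
  obtain ⟨n₀, hn1, hn2⟩ := Nat.chineseRemainder hcop b.val 1
  have hb0 : b ≠ 0 := by rintro rfl; exact hb ⟨0, by simp⟩
  have hnb : ((n₀ : ℕ) : ZMod p) = b := by
    have h2 : ((n₀ : ℕ) : ZMod p) = ((b.val : ℕ) : ZMod p) :=
      (ZMod.natCast_eq_natCast_iff _ _ _).mpr hn1
    rw [h2, ZMod.natCast_zmod_val]
  have hleg : J(n₀ | p) = -1 := by
    rw [← jacobiSym.legendreSym.to_jacobiSym, legendreSym.eq_neg_one_iff]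
    simpa [hnb] using hb
  refine ⟨n₀, ?_, ?_⟩
  · have h5 : n₀.Coprime c := by
      have h6 : n₀.gcd c = (1 : ℕ).gcd c := Nat.ModEq.gcd_eq hn2
      rw [Nat.Coprime, h6, Nat.gcd_one_left]
    have h6 : n₀.Coprime p := by
      rw [Nat.coprime_comm, Nat.Prime.coprime_iff_not_dvd hp]
      intro h
      apply hb0
      rw [← hnb]
      exact (ZMod.natCast_eq_zero_iff _ _).mpr h
    exact Nat.Coprime.mul_right h6 h5
  · rw [jacobiSym.mul_right' _ hp.ne_zero hc.ne', hleg]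
    have h7 : J((n₀ : ℤ) | c) = J((1 : ℤ) | c) := by
      apply jacobiSym.mod_left'
      exact_mod_cast hn2
    rw [h7, jacobiSym.one_left]; norm_num

lemma exists_neg_of_ne {a b : ℕ} (ha : Squarefree a) (hb : Squarefree b) (hao : Odd a)
    (hbo : Odd b) (hab : a ≠ b) : ∃ n₀ : ℕ, n₀.Coprime (a * b) ∧ J(n₀ | a * b) = -1 := by
  -- a prime dividing exactly one
  have key : ∀ {a b : ℕ}, Squarefree a → Squarefree b → Odd a → Odd b →
      (∃ p, p.Prime ∧ p ∣ a ∧ ¬ p ∣ b) →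
      ∃ n₀ : ℕ, n₀.Coprime (a * b) ∧ J(n₀ | a * b) = -1 := by
    rintro a b ha hb hao hbo ⟨p, hp, ⟨c, rfl⟩, hpb⟩
    have hp2 : p ≠ 2 := by
      rintro rfl
      rw [Nat.odd_mul] at hao
      exact absurd hao.1 (by decide)
    have hc : 0 < c := Nat.pos_of_ne_zero (by rintro rfl; simp at ha)
    have hpc : ¬ p ∣ c := by
      rw [← Nat.Prime.coprime_iff_not_dvd hp]
      exact Nat.coprime_of_squarefree_mul ha
    rw [mul_assoc]
    refine exists_neg hp hp2 (Nat.mul_pos hc hbo.pos) ?_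
    intro h
    rcases (Nat.Prime.dvd_mul hp).mp h with h | h
    · exact hpc h
    · exact hpb h
  by_cases h : ∃ p, p.Prime ∧ p ∣ a ∧ ¬ p ∣ b
  · exact key ha hb hao hbo h
  · by_cases h' : ∃ p, p.Prime ∧ p ∣ b ∧ ¬ p ∣ a
    · rw [mul_comm]
      exact key hb ha hbo hao h'
    · exfalso
      push Not at h h'
      apply hab
      have h1 : a.primeFactors = b.primeFactors := by
        ext p
        rw [Nat.mem_primeFactors, Nat.mem_primeFactors]
        constructor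
        · rintro ⟨hp, hpa, _⟩; exact ⟨hp, h p hp hpa, hb.ne_zero⟩
        · rintro ⟨hp, hpb, _⟩; exact ⟨hp, h' p hp hpb, ha.ne_zero⟩
      rw [← Nat.prod_primeFactors_of_squarefree ha, ← Nat.prod_primeFactors_of_squarefree hb, h1]

lemma jacobi_left_periodic (b n : ℕ) : ((J(((n % b : ℕ) : ℤ) | b) : ℤ) : ℝ) = ((J((n : ℤ) | b) : ℤ) : ℝ) := by
  congr 1
  apply jacobiSym.mod_left'
  push_cast
  exact Int.emod_emod_of_dvd _ (dvd_refl _)

lemma abs_jac_le (a : ℤ) (n : ℕ) : |((J(a | n) : ℤ) : ℝ)| ≤ 1 := by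
  rcases jacobiSym.trichotomy a n with h | h | h <;> rw [h] <;> simp

/-- correlation of two distinct Jacobi symbols -/
lemma abs_sum_jac_mul_le {a b : ℕ} (ha : Squarefree a) (hb : Squarefree b) (hao : Odd a)
    (hbo : Odd b) (hab : a ≠ b) {M N : ℕ} (hMN : M ≤ N) :
    |∑ m ∈ Ico M N, ((J((m : ℤ) | a) : ℤ) : ℝ) * ((J((m : ℤ) | b) : ℤ) : ℝ)| ≤ 2 * (a * b) := by
  obtain ⟨n₀, h1, h2⟩ := exists_neg_of_ne ha hb hao hbo hab
  have hpos : 0 < a * b := Nat.mul_pos hao.pos hbo.pos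
  have h3 : ∀ m : ℕ, ((J((m : ℤ) | a) : ℤ) : ℝ) * ((J((m : ℤ) | b) : ℤ) : ℝ) =
      ((J((m : ℤ) | a * b) : ℤ) : ℝ) := by
    intro m
    rw [jacobiSym.mul_right' _ hao.pos.ne' hbo.pos.ne']
    push_cast; ring
  simp only [h3]
  have h4 := norm_sum_Ico_le hpos (fun m : ℕ => ((J((m : ℤ) | a * b) : ℤ) : ℝ))
    (fun n => jacobi_left_periodic (a * b) n) (by
      refine zero_sum hpos (fun m : ℕ => ((J((m : ℤ) | a * b) : ℤ) : ℝ))
        (fun n => jacobi_left_periodic (a * b) n) (fun m n => ?_) h1 ?_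
      · push_cast
        rw [jacobiSym.mul_left]
        push_cast; ring
      · change ((J((n₀ : ℤ) | a * b) : ℤ) : ℝ) ≠ 1
        rw [h2]; norm_num)
    (fun n => by rw [Real.norm_eq_abs]; exact abs_jac_le _ _) hMN
  rw [Real.norm_eq_abs] at h4
  calc _ ≤ _ := h4
    _ = 2 * (a * b) := by push_cast; ring

/-- the large sieve type inequality -/
theorem second_moment (A : Finset ℕ) (hsq : ∀ a ∈ A, Squarefree a) (hodd : ∀ a ∈ A, Odd a)
    (α : ℕ → ℝ) (hα : ∀ a ∈ A, |α a| ≤ 1 / a) (N H : ℕ) :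
    ∑ m ∈ Ico N (N + H), (∑ a ∈ A, α a * ((J((m : ℤ) | a) : ℤ) : ℝ)) ^ 2 ≤
      H * ∑ a ∈ A, 1 / (a : ℝ) ^ 2 + 2 * (A.card : ℝ) ^ 2 := by
  classical
  have h1 : ∀ m : ℕ, (∑ a ∈ A, α a * ((J((m : ℤ) | a) : ℤ) : ℝ)) ^ 2 =
      ∑ a ∈ A, ∑ b ∈ A, (α a * α b) * (((J((m : ℤ) | a) : ℤ) : ℝ) * ((J((m : ℤ) | b) : ℤ) : ℝ)) := by
    intro m
    rw [pow_two, Finset.sum_mul_sum]
    refine Finset.sum_congr rfl fun a _ => Finset.sum_congr rfl fun b _ => ?_
    ring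
  simp only [h1]
  rw [Finset.sum_comm]
  have h2 : ∀ a ∈ A, ∑ m ∈ Ico N (N + H), ∑ b ∈ A, (α a * α b) *
      (((J((m : ℤ) | a) : ℤ) : ℝ) * ((J((m : ℤ) | b) : ℤ) : ℝ)) ≤
      H * (1 / (a : ℝ) ^ 2) + 2 * A.card := by
    intro a ha
    rw [Finset.sum_comm]
    have ha0 : (0 : ℝ) < a := by exact_mod_cast (hodd a ha).pos
    have h3 : ∀ b ∈ A, ∑ m ∈ Ico N (N + H), (α a * α b) *
        (((J((m : ℤ) | a) : ℤ) : ℝ) * ((J((m : ℤ) | b) : ℤ) : ℝ)) ≤
        (if b = a then H * (1 / (a : ℝ) ^ 2) else 0) + 2 := by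
      intro b hb
      have hb0 : (0 : ℝ) < b := by exact_mod_cast (hodd b hb).pos
      rw [← Finset.mul_sum]
      by_cases hab : b = a
      · subst hab
        rw [if_pos rfl]
        have h4 : ∑ m ∈ Ico N (N + H), (((J((m : ℤ) | b) : ℤ) : ℝ) * ((J((m : ℤ) | b) : ℤ) : ℝ)) ≤ H := by
          calc _ ≤ ∑ m ∈ Ico N (N + H), (1 : ℝ) := by
                refine Finset.sum_le_sum fun m _ => ?_
                have := abs_jac_le (m : ℤ) b
                have h5 := abs_le.mp this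
                nlinarith [h5.1, h5.2]
            _ = H := by simp
        have h6 : 0 ≤ ∑ m ∈ Ico N (N + H), (((J((m : ℤ) | b) : ℤ) : ℝ) * ((J((m : ℤ) | b) : ℤ) : ℝ)) :=
          Finset.sum_nonneg fun m _ => mul_self_nonneg _
        have h7 : α b * α b ≤ 1 / (b : ℝ) ^ 2 := by
          have h8 := hα b hb
          calc α b * α b = |α b| * |α b| := (abs_mul_abs_self _).symm
            _ ≤ (1 / b) * (1 / b) := mul_le_mul h8 h8 (abs_nonneg _) (by positivity)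
            _ = 1 / (b : ℝ) ^ 2 := by field_simp
        have h9 : 0 ≤ α b * α b := mul_self_nonneg _
        calc α b * α b * _ ≤ 1 / (b : ℝ) ^ 2 * H := mul_le_mul h7 h4 h6 (by positivity)
          _ ≤ H * (1 / (b : ℝ) ^ 2) + 2 := by linarith [mul_comm (1 / (b : ℝ) ^ 2) (H : ℝ)]
      · rw [if_neg hab, zero_add]
        have h4 := abs_sum_jac_mul_le (hsq a ha) (hsq b hb) (hodd a ha) (hodd b hb)
          (fun h => hab h.symm) (Nat.le_add_right N H)
        calc _ ≤ |(α a * α b) * ∑ m ∈ Ico N (N + H),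
              (((J((m : ℤ) | a) : ℤ) : ℝ) * ((J((m : ℤ) | b) : ℤ) : ℝ))| := le_abs_self _
          _ = |α a| * |α b| * |∑ m ∈ Ico N (N + H),
              (((J((m : ℤ) | a) : ℤ) : ℝ) * ((J((m : ℤ) | b) : ℤ) : ℝ))| := by
              rw [abs_mul, abs_mul]
          _ ≤ (1 / a) * (1 / b) * (2 * (a * b)) :=
              mul_le_mul (mul_le_mul (hα a ha) (hα b hb) (abs_nonneg _) (by positivity)) h4
                (abs_nonneg _) (by positivity)
          _ = 2 := by field_simp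
    refine (Finset.sum_le_sum h3).trans ?_
    rw [Finset.sum_add_distrib, Finset.sum_ite_eq' A a, if_pos ha]
    simp only [Finset.sum_const, nsmul_eq_mul]
    linarith [mul_comm (A.card : ℝ) 2]
  refine le_trans (le_of_eq ?_) (le_trans (Finset.sum_le_sum h2) (le_of_eq ?_))
  · rw [Finset.sum_comm]
  · rw [Finset.sum_add_distrib, ← Finset.mul_sum]
    simp only [Finset.sum_const, nsmul_eq_mul]
    ring

end Pool.Agent.Lib.MP_79499b_co.Q38
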