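import Mathlib

/-!
# Periodic completely multiplicative functions: zero mean and bounded partial sums
-/

namespace Pool.Agent.Lib.MP_79499b_co.Q38

open Finset

/-- sum of a periodic function over a shifted period -/
lemma sum_Ico_period {E : Type*} [AddCommMonoid E] {Q : ℕ} (f : ℕ → E)
    (hper : ∀ n, f (n % Q) = f n) (c : ℕ) :
    ∑ n ∈ Ico c (c + Q), f n = ∑ n ∈ range Q, f n := by
  classical
  rw [← Nat.image_Ico_mod c Q, Finset.sum_image]
  · exact Finset.sum_congr rfl fun n _ => (hper n).symm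
  · intro x hx y hy hxy
    exact Nat.mod_injOn_Ico c Q hx hy hxy

/-- a nontrivial completely multiplicative periodic function has zero mean -/
lemma zero_sum {K : Type*} [Field K] {Q : ℕ} (hQ : 0 < Q) (f : ℕ → K)
    (hper : ∀ n, f (n % Q) = f n) (hmul : ∀ m n, f (m * n) = f m * f n)
    {n₀ : ℕ} (hcop : n₀.Coprime Q) (hn₀ : f n₀ ≠ 1) : ∑ n ∈ range Q, f n = 0 := by
  classical
  have h1 : ∑ n ∈ range Q, f n = ∑ n ∈ range Q, f (n₀ * n) := by
    symm
    refine Finset.sum_bij_ne_zero (fun n _ _ => (n₀ * n) % Q) ?_ ?_ ?_ ?_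
    · intro n _ _
      exact Finset.mem_range.mpr (Nat.mod_lt _ hQ)
    · intro m hm _ n hn _ h
      have h2 : n₀ * m ≡ n₀ * n [MOD Q] := h
      have h3 := Nat.ModEq.cancel_left_of_coprime (by rwa [Nat.gcd_comm]) h2
      exact Nat.ModEq.eq_of_lt_of_lt h3 (Finset.mem_range.mp hm) (Finset.mem_range.mp hn)
    · intro b hb hb0
      obtain ⟨m, hm⟩ : ∃ m, n₀ * m ≡ b [MOD Q] := by
        have h4 := Nat.exists_mul_mod_eq_of_coprime b hcop.symm.symm
          hQ.ne'
        obtain ⟨m, _, hm⟩ := h4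
        refine ⟨m, ?_⟩
        exact hm
      refine ⟨m % Q, Finset.mem_range.mpr (Nat.mod_lt _ hQ), ?_, ?_⟩
      · have h5 : f (n₀ * (m % Q)) = f b := by
          rw [← hper (n₀ * (m % Q)), Nat.mul_mod, Nat.mod_mod, ← Nat.mul_mod]
          rw [show (n₀ * m) % Q = b % Q from hm, hper]
        rw [h5]; exact hb0
      · rw [Nat.mul_mod, Nat.mod_mod, ← Nat.mul_mod, show (n₀ * m) % Q = b % Q from hm]
        exact Nat.mod_eq_of_lt (Finset.mem_range.mp hb)
    · intro n _ _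
      rw [hper]
  have h2 : ∑ n ∈ range Q, f (n₀ * n) = f n₀ * ∑ n ∈ range Q, f n := by
    rw [Finset.mul_sum]
    exact Finset.sum_congr rfl fun n _ => hmul _ _
  rw [h2] at h1
  have h3 : (f n₀ - 1) * ∑ n ∈ range Q, f n = 0 := by rw [sub_mul, one_mul, ← h1, sub_self]
  rcases mul_eq_zero.mp h3 with h | h
  · exact absurd (sub_eq_zero.mp h) hn₀
  · exact h

/-- partial sums are bounded by the period -/
lemma norm_sum_range_le {E : Type*} [SeminormedAddCommGroup E] {Q : ℕ} (hQ : 0 < Q) (f : ℕ → E)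
    (hper : ∀ n, f (n % Q) = f n) (hzero : ∑ n ∈ range Q, f n = 0) (hf : ∀ n, ‖f n‖ ≤ 1)
    (N : ℕ) : ‖∑ n ∈ range N, f n‖ ≤ Q := by
  induction N using Nat.strong_induction_on with
  | _ N ih =>
    by_cases h : N < Q
    · calc ‖∑ n ∈ range N, f n‖ ≤ ∑ n ∈ range N, ‖f n‖ := norm_sum_le _ _
        _ ≤ ∑ n ∈ range N, (1 : ℝ) := Finset.sum_le_sum fun n _ => hf n
        _ = N := by simp
        _ ≤ Q := by exact_mod_cast h.le
    · push Not at h
      have h1 : ∑ n ∈ range N, f n = ∑ n ∈ range (N - Q), f n := by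
        rw [← Finset.sum_range_add_sum_Ico f (Nat.sub_le N Q)]
        have h2 : N = (N - Q) + Q := by omega
        conv_lhs => rw [h2]
        simp only [Nat.add_sub_cancel]
        rw [sum_Ico_period f hper, hzero, add_zero]
      rw [h1]
      exact ih _ (by omega)

lemma norm_sum_Ico_le {E : Type*} [SeminormedAddCommGroup E] {Q : ℕ} (hQ : 0 < Q) (f : ℕ → E)
    (hper : ∀ n, f (n % Q) = f n) (hzero : ∑ n ∈ range Q, f n = 0) (hf : ∀ n, ‖f n‖ ≤ 1)
    {M N : ℕ} (hMN : M ≤ N) : ‖∑ n ∈ Ico M N, f n‖ ≤ 2 * Q := by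
  rw [Finset.sum_Ico_eq_sub _ hMN]
  calc ‖∑ n ∈ range N, f n - ∑ n ∈ range M, f n‖ ≤
      ‖∑ n ∈ range N, f n‖ + ‖∑ n ∈ range M, f n‖ := norm_sub_le _ _
    _ ≤ Q + Q := add_le_add (norm_sum_range_le hQ f hper hzero hf N)
        (norm_sum_range_le hQ f hper hzero hf M)
    _ = 2 * Q := by ring

end Pool.Agent.Lib.MP_79499b_co.Q38
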