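import Pool.Agent.Lib.MP_79499b_co.Q38Brun
import Pool.Agent.Lib.MP_79499b_co.AlmostAll29

/-!
# The residue classes modulo `u²` which are removed
-/

namespace Pool.Agent.Lib.MP_79499b_co.Q38

open Finset
open scoped Classical

/-- `1 + n + ⋯ + n^(l-1)` -/
def Phi (l n : ℕ) : ℕ := ∑ i ∈ range l, n ^ i

/-- `u ∥ n` -/
def Exact (u n : ℕ) : Prop := u ∣ n ∧ ¬ u ^ 2 ∣ n

/-- the removed classes -/
def Rem (l : ℕ) (E F : ℕ → Prop) (u n : ℕ) : Prop := (E u ∧ Exact u n) ∨ (F u ∧ u ∣ Phi l n)

lemma Phi_modEq {l u a b : ℕ} (h : a ≡ b [MOD u]) : Phi l a ≡ Phi l b [MOD u] := by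
  unfold Phi
  induction l with
  | zero => rfl
  | succ l ih =>
    rw [Finset.sum_range_succ, Finset.sum_range_succ]
    exact Nat.ModEq.add ih (h.pow l)

lemma dvd_Phi_mod {l u n : ℕ} : u ∣ Phi l (n % u) ↔ u ∣ Phi l n :=
  (Nat.ModEq.dvd_iff (Phi_modEq (Nat.mod_modEq n u)) (dvd_refl u))

lemma Rem_periodic (l : ℕ) (E F : ℕ → Prop) (u n : ℕ) :
    Rem l E F u (n % u ^ 2) ↔ Rem l E F u n := by
  unfold Rem Exact
  have h1 : u ∣ n % u ^ 2 ↔ u ∣ n := Nat.dvd_mod_iff (dvd_pow_self u two_ne_zero)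
  have h2 : u ^ 2 ∣ n % u ^ 2 ↔ u ^ 2 ∣ n := Nat.dvd_mod_iff (dvd_refl _)
  have h3 : u ∣ Phi l (n % u ^ 2) ↔ u ∣ Phi l n :=
    Nat.ModEq.dvd_iff (Phi_modEq ((Nat.mod_modEq n (u ^ 2)).of_dvd (dvd_pow_self u two_ne_zero)))
      (dvd_refl u)
  rw [h1, h2, h3]

lemma not_dvd_Phi_of_dvd {l u n : ℕ} (hl : 1 ≤ l) (hu : u.Prime) (h : u ∣ n) : ¬ u ∣ Phi l n := by
  intro h1
  obtain ⟨k, rfl⟩ : ∃ k, l = k + 1 := ⟨l - 1, by omega⟩
  unfold Phi at h1
  rw [Finset.sum_range_succ', pow_zero] at h1
  have h2 : u ∣ ∑ i ∈ range k, n ^ (i + 1) :=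
    Finset.dvd_sum fun i _ => h.trans (dvd_pow_self n (Nat.succ_ne_zero i))
  have h3 := (Nat.dvd_add_right h2).mp h1
  exact hu.one_lt.ne' (Nat.dvd_one.mp h3)

lemma card_exact {u : ℕ} (hu : u.Prime) :
    ((range (u ^ 2)).filter (fun n => Exact u n)).card = u - 1 := by
  have h1 : (range (u ^ 2)).filter (fun n => Exact u n) = (Ioo 0 u).image (fun k => u * k) := by
    ext n
    rw [Finset.mem_filter, Finset.mem_range, Finset.mem_image]
    constructor
    · rintro ⟨h1, ⟨k, rfl⟩, h2⟩
      refine ⟨k, ?_, rfl⟩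
      rw [Finset.mem_Ioo]
      constructor
      · rcases Nat.eq_zero_or_pos k with rfl | h
        · simp at h2
        · exact h
      · rw [pow_two] at h1
        exact Nat.lt_of_mul_lt_mul_left h1
    · rintro ⟨k, hk, rfl⟩
      rw [Finset.mem_Ioo] at hk
      refine ⟨?_, dvd_mul_right u k, ?_⟩
      · rw [pow_two]; exact Nat.mul_lt_mul_of_pos_left hk.2 hu.pos
      · rw [pow_two]
        intro h
        have := Nat.dvd_of_mul_dvd_mul_left hu.pos h
        exact absurd (Nat.le_of_dvd hk.1 this) (by omega)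
  rw [h1, Finset.card_image_of_injective _ (fun a b h => Nat.eq_of_mul_eq_mul_left hu.pos h),
    Nat.card_Ioo]
  omega

/-- the number of roots modulo `u` -/
noncomputable def nroots (l u : ℕ) : ℕ := ((range u).filter (fun n => u ∣ Phi l n)).card

lemma nroots_le {l u : ℕ} (hl : 1 ≤ l) (hu : u.Prime) : nroots l u ≤ l := by
  have : Fact u.Prime := ⟨hu⟩
  unfold nroots
  have h1 : ((range u).filter (fun n => u ∣ Phi l n)).card ≤
      (Polynomial.nthRoots l (1 : ZMod u)).toFinset.card := by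
    refine Finset.card_le_card_of_injOn (fun n => (n : ZMod u)) ?_ ?_
    · intro n hn
      rw [Finset.mem_coe, Finset.mem_filter] at hn
      simp only [Finset.mem_coe, Multiset.mem_toFinset]
      rw [Polynomial.mem_nthRoots (by omega)]
      have h2 : ((Phi l n : ℕ) : ZMod u) = 0 := (ZMod.natCast_eq_zero_iff _ _).mpr hn.2
      unfold Phi at h2
      push_cast at h2
      have h3 := geom_sum_mul (n : ZMod u) l
      rw [h2, zero_mul] at h3
      exact (sub_eq_zero.mp h3.symm)
    · intro a ha b hb h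
      rw [Finset.mem_coe, Finset.mem_filter, Finset.mem_range] at ha hb
      simp only at h
      rw [ZMod.natCast_eq_natCast_iff] at h
      exact Nat.ModEq.eq_of_lt_of_lt h ha.1 hb.1
  refine h1.trans ((Multiset.toFinset_card_le _).trans (Polynomial.card_nthRoots l 1))

lemma le_nroots {l u : ℕ} (hl : l.Prime) (hu : u.Prime) (h : u % l = 1) : l - 1 ≤ nroots l u := by
  have : Fact u.Prime := ⟨hu⟩
  have : Fact l.Prime := ⟨hl⟩
  have hdvd : l ∣ u - 1 := (Nat.modEq_iff_dvd' hu.one_lt.le).mp (by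
    rw [Nat.ModEq, h, Nat.mod_eq_of_lt hl.one_lt])
  have hcard : Fintype.card (ZMod u)ˣ = u - 1 := ZMod.card_units u
  obtain ⟨ζ, hζ⟩ := exists_prime_orderOf_dvd_card (G := (ZMod u)ˣ) l (by rw [hcard]; exact hdvd)
  unfold nroots
  have h1 : (Ico 1 l).card ≤ ((range u).filter (fun n => u ∣ Phi l n)).card := by
    refine Finset.card_le_card_of_injOn (fun i => ((ζ ^ i : (ZMod u)ˣ) : ZMod u).val) ?_ ?_
    · intro i hi
      rw [Finset.mem_coe, Finset.mem_Ico] at hi
      rw [Finset.mem_coe, Finset.mem_filter, Finset.mem_range]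
      refine ⟨ZMod.val_lt _, ?_⟩
      rw [← ZMod.natCast_eq_zero_iff]
      unfold Phi
      push_cast
      rw [ZMod.natCast_zmod_val]
      have h2 : ((ζ ^ i : (ZMod u)ˣ) : ZMod u) ≠ 1 := by
        intro h3
        have h4 : ζ ^ i = 1 := Units.ext h3
        have h5 := orderOf_dvd_of_pow_eq_one h4
        rw [hζ] at h5
        exact absurd (Nat.le_of_dvd (by omega) h5) (by omega)
      have h3 : ((ζ ^ i : (ZMod u)ˣ) : ZMod u) ^ l = 1 := by
        rw [← Units.val_pow_eq_pow_val, ← pow_mul, mul_comm, pow_mul, ← hζ, pow_orderOf_eq_one,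
          one_pow, Units.val_one]
      have h4 := geom_sum_mul ((ζ ^ i : (ZMod u)ˣ) : ZMod u) l
      rw [h3, sub_self] at h4
      rcases mul_eq_zero.mp h4 with h | h
      · exact h
      · exact absurd (sub_eq_zero.mp h) h2
    · intro i hi j hj hij
      rw [Finset.mem_coe, Finset.mem_Ico] at hi hj
      have h2 : ζ ^ i = ζ ^ j := Units.ext (ZMod.val_injective u hij)
      rw [pow_inj_mod, hζ, Nat.mod_eq_of_lt hi.2, Nat.mod_eq_of_lt hj.2] at h2
      exact h2
  rw [Nat.card_Ico] at h1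
  exact h1

lemma card_dvd_Phi {l u : ℕ} :
    ((range (u ^ 2)).filter (fun n => u ∣ Phi l n)).card = u * nroots l u := by
  have h1 : ∀ k : ℕ, ∑ n ∈ range (u * k), (if u ∣ Phi l n then 1 else 0) = k * nroots l u := by
    intro k
    induction k with
    | zero => simp
    | succ k ih =>
      have h1 : u * (k + 1) = u * k + u := by ring
      rw [← Finset.sum_range_add_sum_Ico _ (show u * k ≤ u * (k + 1) by rw [h1]; omega), ih, h1,
        sum_Ico_period _ (fun n => by simp only [dvd_Phi_mod])]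
      unfold nroots
      rw [Finset.card_filter]
      ring
  rw [Finset.card_filter, pow_two, h1]

/-- the exact number of removed classes -/
lemma card_Rem {l u : ℕ} (hl : 1 ≤ l) (hu : u.Prime) (E F : ℕ → Prop) :
    ((range (u ^ 2)).filter (Rem l E F u)).card =
      (if E u then u - 1 else 0) + (if F u then u * nroots l u else 0) := by
  by_cases hE : E u
  · by_cases hF : F u
    · rw [if_pos hE, if_pos hF, ← card_exact hu, ← card_dvd_Phi, ← Finset.card_union_of_disjoint]
      · congr 1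
        rw [← Finset.filter_or]
        apply Finset.filter_congr
        intro n _
        unfold Rem
        simp [hE, hF]
      · rw [Finset.disjoint_filter]
        intro n _ h1 h2
        exact not_dvd_Phi_of_dvd hl hu h1.1 h2
    · rw [if_pos hE, if_neg hF, ← card_exact hu, add_zero]
      congr 1
      apply Finset.filter_congr
      intro n _
      unfold Rem
      simp [hE, hF]
  · by_cases hF : F u
    · rw [if_neg hE, if_pos hF, ← card_dvd_Phi, zero_add]
      congr 1
      apply Finset.filter_congr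
      intro n _
      unfold Rem
      simp [hE, hF]
    · rw [if_neg hE, if_neg hF, Finset.card_eq_zero, Finset.filter_eq_empty_iff]
      intro n _
      unfold Rem
      simp [hE, hF]

end Pool.Agent.Lib.MP_79499b_co.Q38
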