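import Pool.Agent.Lib.MP_79499b_co.Q38NT

/-!
# The two counting theorems
-/

namespace Pool.Agent.Lib.MP_79499b_co.Q38

open Finset Filter Topology
open scoped Classical NumberTheorySymbols

lemma mem_AA_of {l x n : ℕ} {E : ℕ → Prop} {S R : Finset ℕ} {M : ℕ} (hnx : n < x) (hM : M ∣ n)
    (hE : ∀ u, u.Prime → u < YY l x → u ∉ S → E u → ¬ Exact u n)
    (hR : ∀ p ∈ R, ∀ w, w.Prime → w ∣ Phi l n → J((p : ℤ) | w) ≠ -1) : n ∈ AA l E x M S R := by
  unfold AA
  rw [Finset.mem_filter, Finset.mem_range]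
  refine ⟨hnx, hM, fun u hu => ?_⟩
  rw [UU, Finset.mem_filter, Finset.mem_range] at hu
  obtain ⟨h1, h2, h3⟩ := hu
  rintro (⟨h4, h5⟩ | ⟨⟨_, p, hp, h4⟩, h5⟩)
  · exact hE u h2 h1 h3 h4 h5
  · exact hR p hp u h2 h5 h4

lemma one_div_log_sq {x : ℕ} (hx : 3 ≤ x) :
    (1 : ℝ) / (Real.log x) ^ 2 = Real.exp (-(2 * LL x)) := by
  rw [Real.exp_neg, two_mul, Real.exp_add, exp_LL hx, one_div, pow_two]

/-- Counting theorem 1 -/
theorem nt1 {l : ℕ} (hl : l.Prime) (hl3 : 3 ≤ l) {ε : ℝ} (hε : 0 < ε) :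
    ∃ x₀ : ℕ, ∀ x : ℕ, x₀ ≤ x →
      (((range x).filter (fun n => 1 ≤ n ∧ Exc l n)).card : ℝ) ≤
        x * Real.exp (-((1 - ε) * LL x)) := by
  obtain ⟨k, hk⟩ : ∃ k : ℕ, (1 / 2 : ℝ) ^ k < ε / 8 := exists_pow_lt_of_lt_one (by positivity) (by norm_num)
  have hk' : (1 : ℝ) / 2 ^ k < ε / 8 := by
    rw [one_div_pow] at hk; exact hk
  set δ : ℝ := ε / 8 with hδ
  have hδ0 : 0 < δ := by positivity
  have hl0 : (0 : ℝ) < l := by exact_mod_cast hl.pos
  obtain ⟨x1, hx1⟩ := good_T hl hl3 (show 0 < δ / (8 * l) by positivity)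
  obtain ⟨x2, hx2⟩ := master hl hl3 k (fun _ => False) le_rfl zero_le_one esum_false hδ0
  obtain ⟨x3, hx3⟩ := master hl hl3 k (fun u => u ≠ l) zero_le_one le_rfl (esum_ne l) hδ0
  obtain ⟨C, hC0, hC⟩ := msum_one_le
  obtain ⟨x4, hx4⟩ := eventually_atTop.mp ((YY_facts l k one_pos).and
    ((eventually_pow_le 7 k (show 0 < ε / 2 by positivity)).and
      ((tendsto_LL.eventually_ge_atTop (C + 1)).and (eventually_ge_atTop 3))))
  refine ⟨max (max x1 x2) (max x3 x4), fun x hx => ?_⟩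
  have hxx1 : x1 ≤ x := le_trans (le_trans (le_max_left _ _) (le_max_left _ _)) hx
  have hxx2 : x2 ≤ x := le_trans (le_trans (le_max_right _ _) (le_max_left _ _)) hx
  have hxx3 : x3 ≤ x := le_trans (le_trans (le_max_left _ _) (le_max_right _ _)) hx
  have hxx4 : x4 ≤ x := le_trans (le_trans (le_max_right _ _) (le_max_right _ _)) hx
  obtain ⟨⟨hY3, _, hYup, hYx, hYk, _⟩, hpow, hLC, hx3'⟩ := hx4 x hxx4
  set Y := YY l x with hY
  set L := LL x with hL
  have hYx' : Y ≤ x := by exact_mod_cast hYx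
  obtain ⟨B, hB0, hBsum, hBgood⟩ := hx1 x hxx1 Y hY3 hYx'
  have ht1 : 1 < Real.log x := one_lt_log hx3'
  have hL1 : 1 ≤ L := by linarith
  have hx0 : (0 : ℝ) < x := by
    have : 0 < x := by omega
    exact_mod_cast this
  set c : ℝ := (δ / (8 * l)) * L with hc
  set P := (range Y).filter Nat.Prime with hP
  set S1 := (P.powersetCard k).filter (fun S => ∀ V ⊆ S, V.Nonempty → T l Y (∏ p ∈ V, p) ≤ c) with hS1
  set S2 := P.powerset.filter (fun S => S.card ≤ k) with hS2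
  have hS1mem : ∀ S ∈ S1, (∀ p ∈ S, p.Prime ∧ p < Y) ∧ S.card = k ∧
      ∀ V ⊆ S, V.Nonempty → T l Y (∏ p ∈ V, p) ≤ c := by
    intro S hS
    rw [hS1, Finset.mem_filter, Finset.mem_powersetCard] at hS
    refine ⟨fun p hp => ?_, hS.1.2, hS.2⟩
    have := hS.1.1 hp
    rw [hP, Finset.mem_filter, Finset.mem_range] at this
    exact ⟨this.2, this.1⟩
  have hS2mem : ∀ S ∈ S2, (∀ p ∈ S, p.Prime ∧ p < Y) ∧ S.card ≤ k := by
    intro S hS
    rw [hS2, Finset.mem_filter, Finset.mem_powerset] at hS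
    refine ⟨fun p hp => ?_, hS.2⟩
    have := hS.1 hp
    rw [hP, Finset.mem_filter, Finset.mem_range] at this
    exact ⟨this.2, this.1⟩
  -- the cover
  have hcover : (range x).filter (fun n => 1 ≤ n ∧ Exc l n) ⊆
      (range x).filter (fun n => 1 ≤ n ∧ ∃ b ∈ B, b ∣ n) ∪
      (S1.biUnion (fun S => AA l (fun _ => False) x (∏ p ∈ S, p) S S) ∪
        S2.biUnion (fun S => AA l (fun u => u ≠ l) x (∏ p ∈ S, p) S ∅)) := by
    intro n hn
    rw [Finset.mem_filter, Finset.mem_range] at hn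
    obtain ⟨hnx, hn1, hexc⟩ := hn
    rw [Finset.mem_union, Finset.mem_union]
    by_cases hdisc : ∃ b ∈ B, b ∣ n
    · left
      rw [Finset.mem_filter, Finset.mem_range]
      exact ⟨hnx, hn1, hdisc⟩
    right
    set D := (range Y).filter (fun p => p.Prime ∧ Exact p n ∧ p ≠ l) with hD
    have hDmem : ∀ p ∈ D, p < Y ∧ p.Prime ∧ Exact p n ∧ p ≠ l := by
      intro p hp
      rw [hD, Finset.mem_filter, Finset.mem_range] at hp
      exact hp
    by_cases hcard : k ≤ D.card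
    · left
      obtain ⟨S, hSD, hSk⟩ := Finset.exists_subset_card_eq hcard
      rw [Finset.mem_biUnion]
      refine ⟨S, ?_, ?_⟩
      · rw [hS1, Finset.mem_filter, Finset.mem_powersetCard]
        refine ⟨⟨fun p hp => ?_, hSk⟩, fun V hV hne => ?_⟩
        · have := hDmem p (hSD hp)
          rw [hP, Finset.mem_filter, Finset.mem_range]
          exact ⟨this.1, this.2.1⟩
        · refine T_of_dvd hn1 hnx hBgood hdisc hl hne (fun p hp => ?_) (Or.inl ?_)
          · have := hDmem p (hSD (hV hp))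
            exact ⟨this.2.1, this.2.2.1.1⟩
          · intro hlV
            exact (hDmem l (hSD (hV hlV))).2.2.2 rfl
      · apply mem_AA_of hnx
        · apply Finset.prod_primes_dvd
          · intro p hp; exact (hDmem p (hSD hp)).2.1.prime
          · intro p hp; exact (hDmem p (hSD hp)).2.2.1.1
        · intro u _ _ _ h; exact h.elim
        · intro p hp w hw hwn
          have := hDmem p (hSD hp)
          exact hexc p this.2.1 (by rw [exact_factorization this.2.1 (by omega) this.2.2.1]; exact odd_one) w hw hwn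
    · right
      push Not at hcard
      rw [Finset.mem_biUnion]
      refine ⟨D, ?_, ?_⟩
      · rw [hS2, Finset.mem_filter, Finset.mem_powerset]
        refine ⟨fun p hp => ?_, hcard.le⟩
        have := hDmem p hp
        rw [hP, Finset.mem_filter, Finset.mem_range]
        exact ⟨this.1, this.2.1⟩
      · apply mem_AA_of hnx
        · apply Finset.prod_primes_dvd
          · intro p hp; exact (hDmem p hp).2.1.prime
          · intro p hp; exact (hDmem p hp).2.2.1.1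
        · intro u hu huY huD hul hex
          apply huD
          rw [hD, Finset.mem_filter, Finset.mem_range]
          exact ⟨huY, hu, hex, hul⟩
        · intro p hp; exact absurd hp (Finset.notMem_empty p)
  -- bounds
  have b0 := card_disc_le B x
  have hlt : (1 : ℝ) / (Real.log x) ^ 2 = Real.exp (-(2 * L)) := one_div_log_sq hx3'
  have hD1 : (1 : ℝ) ≤ 2 * L := by linarith
  have hD2 : msum 1 0 Y ≤ 2 * L := by
    have := hC Y hY3
    linarith
  have hprodle : ∀ S : Finset ℕ, (∀ p ∈ S, p.Prime ∧ p < Y) → S.card ≤ k →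
      ((∏ p ∈ S, p : ℕ) : ℝ) ≤ Real.exp (3 / 4 * Real.log x) := by
    intro S hS hSk
    refine (prod_le_exp (fun p hp => (hS p hp).2) hSk (by omega) hYk).trans ?_
    apply Real.exp_le_exp.mpr
    linarith
  have hprodpos : ∀ S : Finset ℕ, (∀ p ∈ S, p.Prime ∧ p < Y) → 0 < ∏ p ∈ S, p :=
    fun S hS => Finset.prod_pos fun p hp => (hS p hp).1.pos
  have b1 : (((S1.biUnion (fun S => AA l (fun _ => False) x (∏ p ∈ S, p) S S)).card : ℕ) : ℝ) ≤
      ∑ S ∈ S1, (x / ((∏ p ∈ S, p : ℕ) : ℝ)) * Real.exp (-((0 + (1 - 1 / 2 ^ k) - δ) * L)) := by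
    apply card_biUnion_real
    intro S hS
    obtain ⟨h1, h2, h3⟩ := hS1mem S hS
    have := hx2 x hxx2 S S (Finset.Subset.refl _) h2.le (fun p hp => (h1 p hp).1) h3 _
      (hprodpos S h1) (not_dvd_prod_of_notMem fun p hp => (h1 p hp).1) (hprodle S h1 h2.le)
    rw [h2] at this
    exact this
  have b2 : (((S2.biUnion (fun S => AA l (fun u => u ≠ l) x (∏ p ∈ S, p) S ∅)).card : ℕ) : ℝ) ≤
      ∑ S ∈ S2, (x / ((∏ p ∈ S, p : ℕ) : ℝ)) * Real.exp (-((1 - δ) * L)) := by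
    apply card_biUnion_real
    intro S hS
    obtain ⟨h1, h2⟩ := hS2mem S hS
    have := hx3 x hxx3 S ∅ (Finset.empty_subset _) h2 (fun p hp => (h1 p hp).1)
      (fun V hV hne => by
        rw [Finset.subset_empty] at hV
        exact absurd hV hne.ne_empty) _
      (hprodpos S h1) (not_dvd_prod_of_notMem fun p hp => (h1 p hp).1) (hprodle S h1 h2)
    have h3 : (1 : ℝ) + (1 - 1 / 2 ^ (∅ : Finset ℕ).card) - δ = 1 - δ := by simp
    rw [h3] at this
    exact this
  have c1 : ∀ (𝒮 : Finset (Finset ℕ)) (e : ℝ), (∀ S ∈ 𝒮, (∀ p ∈ S, p.Prime ∧ p < Y) ∧ S.card ≤ k) →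
      ∑ S ∈ 𝒮, (x / ((∏ p ∈ S, p : ℕ) : ℝ)) * Real.exp e ≤ x * (3 * (2 * L) ^ k) * Real.exp e := by
    intro 𝒮 e h𝒮
    have := sum_prod_inv_le hD1 hD2 𝒮 h𝒮
    calc ∑ S ∈ 𝒮, (x / ((∏ p ∈ S, p : ℕ) : ℝ)) * Real.exp e =
        x * (∑ S ∈ 𝒮, 1 / ((∏ p ∈ S, p : ℕ) : ℝ)) * Real.exp e := by
          rw [Finset.mul_sum, Finset.sum_mul]
          refine Finset.sum_congr rfl fun S _ => ?_
          ring
      _ ≤ _ := by gcongr
  have d1 := c1 S1 (-((0 + (1 - 1 / 2 ^ k) - δ) * L)) (fun S hS =>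
    ⟨(hS1mem S hS).1, (hS1mem S hS).2.1.le⟩)
  have d2 := c1 S2 (-((1 - δ) * L)) hS2mem
  -- exponents
  have hpk : (0 : ℝ) ≤ 1 / 2 ^ k := by positivity
  have e1 : Real.exp (-((0 + (1 - 1 / 2 ^ k) - δ) * L)) ≤ Real.exp (-((1 - ε / 2) * L)) := by
    apply Real.exp_le_exp.mpr
    apply neg_le_neg
    apply mul_le_mul_of_nonneg_right _ (by linarith)
    linarith
  have e2 : Real.exp (-((1 - δ) * L)) ≤ Real.exp (-((1 - ε / 2) * L)) := by
    apply Real.exp_le_exp.mpr
    apply neg_le_neg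
    apply mul_le_mul_of_nonneg_right _ (by linarith)
    linarith
  have e3 : Real.exp (-(2 * L)) ≤ Real.exp (-((1 - ε / 2) * L)) := by
    apply Real.exp_le_exp.mpr
    apply neg_le_neg
    apply mul_le_mul_of_nonneg_right _ (by linarith)
    linarith
  have hA : (1 : ℝ) ≤ (2 * L) ^ k := one_le_pow₀ hD1
  have hcardle : (((range x).filter (fun n => 1 ≤ n ∧ Exc l n)).card : ℝ) ≤
      (((range x).filter (fun n => 1 ≤ n ∧ ∃ b ∈ B, b ∣ n)).card : ℝ) +
      ((((S1.biUnion (fun S => AA l (fun _ => False) x (∏ p ∈ S, p) S S)).card : ℕ) : ℝ) +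
        (((S2.biUnion (fun S => AA l (fun u => u ≠ l) x (∏ p ∈ S, p) S ∅)).card : ℕ) : ℝ)) := by
    have h1 := Finset.card_le_card hcover
    have h2 := h1.trans (Finset.card_union_le _ _)
    have h3 := Finset.card_union_le (S1.biUnion (fun S => AA l (fun _ => False) x (∏ p ∈ S, p) S S))
      (S2.biUnion (fun S => AA l (fun u => u ≠ l) x (∏ p ∈ S, p) S ∅))
    have h4 := h2.trans (Nat.add_le_add_left h3 _)
    exact_mod_cast h4
  set W0 : ℝ := Real.exp (-((1 - ε / 2) * L)) with hW0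
  have hW0pos : 0 < W0 := Real.exp_pos _
  have f0 : (((range x).filter (fun n => 1 ≤ n ∧ ∃ b ∈ B, b ∣ n)).card : ℝ) ≤ x * (2 * L) ^ k * W0 := by
    calc _ ≤ x * ∑ b ∈ B, 1 / (b : ℝ) := b0
      _ ≤ x * Real.exp (-(2 * L)) := by
          rw [← hlt]; exact mul_le_mul_of_nonneg_left hBsum hx0.le
      _ ≤ x * W0 := mul_le_mul_of_nonneg_left e3 hx0.le
      _ ≤ x * (2 * L) ^ k * W0 := by
          apply mul_le_mul_of_nonneg_right _ hW0pos.le
          exact le_mul_of_one_le_right hx0.le hA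
  have f1 := (b1.trans d1).trans (mul_le_mul_of_nonneg_left e1 (show 0 ≤ x * (3 * (2 * L) ^ k) by positivity))
  have f2 := (b2.trans d2).trans (mul_le_mul_of_nonneg_left e2 (show 0 ≤ x * (3 * (2 * L) ^ k) by positivity))
  calc _ ≤ _ := hcardle
    _ ≤ x * (2 * L) ^ k * W0 + (x * (3 * (2 * L) ^ k) * W0 + x * (3 * (2 * L) ^ k) * W0) :=
        add_le_add f0 (add_le_add f1 f2)
    _ = x * (7 * (2 * L) ^ k) * W0 := by ring
    _ ≤ x * Real.exp (ε / 2 * L) * W0 := by
        apply mul_le_mul_of_nonneg_right _ hW0pos.le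
        exact mul_le_mul_of_nonneg_left hpow hx0.le
    _ = x * Real.exp (-((1 - ε) * L)) := by
        rw [hW0, mul_assoc, ← Real.exp_add]
        congr 2
        ring

end Pool.Agent.Lib.MP_79499b_co.Q38
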