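import Pool.Agent.Lib.MP_79499b_co.Q38Weight

/-!
# All but few squarefree integers have small `T`
-/

namespace Pool.Agent.Lib.MP_79499b_co.Q38

open Finset Filter Topology
open scoped NumberTheorySymbols

lemma tendsto_loglog : Tendsto (fun x : ℕ => Real.log (Real.log x)) atTop atTop :=
  Real.tendsto_log_atTop.comp (Real.tendsto_log_atTop.comp tendsto_natCast_atTop_atTop)

lemma tendsto_log_nat : Tendsto (fun x : ℕ => Real.log x) atTop atTop :=
  Real.tendsto_log_atTop.comp tendsto_natCast_atTop_atTop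

/-- `log (A t + K) + C ≤ δ t` eventually -/
lemma eventually_log_le (A K C δ : ℝ) (hA : 0 < A) (hδ : 0 < δ) :
    ∀ᶠ t : ℝ in atTop, Real.log (A * t + K) + C ≤ δ * t := by
  have h1 : ∀ᶠ u : ℝ in atTop, Real.log u ≤ (δ / (4 * A)) * u := by
    have := Real.isLittleO_log_id_atTop.bound (show 0 < δ / (4 * A) by positivity)
    filter_upwards [this, eventually_ge_atTop 1] with u hu hu1
    rw [Real.norm_eq_abs, Real.norm_eq_abs, abs_of_nonneg (Real.log_nonneg hu1)] at hu
    simpa [abs_of_nonneg (show 0 ≤ u by linarith)] using hu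
  have h2 : Tendsto (fun t : ℝ => A * t + K) atTop atTop :=
    tendsto_atTop_add_const_right _ _ (tendsto_id.const_mul_atTop hA)
  filter_upwards [h2.eventually h1, eventually_ge_atTop (K / A), eventually_ge_atTop (2 * C / δ)]
    with t ht ht1 ht2
  rw [div_le_iff₀ hA] at ht1
  rw [div_le_iff₀ hδ] at ht2
  have h3 : (δ / (4 * A)) * (A * t + K) ≤ (δ / (4 * A)) * (2 * (A * t)) := by
    apply mul_le_mul_of_nonneg_left _ (by positivity)
    linarith
  have h4 : (δ / (4 * A)) * (2 * (A * t)) = δ * t / 2 := by field_simp; ring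
  rw [h4] at h3
  linarith

lemma natlog_le (x : ℕ) (hx : 1 ≤ x) : (Nat.log 2 x : ℝ) ≤ 2 * Real.log x := by
  have h1 : ((2 : ℝ)) ^ (Nat.log 2 x) ≤ x := by exact_mod_cast Nat.pow_log_le_self 2 (by omega)
  have h2 := Real.log_le_log (by positivity) h1
  rw [Real.log_pow] at h2
  have h3 := Real.log_two_gt_d9
  have h4 : (0 : ℝ) ≤ Nat.log 2 x := Nat.cast_nonneg _
  nlinarith

theorem good_T {l : ℕ} (hl : l.Prime) (hl3 : 3 ≤ l) {δ : ℝ} (hδ : 0 < δ) :
    ∃ x₀ : ℕ, ∀ x : ℕ, x₀ ≤ x → ∀ Y : ℕ, 3 ≤ Y → Y ≤ x →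
      ∃ B : Finset ℕ, (∀ b ∈ B, 0 < b) ∧ ∑ b ∈ B, 1 / (b : ℝ) ≤ 1 / (Real.log x) ^ 2 ∧
        ∀ b : ℕ, Odd b → Squarefree b → b ≤ x → b ∉ B → ∀ a : ℕ, (a = b ∨ a = 2 * b) →
          a ≠ 1 → (a ≠ l ∨ l % 4 = 3) → T l Y a ≤ δ * Real.log (Real.log x) := by
  obtain ⟨C1, hC10, hC1⟩ := T_le_of_good
  obtain ⟨C2, hC20, hC2⟩ := msum_one_le
  obtain ⟨C3, hC3⟩ := mertens_all
  -- conditions on x
  have hev1 : ∀ᶠ x : ℕ in atTop, Real.log (12 * Real.log (Real.log x) + (Real.log (32 * l) + 4)) + C1 ≤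
      δ * Real.log (Real.log x) :=
    tendsto_loglog.eventually (eventually_log_le 12 _ C1 δ (by norm_num) hδ)
  have hev2 : ∀ᶠ x : ℕ in atTop, Real.log (6 * Real.log (Real.log x) + Real.log 2) +
      (C2 + 9 + (Real.log 128 + C2 + C3)) ≤ δ * Real.log (Real.log x) :=
    tendsto_loglog.eventually (eventually_log_le 6 _ _ δ (by norm_num) hδ)
  have hev3 : ∀ᶠ x : ℕ in atTop, Real.log (1 * Real.log x + 0) + C2 ≤ 1 * Real.log x :=
    tendsto_log_nat.eventually (eventually_log_le 1 0 C2 1 one_pos one_pos)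
  obtain ⟨x₀, hx₀⟩ := eventually_atTop.mp (hev1.and (hev2.and (hev3.and
    (tendsto_log_nat.eventually_ge_atTop 400))))
  refine ⟨max x₀ 3, fun x hx Y hY3 hYx => ?_⟩
  obtain ⟨h1, h2, h3, h4⟩ := hx₀ x (le_trans (le_max_left _ _) hx)
  have hx3 : 3 ≤ x := le_trans (le_max_right _ _) hx
  set Lx := Real.log x with hLx
  set Z : ℕ := ⌈Lx ^ 6⌉₊ with hZ
  have hLx1 : 1 ≤ Lx := by linarith
  have hLx0 : 0 < Lx := by linarith
  have hZlow : Lx ^ 6 ≤ Z := Nat.le_ceil _
  have hZup : (Z : ℝ) ≤ 2 * Lx ^ 6 := by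
    have : (Z : ℝ) < Lx ^ 6 + 1 := Nat.ceil_lt_add_one (by positivity)
    have h5 : 1 ≤ Lx ^ 6 := one_le_pow₀ hLx1
    linarith
  have hZ400 : (400 : ℝ) ≤ Z := by
    have : Lx ≤ Lx ^ 6 := le_self_pow₀ hLx1 (by norm_num)
    linarith
  have hZ400' : 400 ≤ Z := by exact_mod_cast hZ400
  have hZ1 : 1 ≤ Z := by omega
  refine ⟨badSet l Y Z x, fun b hb => (mem_badSet.mp hb).2.1.1.pos, ?_, ?_⟩
  · -- weight
    refine (bad_weight hl3 hZ1).trans ?_
    have hY1 : 1 ≤ Y := by omega
    have hlogY : Real.log Y ≤ Lx := Real.log_le_log (by positivity) (by exact_mod_cast hYx)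
    have hlogY1 : 1 < Real.log Y := one_lt_log hY3
    have hm : msum 1 0 Y ≤ Lx := by
      have h5 := hC2 Y hY3
      have h6 : Real.log (Real.log Y) ≤ Real.log Lx := Real.log_le_log (by linarith) hlogY
      have h7 : Real.log (1 * Lx + 0) = Real.log Lx := by ring_nf
      rw [h7, one_mul] at h3
      linarith
    have hm0 : 0 ≤ msum 1 0 Y := Finset.sum_nonneg fun w _ => by positivity
    have hn1 : (Nat.log 2 x : ℝ) + 1 ≤ 3 * Lx := by
      have := natlog_le x (by omega)
      linarith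
    have hn2 : (Nat.log 2 Y : ℝ) + 1 ≤ 3 * Lx := by
      have := natlog_le Y hY1
      linarith
    have hs : Real.sqrt (6 * (msum 1 0 Y * ((Nat.log 2 Y : ℝ) + 1))) ≤ 5 * Lx := by
      apply Real.sqrt_le_iff.mpr
      refine ⟨by positivity, ?_⟩
      have h5 : msum 1 0 Y * ((Nat.log 2 Y : ℝ) + 1) ≤ Lx * (3 * Lx) :=
        mul_le_mul hm hn2 (by positivity) hLx0.le
      nlinarith
    calc ((Nat.log 2 x : ℝ) + 1) *
          ((12 + 8 * Real.sqrt (6 * (msum 1 0 Y * ((Nat.log 2 Y : ℝ) + 1)))) / Z)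
        ≤ (3 * Lx) * ((12 + 8 * (5 * Lx)) / Lx ^ 6) := by
          gcongr
      _ ≤ (3 * Lx) * ((52 * Lx) / Lx ^ 6) := by
          gcongr
          linarith
      _ = 156 / Lx ^ 4 := by field_simp; norm_num
      _ ≤ 1 / Lx ^ 2 := by
          rw [div_le_div_iff₀ (by positivity) (by positivity)]
          have : Lx ^ 4 = Lx ^ 2 * Lx ^ 2 := by ring
          rw [this]
          have h5 : 156 ≤ Lx ^ 2 := by nlinarith
          have h6 : 0 < Lx ^ 2 := by positivity
          nlinarith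
  · intro b hbodd hbsq hbx hbB a ha ha1 hal
    by_cases hbZ : Z ^ 2 ≤ b
    · -- large, not bad
      have hnb : ¬ IsBad l Y Z b := fun h => hbB (mem_badSet.mpr ⟨hbx, ⟨hbodd, hbsq⟩, hbZ, h⟩)
      set j := Nat.log 2 b with hj
      have hbj : b < 2 ^ (j + 1) := Nat.lt_pow_succ_log_self (by norm_num) b
      have hj16 : 16 ≤ j := by
        by_contra hcon
        push Not at hcon
        have h5 : 2 ^ (j + 1) ≤ 2 ^ 16 := Nat.pow_le_pow_right (by norm_num) (by omega)
        have h6 : 400 ^ 2 ≤ Z ^ 2 := Nat.pow_le_pow_left hZ400' 2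
        omega
      have hZV : Z ≤ 2 ^ (8 * j) := by
        calc Z ≤ Z ^ 2 := Nat.le_self_pow (by norm_num) Z
          _ ≤ b := hbZ
          _ ≤ 2 ^ (j + 1) := hbj.le
          _ ≤ 2 ^ (8 * j) := Nat.pow_le_pow_right (by norm_num) (by omega)
      have h5 := T_le_of_not_bad hl3 hbodd hZV hnb
      have h6 : T l Y a ≤ msum 1 0 Z + 9 + (msum 1 0 (2 ^ (8 * j)) - msum 1 0 (2 ^ (j / 8))) := by
        rcases ha with rfl | rfl
        · exact h5.1
        · exact h5.2
      have hU3 : 3 ≤ 2 ^ (j / 8) := by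
        calc 3 ≤ 2 ^ 2 := by norm_num
          _ ≤ 2 ^ (j / 8) := Nat.pow_le_pow_right (by norm_num) (by omega)
      have hV3 : 3 ≤ 2 ^ (8 * j) := by
        calc 3 ≤ 2 ^ 2 := by norm_num
          _ ≤ 2 ^ (8 * j) := Nat.pow_le_pow_right (by norm_num) (by omega)
      have h7 := hC2 _ hV3
      have h8 := hC3 _ hU3
      have h9 := hC2 Z (by omega)
      have hlog2 : 0 < Real.log 2 := Real.log_pos (by norm_num)
      have h10 : Real.log (Real.log ((2 ^ (8 * j) : ℕ) : ℝ)) ≤
          Real.log (Real.log ((2 ^ (j / 8) : ℕ) : ℝ)) + Real.log 128 := by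
        have hj8 : (0 : ℝ) < ((j / 8 : ℕ) : ℝ) := by
          have : 0 < j / 8 := by omega
          exact_mod_cast this
        have hj0 : (0 : ℝ) < ((8 * j : ℕ) : ℝ) := by
          have : 0 < 8 * j := by omega
          exact_mod_cast this
        rw [Nat.cast_pow, Nat.cast_pow, Nat.cast_ofNat, Real.log_pow, Real.log_pow,
          ← Real.log_mul (mul_pos hj8 hlog2).ne' (by norm_num)]
        apply Real.log_le_log (mul_pos hj0 hlog2)
        have h11 : 8 * j ≤ (j / 8) * 128 := by omega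
        have h12 : ((8 * j : ℕ) : ℝ) ≤ ((j / 8 : ℕ) : ℝ) * 128 := by exact_mod_cast h11
        calc ((8 * j : ℕ) : ℝ) * Real.log 2 ≤ (((j / 8 : ℕ) : ℝ) * 128) * Real.log 2 :=
              mul_le_mul_of_nonneg_right h12 hlog2.le
          _ = _ := by ring
      have h11 : Real.log (Real.log Z) ≤ Real.log (6 * Real.log Lx + Real.log 2) := by
        apply Real.log_le_log
        · apply Real.log_pos; linarith
        · have h12 : Real.log Z ≤ Real.log (2 * Lx ^ 6) := Real.log_le_log (by linarith) hZup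
          rw [Real.log_mul (by norm_num) (by positivity), Real.log_pow] at h12
          push_cast at h12
          linarith
      linarith
    · -- small
      push Not at hbZ
      have hasq : Squarefree a := by
        rcases ha with rfl | rfl
        · exact hbsq
        · rw [Nat.squarefree_mul (Nat.coprime_two_left.mpr hbodd)]
          exact ⟨Nat.prime_two.prime.squarefree, hbsq⟩
      have ha0 : 0 < a := Nat.pos_of_ne_zero hasq.ne_zero
      have hgood := good_of_squarefree hl hl3 hasq ha1 hal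
      have h5 := hC1 l a Y hl3 ha0 hgood hY3
      refine h5.trans (le_trans ?_ h1)
      refine add_le_add (Real.log_le_log ?_ ?_) le_rfl
      · have h6 : 1 ≤ 4 * a * l := by
          have : 0 < 4 * a * l := by positivity
          exact this
        have : 0 ≤ Real.log ((4 * a * l : ℕ) : ℝ) := Real.log_nonneg (by exact_mod_cast h6)
        linarith
      · have h6 : (a : ℝ) ≤ 2 * (Z : ℝ) ^ 2 := by
          have h7 : a ≤ 2 * Z ^ 2 := by
            rcases ha with rfl | rfl
            · omega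
            · omega
          exact_mod_cast h7
        have h7 : ((4 * a * l : ℕ) : ℝ) ≤ (32 * l) * (Lx ^ 6) ^ 2 := by
          push_cast
          have h8 : (Z : ℝ) ^ 2 ≤ (2 * Lx ^ 6) ^ 2 := pow_le_pow_left₀ (by positivity) hZup 2
          have h9 : (0 : ℝ) ≤ l := Nat.cast_nonneg l
          have h10 : (a : ℝ) ≤ 8 * (Lx ^ 6) ^ 2 := by nlinarith
          nlinarith
        have hl0 : (0 : ℝ) < l := by exact_mod_cast hl.pos
        have h8 := Real.log_le_log (by
          have : 0 < 4 * a * l := by positivity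
          exact_mod_cast this) h7
        rw [Real.log_mul (by positivity) (by positivity), ← pow_mul, Real.log_pow] at h8
        push_cast at h8 ⊢
        linarith

end Pool.Agent.Lib.MP_79499b_co.Q38
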