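import Mathlib
import Pool.Agent.Lib.MP_79499b_co.MertensUpper29
import Pool.Agent.Lib.Sieve.Mertens

/-!
# Sums over primes of completely multiplicative functions and Dirichlet series near `s = 1`
-/

namespace Pool.Agent.Lib.MP_79499b_co.Q38

open Finset Filter Topology

/-- Abel's inequality -/
lemma abel_le {E : Type*} [SeminormedAddCommGroup E] [NormedSpace ℝ E] (g : ℕ → ℝ) (h : ℕ → E)
    {B : ℝ} (hg : Antitone g) (hg0 : ∀ n, 0 ≤ g n) (hh : ∀ n, ‖∑ i ∈ range n, h i‖ ≤ B) (n : ℕ) :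
    ‖∑ i ∈ range n, g i • h i‖ ≤ g 0 * B := by
  have hB : 0 ≤ B := (norm_nonneg _).trans (hh 0)
  rcases Nat.eq_zero_or_pos n with rfl | hn
  · simpa using mul_nonneg (hg0 0) hB
  rw [Finset.sum_range_by_parts]
  calc ‖g (n - 1) • ∑ i ∈ range n, h i - ∑ i ∈ range (n - 1), (g (i + 1) - g i) •
        ∑ j ∈ range (i + 1), h j‖
      ≤ ‖g (n - 1) • ∑ i ∈ range n, h i‖ + ‖∑ i ∈ range (n - 1), (g (i + 1) - g i) •
        ∑ j ∈ range (i + 1), h j‖ := norm_sub_le _ _
    _ ≤ g (n - 1) * B + ∑ i ∈ range (n - 1), (g i - g (i + 1)) * B := by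
        apply add_le_add
        · rw [norm_smul, Real.norm_of_nonneg (hg0 _)]
          exact mul_le_mul_of_nonneg_left (hh n) (hg0 _)
        · refine (norm_sum_le _ _).trans (Finset.sum_le_sum fun i _ => ?_)
          rw [norm_smul, Real.norm_eq_abs, abs_sub_comm, abs_of_nonneg
            (sub_nonneg.mpr (hg (Nat.le_succ i)))]
          exact mul_le_mul_of_nonneg_left (hh _) (sub_nonneg.mpr (hg (Nat.le_succ i)))
    _ = g 0 * B := by
        rw [← Finset.sum_mul, Finset.sum_range_sub' g (n - 1)]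
        ring

/-- The twist `n ↦ f n * n^(-s)` -/
noncomputable def tw (f : ℕ →*₀ ℂ) (s : ℝ) : ℕ →*₀ ℂ where
  toFun n := f n * (((n : ℝ) ^ (-s) : ℝ) : ℂ)
  map_zero' := by simp
  map_one' := by simp
  map_mul' m n := by
    rw [map_mul]
    push_cast
    rw [Real.mul_rpow (Nat.cast_nonneg _) (Nat.cast_nonneg _)]
    push_cast
    ring

lemma tw_apply (f : ℕ →*₀ ℂ) (s : ℝ) (n : ℕ) : tw f s n = f n * (((n : ℝ) ^ (-s) : ℝ) : ℂ) := rfl

lemma norm_tw_le {f : ℕ →*₀ ℂ} (hf : ∀ n, ‖f n‖ ≤ 1) (s : ℝ) (n : ℕ) :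
    ‖tw f s n‖ ≤ (n : ℝ) ^ (-s) := by
  rw [tw_apply, norm_mul, Complex.norm_real, Real.norm_of_nonneg (by positivity)]
  exact mul_le_of_le_one_left (by positivity) (hf n)

lemma summable_rpow_neg {s : ℝ} (hs : 1 < s) : Summable fun n : ℕ => (n : ℝ) ^ (-s) :=
  Real.summable_nat_rpow.mpr (by linarith)

lemma summable_tw {f : ℕ →*₀ ℂ} (hf : ∀ n, ‖f n‖ ≤ 1) {s : ℝ} (hs : 1 < s) :
    Summable fun n => ‖tw f s n‖ :=
  Summable.of_nonneg_of_le (fun _ => norm_nonneg _) (norm_tw_le hf s) (summable_rpow_neg hs)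

/-- `|L(s, f)| ≤ log Q + 4` when the partial sums are bounded by `Q` -/
lemma norm_tsum_tw_le {f : ℕ →*₀ ℂ} (hf : ∀ n, ‖f n‖ ≤ 1) {Q : ℕ} (hQ : 1 ≤ Q)
    (hpart : ∀ n, ‖∑ i ∈ range n, f i‖ ≤ Q) {s : ℝ} (hs : 1 < s) :
    ‖∑' n, tw f s n‖ ≤ Real.log Q + 4 := by
  have hsum : Summable (fun n => tw f s n) := (summable_tw hf hs).of_norm
  have hQ0 : (0 : ℝ) < Q := by exact_mod_cast hQ
  refine le_of_tendsto (hsum.hasSum.tendsto_sum_nat.norm) ?_
  filter_upwards [eventually_ge_atTop (Q + 1)] with N hN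
  rw [← Finset.sum_range_add_sum_Ico _ hN]
  have h1 : ‖∑ n ∈ range (Q + 1), tw f s n‖ ≤ 1 + Real.log Q := by
    calc ‖∑ n ∈ range (Q + 1), tw f s n‖ ≤ ∑ n ∈ range (Q + 1), ‖tw f s n‖ := norm_sum_le _ _
      _ ≤ ∑ n ∈ range (Q + 1), (n : ℝ) ^ (-s) := Finset.sum_le_sum fun n _ => norm_tw_le hf s n
      _ ≤ ∑ n ∈ range (Q + 1), ((n : ℝ))⁻¹ := by
          refine Finset.sum_le_sum fun n _ => ?_
          rcases Nat.eq_zero_or_pos n with rfl | hn
          · simp [Real.zero_rpow (by linarith : -s ≠ 0)]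
          · rw [← Real.rpow_neg_one]
            exact Real.rpow_le_rpow_of_exponent_le (by exact_mod_cast hn) (by linarith)
      _ = (harmonic Q : ℝ) := by
          rw [Finset.sum_range_succ', harmonic]
          push_cast
          simp
      _ ≤ 1 + Real.log Q := harmonic_le_one_add_log Q
  have h2 : ‖∑ n ∈ Ico (Q + 1) N, tw f s n‖ ≤ 2 := by
    rw [Finset.sum_Ico_eq_sum_range]
    have h3 : ∀ n, tw f s (Q + 1 + n) = (((Q + 1 + n : ℕ) : ℝ) ^ (-s)) • f (Q + 1 + n) := by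
      intro n
      rw [tw_apply, Complex.real_smul, mul_comm]
    simp only [h3]
    have h4 := abel_le (fun n => (((Q + 1 + n : ℕ) : ℝ) ^ (-s))) (fun n => f (Q + 1 + n))
      (B := 2 * Q) (by
        intro a b hab
        refine Real.rpow_le_rpow_of_nonpos (by positivity) ?_ (by linarith)
        exact_mod_cast (by omega : Q + 1 + a ≤ Q + 1 + b)) (fun n => by positivity) (by
        intro n
        have h5 : ∑ i ∈ range n, f (Q + 1 + i) = ∑ i ∈ range (Q + 1 + n), f i -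
            ∑ i ∈ range (Q + 1), f i := by
          rw [Finset.sum_range_add]
          ring
        rw [h5]
        calc ‖∑ i ∈ range (Q + 1 + n), f i - ∑ i ∈ range (Q + 1), f i‖ ≤ _ + _ := norm_sub_le _ _
          _ ≤ Q + Q := add_le_add (hpart _) (hpart _)
          _ = 2 * Q := by ring) (N - (Q + 1))
    refine h4.trans ?_
    have h6 : (((Q + 1 + 0 : ℕ) : ℝ) ^ (-s)) ≤ ((Q : ℝ))⁻¹ := by
      calc (((Q + 1 + 0 : ℕ) : ℝ) ^ (-s)) ≤ ((Q + 1 + 0 : ℕ) : ℝ) ^ (-1 : ℝ) := by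
            apply Real.rpow_le_rpow_of_exponent_le
            · push_cast; linarith
            · linarith
        _ = (((Q + 1 + 0 : ℕ) : ℝ))⁻¹ := Real.rpow_neg_one _
        _ ≤ ((Q : ℝ))⁻¹ := by
            apply inv_anti₀ hQ0
            push_cast; linarith
    calc (((Q + 1 + 0 : ℕ) : ℝ) ^ (-s)) * (2 * Q) ≤ ((Q : ℝ))⁻¹ * (2 * Q) :=
          mul_le_mul_of_nonneg_right h6 (by positivity)
      _ = 2 := by field_simp
  calc ‖∑ n ∈ range (Q + 1), tw f s n + ∑ n ∈ Ico (Q + 1) N, tw f s n‖ ≤ _ + _ := norm_add_le _ _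
    _ ≤ (1 + Real.log Q) + 2 := add_le_add h1 h2
    _ ≤ Real.log Q + 4 := by linarith

/-- the sum over the primes of `g p * p^(-s)` -/
noncomputable def psum (g : ℕ → ℝ) (s : ℝ) : ℝ :=
  ∑' n : ℕ, if n.Prime then g n * (n : ℝ) ^ (-s) else 0

/-- the constant `∑ 1/n²` -/
noncomputable def c2 : ℝ := ∑' n : ℕ, (n : ℝ) ^ (-2 : ℝ)

lemma summable_psum {g : ℕ → ℝ} (hg : ∀ n, |g n| ≤ 1) {s : ℝ} (hs : 1 < s) :
    Summable fun n : ℕ => if n.Prime then g n * (n : ℝ) ^ (-s) else 0 := by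
  refine Summable.of_norm_bounded (summable_rpow_neg hs) (fun n => ?_)
  split_ifs
  · rw [norm_mul, Real.norm_eq_abs, Real.norm_of_nonneg (by positivity)]
    exact mul_le_of_le_one_left (by positivity) (hg n)
  · simp; positivity

/-- comparison of the prime sum with `log |L(s, f)|` -/
lemma psum_re_sub_log {f : ℕ →*₀ ℂ} (hf : ∀ n, ‖f n‖ ≤ 1) {s : ℝ} (hs : 1 < s) :
    |psum (fun n => (f n).re) s - Real.log ‖∑' n, tw f s n‖| ≤ c2 := by
  classical
  have hsum := summable_tw hf hs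
  have hexp := EulerProduct.exp_tsum_primes_log_eq_tsum hsum
  have h1 : Real.log ‖∑' n, tw f s n‖ = (∑' p : Nat.Primes, -Complex.log (1 - tw f s p)).re := by
    rw [← hexp, Complex.norm_exp, Real.log_exp]
  have hsl : Summable fun p : Nat.Primes => -Complex.log (1 - tw f s p) :=
    (hsum.of_norm.clog_one_sub.neg.subtype Nat.Prime)
  have h2 : (∑' p : Nat.Primes, -Complex.log (1 - tw f s p)).re =
      ∑' p : Nat.Primes, (-Complex.log (1 - tw f s p)).re := by
    exact Complex.re_tsum hsl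
  have h3 : psum (fun n => (f n).re) s = ∑' p : Nat.Primes, (tw f s p).re := by
    have h4 : ∀ p : Nat.Primes, (tw f s p).re = (f p).re * ((p : ℕ) : ℝ) ^ (-s) := by
      intro p
      rw [tw_apply, Complex.re_mul_ofReal]
    rw [psum]
    simp only [h4]
    have h5 := tsum_subtype {p : ℕ | p.Prime} (fun n : ℕ => (f n).re * (n : ℝ) ^ (-s))
    have h6 : (∑' p : Nat.Primes, (f p).re * ((p : ℕ) : ℝ) ^ (-s)) =
        ∑' p : {p : ℕ | p.Prime}, (f p).re * ((p : ℕ) : ℝ) ^ (-s) := rfl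
    rw [h6, h5]
    refine tsum_congr fun n => ?_
    simp only [Set.indicator, Set.mem_ofPred_eq]
  have hst : Summable fun p : Nat.Primes => (tw f s p).re := by
    have : Summable fun n : ℕ => (tw f s n).re :=
      Summable.of_norm_bounded hsum (fun n => Complex.abs_re_le_norm _)
    exact this.subtype _
  have hsl' : Summable fun p : Nat.Primes => (-Complex.log (1 - tw f s p)).re :=
    (Complex.hasSum_re hsl.hasSum).summable
  rw [h1, h2, h3, ← hst.tsum_sub hsl']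
  have hc : Summable fun n : ℕ => (n : ℝ) ^ (-2 : ℝ) := summable_rpow_neg one_lt_two
  have hc' : Summable fun p : Nat.Primes => ((p : ℕ) : ℝ) ^ (-2 : ℝ) := hc.subtype _
  have hterm : ∀ p : Nat.Primes, ‖(tw f s p).re - (-Complex.log (1 - tw f s p)).re‖ ≤
      ((p : ℕ) : ℝ) ^ (-2 : ℝ) := by
    intro p
    set z := tw f s p with hz
    have hp2 : (2 : ℝ) ≤ ((p : ℕ) : ℝ) := by exact_mod_cast p.prop.two_le
    have hz1 : ‖z‖ ≤ (((p : ℕ) : ℝ))⁻¹ := by
      refine (norm_tw_le hf s p).trans ?_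
      rw [← Real.rpow_neg_one]
      exact Real.rpow_le_rpow_of_exponent_le (by linarith) (by linarith)
    have hz2 : ‖z‖ ≤ 1 / 2 := by
      refine hz1.trans ?_
      rw [one_div]
      exact inv_anti₀ (by norm_num) hp2
    have h7 := Complex.norm_log_one_add_sub_self_le (z := -z) (by rw [norm_neg]; linarith)
    rw [norm_neg] at h7
    have h8 : ‖Complex.log (1 + -z) - -z‖ ≤ ‖z‖ ^ 2 := by
      refine h7.trans ?_
      have h9 : (1 - ‖z‖)⁻¹ ≤ 2 := by
        rw [inv_le_comm₀ (by linarith) (by norm_num)]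
        linarith
      have h10 : 0 ≤ ‖z‖ ^ 2 := by positivity
      nlinarith
    rw [← sub_eq_add_neg, sub_neg_eq_add] at h8
    have h11 : (z).re - (-Complex.log (1 - z)).re = (Complex.log (1 - z) + z).re := by
      simp only [Complex.neg_re, Complex.add_re]
      ring
    rw [h11, Real.norm_eq_abs]
    calc |(Complex.log (1 - z) + z).re| ≤ ‖Complex.log (1 - z) + z‖ := Complex.abs_re_le_norm _
      _ ≤ ‖z‖ ^ 2 := h8
      _ ≤ ((((p : ℕ) : ℝ))⁻¹) ^ 2 := by
          apply pow_le_pow_left₀ (norm_nonneg _) hz1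
      _ = ((p : ℕ) : ℝ) ^ (-2 : ℝ) := by
          rw [Real.rpow_neg (by linarith), inv_pow]
          norm_num
  rw [← Real.norm_eq_abs]
  refine (tsum_of_norm_bounded hc'.hasSum hterm).trans ?_
  exact hc.tsum_subtype_le _ _ (fun n => by positivity)

end Pool.Agent.Lib.MP_79499b_co.Q38
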