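import Pool.Agent.Lib.MP_79499b_co.Q38Classes
import Pool.Agent.Lib.MP_79499b_co.Q38GoodT

/-!
# Lower bound for the total density of the removed classes
-/

namespace Pool.Agent.Lib.MP_79499b_co.Q38

open Finset
open scoped Classical NumberTheorySymbols

/-- the sieving primes -/
noncomputable def UU (Y : ℕ) (S : Finset ℕ) : Finset ℕ :=
  (range Y).filter (fun u => u.Prime ∧ u ∉ S)

/-- `u ≡ 1 (mod l)` and some `p ∈ S` is a nonresidue modulo `u` -/
def NR (l : ℕ) (S : Finset ℕ) (u : ℕ) : Prop := u % l = 1 ∧ ∃ p ∈ S, J((p : ℤ) | u) = -1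

/-- sum of `1/u` over the primes `u < Y` with `E u` -/
noncomputable def esum (E : ℕ → Prop) (Y : ℕ) : ℝ :=
  ∑ u ∈ (range Y).filter (fun u => u.Prime ∧ E u), ((u : ℝ))⁻¹

/-- density of the removed classes -/
noncomputable def GG (l : ℕ) (E F : ℕ → Prop) (Y : ℕ) (S : Finset ℕ) : ℝ :=
  ∑ u ∈ UU Y S, (((range (u ^ 2)).filter (Rem l E F u)).card : ℝ) / ((u ^ 2 : ℕ) : ℝ)

lemma sum_inv_primes_le {S : Finset ℕ} (hS : ∀ p ∈ S, p.Prime) :
    ∑ u ∈ S, ((u : ℝ))⁻¹ ≤ S.card := by
  calc ∑ u ∈ S, ((u : ℝ))⁻¹ ≤ ∑ u ∈ S, (1 : ℝ) := by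
        refine Finset.sum_le_sum fun u hu => ?_
        apply inv_le_one_of_one_le₀
        exact_mod_cast (hS u hu).one_lt.le
    _ = S.card := by simp

lemma jacobi_prod (T : Finset ℕ) (u : ℕ) :
    J(((∏ p ∈ T, p : ℕ) : ℤ) | u) = ∏ p ∈ T, J((p : ℤ) | u) := by
  induction T using Finset.induction_on with
  | empty => simp [jacobiSym.one_left]
  | insert a T ha ih =>
    rw [Finset.prod_insert ha, Finset.prod_insert ha]
    push_cast
    rw [jacobiSym.mul_left, ← ih]
    push_cast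
    rfl

/-- the primes `≡ 1 (mod l)` for which no `p ∈ S` is a nonresidue -/
lemma residue_sum {l Y : ℕ} {S : Finset ℕ} (hS : ∀ p ∈ S, p.Prime) {η : ℝ}
    (hη : 0 ≤ η) (hT : ∀ V ⊆ S, V.Nonempty → T l Y (∏ p ∈ V, p) ≤ η) :
    ∑ u ∈ (range Y).filter (fun u => (u.Prime ∧ u % l = 1) ∧ ¬ NR l S u), ((u : ℝ))⁻¹ ≤
      (1 / 2 ^ S.card) * msum l 1 Y + η + S.card := by
  set A := (range Y).filter (fun u => u.Prime ∧ u % l = 1) with hA
  have hAmem : ∀ u ∈ A, u.Prime ∧ u % l = 1 := fun u hu => (Finset.mem_filter.mp hu).2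
  -- pointwise bound
  have h1 : ∀ u ∈ A, (if ¬ NR l S u then ((u : ℝ))⁻¹ else 0) ≤
      (1 / 2 ^ S.card) * (((u : ℝ))⁻¹ * ∏ p ∈ S, (1 + ((J((p : ℤ) | u) : ℤ) : ℝ))) +
        (if u ∈ S then ((u : ℝ))⁻¹ else 0) := by
    intro u hu
    obtain ⟨hup, hul⟩ := hAmem u hu
    have hu0 : (0 : ℝ) ≤ ((u : ℝ))⁻¹ := by positivity
    have hprod0 : 0 ≤ ∏ p ∈ S, (1 + ((J((p : ℤ) | u) : ℤ) : ℝ)) := by
      apply Finset.prod_nonneg
      intro p _
      have := (abs_le.mp (abs_jac_le (p : ℤ) u)).1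
      linarith
    by_cases hNR : NR l S u
    · rw [if_neg (not_not.mpr hNR)]
      have : (0 : ℝ) ≤ (if u ∈ S then ((u : ℝ))⁻¹ else 0) := by split_ifs <;> positivity
      positivity
    · rw [if_pos hNR]
      by_cases huS : u ∈ S
      · rw [if_pos huS]
        have : 0 ≤ (1 / 2 ^ S.card) * (((u : ℝ))⁻¹ * ∏ p ∈ S, (1 + ((J((p : ℤ) | u) : ℤ) : ℝ))) := by
          positivity
        linarith
      · rw [if_neg huS, add_zero]
        have h2 : ∀ p ∈ S, J((p : ℤ) | u) = 1 := by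
          intro p hp
          have h3 : J((p : ℤ) | u) ≠ -1 := fun h => hNR ⟨hul, p, hp, h⟩
          have h4 : J((p : ℤ) | u) ≠ 0 := by
            apply jacobiSym.ne_zero
            rw [Int.gcd_natCast_natCast]
            have h5 : p ≠ u := fun h => huS (h ▸ hp)
            exact (Nat.coprime_primes (hS p hp) hup).mpr h5
          rcases jacobiSym.trichotomy (p : ℤ) u with h | h | h
          · exact absurd h h4
          · exact h
          · exact absurd h h3
        have h3 : ∏ p ∈ S, (1 + ((J((p : ℤ) | u) : ℤ) : ℝ)) = 2 ^ S.card := by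
          rw [Finset.prod_congr rfl (fun p hp => by rw [h2 p hp]), Finset.prod_const]
          norm_num
        rw [h3]
        have : (1 : ℝ) / 2 ^ S.card * (((u : ℝ))⁻¹ * 2 ^ S.card) = ((u : ℝ))⁻¹ := by
          field_simp
        rw [this]
  have h2 : ∑ u ∈ (range Y).filter (fun u => (u.Prime ∧ u % l = 1) ∧ ¬ NR l S u), ((u : ℝ))⁻¹ =
      ∑ u ∈ A, (if ¬ NR l S u then ((u : ℝ))⁻¹ else 0) := by
    rw [← Finset.sum_filter, hA, Finset.filter_filter]
  rw [h2]
  refine (Finset.sum_le_sum h1).trans ?_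
  rw [Finset.sum_add_distrib]
  have h3 : ∑ u ∈ A, (if u ∈ S then ((u : ℝ))⁻¹ else 0) ≤ S.card := by
    rw [← Finset.sum_filter]
    refine le_trans ?_ (sum_inv_primes_le hS)
    apply Finset.sum_le_sum_of_subset_of_nonneg
    · intro u hu; exact (Finset.mem_filter.mp hu).2
    · intro u _ _; positivity
  have h4 : ∑ u ∈ A, (1 / 2 ^ S.card) * (((u : ℝ))⁻¹ * ∏ p ∈ S, (1 + ((J((p : ℤ) | u) : ℤ) : ℝ))) =
      (1 / 2 ^ S.card) * ∑ V ∈ S.powerset, T l Y (∏ p ∈ V, p) := by
    rw [← Finset.mul_sum]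
    congr 1
    simp only [Finset.prod_one_add, Finset.mul_sum]
    rw [Finset.sum_comm]
    refine Finset.sum_congr rfl fun V _ => ?_
    unfold T
    refine Finset.sum_congr rfl fun u _ => ?_
    rw [jacobi_prod]
    push_cast
    rw [div_eq_mul_inv, mul_comm]
  have h5 : ∑ V ∈ S.powerset, T l Y (∏ p ∈ V, p) ≤ msum l 1 Y + 2 ^ S.card * η := by
    rw [← Finset.add_sum_erase _ _ (Finset.empty_mem_powerset S)]
    have h6 : T l Y (∏ p ∈ (∅ : Finset ℕ), p) = msum l 1 Y := by
      unfold T msum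
      refine Finset.sum_congr rfl fun u _ => ?_
      rw [Finset.prod_empty, Nat.cast_one, jacobiSym.one_left, Int.cast_one, one_div]
    rw [h6]
    gcongr
    calc ∑ V ∈ S.powerset.erase ∅, T l Y (∏ p ∈ V, p) ≤ ∑ V ∈ S.powerset.erase ∅, η := by
          refine Finset.sum_le_sum fun V hV => ?_
          rw [Finset.mem_erase, Finset.mem_powerset] at hV
          exact hT V hV.2 (Finset.nonempty_iff_ne_empty.mpr hV.1)
      _ = (S.powerset.erase ∅).card * η := by rw [Finset.sum_const, nsmul_eq_mul]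
      _ ≤ 2 ^ S.card * η := by
          apply mul_le_mul_of_nonneg_right _ hη
          have : (S.powerset.erase ∅).card ≤ S.powerset.card := Finset.card_le_card (Finset.erase_subset _ _)
          rw [Finset.card_powerset] at this
          exact_mod_cast this
  rw [h4]
  have h6 : (1 / 2 ^ S.card) * ∑ V ∈ S.powerset, T l Y (∏ p ∈ V, p) ≤
      (1 / 2 ^ S.card) * (msum l 1 Y + 2 ^ S.card * η) :=
    mul_le_mul_of_nonneg_left h5 (by positivity)
  have h7 : (1 : ℝ) / 2 ^ S.card * (msum l 1 Y + 2 ^ S.card * η) =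
      (1 / 2 ^ S.card) * msum l 1 Y + η := by field_simp
  linarith

/-- lower bound for the density of the removed classes -/
theorem GG_lower {l Y : ℕ} (hl : l.Prime) (hl3 : 3 ≤ l) (E : ℕ → Prop) {S R : Finset ℕ}
    (hR : R ⊆ S) (hS : ∀ p ∈ S, p.Prime) {η : ℝ} (hη : 0 ≤ η)
    (hT : ∀ V ⊆ R, V.Nonempty → T l Y (∏ p ∈ V, p) ≤ η) :
    esum E Y + (l - 1) * (1 - 1 / 2 ^ R.card) * msum l 1 Y - (l * η + 3 * l * S.card + 1) ≤
      GG l E (NR l R) Y S := by
  have hl1 : (1 : ℝ) ≤ l := by exact_mod_cast (by omega : 1 ≤ l)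
  -- pointwise lower bound
  have h1 : ∀ u ∈ UU Y S, (if E u then ((u : ℝ))⁻¹ else 0) - 1 / (u : ℝ) ^ 2 +
      (l - 1) * (if NR l R u then ((u : ℝ))⁻¹ else 0) ≤
      (((range (u ^ 2)).filter (Rem l E (NR l R) u)).card : ℝ) / ((u ^ 2 : ℕ) : ℝ) := by
    intro u hu
    have hup : u.Prime := (Finset.mem_filter.mp hu).2.1
    have hu0 : (0 : ℝ) < u := by exact_mod_cast hup.pos
    rw [card_Rem (by omega) hup]
    have h2 : (if NR l R u then (l - 1 : ℝ) * u else 0) ≤ ((if NR l R u then u * nroots l u else 0 : ℕ) : ℝ) := by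
      split_ifs with h
      · push_cast
        have h3 := le_nroots hl hup h.1
        have h4 : ((l - 1 : ℕ) : ℝ) ≤ nroots l u := by exact_mod_cast h3
        rw [Nat.cast_sub (by omega)] at h4
        push_cast at h4
        nlinarith
      · simp
    have h3 : (if E u then (u : ℝ) - 1 else 0) ≤ ((if E u then u - 1 else 0 : ℕ) : ℝ) := by
      split_ifs with h
      · rw [Nat.cast_sub hup.one_lt.le]; push_cast; exact le_rfl
      · simp
    rw [le_div_iff₀ (by push_cast; positivity)]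
    push_cast at h2 h3 ⊢
    refine le_trans ?_ (add_le_add h3 h2)
    split_ifs
    · field_simp
      nlinarith
    · field_simp
      nlinarith
    · field_simp
      nlinarith
    · field_simp
      nlinarith
  have h2 : GG l E (NR l R) Y S ≥ ∑ u ∈ UU Y S, ((if E u then ((u : ℝ))⁻¹ else 0) - 1 / (u : ℝ) ^ 2 +
      (l - 1) * (if NR l R u then ((u : ℝ))⁻¹ else 0)) := Finset.sum_le_sum h1
  rw [Finset.sum_add_distrib, Finset.sum_sub_distrib, ← Finset.mul_sum] at h2
  have h3 : ∑ u ∈ UU Y S, 1 / (u : ℝ) ^ 2 ≤ 1 := by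
    have := sum_inv_sq_le (UU Y S) (Z := 2) (by norm_num) (fun a ha =>
      (Finset.mem_filter.mp ha).2.1.two_le)
    simpa using this
  have h4 : esum E Y - S.card ≤ ∑ u ∈ UU Y S, (if E u then ((u : ℝ))⁻¹ else 0) := by
    rw [← Finset.sum_filter]
    have h5 : (range Y).filter (fun u => u.Prime ∧ E u) ⊆ (UU Y S).filter E ∪ S := by
      intro u hu
      rw [Finset.mem_filter] at hu
      rw [Finset.mem_union]
      by_cases huS : u ∈ S
      · right; exact huS
      · left
        rw [Finset.mem_filter, UU, Finset.mem_filter]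
        exact ⟨⟨hu.1, hu.2.1, huS⟩, hu.2.2⟩
    have h6 : esum E Y ≤ ∑ u ∈ (UU Y S).filter E, ((u : ℝ))⁻¹ + ∑ u ∈ S, ((u : ℝ))⁻¹ :=
      (Finset.sum_le_sum_of_subset_of_nonneg h5 fun _ _ _ => by positivity).trans
        (sum_union_le' _ _ _ fun _ => by positivity)
    have h7 := sum_inv_primes_le hS
    linarith
  have hRS : (R.card : ℝ) ≤ S.card := by exact_mod_cast Finset.card_le_card hR
  have h5 : (1 - 1 / 2 ^ R.card) * msum l 1 Y - η - 2 * S.card ≤
      ∑ u ∈ UU Y S, (if NR l R u then ((u : ℝ))⁻¹ else 0) := by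
    rw [← Finset.sum_filter]
    have h6 := residue_sum (Y := Y) (fun p hp => hS p (hR hp)) hη hT
    have h7 : (range Y).filter (fun u => u.Prime ∧ u % l = 1) ⊆
        ((UU Y S).filter (NR l R) ∪ S) ∪
          (range Y).filter (fun u => (u.Prime ∧ u % l = 1) ∧ ¬ NR l R u) := by
      intro u hu
      rw [Finset.mem_filter] at hu
      rw [Finset.mem_union, Finset.mem_union]
      by_cases hNR : NR l R u
      · left
        by_cases huS : u ∈ S
        · right; exact huS
        · left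
          rw [Finset.mem_filter, UU, Finset.mem_filter]
          exact ⟨⟨hu.1, hu.2.1, huS⟩, hNR⟩
      · right
        rw [Finset.mem_filter]
        exact ⟨hu.1, hu.2, hNR⟩
    have h8 : msum l 1 Y ≤ (∑ u ∈ (UU Y S).filter (NR l R), ((u : ℝ))⁻¹ + ∑ u ∈ S, ((u : ℝ))⁻¹) +
        ∑ u ∈ (range Y).filter (fun u => (u.Prime ∧ u % l = 1) ∧ ¬ NR l R u), ((u : ℝ))⁻¹ := by
      unfold msum
      refine (Finset.sum_le_sum_of_subset_of_nonneg h7 fun _ _ _ => by positivity).trans ?_
      refine (sum_union_le' _ _ _ fun _ => by positivity).trans ?_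
      gcongr
      exact sum_union_le' _ _ _ fun _ => by positivity
    have h9 := sum_inv_primes_le hS
    linarith
  have h6 : (l - 1 : ℝ) * ((1 - 1 / 2 ^ R.card) * msum l 1 Y - η - 2 * S.card) ≤
      (l - 1) * ∑ u ∈ UU Y S, (if NR l R u then ((u : ℝ))⁻¹ else 0) :=
    mul_le_mul_of_nonneg_left h5 (by linarith)
  have hS0 : (0 : ℝ) ≤ S.card := Nat.cast_nonneg _
  have h7 : (l - 1 : ℝ) * ((1 - 1 / 2 ^ R.card) * msum l 1 Y - η - 2 * S.card) =
      (l - 1) * (1 - 1 / 2 ^ R.card) * msum l 1 Y - ((l - 1) * η + (l - 1) * (2 * S.card)) := by ring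
  rw [h7] at h6
  have h8 : (l - 1 : ℝ) * η ≤ l * η := mul_le_mul_of_nonneg_right (by linarith) hη
  have h9 : (l - 1 : ℝ) * (2 * S.card) + S.card ≤ 3 * l * S.card := by nlinarith
  linarith

/-- upper bound for the density of the removed classes -/
theorem GG_upper {l Y : ℕ} (hl : 1 ≤ l) (E F : ℕ → Prop) (S : Finset ℕ) :
    GG l E F Y S ≤ (l + 1) * msum 1 0 Y := by
  unfold GG msum
  rw [Finset.mul_sum]
  calc ∑ u ∈ UU Y S, (((range (u ^ 2)).filter (Rem l E F u)).card : ℝ) / ((u ^ 2 : ℕ) : ℝ) ≤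
      ∑ u ∈ UU Y S, (l + 1) * ((u : ℝ))⁻¹ := by
        refine Finset.sum_le_sum fun u hu => ?_
        have hup : u.Prime := (Finset.mem_filter.mp hu).2.1
        have hu0 : (0 : ℝ) < u := by exact_mod_cast hup.pos
        rw [div_le_iff₀ (by push_cast; positivity), card_Rem hl hup]
        have h1 : ((if E u then u - 1 else 0 : ℕ) : ℝ) ≤ u := by
          split_ifs
          · exact_mod_cast Nat.sub_le u 1
          · simp
        have h2 : ((if F u then u * nroots l u else 0 : ℕ) : ℝ) ≤ u * l := by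
          split_ifs
          · push_cast
            apply mul_le_mul_of_nonneg_left _ hu0.le
            exact_mod_cast nroots_le hl hup
          · simp; positivity
        push_cast at h1 h2 ⊢
        have h3 : ((l : ℝ) + 1) * (u : ℝ)⁻¹ * (u : ℝ) ^ 2 = u * l + u := by
          field_simp
        rw [h3]
        linarith
    _ ≤ ∑ u ∈ (range Y).filter (fun p => p.Prime ∧ p % 1 = 0), (l + 1) * ((u : ℝ))⁻¹ := by
        apply Finset.sum_le_sum_of_subset_of_nonneg
        · intro u hu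
          rw [UU, Finset.mem_filter] at hu
          rw [Finset.mem_filter]
          exact ⟨hu.1, hu.2.1, Nat.mod_one u⟩
        · intro u _ _; positivity

/-- the sieve, specialised -/
theorem sieve_spec {l M Y r : ℕ} (hM : 0 < M) (hY : 1 ≤ Y) (E F : ℕ → Prop) {S : Finset ℕ}
    (hMS : ∀ u, u.Prime → u ∉ S → ¬ u ∣ M) (hr : Even r) (x : ℕ) :
    (((range x).filter (fun n => M ∣ n ∧ ∀ u ∈ UU Y S, ¬ Rem l E F u n)).card : ℝ) ≤
      (x / M) * (Real.exp (-(GG l E F Y S)) + Real.exp (8 * GG l E F Y S) / 8 ^ (r + 1)) +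
        3 * ((Y : ℝ) ^ 3) ^ r := by
  have hprime : ∀ u ∈ UU Y S, u.Prime := fun u hu => (Finset.mem_filter.mp hu).2.1
  have hY1 : (1 : ℝ) ≤ Y := by exact_mod_cast hY
  refine brun hM (P := fun u n => Rem l E F u n) (q := fun u => u ^ 2) (UU Y S)
    (fun u hu => by have := (hprime u hu).pos; positivity)
    (fun u hu => by
      rw [Nat.coprime_comm]
      apply Nat.Coprime.pow_left
      exact (Nat.Prime.coprime_iff_not_dvd (hprime u hu)).mpr
        (hMS u (hprime u hu) (Finset.mem_filter.mp hu).2.2))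
    (fun u hu v hv huv => Nat.Coprime.pow 2 2 ((Nat.coprime_primes (hprime u hu) (hprime v hv)).mpr huv))
    (fun u _ n => Rem_periodic l E F u n) hr x rfl (one_le_pow₀ hY1) ?_
  calc ∑ u ∈ UU Y S, (((range (u ^ 2)).filter (Rem l E F u)).card : ℝ) ≤
      ∑ u ∈ UU Y S, (Y : ℝ) ^ 2 := by
        refine Finset.sum_le_sum fun u hu => ?_
        have h1 : ((range (u ^ 2)).filter (Rem l E F u)).card ≤ u ^ 2 := by
          refine (Finset.card_filter_le _ _).trans ?_
          rw [Finset.card_range]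
        have h2 : u ≤ Y := (Finset.mem_range.mp (Finset.mem_filter.mp hu).1).le
        have h3 : u ^ 2 ≤ Y ^ 2 := Nat.pow_le_pow_left h2 2
        exact_mod_cast h1.trans h3
    _ = (UU Y S).card * (Y : ℝ) ^ 2 := by rw [Finset.sum_const, nsmul_eq_mul]
    _ ≤ Y * (Y : ℝ) ^ 2 := by
        apply mul_le_mul_of_nonneg_right _ (by positivity)
        have : (UU Y S).card ≤ Y := by
          refine (Finset.card_filter_le _ _).trans ?_
          rw [Finset.card_range]
        exact_mod_cast this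
    _ = (Y : ℝ) ^ 3 := by ring

end Pool.Agent.Lib.MP_79499b_co.Q38
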