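import Pool.Agent.Lib.MP_79499b_co.Q38Lower

/-!
# The asymptotic form of the sieve bound
-/

namespace Pool.Agent.Lib.MP_79499b_co.Q38

open Finset Filter Topology
open scoped Classical NumberTheorySymbols

/-- `log log x` -/
noncomputable def LL (x : ℕ) : ℝ := Real.log (Real.log x)

/-- the sieving limit -/
noncomputable def YY (l x : ℕ) : ℕ := ⌊Real.exp (Real.log x / (480 * (l + 1) * LL x))⌋₊

/-- the truncation parameter -/
noncomputable def rr (l x : ℕ) : ℕ := 2 * ⌈8 * (l + 1) * LL x⌉₊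

lemma tendsto_LL : Tendsto (fun x : ℕ => LL x) atTop atTop := tendsto_loglog

lemma exp_LL {x : ℕ} (hx : 3 ≤ x) : Real.exp (LL x) = Real.log x :=
  Real.exp_log (by linarith [one_lt_log hx])

/-- basic facts on `YY` -/
lemma YY_facts (l k : ℕ) {δ : ℝ} (hδ : 0 < δ) : ∀ᶠ x : ℕ in atTop,
    3 ≤ YY l x ∧ (1 - δ) * LL x ≤ Real.log (Real.log (YY l x)) ∧
      Real.log (Real.log (YY l x)) ≤ LL x ∧ (YY l x : ℝ) ≤ x ∧
      ((YY l x : ℝ)) ^ k ≤ Real.exp (Real.log x / 4) ∧
      ((YY l x : ℝ) ^ 3) ^ rr l x ≤ Real.exp (Real.log x / 8) := by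
  have hl0 : (0 : ℝ) < (l : ℝ) + 1 := by positivity
  -- `log (960 (l+1) L) ≤ δ L`
  have e1 : ∀ᶠ x : ℕ in atTop, Real.log (960 * (l + 1) * LL x + 0) + 0 ≤ δ * LL x :=
    tendsto_LL.eventually (eventually_log_le _ _ _ _ (by positivity) hδ)
  -- `L ≤ (log x) / K` eventually
  have e2 : ∀ K : ℝ, 0 < K → ∀ᶠ x : ℕ in atTop, Real.log (1 * Real.log x + 0) + 0 ≤ (1 / K) * Real.log x :=
    fun K hK => tendsto_log_nat.eventually (eventually_log_le 1 0 0 (1 / K) one_pos (by positivity))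
  filter_upwards [e1, e2 (960 * (l + 1)) (by positivity), tendsto_LL.eventually_ge_atTop 1,
    tendsto_LL.eventually_ge_atTop k, eventually_ge_atTop 3] with x h1 h2 h3 h3' h4
  set t := Real.log x with ht
  set L := LL x with hL
  have hLt : Real.log t = L := rfl
  have ht1 : 1 < t := one_lt_log h4
  have ht0 : 0 < t := by linarith
  rw [add_zero, add_zero] at h1
  rw [add_zero, add_zero, one_mul, hLt] at h2
  have hL0 : 0 < L := by linarith
  set A : ℝ := t / (480 * (l + 1) * L) with hA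
  have hA2 : 2 ≤ A := by
    rw [hA, le_div_iff₀ (by positivity)]
    have h5 : L * (960 * (l + 1)) ≤ t := by
      have := mul_le_mul_of_nonneg_right h2 (show (0 : ℝ) ≤ 960 * (l + 1) by positivity)
      calc L * (960 * (l + 1)) ≤ 1 / (960 * (l + 1)) * t * (960 * (l + 1)) := this
        _ = t := by field_simp
    linarith
  have hYup : (YY l x : ℝ) ≤ Real.exp A := Nat.floor_le (Real.exp_pos _).le
  have hYlow : Real.exp (A - 1) ≤ YY l x := by
    have h5 : Real.exp A < YY l x + 1 := Nat.lt_floor_add_one _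
    have h6 : Real.exp A = Real.exp (A - 1) * Real.exp 1 := by rw [← Real.exp_add]; ring_nf
    have h7 : 2 ≤ Real.exp 1 := by
      have := Real.add_one_le_exp (1 : ℝ); linarith
    have h8 : 1 ≤ Real.exp (A - 1) := Real.one_le_exp (by linarith)
    nlinarith
  have hY3 : 3 ≤ YY l x := by
    have h5 : Real.exp A < YY l x + 1 := Nat.lt_floor_add_one _
    have h6 : Real.exp 2 ≤ Real.exp A := Real.exp_le_exp.mpr hA2
    have h7 : (4 : ℝ) ≤ Real.exp 2 := by
      have h8 : 2 ≤ Real.exp 1 := by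
        have := Real.add_one_le_exp (1 : ℝ); linarith
      have h9 : Real.exp 2 = Real.exp 1 * Real.exp 1 := by rw [← Real.exp_add]; norm_num
      rw [h9]; nlinarith
    have h8 : (3 : ℝ) < YY l x := by linarith
    have : 3 < YY l x := by exact_mod_cast h8
    omega
  have hYpos : (0 : ℝ) < YY l x := by
    have : 0 < YY l x := by omega
    exact_mod_cast this
  have hlogY_low : A / 2 ≤ Real.log (YY l x) := by
    have := Real.log_le_log (Real.exp_pos _) hYlow
    rw [Real.log_exp] at this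
    linarith
  have hlogY_up : Real.log (YY l x) ≤ A := by
    have := Real.log_le_log hYpos hYup
    rwa [Real.log_exp] at this
  have hAt : A ≤ t := by
    rw [hA]
    apply div_le_self ht0.le
    have : (1 : ℝ) ≤ 480 * (l + 1) := by
      have : (0 : ℝ) ≤ l := Nat.cast_nonneg l
      linarith
    nlinarith
  refine ⟨hY3, ?_, ?_, ?_, ?_, ?_⟩
  · have h5 : Real.log (A / 2) ≤ Real.log (Real.log (YY l x)) := Real.log_le_log (by positivity) hlogY_low
    have h6 : A / 2 = t / (960 * (l + 1) * L) := by rw [hA]; field_simp; ring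
    rw [h6, Real.log_div ht0.ne' (by positivity), hLt] at h5
    linarith
  · have h5 : 0 < Real.log (YY l x) := by
      have := one_lt_log hY3
      linarith
    have := Real.log_le_log h5 (hlogY_up.trans hAt)
    rwa [hLt] at this
  · calc (YY l x : ℝ) ≤ Real.exp A := hYup
      _ ≤ Real.exp t := Real.exp_le_exp.mpr hAt
      _ = x := Real.exp_log (by
          have : 0 < x := by omega
          exact_mod_cast this)
  · calc ((YY l x : ℝ)) ^ k ≤ (Real.exp A) ^ k := pow_le_pow_left₀ hYpos.le hYup k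
      _ = Real.exp (k * A) := by rw [← Real.exp_nat_mul]
      _ ≤ Real.exp (t / 4) := by
          apply Real.exp_le_exp.mpr
          rw [hA, mul_div_assoc', div_le_div_iff₀ (by positivity) (by norm_num)]
          have h5 : (k : ℝ) * 4 ≤ 480 * (l + 1) * L := by
            have : (0 : ℝ) ≤ l := Nat.cast_nonneg l
            nlinarith
          calc (k : ℝ) * t * 4 = (k * 4) * t := by ring
            _ ≤ (480 * (l + 1) * L) * t := mul_le_mul_of_nonneg_right h5 ht0.le
            _ = t * (480 * (l + 1) * L) := by ring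
  · have hr : (rr l x : ℝ) ≤ 2 * (8 * (l + 1) * L + 1) := by
      unfold rr
      push_cast
      have := (Nat.ceil_lt_add_one (show 0 ≤ 8 * ((l : ℝ) + 1) * LL x by positivity)).le
      linarith
    calc ((YY l x : ℝ) ^ 3) ^ rr l x ≤ ((Real.exp A) ^ 3) ^ rr l x := by gcongr
      _ = Real.exp (((3 * rr l x : ℕ) : ℝ) * A) := by rw [← pow_mul, ← Real.exp_nat_mul]
      _ ≤ Real.exp (t / 8) := by
          apply Real.exp_le_exp.mpr
          push_cast
          rw [hA, mul_div_assoc', div_le_div_iff₀ (by positivity) (by norm_num)]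
          have h5 : 3 * (rr l x : ℝ) * 8 ≤ 480 * (l + 1) * L := by
            have h6 : (0 : ℝ) ≤ l := Nat.cast_nonneg l
            have h7 : 1 ≤ (l + 1) * L := by nlinarith
            nlinarith
          calc 3 * (rr l x : ℝ) * t * 8 = (3 * (rr l x : ℝ) * 8) * t := by ring
            _ ≤ (480 * (l + 1) * L) * t := mul_le_mul_of_nonneg_right h5 ht0.le
            _ = t * (480 * (l + 1) * L) := by ring

/-- the main asymptotic sieve bound -/
theorem master {l : ℕ} (hl : l.Prime) (hl3 : 3 ≤ l) (k : ℕ) (E : ℕ → Prop) {κ : ℝ}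
    (hκ0 : 0 ≤ κ) (hκ1 : κ ≤ 1) (hE : ∃ C : ℝ, ∀ Y : ℕ, 3 ≤ Y → κ * Real.log (Real.log Y) - C ≤ esum E Y)
    {δ : ℝ} (hδ : 0 < δ) :
    ∃ x₀ : ℕ, ∀ x : ℕ, x₀ ≤ x → ∀ S R : Finset ℕ, R ⊆ S → S.card ≤ k → (∀ p ∈ S, p.Prime) →
      (∀ V ⊆ R, V.Nonempty → T l (YY l x) (∏ p ∈ V, p) ≤ (δ / (8 * l)) * LL x) →
      ∀ M : ℕ, 0 < M → (∀ u, u.Prime → u ∉ S → ¬ u ∣ M) → (M : ℝ) ≤ Real.exp (3 / 4 * Real.log x) →
      (((range x).filter (fun n => M ∣ n ∧ ∀ u ∈ UU (YY l x) S, ¬ Rem l E (NR l R) u n)).card : ℝ) ≤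
        (x / M) * Real.exp (-((κ + (1 - 1 / 2 ^ R.card) - δ) * LL x)) := by
  obtain ⟨C1, hC1⟩ := hE
  obtain ⟨C2, hC2⟩ := mertens_one_mod (show 2 ≤ l by omega)
  obtain ⟨C3, hC30, hC3⟩ := msum_one_le
  have hl0 : (0 : ℝ) < l := by exact_mod_cast hl.pos
  have hl1 : (1 : ℝ) ≤ l := by exact_mod_cast hl.one_lt.le
  have hφ : ((l.totient : ℝ)) = l - 1 := by
    rw [Nat.totient_prime hl, Nat.cast_sub hl.one_lt.le]; simp
  have hl1' : (0 : ℝ) < l - 1 := by
    have : (3 : ℝ) ≤ l := by exact_mod_cast hl3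
    linarith
  -- a large constant
  set K : ℝ := |C1| + l * |C2| + 3 * l * k + 1 + Real.log 4 with hK
  have ev1 := YY_facts l k (show 0 < δ / 8 by positivity)
  have ev2 : ∀ᶠ x : ℕ in atTop, Real.log (1 * Real.log x + 0) + Real.log 6 / 3 ≤ (1 / 24) * Real.log x :=
    tendsto_log_nat.eventually (eventually_log_le 1 0 _ (1 / 24) one_pos (by norm_num))
  obtain ⟨x₀, hx₀⟩ := eventually_atTop.mp (ev1.and (ev2.and
    ((tendsto_LL.eventually_ge_atTop (8 * K / δ)).and ((tendsto_LL.eventually_ge_atTop (C3 + 1)).and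
      (eventually_ge_atTop 3)))))
  refine ⟨x₀, fun x hx S R hRS hSk hS hT M hM hMS hMx => ?_⟩
  obtain ⟨⟨hY3, hYlow, hYup, hYx, _, hYr⟩, h2, h3, h4, hx3⟩ := hx₀ x hx
  set Y := YY l x with hY
  set L := LL x with hL
  set t := Real.log x with ht
  have ht1 : 1 < t := one_lt_log hx3
  have hLt : Real.log t = L := rfl
  have hL1 : 1 ≤ L := by linarith
  set j := R.card with hj
  set η : ℝ := (δ / (8 * l)) * L with hη
  have hη0 : 0 ≤ η := by positivity
  set G := GG l E (NR l R) Y S with hG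
  -- lower bound for G
  have hq0 : (0 : ℝ) ≤ 1 - 1 / 2 ^ j := by
    rw [sub_nonneg, div_le_one (by positivity)]
    exact one_le_pow₀ (by norm_num)
  have hq1 : (1 : ℝ) - 1 / 2 ^ j ≤ 1 := by
    have : (0 : ℝ) ≤ 1 / 2 ^ j := by positivity
    linarith
  have hlow : (κ + (1 - 1 / 2 ^ j)) * Real.log (Real.log Y) - (|C1| + l * |C2| + l * η + 3 * l * k + 1) ≤ G := by
    have h5 := GG_lower (Y := Y) hl hl3 E hRS hS hη0 hT
    have h6 := hC1 Y hY3
    have h7 := hC2 Y hY3
    rw [hφ] at h7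
    have h8 : (l - 1 : ℝ) * (1 - 1 / 2 ^ j) * ((l - 1 : ℝ)⁻¹ * Real.log (Real.log Y) - C2) ≤
        (l - 1) * (1 - 1 / 2 ^ j) * msum l 1 Y :=
      mul_le_mul_of_nonneg_left h7 (by positivity)
    have h9 : (l - 1 : ℝ) * (1 - 1 / 2 ^ j) * ((l - 1 : ℝ)⁻¹ * Real.log (Real.log Y) - C2) =
        (1 - 1 / 2 ^ j) * Real.log (Real.log Y) - (l - 1) * (1 - 1 / 2 ^ j) * C2 := by
      field_simp
    rw [h9] at h8
    have h10 : (l - 1 : ℝ) * (1 - 1 / 2 ^ j) * C2 ≤ l * |C2| := by
      calc (l - 1 : ℝ) * (1 - 1 / 2 ^ j) * C2 ≤ (l - 1) * (1 - 1 / 2 ^ j) * |C2| :=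
            mul_le_mul_of_nonneg_left (le_abs_self _) (by positivity)
        _ ≤ l * 1 * |C2| := by
            apply mul_le_mul_of_nonneg_right _ (abs_nonneg _)
            apply mul_le_mul _ hq1 hq0 hl0.le
            linarith
        _ = l * |C2| := by ring
    have h11 := le_abs_self C1
    have h12 : (S.card : ℝ) ≤ k := by exact_mod_cast hSk
    have h13 : 3 * (l : ℝ) * S.card ≤ 3 * l * k := by
      apply mul_le_mul_of_nonneg_left h12 (by positivity)
    have h14 : (κ + (1 - 1 / 2 ^ j)) * Real.log (Real.log Y) =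
      κ * Real.log (Real.log Y) + (1 - 1 / 2 ^ j) * Real.log (Real.log Y) := by ring
    rw [h14]
    linarith
  have hc0 : 0 ≤ κ + (1 - 1 / 2 ^ j) := by linarith
  have hc2 : κ + (1 - 1 / 2 ^ j) ≤ 2 := by linarith
  have hlow2 : (κ + (1 - 1 / 2 ^ j)) * L - δ / 2 * L - (K - Real.log 4) ≤ G := by
    have h5 : (κ + (1 - 1 / 2 ^ j)) * ((1 - δ / 8) * L) ≤
        (κ + (1 - 1 / 2 ^ j)) * Real.log (Real.log Y) := mul_le_mul_of_nonneg_left hYlow hc0
    have h6 : (κ + (1 - 1 / 2 ^ j)) * ((1 - δ / 8) * L) = (κ + (1 - 1 / 2 ^ j)) * L -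
        (κ + (1 - 1 / 2 ^ j)) * (δ / 8 * L) := by ring
    have h7 : (κ + (1 - 1 / 2 ^ j)) * (δ / 8 * L) ≤ 2 * (δ / 8 * L) :=
      mul_le_mul_of_nonneg_right hc2 (by positivity)
    have h8 : (l : ℝ) * η = δ / 8 * L := by rw [hη]; field_simp
    rw [h8] at hlow
    have h9 : 0 ≤ δ * L := by positivity
    rw [hK]
    linarith
  have hKL : K ≤ δ / 8 * L := by
    rw [div_le_iff₀ hδ] at h3
    linarith
  have hlog4 : 0 ≤ Real.log 4 := Real.log_nonneg (by norm_num)
  have hlow3 : (κ + (1 - 1 / 2 ^ j) - δ) * L + Real.log 4 ≤ G := by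
    have : (κ + (1 - 1 / 2 ^ j) - δ) * L = (κ + (1 - 1 / 2 ^ j)) * L - δ * L := by ring
    have h9 : 0 ≤ δ * L := by positivity
    linarith
  -- upper bound for G
  have hup : G ≤ 2 * (l + 1) * L := by
    have h5 := GG_upper (Y := Y) (show 1 ≤ l by omega) E (NR l R) S
    have h6 := hC3 Y hY3
    have h7 : (l + 1 : ℝ) * msum 1 0 Y ≤ (l + 1) * (2 * L) := by
      apply mul_le_mul_of_nonneg_left _ (by positivity)
      linarith
    linarith
  -- the sieve
  have hsv := sieve_spec (l := l) (x := x) (r := rr l x) hM (show 1 ≤ Y by omega) E (NR l R) hMS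
    (by unfold rr; exact even_two_mul _)
  refine hsv.trans ?_
  rw [← hG]
  have hM0 : (0 : ℝ) < M := by exact_mod_cast hM
  have hx0 : (0 : ℝ) < x := by
    have : 0 < x := by omega
    exact_mod_cast this
  have hxexp : (x : ℝ) = Real.exp t := (Real.exp_log hx0).symm
  -- the tail
  have htail : Real.exp (8 * G) / 8 ^ (rr l x + 1) ≤ Real.exp (-G) := by
    rw [div_le_iff₀ (by positivity), ← Real.log_le_log_iff (by positivity) (by positivity),
      Real.log_exp, Real.log_mul (by positivity) (by positivity), Real.log_exp, Real.log_pow]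
    have h5 : 2 * (8 * (l + 1) * L) ≤ (rr l x : ℝ) := by
      unfold rr
      push_cast
      have := Nat.le_ceil (8 * ((l : ℝ) + 1) * LL x)
      linarith
    have h6 : (2 : ℝ) ≤ Real.log 8 := by
      have : Real.log 8 = 3 * Real.log 2 := by
        rw [show (8 : ℝ) = 2 ^ 3 by norm_num, Real.log_pow]; norm_num
      have := Real.log_two_gt_d9
      linarith
    push_cast
    have h7 : 0 ≤ (l + 1 : ℝ) * L := by positivity
    have h8 : (2 * (8 * (l + 1) * L) + 1) * 2 ≤ ((rr l x : ℝ) + 1) * Real.log 8 := by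
      apply mul_le_mul (by linarith) h6 (by norm_num) (by positivity)
    nlinarith
  have hmain : Real.exp (-G) + Real.exp (8 * G) / 8 ^ (rr l x + 1) ≤
      (1 / 2) * Real.exp (-((κ + (1 - 1 / 2 ^ j) - δ) * L)) := by
    have h5 : Real.exp (-G) ≤ Real.exp (-((κ + (1 - 1 / 2 ^ j) - δ) * L)) * (1 / 4) := by
      have h6 : (1 / 4 : ℝ) = Real.exp (-Real.log 4) := by
        rw [Real.exp_neg, Real.exp_log (by norm_num)]; norm_num
      rw [h6, ← Real.exp_add]
      apply Real.exp_le_exp.mpr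
      have aux2 : ∀ a b c : ℝ, a + b ≤ c → -c ≤ -a + -b := by
        intro a b c h; linarith
      exact aux2 _ _ _ hlow3
    have aux : ∀ a b c : ℝ, a ≤ c * (1 / 4) → b ≤ a → a + b ≤ (1 / 2) * c := by
      intro a b c h1 h2; linarith
    exact aux _ _ _ h5 htail
  -- the error term
  have herr : 3 * ((Y : ℝ) ^ 3) ^ rr l x ≤
      (x / M) * ((1 / 2) * Real.exp (-((κ + (1 - 1 / 2 ^ j) - δ) * L))) := by
    have h5 : Real.exp (t / 4) ≤ x / M := by
      rw [le_div_iff₀ hM0]
      calc Real.exp (t / 4) * M ≤ Real.exp (t / 4) * Real.exp (3 / 4 * t) :=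
            mul_le_mul_of_nonneg_left hMx (Real.exp_pos _).le
        _ = x := by rw [← Real.exp_add, hxexp]; ring_nf
    have h6 : Real.exp (-(2 * L)) ≤ Real.exp (-((κ + (1 - 1 / 2 ^ j) - δ) * L)) := by
      apply Real.exp_le_exp.mpr
      apply neg_le_neg
      have h10 : κ + (1 - 1 / 2 ^ j) - δ ≤ 2 := by linarith only [hc2, hδ]
      exact mul_le_mul_of_nonneg_right h10 (by linarith only [hL1])
    have h7 : 6 * Real.exp (t / 8) ≤ Real.exp (t / 4) * Real.exp (-(2 * L)) := by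
      have h8 : (6 : ℝ) = Real.exp (Real.log 6) := (Real.exp_log (by norm_num)).symm
      rw [h8, ← Real.exp_add, ← Real.exp_add]
      apply Real.exp_le_exp.mpr
      rw [add_zero, one_mul, hLt] at h2
      have h9 : 0 ≤ Real.log 6 := Real.log_nonneg (by norm_num)
      linarith only [h2, h9, hL1]
    calc 3 * ((Y : ℝ) ^ 3) ^ rr l x ≤ 3 * Real.exp (t / 8) := by
          apply mul_le_mul_of_nonneg_left hYr (by norm_num)
      _ ≤ (1 / 2) * (Real.exp (t / 4) * Real.exp (-(2 * L))) := by linarith only [h7]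
      _ ≤ (1 / 2) * ((x / M) * Real.exp (-((κ + (1 - 1 / 2 ^ j) - δ) * L))) := by
          apply mul_le_mul_of_nonneg_left _ (by norm_num)
          exact mul_le_mul h5 h6 (Real.exp_pos _).le (by positivity)
      _ = _ := by ring
  calc _ ≤ (x / M) * ((1 / 2) * Real.exp (-((κ + (1 - 1 / 2 ^ j) - δ) * L))) +
      (x / M) * ((1 / 2) * Real.exp (-((κ + (1 - 1 / 2 ^ j) - δ) * L))) := by
        apply add_le_add _ herr
        exact mul_le_mul_of_nonneg_left hmain (by positivity)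
    _ = _ := by ring

end Pool.Agent.Lib.MP_79499b_co.Q38
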