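import Mathlib

/-!
# Singer's planar difference sets
-/

namespace Pool.Agent.Lib.MP_79499b_co.Q38.Singer

variable (K F : Type) [Field K] [Field F] [Finite K] [Algebra K F] [Finite F]

/-- the subgroup `Kˣ` of `Fˣ` -/
def sub : Subgroup Fˣ := (Units.map (algebraMap K F : K →* F)).range

variable {K F}

omit [Finite K] [Finite F] in
lemma mem_sub {u : Fˣ} : u ∈ sub K F ↔ ∃ c : Kˣ, algebraMap K F c = u := by
  unfold sub
  rw [MonoidHom.mem_range]
  constructor
  · rintro ⟨c, rfl⟩
    exact ⟨c, rfl⟩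
  · rintro ⟨c, hc⟩
    exact ⟨c, Units.ext hc⟩

omit [Finite K] [Finite F] in
lemma card_sub : Nat.card (sub K F) = Nat.card Kˣ := by
  unfold sub
  apply Nat.card_congr
  refine (Equiv.ofInjective _ ?_).symm
  exact Units.map_injective (algebraMap K F).injective

variable (K F)

/-- the classes of elements of trace zero -/
def SS : Set (Fˣ ⧸ sub K F) := {g | ∃ u : Fˣ, (u : Fˣ ⧸ sub K F) = g ∧ Algebra.trace K F u = 0}

variable {K F}

omit [Finite K] [Finite F] in
lemma mem_SS {u : Fˣ} : (u : Fˣ ⧸ sub K F) ∈ SS K F ↔ Algebra.trace K F u = 0 := by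
  constructor
  · rintro ⟨u', h1, h2⟩
    rw [QuotientGroup.eq, mem_sub] at h1
    obtain ⟨c, hc⟩ := h1
    have h3 : (u : F) = (c : K) • (u' : F) := by
      rw [Algebra.smul_def, hc, ← Units.val_mul, mul_comm u'⁻¹ u, inv_mul_cancel_right]
    rw [h3, map_smul, h2, smul_zero]
  · intro h
    exact ⟨u, rfl, h⟩

/-- the solutions of `tr v = tr (a v) = 0` -/
noncomputable def TT (a : F) : F →ₗ[K] K × K :=
  (Algebra.trace K F).prod ((Algebra.trace K F).comp (LinearMap.mulLeft K a))

omit [Finite K] [Finite F] in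
lemma mem_ker_TT {a v : F} :
    v ∈ LinearMap.ker (TT (K := K) a) ↔ Algebra.trace K F v = 0 ∧ Algebra.trace K F (a * v) = 0 := by
  unfold TT
  rw [LinearMap.mem_ker]
  simp

omit [Finite K] in
lemma card_ker (a : Fˣ) : Nat.card (LinearMap.ker (TT (K := K) (a : F))) =
    1 + (Nat.card K - 1) * Set.ncard {e : Fˣ ⧸ sub K F | e ∈ SS K F ∧
      (a : Fˣ ⧸ sub K F) * e ∈ SS K F} := by
  set S : Set (Fˣ ⧸ sub K F) := {e | e ∈ SS K F ∧ (a : Fˣ ⧸ sub K F) * e ∈ SS K F} with hS
  have h1 : (LinearMap.ker (TT (K := K) (a : F)) : Set F) =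
      insert 0 (Units.val '' ((QuotientGroup.mk : Fˣ → Fˣ ⧸ sub K F) ⁻¹' S)) := by
    ext v
    rw [SetLike.mem_coe, mem_ker_TT, Set.mem_insert_iff, Set.mem_image]
    constructor
    · rintro ⟨h1, h2⟩
      by_cases hv : v = 0
      · exact Or.inl hv
      · right
        refine ⟨Units.mk0 v hv, ?_, rfl⟩
        rw [Set.mem_preimage, hS]
        refine ⟨mem_SS.mpr h1, ?_⟩
        rw [← QuotientGroup.mk_mul, mem_SS]
        exact h2
    · rintro (rfl | ⟨u, hu, rfl⟩)
      · simp
      · rw [Set.mem_preimage, hS] at hu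
        obtain ⟨h1, h2⟩ := hu
        rw [← QuotientGroup.mk_mul, mem_SS] at h2
        exact ⟨mem_SS.mp h1, h2⟩
  have h2 : (0 : F) ∉ (Units.val '' ((QuotientGroup.mk : Fˣ → Fˣ ⧸ sub K F) ⁻¹' S)) := by
    rintro ⟨u, -, hu⟩
    exact u.ne_zero hu
  have h3 : Nat.card (LinearMap.ker (TT (K := K) (a : F))) =
      Set.ncard (LinearMap.ker (TT (K := K) (a : F)) : Set F) := rfl
  rw [h3, h1, Set.ncard_insert_of_notMem h2 (Set.toFinite _), Set.ncard_image_of_injective _
    Units.val_injective, add_comm]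
  congr 1
  have h4 : Set.ncard ((QuotientGroup.mk : Fˣ → Fˣ ⧸ sub K F) ⁻¹' S) =
      Nat.card (sub K F) * Nat.card S := by
    rw [← Nat.card_prod, ← Nat.card_congr (QuotientGroup.preimageMkEquivSubgroupProdSet _ S)]
    rfl
  rw [h4, card_sub, Nat.card_units]
  rfl

variable (h3 : Module.finrank K F = 3)

include h3

omit [Finite K] in
lemma finrank_ker_of_notMem {a : F} (ha : a ∉ Set.range (algebraMap K F)) :
    Module.finrank K (LinearMap.ker (TT (K := K) a)) = 1 := by
  have : FiniteDimensional K F := Module.finite_of_finrank_eq_succ h3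
  have hr : LinearMap.range (TT (K := K) a) = ⊤ := by
    by_contra hne
    obtain ⟨f, hf, hle⟩ := Submodule.exists_le_ker_of_lt_top _ (lt_top_iff_ne_top.mpr hne)
    have hfxy : ∀ x y : K, f (x, y) = f (1, 0) * x + f (0, 1) * y := by
      intro x y
      have : ((x, y) : K × K) = x • (1, 0) + y • (0, 1) := by simp
      rw [this, map_add, map_smul, map_smul]
      simp [mul_comm]
    have h1 : ∀ v : F, Algebra.trace K F ((f (1, 0) • (1 : F) + f (0, 1) • a) * v) = 0 := by
      intro v
      have h2 : f (TT a v) = 0 := hle ⟨v, rfl⟩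
      have h2' : TT (K := K) a v = (Algebra.trace K F v, Algebra.trace K F (a * v)) := rfl
      rw [h2', hfxy] at h2
      rw [add_mul, smul_mul_assoc, smul_mul_assoc, one_mul, map_add, map_smul, map_smul]
      exact h2
    have h2 : f (1, 0) • (1 : F) + f (0, 1) • a = 0 := by
      have hnd := traceForm_nondegenerate K F
      apply hnd.1
      intro v
      exact h1 v
    by_cases hb : f (0, 1) = 0
    · rw [hb, zero_smul, add_zero, smul_eq_zero] at h2
      apply hf
      ext
      · simpa using h2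
      · simpa using hb
    · apply ha
      refine ⟨-(f (1, 0) / f (0, 1)), ?_⟩
      rw [Algebra.algebraMap_eq_smul_one]
      have h4 : f (0, 1) • a = -(f (1, 0) • (1 : F)) := by
        rw [eq_neg_iff_add_eq_zero, add_comm]; exact h2
      calc -(f (1, 0) / f (0, 1)) • (1 : F) = (f (0, 1))⁻¹ • -(f (1, 0) • (1 : F)) := by
            rw [smul_neg, smul_smul, neg_smul, div_eq_inv_mul]
        _ = (f (0, 1))⁻¹ • f (0, 1) • a := by rw [h4]
        _ = a := by rw [smul_smul, inv_mul_cancel₀ hb, one_smul]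
  have h := LinearMap.finrank_range_add_finrank_ker (TT (K := K) a)
  rw [hr, finrank_top, h3, Module.finrank_prod, Module.finrank_self] at h
  omega

omit [Finite K] in
lemma finrank_ker_one : Module.finrank K (LinearMap.ker (TT (K := K) (1 : F))) = 2 := by
  have : FiniteDimensional K F := Module.finite_of_finrank_eq_succ h3
  have h1 : LinearMap.ker (TT (K := K) (1 : F)) = LinearMap.ker (Algebra.trace K F) := by
    ext v
    rw [mem_ker_TT, one_mul, LinearMap.mem_ker]
    tauto
  have h2 : LinearMap.range (Algebra.trace K F) = ⊤ :=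
    LinearMap.range_eq_top.mpr (Algebra.trace_surjective K F)
  have h := LinearMap.finrank_range_add_finrank_ker (Algebra.trace K F)
  rw [h2, finrank_top, h3, Module.finrank_self] at h
  rw [h1]
  omega

lemma ncard_one : Set.ncard {e : Fˣ ⧸ sub K F | e ∈ SS K F} = Nat.card K + 1 := by
  have : FiniteDimensional K F := Module.finite_of_finrank_eq_succ h3
  have h1 := card_ker (K := K) (1 : Fˣ)
  rw [Units.val_one, Module.natCard_eq_pow_finrank (K := K), finrank_ker_one h3] at h1
  simp only [QuotientGroup.mk_one, one_mul, and_self] at h1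
  have hq : 2 ≤ Nat.card K := Finite.one_lt_card
  obtain ⟨r, hr⟩ : ∃ r, Nat.card K = r + 1 := ⟨Nat.card K - 1, by omega⟩
  rw [hr] at h1 ⊢
  rw [Nat.add_sub_cancel] at h1
  have h2 : r * Set.ncard {e : Fˣ ⧸ sub K F | e ∈ SS K F} = r * (r + 1 + 1) := by
    have : (r + 1) ^ 2 = 1 + r * (r + 1 + 1) := by ring
    omega
  exact Nat.eq_of_mul_eq_mul_left (by omega) h2

lemma ncard_ne {g : Fˣ ⧸ sub K F} (hg : g ≠ 1) :
    Set.ncard {e : Fˣ ⧸ sub K F | e ∈ SS K F ∧ g * e ∈ SS K F} = 1 := by
  have : FiniteDimensional K F := Module.finite_of_finrank_eq_succ h3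
  obtain ⟨a, rfl⟩ := QuotientGroup.mk_surjective g
  have ha : (a : F) ∉ Set.range (algebraMap K F) := by
    rintro ⟨c, hc⟩
    apply hg
    rw [QuotientGroup.eq_one_iff, mem_sub]
    have hc0 : c ≠ 0 := by
      rintro rfl
      rw [map_zero] at hc
      exact a.ne_zero hc.symm
    exact ⟨Units.mk0 c hc0, hc⟩
  have h1 := card_ker (K := K) a
  rw [Module.natCard_eq_pow_finrank (K := K), finrank_ker_of_notMem h3 ha, pow_one] at h1
  have hq : 2 ≤ Nat.card K := Finite.one_lt_card
  obtain ⟨r, hr⟩ : ∃ r, Nat.card K = r + 1 := ⟨Nat.card K - 1, by omega⟩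
  rw [hr, Nat.add_sub_cancel] at h1
  have h2 : r * Set.ncard {e : Fˣ ⧸ sub K F | e ∈ SS K F ∧ (a : Fˣ ⧸ sub K F) * e ∈ SS K F} =
      r * 1 := by omega
  exact Nat.eq_of_mul_eq_mul_left (by omega) h2

lemma card_quotient : Nat.card (Fˣ ⧸ sub K F) = Nat.card K ^ 2 + Nat.card K + 1 := by
  have : FiniteDimensional K F := Module.finite_of_finrank_eq_succ h3
  have h1 := Subgroup.card_eq_card_quotient_mul_card_subgroup (sub K F)
  rw [card_sub, Nat.card_units, Nat.card_units, Module.natCard_eq_pow_finrank (K := K) (V := F),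
    h3] at h1
  have hq : 2 ≤ Nat.card K := Finite.one_lt_card
  obtain ⟨r, hr⟩ : ∃ r, Nat.card K = r + 1 := ⟨Nat.card K - 1, by omega⟩
  rw [hr, Nat.add_sub_cancel] at h1
  rw [hr]
  have h2 : (r + 1) ^ 3 - 1 = ((r + 1) ^ 2 + (r + 1) + 1) * r := by
    have : (r + 1) ^ 3 = ((r + 1) ^ 2 + (r + 1) + 1) * r + 1 := by ring
    omega
  rw [h2] at h1
  exact (Nat.eq_of_mul_eq_mul_right (by omega) h1).symm

end Pool.Agent.Lib.MP_79499b_co.Q38.Singer

namespace Pool.Agent.Lib.MP_79499b_co.Q38

/-- Singer's theorem in the planar case, for primes: some abelian group contains a planar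
difference set of order `p`. -/
theorem singer_prime {p : ℕ} (hp : p.Prime) :
    ∃ (G : Type) (_ : CommGroup G) (_ : Fintype G) (_ : DecidableEq G) (D : Finset G),
      Fintype.card G = p ^ 2 + p + 1 ∧ D.card = p + 1 ∧
      ∀ g : G, g ≠ 1 → ((D ×ˢ D).filter (fun x : G × G => x.1 * x.2⁻¹ = g)).card = 1 := by
  classical
  have : Fact p.Prime := ⟨hp⟩
  have h3 : Module.finrank (ZMod p) (GaloisField p 3) = 3 := GaloisField.finrank p (by norm_num)
  have hfin : Finite (GaloisField p 3) := Module.finite_of_finite (ZMod p)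
  have hK : Nat.card (ZMod p) = p := Nat.card_zmod p
  let G := (GaloisField p 3)ˣ ⧸ Singer.sub (ZMod p) (GaloisField p 3)
  have : Fintype G := Fintype.ofFinite G
  let D : Finset G := (Singer.SS (ZMod p) (GaloisField p 3)).toFinset
  refine ⟨G, inferInstance, inferInstance, inferInstance, D, ?_, ?_, ?_⟩
  · rw [← Nat.card_eq_fintype_card, Singer.card_quotient h3, hK]
  · have h := Singer.ncard_one (K := ZMod p) (F := GaloisField p 3) h3
    rw [hK] at h
    rw [← h, ← Set.ncard_coe_finset]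
    congr 1
    ext x
    simp [D]
  · intro g hg
    have h := Singer.ncard_ne (K := ZMod p) (F := GaloisField p 3) h3 hg
    rw [← h, ← Set.ncard_coe_finset]
    refine Set.ncard_congr (fun x _ => x.2) ?_ ?_ ?_
    · rintro ⟨a, b⟩ hab
      simp only [Finset.coe_filter, Finset.mem_product, Set.mem_ofPred_eq, D, Set.mem_toFinset] at hab ⊢
      obtain ⟨⟨h1, h2⟩, h3⟩ := hab
      refine ⟨h2, ?_⟩
      rw [← h3, inv_mul_cancel_right]
      exact h1
    · rintro ⟨a, b⟩ ⟨a', b'⟩ hab hab' hb
      simp only [Finset.coe_filter, Set.mem_ofPred_eq] at hab hab' hb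
      have h1 := hab.2
      have h2 := hab'.2
      subst hb
      rw [Prod.mk.injEq]
      refine ⟨?_, rfl⟩
      rw [mul_inv_eq_iff_eq_mul] at h1 h2
      rw [h1, h2]
    · intro b hb
      refine ⟨(g * b, b), ?_, rfl⟩
      simp only [Finset.coe_filter, Finset.mem_product, Set.mem_ofPred_eq, D, Set.mem_toFinset]
      exact ⟨⟨hb.2, hb.1⟩, by simp⟩

end Pool.Agent.Lib.MP_79499b_co.Q38
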