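import Pool.Agent.Lib.MP_7b7e48_nt.GT.PNTAP
import Pool.Agent.Lib.MP_79499b_co.Q38Singer
import Pool.Agent.Lib.MP_79499b_co.Q38Deduce

/-!
# Many primes congruent to `1` modulo `4`
-/

namespace Pool.Agent.Lib.MP_79499b_co.Q38

open Finset Filter Topology

/-- at least `c x / log x` primes below `x` are congruent to `1` or `2` modulo `4` -/
theorem primes_lower : ∃ c : ℝ, 0 < c ∧ ∀ x : ℕ, 3 ≤ x →
    c * (x / Real.log x) ≤ cnt (fun n => n.Prime ∧ (n % 4 = 1 ∨ n % 4 = 2)) x := by
  have h := GT.pnt_ap 4 1 (by norm_num) (by norm_num)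
  have htot : (1 / ((Nat.totient 4 : ℕ) : ℝ)) = 1 / 2 := by
    have : Nat.totient 4 = 2 := by decide
    rw [this]; norm_num
  rw [htot] at h
  have h1 : ∀ᶠ N : ℕ in atTop, (1 / 4 : ℝ) < (∑ n ∈ Finset.Icc 1 N with n % 4 = 1 % 4, GT.lam n) / N :=
    h.eventually (lt_mem_nhds (by norm_num))
  obtain ⟨N₀, hN₀⟩ := Filter.eventually_atTop.mp h1
  have hone : ∀ x : ℕ, 3 ≤ x → (1 : ℝ) ≤ cnt (fun n => n.Prime ∧ (n % 4 = 1 ∨ n % 4 = 2)) x := by
    intro x hx
    unfold cnt
    have h2 : 0 < Set.ncard {n : ℕ | n < x ∧ n.Prime ∧ (n % 4 = 1 ∨ n % 4 = 2)} := by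
      rw [Set.ncard_pos (finite_set _ x)]
      exact ⟨2, by omega, Nat.prime_two, Or.inr rfl⟩
    exact_mod_cast h2
  refine ⟨min (1 / 8) (1 / ((N₀ : ℝ) + 3)), by positivity, fun x hx => ?_⟩
  have hx3 : (3 : ℝ) ≤ x := by exact_mod_cast hx
  have hlog : (1 : ℝ) < Real.log x := by
    rw [Real.lt_log_iff_exp_lt (by positivity)]
    have := Real.exp_one_lt_d9
    linarith
  have hx0 : (0 : ℝ) < x := by linarith
  have hq : (0 : ℝ) ≤ x / Real.log x := by positivity
  by_cases hxx : N₀ + 3 ≤ x
  · have h2 := hN₀ (x - 1) (by omega)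
    have hxm : ((x - 1 : ℕ) : ℝ) = (x : ℝ) - 1 := by
      rw [Nat.cast_sub (by omega)]; simp
    rw [hxm, lt_div_iff₀ (by linarith)] at h2
    have h3 : (∑ n ∈ Finset.Icc 1 (x - 1) with n % 4 = 1 % 4, GT.lam n) ≤
        Real.log x * cnt (fun n => n.Prime ∧ (n % 4 = 1 ∨ n % 4 = 2)) x := by
      classical
      rw [cnt_eq, Finset.sum_filter]
      calc ∑ n ∈ Finset.Icc 1 (x - 1), (if n % 4 = 1 % 4 then GT.lam n else 0) ≤
          ∑ n ∈ Finset.Icc 1 (x - 1), (if n.Prime ∧ (n % 4 = 1 ∨ n % 4 = 2) then Real.log x else 0) := by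
            refine Finset.sum_le_sum fun n hn => ?_
            rw [Finset.mem_Icc] at hn
            unfold GT.lam
            by_cases hp : n.Prime
            · by_cases h4 : n % 4 = 1 % 4
              · rw [if_pos h4, if_pos hp, if_pos ⟨hp, Or.inl h4⟩]
                apply Real.log_le_log (by exact_mod_cast hn.1)
                exact_mod_cast (by omega : n ≤ x)
              · rw [if_neg h4]
                split_ifs
                · linarith
                · exact le_rfl
            · have hp' : ¬ (n.Prime ∧ (n % 4 = 1 ∨ n % 4 = 2)) := fun h => hp h.1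
              rw [if_neg hp, if_neg hp']
              split_ifs <;> exact le_rfl
        _ = ∑ n ∈ (Finset.Icc 1 (x - 1)).filter (fun n => n.Prime ∧ (n % 4 = 1 ∨ n % 4 = 2)),
              Real.log x := by rw [Finset.sum_filter]
        _ = (((Finset.Icc 1 (x - 1)).filter
              (fun n => n.Prime ∧ (n % 4 = 1 ∨ n % 4 = 2))).card : ℝ) * Real.log x := by
              rw [Finset.sum_const, nsmul_eq_mul]
        _ ≤ (((range x).filter
              (fun n => n.Prime ∧ (n % 4 = 1 ∨ n % 4 = 2))).card : ℝ) * Real.log x := by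
              apply mul_le_mul_of_nonneg_right _ (by linarith)
              have : (Finset.Icc 1 (x - 1)).filter (fun n => n.Prime ∧ (n % 4 = 1 ∨ n % 4 = 2)) ⊆
                  (range x).filter (fun n => n.Prime ∧ (n % 4 = 1 ∨ n % 4 = 2)) := by
                intro n hn
                rw [Finset.mem_filter, Finset.mem_Icc] at hn
                rw [Finset.mem_filter, Finset.mem_range]
                exact ⟨by omega, hn.2⟩
              exact_mod_cast Finset.card_le_card this
        _ = _ := mul_comm _ _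
    calc min (1 / 8) (1 / ((N₀ : ℝ) + 3)) * (x / Real.log x) ≤ 1 / 8 * (x / Real.log x) :=
          mul_le_mul_of_nonneg_right (min_le_left _ _) hq
      _ = (x / 8) / Real.log x := by ring
      _ ≤ cnt (fun n => n.Prime ∧ (n % 4 = 1 ∨ n % 4 = 2)) x := by
          rw [div_le_iff₀ (by linarith), mul_comm]
          refine le_trans ?_ h3
          linarith
  · push Not at hxx
    refine le_trans ?_ (hone x hx)
    have hN : (x : ℝ) ≤ (N₀ : ℝ) + 3 := by exact_mod_cast hxx.le
    calc min (1 / 8) (1 / ((N₀ : ℝ) + 3)) * (x / Real.log x) ≤ 1 / ((N₀ : ℝ) + 3) * (x / Real.log x) :=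
          mul_le_mul_of_nonneg_right (min_le_right _ _) hq
      _ ≤ 1 / ((N₀ : ℝ) + 3) * x := by
          apply mul_le_mul_of_nonneg_left _ (by positivity)
          exact div_le_self hx0.le hlog.le
      _ ≤ 1 := by
          rw [one_div, inv_mul_le_iff₀ (by positivity)]
          linarith

end Pool.Agent.Lib.MP_79499b_co.Q38
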