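import Pool.Agent.Lib.MP_79499b_co.Q38Char
import Pool.Agent.Lib.MP_79499b_co.Q38Transfer

/-!
# The sum of `(a/w)/w` over the primes `w ≡ 1 (mod l)`, bounded by `log log a`
-/

namespace Pool.Agent.Lib.MP_79499b_co.Q38

open Finset Filter Topology
open scoped NumberTheorySymbols

/-- the character sum over the primes `w < Y`, `w ≡ 1 (mod l)` -/
noncomputable def T (l Y a : ℕ) : ℝ :=
  ∑ w ∈ (range Y).filter (fun w => w.Prime ∧ w % l = 1), ((J(a | w) : ℤ) : ℝ) / w

/-- `n ↦ ψ(n) (a/n)` on odd `n`, and `0` on even `n` -/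
noncomputable def jc (l : ℕ) (ψ : DirichletCharacter ℂ l) (a : ℕ) : ℕ →*₀ ℂ where
  toFun n := if Odd n then ψ n * ((J(a | n) : ℤ) : ℂ) else 0
  map_zero' := by simp
  map_one' := by simp [jacobiSym.one_right]
  map_mul' m n := by
    by_cases hm : Odd m
    · by_cases hn : Odd n
      · rw [if_pos hm, if_pos hn, if_pos (hm.mul hn),
          jacobiSym.mul_right' _ hm.pos.ne' hn.pos.ne']
        push_cast
        rw [map_mul]
        ring
      · rw [if_neg hn, if_neg (fun h => hn (Nat.odd_mul.mp h).2), mul_zero]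
    · rw [if_neg hm, if_neg (fun h => hm (Nat.odd_mul.mp h).1), zero_mul]

lemma jc_apply (l : ℕ) (ψ : DirichletCharacter ℂ l) (a n : ℕ) :
    jc l ψ a n = if Odd n then ψ n * ((J(a | n) : ℤ) : ℂ) else 0 := rfl

lemma abs_jacobi_le (a : ℤ) (n : ℕ) : |((J(a | n) : ℤ) : ℝ)| ≤ 1 := by
  rcases jacobiSym.trichotomy a n with h | h | h <;> rw [h] <;> simp

lemma norm_jc_le (l : ℕ) (ψ : DirichletCharacter ℂ l) (a n : ℕ) : ‖jc l ψ a n‖ ≤ 1 := by
  rw [jc_apply]
  split_ifs
  · rw [norm_mul]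
    have h1 := ψ.norm_le_one n
    have h2 : ‖((J(a | n) : ℤ) : ℂ)‖ ≤ 1 := by
      rcases jacobiSym.trichotomy (a : ℤ) n with h | h | h <;> rw [h] <;> simp
    exact mul_le_one₀ h1 (norm_nonneg _) h2
  · simp

lemma jc_periodic {l : ℕ} (ψ : DirichletCharacter ℂ l) (a n : ℕ) :
    jc l ψ a (n % (4 * a * l)) = jc l ψ a n := by
  rw [jc_apply, jc_apply]
  have h1 : Odd (n % (4 * a * l)) ↔ Odd n := by
    rw [Nat.odd_iff, Nat.odd_iff, Nat.mod_mod_of_dvd]
    exact ⟨2 * a * l, by ring⟩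
  by_cases hn : Odd n
  · rw [if_pos hn, if_pos (h1.mpr hn)]
    have h2 : ((n % (4 * a * l) : ℕ) : ZMod l) = (n : ZMod l) := by
      rw [ZMod.natCast_eq_natCast_iff]
      exact (Nat.mod_modEq n (4 * a * l)).of_dvd ⟨4 * a, by ring⟩
    have h3 : J(a | n % (4 * a * l)) = J(a | n) := by
      rw [jacobiSym.mod_right' a (h1.mpr hn), jacobiSym.mod_right' a hn,
        Nat.mod_mod_of_dvd _ (Dvd.intro _ rfl)]
    rw [h2, h3]
  · rw [if_neg hn, if_neg (fun h => hn (h1.mp h))]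

/-- `a` is a nonresidue of some `n₀ ≡ 1 (mod l)` -/
def Good (l a : ℕ) : Prop := ∃ n₀ : ℕ, n₀ % l = 1 ∧ n₀.Coprime (4 * a * l) ∧ J(a | n₀) = -1

lemma jc_partial {l : ℕ} (hl : 2 ≤ l) (ψ : DirichletCharacter ℂ l) {a : ℕ} (ha : 0 < a)
    (hgood : Good l a) (N : ℕ) : ‖∑ i ∈ range N, jc l ψ a i‖ ≤ (4 * a * l : ℕ) := by
  obtain ⟨n₀, h1, h2, h3⟩ := hgood
  have hQ : 0 < 4 * a * l := by positivity
  refine norm_sum_range_le hQ _ (jc_periodic ψ a) ?_ (norm_jc_le l ψ a) N
  refine zero_sum hQ _ (jc_periodic ψ a) (fun m n => map_mul _ m n) h2 ?_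
  have hodd : Odd n₀ := by
    rw [← Nat.coprime_two_right]
    exact h2.coprime_dvd_right ⟨2 * a * l, by ring⟩
  rw [jc_apply, if_pos hodd, h3]
  have h4 : (n₀ : ZMod l) = 1 := by
    have h5 : n₀ ≡ 1 [MOD l] := by
      rw [Nat.ModEq, h1, Nat.mod_eq_of_lt (by omega)]
    rw [← Nat.cast_one, ZMod.natCast_eq_natCast_iff]
    exact h5
  rw [h4]
  simp
  norm_num

/-- bound for one character -/
lemma psum_jc_le {l : ℕ} (hl : 2 ≤ l) (ψ : DirichletCharacter ℂ l) {a : ℕ} (ha : 0 < a)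
    (hgood : Good l a) {s : ℝ} (hs : 1 < s) :
    psum (fun n => (jc l ψ a n).re) s ≤ Real.log (Real.log (4 * a * l : ℕ) + 4) + c2 := by
  have h1 := psum_re_sub_log (norm_jc_le l ψ a) hs
  have hQ1 : 1 ≤ 4 * a * l := Nat.one_le_iff_ne_zero.mpr (by positivity)
  have h2 := norm_tsum_tw_le (norm_jc_le l ψ a) hQ1 (jc_partial hl ψ ha hgood) hs
  have h3 : Real.log ‖∑' n, tw (jc l ψ a) s n‖ ≤ Real.log (Real.log (4 * a * l : ℕ) + 4) := by
    have h5 : 0 ≤ Real.log (4 * a * l : ℕ) := Real.log_nonneg (by exact_mod_cast hQ1)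
    rcases (norm_nonneg (∑' n, tw (jc l ψ a) s n)).eq_or_lt with h | h
    · rw [← h, Real.log_zero]
      exact Real.log_nonneg (by linarith)
    · exact Real.log_le_log h h2
  have h4 := abs_le.mp h1
  linarith [h4.2]

/-- orthogonality -/
lemma orth {l : ℕ} (hl : 2 ≤ l) (a n : ℕ) :
    (if n % l = 1 ∧ Odd n then ((J(a | n) : ℤ) : ℝ) else 0) =
      ((l.totient : ℝ))⁻¹ * ∑ ψ : DirichletCharacter ℂ l, (jc l ψ a n).re := by
  classical
  have : NeZero l := ⟨by omega⟩
  have hφ : (l.totient : ℝ) ≠ 0 := by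
    have := Nat.totient_pos.mpr (show 0 < l by omega)
    positivity
  rw [← Complex.re_sum]
  simp only [jc_apply]
  by_cases hn : Odd n
  · simp only [hn, if_true, and_true]
    rw [← Finset.sum_mul, DirichletCharacter.sum_characters_eq]
    have h1 : (n : ZMod l) = 1 ↔ n % l = 1 := by
      rw [← Nat.cast_one, ZMod.natCast_eq_natCast_iff, Nat.ModEq, Nat.mod_eq_of_lt (show 1 < l by omega)]
    by_cases h2 : n % l = 1
    · rw [if_pos h2, if_pos (h1.mpr h2)]
      have h3 : ((l.totient : ℂ) * ((J(a | n) : ℤ) : ℂ)).re = (l.totient : ℝ) * ((J(a | n) : ℤ) : ℝ) := by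
        have : (l.totient : ℂ) * ((J(a | n) : ℤ) : ℂ) =
          (((l.totient : ℝ) * ((J(a | n) : ℤ) : ℝ) : ℝ) : ℂ) := by push_cast; ring
        rw [this, Complex.ofReal_re]
      rw [h3, ← mul_assoc, inv_mul_cancel₀ hφ, one_mul]
    · rw [if_neg h2, if_neg (fun h => h2 (h1.mp h))]
      simp
  · simp [hn]

/-- linearity of `psum` -/
lemma psum_lin {ι : Type*} (t : Finset ι) (c : ℝ) (g : ι → ℕ → ℝ)
    (hg : ∀ i ∈ t, ∀ n, |g i n| ≤ 1) {s : ℝ} (hs : 1 < s) :
    psum (fun n => c * ∑ i ∈ t, g i n) s = c * ∑ i ∈ t, psum (g i) s := by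
  unfold psum
  rw [← Summable.tsum_finsetSum (fun i hi => summable_psum (hg i hi) hs), ← tsum_mul_left]
  refine tsum_congr fun n => ?_
  by_cases hn : n.Prime
  · simp only [hn, if_true]
    rw [mul_assoc, Finset.sum_mul]
  · simp [hn]

lemma psum_mono {g h : ℕ → ℝ} (hg : ∀ n, |g n| ≤ 1) (hh : ∀ n, |h n| ≤ 1)
    (hgh : ∀ n, n.Prime → g n ≤ h n) {s : ℝ} (hs : 1 < s) : psum g s ≤ psum h s := by
  unfold psum
  refine (summable_psum hg hs).tsum_le_tsum (fun n => ?_) (summable_psum hh hs)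
  split_ifs with hn
  · exact mul_le_mul_of_nonneg_right (hgh n hn) (by positivity)
  · exact le_rfl

lemma psum_congr {g h : ℕ → ℝ} (hgh : ∀ n, n.Prime → g n = h n) (s : ℝ) : psum g s = psum h s := by
  unfold psum
  refine tsum_congr (fun n => ?_)
  split_ifs with hn
  · rw [hgh n hn]
  · rfl

/-- the function whose prime sum is `T` -/
noncomputable def gl (l a : ℕ) : ℕ → ℝ :=
  fun n => if n % l = 1 ∧ Odd n then ((J(a | n) : ℤ) : ℝ) else 0

lemma abs_gl_le (l a n : ℕ) : |gl l a n| ≤ 1 := by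
  unfold gl
  split_ifs
  · exact abs_jacobi_le _ _
  · simp

lemma T_eq_fsum {l : ℕ} (hl : 3 ≤ l) (Y a : ℕ) : T l Y a = fsum (gl l a) Y := by
  unfold T fsum gl
  have h1 : (range Y).filter (fun w => w.Prime ∧ w % l = 1) =
      ((range Y).filter Nat.Prime).filter (fun w => w % l = 1) := by
    rw [Finset.filter_filter]
  rw [h1, Finset.sum_filter]
  refine Finset.sum_congr rfl fun w hw => ?_
  have hp := (Finset.mem_filter.mp hw).2
  by_cases h : w % l = 1
  · have h2 : Odd w := by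
      rcases hp.eq_two_or_odd' with h3 | h3
      · rw [h3, Nat.mod_eq_of_lt (by omega)] at h; omega
      · exact h3
    rw [if_pos h, if_pos ⟨h, h2⟩]
  · rw [if_neg h, if_neg (fun h3 => h h3.1), zero_div]

/-- `T l Y a ≤ log (log (4al) + 4) + C` uniformly in `Y` for `a` such that the character is
nontrivial on the primes `≡ 1 (mod l)`. -/
theorem T_le_of_good : ∃ C : ℝ, 0 ≤ C ∧ ∀ l a Y : ℕ, 3 ≤ l → 0 < a → Good l a → 3 ≤ Y →
    T l Y a ≤ Real.log (Real.log (4 * a * l : ℕ) + 4) + C := by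
  classical
  obtain ⟨C, hC0, hC⟩ := exists_transfer
  have hc2 : 0 ≤ c2 := tsum_nonneg fun n => by positivity
  refine ⟨C + c2, by positivity, fun l a Y hl ha hgood hY => ?_⟩
  have hs := (sx_mem hY).1
  have h1 := hC (gl l a) (abs_gl_le l a) Y hY
  rw [T_eq_fsum hl]
  have : NeZero l := ⟨by omega⟩
  have h2 : psum (gl l a) (sx Y) =
      ((l.totient : ℝ))⁻¹ * ∑ ψ : DirichletCharacter ℂ l, psum (fun n => (jc l ψ a n).re) (sx Y) := by
    rw [← psum_lin Finset.univ _ (fun (ψ : DirichletCharacter ℂ l) n => (jc l ψ a n).re)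
      (fun ψ _ n => (Complex.abs_re_le_norm _).trans (norm_jc_le l ψ a n)) hs]
    congr 1
    ext n
    exact orth (by omega) a n
  have hφ : 0 < (l.totient : ℝ) := by
    have := Nat.totient_pos.mpr (show 0 < l by omega)
    positivity
  have hcard : (Fintype.card (DirichletCharacter ℂ l) : ℝ) = l.totient := by
    rw [← Nat.card_eq_fintype_card, DirichletCharacter.card_eq_totient_of_hasEnoughRootsOfUnity]
  have h3 : psum (gl l a) (sx Y) ≤ Real.log (Real.log (4 * a * l : ℕ) + 4) + c2 := by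
    rw [h2]
    calc ((l.totient : ℝ))⁻¹ * ∑ ψ : DirichletCharacter ℂ l, psum (fun n => (jc l ψ a n).re) (sx Y)
        ≤ ((l.totient : ℝ))⁻¹ * ∑ ψ : DirichletCharacter ℂ l,
          (Real.log (Real.log (4 * a * l : ℕ) + 4) + c2) := by
          apply mul_le_mul_of_nonneg_left _ (by positivity)
          exact Finset.sum_le_sum fun ψ _ => psum_jc_le (by omega) ψ ha hgood hs
      _ = Real.log (Real.log (4 * a * l : ℕ) + 4) + c2 := by
          rw [Finset.sum_const, Finset.card_univ, nsmul_eq_mul, hcard, ← mul_assoc,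
            inv_mul_cancel₀ hφ.ne', one_mul]
  have h4 := abs_le.mp h1
  linarith [h4.2]

/-! ### Which `a` are good -/

lemma jacobi_one_mod {c n : ℕ} (hc : 0 < c) (h : n % (4 * c) = 1) : J(c | n) = 1 := by
  have hodd : Odd n := by
    rw [Nat.odd_iff]
    have h1 : n % (4 * c) % 2 = n % 2 := Nat.mod_mod_of_dvd n ⟨2 * c, by ring⟩
    rw [h] at h1
    omega
  rw [jacobiSym.mod_right' c hodd, h, jacobiSym.one_right]

lemma good_of_odd_prime {l p c : ℕ} (hl : l.Prime) (hl3 : 3 ≤ l) (hp : p.Prime) (hp2 : p ≠ 2)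
    (hpl : p ≠ l) (hc : 0 < c) (hpc : ¬ p ∣ c) : Good l (p * c) := by
  have : Fact p.Prime := ⟨hp⟩
  obtain ⟨b, hb⟩ : ∃ b : ZMod p, ¬ IsSquare b := FiniteField.exists_nonsquare (by
    rw [ZMod.ringChar_zmod_n]; exact hp2)
  have hcop : p.Coprime (4 * c * l) := by
    rw [Nat.Prime.coprime_iff_not_dvd hp]
    intro h
    rcases (Nat.Prime.dvd_mul hp).mp h with h | h
    · rcases (Nat.Prime.dvd_mul hp).mp h with h | h
      · have h1 : p ∣ 2 ^ 2 := by simpa using h
        exact hp2 ((Nat.prime_dvd_prime_iff_eq hp Nat.prime_two).mp (hp.dvd_of_dvd_pow h1))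
      · exact hpc h
    · exact hpl ((Nat.prime_dvd_prime_iff_eq hp hl).mp h)
  obtain ⟨n₀, hn1, hn2⟩ := Nat.chineseRemainder hcop b.val 1
  have h4cl : 1 < 4 * c * l := by nlinarith
  have h1 : n₀ % (4 * c * l) = 1 := by
    have : n₀ % (4 * c * l) = 1 % (4 * c * l) := hn2
    rw [this, Nat.mod_eq_of_lt h4cl]
  have hb0 : b ≠ 0 := by rintro rfl; exact hb ⟨0, by simp⟩
  have hnb : ((n₀ : ℕ) : ZMod p) = b := by
    have h2 : ((n₀ : ℕ) : ZMod p) = ((b.val : ℕ) : ZMod p) :=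
      (ZMod.natCast_eq_natCast_iff _ _ _).mpr hn1
    rw [h2, ZMod.natCast_zmod_val]
  have hleg : J(n₀ | p) = -1 := by
    rw [← jacobiSym.legendreSym.to_jacobiSym, legendreSym.eq_neg_one_iff]
    simpa [hnb] using hb
  have h4 : n₀ % 4 = 1 := by
    have h3 : n₀ % (4 * c * l) % 4 = n₀ % 4 := Nat.mod_mod_of_dvd n₀ ⟨c * l, by ring⟩
    rw [h1] at h3
    omega
  have hodd : Odd p := hp.odd_of_ne_two hp2
  refine ⟨n₀, ?_, ?_, ?_⟩
  · have h3 : n₀ % (4 * c * l) % l = n₀ % l := Nat.mod_mod_of_dvd n₀ ⟨4 * c, by ring⟩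
    rw [h1, Nat.mod_eq_of_lt (by omega)] at h3
    exact h3.symm
  · have h5 : n₀.Coprime (4 * c * l) := by
      have : n₀.gcd (4 * c * l) = (n₀ % (4 * c * l)).gcd (4 * c * l) := by
        rw [← Nat.gcd_rec, Nat.gcd_comm]
      rw [Nat.Coprime, this, h1, Nat.gcd_one_left]
    have h6 : n₀.Coprime p := by
      rw [Nat.coprime_comm, Nat.Prime.coprime_iff_not_dvd hp]
      intro h
      apply hb0
      rw [← hnb]
      exact (ZMod.natCast_eq_zero_iff _ _).mpr h
    have h7 : 4 * (p * c) * l = p * (4 * c * l) := by ring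
    rw [h7]
    exact Nat.Coprime.mul_right h6 h5
  · push_cast
    rw [jacobiSym.mul_left]
    have h8 : J((p : ℤ) | n₀) = -1 := by
      rw [jacobiSym.quadratic_reciprocity_one_mod_four' hodd h4]
      exact hleg
    have h9 : J((c : ℤ) | n₀) = 1 := by
      apply jacobi_one_mod hc
      have h3 : n₀ % (4 * c * l) % (4 * c) = n₀ % (4 * c) := Nat.mod_mod_of_dvd n₀ ⟨l, rfl⟩
      rw [h1, Nat.mod_eq_of_lt (by omega)] at h3
      exact h3.symm
    rw [h8, h9]; norm_num

lemma good_of_two {l c : ℕ} (hl : l.Prime) (hl3 : 3 ≤ l) (hc : Odd c) : Good l (2 * c) := by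
  have hlodd : Odd l := hl.odd_of_ne_two (by omega)
  have hcop : (8 : ℕ).Coprime (c * l) := by
    have : Odd (c * l) := hc.mul hlodd
    rw [show (8 : ℕ) = 2 ^ 3 by norm_num]
    exact Nat.Coprime.pow_left 3 (Nat.coprime_two_left.mpr this)
  obtain ⟨n₀, hn1, hn2⟩ := Nat.chineseRemainder hcop 5 1
  have hc0 : 0 < c := hc.pos
  have h1 : n₀ % (c * l) = 1 := by
    have : n₀ % (c * l) = 1 % (c * l) := hn2
    rw [this, Nat.mod_eq_of_lt (by nlinarith)]
  have h8 : n₀ % 8 = 5 := hn1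
  have hodd : Odd n₀ := by rw [Nat.odd_iff]; omega
  refine ⟨n₀, ?_, ?_, ?_⟩
  · have h3 : n₀ % (c * l) % l = n₀ % l := Nat.mod_mod_of_dvd n₀ ⟨c, by ring⟩
    rw [h1, Nat.mod_eq_of_lt (by omega)] at h3
    exact h3.symm
  · have h5 : n₀.Coprime (c * l) := by
      have : n₀.gcd (c * l) = (n₀ % (c * l)).gcd (c * l) := by
        rw [← Nat.gcd_rec, Nat.gcd_comm]
      rw [Nat.Coprime, this, h1, Nat.gcd_one_left]
    have h6 : n₀.Coprime 8 := by
      rw [show (8 : ℕ) = 2 ^ 3 by norm_num]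
      exact Nat.Coprime.pow_right 3 (Nat.coprime_two_right.mpr hodd)
    have h7 : 4 * (2 * c) * l = 8 * (c * l) := by ring
    rw [h7]
    exact Nat.Coprime.mul_right h6 h5
  · push_cast
    rw [jacobiSym.mul_left]
    have h9 : J((2 : ℤ) | n₀) = -1 := by
      rw [jacobiSym.at_two hodd]
      have : ((n₀ : ℕ) : ZMod 8) = 5 := by
        have h10 : ((n₀ : ℕ) : ZMod 8) = ((5 : ℕ) : ZMod 8) :=
          (ZMod.natCast_eq_natCast_iff _ _ _).mpr hn1
        rw [h10]; rfl
      rw [this]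
      decide
    have h10 : J((c : ℤ) | n₀) = 1 := by
      apply jacobi_one_mod hc0
      have h11 : n₀ ≡ 1 [MOD 4 * c] := by
        have h12 : (4 : ℕ).Coprime c := by
          rw [show (4 : ℕ) = 2 ^ 2 by norm_num]
          exact Nat.Coprime.pow_left 2 (Nat.coprime_two_left.mpr hc)
        rw [← Nat.modEq_and_modEq_iff_modEq_mul h12]
        constructor
        · show n₀ % 4 = 1 % 4; omega
        · exact hn2.of_dvd (Dvd.intro _ rfl)
      have h13 : n₀ % (4 * c) = 1 % (4 * c) := h11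
      rw [h13, Nat.mod_eq_of_lt (by omega)]
    rw [h9, h10]; norm_num

lemma good_self {l : ℕ} (hl : l.Prime) (hl4 : l % 4 = 3) : Good l l := by
  have hlodd : Odd l := by rw [Nat.odd_iff]; omega
  have hcop : (4 : ℕ).Coprime l := by
    rw [show (4 : ℕ) = 2 ^ 2 by norm_num]
    exact Nat.Coprime.pow_left 2 (Nat.coprime_two_left.mpr hlodd)
  obtain ⟨n₀, hn1, hn2⟩ := Nat.chineseRemainder hcop 3 1
  have h1 : n₀ % l = 1 := by
    have : n₀ % l = 1 % l := hn2
    rw [this, Nat.mod_eq_of_lt hl.one_lt]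
  have h4 : n₀ % 4 = 3 := hn1
  have hodd : Odd n₀ := by rw [Nat.odd_iff]; omega
  refine ⟨n₀, h1, ?_, ?_⟩
  · have h5 : n₀.Coprime l := by
      have : n₀.gcd l = (n₀ % l).gcd l := by
        rw [← Nat.gcd_rec, Nat.gcd_comm]
      rw [Nat.Coprime, this, h1, Nat.gcd_one_left]
    have h6 : n₀.Coprime 4 := by
      rw [show (4 : ℕ) = 2 ^ 2 by norm_num]
      exact Nat.Coprime.pow_right 2 (Nat.coprime_two_right.mpr hodd)
    exact Nat.Coprime.mul_right (Nat.Coprime.mul_right h6 h5) h5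
  · rw [jacobiSym.quadratic_reciprocity_three_mod_four hl4 h4, jacobiSym.mod_left]
    have : ((n₀ : ℤ) % (l : ℤ)) = 1 := by exact_mod_cast h1
    rw [this, jacobiSym.one_left]

/-- all squarefree `a > 1` are good, except possibly `a = l` for `l ≡ 1 (mod 4)` -/
lemma good_of_squarefree {l a : ℕ} (hl : l.Prime) (hl3 : 3 ≤ l) (ha : Squarefree a) (ha1 : a ≠ 1)
    (hal : a ≠ l ∨ l % 4 = 3) : Good l a := by
  have ha0 : a ≠ 0 := ha.ne_zero
  by_cases h2 : 2 ∣ a
  · obtain ⟨c, rfl⟩ := h2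
    apply good_of_two hl hl3
    rw [← Nat.coprime_two_left]
    exact Nat.coprime_of_squarefree_mul ha
  · by_cases hex : ∃ p : ℕ, p.Prime ∧ p ≠ l ∧ p ∣ a
    · obtain ⟨p, hp, hpl, c, rfl⟩ := hex
      have hc0 : 0 < c := Nat.pos_of_ne_zero (by rintro rfl; simp at ha0)
      refine good_of_odd_prime hl hl3 hp ?_ hpl hc0 ?_
      · rintro rfl; exact h2 (Dvd.intro _ rfl)
      · rw [← Nat.Prime.coprime_iff_not_dvd hp]
        exact Nat.coprime_of_squarefree_mul ha
    · push Not at hex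
      have h3 : a = l := by
        have hp : ∀ p, p.Prime → p ∣ a → p = l := fun p hp hpa => by
          by_contra h; exact hex p hp h hpa
        have h4 : a = a.primeFactors.prod id := (Nat.prod_primeFactors_of_squarefree ha).symm
        have h5 : a.primeFactors = {l} := by
          ext q
          rw [Nat.mem_primeFactors, Finset.mem_singleton]
          constructor
          · rintro ⟨h6, h7, _⟩; exact hp q h6 h7
          · rintro rfl
            refine ⟨hl, ?_, ha0⟩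
            obtain ⟨r, hr, hra⟩ := Nat.exists_prime_and_dvd ha1
            rw [← hp r hr hra]
            exact hra
        rw [h4, h5]; simp
      rcases hal with h | h
      · exact absurd h3 h
      · rw [h3]; exact good_self hl h

end Pool.Agent.Lib.MP_79499b_co.Q38
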