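import Pool.Agent.Lib.MP_79499b_co.Q38Zones

/-!
# The total weight of the bad integers
-/

namespace Pool.Agent.Lib.MP_79499b_co.Q38

open Finset
open scoped NumberTheorySymbols

lemma sum_union_le' (A B : Finset ℕ) (f : ℕ → ℝ) (hf : ∀ n, 0 ≤ f n) :
    ∑ n ∈ A ∪ B, f n ≤ ∑ n ∈ A, f n + ∑ n ∈ B, f n := by
  classical
  rw [← Finset.sum_union_inter]
  have : 0 ≤ ∑ n ∈ A ∩ B, f n := Finset.sum_nonneg fun n _ => hf n
  linarith

lemma sum_biUnion_le' {ι : Type*} [DecidableEq ι] (S : Finset ι) (B : ι → Finset ℕ) (f : ℕ → ℝ)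
    (hf : ∀ n, 0 ≤ f n) : ∑ n ∈ S.biUnion B, f n ≤ ∑ i ∈ S, ∑ n ∈ B i, f n := by
  classical
  induction S using Finset.induction_on with
  | empty => simp
  | insert a S ha ih =>
    rw [Finset.biUnion_insert, Finset.sum_insert ha]
    exact (sum_union_le' _ _ f hf).trans (by linarith)

/-- the bad integers up to `x` -/
noncomputable def badSet (l Y Z x : ℕ) : Finset ℕ := by
  classical
  exact (range (x + 1)).filter (fun b => (Odd b ∧ Squarefree b) ∧ Z ^ 2 ≤ b ∧ IsBad l Y Z b)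

lemma mem_badSet {l Y Z x b : ℕ} :
    b ∈ badSet l Y Z x ↔ b ≤ x ∧ (Odd b ∧ Squarefree b) ∧ Z ^ 2 ≤ b ∧ IsBad l Y Z b := by
  classical
  unfold badSet
  rw [Finset.mem_filter, Finset.mem_range, Nat.lt_succ_iff]

lemma U_bound {j Z : ℕ} (hZ : 1 ≤ Z) (hj : Z ^ 2 < 2 ^ (j + 1)) :
    2 * (((2 ^ (j / 8) : ℕ) : ℝ)) ^ 2 / 2 ^ j ≤ 4 / (Z : ℝ) := by
  have hZ0 : (0 : ℝ) < Z := by exact_mod_cast hZ
  have h1 : ((Z : ℝ)) ^ 2 < 2 * 2 ^ j := by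
    have : ((Z ^ 2 : ℕ) : ℝ) < ((2 ^ (j + 1) : ℕ) : ℝ) := by exact_mod_cast hj
    push_cast at this
    rw [pow_succ (2 : ℝ) j] at this
    linarith
  have h2 : ((((2 ^ (j / 8) : ℕ) : ℝ)) ^ 2) ^ 2 ≤ 2 ^ j := by
    push_cast
    rw [← pow_mul, ← pow_mul]
    apply pow_le_pow_right₀ (by norm_num)
    omega
  set u : ℝ := (((2 ^ (j / 8) : ℕ) : ℝ)) ^ 2 with hu
  have hu0 : 0 ≤ u := by positivity
  have hp : (0 : ℝ) < 2 ^ j := by positivity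
  rw [div_le_div_iff₀ hp hZ0]
  -- 2 u Z ≤ 4 * 2^j
  have h3 : (u * Z) ^ 2 ≤ (2 * 2 ^ j) ^ 2 := by
    rw [mul_pow]
    calc u ^ 2 * (Z : ℝ) ^ 2 ≤ 2 ^ j * (2 * 2 ^ j) :=
          mul_le_mul h2 h1.le (by positivity) (by positivity)
      _ ≤ (2 * 2 ^ j) ^ 2 := by nlinarith
  have h4 : u * Z ≤ 2 * 2 ^ j := by
    have := abs_le_of_sq_le_sq' h3 (by positivity)
    exact this.2
  linarith

theorem block_weight {l Y Z j : ℕ} (hl : 3 ≤ l) (hZ : 1 ≤ Z) (hj : Z ^ 2 < 2 ^ (j + 1))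
    (B : Finset ℕ) (hB : ∀ b ∈ B, b ∈ Ico (2 ^ j) (2 ^ (j + 1)) ∧ (Odd b ∧ Squarefree b) ∧
      IsBad l Y Z b) :
    ∑ b ∈ B, 1 / (b : ℝ) ≤
      (12 + 8 * Real.sqrt (6 * (msum 1 0 Y * ((Nat.log 2 Y : ℝ) + 1)))) / Z := by
  classical
  have hZ0 : (0 : ℝ) < Z := by exact_mod_cast hZ
  set B1 := (Ico (2 ^ j) (2 ^ (j + 1))).filter
      (fun b : ℕ => 1 < |∑ w ∈ W l Y Z (2 ^ (j / 8)), (fun _ : ℕ => (1 : ℝ)) w / w * ((J((b : ℤ) | w) : ℤ) : ℝ)|)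
    with hB1
  set B2 := (Ico (2 ^ j) (2 ^ (j + 1))).filter
      (fun b : ℕ => 1 < |∑ w ∈ W l Y Z (2 ^ (j / 8)), (fun w : ℕ => ((J((2 : ℤ) | w) : ℤ) : ℝ)) w / w *
        ((J((b : ℤ) | w) : ℤ) : ℝ)|) with hB2
  set B3 : ℕ → Finset ℕ := fun c => (Ico (2 ^ j) (2 ^ (j + 1))).filter
      (fun b : ℕ => (Odd b ∧ Squarefree b) ∧ 1 < |∑ w ∈ (W l Y (2 ^ (8 * j)) Y).filter
        (fun w => w % 8 = c), 1 / (w : ℝ) * ((J((w : ℤ) | b) : ℤ) : ℝ)|) with hB3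
  have hsub : B ⊆ B1 ∪ (B2 ∪ (range 8).biUnion B3) := by
    intro b hb
    obtain ⟨h1, h2, h3⟩ := hB b hb
    have hlog : Nat.log 2 b = j := by
      rw [Finset.mem_Ico] at h1
      exact (Nat.log_eq_iff (Or.inr ⟨by norm_num, by
        have : 0 < 2 ^ j := by positivity
        omega⟩)).mpr h1
    unfold IsBad at h3
    rw [hlog] at h3
    rw [Finset.mem_union, Finset.mem_union, Finset.mem_biUnion]
    rcases h3 with h3 | h3 | ⟨c, hc, h3⟩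
    · left; rw [hB1, Finset.mem_filter]; exact ⟨h1, h3⟩
    · right; left; rw [hB2, Finset.mem_filter]; exact ⟨h1, h3⟩
    · right; right; exact ⟨c, Finset.mem_range.mpr hc, by rw [hB3, Finset.mem_filter]; exact ⟨h1, h2, h3⟩⟩
  have e1 : ∑ b ∈ B1, 1 / (b : ℝ) ≤ 6 / Z := by
    have := zone1 (l := l) (Y := Y) (Z := Z) (U := 2 ^ (j / 8)) (j := j) hl hZ (fun _ => 1) (by simp)
    refine this.trans ?_
    have h2 := U_bound hZ hj
    calc 2 / (Z : ℝ) + 2 * (((2 ^ (j / 8) : ℕ) : ℝ)) ^ 2 / 2 ^ j ≤ 2 / (Z : ℝ) + 4 / (Z : ℝ) := by linarith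
      _ = 6 / Z := by ring
  have e2 : ∑ b ∈ B2, 1 / (b : ℝ) ≤ 6 / Z := by
    have := zone1 (l := l) (Y := Y) (Z := Z) (U := 2 ^ (j / 8)) (j := j) hl hZ
      (fun w => ((J((2 : ℤ) | w) : ℤ) : ℝ)) (fun w => abs_jac_le _ _)
    refine this.trans ?_
    have h2 := U_bound hZ hj
    calc 2 / (Z : ℝ) + 2 * (((2 ^ (j / 8) : ℕ) : ℝ)) ^ 2 / 2 ^ j ≤ 2 / (Z : ℝ) + 4 / (Z : ℝ) := by linarith
      _ = 6 / Z := by ring
  have hm0 : 0 ≤ msum 1 0 Y := Finset.sum_nonneg fun w _ => by positivity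
  have e3 : ∀ c ∈ range 8, ∑ b ∈ B3 c, 1 / (b : ℝ) ≤
      Real.sqrt (6 * (msum 1 0 Y * ((Nat.log 2 Y : ℝ) + 1))) / Z := by
    intro c _
    have h3 := zone3 (l := l) (Y := Y) (j := j) (c := c)
    have h0 : 0 ≤ ∑ b ∈ B3 c, 1 / (b : ℝ) := Finset.sum_nonneg fun b _ => by positivity
    have h4 : (3 : ℝ) / 2 ^ j ≤ 6 / (Z : ℝ) ^ 2 := by
      rw [div_le_div_iff₀ (by positivity) (by positivity)]
      have : ((Z ^ 2 : ℕ) : ℝ) < ((2 ^ (j + 1) : ℕ) : ℝ) := by exact_mod_cast hj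
      push_cast at this
      rw [pow_succ (2 : ℝ) j] at this
      linarith
    have h5 : (∑ b ∈ B3 c, 1 / (b : ℝ)) ^ 2 ≤
        6 * (msum 1 0 Y * ((Nat.log 2 Y : ℝ) + 1)) / (Z : ℝ) ^ 2 := by
      calc (∑ b ∈ B3 c, 1 / (b : ℝ)) ^ 2 ≤ msum 1 0 Y * (((Nat.log 2 Y : ℝ) + 1) * (3 / 2 ^ j)) := h3
        _ ≤ msum 1 0 Y * (((Nat.log 2 Y : ℝ) + 1) * (6 / (Z : ℝ) ^ 2)) := by gcongr
        _ = 6 * (msum 1 0 Y * ((Nat.log 2 Y : ℝ) + 1)) / (Z : ℝ) ^ 2 := by ring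
    have h6 : ∑ b ∈ B3 c, 1 / (b : ℝ) ≤
        Real.sqrt (6 * (msum 1 0 Y * ((Nat.log 2 Y : ℝ) + 1)) / (Z : ℝ) ^ 2) := Real.le_sqrt_of_sq_le h5
    rw [Real.sqrt_div (by positivity), Real.sqrt_sq hZ0.le] at h6
    exact h6
  calc ∑ b ∈ B, 1 / (b : ℝ) ≤ ∑ b ∈ B1 ∪ (B2 ∪ (range 8).biUnion B3), 1 / (b : ℝ) :=
        Finset.sum_le_sum_of_subset_of_nonneg hsub fun _ _ _ => by positivity
    _ ≤ ∑ b ∈ B1, 1 / (b : ℝ) + ∑ b ∈ B2 ∪ (range 8).biUnion B3, 1 / (b : ℝ) :=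
        sum_union_le' _ _ _ (fun _ => by positivity)
    _ ≤ ∑ b ∈ B1, 1 / (b : ℝ) + (∑ b ∈ B2, 1 / (b : ℝ) + ∑ b ∈ (range 8).biUnion B3, 1 / (b : ℝ)) := by
        gcongr
        exact sum_union_le' _ _ _ (fun _ => by positivity)
    _ ≤ 6 / Z + (6 / Z + ∑ c ∈ range 8, ∑ b ∈ B3 c, 1 / (b : ℝ)) := by
        gcongr
        exact sum_biUnion_le' _ _ _ (fun _ => by positivity)
    _ ≤ 6 / Z + (6 / Z + ∑ c ∈ range 8,
        Real.sqrt (6 * (msum 1 0 Y * ((Nat.log 2 Y : ℝ) + 1))) / Z) := by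
        gcongr with c hc
        exact e3 c hc
    _ = _ := by
        rw [Finset.sum_const, Finset.card_range, nsmul_eq_mul]
        push_cast
        ring

theorem bad_weight {l Y Z x : ℕ} (hl : 3 ≤ l) (hZ : 1 ≤ Z) :
    ∑ b ∈ badSet l Y Z x, 1 / (b : ℝ) ≤ ((Nat.log 2 x : ℝ) + 1) *
      ((12 + 8 * Real.sqrt (6 * (msum 1 0 Y * ((Nat.log 2 Y : ℝ) + 1)))) / Z) := by
  classical
  set B : ℕ → Finset ℕ := fun j => (badSet l Y Z x).filter (fun b => Nat.log 2 b = j) with hB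
  have h1 : badSet l Y Z x = (range (Nat.log 2 x + 1)).biUnion B := by
    ext b
    rw [Finset.mem_biUnion]
    constructor
    · intro hb
      refine ⟨Nat.log 2 b, ?_, ?_⟩
      · exact Finset.mem_range.mpr (Nat.lt_succ_of_le (Nat.log_mono_right (mem_badSet.mp hb).1))
      · rw [hB, Finset.mem_filter]; exact ⟨hb, rfl⟩
    · rintro ⟨j, _, hb⟩
      rw [hB, Finset.mem_filter] at hb
      exact hb.1
  have hpos : ∀ b ∈ badSet l Y Z x, b ≠ 0 := fun b hb => (mem_badSet.mp hb).2.1.1.pos.ne'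
  calc ∑ b ∈ badSet l Y Z x, 1 / (b : ℝ) = ∑ b ∈ (range (Nat.log 2 x + 1)).biUnion B, 1 / (b : ℝ) := by
        rw [← h1]
    _ ≤ ∑ j ∈ range (Nat.log 2 x + 1), ∑ b ∈ B j, 1 / (b : ℝ) :=
        sum_biUnion_le' _ _ _ (fun _ => by positivity)
    _ ≤ ∑ j ∈ range (Nat.log 2 x + 1),
        ((12 + 8 * Real.sqrt (6 * (msum 1 0 Y * ((Nat.log 2 Y : ℝ) + 1)))) / Z) := by
        refine Finset.sum_le_sum fun j _ => ?_
        by_cases hj : Z ^ 2 < 2 ^ (j + 1)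
        · refine block_weight hl hZ hj (B j) (fun b hb => ?_)
          rw [hB, Finset.mem_filter] at hb
          obtain ⟨hb, hlog⟩ := hb
          have h2 := mem_badSet.mp hb
          refine ⟨?_, h2.2.1, h2.2.2.2⟩
          rw [Finset.mem_Ico, ← hlog]
          exact ⟨Nat.pow_log_le_self 2 (hpos b hb), Nat.lt_pow_succ_log_self (by norm_num) b⟩
        · have hempty : B j = ∅ := by
            rw [Finset.eq_empty_iff_forall_notMem]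
            intro b hb
            rw [hB, Finset.mem_filter] at hb
            obtain ⟨hb, hlog⟩ := hb
            have h2 := (mem_badSet.mp hb).2.2.1
            have h3 := Nat.lt_pow_succ_log_self (b := 2) (by norm_num) b
            rw [hlog] at h3
            omega
          rw [hempty, Finset.sum_empty]
          positivity
    _ = _ := by
        rw [Finset.sum_const, Finset.card_range, nsmul_eq_mul]
        push_cast
        ring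

end Pool.Agent.Lib.MP_79499b_co.Q38
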