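import Pool.Agent.Lib.MP_79499b_co.Q38Bad

/-!
# Combination of the zones
-/

namespace Pool.Agent.Lib.MP_79499b_co.Q38

open Finset
open scoped NumberTheorySymbols

/-- `b` is bad if one of the three second moment sums is large -/
def IsBad (l Y Z b : ℕ) : Prop :=
  (1 < |∑ w ∈ W l Y Z (2 ^ (Nat.log 2 b / 8)), (1 : ℝ) / w * ((J((b : ℤ) | w) : ℤ) : ℝ)|) ∨
  (1 < |∑ w ∈ W l Y Z (2 ^ (Nat.log 2 b / 8)), ((J((2 : ℤ) | w) : ℤ) : ℝ) / w *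
    ((J((b : ℤ) | w) : ℤ) : ℝ)|) ∨
  ∃ c < 8, 1 < |∑ w ∈ (W l Y (2 ^ (8 * Nat.log 2 b)) Y).filter (fun w => w % 8 = c),
    1 / (w : ℝ) * ((J((w : ℤ) | b) : ℤ) : ℝ)|

lemma split_W {l Y Z U V : ℕ} (hZV : Z ≤ V) (hUV : U ≤ V) (f : ℕ → ℝ) :
    ∑ w ∈ W l Y 0 Y, f w = ∑ w ∈ W l Y 0 Z, f w + (∑ w ∈ W l Y Z U, f w +
      (∑ w ∈ W l Y (max Z U) V, f w + ∑ w ∈ W l Y V Y, f w)) := by
  classical
  rw [← Finset.sum_filter_add_sum_filter_not (W l Y 0 Y) (fun w => w < Z)]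
  have h1 : (W l Y 0 Y).filter (fun w => w < Z) = W l Y 0 Z := by
    ext w; simp only [Finset.mem_filter, mem_W]
    constructor
    · rintro ⟨⟨a, b, c, d, e⟩, g⟩; exact ⟨a, b, c, d, g⟩
    · rintro ⟨a, b, c, d, e⟩; exact ⟨⟨a, b, c, d, a⟩, e⟩
  rw [h1]
  congr 1
  rw [← Finset.sum_filter_add_sum_filter_not ((W l Y 0 Y).filter (fun w => ¬ w < Z)) (fun w => w < U)]
  congr 1
  · apply Finset.sum_congr _ fun _ _ => rfl
    ext w; simp only [Finset.mem_filter, mem_W]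
    constructor
    · rintro ⟨⟨⟨a, b, c, d, e⟩, g⟩, h⟩; exact ⟨a, b, c, by omega, h⟩
    · rintro ⟨a, b, c, d, e⟩; exact ⟨⟨⟨a, b, c, by omega, a⟩, by omega⟩, e⟩
  · rw [← Finset.sum_filter_add_sum_filter_not (((W l Y 0 Y).filter (fun w => ¬ w < Z)).filter
      (fun w => ¬ w < U)) (fun w => w < V)]
    congr 1
    · apply Finset.sum_congr _ fun _ _ => rfl
      ext w; simp only [Finset.mem_filter, mem_W]
      constructor
      · rintro ⟨⟨⟨⟨a, b, c, d, e⟩, g⟩, h⟩, k⟩; exact ⟨a, b, c, by omega, k⟩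
      · rintro ⟨a, b, c, d, e⟩; exact ⟨⟨⟨⟨a, b, c, by omega, a⟩, by omega⟩, by omega⟩, e⟩
    · apply Finset.sum_congr _ fun _ _ => rfl
      ext w; simp only [Finset.mem_filter, mem_W]
      constructor
      · rintro ⟨⟨⟨⟨a, b, c, d, e⟩, g⟩, h⟩, k⟩; exact ⟨a, b, c, by omega, a⟩
      · rintro ⟨a, b, c, d, e⟩; exact ⟨⟨⟨⟨a, b, c, by omega, a⟩, by omega⟩, by omega⟩, by omega⟩

lemma abs_term_le {ε : ℕ → ℝ} (hε : ∀ w, |ε w| ≤ 1) (b w : ℕ) :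
    |ε w / w * ((J((b : ℤ) | w) : ℤ) : ℝ)| ≤ ((w : ℝ))⁻¹ := by
  rw [abs_mul, abs_div, Nat.abs_cast]
  calc |ε w| / w * |((J((b : ℤ) | w) : ℤ) : ℝ)| ≤ |ε w| / w * 1 :=
        mul_le_mul_of_nonneg_left (abs_jac_le _ _) (by positivity)
    _ ≤ 1 / w := by
        rw [mul_one]
        exact div_le_div_of_nonneg_right (hε w) (Nat.cast_nonneg w)
    _ = ((w : ℝ))⁻¹ := one_div _

lemma abs_zone_le {ε : ℕ → ℝ} (hε : ∀ w, |ε w| ≤ 1) (b : ℕ) {l Y lo hi : ℕ} (S : Finset ℕ)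
    (hS : W l Y lo hi ⊆ S) :
    |∑ w ∈ W l Y lo hi, ε w / w * ((J((b : ℤ) | w) : ℤ) : ℝ)| ≤ ∑ w ∈ S, ((w : ℝ))⁻¹ := by
  calc _ ≤ ∑ w ∈ W l Y lo hi, |ε w / w * ((J((b : ℤ) | w) : ℤ) : ℝ)| := Finset.abs_sum_le_sum_abs _ _
    _ ≤ ∑ w ∈ W l Y lo hi, ((w : ℝ))⁻¹ := Finset.sum_le_sum fun w _ => abs_term_le hε b w
    _ ≤ _ := Finset.sum_le_sum_of_subset_of_nonneg hS fun w _ _ => by positivity

/-- zone 3, all classes -/
lemma zone3_le {l Y b : ℕ} (hl : 3 ≤ l) (hb : Odd b) {ε e : ℕ → ℝ} (he : ∀ c, |e c| ≤ 1)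
    (hε : ∀ w, Odd w → ε w = e (w % 8)) (V : ℕ)
    (h : ∀ c < 8, |∑ w ∈ (W l Y V Y).filter (fun w => w % 8 = c),
      1 / (w : ℝ) * ((J((w : ℤ) | b) : ℤ) : ℝ)| ≤ 1) :
    |∑ w ∈ W l Y V Y, ε w / w * ((J((b : ℤ) | w) : ℤ) : ℝ)| ≤ 8 := by
  classical
  rw [← Finset.sum_fiberwise_of_maps_to (s := W l Y V Y) (t := range 8) (g := fun w => w % 8)
    (fun w _ => Finset.mem_range.mpr (Nat.mod_lt _ (by norm_num)))]
  calc _ ≤ ∑ c ∈ range 8, |∑ w ∈ (W l Y V Y).filter (fun w => w % 8 = c),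
        ε w / w * ((J((b : ℤ) | w) : ℤ) : ℝ)| := Finset.abs_sum_le_sum_abs _ _
    _ ≤ ∑ c ∈ range 8, (1 : ℝ) := by
        refine Finset.sum_le_sum fun c hc => ?_
        have hc8 := Finset.mem_range.mp hc
        have h1 : ∑ w ∈ (W l Y V Y).filter (fun w => w % 8 = c),
            ε w / w * ((J((b : ℤ) | w) : ℤ) : ℝ) =
            (e c * (if b % 4 = 3 ∧ c % 4 = 3 then -1 else 1)) *
              ∑ w ∈ (W l Y V Y).filter (fun w => w % 8 = c),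
                1 / (w : ℝ) * ((J((w : ℤ) | b) : ℤ) : ℝ) := by
          rw [Finset.mul_sum]
          refine Finset.sum_congr rfl fun w hw => ?_
          rw [Finset.mem_filter, mem_W] at hw
          obtain ⟨⟨_, hwp, hwl, _⟩, hwc⟩ := hw
          have hwo := odd_of_mod hl hwp hwl
          have h2 : w % 4 = c % 4 := by omega
          have h3 := jacobiSym.quadratic_reciprocity_if (Nat.odd_iff.mp hb) (Nat.odd_iff.mp hwo)
          rw [hε w hwo, hwc, ← h3, h2]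
          split_ifs
          · push_cast; ring
          · ring
        rw [h1, abs_mul]
        have h4 : |e c * (if b % 4 = 3 ∧ c % 4 = 3 then -1 else 1)| ≤ 1 := by
          split_ifs
          · rw [mul_neg, mul_one, abs_neg]; exact he c
          · rw [mul_one]; exact he c
        exact mul_le_one₀ h4 (abs_nonneg _) (h c hc8)
    _ = 8 := by simp

/-- all zones together -/
lemma zones_le {l Y Z b U V : ℕ} (hl : 3 ≤ l) (hb : Odd b) {ε e : ℕ → ℝ} (he : ∀ c, |e c| ≤ 1)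
    (hε1 : ∀ w, |ε w| ≤ 1) (hε : ∀ w, Odd w → ε w = e (w % 8)) (hZV : Z ≤ V) (hUV : U ≤ V)
    (h1 : |∑ w ∈ W l Y Z U, ε w / w * ((J((b : ℤ) | w) : ℤ) : ℝ)| ≤ 1)
    (h : ∀ c < 8, |∑ w ∈ (W l Y V Y).filter (fun w => w % 8 = c),
      1 / (w : ℝ) * ((J((w : ℤ) | b) : ℤ) : ℝ)| ≤ 1) :
    |∑ w ∈ W l Y 0 Y, ε w / w * ((J((b : ℤ) | w) : ℤ) : ℝ)| ≤
      msum 1 0 Z + 9 + (msum 1 0 V - msum 1 0 U) := by
  classical
  rw [split_W hZV hUV]
  have h3 := zone3_le hl hb he hε V h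
  have h0 : |∑ w ∈ W l Y 0 Z, ε w / w * ((J((b : ℤ) | w) : ℤ) : ℝ)| ≤ msum 1 0 Z := by
    unfold msum
    apply abs_zone_le hε1
    intro w hw
    rw [mem_W] at hw
    rw [Finset.mem_filter, Finset.mem_range]
    exact ⟨hw.2.2.2.2, hw.2.1, Nat.mod_one w⟩
  have h2 : |∑ w ∈ W l Y (max Z U) V, ε w / w * ((J((b : ℤ) | w) : ℤ) : ℝ)| ≤
      msum 1 0 V - msum 1 0 U := by
    have h4 : msum 1 0 V - msum 1 0 U =
        ∑ w ∈ ((range V).filter (fun p => p.Prime ∧ p % 1 = 0)) \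
          ((range U).filter (fun p => p.Prime ∧ p % 1 = 0)), ((w : ℝ))⁻¹ := by
      unfold msum
      rw [Finset.sum_sdiff_eq_sub]
      exact Finset.filter_subset_filter _ (Finset.range_mono hUV)
    rw [h4]
    apply abs_zone_le hε1
    intro w hw
    rw [mem_W] at hw
    rw [Finset.mem_sdiff, Finset.mem_filter, Finset.mem_filter, Finset.mem_range, Finset.mem_range]
    refine ⟨⟨hw.2.2.2.2, hw.2.1, Nat.mod_one w⟩, fun h5 => ?_⟩
    have := hw.2.2.2.1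
    omega
  calc _ ≤ |∑ w ∈ W l Y 0 Z, ε w / w * ((J((b : ℤ) | w) : ℤ) : ℝ)| +
        |(∑ w ∈ W l Y Z U, ε w / w * ((J((b : ℤ) | w) : ℤ) : ℝ) +
          (∑ w ∈ W l Y (max Z U) V, ε w / w * ((J((b : ℤ) | w) : ℤ) : ℝ) +
            ∑ w ∈ W l Y V Y, ε w / w * ((J((b : ℤ) | w) : ℤ) : ℝ)))| := abs_add_le _ _
    _ ≤ _ + (|∑ w ∈ W l Y Z U, ε w / w * ((J((b : ℤ) | w) : ℤ) : ℝ)| +
        |(∑ w ∈ W l Y (max Z U) V, ε w / w * ((J((b : ℤ) | w) : ℤ) : ℝ) +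
            ∑ w ∈ W l Y V Y, ε w / w * ((J((b : ℤ) | w) : ℤ) : ℝ))|) := by
        gcongr; exact abs_add_le _ _
    _ ≤ _ + (_ + (|∑ w ∈ W l Y (max Z U) V, ε w / w * ((J((b : ℤ) | w) : ℤ) : ℝ)| +
            |∑ w ∈ W l Y V Y, ε w / w * ((J((b : ℤ) | w) : ℤ) : ℝ)|)) := by
        gcongr; exact abs_add_le _ _
    _ ≤ msum 1 0 Z + (1 + ((msum 1 0 V - msum 1 0 U) + 8)) := by gcongr
    _ = _ := by ring

lemma T_eq_W (l Y a : ℕ) : T l Y a = ∑ w ∈ W l Y 0 Y, ((J((a : ℤ) | w) : ℤ) : ℝ) / w := by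
  unfold T
  apply Finset.sum_congr _ fun _ _ => rfl
  ext w
  rw [mem_W, Finset.mem_filter, Finset.mem_range]
  constructor
  · rintro ⟨a, b, c⟩; exact ⟨a, b, c, Nat.zero_le _, a⟩
  · rintro ⟨a, b, c, d, e⟩; exact ⟨a, b, c⟩

/-- `T` is small at `b` and at `2b` when `b` is not bad -/
lemma T_le_of_not_bad {l Y Z b : ℕ} (hl : 3 ≤ l) (hb : Odd b)
    (hZV : Z ≤ 2 ^ (8 * Nat.log 2 b)) (hbad : ¬ IsBad l Y Z b) :
    T l Y b ≤ msum 1 0 Z + 9 + (msum 1 0 (2 ^ (8 * Nat.log 2 b)) - msum 1 0 (2 ^ (Nat.log 2 b / 8))) ∧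
    T l Y (2 * b) ≤
      msum 1 0 Z + 9 + (msum 1 0 (2 ^ (8 * Nat.log 2 b)) - msum 1 0 (2 ^ (Nat.log 2 b / 8))) := by
  unfold IsBad at hbad
  push Not at hbad
  obtain ⟨h1, h2, h3⟩ := hbad
  have hUV : 2 ^ (Nat.log 2 b / 8) ≤ 2 ^ (8 * Nat.log 2 b) :=
    Nat.pow_le_pow_right (by norm_num) (by omega)
  constructor
  · have h := zones_le (ε := fun _ => 1) (e := fun _ => 1) hl hb (by simp) (by simp)
      (fun _ _ => rfl) hZV hUV h1 h3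
    rw [T_eq_W]
    refine le_trans (le_of_eq ?_) ((le_abs_self _).trans h)
    refine Finset.sum_congr rfl fun w _ => ?_
    ring
  · have h := zones_le (ε := fun w => ((J((2 : ℤ) | w) : ℤ) : ℝ))
      (e := fun c => ((ZMod.χ₈ c : ℤ) : ℝ)) hl hb (by
        intro c
        have : ∀ c : ZMod 8, ZMod.χ₈ c = 0 ∨ ZMod.χ₈ c = 1 ∨ ZMod.χ₈ c = -1 := by decide
        rcases this (c : ZMod 8) with h | h | h <;> simp only [h] <;> simp)
      (fun w => abs_jac_le _ _) (by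
        intro w hw
        rw [jacobiSym.at_two hw]
        congr 2
        rw [ZMod.natCast_mod]) hZV hUV h2 h3
    rw [T_eq_W]
    refine le_trans (le_of_eq ?_) ((le_abs_self _).trans h)
    refine Finset.sum_congr rfl fun w _ => ?_
    push_cast
    rw [jacobiSym.mul_left]
    push_cast
    ring

end Pool.Agent.Lib.MP_79499b_co.Q38
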