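import Pool.Agent.Lib.MP_79499b_co.Q38Primes

/-!
# The orders of Singer-parameter difference sets with `m` odd are about as rare as the primes

For every `L ≥ 3` and every `ε > 0` the number of all `n < x` such that for some odd `m ≥ 3` having
a prime factor `≤ L` some finite group of order `(n^m - 1)/(n - 1)` contains a difference set with
the Singer parameters is at most `C x / (log x)^(1 - ε)` and at least `c x / log x`, with positive
constants `c, C` depending on `L` and `ε` only.  (For a single odd `m` take `L = m` in the upper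
bound.)
-/

set_option autoImplicit false

namespace Pool.Agent.Lib.MP_79499b_co.QuantitativeOrdersOld

open Pool.Agent.Lib.MP_79499b_co

/-- Some finite group of order `v = (n^m - 1)/(n - 1)` contains a difference set with the Singer
parameters `(v, k, λ)`, `k = (n^(m-1) - 1)/(n - 1)`, `λ = (n^(m-2) - 1)/(n - 1)`. -/
def HasSingerDifferenceSet (n m : ℕ) : Prop :=
  ∃ (G : Type) (_ : Group G) (_ : Fintype G) (_ : DecidableEq G) (D : Finset G),
    Fintype.card G * (n - 1) = n ^ m - 1 ∧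
    D.card * (n - 1) = n ^ (m - 1) - 1 ∧
    ∀ g : G, g ≠ 1 →
      ((D ×ˢ D).filter (fun p : G × G => p.1 * p.2⁻¹ = g)).card * (n - 1) = n ^ (m - 2) - 1

/-- The number of all `n` with `2 ≤ n < x` such that for some odd `m ≥ 3` having a prime factor
`l ≤ L` some finite group contains a difference set with the Singer parameters for `(n, m)`. -/
noncomputable def orderCount (L x : ℕ) : ℕ :=
  Set.ncard {n : ℕ | 2 ≤ n ∧ n < x ∧ ∃ m l : ℕ, 3 ≤ m ∧ Odd m ∧ l.Prime ∧ l ≤ L ∧ l ∣ m ∧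
    HasSingerDifferenceSet n m}

lemma orderCount_eq (L x : ℕ) : (orderCount L x : ℝ) =
    Q38.cnt (fun n => 2 ≤ n ∧ ∃ m l : ℕ, 3 ≤ m ∧ Odd m ∧ l.Prime ∧ l ≤ L ∧ l ∣ m ∧
        HasSingerDifferenceSet n m) x := by
  unfold Q38.cnt orderCount
  congr 2
  ext n
  constructor
  · rintro ⟨h4, h5, h6⟩; exact ⟨h5, h4, h6⟩
  · rintro ⟨h5, h4, h6⟩; exact ⟨h4, h5, h6⟩

lemma of_prime {p : ℕ} (hp : p.Prime) : HasSingerDifferenceSet p 3 := by
  obtain ⟨G, h1, h2, h3, D, hG, hD, hlam⟩ := Q38.singer_prime hp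
  have hp2 := hp.two_le
  obtain ⟨r, rfl⟩ : ∃ r, p = r + 1 := ⟨p - 1, by omega⟩
  refine ⟨G, inferInstance, h2, h3, D, ?_, ?_, ?_⟩
  · rw [hG, Nat.add_sub_cancel]
    have : (r + 1) ^ 3 = ((r + 1) ^ 2 + (r + 1) + 1) * r + 1 := by ring
    omega
  · rw [hD, Nat.add_sub_cancel]
    have : (r + 1) ^ (3 - 1) = ((r + 1) + 1) * r + 1 := by
      norm_num
      ring
    omega
  · intro g hg
    rw [hlam g hg]
    simp

theorem result (L : ℕ) (hL : 3 ≤ L) (ε : ℝ) (hε : 0 < ε) :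
    ∃ c C : ℝ, 0 < c ∧ ∀ x : ℕ, 3 ≤ x →
      c * (x / Real.log x) ≤ orderCount L x ∧
      (orderCount L x : ℝ) ≤ C * (x / (Real.log x) ^ (1 - ε)) := by
  have h1 : Q38.Few (fun n => ∃ l ∈ (Finset.range (L + 1)).filter (fun l => l.Prime ∧ 3 ≤ l),
      1 ≤ n ∧ Q38.Exc l n) (1 - ε) := by
    apply Q38.Few.exists
    intro l hl
    rw [Finset.mem_filter] at hl
    exact Q38.nt1' hl.2.1 hl.2.2 hε
  have h2 : Q38.Few (fun n => 2 ≤ n ∧ ∃ m l : ℕ, 3 ≤ m ∧ Odd m ∧ l.Prime ∧ l ≤ L ∧ l ∣ m ∧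
        HasSingerDifferenceSet n m) (1 - ε) := by
    refine h1.mono ?_
    rintro n ⟨hn, m, l, hm, hodd, hl, hlL, hlm, G, _, _, _, D, hG, hD, hlam⟩
    have hl3 : 3 ≤ l := by
      have h3 := hl.two_le
      have h4 : Odd l := Odd.of_dvd_nat hodd hlm
      obtain ⟨t, ht⟩ := h4
      omega
    refine ⟨l, Finset.mem_filter.mpr ⟨Finset.mem_range.mpr (by omega), hl, hl3⟩, by omega, ?_⟩
    exact Q38.exc_of_singer hn hm hodd hlm D hG hD hlam
  obtain ⟨C, -, hC⟩ := h2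
  obtain ⟨c, hc, hlow⟩ := Q38.primes_lower
  refine ⟨c, C, hc, fun x hx => ?_⟩
  rw [orderCount_eq]
  refine ⟨(hlow x hx).trans (Q38.cnt_mono ?_ x), hC x hx⟩
  rintro n ⟨hn, -⟩
  exact ⟨hn.two_le, 3, 3, le_rfl, by decide, Nat.prime_three, hL, dvd_rfl, of_prime hn⟩

end Pool.Agent.Lib.MP_79499b_co.QuantitativeOrdersOld
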