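import Mathlib

/-!
# The sum of the reciprocals of the primes in a residue class diverges
-/

namespace Pool.Agent.Lib.MP_79499b_co.RecipAP29

open ArithmeticFunction vonMangoldt Filter Topology Set

variable {q : ℕ} [NeZero q] {a : ZMod q}

/-- The sum of the reciprocals of the primes in an invertible residue class diverges. -/
theorem not_summable_inv_prime (ha : IsUnit a) :
    ¬ Summable fun n : ℕ => if n.Prime ∧ (n : ZMod q) = a then ((n : ℝ))⁻¹ else 0 := by
  intro H
  set f : ℕ → ℝ := fun n => if n.Prime ∧ (n : ZMod q) = a then ((n : ℝ))⁻¹ else 0 with hf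
  have hf0 : ∀ n, 0 ≤ f n := fun n => by
    simp only [hf]; split_ifs <;> positivity
  set L : ℝ := (q.totient : ℝ)⁻¹ with hL
  have hLpos : 0 < L := inv_pos.mpr (mod_cast q.totient.pos_of_neZero)
  -- a small tail
  obtain ⟨Y, hY⟩ : ∃ Y : ℕ, ∑' n, f (n + Y) < L / 2 := by
    have := tendsto_sum_nat_add f
    exact ((this.eventually (gt_mem_nhds (by positivity : (0 : ℝ) < L / 2))).exists)
  set tail : ℕ → ℝ := fun n => if n < Y then 0 else f n with htail
  have htailsum : Summable tail := by
    refine Summable.of_nonneg_of_le (fun n => ?_) (fun n => ?_) H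
    · simp only [htail]; split_ifs; exacts [le_rfl, hf0 n]
    · simp only [htail]; split_ifs; exacts [hf0 n, le_rfl]
  have htail' : ∑' n, tail n < L / 2 := by
    rw [← htailsum.sum_add_tsum_nat_add Y]
    have h1 : ∑ i ∈ Finset.range Y, tail i = 0 := by
      apply Finset.sum_eq_zero
      intro i hi
      simp only [htail, if_pos (Finset.mem_range.mp hi)]
    have h2 : ∀ i, tail (i + Y) = f (i + Y) := by
      intro i
      simp only [htail]
      rw [if_neg (by omega)]
    simp only [h1, h2, zero_add]
    exact hY
  set g : ℕ → ℝ := fun n => (if n.Prime then 0 else residueClass a n) / n +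
    (if n < Y then residueClass a n / n else 0) with hg
  have hgsum : Summable g := by
    apply Summable.add
    · exact summable_residueClass_non_primes_div a
    · apply summable_of_ne_finset_zero (s := Finset.range Y)
      intro n hn
      rw [if_neg]
      simpa using hn
  obtain ⟨C', hC'⟩ := LSeries_residueClass_lower_bound ha
  have key : ∀ x ∈ Ioc (1 : ℝ) 2, L / 2 ≤ (∑' n, g n + C') * (x - 1) := by
    intro x hx
    have hx0 : 0 < x - 1 := sub_pos.mpr hx.1
    have hpt : ∀ n : ℕ, residueClass a n / (n : ℝ) ^ x ≤ g n + tail n * (x - 1)⁻¹ := by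
      intro n
      rcases n.eq_zero_or_pos with rfl | hn
      · simp [hg, htail]
        split_ifs
        · exact le_rfl
        · have := hf0 0; positivity
      have hn1 : (1 : ℝ) ≤ n := by exact_mod_cast hn
      have hle : residueClass a n / (n : ℝ) ^ x ≤ residueClass a n / n := by
        refine div_le_div_of_nonneg_left (residueClass_nonneg a _) (by positivity) ?_
        conv_lhs => rw [← Real.rpow_one n]
        exact Real.rpow_le_rpow_of_exponent_le hn1 hx.1.le
      have htn : 0 ≤ tail n := by
        simp only [htail]; split_ifs; exacts [le_rfl, hf0 n]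
      have hrn : 0 ≤ residueClass a n / n := div_nonneg (residueClass_nonneg a _) (by positivity)
      by_cases hp : n.Prime
      · by_cases hnY : n < Y
        · have : g n = residueClass a n / n := by simp [hg, hp, hnY]
          rw [this]
          have : 0 ≤ tail n * (x - 1)⁻¹ := by positivity
          linarith
        · have hgn : g n = 0 := by simp [hg, hp, hnY]
          have htn' : tail n = f n := by simp [htail, hnY]
          rw [hgn, htn', zero_add]
          by_cases hna : (n : ZMod q) = a
          · have h1 : residueClass a n = Real.log n := by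
              rw [residueClass, Set.indicator_of_mem (by exact hna),
                vonMangoldt_apply_prime hp]
            have h2 : f n = (n : ℝ)⁻¹ := by simp [hf, hp, hna]
            rw [h1, h2]
            have h3 : Real.log n ≤ (n : ℝ) ^ (x - 1) / (x - 1) :=
              Real.log_le_rpow_div (by positivity) hx0
            have h4 : (n : ℝ) ^ x = n * (n : ℝ) ^ (x - 1) := by
              rw [← Real.rpow_one_add' (by positivity) (by linarith)]
              congr 1; ring
            rw [h4]
            have h5 : 0 < (n : ℝ) ^ (x - 1) := by positivity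
            rw [div_le_iff₀ (by positivity)]
            calc Real.log n ≤ (n : ℝ) ^ (x - 1) / (x - 1) := h3
              _ = (n : ℝ)⁻¹ * (x - 1)⁻¹ * (n * (n : ℝ) ^ (x - 1)) := by
                field_simp
          · have h1 : residueClass a n = 0 := by
              rw [residueClass, Set.indicator_of_notMem (by exact hna)]
            have h2 : f n = 0 := by simp [hf, hna]
            rw [h1, h2]; simp
      · have h1 : residueClass a n / n ≤ g n := by
          simp only [hg, if_neg hp]
          have : 0 ≤ (if n < Y then residueClass a n / (n : ℝ) else 0) := by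
            split_ifs; exacts [hrn, le_rfl]
          linarith
        have : 0 ≤ tail n * (x - 1)⁻¹ := by positivity
        linarith
    have hsum : Summable (fun n => residueClass a n / (n : ℝ) ^ x) := by
      exact LSeries.summable_real_of_abscissaOfAbsConv_lt <|
        (abscissaOfAbsConv_residueClass_le_one a).trans_lt <| mod_cast hx.1
    have h1 : ∑' n, residueClass a n / (n : ℝ) ^ x ≤ ∑' n, g n + (∑' n, tail n) * (x - 1)⁻¹ := by
      rw [← tsum_mul_right, ← hgsum.tsum_add (htailsum.mul_right _)]
      exact hsum.tsum_le_tsum hpt (hgsum.add (htailsum.mul_right _))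
    have h2 := (hC' hx).trans h1
    have h3 : (∑' n, tail n) * (x - 1)⁻¹ ≤ L / 2 * (x - 1)⁻¹ :=
      mul_le_mul_of_nonneg_right htail'.le (by positivity)
    have h4 : L / (x - 1) - L / 2 * (x - 1)⁻¹ ≤ ∑' n, g n + C' := by
      rw [← hL] at h2; linarith
    have h5 : L / 2 / (x - 1) ≤ ∑' n, g n + C' := by
      have : L / (x - 1) - L / 2 * (x - 1)⁻¹ = L / 2 / (x - 1) := by field_simp; ring
      rwa [this] at h4
    rwa [div_le_iff₀ hx0] at h5
  -- contradiction as x → 1
  have hlim : Tendsto (fun x : ℝ => (∑' n, g n + C') * (x - 1)) (𝓝[>] 1) (𝓝 0) := by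
    have : Tendsto (fun x : ℝ => (∑' n, g n + C') * (x - 1)) (𝓝 1) (𝓝 ((∑' n, g n + C') * (1 - 1))) :=
      (continuous_const.mul (continuous_id.sub continuous_const)).tendsto 1
    rw [sub_self, mul_zero] at this
    exact this.mono_left nhdsWithin_le_nhds
  have hev : ∀ᶠ x in 𝓝[>] (1 : ℝ), L / 2 ≤ (∑' n, g n + C') * (x - 1) := by
    filter_upwards [Ioc_mem_nhdsGT (show (1 : ℝ) < 2 by norm_num)] with x hx using key x hx
  have := ge_of_tendsto hlim hev
  linarith

end Pool.Agent.Lib.MP_79499b_co.RecipAP29
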