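import Mathlib

/-! Elementary self-conjugacy argument in the integral group ring of a finite abelian group. -/

namespace Pool.Agent.Lib.MP_79499b_co.SelfConj37

open MonoidAlgebra

section basics

variable {Q : Type*} [CommGroup Q]

/-- inversion on the group ring -/
noncomputable def inv' (R : Type*) [CommRing R] : MonoidAlgebra R Q →+* MonoidAlgebra R Q :=
  MonoidAlgebra.mapDomainRingHom R (invMonoidHom : Q →* Q)

lemma frob (p : ℕ) [Fact p.Prime] (k : ℕ) (x : MonoidAlgebra (ZMod p) Q) :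
    x ^ (p ^ k) = MonoidAlgebra.mapDomainRingHom (ZMod p) (powMonoidHom (p ^ k) : Q →* Q) x := by
  have : CharP (MonoidAlgebra (ZMod p) Q) p := charP_of_injective_algebraMap
    (algebraMap (ZMod p) (MonoidAlgebra (ZMod p) Q)).injective p
  have : ExpChar (MonoidAlgebra (ZMod p) Q) p := ExpChar.prime Fact.out
  have h : iterateFrobenius (MonoidAlgebra (ZMod p) Q) p k =
      MonoidAlgebra.mapDomainRingHom (ZMod p) (powMonoidHom (p ^ k) : Q →* Q) := by
    apply MonoidAlgebra.ringHom_ext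
    · intro r
      rw [iterateFrobenius_def, MonoidAlgebra.single_pow]
      simp [ZMod.pow_card_pow]
    · intro g
      rw [iterateFrobenius_def, MonoidAlgebra.single_pow]
      simp
  rw [← h, iterateFrobenius_def]

/-- If `p` is self-conjugate modulo the exponent, then `x * x^(-1) = 0` forces `x = 0` over `F_p`. -/
lemma eq_zero_of_mul_inv (p : ℕ) [hp : Fact p.Prime] {e j : ℕ} (hj : 0 < j)
    (he : ∀ g : Q, g ^ e = 1) (hdvd : e ∣ p ^ j + 1) (x : MonoidAlgebra (ZMod p) Q)
    (hx : x * inv' (ZMod p) x = 0) : x = 0 := by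
  have h1 : (powMonoidHom (p ^ j) : Q →* Q) = invMonoidHom := by
    ext g
    simp only [powMonoidHom_apply, coe_invMonoidHom]
    obtain ⟨t, ht⟩ := hdvd
    have : g ^ (p ^ j + 1) = 1 := by rw [ht, pow_mul, he, one_pow]
    rw [pow_succ] at this
    exact eq_inv_of_mul_eq_one_left this
  have h2 : (powMonoidHom (p ^ (2 * j)) : Q →* Q) = MonoidHom.id Q := by
    ext g
    simp only [powMonoidHom_apply, MonoidHom.id_apply]
    have := DFunLike.congr_fun h1 g
    simp only [powMonoidHom_apply, coe_invMonoidHom] at this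
    rw [two_mul, pow_add, pow_mul, this, inv_pow, this, inv_inv]
  have h3 : inv' (ZMod p) x = x ^ (p ^ j) := by
    rw [frob, h1]; rfl
  have h4 : x ^ (p ^ (2 * j)) = x := by
    rw [frob, h2, MonoidAlgebra.mapDomainRingHom_id]; rfl
  have h5 : x ^ (p ^ j + 1) = 0 := by
    rw [pow_succ', ← h3, hx]
  have h6 : p ^ j + 1 ≤ p ^ (2 * j) := by
    have h2p : 2 ≤ p := hp.out.two_le
    have : 2 ≤ p ^ j := by
      calc 2 ≤ p := h2p
        _ = p ^ 1 := (pow_one p).symm
        _ ≤ p ^ j := Nat.pow_le_pow_right (by omega) hj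
    rw [two_mul, pow_add]
    nlinarith
  obtain ⟨t, ht⟩ := Nat.exists_eq_add_of_le h6
  rw [← h4, ht, pow_add, h5, zero_mul]

/-- reduction modulo `p` -/
noncomputable def red (p : ℕ) : MonoidAlgebra ℤ Q →+* MonoidAlgebra (ZMod p) Q :=
  MonoidAlgebra.mapRingHom Q (Int.castRingHom (ZMod p))

lemma red_inv (p : ℕ) [Fact p.Prime] (x : MonoidAlgebra ℤ Q) :
    red p (inv' ℤ x) = inv' (ZMod p) (red p x) := by
  have := MonoidAlgebra.mapRingHom_comp_mapDomainRingHom (Int.castRingHom (ZMod p))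
    (invMonoidHom : Q →* Q)
  exact congrArg (fun f => f x) this

/-- the sum of all group elements -/
noncomputable def allSum (Q : Type*) [CommGroup Q] [Fintype Q] : MonoidAlgebra ℤ Q :=
  ∑ g : Q, MonoidAlgebra.single g 1

lemma exists_eq_smul_of_red_eq_zero (p : ℕ) [hp : Fact p.Prime] (x : MonoidAlgebra ℤ Q)
    (hx : red p x = 0) : ∃ y : MonoidAlgebra ℤ Q, x = (p : ℤ) • y := by
  refine ⟨MonoidAlgebra.ofCoeff (x.coeff.mapRange (fun a => a / (p : ℤ)) (by simp)), ?_⟩
  ext g
  have h : (red p x).coeff g = 0 := by rw [hx]; simp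
  have h' : ((x.coeff g : ℤ) : ZMod p) = 0 := by
    simpa [red] using h
  rw [ZMod.intCast_zmod_eq_zero_iff_dvd] at h'
  rw [MonoidAlgebra.coeff_smul, Finsupp.smul_apply, smul_eq_mul]
  simp only [Finsupp.mapRange_apply]
  rw [Int.mul_ediv_cancel' h']

lemma coeff_allSum [Fintype Q] (g : Q) : (allSum Q).coeff g = 1 := by
  classical
  simp [allSum, Finsupp.single_apply]

/-- The elementary Mann-type lemma: `X X^(-1) = s (w² - w N)` is impossible if `p` divides `s`
to an odd power and `p` is self-conjugate. -/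
theorem no_odd [Fintype Q] (p : ℕ) [hp : Fact p.Prime] {j : ℕ} (hj : 0 < j)
    (hcard : 1 < Fintype.card Q) (hdvd : Fintype.card Q ∣ p ^ j + 1)
    (c : ℕ) (s : ℤ) (hs : ¬ (p : ℤ) ∣ s) (X : MonoidAlgebra ℤ Q)
    (hX : X * inv' ℤ X = ((p : ℤ) ^ (2 * c + 1) * s) •
      (((Fintype.card Q : ℤ) ^ 2) • (1 : MonoidAlgebra ℤ Q) - (Fintype.card Q : ℤ) • allSum Q)) :
    False := by
  have hpw : ¬ (p : ℤ) ∣ (Fintype.card Q : ℤ) := by
    intro h
    have h1 : p ∣ Fintype.card Q := by exact_mod_cast h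
    have h2 : p ∣ p ^ j + 1 := h1.trans hdvd
    have h3 : p ∣ p ^ j := dvd_pow_self p hj.ne'
    have h4 : p ∣ 1 := (Nat.dvd_add_right h3).mp h2
    exact hp.out.one_lt.ne' (Nat.dvd_one.mp h4)
  have key : ∀ (t : ℤ) (X : MonoidAlgebra ℤ Q), X * inv' ℤ X = ((p : ℤ) * t) •
      (((Fintype.card Q : ℤ) ^ 2) • (1 : MonoidAlgebra ℤ Q) - (Fintype.card Q : ℤ) • allSum Q) →
      ∃ Y : MonoidAlgebra ℤ Q, (p : ℤ) • (Y * inv' ℤ Y) = t •
      (((Fintype.card Q : ℤ) ^ 2) • (1 : MonoidAlgebra ℤ Q) - (Fintype.card Q : ℤ) • allSum Q) := by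
    intro t X hX
    obtain ⟨Y, rfl⟩ : ∃ Y : MonoidAlgebra ℤ Q, X = (p : ℤ) • Y := by
      apply exists_eq_smul_of_red_eq_zero
      apply eq_zero_of_mul_inv p hj (e := Fintype.card Q) (fun g => pow_card_eq_one) hdvd
      rw [← red_inv, ← map_mul, hX, mul_smul]
      rw [zsmul_eq_mul, map_mul, map_intCast]
      have : ((p : ℤ) : MonoidAlgebra (ZMod p) Q) = 0 := by
        have : CharP (MonoidAlgebra (ZMod p) Q) p := charP_of_injective_algebraMap
          (algebraMap (ZMod p) (MonoidAlgebra (ZMod p) Q)).injective p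
        have h := CharP.cast_eq_zero (MonoidAlgebra (ZMod p) Q) p
        exact_mod_cast h
      rw [this, zero_mul]
    refine ⟨Y, ?_⟩
    have h1 : (p : ℤ) • ((p : ℤ) • (Y * inv' ℤ Y)) = (p : ℤ) • (t •
      (((Fintype.card Q : ℤ) ^ 2) • (1 : MonoidAlgebra ℤ Q) -
        (Fintype.card Q : ℤ) • allSum Q)) := by
      rw [← mul_smul (p : ℤ) t, ← hX]
      simp only [zsmul_eq_mul, map_mul, map_intCast]
      ring
    have hp0 : (p : ℤ) ≠ 0 := by exact_mod_cast hp.out.ne_zero
    ext g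
    have h2 := congrArg (fun z => z.coeff g) h1
    simp only [MonoidAlgebra.coeff_smul, Finsupp.smul_apply, smul_eq_mul] at h2 ⊢
    exact mul_left_cancel₀ hp0 h2
  induction c generalizing X with
  | zero =>
    obtain ⟨Y, hY⟩ := key s X (by rw [hX]; norm_num)
    obtain ⟨g, hg⟩ := Fintype.exists_ne_of_one_lt_card hcard (1 : Q)
    have h2 := congrArg (fun z => z.coeff g) hY
    simp only [MonoidAlgebra.coeff_smul, Finsupp.smul_apply, smul_eq_mul, MonoidAlgebra.coeff_sub,
      Finsupp.sub_apply, coeff_allSum] at h2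
    have h3 : (1 : MonoidAlgebra ℤ Q).coeff g = 0 := by
      classical
      rw [MonoidAlgebra.one_def, MonoidAlgebra.coeff_single, Finsupp.single_apply, if_neg hg.symm]
    rw [h3] at h2
    have h4 : (p : ℤ) ∣ s * (Fintype.card Q : ℤ) := by
      refine ⟨-(Y * inv' ℤ Y).coeff g, ?_⟩
      linarith
    rcases (Nat.prime_iff_prime_int.mp hp.out).dvd_or_dvd h4 with h | h
    · exact hs h
    · exact hpw h
  | succ c ih =>
    obtain ⟨Y, hY⟩ := key ((p : ℤ) ^ (2 * c + 2) * s) X (by rw [hX]; ring_nf)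
    apply ih Y
    have hp0 : (p : ℤ) ≠ 0 := by exact_mod_cast hp.out.ne_zero
    ext g
    have h2 := congrArg (fun z => z.coeff g) hY
    simp only [MonoidAlgebra.coeff_smul, Finsupp.smul_apply, smul_eq_mul] at h2 ⊢
    apply mul_left_cancel₀ hp0
    rw [h2]
    ring

lemma single_mul_allSum [Fintype Q] (q : Q) :
    MonoidAlgebra.single q (1 : ℤ) * allSum Q = allSum Q := by
  rw [allSum, Finset.mul_sum]
  simp only [MonoidAlgebra.single_mul_single, mul_one]
  exact Fintype.sum_equiv (Equiv.mulLeft q) _ _ (fun x => by simp)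

lemma inv_allSum [Fintype Q] : inv' ℤ (allSum Q) = allSum Q := by
  rw [allSum, map_sum]
  have : ∀ q : Q, inv' ℤ (MonoidAlgebra.single q (1 : ℤ)) = MonoidAlgebra.single q⁻¹ 1 := by
    intro q
    simp [inv']
  simp only [this]
  exact Fintype.sum_equiv (Equiv.inv Q) _ _ (fun x => by simp)

lemma inv_single (q : Q) :
    inv' ℤ (MonoidAlgebra.single q (1 : ℤ)) = MonoidAlgebra.single q⁻¹ 1 := by
  simp [inv']

end basics

section ds

variable {Q : Type*} [CommGroup Q] [Fintype Q]
variable {G : Type*} [Group G] [Fintype G] [DecidableEq G]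

/-- image of the set `D` in the group ring of the quotient -/
noncomputable def img (π : G →* Q) (D : Finset G) : MonoidAlgebra ℤ Q :=
  ∑ x ∈ D, MonoidAlgebra.single (π x) 1

omit [Fintype G] [DecidableEq G] in
lemma img_mul_allSum (π : G →* Q) (D : Finset G) :
    img π D * allSum Q = (D.card : ℤ) • allSum Q := by
  rw [img, Finset.sum_mul]
  simp [single_mul_allSum]

omit [Fintype Q] in
lemma img_mul_inv (π : G →* Q) (D : Finset G) :
    img π D * inv' ℤ (img π D) = ∑ g : G,
      (((D ×ˢ D).filter (fun p : G × G => p.1 * p.2⁻¹ = g)).card : ℤ) •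
        MonoidAlgebra.single (π g) (1 : ℤ) := by
  rw [img, map_sum, Finset.sum_mul_sum]
  simp only [inv_single, MonoidAlgebra.single_mul_single, mul_one]
  rw [← Finset.sum_product' (f := fun a b => MonoidAlgebra.single (π a * (π b)⁻¹) (1 : ℤ))]
  rw [← Finset.sum_fiberwise_of_maps_to (s := D ×ˢ D) (t := Finset.univ)
    (g := fun p : G × G => p.1 * p.2⁻¹) (fun _ _ => Finset.mem_univ _)]
  refine Finset.sum_congr rfl (fun g _ => ?_)
  rw [Finset.sum_congr rfl (g := fun _ => MonoidAlgebra.single (π g) (1 : ℤ))]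
  · rw [Finset.sum_const]
    simp
  · intro x hx
    rw [Finset.mem_filter] at hx
    rw [← hx.2, map_mul, map_inv]

omit [DecidableEq G] in
lemma sum_single_hom (π : G →* Q) (hπ : Function.Surjective π) :
    ∃ K : ℕ, K * Fintype.card Q = Fintype.card G ∧
      ∑ g : G, MonoidAlgebra.single (π g) (1 : ℤ) = (K : ℤ) • allSum Q := by
  classical
  set K := (Finset.univ.filter (fun g : G => π g = 1)).card with hK
  have hfib : ∀ q : Q, (Finset.univ.filter (fun g : G => π g = q)).card = K := by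
    intro q
    exact MonoidHom.card_fiber_eq_of_mem_range π (hπ q) (hπ 1)
  refine ⟨K, ?_, ?_⟩
  · have h1 : Fintype.card G = ∑ q : Q, (Finset.univ.filter (fun g : G => π g = q)).card := by
      rw [← Finset.card_univ]
      exact Finset.card_eq_sum_card_fiberwise (fun _ _ => Finset.mem_univ _)
    rw [h1]
    simp [hfib, mul_comm]
  · rw [← Finset.sum_fiberwise_of_maps_to (s := (Finset.univ : Finset G)) (t := Finset.univ)
      (g := fun g : G => π g) (fun _ _ => Finset.mem_univ _)]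
    rw [allSum, Finset.smul_sum]
    refine Finset.sum_congr rfl (fun q _ => ?_)
    rw [Finset.sum_congr rfl (g := fun _ => MonoidAlgebra.single q (1 : ℤ))]
    · rw [Finset.sum_const, hfib]
      simp
    · intro x hx
      rw [Finset.mem_filter] at hx
      rw [hx.2]

/-- The basic equation in the group ring of a quotient group. -/
lemma quotient_eq (π : G →* Q) (hπ : Function.Surjective π) (D : Finset G) (lam : ℕ)
    (hD : ∀ g : G, g ≠ 1 → ((D ×ˢ D).filter (fun p : G × G => p.1 * p.2⁻¹ = g)).card = lam) :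
    ∃ K : ℕ, K * Fintype.card Q = Fintype.card G ∧
    img π D * inv' ℤ (img π D) = ((D.card : ℤ) - lam) • (1 : MonoidAlgebra ℤ Q) +
      ((lam : ℤ) * K) • allSum Q := by
  obtain ⟨K, hK, hsum⟩ := sum_single_hom π hπ
  refine ⟨K, hK, ?_⟩
  have h1 : ((D ×ˢ D).filter (fun p : G × G => p.1 * p.2⁻¹ = 1)).card = D.card := by
    have : (D ×ˢ D).filter (fun p : G × G => p.1 * p.2⁻¹ = 1) = D.diag := by
      ext ⟨a, b⟩
      simp only [Finset.mem_filter, Finset.mem_product, Finset.mem_diag, mul_inv_eq_one]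
      constructor
      · rintro ⟨⟨h1, _⟩, h3⟩; exact ⟨h1, h3⟩
      · rintro ⟨h1, h3⟩; subst h3; exact ⟨⟨h1, h1⟩, rfl⟩
    rw [this, Finset.diag_card]
  have h2 : ∀ g : G, (((D ×ˢ D).filter (fun p : G × G => p.1 * p.2⁻¹ = g)).card : ℤ) =
      lam + (if g = 1 then ((D.card : ℤ) - lam) else 0) := by
    intro g
    by_cases hg : g = 1
    · subst hg; rw [h1]; simp
    · rw [hD g hg]; simp [hg]
  rw [img_mul_inv]
  simp only [h2, add_smul, Finset.sum_add_distrib, ite_smul, zero_smul, Finset.sum_ite_eq',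
    Finset.mem_univ, if_true, map_one]
  rw [← Finset.smul_sum, hsum, smul_smul, add_comm, MonoidAlgebra.one_def]

lemma card_sq (D : Finset G) (lam : ℕ)
    (hD : ∀ g : G, g ≠ 1 → ((D ×ˢ D).filter (fun p : G × G => p.1 * p.2⁻¹ = g)).card = lam) :
    (D.card : ℤ) * D.card = ((D.card : ℤ) - lam) + lam * Fintype.card G := by
  obtain ⟨K, hK, h⟩ := quotient_eq (1 : G →* Multiplicative (ZMod 1))
    (fun x => ⟨1, Subsingleton.elim _ _⟩) D lam hD
  have h1 : img (1 : G →* Multiplicative (ZMod 1)) D =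
      (D.card : ℤ) • (1 : MonoidAlgebra ℤ (Multiplicative (ZMod 1))) := by
    rw [img]
    simp [MonoidAlgebra.one_def]
  have h2 : allSum (Multiplicative (ZMod 1)) = 1 := by
    rw [allSum, Fintype.sum_subsingleton _ 1, MonoidAlgebra.one_def]
  have hc : Fintype.card (Multiplicative (ZMod 1)) = 1 := by
    rw [Fintype.card_multiplicative]; exact ZMod.card 1
  rw [hc, mul_one] at hK
  rw [h1, h2] at h
  have h3 := congrArg (fun z => z.coeff 1) h
  simp only [zsmul_eq_mul, mul_one, map_intCast] at h3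
  have h4 : ∀ a : ℤ, ((a : MonoidAlgebra ℤ (Multiplicative (ZMod 1)))).coeff 1 = a := by
    intro a
    have : (a : MonoidAlgebra ℤ (Multiplicative (ZMod 1))) = a • 1 := by simp
    rw [this, MonoidAlgebra.coeff_smul, Finsupp.smul_apply, MonoidAlgebra.coeff_one_one]
    simp
  rw [← Int.cast_mul, ← Int.cast_add, h4, h4] at h3
  rw [h3, hK]

/-- The element `X = w D̄ - k N` and its autocorrelation. -/
theorem X_eq (π : G →* Q) (hπ : Function.Surjective π) (D : Finset G) (lam : ℕ)
    (hD : ∀ g : G, g ≠ 1 → ((D ×ˢ D).filter (fun p : G × G => p.1 * p.2⁻¹ = g)).card = lam) :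
    ∃ X : MonoidAlgebra ℤ Q, X * inv' ℤ X = ((D.card : ℤ) - lam) •
      (((Fintype.card Q : ℤ) ^ 2) • (1 : MonoidAlgebra ℤ Q) -
        (Fintype.card Q : ℤ) • allSum Q) := by
  obtain ⟨K, hK, h⟩ := quotient_eq π hπ D lam hD
  have hk := card_sq D lam hD
  refine ⟨(Fintype.card Q : ℤ) • img π D - (D.card : ℤ) • allSum Q, ?_⟩
  have hN : allSum Q * allSum Q = (Fintype.card Q : ℤ) • allSum Q := by
    have h0 : allSum Q * allSum Q = ∑ g : Q, MonoidAlgebra.single g (1 : ℤ) * allSum Q := by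
      rw [← Finset.sum_mul]; rfl
    rw [h0]
    simp only [single_mul_allSum, Finset.sum_const, Finset.card_univ]
    rw [natCast_zsmul]
  have h1 := img_mul_allSum π D
  have h2 : allSum Q * inv' ℤ (img π D) = (D.card : ℤ) • allSum Q := by
    have := congrArg (inv' ℤ) h1
    rw [map_mul, inv_allSum, map_zsmul, inv_allSum, mul_comm] at this
    exact this
  have e : (Fintype.card G : ℤ) = K * Fintype.card Q := by exact_mod_cast hK.symm
  rw [map_sub, map_zsmul, map_zsmul, inv_allSum, sub_mul, mul_sub, mul_sub]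
  simp only [smul_mul_assoc, mul_smul_comm, h, h1, h2, hN]
  simp only [smul_smul, smul_add, smul_sub]
  rw [e] at hk
  have : ((Fintype.card Q : ℤ) * ((Fintype.card Q : ℤ) * (lam * K))) -
      (Fintype.card Q : ℤ) * D.card * D.card = - (((D.card : ℤ) - lam) * Fintype.card Q) := by
    linear_combination (-(Fintype.card Q : ℤ)) * hk
  ext g
  simp only [MonoidAlgebra.coeff_sub, MonoidAlgebra.coeff_add, MonoidAlgebra.coeff_smul,
    Finsupp.sub_apply, Finsupp.add_apply, Finsupp.smul_apply, smul_eq_mul, coeff_allSum]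
  linear_combination this

/-- Mann's test for a prime-order-type quotient, arbitrary group `G`. -/
theorem mann (π : G →* Q) (hπ : Function.Surjective π) (D : Finset G) (lam : ℕ)
    (hD : ∀ g : G, g ≠ 1 → ((D ×ˢ D).filter (fun p : G × G => p.1 * p.2⁻¹ = g)).card = lam)
    (p : ℕ) [hp : Fact p.Prime] {j : ℕ} (hj : 0 < j)
    (hcard : 1 < Fintype.card Q) (hdvd : Fintype.card Q ∣ p ^ j + 1)
    (hpos : D.card ≠ lam) (hodd : Odd (padicValInt p ((D.card : ℤ) - lam))) : False := by
  obtain ⟨X, hX⟩ := X_eq π hπ D lam hD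
  obtain ⟨c, hc⟩ := hodd
  have h0 : (D.card : ℤ) - lam ≠ 0 := by
    intro h; apply hpos; omega
  obtain ⟨s, hs⟩ : (p : ℤ) ^ (2 * c + 1) ∣ (D.card : ℤ) - lam := by
    rw [← hc]; exact padicValInt_dvd _
  have hs' : ¬ (p : ℤ) ∣ s := by
    rintro ⟨t, rfl⟩
    have h3 : (p : ℤ) ^ (2 * c + 1 + 1) ∣ (D.card : ℤ) - lam := ⟨t, by rw [hs]; ring⟩
    rw [padicValInt_dvd_iff] at h3
    rcases h3 with h3 | h3
    · exact h0 h3
    · omega
  rw [hs] at hX
  exact no_odd p hj hcard hdvd c s hs' X hX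

end ds

end Pool.Agent.Lib.MP_79499b_co.SelfConj37
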