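import Pool.Agent.Lib.MP_79499b_co.Assembly

/-!
# Semimultipliers and the final forms of the line and twist theorems
-/

namespace Pool.Agent.Lib.MP_79499b_co

open Finset MonoidAlgebra

/-- `t` is a semimultiplier on the abelian group `Q` (for the number `n` and the kernel order `κ`):
on `Q` the power map `x ↦ x^t` equals `x ↦ x^(m l^j)` for a prime divisor `l` of `n` and a number
`m` as in the second multiplier theorem, that is, there is a divisor `n₁` of `n²` with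
`κ (n+1) < n₁` or `n₁ = n²` such that for every prime divisor `r` of `n₁` the map `x ↦ x^m` equals
`x ↦ x^(r^i)` on `Q` for some `i`. -/
def Semimultiplier (n κ : ℕ) (Q : Type) [CommGroup Q] (t : ℕ) : Prop :=
  ∃ m l j n₁ : ℕ, l.Prime ∧ l ∣ n ∧ (∀ x : Q, x ^ t = x ^ (m * l ^ j)) ∧
    n₁ ∣ n ^ 2 ∧ (κ * (n + 1) < n₁ ∨ n₁ = n ^ 2) ∧
    ∀ r : ℕ, r.Prime → r ∣ n₁ → ∃ i : ℕ, ∀ x : Q, x ^ m = x ^ r ^ i

lemma two_subgroups {G Q : Type} [Group G] [Finite G] [CommGroup Q] [Finite Q] {n : ℕ}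
    (hn : 2 ≤ n) (D : Finset G) (φ : G →* Q) (hφ : Function.Surjective φ)
    (hcard : Nat.card φ.ker * Nat.card Q = (n + 1) * (n ^ 2 + 1)) (A B : Subgroup Q)
    (hA : A.index = n ^ 2 + 1) (hB : B.index = n ^ 2 + 1)
    (hDA : ∃ c : G, (∀ g : G, φ (g * c⁻¹) ∈ A → g ∈ D) ∧
      ∀ g : G, φ (g * c⁻¹) ∉ A → ∃! d : G, d ∈ D ∧ φ (d * g⁻¹) ∈ A)
    (hDB : ∃ c : G, (∀ g : G, φ (g * c⁻¹) ∈ B → g ∈ D) ∧
      ∀ g : G, φ (g * c⁻¹) ∉ B → ∃! d : G, d ∈ D ∧ φ (d * g⁻¹) ∈ B) : B = A := by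
  have hAc : Nat.card φ.ker * Nat.card A = n + 1 := by
    have h1 := Subgroup.card_mul_index A
    rw [hA] at h1
    rw [← h1, ← mul_assoc] at hcard
    exact Nat.eq_of_mul_eq_mul_right (by positivity) hcard
  have hBc : Nat.card φ.ker * Nat.card B = n + 1 := by
    have h1 := Subgroup.card_mul_index B
    rw [hB] at h1
    rw [← h1, ← mul_assoc] at hcard
    exact Nat.eq_of_mul_eq_mul_right (by positivity) hcard
  have hkpos : 0 < Nat.card φ.ker := Nat.card_pos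
  have hAB : Nat.card A = Nat.card B :=
    Nat.eq_of_mul_eq_mul_left hkpos (hAc.trans hBc.symm)
  -- a nontrivial element in both preimages
  have hex : ∃ h : G, h ≠ 1 ∧ φ h ∈ A ∧ φ h ∈ B := by
    by_contra hcon
    push Not at hcon
    have hker : ∀ h : G, φ h = 1 → h = 1 := by
      intro h hh
      by_contra hne
      exact hcon h hne (by rw [hh]; exact A.one_mem) (by rw [hh]; exact B.one_mem)
    have hinj : Function.Injective φ := (injective_iff_map_eq_one φ).mpr hker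
    have hk1 : Nat.card φ.ker = 1 := by
      rw [(MonoidHom.ker_eq_bot_iff φ).mpr hinj]; simp
    rw [hk1, one_mul] at hAc hBc hcard
    have hdisj : Disjoint A B := by
      rw [Subgroup.disjoint_def]
      intro x hxA hxB
      obtain ⟨g, rfl⟩ := hφ x
      by_contra hne
      exact hcon g (fun h => hne (by rw [h, map_one])) hxA hxB
    have hinj2 : Function.Injective ((A.subtype).coprod (B.subtype) : A × B →* Q) := by
      intro x y hxy
      exact Subgroup.mul_injective_of_disjoint hdisj hxy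
    have h1 := Subgroup.card_dvd_of_injective _ hinj2
    rw [Nat.card_prod, hAc, hBc, hcard] at h1
    have h2 : n + 1 ∣ n ^ 2 + 1 := Nat.dvd_of_mul_dvd_mul_left (by omega) h1
    have h3 := prime_dvd_two (n := n) (r := n + 1) dvd_rfl h2
    have h4 := Nat.le_of_dvd (by norm_num) h3
    omega
  obtain ⟨h, hne, hhA, hhB⟩ := hex
  obtain ⟨c, hc1, hc2⟩ := hDA
  obtain ⟨e, he1, he2⟩ := hDB
  have key : ∀ g : G, φ (g * e⁻¹) ∈ B → φ (g * c⁻¹) ∈ A := by
    intro g hg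
    by_contra hgA
    obtain ⟨d, -, hd⟩ := hc2 g hgA
    have h1 : g = d := hd g ⟨he1 g hg, by simp [A.one_mem]⟩
    have h2 : h * g = d := hd (h * g) ⟨he1 _ (by
      rw [mul_assoc, map_mul]; exact B.mul_mem hhB hg), by simpa using hhA⟩
    rw [← h1] at h2
    exact hne (mul_eq_right.mp h2)
  have hle : B ≤ A := by
    intro x hx
    obtain ⟨g, rfl⟩ := hφ x
    have h1 := key (g * e) (by simpa using hx)
    have h2 := key e (by simp [B.one_mem])
    have h3 : φ (g * e * c⁻¹) * (φ (e * c⁻¹))⁻¹ = φ g := by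
      rw [← map_inv, ← map_mul]; congr 1; group
    rw [← h3]
    exact A.mul_mem h1 (A.inv_mem h2)
  exact Subgroup.eq_of_le_of_card_ge hle hAB.le

/-- Final form of the line theorem. -/
theorem line_final (n : ℕ) (hn : 2 ≤ n) (G : Type) [Group G] [Fintype G] [DecidableEq G]
    (hG : Fintype.card G * (n - 1) = n ^ 4 - 1)
    (D : Finset G) (hk : D.card * (n - 1) = n ^ 3 - 1)
    (hD : ∀ g : G, g ≠ 1 →
      ((D ×ˢ D).filter (fun x : G × G => x.1 * x.2⁻¹ = g)).card * (n - 1) = n ^ 2 - 1)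
    (Q : Type) [CommGroup Q] (φ : G →* Q) (hφ : Function.Surjective φ)
    (hQ : n ^ 2 + 1 ∣ Nat.card Q)
    (s : ℕ) (hs : Semimultiplier n (Nat.card φ.ker) Q s)
    (hinv : ∀ x : Q, x ^ ((s + 1) * (n + 1)) = 1) :
    ∃ A : Subgroup Q, A.index = n ^ 2 + 1 ∧ (∀ B : Subgroup Q, B.index = n ^ 2 + 1 → B = A) ∧
      ∃ c : G, (∀ g : G, φ (g * c⁻¹) ∈ A → g ∈ D) ∧
        ∀ g : G, φ (g * c⁻¹) ∉ A → ∃! d : G, d ∈ D ∧ φ (d * g⁻¹) ∈ A := by
  have : Finite Q := Finite.of_surjective φ hφ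
  have : Fintype Q := Fintype.ofFinite Q
  have h := imageData hn hG D hk hD φ hφ
  obtain ⟨m, l, j, n₁, hl, hln, hst, h1, h2, h3⟩ := hs
  have hinv' : ∀ x : Q, x ^ ((m * l ^ j + 1) * (n + 1)) = 1 := by
    intro x
    have h9 := hinv x
    rw [pow_mul, pow_succ x, hst, ← pow_succ x, ← pow_mul] at h9
    exact h9
  have key : ∀ A : Subgroup Q, A.index = n ^ 2 + 1 →
      ∃ c : G, (∀ g : G, φ (g * c⁻¹) ∈ A → g ∈ D) ∧
        ∀ g : G, φ (g * c⁻¹) ∉ A → ∃! d : G, d ∈ D ∧ φ (d * g⁻¹) ∈ A := by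
    intro A hA
    refine line_structure D φ hφ h A ?_ ⟨n₁, h1, h2, h3⟩ hl hln hinv'
    have h4 := Subgroup.card_mul_index A
    have h5 := h.card_mul
    rw [hA] at h4
    rw [← h4, ← mul_assoc] at h5
    exact Nat.eq_of_mul_eq_mul_right (by positivity) h5
  obtain ⟨r, hr⟩ := hQ
  have hr' : r ∣ Nat.card Q := ⟨n ^ 2 + 1, by rw [hr]; ring⟩
  obtain ⟨A, hA⟩ := exists_subgroup_card_eq r Q hr'
  have hAi : A.index = n ^ 2 + 1 := by
    have h4 := Subgroup.card_mul_index A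
    rw [hA, hr, mul_comm (n ^ 2 + 1)] at h4
    have hrpos : 0 < r := by rw [← hA]; exact Nat.card_pos
    exact Nat.eq_of_mul_eq_mul_left hrpos h4
  exact ⟨A, hAi, fun B hB => two_subgroups hn D φ hφ h.card_mul A B hAi hB (key A hAi) (key B hB),
    key A hAi⟩

/-- Final form of the twist theorem. -/
theorem twist_final (n : ℕ) (hn : 2 ≤ n) (G : Type) [Group G] [Fintype G] [DecidableEq G]
    (hG : Fintype.card G * (n - 1) = n ^ 4 - 1)
    (D : Finset G) (hk : D.card * (n - 1) = n ^ 3 - 1)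
    (hD : ∀ g : G, g ≠ 1 →
      ((D ×ˢ D).filter (fun x : G × G => x.1 * x.2⁻¹ = g)).card * (n - 1) = n ^ 2 - 1)
    (Q : Type) [CommGroup Q] (φ : G →* Q) (hφ : Function.Surjective φ)
    (hQ : n ^ 2 + 1 ∣ Nat.card Q)
    (s : ℕ) (hs : Semimultiplier n (Nat.card φ.ker) Q s)
    (hinv : ∀ x : Q, x ^ ((s + 1) * (n + 1)) = 1)
    (t : ℕ) (ht : Semimultiplier n (Nat.card φ.ker) Q t)
    (hfix : ∀ x : Q, x ^ (t * (n + 1)) = x ^ (n + 1)) :
    ∀ x : Q, x ^ t = x := by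
  have : Finite Q := Finite.of_surjective φ hφ
  have : Fintype Q := Fintype.ofFinite Q
  have h := imageData hn hG D hk hD φ hφ
  obtain ⟨m₀, l₀, j₀, n₀, hl₀, hln₀, hst, h1, h2, h3⟩ := hs
  obtain ⟨m, l, j, n₁, hl, hln, hst', h1', h2', h3'⟩ := ht
  have hinv' : ∀ x : Q, x ^ ((m₀ * l₀ ^ j₀ + 1) * (n + 1)) = 1 := by
    intro x
    have h9 := hinv x
    rw [pow_mul, pow_succ x, hst, ← pow_succ x, ← pow_mul] at h9
    exact h9
  have hfix' : ∀ x : Q, x ^ (m * l ^ j * (n + 1)) = x ^ (n + 1) := by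
    intro x
    have h9 := hfix x
    rw [pow_mul, hst', ← pow_mul] at h9
    exact h9
  intro x
  rw [hst']
  exact h.twist hQ ⟨n₀, h1, h2, h3⟩ hl₀ hln₀ hinv' ⟨n₁, h1', h2', h3'⟩ hl hln hfix' x

end Pool.Agent.Lib.MP_79499b_co
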